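import Pool.Agent.P.MP_b17faa_gt.Defs

namespace Pool.Agent.P.MP_b17faa_gt

open Set Filter Topology

section general

variable {X : Type} [MetricSpace X] [SecondCountableTopology X]

/-- Local to global principle. -/
lemma local_global (good : Set X → Prop)
    (hfin : ∀ s : Set X, s.Finite → good s)
    (hunion : ∀ F : ℕ → Set X, (∀ k, good (F k)) → good (⋃ k, F k))
    (hdich : ∀ F₀ F₁ : Set X, IsClosed F₀ → IsClosed F₁ → Disjoint F₀ F₁ → good F₀ ∨ good F₁) :
    good univ := by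
  have hmono : ∀ t, univ ⊆ t → good t → good univ := fun t ht h => by
    rwa [univ_subset_iff.1 ht] at h
  set B : Set X := {x | ∀ s ∈ 𝓝 x, ¬ good s} with hB
  have hBs : B.Subsingleton := by
    intro x hx y hy
    by_contra hne
    have hd : 0 < dist x y := dist_pos.2 hne
    rcases hdich (Metric.closedBall x (dist x y / 3)) (Metric.closedBall y (dist x y / 3))
      Metric.isClosed_closedBall Metric.isClosed_closedBall
      (Metric.closedBall_disjoint_closedBall (by linarith)) with h | h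
    · exact hx _ (Metric.closedBall_mem_nhds x (by linarith)) h
    · exact hy _ (Metric.closedBall_mem_nhds y (by linarith)) h
  have hex : ∀ x, ∃ s, good s ∧ (x ∈ Bᶜ → s ∈ 𝓝[Bᶜ] x) := by
    intro x
    by_cases hx : x ∈ B
    · exact ⟨∅, hfin _ finite_empty, fun h => absurd hx h⟩
    · simp only [hB, mem_ofPred_eq, not_forall, not_not] at hx
      obtain ⟨s, hs, hg⟩ := hx
      exact ⟨s, hg, fun _ => mem_nhdsWithin_of_mem_nhds hs⟩
  choose f hf hf' using hex
  obtain ⟨t, -, htc, hcov⟩ := TopologicalSpace.countable_cover_nhdsWithin hf'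
  rcases t.eq_empty_or_nonempty with rfl | hne
  · refine hmono B (fun x _ => ?_) (hfin _ hBs.finite)
    by_contra hx
    simpa using hcov hx
  · obtain ⟨e, rfl⟩ := htc.exists_eq_range hne
    refine hmono _ (fun x _ => ?_)
      (hunion (fun k => Nat.casesOn k B fun k => f (e k)) fun k => ?_)
    · by_cases hx : x ∈ B
      · exact mem_iUnion.2 ⟨0, hx⟩
      · have := hcov hx
        simp only [mem_range, iUnion_exists, iUnion_iUnion_eq', mem_iUnion] at this
        obtain ⟨k, hk⟩ := this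
        exact mem_iUnion.2 ⟨k + 1, hk⟩
    · cases k with
      | zero => exact hfin _ hBs.finite
      | succ k => exact hf _

end general

section tags

variable {X : Type} [TopologicalSpace X]

/-- Enlarge `U m` by the complement of `F`, and remove a tag point. -/
def tagged (F : Set X) (z : ℕ → X) (U : ℕ → Set X) (m : ℕ) : Set X := (U m ∪ Fᶜ) \ {z m}

variable {F : Set X} {z : ℕ → X} {U : ℕ → Set X}

omit [TopologicalSpace X] in
lemma mem_tagged_of_mem (hz : ∀ m, z m ∉ F) {x : X} (hx : x ∈ F) {m : ℕ} :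
    x ∈ tagged F z U m ↔ x ∈ U m := by
  have : x ≠ z m := fun h => hz m (h ▸ hx)
  simp [tagged, hx, this]

omit [TopologicalSpace X] in
lemma mem_tagged_of_notMem {x : X} (hx : x ∉ F) {m : ℕ} : x ∈ tagged F z U m ↔ x ≠ z m := by
  simp [tagged, hx]

omit [TopologicalSpace X] in
lemma tagged_injective (hz : ∀ m, z m ∉ F) (hi : Function.Injective z) :
    Function.Injective (tagged F z U) := by
  intro m m' h
  apply hi
  by_contra hne
  have h1 : z m ∈ tagged F z U m' := (mem_tagged_of_notMem (hz m)).2 hne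
  rw [← h, mem_tagged_of_notMem (hz m)] at h1
  exact h1 rfl

omit [TopologicalSpace X] in
lemma finite_notMem_tagged (hi : Function.Injective z) {x : X} (hx : x ∉ F) :
    {m | x ∉ tagged F z U m}.Finite := by
  refine Subsingleton.finite fun m hm m' hm' => hi ?_
  simp only [mem_ofPred_eq, mem_tagged_of_notMem hx, not_not] at hm hm'
  rw [← hm, ← hm']

omit [TopologicalSpace X] in
lemma sep_range (V : ℕ → Set X) (p : Set X → Prop) : {A ∈ range V | p A} = V '' {m | p (V m)} := by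
  ext A
  simp only [mem_ofPred_eq, mem_range, mem_image]
  constructor
  · rintro ⟨⟨m, rfl⟩, h⟩; exact ⟨m, h, rfl⟩
  · rintro ⟨m, h, rfl⟩; exact ⟨⟨m, rfl⟩, h⟩

lemma tagged_openCover [T1Space X] (hF : IsClosed F) (hi : Function.Injective z)
    (hz : ∀ m, z m ∉ F) (hU : ∀ m, IsOpen (U m)) (hc : ∀ x ∈ F, ∃ m, x ∈ U m) :
    range (tagged F z U) ∈ OpenCovers X := by
  refine ⟨?_, ?_, ?_⟩
  · rintro _ ⟨m, rfl⟩
    exact ((hU m).union hF.isOpen_compl).sdiff isClosed_singleton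
  · rw [sUnion_range, eq_univ_iff_forall]
    intro x
    rw [mem_iUnion]
    by_cases hx : x ∈ F
    · obtain ⟨m, hm⟩ := hc x hx
      exact ⟨m, (mem_tagged_of_mem hz hx).2 hm⟩
    · obtain ⟨m, hm⟩ := (infinite_of_finite_compl (s := {m | x ∈ tagged F z U m})
        (finite_notMem_tagged hi hx)).nonempty
      exact ⟨m, hm⟩
  · rintro ⟨m, hm⟩
    have : z m ∈ tagged F z U m := by rw [hm]; trivial
    exact this.2 rfl

lemma tagged_gamma [T1Space X] (hF : IsClosed F) (hi : Function.Injective z)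
    (hz : ∀ m, z m ∉ F) (hU : ∀ m, IsOpen (U m)) (hc : ∀ x ∈ F, ∀ᶠ m in atTop, x ∈ U m) :
    range (tagged F z U) ∈ GammaCovers X := by
  refine ⟨tagged_openCover hF hi hz hU fun x hx => (hc x hx).exists,
    infinite_range_of_injective (tagged_injective hz hi), fun x => ?_⟩
  rw [sep_range]
  apply Finite.image
  by_cases hx : x ∈ F
  · have := hc x hx
    rw [← Nat.cofinite_eq_atTop, eventually_cofinite] at this
    simpa [mem_tagged_of_mem hz hx] using this
  · exact finite_notMem_tagged hi hx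

lemma tagged_tau [T1Space X] (hF : IsClosed F) (hi : Function.Injective z)
    (hz : ∀ m, z m ∉ F) (hU : ∀ m, IsOpen (U m)) (hc : ∀ x ∈ F, {m | x ∈ U m}.Infinite)
    (ht : ∀ x y, {m | x ∈ U m ∧ y ∉ U m}.Finite ∨ {m | y ∈ U m ∧ x ∉ U m}.Finite) :
    range (tagged F z U) ∈ TauCovers X := by
  refine ⟨tagged_openCover hF hi hz hU fun x hx => (hc x hx).nonempty, fun x => ?_,
    fun x y => ?_⟩
  · rw [sep_range]
    apply Infinite.image (tagged_injective hz hi).injOn
    by_cases hx : x ∈ F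
    · simpa [mem_tagged_of_mem hz hx] using hc x hx
    · exact infinite_of_finite_compl (finite_notMem_tagged hi hx)
  · rw [sep_range, sep_range]
    by_cases hx : x ∈ F
    · by_cases hy : y ∈ F
      · simp only [mem_tagged_of_mem hz hx, mem_tagged_of_mem hz hy]
        exact (ht x y).imp (Finite.image _) (Finite.image _)
      · exact Or.inl (((finite_notMem_tagged hi hy).subset fun m hm => hm.2).image _)
    · exact Or.inr (((finite_notMem_tagged hi hx).subset fun m hm => hm.2).image _)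

/-- The basic dichotomy: a `τ`-selection from interleaved covers is a `γ`-selection on one of two
disjoint sets. -/
lemma dichotomy {𝔘 : Set (Set (Set X))} (h : S1 𝔘 (TauCovers X)) {F₀ F₁ : Set X}
    (hd : Disjoint F₀ F₁) (z₀ z₁ : ℕ × ℕ → X) (hz₀ : ∀ i, z₀ i ∈ F₁) (hz₁ : ∀ i, z₁ i ∈ F₀)
    (hi₀ : Function.Injective z₀) (hi₁ : Function.Injective z₁) (U W : ℕ → ℕ → Set X)
    (hU : ∀ n, range (tagged F₀ (fun m => z₀ (n, m)) (U n)) ∈ 𝔘)
    (hW : ∀ n, range (tagged F₁ (fun m => z₁ (n, m)) (W n)) ∈ 𝔘) :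
    (∃ g : ℕ → ℕ, ∀ x ∈ F₀, ∀ᶠ n in atTop, x ∈ U n (g n)) ∨
      ∃ g : ℕ → ℕ, ∀ y ∈ F₁, ∀ᶠ n in atTop, y ∈ W n (g n) := by
  obtain ⟨V, hV, -, -, hτ⟩ := h (fun n => if n % 2 = 0
    then range (tagged F₀ (fun m => z₀ (n / 2, m)) (U (n / 2)))
    else range (tagged F₁ (fun m => z₁ (n / 2, m)) (W (n / 2)))) (fun n => by
      split_ifs
      · exact hU _
      · exact hW _)
  have h0 : ∀ n, ∃ m, tagged F₀ (fun m => z₀ (n, m)) (U n) m = V (2 * n) := by
    intro n
    have := hV (2 * n)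
    simpa using this
  have h1 : ∀ n, ∃ m, tagged F₁ (fun m => z₁ (n, m)) (W n) m = V (2 * n + 1) := by
    intro n
    have := hV (2 * n + 1)
    have h2 : (2 * n + 1) / 2 = n := by omega
    simpa [h2] using this
  choose g hg using h0
  choose g' hg' using h1
  have key : ∀ {F F' : Set X} (_ : Disjoint F F') (z : ℕ × ℕ → X) (_ : ∀ i, z i ∈ F')
      (_ : Function.Injective z) (U : ℕ → ℕ → Set X) (g : ℕ → ℕ) (k : ℕ → ℕ)
      (_ : ∀ n, tagged F (fun m => z (n, m)) (U n) (g n) = V (k n)) (x : X) (_ : x ∈ F) (y : X)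
      (_ : y ∈ F'), {A ∈ range V | y ∈ A ∧ x ∉ A}.Finite → ∀ᶠ n in atTop, x ∈ U n (g n) := by
    intro F F' hd z hz hi U g k hk x hx y hy hfin
    have hzF : ∀ i, z i ∉ F := fun i h => disjoint_left.1 hd h (hz i)
    have hyF : y ∉ F := fun h => disjoint_left.1 hd h hy
    have hinj : Function.Injective fun n => V (k n) := by
      intro n n' hnn
      have h3 : z (n, g n) ∉ V (k n) := by
        rw [← hk, mem_tagged_of_notMem (hzF _)]; simp
      simp only at hnn
      rw [hnn, ← hk, mem_tagged_of_notMem (hzF _), not_not] at h3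
      exact (Prod.ext_iff.1 (hi h3)).1
    have h4 := hfin.preimage hinj.injOn
    have h5 : {n | y = z (n, g n)}.Finite := by
      refine Subsingleton.finite fun n hn n' hn' => ?_
      have : z (n, g n) = z (n', g n') := by rw [← hn, ← hn']
      exact (Prod.ext_iff.1 (hi this)).1
    rw [← Nat.cofinite_eq_atTop, eventually_cofinite]
    refine (h4.union h5).subset fun n hn => ?_
    by_cases h6 : y = z (n, g n)
    · exact Or.inr h6
    · left
      refine ⟨⟨_, rfl⟩, ?_, ?_⟩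
      · change y ∈ V (k n)
        rw [← hk, mem_tagged_of_notMem hyF]; exact h6
      · change x ∉ V (k n)
        rw [← hk, mem_tagged_of_mem (fun m => hzF _) hx]; exact hn
  by_contra hcon
  push Not at hcon
  obtain ⟨x, hx, hx'⟩ := hcon.1 g
  obtain ⟨y, hy, hy'⟩ := hcon.2 g'
  rcases hτ x y with h2 | h2
  · exact (hy'.and_eventually
      (key hd.symm z₁ hz₁ hi₁ W g' _ hg' y hy x hx h2)).exists.elim fun _ h => h.1 h.2
  · exact (hx'.and_eventually
      (key hd z₀ hz₀ hi₀ U g _ hg x hx y hy h2)).exists.elim fun _ h => h.1 h.2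

omit [TopologicalSpace X] in
lemma exists_tags {F : Set X} (hF : F.Infinite) :
    ∃ z : ℕ × ℕ → X, (∀ i, z i ∈ F) ∧ Function.Injective z :=
  ⟨fun i => hF.natEmbedding F (Nat.pairEquiv i), fun _ => Subtype.coe_prop _,
    Subtype.val_injective.comp ((hF.natEmbedding F).injective.comp Nat.pairEquiv.injective)⟩

end tags

section gamma

variable {X : Type} [TopologicalSpace X]

/-- The indexed form of `S₁(Γ, Γ)` on a subset. -/
def GoodG (F : Set X) : Prop :=
  ∀ U : ℕ → ℕ → Set X, (∀ n m, IsOpen (U n m)) → (∀ n, ∀ x ∈ F, ∀ᶠ m in atTop, x ∈ U n m) →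
    ∃ g : ℕ → ℕ, ∀ x ∈ F, ∀ᶠ n in atTop, x ∈ U n (g n)

lemma GoodG.of_finite {F : Set X} (hF : F.Finite) : GoodG F := by
  intro U _ hU
  have : ∀ n, ∃ m, ∀ x ∈ F, x ∈ U n m := fun n =>
    ((eventually_all_finite hF).2 (hU n)).exists
  choose g hg using this
  exact ⟨g, fun x hx => Eventually.of_forall fun n => hg n x hx⟩

lemma GoodG.strong {F : Set X} (hF : GoodG F) (U : ℕ → ℕ → Set X) (hU : ∀ n m, IsOpen (U n m))
    (hc : ∀ n, ∀ x ∈ F, ∀ᶠ m in atTop, x ∈ U n m) (S : {S : ℕ → Set ℕ // ∀ n, (S n).Infinite}) :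
    ∃ S' : {S : ℕ → Set ℕ // ∀ n, (S n).Infinite}, (∀ n, S'.1 n ⊆ S.1 n) ∧
      ∀ x ∈ F, ∀ᶠ n in atTop, ∀ m ∈ S'.1 n, x ∈ U n m := by
  let e : ℕ → ℕ → ℕ := fun n j => (S.2 n).natEmbedding _ j
  have he : ∀ n, Function.Injective (e n) := fun n =>
    Subtype.val_injective.comp ((S.2 n).natEmbedding _).injective
  have het : ∀ n, Tendsto (e n) atTop atTop := fun n => (he n).nat_tendsto_atTop
  obtain ⟨g, hg⟩ := hF (fun k m => U k.unpair.1 (e k.unpair.1 (k.unpair.2 + m)))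
    (fun _ _ => hU _ _) fun k x hx =>
      ((het _).comp (tendsto_atTop_mono (fun m => Nat.le_add_left m _) tendsto_id)).eventually
        (hc _ x hx)
  refine ⟨⟨fun n => range fun j => e n (j + g (Nat.pair n j)), fun n => ?_⟩, fun n => ?_,
    fun x hx => ?_⟩
  · have : Tendsto (fun j => e n (j + g (Nat.pair n j))) atTop atTop :=
      (het n).comp (tendsto_atTop_mono (fun j => Nat.le_add_right j _) tendsto_id)
    refine infinite_of_forall_exists_gt fun a => ?_
    obtain ⟨j, hj⟩ := (this.eventually (eventually_gt_atTop a)).exists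
    exact ⟨_, ⟨j, rfl⟩, hj⟩
  · rintro _ ⟨j, rfl⟩
    exact Subtype.coe_prop _
  · obtain ⟨K, hK⟩ := eventually_atTop.1 (hg x hx)
    filter_upwards [eventually_ge_atTop K] with n hn
    rintro _ ⟨j, rfl⟩
    simpa using hK (Nat.pair n j) (hn.trans (Nat.left_le_pair n j))

lemma GoodG.iUnion (F : ℕ → Set X) (hF : ∀ k, GoodG (F k)) : GoodG (⋃ k, F k) := by
  intro U hU hc
  choose step hs hs' using fun k => (hF k).strong U hU
    fun n x hx => hc n x (mem_iUnion.2 ⟨k, hx⟩)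
  let S : ℕ → {S : ℕ → Set ℕ // ∀ n, (S n).Infinite} := fun k =>
    Nat.rec ⟨fun _ => univ, fun _ => infinite_univ⟩ (fun k S => step k S) k
  have hanti : ∀ n, Antitone fun k => (S k).1 n := fun n =>
    antitone_nat_of_succ_le fun k => hs k (S k) n
  choose g hg using fun n => ((S n).2 n).nonempty
  refine ⟨g, fun x hx => ?_⟩
  obtain ⟨k, hk⟩ := mem_iUnion.1 hx
  filter_upwards [hs' k (S k) x hk, eventually_ge_atTop (k + 1)] with n h1 h2
  exact h1 _ (hanti n h2 (hg n))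

lemma S1_gamma_of_good (h : GoodG (univ : Set X)) : S1 (GammaCovers X) (GammaCovers X) := by
  intro 𝒰 h𝒰
  let e : ℕ → ℕ → Set X := fun n m => (h𝒰 n).2.1.natEmbedding _ m
  have he : ∀ n m, e n m ∈ 𝒰 n := fun n m => Subtype.coe_prop _
  have hi : ∀ n, Function.Injective (e n) := fun n =>
    Subtype.val_injective.comp ((h𝒰 n).2.1.natEmbedding _).injective
  obtain ⟨g, hg⟩ := h e (fun n m => (h𝒰 n).1.1 _ (he n m)) fun n x _ => by
    rw [← Nat.cofinite_eq_atTop, eventually_cofinite]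
    exact (((h𝒰 n).2.2 x).preimage (hi n).injOn).subset fun m hm => ⟨he n m, hm⟩
  have hne : ∀ n, e n (g n) ≠ univ := fun n h => (h𝒰 n).1.2.2 (h ▸ he n (g n))
  refine ⟨fun n => e n (g n), fun n => he n _, ⟨?_, ?_, ?_⟩, ?_, fun x => ?_⟩
  · rintro _ ⟨n, rfl⟩; exact (h𝒰 n).1.1 _ (he n _)
  · rw [sUnion_range, eq_univ_iff_forall]
    exact fun x => mem_iUnion.2 (hg x trivial).exists
  · rintro ⟨n, hn⟩; exact hne n hn
  · intro hfin
    have := hfin.to_subtype
    obtain ⟨⟨A, n₀, rfl⟩, hA⟩ := Finite.exists_infinite_fiber (rangeFactorization fun n => e n (g n))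
    apply hne n₀
    rw [eq_univ_iff_forall]
    intro x
    have h1 := Nat.frequently_atTop_iff_infinite.2 (infinite_coe_iff.1 hA)
    obtain ⟨n, hn1, hn2⟩ := (h1.and_eventually (hg x trivial)).exists
    have : e n (g n) = e n₀ (g n₀) := congrArg Subtype.val hn1
    rwa [this] at hn2
  · rw [sep_range]
    apply Finite.image
    have := hg x trivial
    rwa [← Nat.cofinite_eq_atTop, eventually_cofinite] at this

end gamma

section tau

variable {X : Type}

/-- The indexed family `U` has an infinite subfamily which is point-cofinite on `F`. -/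
def GoodT (U : ℕ → Set X) (F : Set X) : Prop :=
  ∃ S : Set ℕ, S.Infinite ∧ ∀ x ∈ F, {i ∈ S | x ∉ U i}.Finite

variable {U : ℕ → Set X} (hc : ∀ x, {m | x ∈ U m}.Infinite)
  (ht : ∀ x y, {m | x ∈ U m ∧ y ∉ U m}.Finite ∨ {m | y ∈ U m ∧ x ∉ U m}.Finite)

include hc ht

lemma GoodT.of_finite {F : Set X} (hF : F.Finite) : GoodT U F := by
  induction F, hF using Set.Finite.induction_on_subset with
  | empty => exact ⟨univ, infinite_univ, by simp⟩
  | @insert a s ha hs has ih =>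
    by_cases h : ∀ x ∈ s, {m | a ∈ U m ∧ x ∉ U m}.Finite
    · refine ⟨_, hc a, ?_⟩
      rintro x (rfl | hx)
      · simp
      · exact h x hx
    · push Not at h
      obtain ⟨x, hx, hx'⟩ := h
      obtain ⟨S, hS, hS'⟩ := ih
      refine ⟨S, hS, ?_⟩
      rintro y (rfl | hy)
      · refine ((hS' x hx).union ((ht y x).resolve_left hx')).subset fun i hi => ?_
        by_cases h1 : x ∈ U i
        · exact Or.inr ⟨h1, hi.2⟩
        · exact Or.inl ⟨hi.1, h1⟩
      · exact hS' y hy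

lemma GoodT.range (y : ℕ → X) : GoodT U (range y) := by
  have : ∀ k, ∃ i, k < i ∧ ∀ j ≤ k, y j ∈ U i := by
    intro k
    obtain ⟨S, hS, hS'⟩ := GoodT.of_finite hc ht ((finite_Iic k).image y)
    have hfin : (⋃ j ∈ Iic k, {i ∈ S | y j ∉ U i}).Finite :=
      (finite_Iic k).biUnion fun j hj => hS' _ ⟨j, hj, rfl⟩
    obtain ⟨i, hi, hki⟩ := (hS.sdiff hfin).exists_gt k
    refine ⟨i, hki, fun j hj => ?_⟩
    by_contra h
    exact hi.2 (mem_biUnion (x := j) hj ⟨hi.1, h⟩)
  choose s hs hs' using this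
  refine ⟨Set.range s, infinite_of_forall_exists_gt fun a => ⟨s a, ⟨a, rfl⟩, hs a⟩, ?_⟩
  rintro _ ⟨j, rfl⟩
  refine ((finite_Iio j).image s).subset ?_
  rintro _ ⟨⟨k, rfl⟩, hk⟩
  exact ⟨k, lt_of_not_ge fun h => hk (hs' k j h), rfl⟩

lemma GoodT.iUnion (F : ℕ → Set X) (hF : ∀ k, GoodT U (F k)) : GoodT U (⋃ k, F k) := by
  have aux : ∀ {S : Set ℕ} {x y : X}, {i ∈ S | x ∉ U i}.Finite → {m | x ∈ U m ∧ y ∉ U m}.Finite →
      {i ∈ S | y ∉ U i}.Finite := by
    intro S x y h1 h2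
    refine (h1.union h2).subset fun i hi => ?_
    by_cases h : x ∈ U i
    · exact Or.inr ⟨h, hi.2⟩
    · exact Or.inl ⟨hi.1, h⟩
  by_cases h : ∃ k, ∀ y, ∃ x ∈ F k, {m | x ∈ U m ∧ y ∉ U m}.Finite
  · obtain ⟨k, hk⟩ := h
    obtain ⟨S, hS, hS'⟩ := hF k
    refine ⟨S, hS, fun y _ => ?_⟩
    obtain ⟨x, hx, hx'⟩ := hk y
    exact aux (hS' x hx) hx'
  · push Not at h
    choose y hy using h
    obtain ⟨S, hS, hS'⟩ := GoodT.range hc ht y
    refine ⟨S, hS, fun x hx => ?_⟩
    obtain ⟨k, hk⟩ := mem_iUnion.1 hx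
    exact aux (hS' _ ⟨k, rfl⟩) ((ht x (y k)).resolve_left (hy k x hk))

end tau

section main

variable {X : Type}

lemma gamma_subset_tau [TopologicalSpace X] : GammaCovers X ⊆ TauCovers X := by
  rintro 𝒰 ⟨h1, h2, h3⟩
  refine ⟨h1, fun x => ?_, fun x y => Or.inl ((h3 y).subset fun U hU => ⟨hU.1, hU.2.2⟩)⟩
  refine (h2.sdiff (h3 x)).mono fun U hU => ⟨hU.1, ?_⟩
  by_contra h
  exact hU.2 ⟨hU.1, h⟩

/-- An injective enumeration of a countable `τ`-cover. -/
lemma enumerate_tau [TopologicalSpace X] [Nonempty X] {𝒰 : Set (Set X)} (h : 𝒰 ∈ TauCovers X)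
    (hc : 𝒰.Countable) : ∃ U : ℕ → Set X, Function.Injective U ∧ range U = 𝒰 ∧
      (∀ x, {m | x ∈ U m}.Infinite) ∧
      ∀ x y, {m | x ∈ U m ∧ y ∉ U m}.Finite ∨ {m | y ∈ U m ∧ x ∉ U m}.Finite := by
  have hinf : 𝒰.Infinite := (h.2.1 (Classical.arbitrary X)).mono fun U hU => hU.1
  obtain ⟨D⟩ := countable_infinite_iff_nonempty_denumerable.1 ⟨hc, hinf⟩
  let U : ℕ → Set X := fun m => (Denumerable.eqv 𝒰).symm m
  have hi : Function.Injective U := Subtype.val_injective.comp (Equiv.injective _)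
  have hr : range U = 𝒰 := by
    ext A
    constructor
    · rintro ⟨m, rfl⟩; exact Subtype.coe_prop _
    · intro hA; exact ⟨Denumerable.eqv 𝒰 ⟨A, hA⟩, by simp [U]⟩
  refine ⟨U, hi, hr, fun x => ?_, fun x y => ?_⟩
  · have := h.2.1 x
    rw [← hr, sep_range] at this
    exact this.of_image _
  · have := h.2.2 x y
    rw [← hr, sep_range, sep_range] at this
    exact this.imp (fun h => h.of_finite_image hi.injOn) fun h => h.of_finite_image hi.injOn

lemma tau_subset_omega [TopologicalSpace X] [Nonempty X] : TauCovers X ⊆ OmegaCovers X := by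
  rintro 𝒰 ⟨h1, h2, h3⟩
  refine ⟨h1, fun F hF => ?_⟩
  suffices H : {U ∈ 𝒰 | F ⊆ U}.Infinite ∧ (F.Nonempty → ∃ a ∈ F, ∀ x ∈ F,
      {U ∈ 𝒰 | a ∈ U ∧ x ∉ U}.Finite) by
    obtain ⟨U, hU⟩ := H.1.nonempty
    exact ⟨U, hU.1, hU.2⟩
  have H2 : F.Nonempty → ∃ a ∈ F, ∀ x ∈ F, {U ∈ 𝒰 | a ∈ U ∧ x ∉ U}.Finite := by
    induction F, hF using Set.Finite.induction_on_subset with
    | empty => simp
    | @insert b s hb hs hbs ih =>
      intro _
      rcases s.eq_empty_or_nonempty with rfl | hne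
      · refine ⟨b, by simp, ?_⟩
        rintro x (rfl | hx)
        · simp
        · exact hx.elim
      · obtain ⟨a, ha, ha'⟩ := ih hne
        rcases h3 a b with h | h
        · refine ⟨a, Or.inr ha, ?_⟩
          rintro x (rfl | hx)
          · exact h
          · exact ha' x hx
        · refine ⟨b, Or.inl rfl, ?_⟩
          rintro x (rfl | hx)
          · simp
          · refine (h.union (ha' x hx)).subset fun U hU => ?_
            by_cases h4 : a ∈ U
            · exact Or.inr ⟨hU.1, h4, hU.2.2⟩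
            · exact Or.inl ⟨hU.1, hU.2.1, h4⟩
  refine ⟨?_, H2⟩
  rcases F.eq_empty_or_nonempty with rfl | hne
  · exact (h2 (Classical.arbitrary X)).mono fun U hU => ⟨hU.1, empty_subset _⟩
  · obtain ⟨a, -, ha'⟩ := H2 hne
    refine ((h2 a).sdiff (hF.biUnion ha')).mono fun U hU => ⟨hU.1.1, fun x hx => ?_⟩
    by_contra h
    exact hU.2 (mem_biUnion hx ⟨hU.1.1, hU.1.2, h⟩)

variable [MetricSpace X] [SecondCountableTopology X]

theorem gamma_of_S1_gamma_tau (h : S1 (GammaCovers X) (TauCovers X)) :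
    S1 (GammaCovers X) (GammaCovers X) := by
  apply S1_gamma_of_good
  refine local_global GoodG (fun s => GoodG.of_finite) GoodG.iUnion ?_
  · intro F₀ F₁ h₀ h₁ hd
    by_contra hcon
    push Not at hcon
    have hi₀ : F₀.Infinite := fun hf => hcon.1 (GoodG.of_finite hf)
    have hi₁ : F₁.Infinite := fun hf => hcon.2 (GoodG.of_finite hf)
    obtain ⟨z₀, hz₀, hz₀'⟩ := exists_tags hi₁
    obtain ⟨z₁, hz₁, hz₁'⟩ := exists_tags hi₀
    obtain ⟨hc₀, hc₁⟩ := hcon
    unfold GoodG at hc₀ hc₁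
    simp only [not_forall] at hc₀ hc₁
    obtain ⟨U, hU, hU', hU''⟩ := hc₀
    obtain ⟨W, hW, hW', hW''⟩ := hc₁
    refine (dichotomy h hd z₀ z₁ hz₀ hz₁ hz₀' hz₁' U W (fun n => ?_) fun n => ?_).elim hU'' hW''
    · exact tagged_gamma h₀ (hz₀'.comp (Prod.mk_right_injective n))
        (fun m h => disjoint_left.1 hd h (hz₀ _)) (hU n) (hU' n)
    · exact tagged_gamma h₁ (hz₁'.comp (Prod.mk_right_injective n))
        (fun m h => disjoint_left.1 hd (hz₁ _) h) (hW n) (hW' n)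

/-- Under `S₁(T, T)` every `τ`-cover contains a `γ`-cover. -/
theorem exists_gamma_subcover (h : S1 (TauCovers X) (TauCovers X)) {𝒰 : Set (Set X)}
    (h𝒰 : 𝒰 ∈ TauCovers X) : ∃ 𝒱 ⊆ 𝒰, 𝒱 ∈ GammaCovers X := by
  obtain ⟨V, hV, hVτ⟩ := h (fun _ => 𝒰) fun _ => h𝒰
  have : Nonempty X := by
    by_contra hX
    rw [not_nonempty_iff] at hX
    exact hVτ.1.2.2 ⟨0, Subsingleton.elim _ _⟩
  obtain ⟨U, hi, hr, hc, ht⟩ := enumerate_tau hVτ (countable_range V)
  have hUV : ∀ m, U m ∈ range V := fun m => hr ▸ mem_range_self m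
  have hUo : ∀ m, IsOpen (U m) := fun m => hVτ.1.1 _ (hUV m)
  have hgood : GoodT U univ := by
    refine local_global (GoodT U) (fun s => GoodT.of_finite hc ht) (GoodT.iUnion hc ht) ?_
    intro F₀ F₁ h₀ h₁ hd
    by_contra hcon
    push Not at hcon
    have hi₀ : F₀.Infinite := fun hf => hcon.1 (GoodT.of_finite hc ht hf)
    have hi₁ : F₁.Infinite := fun hf => hcon.2 (GoodT.of_finite hc ht hf)
    obtain ⟨z₀, hz₀, hz₀'⟩ := exists_tags hi₁
    obtain ⟨z₁, hz₁, hz₁'⟩ := exists_tags hi₀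
    have hc' : ∀ n x, {m | x ∈ U (n + m)}.Infinite := by
      intro n x
      refine infinite_of_forall_exists_gt fun a => ?_
      obtain ⟨i, hi, hai⟩ := (hc x).exists_gt (n + a)
      refine ⟨i - n, ?_, by omega⟩
      rw [mem_ofPred_eq, Nat.add_sub_cancel' (by omega)]
      exact hi
    have ht' : ∀ n x y, {m | x ∈ U (n + m) ∧ y ∉ U (n + m)}.Finite ∨
        {m | y ∈ U (n + m) ∧ x ∉ U (n + m)}.Finite := fun n x y =>
      (ht x y).imp (fun h => h.preimage (add_right_injective n).injOn)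
        fun h => h.preimage (add_right_injective n).injOn
    have conv : ∀ F : Set X, (∃ g : ℕ → ℕ, ∀ x ∈ F, ∀ᶠ n in atTop, x ∈ U (n + g n)) →
        GoodT U F := by
      rintro F ⟨g, hg⟩
      refine ⟨range fun n => n + g n,
        infinite_of_forall_exists_gt fun a => ⟨_, ⟨a + 1, rfl⟩, by simp only; omega⟩,
        fun x hx => ?_⟩
      have := hg x hx
      rw [← Nat.cofinite_eq_atTop, eventually_cofinite] at this
      refine (this.image fun n => n + g n).subset ?_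
      rintro _ ⟨⟨n, rfl⟩, hn⟩
      exact ⟨n, hn, rfl⟩
    refine (dichotomy h hd z₀ z₁ hz₀ hz₁ hz₀' hz₁' (fun n m => U (n + m)) (fun n m => U (n + m))
      (fun n => ?_) fun n => ?_).elim (fun h => hcon.1 (conv _ h)) fun h => hcon.2 (conv _ h)
    · exact tagged_tau h₀ (hz₀'.comp (Prod.mk_right_injective n))
        (fun m h => disjoint_left.1 hd h (hz₀ _)) (fun m => hUo _) (fun x _ => hc' n x) (ht' n)
    · exact tagged_tau h₁ (hz₁'.comp (Prod.mk_right_injective n))
        (fun m h => disjoint_left.1 hd (hz₁ _) h) (fun m => hUo _) (fun x _ => hc' n x) (ht' n)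
  obtain ⟨S, hS, hS'⟩ := hgood
  refine ⟨U '' S, ?_, ⟨?_, ?_, ?_⟩, hS.image hi.injOn, fun x => ?_⟩
  · rintro _ ⟨m, -, rfl⟩
    obtain ⟨k, hk⟩ := hUV m
    exact hk ▸ hV k
  · rintro _ ⟨m, -, rfl⟩; exact hUo m
  · rw [eq_univ_iff_forall]
    intro x
    obtain ⟨m, hm, hm'⟩ := (hS.sdiff (hS' x trivial)).nonempty
    refine ⟨U m, ⟨m, hm, rfl⟩, ?_⟩
    by_contra hx
    exact hm' ⟨hm, hx⟩
  · rintro ⟨m, -, hm⟩
    exact hVτ.1.2.2 (hm ▸ hUV m)
  · refine ((hS' x trivial).image U).subset ?_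
    rintro _ ⟨⟨m, hm, rfl⟩, hx⟩
    exact ⟨m, ⟨hm, hx⟩, rfl⟩

omit [SecondCountableTopology X] in
lemma S1.mono {𝔘 𝔘' 𝔙 : Set (Set (Set X))} (h : S1 𝔘 𝔙) (h' : 𝔘' ⊆ 𝔘) : S1 𝔘' 𝔙 :=
  fun 𝒰 h𝒰 => h 𝒰 fun n => h' (h𝒰 n)

theorem gamma_of_S1_tau_tau (h : S1 (TauCovers X) (TauCovers X)) :
    S1 (TauCovers X) (GammaCovers X) := by
  intro 𝒰 h𝒰
  choose 𝒱 h𝒱 h𝒱' using fun n => exists_gamma_subcover h (h𝒰 n)
  obtain ⟨U, hU, hU'⟩ := gamma_of_S1_gamma_tau (h.mono gamma_subset_tau) 𝒱 h𝒱'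
  exact ⟨U, fun n => h𝒱 n (hU n), hU'⟩

theorem gamma_of_S1_omega_tau (h : S1 (OmegaCovers X) (TauCovers X)) :
    S1 (OmegaCovers X) (GammaCovers X) := by
  intro 𝒰 h𝒰
  have : Nonempty X := by
    by_contra hX
    rw [not_nonempty_iff] at hX
    obtain ⟨U, hU, -⟩ := (h𝒰 0).2 ∅ finite_empty
    exact (h𝒰 0).1.2.2 (Subsingleton.elim U univ ▸ hU)
  choose V hV hV' using fun n => h (fun _ => 𝒰 n) fun _ => h𝒰 n
  obtain ⟨U, hU, hU'⟩ := gamma_of_S1_tau_tau (h.mono tau_subset_omega) (fun n => range (V n)) hV'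
  refine ⟨U, fun n => ?_, hU'⟩
  obtain ⟨k, hk⟩ := hU n
  exact hk ▸ hV n k

end main

end Pool.Agent.P.MP_b17faa_gt
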