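import Mathlib

namespace Pool.Agent.P.MP_b17faa_gt

open Set

variable (X : Type) [TopologicalSpace X]

/-- Open covers: families of open sets with union `X`, not containing `X` itself. -/
def OpenCovers : Set (Set (Set X)) :=
  {𝒰 | (∀ U ∈ 𝒰, IsOpen U) ∧ ⋃₀ 𝒰 = univ ∧ univ ∉ 𝒰}

/-- Open `ω`-covers. -/
def OmegaCovers : Set (Set (Set X)) :=
  {𝒰 | 𝒰 ∈ OpenCovers X ∧ ∀ F : Set X, F.Finite → ∃ U ∈ 𝒰, F ⊆ U}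

/-- Open `τ`-covers. -/
def TauCovers : Set (Set (Set X)) :=
  {𝒰 | 𝒰 ∈ OpenCovers X ∧ (∀ x, {U ∈ 𝒰 | x ∈ U}.Infinite) ∧
    ∀ x y, {U ∈ 𝒰 | x ∈ U ∧ y ∉ U}.Finite ∨ {U ∈ 𝒰 | y ∈ U ∧ x ∉ U}.Finite}

/-- Open `γ`-covers. -/
def GammaCovers : Set (Set (Set X)) :=
  {𝒰 | 𝒰 ∈ OpenCovers X ∧ 𝒰.Infinite ∧ ∀ x, {U ∈ 𝒰 | x ∉ U}.Finite}

variable {X}

/-- The selection principle `S₁(𝔘, 𝔙)`. -/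
def S1 (𝔘 𝔙 : Set (Set (Set X))) : Prop :=
  ∀ 𝒰 : ℕ → Set (Set X), (∀ n, 𝒰 n ∈ 𝔘) → ∃ U : ℕ → Set X, (∀ n, U n ∈ 𝒰 n) ∧ range U ∈ 𝔙

end Pool.Agent.P.MP_b17faa_gt
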