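import Pool.Agent.Lib.Helper87.CodeDefs
import Pool.Agent.P.MP_b17faa_gt.Defs

namespace Pool.Agent.P.MP_b17faa_gt

open Set Pool.Agent.Lib.Helper87 Coded

/-- a rational is coded by the triple of its numerator (positive and negative part) and its
denominator -/
instance codedRat : Coded ℚ := ⟨fun q => code (q.num.toNat, (-q.num).toNat, q.den)⟩

/-- a real is coded by its Dedekind cut -/
noncomputable instance codedReal : Coded ℝ := ⟨fun x => code {q : ℚ | (q : ℝ) < x}⟩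

/-- a point of a set of reals is coded as a real -/
noncomputable instance codedSub (X : Set ℝ) : Coded X := ⟨fun x => code x.1⟩

section
variable (M : Set ZFSet.{0}) {X : Set ℝ}

/-- `S₁(𝔘, 𝔙)` relativized to `M` -/
def S1In (𝔘 𝔙 : Set (Set (Set X))) : Prop :=
  ∀ 𝒰 : ℕ → Set (Set X), code 𝒰 ∈ M → (∀ n, 𝒰 n ∈ 𝔘) →
    ∃ U : ℕ → Set X, code U ∈ M ∧ (∀ n, U n ∈ 𝒰 n) ∧ range U ∈ 𝔙

/-- `S_fin(𝔘, 𝔙)` relativized to `M` -/
def SfinIn (𝔘 𝔙 : Set (Set (Set X))) : Prop :=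
  ∀ 𝒰 : ℕ → Set (Set X), code 𝒰 ∈ M → (∀ n, 𝒰 n ∈ 𝔘) →
    ∃ F : ℕ → Set (Set X), code F ∈ M ∧ (∀ n, F n ⊆ 𝒰 n ∧ (F n).Finite) ∧ ⋃ n, F n ∈ 𝔙

/-- `U_fin(𝔘, 𝔙)` relativized to `M` -/
def UfinIn (𝔘 𝔙 : Set (Set (Set X))) : Prop :=
  ∀ 𝒰 : ℕ → Set (Set X), code 𝒰 ∈ M → (∀ n, 𝒰 n ∈ 𝔘) →
    (∀ n, ¬ ∃ F ⊆ 𝒰 n, F.Finite ∧ ⋃₀ F = univ) →
    ∃ F : ℕ → Set (Set X), code F ∈ M ∧ (∀ n, F n ⊆ 𝒰 n ∧ (F n).Finite) ∧
      range (fun n => ⋃₀ F n) ∈ 𝔙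

end

/-- the properties `(0), ..., (21)` of the set of reals `X`, relativized to `M` -/
def Property (M : Set ZFSet.{0}) (X : Set ℝ) : ℕ → Prop
  | 0 => S1In M (GammaCovers X) (GammaCovers X)
  | 1 => S1In M (GammaCovers X) (TauCovers X)
  | 2 => S1In M (GammaCovers X) (OmegaCovers X)
  | 3 => S1In M (GammaCovers X) (OpenCovers X)
  | 4 => S1In M (TauCovers X) (GammaCovers X)
  | 5 => S1In M (TauCovers X) (TauCovers X)
  | 6 => S1In M (TauCovers X) (OmegaCovers X)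
  | 7 => S1In M (TauCovers X) (OpenCovers X)
  | 8 => S1In M (OmegaCovers X) (GammaCovers X)
  | 9 => S1In M (OmegaCovers X) (TauCovers X)
  | 10 => S1In M (OmegaCovers X) (OmegaCovers X)
  | 11 => S1In M (OpenCovers X) (OpenCovers X)
  | 12 => SfinIn M (GammaCovers X) (TauCovers X)
  | 13 => SfinIn M (GammaCovers X) (OmegaCovers X)
  | 14 => SfinIn M (TauCovers X) (TauCovers X)
  | 15 => SfinIn M (TauCovers X) (OmegaCovers X)
  | 16 => SfinIn M (OmegaCovers X) (TauCovers X)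
  | 17 => SfinIn M (OmegaCovers X) (OmegaCovers X)
  | 18 => UfinIn M (GammaCovers X) (GammaCovers X)
  | 19 => UfinIn M (GammaCovers X) (TauCovers X)
  | 20 => UfinIn M (GammaCovers X) (OmegaCovers X)
  | 21 => UfinIn M (GammaCovers X) (OpenCovers X)
  | _ => False

end Pool.Agent.P.MP_b17faa_gt
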