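import Pool.Agent.P.MP_b17faa_gt.FoSat
import Pool.Agent.P.MP_b17faa_gt.RelDefs

/-!
The first order selection properties in a transitive model, in terms of coded covers.
-/

namespace Pool.Agent.P.MP_b17faa_gt.Fo

open FirstOrder FirstOrder.Language Pool.Agent.Lib.Helper87 Function Coded Fm Set

/-- open subsets of `X` -/
def AOpen (L R X U : ZFSet.{0}) : Prop := U ⊆ X ∧ ∀ x ∈ U, ∃ a ∈ L, ∃ b ∈ L,
  ZFSet.pair a x ∈ R ∧ ZFSet.pair x b ∈ R ∧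
    ∀ y ∈ X, ZFSet.pair a y ∈ R → ZFSet.pair y b ∈ R → y ∈ U

/-- open covers -/
def ACover (L R X C : ZFSet.{0}) : Prop :=
  (∀ U ∈ C, AOpen L R X U) ∧ X = ZFSet.sUnion C ∧ X ∉ C

/-- open covers of a given kind -/
def ACov (L R X C : ZFSet.{0}) : Kind → Prop
  | .O => ACover L R X C
  | .Ω => ACover L R X C ∧ ∀ F ⊆ X, {x | x ∈ F}.Finite → ∃ U ∈ C, F ⊆ U
  | .T => ACover L R X C ∧ (∀ x ∈ X, ¬ {U | U ∈ C ∧ x ∈ U}.Finite) ∧ ∀ x ∈ X, ∀ y ∈ X,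
      {U | U ∈ C ∧ x ∈ U ∧ y ∉ U}.Finite ∨ {U | U ∈ C ∧ y ∈ U ∧ x ∉ U}.Finite
  | .Γ => ACover L R X C ∧ ¬ {U | U ∈ C}.Finite ∧ ∀ x ∈ X, {U | U ∈ C ∧ x ∉ U}.Finite

section sat
variable {M : Set ZFSet.{0}} (hM : TransModelZFC M) {n L R X U : ℕ} {v : ℕ → M}
include hM

theorem sat_isOpen (hL : L < n) (hR : R < n) (hX : X < n) (hU : U < n) :
    sat M (isOpen L R X U) n v ↔ AOpen (v L).1 (v R).1 (v X).1 (v U).1 := by
  simp (disch := omega) only [isOpen, basic hM, AOpen]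

theorem sat_cover (hL : L < n) (hR : R < n) (hX : X < n) (hU : U < n) :
    sat M (cover L R X U) n v ↔ ACover (v L).1 (v R).1 (v X).1 (v U).1 := by
  simp (disch := omega) only [cover, basic hM, sat_isOpen hM, ACover]

theorem sat_cov (hL : L < n) (hR : R < n) (hX : X < n) (hU : U < n) (k : Kind) :
    sat M (cov L R X U k) n v ↔ ACov (v L).1 (v R).1 (v X).1 (v U).1 k := by
  cases k <;> simp (disch := omega) only [cov, finSep, basic hM, sat_cover hM, ACov,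
    finSep_iff hM (v U).2]
  exact and_congr_right' ⟨fun h F h1 h2 => h F (finite_mem' hM h2 fun x hx =>
    hM.trans _ (v X).2 _ (h1 hx)) h1 h2, fun h F _ => h F⟩

end sat

section code
variable {T : Type} [Coded T]

theorem decode_set {C : ZFSet.{0}} (h : ∀ z ∈ C, ∃ t : T, code t = z) :
    ∃ A : Set T, code A = C := by
  refine ⟨{t | code t ∈ C}, ZFSet.ext fun z => mem_code_set.trans ⟨?_, fun hz => ?_⟩⟩
  · rintro ⟨t, ht, rfl⟩
    exact ht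
  · obtain ⟨t, rfl⟩ := h z hz
    exact ⟨t, hz, rfl⟩

theorem decode_sub {C : ZFSet.{0}} {B : Set T} (h : C ⊆ code B) : ∃ A : Set T, code A = C :=
  decode_set fun _ hz => let ⟨t, _, ht⟩ := mem_code_set.1 (h hz); ⟨t, ht⟩

theorem forall_code {A : Set T} {p : ZFSet.{0} → Prop} :
    (∀ z ∈ code A, p z) ↔ ∀ t ∈ A, p (code t) := by
  simp [mem_code_set]

theorem exists_code {A : Set T} {p : ZFSet.{0} → Prop} :
    (∃ z ∈ code A, p z) ↔ ∃ t ∈ A, p (code t) := by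
  simp [mem_code_set]

theorem code_sUnion (A : Set (Set T)) : ZFSet.sUnion (code A) = code (⋃₀ A) := by
  ext z
  simp only [ZFSet.mem_sUnion, exists_code, mem_code_set (A := ⋃₀ A), mem_sUnion]
  simp only [mem_code_set]
  exact ⟨fun ⟨U, h1, t, h2, h3⟩ => ⟨t, ⟨U, h1, h2⟩, h3⟩,
    fun ⟨t, ⟨U, h1, h2⟩, h3⟩ => ⟨U, h1, t, h2, h3⟩⟩

theorem isSeq_code (F : ℕ → T) : IsSeq (code F) := ⟨fun k => code (F k), fun _ => mem_code_seq⟩

theorem IsSeq.decode {f : ZFSet.{0}} (h : IsSeq f)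
    (h' : ∀ (k : ℕ) y, ZFSet.pair (code k) y ∈ f → ∃ t : T, code t = y) :
    ∃ F : ℕ → T, code F = f := by
  obtain ⟨g, hg⟩ := h
  choose F hF using fun k => h' k (g k) ((hg _).2 ⟨k, rfl⟩)
  exact ⟨F, ZFSet.ext fun z => by simp only [mem_code_seq, hg, hF]⟩

theorem rel_code {F : ℕ → T} {x y : ZFSet.{0}} :
    ZFSet.pair x y ∈ code F ↔ ∃ k, code k = x ∧ code (F k) = y := by
  simp only [mem_code_seq, ZFSet.pair_inj]

variable [CodedInj T]

theorem code_subset {A B : Set T} : code A ⊆ code B ↔ A ⊆ B := by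
  simp only [ZFSet.subset_def, subset_def, ← code_mem_code (A := B)]
  exact forall_code

theorem finite_code_sep {A : Set T} {p : ZFSet.{0} → Prop} :
    {z | z ∈ code A ∧ p z}.Finite ↔ {t ∈ A | p (code t)}.Finite := by
  rw [← finite_image_iff (f := code) CodedInj.inj.injOn]
  refine iff_of_eq (congrArg _ (Set.ext fun z => ?_))
  simp only [mem_code_set, mem_ofPred_eq, mem_image]
  constructor
  · rintro ⟨⟨t, h1, rfl⟩, h2⟩
    exact ⟨t, ⟨h1, h2⟩, rfl⟩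
  · rintro ⟨t, ⟨h1, h2⟩, rfl⟩
    exact ⟨⟨t, h1, rfl⟩, h2⟩

theorem finite_code {A : Set T} : {z | z ∈ code A}.Finite ↔ A.Finite := by
  simpa using finite_code_sep (A := A) (p := fun _ => True)

end code

section closure
variable {M : Set ZFSet.{0}} (hM : TransModelZFC M) {T S : Type} [Coded T] [Coded S]
include hM

theorem val_mem {F : ℕ → T} (h : code F ∈ M) (k : ℕ) : code (F k) ∈ M :=
  (mem_of_pair hM h (rel_code.2 ⟨k, rfl, rfl⟩)).2

theorem range_mem {F : ℕ → T} (h : code F ∈ M) : code (range F) ∈ M := by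
  obtain ⟨b, h1, h2⟩ := sep hM (ex fun n => rel 0 n 1) 1 (fun _ => ⟨_, h⟩)
    (hM.union _ (hM.union _ h))
  simp (disch := omega) only [basic hM, rel_code] at h2
  convert h1
  ext z
  rw [h2, mem_code_set]
  constructor
  · rintro ⟨_, ⟨k, rfl⟩, rfl⟩
    refine ⟨ZFSet.mem_sUnion.2 ⟨{code k, code (F k)}, ZFSet.mem_sUnion.2
      ⟨_, rel_code.2 ⟨k, rfl, rfl⟩, ?_⟩, ?_⟩, _, nat_mem hM k, k, rfl, rfl⟩ <;> simp [ZFSet.pair]
  · rintro ⟨-, -, -, k, -, rfl⟩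
    exact ⟨_, ⟨k, rfl⟩, rfl⟩

theorem iUnion_mem {F : ℕ → Set T} (h : code F ∈ M) : code (⋃ k, F k) ∈ M := by
  rw [← sUnion_range, ← code_sUnion]
  exact hM.union _ (range_mem hM h)

theorem unions_mem {F : ℕ → Set (Set T)} (h : code F ∈ M) :
    code (range fun k => ⋃₀ F k) ∈ M := by
  obtain ⟨p, h0, hp⟩ := power_mem hM (hM.union _ (iUnion_mem hM h))
  obtain ⟨b, h1, h2⟩ := sep hM (exIn 0 fun A => union 1 A) 1 (fun _ => ⟨_, range_mem hM h⟩) h0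
  simp (disch := omega) only [basic hM, exists_code, code_sUnion] at h2
  convert h1
  ext z
  rw [h2, mem_code_set]
  constructor
  · rintro ⟨_, ⟨k, rfl⟩, rfl⟩
    refine ⟨(hp _ ?_).2 ?_, _, ⟨k, rfl⟩, rfl⟩
    · exact code_sUnion (F k) ▸ hM.union _ (val_mem hM h k)
    · rw [code_sUnion]
      intro z hz
      obtain ⟨t, h3, rfl⟩ := mem_code_set.1 hz
      exact mem_code_set.2 ⟨t, sUnion_subset_sUnion (subset_iUnion F k) h3, rfl⟩
  · rintro ⟨-, _, ⟨k, rfl⟩, rfl⟩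
    exact ⟨_, ⟨k, rfl⟩, rfl⟩

theorem all_rel {F : ℕ → T} (h : code F ∈ M) {p : ZFSet.{0} → Prop} :
    (∀ n ∈ M, ∀ C ∈ M, ZFSet.pair n C ∈ code F → p C) ↔ ∀ k, p (code (F k)) := by
  refine ⟨fun h' k => h' _ (nat_mem hM k) _ (val_mem hM h k) (rel_code.2 ⟨k, rfl, rfl⟩),
    fun h' n _ C _ h1 => ?_⟩
  obtain ⟨k, -, rfl⟩ := rel_code.1 h1
  exact h' k

/-- sequences which select from a coded sequence are coded -/
theorem sel_iff {F : ℕ → T} (h : code F ∈ M) {g : ZFSet.{0}} (hg : g ∈ M)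
    {p : ZFSet.{0} → ZFSet.{0} → Prop} (hp : ∀ k y, p (code (F k)) y → ∃ s : S, code s = y) :
    (IsSeq g ∧ ∀ n ∈ M, ∀ C ∈ M, ∀ U ∈ M, ZFSet.pair n C ∈ code F → ZFSet.pair n U ∈ g → p C U) ↔
      ∃ G : ℕ → S, code G = g ∧ ∀ k, p (code (F k)) (code (G k)) := by
  constructor
  · rintro ⟨h1, h2⟩
    have h3 : ∀ (k : ℕ) y, ZFSet.pair (code k) y ∈ g → p (code (F k)) y := fun k y hy =>
      h2 _ (nat_mem hM k) _ (val_mem hM h k) _ (mem_of_pair hM hg hy).2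
        (rel_code.2 ⟨k, rfl, rfl⟩) hy
    obtain ⟨G, rfl⟩ := h1.decode fun k y hy => hp k y (h3 k y hy)
    exact ⟨G, rfl, fun k => h3 k _ (rel_code.2 ⟨k, rfl, rfl⟩)⟩
  · rintro ⟨G, rfl, h1⟩
    refine ⟨isSeq_code G, fun n _ C _ U _ h2 h3 => ?_⟩
    obtain ⟨k, rfl, rfl⟩ := rel_code.1 h2
    obtain ⟨l, h4, rfl⟩ := rel_code.1 h3
    obtain rfl : l = k := code_inj.1 h4
    exact h1 l

theorem the_iff {b : ZFSet.{0}} (hb : b ∈ M) {p q : ZFSet.{0} → Prop} (h : ∀ x, x ∈ b ↔ p x) :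
    (∃ a ∈ M, (∀ x ∈ M, x ∈ a ↔ p x) ∧ q a) ↔ q b :=
  ⟨fun ⟨_, h1, h2, h3⟩ => (ext_M hM h1 hb h).1 h2 ▸ h3, fun h' => ⟨b, hb, fun x _ => h x, h'⟩⟩

end closure

/-- the covers of each kind -/
def KCov (Y : Type) [TopologicalSpace Y] : Kind → Set (Set (Set Y))
  | .O => OpenCovers Y
  | .Ω => OmegaCovers Y
  | .T => TauCovers Y
  | .Γ => GammaCovers Y

section
variable (M : Set ZFSet.{0}) {Y : Type} [Coded Y]

/-- `S₁` for an arbitrary coding of the points -/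
def G1 (𝔘 𝔙 : Set (Set (Set Y))) : Prop :=
  ∀ 𝒰 : ℕ → Set (Set Y), code 𝒰 ∈ M → (∀ n, 𝒰 n ∈ 𝔘) →
    ∃ U : ℕ → Set Y, code U ∈ M ∧ (∀ n, U n ∈ 𝒰 n) ∧ range U ∈ 𝔙

/-- `S_fin` for an arbitrary coding of the points -/
def Gfin (𝔘 𝔙 : Set (Set (Set Y))) : Prop :=
  ∀ 𝒰 : ℕ → Set (Set Y), code 𝒰 ∈ M → (∀ n, 𝒰 n ∈ 𝔘) →
    ∃ F : ℕ → Set (Set Y), code F ∈ M ∧ (∀ n, F n ⊆ 𝒰 n ∧ (F n).Finite) ∧ ⋃ n, F n ∈ 𝔙

/-- `U_fin` for an arbitrary coding of the points -/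
def GU (𝔘 𝔙 : Set (Set (Set Y))) : Prop :=
  ∀ 𝒰 : ℕ → Set (Set Y), code 𝒰 ∈ M → (∀ n, 𝒰 n ∈ 𝔘) →
    (∀ n, ¬ ∃ F ⊆ 𝒰 n, F.Finite ∧ ⋃₀ F = univ) →
    ∃ F : ℕ → Set (Set Y), code F ∈ M ∧ (∀ n, F n ⊆ 𝒰 n ∧ (F n).Finite) ∧
      range (fun n => ⋃₀ F n) ∈ 𝔙

end

variable {Y : Type} [TopologicalSpace Y] [Coded Y] [CodedInj Y]

section
variable {L R : ZFSet.{0}} (hO : ∀ U : Set Y, AOpen L R (code (univ : Set Y)) (code U) ↔ IsOpen U)
include hO

theorem acover_iff (C : Set (Set Y)) :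
    ACover L R (code (univ : Set Y)) (code C) ↔ C ∈ OpenCovers Y := by
  simp only [ACover, forall_code, hO, code_sUnion, code_inj, code_mem_code, OpenCovers,
    mem_ofPred_eq, eq_comm (a := (univ : Set Y))]

theorem acov_iff (C : Set (Set Y)) (k : Kind) :
    ACov L R (code (univ : Set Y)) (code C) k ↔ C ∈ KCov Y k := by
  cases k <;> simp only [ACov, KCov, acover_iff hO, forall_code, exists_code, finite_code_sep,
    finite_code, code_mem_code, mem_univ, forall_true_left, OmegaCovers, TauCovers, GammaCovers,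
    mem_ofPred_eq, Set.Infinite]
  refine and_congr_right' ⟨fun h F hF => ?_, fun h F h1 h2 => ?_⟩
  · simpa only [code_subset] using h (code F) (code_subset.2 (subset_univ _)) (finite_code.2 hF)
  · obtain ⟨F, rfl⟩ := decode_sub h1
    simpa only [code_subset] using h F (finite_code.1 h2)

omit hO [TopologicalSpace Y] [CodedInj Y] in
theorem ACov.decode {C : ZFSet.{0}} {k : Kind} (h : ACov L R (code (univ : Set Y)) C k) :
    ∃ A : Set (Set Y), code A = C := by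
  have : ACover L R (code (univ : Set Y)) C := by
    cases k
    exacts [h, h.1, h.1, h.1]
  exact decode_set fun U hU => decode_sub (this.1 U hU).1

theorem covSeq_iff {M : Set ZFSet.{0}} (hM : TransModelZFC M) {k : Kind} {q : ZFSet.{0} → Prop} :
    (∀ f ∈ M, (IsSeq f ∧ ∀ n ∈ M, ∀ C ∈ M, ZFSet.pair n C ∈ f →
      ACov L R (code (univ : Set Y)) C k) → q f) ↔
      ∀ 𝒰 : ℕ → Set (Set Y), code 𝒰 ∈ M → (∀ n, 𝒰 n ∈ KCov Y k) → q (code 𝒰) := by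
  refine ⟨fun h 𝒰 h1 h2 => h _ h1 ⟨isSeq_code _, (all_rel hM h1).2 fun n =>
    (acov_iff hO _ _).2 (h2 n)⟩, fun h f h1 ⟨h2, h3⟩ => ?_⟩
  obtain ⟨𝒰, rfl⟩ := h2.decode (T := Set (Set Y)) fun n y hy =>
    (h3 _ (nat_mem hM n) _ (mem_of_pair hM h1 hy).2 hy).decode
  exact h 𝒰 h1 fun n => (acov_iff hO _ _).1 ((all_rel hM h1).1 h3 n)

end

variable {M : Set ZFSet.{0}} (hM : TransModelZFC M) {n L R X : ℕ} {v : ℕ → M}
  (hL : L < n) (hR : R < n) (hX : X < n) (hc : (v X).1 = code (univ : Set Y))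
  (hO : ∀ U : Set Y, AOpen (v L).1 (v R).1 (code (univ : Set Y)) (code U) ↔ IsOpen U)
include hM hL hR hX hc hO

theorem sat_s1 (A B : Kind) : sat M (s1 L R X A B) n v ↔ G1 M (KCov Y A) (KCov Y B) := by
  simp (disch := omega) only [s1, covSeq, basic hM, sat_cov hM, hc]
  refine (covSeq_iff hO hM).trans (forall₃_congr fun 𝒰 h1 h2 => ?_)
  have key := fun g hg => sel_iff hM h1 (g := g) hg (S := Set Y) (p := fun C U => U ∈ C)
    fun k y hy => let ⟨t, _, ht⟩ := mem_code_set.1 hy; ⟨t, ht⟩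
  have the : ∀ U : ℕ → Set Y, code U ∈ M → ∀ x, x ∈ code (range U) ↔
      ∃ n ∈ M, ZFSet.pair n x ∈ code U := fun U _ x => by
    simp only [mem_code_set, rel_code, exists_range_iff]
    exact ⟨fun ⟨k, h⟩ => ⟨_, nat_mem hM k, k, rfl, h⟩, fun ⟨_, _, k, _, h⟩ => ⟨k, h⟩⟩
  constructor
  · rintro ⟨g, h3, h4, h5, h6⟩
    obtain ⟨U, rfl, h7⟩ := (key g h3).1 ⟨h4, h5⟩
    exact ⟨U, h3, fun k => code_mem_code.1 (h7 k),
      (acov_iff hO _ _).1 ((the_iff hM (range_mem hM h3) (the U h3)).1 h6)⟩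
  · rintro ⟨U, h3, h4, h5⟩
    obtain ⟨h6, h7⟩ := (key _ h3).2 ⟨U, rfl, fun k => code_mem_code.2 (h4 k)⟩
    exact ⟨_, h3, h6, h7, (the_iff hM (range_mem hM h3) (the U h3)).2 ((acov_iff hO _ _).2 h5)⟩

omit hL hR hX hc hO [TopologicalSpace Y] in
theorem finSel_iff {𝒰 : ℕ → Set (Set Y)} (h : code 𝒰 ∈ M) {q : ZFSet.{0} → Prop} :
    (∃ g ∈ M, (IsSeq g ∧ ∀ n ∈ M, ∀ C ∈ M, ∀ F ∈ M, ZFSet.pair n C ∈ code 𝒰 →
      ZFSet.pair n F ∈ g → F ⊆ C ∧ {x | x ∈ F}.Finite) ∧ q g) ↔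
      ∃ F : ℕ → Set (Set Y), code F ∈ M ∧ (∀ n, F n ⊆ 𝒰 n ∧ (F n).Finite) ∧ q (code F) := by
  have key := fun g hg => sel_iff hM h (g := g) hg (S := Set (Set Y))
    (p := fun C F => F ⊆ C ∧ {x | x ∈ F}.Finite) fun k y hy => decode_sub hy.1
  simp only [code_subset, finite_code] at key
  constructor
  · rintro ⟨g, h1, h2, h3⟩
    obtain ⟨F, rfl, h4⟩ := (key g h1).1 h2
    exact ⟨F, h1, h4, h3⟩
  · rintro ⟨F, h1, h2, h3⟩
    exact ⟨_, h1, (key _ h1).2 ⟨F, rfl, h2⟩, h3⟩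

theorem sat_sfin (A B : Kind) : sat M (sfin L R X A B) n v ↔ Gfin M (KCov Y A) (KCov Y B) := by
  simp (disch := omega) only [sfin, covSeq, finSel, basic hM, sat_cov hM, hc]
  refine (covSeq_iff hO hM).trans (forall₃_congr fun 𝒰 h1 h2 => (finSel_iff hM h1).trans
    (exists_congr fun F => and_congr_right fun h3 => and_congr_right' ?_))
  refine (the_iff hM (iUnion_mem hM h3) fun x => ?_).trans (acov_iff hO _ _)
  simp only [mem_code_set (A := ⋃ k, F k), rel_code, mem_iUnion]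
  constructor
  · rintro ⟨U, ⟨k, h4⟩, rfl⟩
    exact ⟨_, nat_mem hM k, _, val_mem hM h3 k, ⟨k, rfl, rfl⟩, code_mem_code.2 h4⟩
  · rintro ⟨_, -, _, -, ⟨k, rfl, rfl⟩, h4⟩
    obtain ⟨U, h5, rfl⟩ := mem_code_set.1 h4
    exact ⟨U, ⟨k, h5⟩, rfl⟩

theorem sat_ufin (A B : Kind) : sat M (ufin L R X A B) n v ↔ GU M (KCov Y A) (KCov Y B) := by
  simp (disch := omega) only [ufin, covSeq, finSel, basic hM, sat_cov hM, hc]
  refine (covSeq_iff hO hM).trans (forall₃_congr fun 𝒰 h1 h2 => imp_congr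
    ((all_rel hM h1).trans (forall_congr' fun k => not_congr ?_)) ((finSel_iff hM h1).trans
    (exists_congr fun F => and_congr_right fun h3 => and_congr_right' ?_)))
  · constructor
    · rintro ⟨F, -, h3, h4, h5⟩
      obtain ⟨F, rfl⟩ := decode_sub h3
      exact ⟨F, code_subset.1 h3, finite_code.1 h4, code_inj.1 (code_sUnion F ▸ h5.symm)⟩
    · rintro ⟨F, h3, h4, h5⟩
      refine ⟨code F, finite_mem' hM (finite_code.2 h4) fun x hx => hM.trans _ (val_mem hM h1 k) _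
        (code_subset.2 h3 hx), code_subset.2 h3, finite_code.2 h4, by rw [code_sUnion, h5]⟩
  · refine (the_iff hM (unions_mem hM h3) fun x => ?_).trans (acov_iff hO _ _)
    simp only [mem_code_set (A := range _), rel_code, exists_range_iff]
    constructor
    · rintro ⟨k, rfl⟩
      exact ⟨_, nat_mem hM k, _, val_mem hM h3 k, ⟨k, rfl, rfl⟩, (code_sUnion _).symm⟩
    · rintro ⟨_, -, _, -, ⟨k, rfl, rfl⟩, rfl⟩
      exact ⟨k, (code_sUnion _).symm⟩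

end Pool.Agent.P.MP_b17faa_gt.Fo
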