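import Pool.Agent.Lib.Helper87.ModelDefs

/-!
The axioms of ZFC and the implications between the selection properties as first order sentences
in the language with one binary relation symbol, read as membership.
-/

namespace Pool.Agent.P.MP_b17faa_gt.Fo

open FirstOrder FirstOrder.Language

/-- A formula of set theory whose variables are named by numbers: `φ n` is the formula read in
the context of the variables `0, ..., n - 1`. -/
def Fm : Type := (n : ℕ) → Language.graph.BoundedFormula Empty n

namespace Fm

/-- `x ∈ y` -/
def mem (x y : ℕ) : Fm := fun n => if h : x < n ∧ y < n then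
  Relations.boundedFormula₂ adj (.var (.inr ⟨x, h.1⟩)) (.var (.inr ⟨y, h.2⟩)) else ⊥

/-- `x = y` -/
def eq (x y : ℕ) : Fm := fun n => if h : x < n ∧ y < n then
  Term.bdEqual (.var (.inr ⟨x, h.1⟩)) (.var (.inr ⟨y, h.2⟩)) else ⊥

/-- the formula `φ` with its free variables replaced by the variables `x i` -/
def inst {k : ℕ} (φ : Language.graph.Formula (Fin k)) (x : Fin k → ℕ) : Fm := fun n =>
  if h : ∀ i, x i < n then BoundedFormula.relabel (fun i => .inr ⟨x i, h i⟩) φ else ⊥

/-- implication -/
def imp (φ ψ : Fm) : Fm := fun n => (φ n).imp (ψ n)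

/-- negation -/
def not (φ : Fm) : Fm := fun n => (φ n).not

/-- conjunction -/
def and (φ ψ : Fm) : Fm := fun n => φ n ⊓ ψ n

/-- disjunction -/
def or (φ ψ : Fm) : Fm := fun n => φ n ⊔ ψ n

/-- equivalence -/
def iff (φ ψ : Fm) : Fm := fun n => (φ n).iff (ψ n)

/-- `∀ x, φ x`: the new variable of the context `0, ..., n - 1` is `n` -/
def all (φ : ℕ → Fm) : Fm := fun n => (φ n (n + 1)).all

/-- `∃ x, φ x` -/
def ex (φ : ℕ → Fm) : Fm := fun n => (φ n (n + 1)).ex

/-- `∀ x ∈ a, φ x` -/
def allIn (a : ℕ) (φ : ℕ → Fm) : Fm := all fun x => (mem x a).imp (φ x)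

/-- `∃ x ∈ a, φ x` -/
def exIn (a : ℕ) (φ : ℕ → Fm) : Fm := ex fun x => (mem x a).and (φ x)

/-- the universal closure over the variables `0, ..., k - 1` -/
def close (k : ℕ) (φ : Fm) : Language.graph.Sentence := (φ k).alls

/-! ### Sets, functions, natural numbers -/

/-- `a = {x | φ x}` -/
def isSet (a : ℕ) (φ : ℕ → Fm) : Fm := all fun x => (mem x a).iff (φ x)

/-- `a ⊆ b` -/
def sub (a b : ℕ) : Fm := allIn a fun x => mem x b

/-- `u = ⋃ a` -/
def union (u a : ℕ) : Fm := isSet u fun x => exIn a fun y => mem x y

/-- `z = {x, y}` -/
def doub (z x y : ℕ) : Fm := isSet z fun t => (eq t x).or (eq t y)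

/-- `z = (x, y) = {{x}, {x, y}}` -/
def pair (z x y : ℕ) : Fm := isSet z fun t => (doub t x x).or (doub t x y)

/-- `(x, y) ∈ r` -/
def rel (r x y : ℕ) : Fm := exIn r fun z => pair z x y

/-- `a` contains the empty set and is closed under `x ↦ x ∪ {x}` -/
def ind (a : ℕ) : Fm := (exIn a fun e => all fun t => (mem t e).not).and <|
  allIn a fun x => exIn a fun s => isSet s fun t => (mem t x).or (eq t x)

/-- `n` is a natural number -/
def nat (n : ℕ) : Fm := all fun a => (ind a).imp (mem n a)

/-- the relation `f` is single valued -/
def func (f : ℕ) : Fm :=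
  all fun x => all fun y => all fun z => (rel f x y).imp ((rel f x z).imp (eq y z))

/-- `a` is finite: it is contained in the image of a natural number under a function -/
def fin (a : ℕ) : Fm :=
  ex fun n => (nat n).and <| ex fun f => (func f).and <| allIn a fun y => exIn n fun x => rel f x y

/-- `a` is countable -/
def ctble (a : ℕ) : Fm :=
  ex fun f => (func f).and <| allIn a fun y => ex fun x => (nat x).and (rel f x y)

/-- `{x ∈ a | φ x}` is finite -/
def finSep (a : ℕ) (φ : ℕ → Fm) : Fm :=
  ex fun s => (fin s).and <| allIn a fun x => (φ x).imp (mem x s)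

/-- `f` is a sequence: a function with domain the natural numbers -/
def seq (f : ℕ) : Fm := (func f).and <|
  (allIn f fun z => ex fun n => ex fun y => (nat n).and (pair z n y)).and <|
  all fun n => (nat n).imp <| ex fun y => rel f n y

/-! ### The real line, open sets and covers -/

/-- `b` is an upper bound of `A` for the strict order `R` -/
def ub (R A b : ℕ) : Fm := allIn A fun x => (rel R b x).not

/-- `(L, R)` is the real line: a nonempty strict linear order without endpoints which has a
countable dense subset and the least upper bound property -/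
def line (L R : ℕ) : Fm :=
  (ex fun x => mem x L).and <|
  (allIn L fun x => (rel R x x).not).and <|
  (allIn L fun x => allIn L fun y => allIn L fun z =>
    (rel R x y).imp ((rel R y z).imp (rel R x z))).and <|
  (allIn L fun x => allIn L fun y => (rel R x y).or ((eq x y).or (rel R y x))).and <|
  (allIn L fun x => (exIn L fun y => rel R y x).and (exIn L fun y => rel R x y)).and <|
  (ex fun D => (sub D L).and <| (ctble D).and <| allIn L fun x => allIn L fun y =>
    (rel R x y).imp <| exIn D fun d => (rel R x d).and (rel R d y)).and <|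
  all fun A => (sub A L).imp <| (ex fun x => mem x A).imp <| (exIn L fun b => ub R A b).imp <|
    exIn L fun s => (ub R A s).and <| allIn L fun b => (ub R A b).imp (rel R b s).not

/-- `U` is an open subset of the subspace `X` of the line -/
def isOpen (L R X U : ℕ) : Fm := (sub U X).and <| allIn U fun x => exIn L fun a => exIn L fun b =>
  (rel R a x).and <| (rel R x b).and <| allIn X fun y => (rel R a y).imp ((rel R y b).imp (mem y U))

/-- the kinds of covers: open covers and open `ω`-, `τ`-, `γ`-covers -/
inductive Kind | O | Ω | T | Γ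

/-- `C` is an open cover of `X`, with `X ∉ C` -/
def cover (L R X C : ℕ) : Fm :=
  (allIn C fun U => isOpen L R X U).and <| (union X C).and (mem X C).not

/-- `C` is an open cover of `X` of the given kind -/
def cov (L R X C : ℕ) : Kind → Fm
  | .O => cover L R X C
  | .Ω => (cover L R X C).and <| all fun F => (sub F X).imp <| (fin F).imp <|
      exIn C fun U => sub F U
  | .T => (cover L R X C).and <| (allIn X fun x => (finSep C fun U => mem x U).not).and <|
      allIn X fun x => allIn X fun y => (finSep C fun U => (mem x U).and (mem y U).not).or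
        (finSep C fun U => (mem y U).and (mem x U).not)
  | .Γ => (cover L R X C).and <| (fin C).not.and <| allIn X fun x => finSep C fun U => (mem x U).not

/-! ### The selection principles -/

/-- `f` is a sequence of covers of kind `A` -/
def covSeq (L R X f : ℕ) (A : Kind) : Fm :=
  (seq f).and <| all fun n => all fun C => (rel f n C).imp (cov L R X C A)

/-- `g` is a sequence with `g n` a finite subset of `f n` -/
def finSel (f g : ℕ) : Fm := (seq g).and <| all fun n => all fun C => all fun F =>
  (rel f n C).imp <| (rel g n F).imp <| (sub F C).and (fin F)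

/-- `S₁(A, B)` -/
def s1 (L R X : ℕ) (A B : Kind) : Fm := all fun f => (covSeq L R X f A).imp <| ex fun g =>
  (seq g).and <|
  (all fun n => all fun C => all fun U => (rel f n C).imp ((rel g n U).imp (mem U C))).and <|
  ex fun C => (isSet C fun U => ex fun n => rel g n U).and (cov L R X C B)

/-- `S_fin(A, B)` -/
def sfin (L R X : ℕ) (A B : Kind) : Fm := all fun f => (covSeq L R X f A).imp <| ex fun g =>
  (finSel f g).and <|
  ex fun C => (isSet C fun U => ex fun n => ex fun F => (rel g n F).and (mem U F)).and
    (cov L R X C B)

/-- `U_fin(A, B)` -/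
def ufin (L R X : ℕ) (A B : Kind) : Fm := all fun f => (covSeq L R X f A).imp <|
  (all fun n => all fun C => (rel f n C).imp
    (ex fun F => (sub F C).and <| (fin F).and (union X F)).not).imp <| ex fun g =>
  (finSel f g).and <|
  ex fun C => (isSet C fun U => ex fun n => ex fun F => (rel g n F).and (union U F)).and
    (cov L R X C B)

/-- the properties `(0), ..., (21)` of the subspace `X` of the line `(L, R)` -/
def prop (L R X : ℕ) : ℕ → Fm
  | 0 => s1 L R X .Γ .Γ
  | 1 => s1 L R X .Γ .T
  | 2 => s1 L R X .Γ .Ω
  | 3 => s1 L R X .Γ .O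
  | 4 => s1 L R X .T .Γ
  | 5 => s1 L R X .T .T
  | 6 => s1 L R X .T .Ω
  | 7 => s1 L R X .T .O
  | 8 => s1 L R X .Ω .Γ
  | 9 => s1 L R X .Ω .T
  | 10 => s1 L R X .Ω .Ω
  | 11 => s1 L R X .O .O
  | 12 => sfin L R X .Γ .T
  | 13 => sfin L R X .Γ .Ω
  | 14 => sfin L R X .T .T
  | 15 => sfin L R X .T .Ω
  | 16 => sfin L R X .Ω .T
  | 17 => sfin L R X .Ω .Ω
  | 18 => ufin L R X .Γ .Γ
  | 19 => ufin L R X .Γ .T
  | 20 => ufin L R X .Γ .Ω
  | 21 => ufin L R X .Γ .O
  | _ => fun _ => ⊥

end Fm

open Fm

/-- The sentence: every nonempty set of reals with property `i` has property `j`. -/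
def implies (i j : ℕ) : Language.graph.Sentence :=
  close 0 <| all fun L => all fun R => all fun X => (line L R).imp <| (sub X L).imp <|
    (ex fun x => mem x X).imp <| (prop L R X i).imp (prop L R X j)

/-- The separation axiom for `φ`, with parameters `0, ..., k - 1`. -/
def sepAx {k : ℕ} (φ : Language.graph.Formula (Fin (k + 1))) : Language.graph.Sentence :=
  close k <| all fun a => ex fun b => isSet b fun x =>
    (mem x a).and (inst φ (Fin.snoc Fin.val x))

/-- The replacement axiom for `φ`, with parameters `0, ..., k - 1`. -/
def replAx {k : ℕ} (φ : Language.graph.Formula (Fin (k + 2))) : Language.graph.Sentence :=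
  close k <| all fun a =>
    (allIn a fun x => ex fun y => (inst φ (Fin.snoc (Fin.snoc Fin.val x) y)).and <|
      all fun z => (inst φ (Fin.snoc (Fin.snoc Fin.val x) z)).imp (eq z y)).imp <|
    ex fun b => allIn a fun x => exIn b fun y => inst φ (Fin.snoc (Fin.snoc Fin.val x) y)

/-- The axioms of ZFC: extensionality, foundation, pairing, union, power set, infinity, choice,
and the schemes of separation and replacement. -/
def ZFC : Language.graph.Theory :=
  {close 0 <| all fun a => all fun b => (isSet a fun x => mem x b).imp (eq a b),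
    close 0 <| all fun a => (ex fun x => mem x a).imp <|
      exIn a fun x => allIn x fun y => (mem y a).not,
    close 0 <| all fun x => all fun y => ex fun z => doub z x y,
    close 0 <| all fun a => ex fun u => union u a,
    close 0 <| all fun a => ex fun p => isSet p fun x => sub x a,
    close 0 <| ex fun a => ind a,
    close 0 <| all fun a => (allIn a fun x => ex fun t => mem t x).imp <|
      (allIn a fun x => allIn a fun y => (exIn x fun t => mem t y).imp (eq x y)).imp <|
      ex fun c => allIn a fun x => exIn x fun t => (mem t c).and <|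
        allIn x fun s => (mem s c).imp (eq s t)} ∪
  (⋃ k, Set.range (sepAx (k := k))) ∪ ⋃ k, Set.range (replAx (k := k))

end Pool.Agent.P.MP_b17faa_gt.Fo
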