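import Pool.Agent.P.MP_b17faa_gt.Collapse

/-!
Indexed covers and the combinatorial interface for the consistent examples.
-/

namespace Pool.Agent.P.MP_b17faa_gt

open Set Function

/-- the four classes of covers -/
inductive Cl | O | Om | T | G

/-- the open covers of each class -/
def Cov (X : Type) [TopologicalSpace X] : Cl → Set (Set (Set X))
  | .O => OpenCovers X
  | .Om => OmegaCovers X
  | .T => TauCovers X
  | .G => GammaCovers X

/-- the indexed family `(u i : i ∈ S)` is a cover of `A` of the given class, counting indices -/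
def Ix {Y ι : Type} : Cl → Set Y → (ι → Set Y) → Set ι → Prop
  | .O, A, u, S => ∀ x ∈ A, ∃ i ∈ S, x ∈ u i
  | .Om, A, u, S => ∀ F ⊆ A, F.Finite → ∃ i ∈ S, F ⊆ u i
  | .T, A, u, S => (∀ x ∈ A, {i ∈ S | x ∈ u i}.Infinite) ∧
      ∀ x ∈ A, ∀ y ∈ A, {i ∈ S | x ∈ u i ∧ y ∉ u i}.Finite ∨ {i ∈ S | y ∈ u i ∧ x ∉ u i}.Finite
  | .G, A, u, S => S.Infinite ∧ ∀ x ∈ A, {i ∈ S | x ∉ u i}.Finite

/-- a countably closed order of countable approximations of a subset of `Y` -/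
structure Approx (P : Type) [Preorder P] (Y : Type) where
  pt : P → Set Y
  countable : ∀ p, (pt p).Countable
  anti : ∀ p q, q ≤ p → pt p ⊆ pt q
  closed : ∀ s : ℕ → P, Antitone s → ∃ q, ∀ n, q ≤ s n
  nonempty : ∀ p, ∃ q ≤ p, (pt q).Nonempty

namespace Approx

variable {P : Type} [Preorder P] {Y : Type} [TopologicalSpace Y] (a : Approx P Y)

/-- below `p` the sets `u n k` are open, proper, and form covers of class `A` -/
structure Input (A : Cl) (u : ℕ → ℕ → Set Y) (p : P) : Prop where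
  isOpen : ∀ n k, IsOpen (u n k)
  proper : ∀ q ≤ p, ∀ n k, ∃ r ≤ q, ¬ a.pt r ⊆ u n k
  ix : ∀ q ≤ p, ∀ n, Ix A (a.pt q) (u n) univ

/-- sufficient for `S₁(A, B)` of the generic set -/
def Pos1 (A B : Cl) : Prop :=
  ∀ u p, a.Input A u p → ∃ q ≤ p, ∃ f : ℕ → ℕ, ∀ r ≤ q, Ix B (a.pt r) (fun n => u n (f n)) univ

/-- sufficient for `S_fin(A, B)` of the generic set -/
def PosFin (A B : Cl) : Prop :=
  ∀ u p, a.Input A u p → ∃ q ≤ p, ∃ S : Set (ℕ × ℕ), (∀ n, {k | (n, k) ∈ S}.Finite) ∧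
    ∀ r ≤ q, Ix B (a.pt r) (uncurry u) S

/-- sufficient for `U_fin(Γ, B)` of the generic set -/
def PosU (B : Cl) : Prop :=
  ∀ u p, a.Input .G u p → (∀ n, Monotone (u n)) →
    ∃ q ≤ p, ∃ f : ℕ → ℕ, ∀ r ≤ q, Ix B (a.pt r) (fun n => u n (f n)) univ

/-- sufficient for the failure of `S₁(A, B)` of the generic set -/
def Neg1 (A B : Cl) : Prop :=
  ∃ u, (∀ p, a.Input A u p) ∧ ∀ S : Set (ℕ × ℕ), (∀ n, {k | (n, k) ∈ S}.Subsingleton) →
    ∀ p, ∃ q ≤ p, ¬ Ix B (a.pt q) (uncurry u) S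

/-- sufficient for the failure of `S₁(A, B)` of the generic set: total selectors, for families
without repetitions -/
def Neg1t (A B : Cl) : Prop :=
  ∃ u, (∀ p, a.Input A u p) ∧
    (∀ i j : ℕ × ℕ, i ≠ j → ∀ p, ∃ q ≤ p, ∃ x ∈ a.pt q, ¬ (x ∈ uncurry u i ↔ x ∈ uncurry u j)) ∧
    ∀ f : ℕ → ℕ, ∀ p, ∃ q ≤ p, ¬ Ix B (a.pt q) (fun n => u n (f n)) univ

/-- sufficient for the failure of `S_fin(A, B)` of the generic set -/
def NegFin (A B : Cl) : Prop :=
  ∃ u, (∀ p, a.Input A u p) ∧ ∀ S : Set (ℕ × ℕ), (∀ n, {k | (n, k) ∈ S}.Finite) →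
    ∀ p, ∃ q ≤ p, ¬ Ix B (a.pt q) (uncurry u) S

/-- sufficient for the failure of `U_fin(Γ, B)` of the generic set -/
def NegU (B : Cl) : Prop :=
  ∃ u, (∀ p, a.Input .G u p) ∧ (∀ n, Monotone (u n)) ∧
    ∀ S : Set (ℕ × ℕ), (∀ n, {k | (n, k) ∈ S}.Subsingleton) →
      ∀ p, ∃ q ≤ p, ¬ Ix B (a.pt q) (uncurry u) S

end Approx

section
variable {Y ι : Type} {A A' : Set Y} {u : ι → Set Y} {S : Set ι}

theorem Ix.anti {c : Cl} (h : Ix c A u S) (h' : A' ⊆ A) : Ix c A' u S := by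
  cases c
  · exact fun x hx => h x (h' hx)
  · exact fun F hF => h F (hF.trans h')
  · exact ⟨fun x hx => h.1 x (h' hx), fun x hx y hy => h.2 x (h' hx) y (h' hy)⟩
  · exact ⟨h.1, fun x hx => h.2 x (h' hx)⟩

/-- finite character -/
theorem ix_of_finite {c : Cl} (h : ∀ F ⊆ A, F.Finite → Ix c F u S) : Ix c A u S := by
  cases c
  · exact fun x hx => h {x} (by simpa) (finite_singleton x) x rfl
  · exact fun F hF hF' => h F hF hF' F Subset.rfl hF'
  · exact ⟨fun x hx => (h {x} (by simpa) (finite_singleton x)).1 x rfl, fun x hx y hy =>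
      (h {x, y} (by simp [insert_subset_iff, hx, hy]) (toFinite _)).2 x (by simp) y (by simp)⟩
  · exact ⟨(h ∅ (empty_subset _) finite_empty).1,
      fun x hx => (h {x} (by simpa) (finite_singleton x)).2 x rfl⟩

theorem Ix.tau_of_gamma (h : Ix .G A u S) : Ix .T A u S := by
  refine ⟨fun x hx => ?_, fun x _ y hy => Or.inl ((h.2 y hy).subset fun i hi => ⟨hi.1, hi.2.2⟩)⟩
  refine (h.1.sdiff (h.2 x hx)).mono fun i hi => ⟨hi.1, ?_⟩
  by_contra hc
  exact hi.2 ⟨hi.1, hc⟩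

/-- in a `τ`-cover every nonempty finite set has a point which is almost below all others -/
theorem Ix.exists_min (h : Ix .T A u S) {F : Set Y} (hF : F ⊆ A) (hF' : F.Finite)
    (hne : F.Nonempty) : ∃ x ∈ F, ∀ y ∈ F, {i ∈ S | x ∈ u i ∧ y ∉ u i}.Finite := by
  induction F, hF' using Finite.induction_on with
  | empty => exact absurd hne not_nonempty_empty
  | @insert z F _ _ ih =>
    rcases F.eq_empty_or_nonempty with rfl | hne'
    · refine ⟨z, by simp, fun y hy => ?_⟩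
      obtain rfl : y = z := by simpa using hy
      exact finite_empty.subset fun i hi => hi.2.2 hi.2.1
    obtain ⟨x, hx, h1⟩ := ih ((subset_insert _ _).trans hF) hne'
    rcases h.2 x (hF (mem_insert_of_mem _ hx)) z (hF (mem_insert _ _)) with h2 | h2
    · refine ⟨x, mem_insert_of_mem _ hx, ?_⟩
      rintro y (rfl | hy)
      exacts [h2, h1 y hy]
    · refine ⟨z, mem_insert _ _, ?_⟩
      rintro y (rfl | hy)
      · exact finite_empty.subset fun i hi => hi.2.2 hi.2.1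
      · refine (h2.union (h1 y hy)).subset fun i hi => ?_
        by_cases hxi : x ∈ u i
        exacts [Or.inr ⟨hi.1, hxi, hi.2.2⟩, Or.inl ⟨hi.1, hi.2.1, hxi⟩]

theorem Ix.infinite_of_tau (h : Ix .T A u S) {F : Set Y} (hF : F ⊆ A) (hF' : F.Finite)
    (hne : F.Nonempty) : {i ∈ S | F ⊆ u i}.Infinite := by
  obtain ⟨x, hx, h1⟩ := h.exists_min hF hF' hne
  refine ((h.1 x (hF hx)).sdiff (hF'.biUnion h1)).mono fun i hi => ⟨hi.1.1, fun y hy => ?_⟩
  by_contra hc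
  exact hi.2 (mem_biUnion hy ⟨hi.1.1, hi.1.2, hc⟩)

theorem Ix.omega_of_tau (h : Ix .T A u S) (hA : A.Nonempty) : Ix .Om A u S := by
  intro F hF hF'
  obtain ⟨x, hx⟩ := hA
  obtain ⟨i, h1, h2⟩ := (h.infinite_of_tau (insert_subset hx hF) (hF'.insert x)
    (insert_nonempty _ _)).nonempty
  exact ⟨i, h1, (subset_insert _ _).trans h2⟩

theorem Ix.cover_of_omega (h : Ix .Om A u S) : Ix .O A u S := fun x hx => by
  obtain ⟨i, h1, h2⟩ := h {x} (by simpa) (finite_singleton x)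
  exact ⟨i, h1, h2 rfl⟩

theorem Ix.cover {c : Cl} (h : Ix c A u S) : Ix .O A u S := by
  cases c
  · exact h
  · exact h.cover_of_omega
  · exact fun x hx => let ⟨i, h1⟩ := (h.1 x hx).nonempty; ⟨i, h1⟩
  · exact fun x hx => let ⟨i, h1⟩ := (h.tau_of_gamma.1 x hx).nonempty; ⟨i, h1⟩

/-- reindexing along a map which is injective on the index set -/
theorem ix_image {κ : Type} {c : Cl} {g : κ → ι} {R : Set κ} (hg : InjOn g R) :
    Ix c A u (g '' R) ↔ Ix c A (fun j => u (g j)) R := by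
  have key : ∀ Q : ι → Prop, {i ∈ g '' R | Q i}.Finite ↔ {j ∈ R | Q (g j)}.Finite := fun Q => by
    have : {i ∈ g '' R | Q i} = g '' {j ∈ R | Q (g j)} := by
      ext i
      simp only [mem_ofPred_eq, mem_image]
      constructor
      · rintro ⟨⟨j, h1, rfl⟩, h2⟩
        exact ⟨j, ⟨h1, h2⟩, rfl⟩
      · rintro ⟨j, ⟨h1, h2⟩, rfl⟩
        exact ⟨⟨j, h1, rfl⟩, h2⟩
    rw [this, finite_image_iff (hg.mono (sep_subset _ _))]
  cases c
  · simp [Ix]
  · simp [Ix]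
  · simp only [Ix, Set.Infinite, key]
  · simp only [Ix, Set.Infinite, key, finite_image_iff hg]

theorem ix_preimage {Z : Type} {c : Cl} {e : Z → Y} {B : Set Z} :
    Ix c (e '' B) u S ↔ Ix c B (fun i => e ⁻¹' u i) S := by
  cases c
  · simp [Ix]
  · constructor
    · intro h F h1 h2
      simpa using h (e '' F) (image_mono h1) (h2.image e)
    · intro h F h1 h2
      obtain ⟨F', a1, a2, rfl⟩ := h2.exists_subset_finite_image_eq h1
      simpa using h F' a1 a2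
  · simp [Ix]
  · simp [Ix]

theorem Ix.congr {c : Cl} {v : ι → Set Y} (h : Ix c A u S)
    (h' : ∀ i ∈ S, ∀ x ∈ A, x ∈ u i ↔ x ∈ v i) : Ix c A v S := by
  cases c
  · exact fun x hx => let ⟨i, h1, h2⟩ := h x hx; ⟨i, h1, (h' i h1 x hx).1 h2⟩
  · exact fun F h1 h2 => let ⟨i, h3, h4⟩ := h F h1 h2
      ⟨i, h3, fun x hx => (h' i h3 x (h1 hx)).1 (h4 hx)⟩
  · refine ⟨fun x hx => (h.1 x hx).mono fun i hi => ⟨hi.1, (h' i hi.1 x hx).1 hi.2⟩,
      fun x hx y hy => (h.2 x hx y hy).imp (fun h1 => h1.subset fun i hi => ?_)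
        fun h1 => h1.subset fun i hi => ?_⟩
    · exact ⟨hi.1, (h' i hi.1 x hx).2 hi.2.1, fun h2 => hi.2.2 ((h' i hi.1 y hy).1 h2)⟩
    · exact ⟨hi.1, (h' i hi.1 y hy).2 hi.2.1, fun h2 => hi.2.2 ((h' i hi.1 x hx).1 h2)⟩
  · exact ⟨h.1, fun x hx => (h.2 x hx).subset fun i hi =>
      ⟨hi.1, fun h2 => hi.2 ((h' i hi.1 x hx).1 h2)⟩⟩

end

section
variable {X ι : Type} [TopologicalSpace X] {u : ι → Set X} {S : Set ι}

/-- a proper indexed cover gives a cover of the same class -/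
theorem Ix.mem_cov [Nonempty X] {c : Cl} (h : Ix c univ u S) (ho : ∀ i ∈ S, IsOpen (u i))
    (hp : ∀ i ∈ S, u i ≠ univ) : u '' S ∈ Cov X c := by
  have h0 : u '' S ∈ OpenCovers X := by
    refine ⟨?_, eq_univ_of_forall fun x => ?_, ?_⟩
    · rintro _ ⟨i, hi, rfl⟩
      exact ho i hi
    · obtain ⟨i, h1, h2⟩ := h.cover x trivial
      exact ⟨_, ⟨i, h1, rfl⟩, h2⟩
    · rintro ⟨i, hi, h1⟩
      exact hp i hi h1
  have fin : ∀ Q : Set X → Prop, {i ∈ S | Q (u i)}.Finite → {U ∈ u '' S | Q U}.Finite :=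
    fun Q hQ => (hQ.image u).subset fun _ ⟨⟨i, h1, h2⟩, h3⟩ => ⟨i, ⟨h1, h2 ▸ h3⟩, h2⟩
  have large : Ix .T univ u S → ∀ x, {U ∈ u '' S | x ∈ U}.Infinite := fun h x hx => by
    have : ∀ U : {U ∈ u '' S | x ∈ U}, ∃ y, y ∉ U.1 := fun ⟨_, ⟨i, h1, rfl⟩, _⟩ =>
      (ne_univ_iff_exists_notMem _).1 (hp i h1)
    choose y hy using this
    have := hx.to_subtype
    obtain ⟨i, h1, h2⟩ := (h.infinite_of_tau (F := insert x (range y)) (subset_univ _)
      ((finite_range y).insert x) (insert_nonempty _ _)).nonempty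
    exact hy ⟨u i, ⟨i, h1, rfl⟩, h2 (mem_insert _ _)⟩ (h2 (mem_insert_of_mem _ (mem_range_self _)))
  cases c
  · exact h0
  · refine ⟨h0, fun F hF => ?_⟩
    obtain ⟨i, h1, h2⟩ := h F (subset_univ _) hF
    exact ⟨_, ⟨i, h1, rfl⟩, h2⟩
  · exact ⟨h0, large h, fun x y => (h.2 x trivial y trivial).imp (fin _) (fin _)⟩
  · exact ⟨h0, (large h.tau_of_gamma (Classical.arbitrary X)).mono (sep_subset _ _),
      fun x => fin _ (h.2 x trivial)⟩

theorem ix_id_of_mem_cov {c : Cl} {𝒰 : Set (Set X)} (h : 𝒰 ∈ Cov X c) : Ix c univ id 𝒰 := by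
  cases c
  · exact fun x _ => mem_sUnion.1 (h.2.1 ▸ mem_univ x)
  · exact fun F _ hF => h.2 F hF
  · exact ⟨fun x _ => h.2.1 x, fun x _ y _ => h.2.2 x y⟩
  · exact ⟨h.2.1, fun x _ => h.2.2 x⟩

theorem ix_of_mem_cov {c : Cl} (hu : InjOn u S) (h : u '' S ∈ Cov X c) : Ix c univ u S :=
  (ix_image hu).1 (ix_id_of_mem_cov h)

theorem Cov.open_cover {c : Cl} {𝒰 : Set (Set X)} (h : 𝒰 ∈ Cov X c) : 𝒰 ∈ OpenCovers X := by
  cases c
  exacts [h, h.1, h.1, h.1]

theorem omega_subset_open : OmegaCovers X ⊆ OpenCovers X := fun _ h => h.1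

theorem infinite_of_omega {𝒰 : Set (Set X)} (h : 𝒰 ∈ OmegaCovers X) : 𝒰.Infinite := fun hf => by
  have : ∀ U : 𝒰, ∃ y, y ∉ U.1 := fun U =>
    (ne_univ_iff_exists_notMem _).1 fun h' => h.1.2.2 (h' ▸ U.2)
  choose y hy using this
  have := hf.to_subtype
  obtain ⟨U, h1, h2⟩ := h.2 _ (finite_range y)
  exact hy ⟨U, h1⟩ (h2 (mem_range_self _))

end

end Pool.Agent.P.MP_b17faa_gt
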