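import Pool.Agent.Lib.Helper87.Codes
import Pool.Agent.P.MP_b17faa_gt.RelDefs
import Pool.Agent.P.MP_b17faa_gt.Index

/-!
Countably closed forcing: countable choice from the ground model, names for traces of sets.
-/

namespace Pool.Agent.P.MP_b17faa_gt

open Filter Set Function Pool.Agent.Lib.Helper87 Coded

instance : CodedInj ℚ := ⟨fun a b h => by
  have h1 : (a.num.toNat, (-a.num).toNat, a.den) = (b.num.toNat, (-b.num).toNat, b.den) :=
    code_inj.1 h
  simp only [Prod.mk.injEq] at h1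
  exact Rat.ext (by omega) h1.2.2⟩

instance : CodedInj ℝ := ⟨fun a b h => by
  have h1 : {q : ℚ | (q : ℝ) < a} = {q : ℚ | (q : ℝ) < b} := code_inj.1 h
  exact eq_of_forall_rat_lt_iff_lt fun q => Set.ext_iff.1 h1 q⟩

instance (X : Set ℝ) : CodedInj X := ⟨fun _ _ h => Subtype.ext (code_inj.1 h)⟩

theorem code_seq_congr {S T : Type} [Coded S] [Coded T] {f : ℕ → S} {g : ℕ → T}
    (h : ∀ n, code (f n) = code (g n)) : code f = code g := by
  ext z
  simp only [mem_code_seq, h]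

theorem code_image_congr {ι S T : Type} [Coded S] [Coded T] {f : ι → S} {g : ι → T}
    (h : ∀ n, code (f n) = code (g n)) (A : Set ι) : code (f '' A) = code (g '' A) := by
  ext z
  simp [mem_code_set, h]

/-- the trace of a set of reals on `X` -/
def tr (X : Set ℝ) (O : Set ℝ) : Set X := Subtype.val ⁻¹' O

theorem code_tr (X O : Set ℝ) : code (tr X O) = code (O ∩ X) := by
  ext z
  simp only [mem_code_set]
  constructor
  · rintro ⟨t, h, rfl⟩
    exact ⟨t.1, ⟨h, t.2⟩, rfl⟩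
  · rintro ⟨t, h, rfl⟩
    exact ⟨⟨t, h.2⟩, h.1, rfl⟩

theorem code_app_mem {M : Set ZFSet.{0}} (hM : ∀ x ∈ M, ∀ y ∈ x, y ∈ M) {T : Type} [Coded T]
    {F : ℕ → T} (h : code F ∈ M) (n : ℕ) : code (F n) ∈ M := by
  have h1 := hM _ h _ (mem_code_seq.2 ⟨n, rfl⟩)
  have h2 : ({code n, code (F n)} : ZFSet) ∈ ZFSet.pair (code n) (code (F n)) := by
    simp [ZFSet.pair]
  exact hM _ (hM _ h1 _ h2) _ (by simp)

variable {P : Type} [Preorder P]

/-- countable choice from the ground model -/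
theorem ev_cc (hP : ∀ s : ℕ → P, Antitone s → ∃ q, ∀ n, q ≤ s n) {T ι : Type} [Countable ι]
    [Nonempty ι] [Nonempty T] {Φ : ι → T → World P → Prop} (hΦ : ∀ i a, Measurable (Φ i a)) :
    ∀ᶠ w in gen P, ∃ s : ι → T, w.In s ∧ ∀ i, (∃ a, w.In a ∧ Φ i a w) → Φ i (s i) w := by
  let Ψ : ι → T → World P → Prop := fun i a w => (∃ b, w.In b ∧ Φ i b w) → Φ i a w
  have step : ∀ i p, ∃ q ≤ p, ∃ a, Sem q (Ψ i a) := fun i p => by
    obtain ⟨q, h1, h2 | h2⟩ := (measurable_ex_in (hΦ i)).decides p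
    · obtain ⟨r, h3, a, h4⟩ := Sem.ex_in (hΦ i) h2
      exact ⟨r, h3.trans h1, a, h4.imp' fun _ h _ => h⟩
    · exact ⟨q, h1, Classical.arbitrary T, h2.imp' fun _ h h' => absurd h' h⟩
  choose g hg a ha using step
  obtain ⟨e, he⟩ := exists_surjective_nat ι
  have dense : ∀ p, ∃ r ≤ p, ∃ s : ι → T, ∀ i, Sem r (Ψ i (s i)) := fun p => by
    let c : ℕ → P := fun n => Nat.rec p (fun n q => g (e n) q) n
    obtain ⟨r, hr⟩ := hP c (antitone_nat_of_succ_le fun n => hg _ _)
    refine ⟨r, hr 0, fun i => a i (c (surjInv he i)), fun i => ?_⟩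
    have := (ha (e (surjInv he i)) (c (surjInv he i))).mono (hr (surjInv he i + 1))
    rwa [surjInv_eq he] at this
  filter_upwards [ev_nonempty, ev_dense_ex fun r (s : ι → T) => ∀ i, Sem r (Ψ i (s i)),
    ev_all fun s : ι → T => ev_call fun i => ev_sem (Ψ i (s i))] with w ⟨p, hp⟩ h1 h2
  obtain ⟨r, h3, -, s, h4, h5⟩ := h1 p hp fun q _ => dense q
  exact ⟨s, h4, fun i => h2 s h4 i r (w.has_of_mem h3) (h5 i)⟩

/-- no new subsets of countable types -/
theorem ev_sub (hP : ∀ s : ℕ → P, Antitone s → ∃ q, ∀ n, q ≤ s n) {ι : Type} [Countable ι]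
    [Nonempty ι] {R : ι → World P → Prop} (hR : ∀ i, Measurable (R i)) :
    ∀ᶠ w in gen P, w.In {i | R i w} := by
  filter_upwards [ev_cc hP (Φ := fun i (a : Prop) w => a ↔ R i w)
    fun i a => measurable_const.iff (hR i), ev_ctype Prop,
    ev_fun fun s : ι → Prop => {i | s i}] with w ⟨s, h1, h2⟩ h3 h4
  have : s = fun i => R i w := funext fun i => propext (h2 i ⟨R i w, h3 _, Iff.rfl⟩)
  exact this ▸ h4 s h1

theorem measurable_ex_M {Φ : ZFSet.{0} → World P → Prop}
    (h : ∀ x, Named x → Measurable fun w => Φ (x w) w) :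
    Measurable fun w : World P => ∃ t ∈ w.M, Φ t w := by
  have := measurable_ex_in (Φ := fun (σ : Name P) w => Φ (w.val σ) w) fun σ => h _ (named_val σ)
  convert this using 2 with w
  simp [World.M]

theorem namedC_rat (q : ℚ) : NamedC fun _ : World P => q :=
  (namedC_const_nat _).prod ((namedC_const_nat _).prod (namedC_const_nat _))

theorem namedC_const_real (x : ℝ) : NamedC fun _ : World P => x := by
  refine namedC_set (A := fun _ => {q : ℚ | (q : ℝ) < x}) (t := fun (q : ℚ) _ => q) namedC_rat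
    (Φ := fun q _ => (q : ℝ) < x) (fun _ => measurable_const) ?_
  filter_upwards [ev_ctype ℚ] with w h z
  simp [h]

namespace Approx

variable (a : Approx P ℝ)

/-- the generic set -/
def X (w : World P) : Set ℝ := {x | ∃ p ∈ w.G, x ∈ a.pt p}

theorem measurable_X (x : ℝ) : Measurable fun w => x ∈ a.X w :=
  measurable_frc (D := fun p => x ∈ a.pt p) fun p q h h' => a.anti p q h h'

theorem ev_in : ∀ᶠ w in gen P, ∀ x ∈ a.X w, w.In x := by
  filter_upwards [ev_generic, ev_all fun p => ev_countable_set (a.countable p)]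
    with w hw h x ⟨p, h1, h2⟩ using h p (hw.mem p h1) x h2

theorem ev_nonempty_X : ∀ᶠ w in gen P, (a.X w).Nonempty := by
  filter_upwards [ev_dense0 _ a.nonempty] with w ⟨p, h1, x, h2⟩ using ⟨x, p, h1, h2⟩

theorem namedC_inter (O : Set ℝ) : NamedC fun w => O ∩ a.X w := by
  refine namedC_set (t := fun (x : ℝ) _ => x) namedC_const_real
    (Φ := fun x w => x ∈ O ∧ x ∈ a.X w) (fun x => measurable_const.and (a.measurable_X x)) ?_
  filter_upwards [a.ev_in] with w h z
  constructor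
  · exact fun hz => ⟨z, h z hz.2, hz, rfl⟩
  · rintro ⟨_, -, h1, rfl⟩
    exact h1

theorem named_tr (O : Set ℝ) : Named fun w => code (tr (a.X w) O) := by
  simp only [code_tr]
  exact a.namedC_inter O

theorem ev_X_mem : ∀ᶠ w in gen P, code (a.X w) ∈ w.M := by
  simpa using (a.namedC_inter univ).ev_mem

theorem ev_build1 (g : ℕ → Set ℝ) : ∀ᶠ w in gen P, code (fun n => tr (a.X w) (g n)) ∈ w.M := by
  filter_upwards [(namedC_seq fun n => a.namedC_inter (g n)).ev_mem] with w h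
  rwa [code_seq_congr fun n => code_tr _ _]

theorem ev_build2 (u : ℕ → ℕ → Set ℝ) (S : ℕ → Set ℕ) :
    ∀ᶠ w in gen P, code (fun n => (fun k => tr (a.X w) (u n k)) '' S n) ∈ w.M := by
  have : ∀ n, NamedC fun w => (fun k => u n k ∩ a.X w) '' S n := fun n => by
    refine namedC_set (t := fun k w => u n k ∩ a.X w) (fun k => a.namedC_inter _)
      (Φ := fun k _ => k ∈ S n) (fun _ => measurable_const) ?_
    filter_upwards [ev_ctype ℕ] with w h z
    simp [h]
  filter_upwards [(namedC_seq this).ev_mem] with w h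
  rwa [code_seq_congr fun n => code_image_congr (fun k => code_tr _ _) _]

theorem ev_sel1 (u : ℕ → ℕ → Set ℝ) : ∀ᶠ w in gen P, ∀ U : ℕ → Set (a.X w), code U ∈ w.M →
    w.In {i : ℕ × ℕ | U i.1 = tr (a.X w) (u i.1 i.2)} := by
  have : ∀ᶠ w in gen P, ∀ y ∈ w.M, w.In {i : ℕ × ℕ |
      ZFSet.pair (code i.1) (code (tr (a.X w) (u i.1 i.2))) ∈ y} :=
    ev_all_named fun y hy => ev_sub a.closed fun i =>
      ((named_nat i.1).pair (a.named_tr _)).measurable_mem hy
  filter_upwards [this] with w h U hU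
  simpa only [pair_mem_code_seq] using h _ hU

theorem measurable_app {y : World P → ZFSet.{0}} (hy : Named y) (n : ℕ) (O : Set ℝ) :
    Measurable fun w => ∃ t ∈ w.M, ZFSet.pair (code n) t ∈ y w ∧ code (tr (a.X w) O) ∈ t :=
  measurable_ex_M fun _ ht =>
    (((named_nat n).pair ht).measurable_mem hy).and ((a.named_tr O).measurable_mem ht)

theorem app_iff {M : Set ZFSet.{0}} (hM : ∀ x ∈ M, ∀ y ∈ x, y ∈ M) {X : Set ℝ}
    {F : ℕ → Set (Set X)} (hF : code F ∈ M) (n : ℕ) (U : Set X) :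
    (∃ t ∈ M, ZFSet.pair (code n) t ∈ code F ∧ code U ∈ t) ↔ U ∈ F n := by
  constructor
  · rintro ⟨t, -, h1, h2⟩
    obtain ⟨m, hm⟩ := mem_code_seq.1 h1
    rw [ZFSet.pair_inj, code_inj] at hm
    obtain ⟨rfl, rfl⟩ := hm
    exact code_mem_code.1 h2
  · exact fun h => ⟨_, code_app_mem hM hF n, mem_code_seq.2 ⟨n, rfl⟩, code_mem_code.2 h⟩

theorem ev_sel2 (u : ℕ → ℕ → Set ℝ) : ∀ᶠ w in gen P, ∀ F : ℕ → Set (Set (a.X w)),
    code F ∈ w.M → w.In {i : ℕ × ℕ | tr (a.X w) (u i.1 i.2) ∈ F i.1} := by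
  have : ∀ᶠ w in gen P, ∀ y ∈ w.M, w.In {i : ℕ × ℕ | ∃ t ∈ w.M,
      ZFSet.pair (code i.1) t ∈ y ∧ code (tr (a.X w) (u i.1 i.2)) ∈ t} :=
    ev_all_named fun y hy => ev_sub a.closed fun i => a.measurable_app hy _ _
  filter_upwards [this, ev_trans] with w h hM F hF
  simpa only [app_iff hM hF] using h _ hF

/-- removing repetitions -/
theorem ev_first (v : ℕ × ℕ → Set ℝ) (S : Set (ℕ × ℕ)) : ∀ᶠ w in gen P, ∃ R ⊆ S, w.In R ∧
    InjOn (fun i => tr (a.X w) (v i)) R ∧
      (fun i => tr (a.X w) (v i)) '' R = (fun i => tr (a.X w) (v i)) '' S := by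
  filter_upwards [ev_sub a.closed (R := fun i w => i ∈ S ∧ ∀ j ∈ S,
    Encodable.encode j < Encodable.encode i → code (tr (a.X w) (v j)) ≠ code (tr (a.X w) (v i)))
    fun i => measurable_const.and (Measurable.forall fun j => measurable_const.imp
      (measurable_const.imp ((a.named_tr _).measurable_eq (a.named_tr _)).not))] with w h
  simp only [ne_eq, code_inj] at h
  refine ⟨_, fun i hi => hi.1, h, fun i hi j hj e => ?_, Subset.antisymm
    (image_mono fun i hi => hi.1) ?_⟩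
  · rcases lt_trichotomy (Encodable.encode i) (Encodable.encode j) with h' | h' | h'
    · exact absurd e (hj.2 i hi.1 h')
    · exact Encodable.encode_injective h'
    · exact absurd e.symm (hi.2 j hj.1 h')
  · rintro _ ⟨i, hi, rfl⟩
    obtain ⟨j, ⟨h1, h2⟩, h3⟩ := (InvImage.wf Encodable.encode wellFounded_lt).has_min
      {j ∈ S | tr (a.X w) (v j) = tr (a.X w) (v i)} ⟨i, hi, rfl⟩
    exact ⟨j, ⟨h1, fun k hk h4 h5 => h3 k ⟨hk, h5.trans h2⟩ h4⟩, h2⟩

end Approx

end Pool.Agent.P.MP_b17faa_gt
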