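import Pool.Agent.P.MP_b17faa_gt.FoAbs
import Pool.Agent.P.MP_b17faa_gt.Frame1

/-!
The real line of a transitive model, and the sentences `implies i j`.
-/

namespace Pool.Agent.P.MP_b17faa_gt.Fo

open FirstOrder FirstOrder.Language Pool.Agent.Lib.Helper87 Function Coded Fm Set

/-- the meaning of `line` in `M` -/
def SLine (M : Set ZFSet.{0}) (L R : ZFSet.{0}) : Prop :=
  (∃ x ∈ M, x ∈ L) ∧ (∀ x ∈ L, ZFSet.pair x x ∉ R) ∧
  (∀ x ∈ L, ∀ y ∈ L, ∀ z ∈ L, ZFSet.pair x y ∈ R → ZFSet.pair y z ∈ R → ZFSet.pair x z ∈ R) ∧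
  (∀ x ∈ L, ∀ y ∈ L, ZFSet.pair x y ∈ R ∨ x = y ∨ ZFSet.pair y x ∈ R) ∧
  (∀ x ∈ L, (∃ y ∈ L, ZFSet.pair y x ∈ R) ∧ ∃ y ∈ L, ZFSet.pair x y ∈ R) ∧
  (∃ D ∈ M, D ⊆ L ∧
    (∃ f ∈ M, Func f ∧ ∀ y ∈ D, ∃ x ∈ M, (∃ k : ℕ, code k = x) ∧ ZFSet.pair x y ∈ f) ∧
    ∀ x ∈ L, ∀ y ∈ L, ZFSet.pair x y ∈ R → ∃ d ∈ D, ZFSet.pair x d ∈ R ∧ ZFSet.pair d y ∈ R) ∧
  ∀ A ∈ M, A ⊆ L → (∃ x ∈ M, x ∈ A) → (∃ b ∈ L, ∀ x ∈ A, ZFSet.pair b x ∉ R) →
    ∃ s ∈ L, (∀ x ∈ A, ZFSet.pair s x ∉ R) ∧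
      ∀ b ∈ L, (∀ x ∈ A, ZFSet.pair b x ∉ R) → ZFSet.pair b s ∉ R

theorem sat_line {M : Set ZFSet.{0}} (hM : TransModelZFC M) {n L R : ℕ} {v : ℕ → M} (hL : L < n)
    (hR : R < n) : sat M (line L R) n v ↔ SLine M (v L).1 (v R).1 := by
  simp (disch := omega) only [line, ub, ctble, basic hM, SLine]

/-- `(L, R)` is presented by a set `S` of reals which contains the rationals -/
structure Pres (L R : ZFSet.{0}) (S : Set ℝ) (g : ℝ → ZFSet.{0}) : Prop where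
  rat : ∀ q : ℚ, (q : ℝ) ∈ S
  mem : ∀ z, z ∈ L ↔ ∃ x ∈ S, g x = z
  lt : ∀ x ∈ S, ∀ y ∈ S, ZFSet.pair (g x) (g y) ∈ R ↔ x < y

theorem Pres.aopen_iff {L R : ZFSet.{0}} {S X : Set ℝ} {g : ℝ → ZFSet.{0}} (h : Pres L R S g)
    (hX : X ⊆ S) [Coded X] [CodedInj X] (hc : ∀ x : X, code x = g x) (U : Set X) :
    AOpen L R (code (univ : Set X)) (code U) ↔ IsOpen U := by
  simp only [AOpen, code_subset, subset_univ, true_and, forall_code, code_mem_code, mem_univ,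
    forall_true_left, h.mem]
  simp only [hc]
  constructor
  · refine fun h1 => isOpen_iff_forall_mem_open.2 fun x hx => ?_
    obtain ⟨_, ⟨a, ha, rfl⟩, _, ⟨b, hb, rfl⟩, h2, h3, h4⟩ := h1 x hx
    exact ⟨Subtype.val ⁻¹' Ioo a b, fun y hy => h4 y ((h.lt _ ha _ (hX y.2)).2 hy.1)
      ((h.lt _ (hX y.2) _ hb).2 hy.2), isOpen_Ioo.preimage continuous_subtype_val,
      (h.lt _ ha _ (hX x.2)).1 h2, (h.lt _ (hX x.2) _ hb).1 h3⟩
  · rintro ⟨O, h1, rfl⟩ x hx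
    obtain ⟨l, u, h2, h3⟩ := mem_nhds_iff_exists_Ioo_subset.1 (h1.mem_nhds hx)
    obtain ⟨a, a1, a2⟩ := exists_rat_btwn h2.1
    obtain ⟨b, b1, b2⟩ := exists_rat_btwn h2.2
    exact ⟨_, ⟨a, h.rat a, rfl⟩, _, ⟨b, h.rat b, rfl⟩, (h.lt _ (h.rat a) _ (hX x.2)).2 a2,
      (h.lt _ (hX x.2) _ (h.rat b)).2 b1, fun y h4 h5 => h3
        ⟨a1.trans ((h.lt _ (h.rat a) _ (hX y.2)).1 h4), ((h.lt _ (hX y.2) _ (h.rat b)).1 h5).trans b2⟩⟩

theorem Pres.inj {L R : ZFSet.{0}} {S : Set ℝ} {g : ℝ → ZFSet.{0}} (h : Pres L R S g) :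
    InjOn g S := fun x hx y hy e => by
  rcases lt_trichotomy x y with h1 | h1 | h1
  · exact absurd ((h.lt x hx x hx).1 (by simpa only [e] using (h.lt x hx y hy).2 h1)) (lt_irrefl x)
  · exact h1
  · exact absurd ((h.lt x hx x hx).1 (by simpa only [e] using (h.lt y hy x hx).2 h1)) (lt_irrefl x)

/-- separable dense orders embed into the reals, with all rationals in the image -/
theorem exists_embedding {T : Type 1} [LinearOrder T] [Nonempty T] [NoMinOrder T] [NoMaxOrder T]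
    {D : Set T} (h1 : D.Countable) (h2 : ∀ x y, x < y → ∃ d ∈ D, x < d ∧ d < y) :
    ∃ e : T → ℝ, StrictMono e ∧ ∀ q : ℚ, (q : ℝ) ∈ range e := by
  have lo : ∀ x : T, ∃ d : D, d.1 < x := fun x =>
    let ⟨y, hy⟩ := exists_lt x; let ⟨d, a, _, b⟩ := h2 y x hy; ⟨⟨d, a⟩, b⟩
  have hi : ∀ x : T, ∃ d : D, x < d.1 := fun x =>
    let ⟨y, hy⟩ := exists_gt x; let ⟨d, a, b, _⟩ := h2 x y hy; ⟨⟨d, a⟩, b⟩
  have := h1.to_subtype
  have : Nonempty D := ⟨(lo (Classical.arbitrary T)).choose⟩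
  have : NoMinOrder D := ⟨fun x => lo x⟩
  have : NoMaxOrder D := ⟨fun x => hi x⟩
  have : DenselyOrdered D := ⟨fun x y h => let ⟨d, a, b⟩ := h2 x y h; ⟨⟨d, a⟩, b⟩⟩
  obtain ⟨φ⟩ := Order.iso_of_countable_dense D ℚ
  let A : T → Set ℝ := fun x => (fun d : D => (φ d : ℝ)) '' {d | d.1 < x}
  have ne : ∀ x, (A x).Nonempty := fun x => let ⟨d, h⟩ := lo x; ⟨_, d, h, rfl⟩
  have ub : ∀ x (d : D), x ≤ d.1 → (φ d : ℝ) ∈ upperBounds (A x) := fun x d h => by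
    rintro _ ⟨c, hc, rfl⟩
    exact Rat.cast_le.2 (φ.monotone (hc.trans_le h).le)
  have bd : ∀ x, BddAbove (A x) := fun x => let ⟨d, h⟩ := hi x; ⟨_, ub x d h.le⟩
  refine ⟨fun x => sSup (A x), fun x y h => ?_, fun q => ⟨(φ.symm q).1, le_antisymm ?_ ?_⟩⟩
  · obtain ⟨d, a1, a2, a3⟩ := h2 x y h
    obtain ⟨c, b1, b2, b3⟩ := h2 d y a3
    refine (csSup_le (ne x) (ub x ⟨d, a1⟩ a2.le)).trans_lt
      (lt_of_lt_of_le ?_ (le_csSup (bd y) ⟨⟨c, b1⟩, b3, rfl⟩))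
    exact Rat.cast_lt.2 (φ.strictMono b2)
  · simpa using csSup_le (ne _) (ub _ (φ.symm q) le_rfl)
  · refine le_of_forall_lt fun r hr => ?_
    obtain ⟨p, p1, p2⟩ := exists_rat_btwn hr
    exact p1.trans_le (le_csSup (bd _) ⟨φ.symm p, φ.symm.strictMono (Rat.cast_lt.1 p2), by simp⟩)

/-- the points of a set -/
def Pt (L : ZFSet.{0}) : Type 1 := {z // z ∈ L}

theorem SLine.pres {L R : ZFSet.{0}} (h : SLine univ L R) : ∃ S g, Pres L R S g := by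
  classical
  obtain ⟨⟨x0, -, hx0⟩, h1, h2, h3, h4, ⟨D, -, h5, ⟨f, -, h6, h7⟩, h8⟩, -⟩ := h
  let r : Pt L → Pt L → Prop := fun x y => ZFSet.pair x.1 y.1 ∈ R
  have : IsStrictTotalOrder (Pt L) r :=
    { trichotomous := fun x y a b =>
        Subtype.ext (((h3 _ x.2 _ y.2).resolve_left a).resolve_right b)
      irrefl := fun x => h1 _ x.2
      trans := fun x y z => h2 _ x.2 _ y.2 _ z.2 }
  let _ := linearOrderOfSTO r
  have : Nonempty (Pt L) := ⟨⟨x0, hx0⟩⟩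
  have : NoMinOrder (Pt L) := ⟨fun x => let ⟨y, a, b⟩ := (h4 _ x.2).1; ⟨⟨y, a⟩, b⟩⟩
  have : NoMaxOrder (Pt L) := ⟨fun x => let ⟨y, a, b⟩ := (h4 _ x.2).2; ⟨⟨y, a⟩, b⟩⟩
  obtain ⟨e, he, hq⟩ := exists_embedding (D := {d : Pt L | d.1 ∈ D})
    ((countable_iUnion fun k : ℕ => Set.Subsingleton.countable
      (s := {d : Pt L | ZFSet.pair (code k) d.1 ∈ f}) fun y hy z hz =>
        Subtype.ext (h6 _ _ _ hy hz)).mono fun d hd => by
      obtain ⟨_, -, ⟨k, rfl⟩, hk⟩ := h7 _ hd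
      exact mem_iUnion.2 ⟨k, hk⟩)
    fun x y hxy => let ⟨d, a, b⟩ := h8 _ x.2 _ y.2 hxy; ⟨⟨d, h5 a⟩, a, b⟩
  have inv := leftInverse_invFun he.injective
  refine ⟨range e, fun x => (invFun e x).1, hq, fun z => ⟨fun hz =>
    ⟨_, ⟨⟨z, hz⟩, rfl⟩, congrArg Subtype.val (inv ⟨z, hz⟩)⟩, ?_⟩, ?_⟩
  · rintro ⟨x, -, rfl⟩
    exact (invFun e x).2
  · rintro _ ⟨x, rfl⟩ _ ⟨y, rfl⟩
    rw [inv, inv, he.lt_iff_lt]
    rfl

/-- the reals of `M` -/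
def RM (M : Set ZFSet.{0}) : Set ℝ := {x | code x ∈ M}

/-- the order of the reals of `M` -/
def LtM (M : Set ZFSet.{0}) : Set (ℝ × ℝ) := {p | p.1 ∈ RM M ∧ p.2 ∈ RM M ∧ p.1 < p.2}

theorem pair_mem_LtM {M : Set ZFSet.{0}} {x y : ℝ} :
    ZFSet.pair (code x) (code y) ∈ code (LtM M) ↔ x ∈ RM M ∧ y ∈ RM M ∧ x < y :=
  code_mem_code (t := (x, y))

section
variable {M : Set ZFSet.{0}} (hM : TransModelZFC M) {E : ℕ → ℚ} (hE : Surjective E)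
  (h : code (fun n => (E n : ℝ)) ∈ M)
include hM hE h

theorem pres_M : Pres (code (RM M)) (code (LtM M)) (RM M) code :=
  ⟨fun q => let ⟨k, hk⟩ := hE q; hk ▸ val_mem hM h k, fun _ => mem_code_set,
    fun _ hx _ hy => by simp [pair_mem_LtM, hx, hy]⟩

theorem sline_M : SLine M (code (RM M)) (code (LtM M)) := by
  have hq := (pres_M hM hE h).rat
  have hlt := (pres_M hM hE h).lt
  refine ⟨⟨_, hq 0, code_mem_code.2 (hq 0)⟩, ?_, ?_, ?_, ?_,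
    ⟨_, range_mem hM h, code_subset.2 (range_subset_iff.2 fun k => hq _),
      ⟨_, h, fun x y z h1 h2 => ?_, ?_⟩, ?_⟩, fun A h1 h2 => ?_⟩
  · simp only [forall_code, pair_mem_LtM]
    exact fun x _ h => lt_irrefl _ h.2.2
  · simp only [forall_code, pair_mem_LtM]
    exact fun x _ y _ z _ h1 h2 => ⟨h1.1, h2.2.1, h1.2.2.trans h2.2.2⟩
  · simp only [forall_code, pair_mem_LtM, code_inj]
    exact fun x hx y hy => (lt_trichotomy x y).imp (fun h => ⟨hx, hy, h⟩)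
      (Or.imp_right fun h => ⟨hy, hx, h⟩)
  · simp only [forall_code, exists_code, pair_mem_LtM]
    intro x hx
    obtain ⟨a, ha⟩ := exists_rat_lt x
    obtain ⟨b, hb⟩ := exists_rat_gt x
    exact ⟨⟨a, hq a, hq a, hx, ha⟩, b, hq b, hx, hq b, hb⟩
  · obtain ⟨k, rfl, rfl⟩ := rel_code.1 h1
    obtain ⟨l, h3, rfl⟩ := rel_code.1 h2
    rw [code_inj.1 h3]
  · simp only [forall_code, forall_mem_range]
    exact fun k => ⟨_, nat_mem hM k, ⟨k, rfl⟩, rel_code.2 ⟨k, rfl, rfl⟩⟩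
  · simp only [forall_code, exists_code, pair_mem_LtM]
    rintro x hx y hy ⟨-, -, h1⟩
    obtain ⟨q, h2, h3⟩ := exists_rat_btwn h1
    obtain ⟨k, rfl⟩ := hE q
    exact ⟨_, ⟨k, rfl⟩, ⟨hx, hq _, h2⟩, hq _, hy, h3⟩
  · obtain ⟨A, rfl⟩ := decode_sub h2
    rw [code_subset] at h2
    simp only [forall_code, exists_code, pair_mem_LtM]
    rintro ⟨_, -, h3⟩ ⟨b, h4, h5⟩
    obtain ⟨x, h3, -⟩ := mem_code_set.1 h3
    have ub : ∀ b ∈ RM M, (∀ x ∈ A, ¬ (b ∈ RM M ∧ x ∈ RM M ∧ b < x)) → b ∈ upperBounds A :=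
      fun b h4 h5 y hy => not_lt.1 fun h => h5 y hy ⟨h4, h2 hy, h⟩
    have bd : BddAbove A := ⟨b, ub b h4 h5⟩
    refine ⟨sSup A, ?_, fun y hy h => (le_csSup bd hy).not_gt h.2.2,
      fun c h6 h7 h => (csSup_le ⟨x, h3⟩ (ub c h6 h7)).not_gt h.2.2⟩
    change _ ∈ M
    convert hM.union _ h1
    ext z
    simp only [ZFSet.mem_sUnion, exists_code]
    change z ∈ code {q : ℚ | (q : ℝ) < sSup A} ↔ ∃ t ∈ A, z ∈ code {q : ℚ | (q : ℝ) < t}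
    simp only [mem_code_set, mem_ofPred_eq, lt_csSup_iff bd ⟨x, h3⟩]
    exact ⟨fun ⟨q, ⟨t, a, b⟩, c⟩ => ⟨t, a, q, b, c⟩, fun ⟨t, a, q, b, c⟩ => ⟨q, ⟨t, a, b⟩, c⟩⟩

end

theorem sat_prop {M : Set ZFSet.{0}} (hM : TransModelZFC M) {n L R X : ℕ} {v : ℕ → M}
    (hL : L < n) (hR : R < n) (hX : X < n) {Y : Set ℝ} (c : Coded Y) [@CodedInj Y c]
    (hc : (v X).1 = code (univ : Set Y))
    (hO : ∀ U : Set Y, AOpen (v L).1 (v R).1 (code (univ : Set Y)) (code U) ↔ IsOpen U)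
    (h1 : ∀ A B, @G1 M Y c A B ↔ S1In M A B) (h2 : ∀ A B, @Gfin M Y c A B ↔ SfinIn M A B)
    (h3 : ∀ A B, @GU M Y c A B ↔ UfinIn M A B) (i : ℕ) :
    sat M (prop L R X i) n v ↔ Property M Y i :=
  match i with
  | 0 | 1 | 2 | 3 | 4 | 5 | 6 | 7 | 8 | 9 | 10 | 11 =>
    (sat_s1 hM hL hR hX hc hO _ _).trans (h1 _ _)
  | 12 | 13 | 14 | 15 | 16 | 17 => (sat_sfin hM hL hR hX hc hO _ _).trans (h2 _ _)
  | 18 | 19 | 20 | 21 => (sat_ufin hM hL hR hX hc hO _ _).trans (h3 _ _)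
  | _ + 22 => Iff.rfl

theorem sat_implies {M : Set ZFSet.{0}} (hM : TransModelZFC M) (i j : ℕ) :
    Sat M (implies i j) ![] ↔ ∀ v : ℕ → M, SLine M (v 0).1 (v 1).1 → (v 2).1 ⊆ (v 0).1 →
      (∃ x ∈ M, x ∈ (v 2).1) → sat M (prop 0 1 2 i) 3 v → sat M (prop 0 1 2 j) 3 v := by
  rw [implies, sat_close hM]
  simp only [sat_all]
  have key : ∀ v : ℕ → M, sat M ((line 0 1).imp <| (sub 2 0).imp <| (ex fun x => mem x 2).imp <|
      (prop 0 1 2 i).imp (prop 0 1 2 j)) 3 v ↔ SLine M (v 0).1 (v 1).1 → (v 2).1 ⊆ (v 0).1 →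
      (∃ x ∈ M, x ∈ (v 2).1) → sat M (prop 0 1 2 i) 3 v → sat M (prop 0 1 2 j) 3 v := fun v => by
    simp (disch := omega) only [basic hM, sat_line hM]
  refine ⟨fun h v => (key v).1 ?_, fun h v _ _ _ _ _ _ => (key _).2 (h _)⟩
  simpa using h v _ (v 0).2 _ (v 1).2 _ (v 2).2

/-- implications between properties of sets of reals hold in the universe of sets -/
theorem holds_univ {i j : ℕ}
    (h : ∀ X : Set ℝ, X.Nonempty → Property univ X i → Property univ X j) :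
    Sat univ (implies i j) ![] := by
  refine (sat_implies univ_model i j).2 fun v h1 h2 ⟨z, _, hz⟩ => ?_
  obtain ⟨S, g, hp⟩ := h1.pres
  let Y : Set ℝ := {x ∈ S | g x ∈ (v 2).1}
  let c : Coded Y := ⟨fun x => g x⟩
  have : CodedInj Y := ⟨fun x y e => Subtype.ext (hp.inj x.2.1 y.2.1 e)⟩
  have hc : (v 2).1 = code (univ : Set Y) := by
    ext z
    rw [mem_code_set]
    constructor
    · intro hz
      obtain ⟨x, hx, rfl⟩ := (hp.mem z).1 (h2 hz)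
      exact ⟨⟨x, hx, hz⟩, trivial, rfl⟩
    · rintro ⟨x, -, rfl⟩
      exact x.2.2
  have key := sat_prop univ_model (v := v) (n := 3) (L := 0) (R := 1) (X := 2) (by omega) (by omega)
    (by omega) c hc (hp.aopen_iff (sep_subset _ _) fun _ => rfl) (fun _ _ => Iff.rfl)
    (fun _ _ => by simp [Gfin, SfinIn]) fun _ _ => by simp [GU, UfinIn]
  rw [key, key]
  obtain ⟨x, hx, rfl⟩ := (hp.mem z).1 (h2 hz)
  exact h Y ⟨x, hx, hz⟩

/-- counterexamples in a transitive model -/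
theorem fails {M : Set ZFSet.{0}} (hM : TransModelZFC M) {E : ℕ → ℚ} (hE : Surjective E)
    (h : code (fun n => (E n : ℝ)) ∈ M) (hL : code (RM M) ∈ M) (hR : code (LtM M) ∈ M)
    {X : Set ℝ} (hX : code X ∈ M) (hne : X.Nonempty) {i j : ℕ} (hi : Property M X i)
    (hj : ¬ Property M X j) : ¬ Sat M (implies i j) ![] := fun hs => by
  have hsub : X ⊆ RM M := fun x hx => hM.trans _ hX _ (code_mem_code.2 hx)
  let v : ℕ → M := fun k => match k with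
    | 0 => ⟨_, hL⟩
    | 1 => ⟨_, hR⟩
    | _ => ⟨_, hX⟩
  have hc : (v 2).1 = code (univ : Set X) := by
    change code X = _
    simpa [tr] using (code_tr X univ).symm
  have key := sat_prop hM (v := v) (n := 3) (L := 0) (R := 1) (X := 2) (by omega) (by omega)
    (by omega) (codedSub X) hc ((pres_M hM hE h).aopen_iff hsub fun _ => rfl) (fun _ _ => Iff.rfl)
    (fun _ _ => Iff.rfl) fun _ _ => Iff.rfl
  obtain ⟨x, hx⟩ := hne
  exact hj ((key j).1 ((sat_implies hM i j).1 hs v (sline_M hM hE h) (code_subset.2 hsub)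
    ⟨_, hsub hx, code_mem_code.2 hx⟩ ((key i).2 hi)))

end Pool.Agent.P.MP_b17faa_gt.Fo
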