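import Pool.Agent.P.MP_b17faa_gt.RelDefs
import Pool.Agent.P.MP_b17faa_gt.Index

/-!
`U_fin(Γ, T)` implies `S_fin(Γ, Ω)`.
-/

namespace Pool.Agent.P.MP_b17faa_gt

open Set Function Filter

namespace Hur13

/-- indexed form of `U_fin(Γ, T)` -/
def IT (Y : Type) [TopologicalSpace Y] : Prop :=
  ∀ V : ℕ → ℕ → Set Y, (∀ m c, IsOpen (V m c)) → (∀ m, Monotone (V m)) →
    (∀ c, Antitone fun m => V m c) → (∀ m x, ∃ c, x ∈ V m c) →
    ∃ (O : ℕ → Set Y) (g : ℕ → ℕ), (∀ m, IsOpen (O m)) ∧ (∀ m, O m ⊆ V m (g m)) ∧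
      Ix .T univ O univ

theorem bdd_of_finite {Y : Type} {W : ℕ → Set Y} (hW : Monotone W) {F : Set (Set Y)}
    (hF : F ⊆ range W) (hF' : F.Finite) : ∃ k, ⋃₀ F ⊆ W k := by
  induction F, hF' using Finite.induction_on with
  | empty => exact ⟨0, by simp⟩
  | @insert z F _ _ ih =>
    obtain ⟨k, hk⟩ := ih ((subset_insert _ _).trans hF)
    obtain ⟨c, rfl⟩ := hF (mem_insert _ _)
    refine ⟨max k c, ?_⟩
    rw [sUnion_insert]
    exact union_subset (hW (le_max_right _ _)) (hk.trans (hW (le_max_left _ _)))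

theorem it_of_ufin (X : Set ℝ) [Nonempty X]
    (h : UfinIn Set.univ (GammaCovers X) (TauCovers X)) : IT X := by
  classical
  intro V ho hm ha hc
  by_cases h0 : ∀ i, ∃ c, V i c = univ
  · choose g hg using h0
    refine ⟨fun _ => univ, g, fun _ => isOpen_univ, fun m => (hg m).ge, fun x _ => ?_,
      fun x _ y _ => Or.inl ?_⟩
    · simpa using infinite_univ
    · simp
  push Not at h0
  obtain ⟨i0, hi0⟩ := h0
  set W : ℕ → ℕ → Set X := fun i => V (max i i0) with hW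
  have Wm : ∀ i, Monotone (W i) := fun i => hm _
  have Wp : ∀ i c, W i c ≠ univ := fun i c h1 =>
    hi0 c (univ_subset_iff.1 (h1.ge.trans (ha c (le_max_right _ _))))
  have Wc : ∀ i x, {c ∈ (univ : Set ℕ) | x ∉ W i c}.Finite := by
    intro i x
    obtain ⟨c, hc'⟩ := hc (max i i0) x
    refine (finite_Iio c).subset fun d hd => ?_
    by_contra hlt
    exact hd.2 (Wm i (not_lt.1 hlt) hc')
  have Wg : ∀ i, range (W i) ∈ GammaCovers X := fun i => by
    have := Ix.mem_cov (c := .G) (u := W i) (S := univ) ⟨infinite_univ, fun x _ => Wc i x⟩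
      (fun c _ => ho _ c) (fun c _ => Wp i c)
    rwa [image_univ] at this
  obtain ⟨F, -, hF, hG⟩ := h (fun i => range (W i)) trivial Wg (by
    rintro n ⟨F, h1, h2, h3⟩
    obtain ⟨k, hk⟩ := bdd_of_finite (Wm n) h1 h2
    exact Wp n k (univ_subset_iff.1 (h3 ▸ hk)))
  choose k hk using fun i => bdd_of_finite (Wm i) (hF i).1 (hF i).2
  obtain ⟨A, -, hA, hA'⟩ := exists_subset_bijOn (univ : Set ℕ) (fun n => ⋃₀ F n)
  have hA'' : (fun n => ⋃₀ F n) '' A = range (fun n => ⋃₀ F n) := by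
    rw [← image_univ]
    exact Subset.antisymm hA.image_subset hA'.2
  have hI : Ix .T univ (fun n => ⋃₀ F n) A := ix_of_mem_cov hA'.1 (hA'' ▸ hG)
  refine ⟨fun m => {x | m ∈ A ∧ x ∈ ⋃₀ F m}, k, fun m => ?_, fun m x hx => ?_,
    fun x _ => ?_, fun x _ y _ => ?_⟩
  · by_cases hm' : m ∈ A
    · simp only [hm', true_and]
      exact hG.1.1 _ (mem_range_self m)
    · simp [hm']
  · exact ha _ (le_max_left _ _) (hk m hx.2)
  · exact (hI.1 x trivial).mono fun i hi => ⟨trivial, hi⟩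
  · refine (hI.2 x trivial y trivial).imp (fun h1 => h1.subset fun i hi => ?_)
      fun h1 => h1.subset fun i hi => ?_
    · exact ⟨hi.2.1.1, hi.2.1.2, fun h2 => hi.2.2 ⟨hi.2.1.1, h2⟩⟩
    · exact ⟨hi.2.1.1, hi.2.1.2, fun h2 => hi.2.2 ⟨hi.2.1.1, h2⟩⟩

section
variable {Y : Type}

/-- in a `τ`-cover every nonempty finite set has a point which is almost above all others -/
theorem exists_max {O : ℕ → Set Y} (h : Ix .T univ O univ) (F : Finset Y) (hne : F.Nonempty) :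
    ∃ p ∈ F, ∀ y ∈ F, {i | y ∈ O i ∧ p ∉ O i}.Finite := by
  classical
  induction hne using Finset.Nonempty.cons_induction with
  | singleton a => exact ⟨a, by simp, by simp⟩
  | cons z F _ _ ih =>
    obtain ⟨x, hx, h1⟩ := ih
    rcases h.2 x trivial z trivial with h2 | h2
    · refine ⟨z, Finset.mem_cons_self _ _, fun y hy => ?_⟩
      rcases Finset.mem_cons.1 hy with rfl | hy
      · simp
      · refine (h2.union (h1 y hy)).subset fun i hi => ?_
        by_cases hxi : x ∈ O i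
        exacts [Or.inl ⟨trivial, hxi, hi.2⟩, Or.inr ⟨hi.1, hxi⟩]
    · refine ⟨x, Finset.mem_cons_of_mem hx, fun y hy => ?_⟩
      rcases Finset.mem_cons.1 hy with rfl | hy
      · exact h2.subset fun i hi => ⟨trivial, hi⟩
      · exact h1 y hy

variable [TopologicalSpace Y] {U : ℕ → ℕ → Set Y}

theorem next_level (h : IT Y) (ho : ∀ n k, IsOpen (U n k)) (hc : ∀ n x, {k | x ∉ U n k}.Finite)
    (O : ℕ → Set Y) (g : ℕ → ℕ) (hO : ∀ m, IsOpen (O m)) (hO' : ∀ x, {m | x ∈ O m}.Infinite) :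
    ∃ (O' : ℕ → Set Y) (g' : ℕ → ℕ), (∀ m, IsOpen (O' m)) ∧ Ix .T univ O' univ ∧
      ∀ m, ∀ x ∈ O' m, ∀ n ≤ m, ∃ m', m ≤ m' ∧ g m' ≤ g' m ∧ x ∈ O m' ∧
        ∀ k ∈ Icc m' (g m'), x ∈ U n k := by
  obtain ⟨O', g', h1, h2, h3⟩ := h
    (fun m c => ⋂ n ∈ Iic m, ⋃ m' ∈ {m' | m ≤ m' ∧ g m' ≤ c}, O m' ∩ ⋂ k ∈ Icc m' (g m'), U n k)
    (fun m c => (finite_Iic m).isOpen_biInter fun n _ => isOpen_biUnion fun m' _ =>
      (hO m').inter ((finite_Icc _ _).isOpen_biInter fun k _ => ho _ _))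
    (fun m c d hcd => iInter₂_mono fun n _ =>
      biUnion_subset_biUnion_left fun m' hm' => ⟨hm'.1, hm'.2.trans hcd⟩)
    (fun c m d hmd => (biInter_subset_biInter_left (Iic_subset_Iic.2 hmd)).trans
      (iInter₂_mono fun n _ => biUnion_subset_biUnion_left fun m' hm' => ⟨hmd.trans hm'.1, hm'.2⟩))
    (fun m x => by
      obtain ⟨M, hM⟩ := ((finite_Iic m).biUnion fun n _ => hc n x).bddAbove
      obtain ⟨m', a1, a2⟩ := (hO' x).exists_gt (max M m)
      refine ⟨g m', mem_iInter₂.2 fun n hn => mem_biUnion (x := m')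
        ⟨((le_max_right _ _).trans_lt a2).le, le_rfl⟩ ⟨a1, mem_iInter₂.2 fun k hk => ?_⟩⟩
      by_contra hx
      have b1 : k ≤ M := hM (mem_biUnion hn hx)
      have b2 := hk.1
      have b3 := le_max_left M m
      omega)
  refine ⟨O', g', h1, h3, fun m x hx n hn => ?_⟩
  obtain ⟨m', a1, a2⟩ := mem_iUnion₂.1 (mem_iInter₂.1 (h2 m hx) n hn)
  exact ⟨m', a1.1, a1.2, a2.1, mem_iInter₂.1 a2.2⟩

theorem levels (h : IT Y) (ho : ∀ n k, IsOpen (U n k)) (hc : ∀ n x, {k | x ∉ U n k}.Finite)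
    (j : ℕ) :
    ∃ (O : ℕ → Set Y) (g : ℕ → ℕ), (∀ m, IsOpen (O m)) ∧ Ix .T univ O univ ∧
      ∀ E : Finset Y, j ≤ E.card → ∃ E' ⊆ E, E'.card = j ∧ ∀ y ∈ E, y ∉ E' →
        ∃ N, ∀ n ≥ N, ∀ m ≥ n, y ∈ O m →
          ∃ k ∈ Icc m (g m), y ∈ U n k ∧ ∀ x ∈ E', x ∈ U n k := by
  classical
  induction j with
  | zero =>
    obtain ⟨O, g, h1, h2, h3⟩ := next_level h ho hc (fun _ => univ) id (fun _ => isOpen_univ)
      (fun x => by simpa using infinite_univ)
    refine ⟨O, g, h1, h2, fun E _ => ⟨∅, Finset.empty_subset _, rfl, fun y _ _ =>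
      ⟨0, fun n _ m hm hy => ?_⟩⟩⟩
    obtain ⟨k, a1, a2, -, a3⟩ := h3 m y hy n hm
    exact ⟨k, ⟨a1, a2⟩, a3 k ⟨le_rfl, le_rfl⟩, by simp⟩
  | succ j ih =>
    obtain ⟨O, g, h1, h2, h3⟩ := ih
    obtain ⟨O', g', h1', h2', h3'⟩ := next_level h ho hc O g h1
      (fun x => (h2.1 x trivial).mono fun i hi => hi.2)
    refine ⟨O', g', h1', h2', fun E hE => ?_⟩
    obtain ⟨E', e1, e2, e3⟩ := h3 E (by omega)
    obtain ⟨p, hp, hp'⟩ := exists_max h2 (E \ E') (by
      rw [← Finset.card_pos, Finset.card_sdiff_of_subset e1]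
      omega)
    rw [Finset.mem_sdiff] at hp
    refine ⟨insert p E', Finset.insert_subset hp.1 e1, by
      rw [Finset.card_insert_of_notMem hp.2, e2], fun y hy hy' => ?_⟩
    obtain ⟨N, hN⟩ := e3 p hp.1 hp.2
    obtain ⟨M, hM⟩ := (hp' y (Finset.mem_sdiff.2
      ⟨hy, fun h' => hy' (Finset.mem_insert_of_mem h')⟩)).bddAbove
    refine ⟨max N (M + 1), fun n hn m hm hyO => ?_⟩
    obtain ⟨m', a1, a2, a3, a4⟩ := h3' m y hyO n hm
    have b1 := le_max_left N (M + 1)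
    have b2 := le_max_right N (M + 1)
    have hpO : p ∈ O m' := by
      by_contra hx
      have : m' ≤ M := hM ⟨a3, hx⟩
      omega
    obtain ⟨k, k1, k2, k3⟩ := hN n (by omega) m' (by omega) hpO
    refine ⟨k, ⟨a1.trans k1.1, k1.2.trans a2⟩, a4 k k1, fun x hx => ?_⟩
    rcases Finset.mem_insert.1 hx with rfl | hx
    exacts [k2, k3 x hx]

end

end Hur13

open Hur13 in
theorem sfin_omega_of_ufin_tau (X : Set ℝ) [Nonempty X] :
    UfinIn Set.univ (GammaCovers X) (TauCovers X) →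
      SfinIn Set.univ (GammaCovers X) (OmegaCovers X) := by
  classical
  intro h 𝒰 _ h𝒰
  set U : ℕ → ℕ → Set X := fun n k => ((h𝒰 n).2.1.natEmbedding _ k : Set X) with hU
  have Um : ∀ n k, U n k ∈ 𝒰 n := fun n k => ((h𝒰 n).2.1.natEmbedding _ k).2
  have Ui : ∀ n, Injective (U n) := fun n =>
    Subtype.val_injective.comp ((h𝒰 n).2.1.natEmbedding _).injective
  have Uc : ∀ n x, {k | x ∉ U n k}.Finite := fun n x =>
    Finite.of_finite_image (((h𝒰 n).2.2 x).subset fun _ ⟨k, hk, h2⟩ => h2 ▸ ⟨Um n k, hk⟩)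
      (Ui n).injOn
  choose O g _ hT hφ using levels (it_of_ufin X h) (fun n k => (h𝒰 n).1.1 _ (Um n k)) Uc
  have key : ∀ E : Set X, E.Finite → ∃ W ∈ ⋃ n, U n '' Iic ((Finset.range (n + 1)).sup
      fun e => g e n), E ⊆ W := fun E hE => by
    set E1 := insert (Classical.arbitrary X) hE.toFinset with hE1
    have hpos : 0 < E1.card := Finset.card_pos.2 (Finset.insert_nonempty _ _)
    obtain ⟨E', e1, e2, e3⟩ := hφ (E1.card - 1) E1 (Nat.sub_le _ _)
    obtain ⟨y, hy⟩ := Finset.card_eq_one.1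
      (show (E1 \ E').card = 1 by rw [Finset.card_sdiff_of_subset e1]; omega)
    have hy' := Finset.mem_sdiff.1 (hy ▸ Finset.mem_singleton_self y)
    obtain ⟨N, hN⟩ := e3 y hy'.1 hy'.2
    obtain ⟨n, n1, n2⟩ := ((hT (E1.card - 1)).1 y trivial).exists_gt (max N E1.card)
    have b1 := le_max_left N E1.card
    have b2 := le_max_right N E1.card
    obtain ⟨k, k1, k2, k3⟩ := hN n (by omega) n le_rfl n1.2
    refine ⟨U n k, mem_iUnion.2 ⟨n, k, ?_, rfl⟩, fun x hx => ?_⟩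
    · exact k1.2.trans (Finset.le_sup (f := fun e => g e n) (Finset.mem_range.2 (by omega)))
    · by_cases hx' : x ∈ E'
      · exact k3 x hx'
      · have : x ∈ E1 \ E' :=
          Finset.mem_sdiff.2 ⟨Finset.mem_insert_of_mem (hE.mem_toFinset.2 hx), hx'⟩
        rw [hy, Finset.mem_singleton] at this
        exact this ▸ k2
  refine ⟨fun n => U n '' Iic ((Finset.range (n + 1)).sup fun e => g e n), trivial,
    fun n => ⟨?_, (finite_Iic _).image _⟩, ⟨?_, ?_, ?_⟩, key⟩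
  · rintro _ ⟨k, -, rfl⟩
    exact Um n k
  · intro W hW
    obtain ⟨n, k, -, rfl⟩ := mem_iUnion.1 hW
    exact (h𝒰 n).1.1 _ (Um n k)
  · refine eq_univ_of_forall fun x => ?_
    obtain ⟨W, h2, h3⟩ := key {x} (finite_singleton x)
    exact ⟨W, h2, h3 rfl⟩
  · intro hW
    obtain ⟨n, k, -, h2⟩ := mem_iUnion.1 hW
    exact (h𝒰 n).1.2.2 (h2 ▸ Um n k)

theorem sfin_omega_of_hurewicz (X : Set ℝ) [Nonempty X] :
    UfinIn Set.univ (GammaCovers X) (GammaCovers X) →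
      SfinIn Set.univ (GammaCovers X) (OmegaCovers X) := fun h =>
  sfin_omega_of_ufin_tau X fun 𝒰 h1 h2 h3 =>
    let ⟨F, a1, a2, a3⟩ := h 𝒰 h1 h2 h3
    ⟨F, a1, a2, gamma_subset_tau a3⟩

end Pool.Agent.P.MP_b17faa_gt
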