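import Pool.Agent.P.MP_b17faa_gt.ThmA

/-!
`S_fin(T, T)` implies `S₁(Γ, Ω)`.
-/

namespace Pool.Agent.P.MP_b17faa_gt

open Set Function Filter Topology

namespace ThmC

variable {Y : Type} [TopologicalSpace Y]

/-- indexed form of `S_fin(T, T)` -/
def HT (Y : Type) [TopologicalSpace Y] : Prop :=
  ∀ (ι : Type) (u : ℕ × ι → Set Y), (∀ i, IsOpen (u i)) → (∀ i, u i ≠ univ) →
    (∀ n, Ix .T univ (fun i => u (n, i)) univ) →
    ∃ S : Set (ℕ × ι), (∀ m, {i ∈ S | i.1 = m}.Finite) ∧ Ix .T univ u S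

/-- indexed `S₁(Γ, Ω)` -/
def StrG (F : Set Y) : Prop :=
  ∀ U : ℕ → ℕ → Set Y, (∀ j k, IsOpen (U j k)) → (∀ j, ∀ x ∈ F, ∀ᶠ k in atTop, x ∈ U j k) →
    ∃ g : ℕ → ℕ, ∀ E ⊆ F, E.Finite → ∃ j, E ⊆ U j (g j)

theorem strG_of_good {F : Set Y} (h : GoodG F) : StrG F := by
  intro U h1 h2
  obtain ⟨g, hg⟩ := h U h1 h2
  exact ⟨g, fun E hE hE' => ((eventually_all_finite hE').2 fun x hx => hg x (hE hx)).exists⟩

/-- a monotone witness against `GoodG F` -/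
theorem witness {F : Set Y} (h : ¬ GoodG F) : ∃ W : ℕ → ℕ → Set Y, (∀ n j, IsOpen (W n j)) ∧
    (∀ n, ∀ x ∈ F, {j | x ∉ W n j}.Finite) ∧ (∀ j, Antitone fun n => W n j) ∧
    ∀ P : Set (ℕ × ℕ), (Prod.fst '' P).Infinite → ∃ z ∈ F, {p ∈ P | z ∉ W p.1 p.2}.Infinite := by
  unfold GoodG at h
  push Not at h
  obtain ⟨W, h1, h2, h3⟩ := h
  refine ⟨fun n j => ⋂ m ∈ Iic n, W m j, fun n j => (finite_Iic n).isOpen_biInter fun m _ => h1 m j,
    fun n x hx => ?_, fun j n n' hn => biInter_subset_biInter_left (Iic_subset_Iic.2 hn),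
    fun P hP => ?_⟩
  · have := (eventually_all_finite (finite_Iic n)).2 fun m _ => h2 m x hx
    rw [← Nat.cofinite_eq_atTop, eventually_cofinite] at this
    exact this.subset fun j hj h => hj (mem_iInter₂.2 h)
  · have : ∀ m, ∃ p ∈ P, m < p.1 := fun m => by
      obtain ⟨_, ⟨p, hp, rfl⟩, h⟩ := hP.exists_gt m
      exact ⟨p, hp, h⟩
    choose p hp hp' using this
    obtain ⟨z, hz, hz'⟩ := h3 fun m => (p m).2
    refine ⟨z, hz, fun hf => ?_⟩
    obtain ⟨N, hN⟩ := (hf.image Prod.fst).bddAbove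
    obtain ⟨m, hm1, hm2⟩ := (hz'.and_eventually (eventually_ge_atTop N)).exists
    have : (p m).1 ≤ N := hN ⟨p m, ⟨hp m, fun h => hm1 (mem_iInter₂.1 h m (hp' m).le)⟩, rfl⟩
    have := hp' m
    omega

theorem key (H : HT Y) {F0 F1 : Set Y} (h0 : IsClosed F0) (h1 : IsClosed F1) (hd : Disjoint F0 F1)
    (hG : ¬ GoodG F1) : StrG F0 := by
  classical
  obtain ⟨W, w1, w2, w3, w4⟩ := witness hG
  intro U u1 u2
  by_cases hc : ∃ j k, F0 ⊆ U j k
  · obtain ⟨j, k, h⟩ := hc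
    exact ⟨fun _ => k, fun E hE _ => ⟨j, hE.trans h⟩⟩
  push Not at hc
  let u : ℕ × ℕ → Set Y := fun i => U i.1 i.2 ∪ F0ᶜ
  have up : ∀ i, u i ≠ univ := fun i e => hc i.1 i.2 fun x hx =>
    ((e ▸ mem_univ x : x ∈ u i)).resolve_right fun h => h hx
  obtain ⟨S, hS, hT⟩ := H ℕ u (fun i => (u1 _ _).union h0.isOpen_compl) up fun n =>
    Ix.tau_of_gamma ⟨infinite_univ, fun x _ => by
      by_cases hx : x ∈ F0
      · have := u2 n x hx
        rw [← Nat.cofinite_eq_atTop, eventually_cofinite] at this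
        exact this.subset fun k hk h => hk.2 (Or.inl h)
      · exact finite_empty.subset fun k hk => hk.2 (Or.inr hx)⟩
  have hSf : ∀ A : Set ℕ, A.Finite → {i ∈ S | i.1 ∈ A}.Finite := fun A hA =>
    (hA.biUnion fun m _ => hS m).subset fun i hi => mem_biUnion hi.2 ⟨hi.1, rfl⟩
  let V : ℕ × (ℕ × ℕ) → Set Y := fun i =>
    if i.2 ∈ S ∧ i.1 ≤ i.2.1 then u i.2 ∩ (W i.1 i.2.1 ∪ F1ᶜ) else ∅
  have eV : ∀ i x, x ∈ V i ↔ (i.2 ∈ S ∧ i.1 ≤ i.2.1) ∧ x ∈ u i.2 ∧ x ∈ W i.1 i.2.1 ∪ F1ᶜ := by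
    intro i x
    simp only [V]
    split_ifs with h
    · exact ⟨fun h' => ⟨h, h'⟩, fun h' => h'.2⟩
    · exact ⟨fun h' => absurd h' (notMem_empty _), fun h' => absurd h'.1 h⟩
  have hW : ∀ n x, {i ∈ S | x ∉ W n i.1 ∪ F1ᶜ}.Finite := by
    intro n x
    by_cases hx : x ∈ F1
    · exact (hSf _ (w2 n x hx)).subset fun i hi => ⟨hi.1, fun h => hi.2 (Or.inl h)⟩
    · exact finite_empty.subset fun i hi => hi.2 (Or.inr hx)
  have aux : ∀ n x y, {i ∈ S | x ∈ u i ∧ y ∉ u i}.Finite →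
      {i ∈ (univ : Set (ℕ × ℕ)) | x ∈ V (n, i) ∧ y ∉ V (n, i)}.Finite := by
    intro n x y h
    refine (h.union (hW n y)).subset fun i hi => ?_
    have a := (eV _ _).1 hi.2.1
    by_cases hy : y ∈ u i
    · exact Or.inr ⟨a.1.1, fun h' => hi.2.2 ((eV _ _).2 ⟨a.1, hy, h'⟩)⟩
    · exact Or.inl ⟨a.1.1, a.2.1, hy⟩
  obtain ⟨S', hS', hT'⟩ := H (ℕ × ℕ) V (fun i => by
      simp only [V]
      split_ifs
      exacts [((u1 _ _).union h0.isOpen_compl).inter ((w1 _ _).union h1.isOpen_compl),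
        isOpen_empty])
    (fun i e => up i.2 (eq_univ_of_forall fun x => ((eV i x).1 (e ▸ mem_univ x)).2.1))
    fun n => ⟨fun x _ => by
        refine ((hT.1 x trivial).sdiff ((hSf _ (finite_Iio n)).union (hW n x))).mono fun i hi => ?_
        refine ⟨trivial, (eV _ _).2 ⟨⟨hi.1.1, ?_⟩, hi.1.2, ?_⟩⟩
        · by_contra h
          exact hi.2 (Or.inl ⟨hi.1.1, lt_of_not_ge h⟩)
        · by_contra h
          exact hi.2 (Or.inr ⟨hi.1.1, h⟩),
      fun x _ y _ => (hT.2 x trivial y trivial).imp (aux n x y) (aux n y x)⟩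
  have hg : ∀ j, ∃ k, ∀ z ∈ F1, ∀ i ∈ S', i.2.1 = j → z ∈ V i →
      ∃ n, (n, (j, k)) ∈ S' ∧ z ∈ V (n, (j, k)) := by
    intro j
    by_cases hj : ∃ n k, (n, (j, k)) ∈ S' ∧ (j, k) ∈ S ∧ n ≤ j
    · obtain ⟨k, a1, a2, a3⟩ := Nat.find_spec hj
      refine ⟨k, fun z hz i hi e hzi => ⟨_, a1, (eV _ _).2 ⟨⟨a2, a3⟩,
        Or.inr (disjoint_right.1 hd hz), Or.inl ?_⟩⟩⟩
      obtain ⟨n, j', k'⟩ := i
      obtain rfl : j' = j := e
      have a := (eV _ _).1 hzi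
      exact w3 j' (Nat.find_min' hj ⟨k', hi, a.1.1, a.1.2⟩) (a.2.2.resolve_right fun h => h hz)
    · refine ⟨0, fun z _ i hi e hzi => absurd ?_ hj⟩
      obtain ⟨n, j', k'⟩ := i
      obtain rfl : j' = j := e
      have a := (eV _ _).1 hzi
      exact ⟨n, k', hi, a.1.1, a.1.2⟩
  choose g hg using hg
  refine ⟨g, fun E hE hE' => ?_⟩
  rcases E.eq_empty_or_nonempty with rfl | hEn
  · exact ⟨0, empty_subset _⟩
  obtain ⟨y, hy, hy'⟩ := hT'.exists_min (subset_univ E) hE' hEn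
  obtain ⟨z, hz, hz'⟩ : ∃ z ∈ F1, {i ∈ S' | z ∈ V i ∧ y ∉ V i}.Finite := by
    by_contra hcon
    push Not at hcon
    obtain ⟨z, hz, hz'⟩ := w4 ((fun i : ℕ × (ℕ × ℕ) => (i.1, i.2.1)) '' {i ∈ S' | y ∈ V i}) (by
      rw [image_image]
      exact ThmA.infinite_fst hS' (sep_subset _ _) (hT'.1 y trivial))
    refine hz' ((((hT'.2 z trivial y trivial).resolve_left (hcon z hz)).image
      fun i : ℕ × (ℕ × ℕ) => (i.1, i.2.1)).subset ?_)
    rintro _ ⟨⟨i, hi, rfl⟩, h⟩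
    exact ⟨i, ⟨hi.1, hi.2, fun h' => h (((eV _ _).1 h').2.2.resolve_right fun h => h hz)⟩, rfl⟩
  obtain ⟨N, hN⟩ := ((hz'.union (hE'.biUnion hy')).image fun i => i.2.1).bddAbove
  obtain ⟨_, ⟨i, hi, rfl⟩, hi'⟩ :=
    (ThmA.infinite_fst hS' (sep_subset _ _) (hT'.1 z trivial)).exists_gt N
  obtain ⟨n, a1, a2⟩ := hg _ z hz i hi.1 rfl hi.2
  have a0 : N < i.2.1 := hi'.trans_le ((eV _ _).1 hi.2).1.2
  have a3 : y ∈ V (n, (i.2.1, g i.2.1)) := by
    by_contra h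
    exact a0.not_ge (hN ⟨_, Or.inl ⟨a1, a2, h⟩, rfl⟩)
  refine ⟨i.2.1, fun x hx => ?_⟩
  have a4 : x ∈ V (n, (i.2.1, g i.2.1)) := by
    by_contra h
    exact a0.not_ge (hN ⟨_, Or.inr (mem_biUnion hx ⟨a1, a3, h⟩), rfl⟩)
  exact ((eV _ _).1 a4).2.1.resolve_right fun h => h (hE hx)

theorem str_union (F : ℕ → Set Y) (hF : ∀ k, StrG (F k))
    (hU : ∀ E : Set Y, E.Finite → ∃ k, E ⊆ F k) : StrG (univ : Set Y) := by
  intro U u1 u2
  choose g hg using fun k => hF k (fun m => U (Nat.pair k m)) (fun m => u1 _)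
    fun m x _ => u2 _ x trivial
  refine ⟨fun n => g n.unpair.1 n.unpair.2, fun E _ hE => ?_⟩
  obtain ⟨k, hk⟩ := hU E hE
  obtain ⟨m, hm⟩ := hg k E hk hE
  exact ⟨Nat.pair k m, by simpa using hm⟩

theorem str_univ {Y : Type} [MetricSpace Y] [SecondCountableTopology Y] (H : HT Y) :
    StrG (univ : Set Y) := by
  by_cases hG : GoodG (univ : Set Y)
  · exact strG_of_good hG
  set B : Set Y := {x | ∀ s ∈ 𝓝 x, ¬ GoodG s} with hB
  have hBi : B.Infinite := by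
    intro hBf
    have hex : ∀ x, ∃ s, GoodG s ∧ (x ∈ Bᶜ → s ∈ 𝓝[Bᶜ] x) := by
      intro x
      by_cases hx : x ∈ B
      · exact ⟨∅, GoodG.of_finite finite_empty, fun h => absurd hx h⟩
      · simp only [hB, mem_ofPred_eq, not_forall, not_not] at hx
        obtain ⟨s, hs, hg⟩ := hx
        exact ⟨s, hg, fun _ => mem_nhdsWithin_of_mem_nhds hs⟩
    choose f hf hf' using hex
    obtain ⟨t, -, htc, hcov⟩ := TopologicalSpace.countable_cover_nhdsWithin hf'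
    obtain ⟨g, hg⟩ := ((htc.image f).insert B).exists_eq_range (insert_nonempty _ _)
    have e : ⋃ k, g k = univ := eq_univ_of_forall fun x => by
      rw [← sUnion_range, ← hg]
      by_cases hx : x ∈ B
      · exact ⟨B, mem_insert _ _, hx⟩
      · obtain ⟨y, hy, h⟩ := mem_iUnion₂.1 (hcov hx)
        exact ⟨_, mem_insert_of_mem _ ⟨y, hy, rfl⟩, h⟩
    refine hG (e ▸ GoodG.iUnion g fun k => ?_)
    rcases (hg ▸ mem_range_self k : g k ∈ insert B (f '' t)) with h | ⟨y, -, h⟩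
    · exact h ▸ GoodG.of_finite hBf
    · exact h ▸ hf y
  let z : ℕ → Y := fun j => hBi.natEmbedding B j
  have zi : Injective z := Subtype.val_injective.comp (hBi.natEmbedding B).injective
  refine str_union (fun k => (Metric.ball (z k.unpair.1) (1 / ((k.unpair.2 : ℝ) + 1)))ᶜ)
    (fun k => ?_) fun E hE => ?_
  · have hp : (0 : ℝ) < 1 / ((k.unpair.2 : ℝ) + 1) := by positivity
    exact key H Metric.isOpen_ball.isClosed_compl Metric.isClosed_closedBall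
      (disjoint_compl_left_iff_subset.2 (Metric.closedBall_subset_ball (half_lt_self hp)))
      ((hBi.natEmbedding B _).2 _ (Metric.closedBall_mem_nhds _ (half_pos hp)))
  · obtain ⟨j, hj⟩ := (hE.preimage zi.injOn).exists_notMem
    obtain ⟨ε, hε, h⟩ := Metric.isOpen_iff.1 hE.isClosed.isOpen_compl _ hj
    obtain ⟨n, hn⟩ := exists_nat_one_div_lt hε
    refine ⟨Nat.pair j n, fun x hx hx' => h ?_ hx⟩
    simp only [Nat.unpair_pair] at hx'
    exact Metric.ball_subset_ball hn.le hx'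

theorem ht_of_sfin {X : Set ℝ} [Nonempty X] (h : SfinIn univ (TauCovers X) (TauCovers X)) :
    HT X := by
  intro ι u h1 h2 h3
  obtain ⟨F, -, hF, hT⟩ := h (fun n => (fun i => u (n, i)) '' univ) trivial fun n =>
    Ix.mem_cov (c := .T) (h3 n) (fun i _ => h1 _) fun i _ => h2 _
  have : ∀ V : ⋃ n, F n, ∃ i : ℕ × ι, u i = V ∧ V.1 ∈ F i.1 := by
    rintro ⟨V, hV⟩
    obtain ⟨n, hn⟩ := mem_iUnion.1 hV
    obtain ⟨i, -, b⟩ := (hF n).1 hn
    exact ⟨(n, i), b, hn⟩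
  choose idx h4 h5 using this
  have hinj : InjOn u (range idx) := by
    rintro _ ⟨V, rfl⟩ _ ⟨W, rfl⟩ e
    rw [h4, h4] at e
    rw [Subtype.ext e]
  refine ⟨range idx, fun m => ?_, ix_of_mem_cov (c := .T) hinj ?_⟩
  · refine Finite.of_finite_image (f := u) ?_ (hinj.mono (sep_subset _ _))
    refine (hF m).2.subset ?_
    rintro _ ⟨_, ⟨⟨V, rfl⟩, e⟩, rfl⟩
    exact e ▸ h4 V ▸ h5 V
  · have e : u '' range idx = ⋃ n, F n := by
      ext V
      constructor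
      · rintro ⟨_, ⟨W, rfl⟩, rfl⟩; rw [h4]; exact W.2
      · intro hV; exact ⟨_, ⟨⟨V, hV⟩, rfl⟩, h4 _⟩
    rw [e]
    exact hT

end ThmC

theorem omega_of_sfin_tau_tau (X : Set ℝ) [Nonempty X]
    (h : SfinIn univ (TauCovers X) (TauCovers X)) :
    S1In univ (GammaCovers X) (OmegaCovers X) := by
  have H := ThmC.str_univ (ThmC.ht_of_sfin h)
  intro 𝒰 _ h𝒰
  let e : ℕ → ℕ → Set X := fun n m => (h𝒰 n).2.1.natEmbedding _ m
  have he : ∀ n m, e n m ∈ 𝒰 n := fun n m => Subtype.coe_prop _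
  have hi : ∀ n, Function.Injective (e n) := fun n =>
    Subtype.val_injective.comp ((h𝒰 n).2.1.natEmbedding _).injective
  obtain ⟨g, hg⟩ := H e (fun n m => (h𝒰 n).1.1 _ (he n m)) fun n x _ => by
    rw [← Nat.cofinite_eq_atTop, eventually_cofinite]
    exact (((h𝒰 n).2.2 x).preimage (hi n).injOn).subset fun m hm => ⟨he n m, hm⟩
  refine ⟨fun n => e n (g n), trivial, fun n => he n _, ?_⟩
  rw [← image_univ]
  exact Ix.mem_cov (c := .Om) (fun E hE' hE => let ⟨m, hm⟩ := hg E hE' hE; ⟨m, trivial, hm⟩)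
    (fun m _ => (h𝒰 m).1.1 _ (he m _)) fun m _ e' => (h𝒰 m).1.2.2 (e' ▸ he m _)

end Pool.Agent.P.MP_b17faa_gt
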