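import Pool.Agent.P.MP_b17faa_gt.ThmC

/-!
`S_fin(Γ, T)` implies `S₁(Γ, O)`.
-/

namespace Pool.Agent.P.MP_b17faa_gt

open Set Function Filter Topology

namespace ThmD

/-- indexed form of `S_fin(Γ, T)` -/
def HG (Y : Type) [TopologicalSpace Y] : Prop :=
  ∀ u : ℕ × ℕ → Set Y, (∀ i, IsOpen (u i)) → (∀ n y, ∀ᶠ k in atTop, y ∈ u (n, k)) →
    ∃ S : Set (ℕ × ℕ), (∀ m, {i ∈ S | i.1 = m}.Finite) ∧ Ix .T univ u S

theorem hg_of_sfin {X : Set ℝ} [Infinite X] (h : SfinIn univ (GammaCovers X) (TauCovers X)) :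
    HG X := by
  intro u h1 h3
  let z : ℕ × ℕ → X := fun i => Infinite.natEmbedding X (Nat.pair i.1 i.2)
  have zi : Injective z := fun i j e => by
    have := Nat.pair_eq_pair.1 ((Infinite.natEmbedding X).injective e)
    exact Prod.ext this.1 this.2
  have zf : ∀ x, {i | z i = x}.Finite := fun x =>
    Subsingleton.finite fun i hi j hj => zi (hi.trans hj.symm)
  let v : ℕ × ℕ → Set X := fun i => u i \ {z i}
  have hv : ∀ n, Ix .G univ (fun k => v (n, k)) univ := fun n => ⟨infinite_univ, fun y _ => by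
    have := h3 n y
    rw [← Nat.cofinite_eq_atTop, eventually_cofinite] at this
    refine (this.union ((zf y).preimage (Prod.mk_right_injective n).injOn)).subset fun k hk => ?_
    by_cases hy : y ∈ u (n, k)
    · refine Or.inr ?_
      by_contra hc
      exact hk.2 ⟨hy, fun e => hc (Eq.symm e)⟩
    · exact Or.inl hy⟩
  obtain ⟨F, -, hF, hT⟩ := h (fun n => (fun k => v (n, k)) '' univ) trivial fun n =>
    Ix.mem_cov (c := .G) (hv n) (fun i _ => (h1 _).sdiff isClosed_singleton)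
      fun i _ e => (e ▸ mem_univ (z (n, i)) : z (n, i) ∈ v (n, i)).2 rfl
  have : ∀ V : ⋃ n, F n, ∃ i : ℕ × ℕ, v i = V ∧ V.1 ∈ F i.1 := by
    rintro ⟨V, hV⟩
    obtain ⟨n, hn⟩ := mem_iUnion.1 hV
    obtain ⟨i, -, b⟩ := (hF n).1 hn
    exact ⟨(n, i), b, hn⟩
  choose idx h4 h5 using this
  have hinj : InjOn v (range idx) := by
    rintro _ ⟨V, rfl⟩ _ ⟨W, rfl⟩ e
    rw [h4, h4] at e
    rw [Subtype.ext e]
  have hT' : Ix .T univ v (range idx) := by
    refine ix_of_mem_cov (c := .T) hinj ?_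
    have e : v '' range idx = ⋃ n, F n := by
      ext V
      constructor
      · rintro ⟨_, ⟨W, rfl⟩, rfl⟩; rw [h4]; exact W.2
      · intro hV; exact ⟨_, ⟨⟨V, hV⟩, rfl⟩, h4 _⟩
    rw [e]
    exact hT
  have aux : ∀ x y, {i ∈ range idx | x ∈ v i ∧ y ∉ v i}.Finite →
      {i ∈ range idx | x ∈ u i ∧ y ∉ u i}.Finite := by
    intro x y hf
    refine (hf.union (zf x)).subset fun i hi => ?_
    by_cases hx : z i = x
    · exact Or.inr hx
    · exact Or.inl ⟨hi.1, ⟨hi.2.1, fun e => hx (Eq.symm e)⟩, fun h' => hi.2.2 h'.1⟩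
  refine ⟨range idx, fun m => ?_, fun x _ => (hT'.1 x trivial).mono fun i hi => ⟨hi.1, hi.2.1⟩,
    fun x _ y _ => (hT'.2 x trivial y trivial).imp (aux x y) (aux y x)⟩
  refine Finite.of_finite_image (f := v) ?_ (hinj.mono (sep_subset _ _))
  refine (hF m).2.subset ?_
  rintro _ ⟨_, ⟨⟨V, rfl⟩, e⟩, rfl⟩
  exact e ▸ h4 V ▸ h5 V

theorem pick {S L : Set (ℕ × ℕ)} (hS : ∀ m, {i ∈ S | i.1 = m}.Finite) (hL : L ⊆ S)
    (h : L.Infinite) (c : ℕ) : ∃ e ∈ L, c < e.1 := by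
  obtain ⟨_, ⟨e, he, rfl⟩, h'⟩ := (ThmA.infinite_fst hS hL h).exists_gt c
  exact ⟨e, he, h'⟩

theorem infinite_of_unbounded {A : Set (ℕ × ℕ)} (h : ∀ n, ∃ e ∈ A, n < e.1) : A.Infinite := by
  intro hf
  obtain ⟨N, hN⟩ := (hf.image Prod.fst).bddAbove
  obtain ⟨e, he, h'⟩ := h N
  exact h'.not_ge (hN ⟨e, he, rfl⟩)

variable {Y : Type}

/-- `b` is the last position missed in column `a` -/
def Ex (F : Set Y) (U : ℕ → ℕ → Set Y) (a b : ℕ) : Set Y :=
  (F \ U a b) ∩ ⋂ k ∈ Ioi b, F ∩ U a k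

/-- the chain of last missed positions reaches `a` after `i` steps -/
def St (F : Set Y) (U : ℕ → ℕ → Set Y) : ℕ → ℕ → Set Y
  | 0, a => if a = 0 then F else ∅
  | i + 1, b => ⋃ a ∈ Iio b, St F U i a ∩ Ex F U a b

/-- an even point of the chain below `m` misses position `p` -/
def On (F : Set Y) (U : ℕ → ℕ → Set Y) (m p : ℕ) : Set Y :=
  ⋃ q ∈ Iio m ×ˢ Iio m, St F U (2 * q.2) q.1 ∩ (F \ U q.1 p)

theorem not_on {F : Set Y} {U : ℕ → ℕ → Set Y} (hγ : ∀ n, ∀ y ∈ F, ∀ᶠ k in atTop, y ∈ U n k)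
    (g : ℕ → ℕ) (m : ℕ) (y : Y) : ∀ᶠ j in atTop, ∀ c < m, y ∉ F \ U (g c) (m + j) := by
  by_cases hy : y ∈ F
  · have := (eventually_all_finite (finite_Iio m)).2 fun c _ =>
      (tendsto_add_atTop_nat m).eventually (hγ (g c) y hy)
    exact this.mono fun j hj c hc h => h.2 (add_comm j m ▸ hj c hc)
  · exact Eventually.of_forall fun j c _ h => hy h.1

/-- the parity argument -/
theorem chain {F : Set Y} {U : ℕ → ℕ → Set Y} (hγ : ∀ n, ∀ y ∈ F, ∀ᶠ k in atTop, y ∈ U n k)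
    {l τ : ℕ → ℕ × ℕ} (h1 : ∀ c, c < (τ c).1) (h2 : ∀ c, (τ c).1 ≤ (l c).1) {y : Y} (hy : y ∈ F)
    (hf : ∀ c, y ∉ U c ((l c).1 + (l c).2)) (n : ℕ) :
    (∃ c, n ≤ c ∧ y ∈ On F U (l c).1 ((l c).1 + (l c).2)) ∧
      ∃ c, n ≤ c ∧ y ∉ On F U (τ c).1 ((τ c).1 + (τ c).2) := by
  have hg : ∀ a, ∃ b, y ∉ U a b ∧ ∀ k, y ∉ U a k → k ≤ b := by
    intro a
    have := hγ a y hy
    rw [← Nat.cofinite_eq_atTop, eventually_cofinite] at this
    obtain ⟨b, hb, hb'⟩ := this.exists_maximal ⟨_, hf a⟩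
    exact ⟨b, hb, fun k hk => (le_total k b).elim id fun h => hb' hk h⟩
  choose g hg hg' using hg
  have hEx : ∀ a b, y ∈ Ex F U a b ↔ b = g a := by
    intro a b
    constructor
    · rintro ⟨a1, a2⟩
      refine le_antisymm (hg' a b a1.2) (not_lt.1 fun h => hg a (mem_iInter₂.1 a2 _ h).2)
    · rintro rfl
      refine ⟨⟨hy, hg a⟩, mem_iInter₂.2 fun k hk => ⟨hy, ?_⟩⟩
      by_contra h
      exact (hg' a k h).not_gt hk
  have hlg : ∀ a, (l a).1 ≤ g a := fun a => le_self_add.trans (hg' a _ (hf a))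
  have hlt : ∀ a, a < g a := fun a => (h1 a).trans_le ((h2 a).trans (hlg a))
  let t : ℕ → ℕ := fun i => Nat.rec 0 (fun _ a => g a) i
  have ts : ∀ i, t (i + 1) = g (t i) := fun i => rfl
  have tm : StrictMono t := strictMono_nat_of_lt_succ fun i => hlt _
  have hSt : ∀ i a, y ∈ St F U i a ↔ a = t i := by
    intro i
    induction i with
    | zero =>
      intro a
      by_cases h : a = 0
      · simp [St, h, hy, t]
      · simp [St, h, t]
    | succ i ih =>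
      intro b
      simp only [St, mem_iUnion, mem_inter_iff, ih, hEx, ts, mem_Iio]
      constructor
      · rintro ⟨a, -, rfl, h⟩
        exact h
      · rintro rfl
        exact ⟨t i, hlt _, rfl, rfl⟩
  constructor
  · have a1 : 2 * n ≤ t (2 * n) := tm.le_apply
    have a2 := (h1 (t (2 * n))).trans_le (h2 _)
    refine ⟨t (2 * n), by omega, mem_iUnion₂.2 ⟨(t (2 * n), n), ⟨a2, ?_⟩, (hSt _ _).2 rfl, hy, hf _⟩⟩
    show n < _
    omega
  · have a1 : 2 * n + 1 ≤ t (2 * n + 1) := tm.le_apply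
    refine ⟨t (2 * n + 1), by omega, fun h => ?_⟩
    obtain ⟨⟨a, r⟩, ⟨b1, -⟩, b2, b3⟩ := mem_iUnion₂.1 h
    obtain rfl : a = t (2 * r) := (hSt _ _).1 b2
    have b4 : t (2 * r) < t (2 * n + 1 + 1) := lt_of_lt_of_le b1 ((h2 _).trans (hlg _))
    have b5 : 2 * r < 2 * n + 1 + 1 := tm.lt_iff_lt.1 b4
    have b6 : t (2 * r + 1) ≤ t (2 * n + 1) := tm.monotone (show 2 * r + 1 ≤ 2 * n + 1 by omega)
    have b7 := hg' _ _ b3.2
    have b8 := h1 (t (2 * n + 1))
    rw [ts] at b6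
    simp only at b7
    omega

section
variable [TopologicalSpace Y] {F : Set Y} {U : ℕ → ℕ → Set Y}

theorem isClosed_St (hF : IsClosed F) (hU : ∀ n k, IsOpen (U n k))
    (hc : ∀ n k, IsClosed (F ∩ U n k)) (i : ℕ) : ∀ a, IsClosed (St F U i a) := by
  induction i with
  | zero =>
    intro a
    simp only [St]
    split_ifs
    exacts [hF, isClosed_empty]
  | succ i ih =>
    exact fun b => (finite_Iio b).isClosed_biUnion fun a _ => (ih a).inter
      ((hF.sdiff (hU a b)).inter (isClosed_biInter fun k _ => hc a k))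

/-- the case of relatively clopen sets -/
theorem cover_clopen (H : HG Y) (hF : IsClosed F) (hU : ∀ n k, IsOpen (U n k))
    (hc : ∀ n k, IsClosed (F ∩ U n k)) (hγ : ∀ n, ∀ y ∈ F, ∀ᶠ k in atTop, y ∈ U n k) :
    ∃ f : ℕ → ℕ, ∀ y ∈ F, ∃ n, y ∈ U n (f n) := by
  by_contra hcon
  push Not at hcon
  obtain ⟨S, hS, hT⟩ := H (fun i => (On F U i.1 (i.1 + i.2))ᶜ)
    (fun i => (((finite_Iio _).prod (finite_Iio _)).isClosed_biUnion fun q _ =>
      (isClosed_St hF hU hc _ _).inter (hF.sdiff (hU _ _))).isOpen_compl)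
    fun m y => (not_on hγ id m y).mono fun j hj h => by
      obtain ⟨q, hq, h'⟩ := mem_iUnion₂.1 h
      exact hj q.1 hq.1 h'.2
  have key : ∀ L T : Set (ℕ × ℕ), L ⊆ S → T ⊆ S → L.Infinite → T.Infinite →
      ∃ y, {i ∈ L | y ∈ On F U i.1 (i.1 + i.2)}.Infinite ∧
        {i ∈ T | y ∉ On F U i.1 (i.1 + i.2)}.Infinite := by
    intro L T hL hT' hLi hTi
    choose τ hτ hτ' using pick hS hT' hTi
    choose l hl hl' using pick hS hL hLi
    obtain ⟨y, hy, hy'⟩ := hcon fun c => (l (τ c).1).1 + (l (τ c).1).2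
    have := chain hγ (l := fun c => l (τ c).1) hτ' (fun c => (hl' _).le) hy hy'
    refine ⟨y, infinite_of_unbounded fun n => ?_, infinite_of_unbounded fun n => ?_⟩
    · obtain ⟨c, h1, h2⟩ := (this n).1
      exact ⟨_, ⟨hl _, h2⟩, h1.trans_lt ((hτ' c).trans (hl' _))⟩
    · obtain ⟨c, h1, h2⟩ := (this n).2
      exact ⟨_, ⟨hτ _, h2⟩, h1.trans_lt (hτ' c)⟩
  obtain ⟨y₁, -, -⟩ := hcon id
  have hSi : S.Infinite := (hT.1 y₁ trivial).mono (sep_subset _ _)
  obtain ⟨y₀, h0, -⟩ := key S S Subset.rfl Subset.rfl hSi hSi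
  obtain ⟨y, h1, h2⟩ := key _ _ (sep_subset _ _) (sep_subset _ _) (hT.1 y₀ trivial) h0
  rcases hT.2 y₀ trivial y trivial with h | h
  · exact h1 (h.subset fun i hi => ⟨hi.1.1, hi.1.2, fun h' => h' hi.2⟩)
  · exact h2 (h.subset fun i hi => ⟨hi.1.1, hi.2, fun h' => h' hi.1.2⟩)

end

section
variable [MetricSpace Y]

/-- the points at distance at least `1 / (t + 1)` from the complement of `W` -/
def Core (W : Set Y) (t : ℕ) : Set Y := {y | ((t : ENNReal) + 1)⁻¹ ≤ Metric.infEDist y Wᶜ}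

/-- the points at distance at most `1 / t` from the complement of `W` -/
def Near (W : Set Y) (t : ℕ) : Set Y := {y | Metric.infEDist y Wᶜ ≤ (t : ENNReal)⁻¹}

/-- the scale `t` fits the first `n + 1` sets -/
def Q (W : ℕ → Set Y) (n t : ℕ) : Set Y :=
  (⋂ x ∈ Iic n, Core (W x) t ∪ (W x)ᶜ) ∩
    ({_y | t = 0} ∪ ⋃ x ∈ Iic n, Core (W x) t ∩ Near (W x) t)

theorem isClosed_Core (W : Set Y) (t : ℕ) : IsClosed (Core W t) :=
  isClosed_le continuous_const Metric.continuous_infEDist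

theorem isClosed_Near (W : Set Y) (t : ℕ) : IsClosed (Near W t) :=
  isClosed_le Metric.continuous_infEDist continuous_const

theorem isClosed_Q {W : ℕ → Set Y} (hW : ∀ x, IsOpen (W x)) (n t : ℕ) : IsClosed (Q W n t) :=
  (isClosed_biInter fun x _ => (isClosed_Core _ _).union (hW x).isClosed_compl).inter
    (isClosed_const.union ((finite_Iic n).isClosed_biUnion fun _ _ =>
      (isClosed_Core _ _).inter (isClosed_Near _ _)))

theorem Core_mono (W : Set Y) : Monotone (Core W) := fun s t h y hy =>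
  le_trans (ENNReal.inv_le_inv.2 (by gcongr)) hy

theorem Core_subset (W : Set Y) (t : ℕ) : Core W t ⊆ W := fun y hy => by
  by_contra h
  have h0 : Metric.infEDist y Wᶜ = 0 := Metric.infEDist_zero_of_mem h
  simp [Core, h0] at hy

theorem exists_Core {W : Set Y} (hW : IsOpen W) {y : Y} (hy : y ∈ W) : ∃ t, y ∈ Core W t := by
  have h0 : Metric.infEDist y Wᶜ ≠ 0 := fun h =>
    (Metric.mem_iff_infEDist_zero_of_closed hW.isClosed_compl).2 h hy
  obtain ⟨n, hn⟩ := ENNReal.exists_inv_nat_lt h0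
  exact ⟨n, le_trans (ENNReal.inv_le_inv.2 le_self_add) hn.le⟩

theorem exists_Q {W : ℕ → Set Y} (hW : ∀ x, IsOpen (W x)) (n : ℕ) (y : Y) :
    ∃ t, y ∈ Q W n t := by
  classical
  have hex : ∃ t, y ∈ ⋂ x ∈ Iic n, Core (W x) t ∪ (W x)ᶜ := by
    have : ∀ x, ∀ᶠ t in atTop, y ∈ Core (W x) t ∪ (W x)ᶜ := by
      intro x
      by_cases hy : y ∈ W x
      · obtain ⟨t, ht⟩ := exists_Core (hW x) hy
        exact (eventually_ge_atTop t).mono fun s hs => Or.inl (Core_mono _ hs ht)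
      · exact Eventually.of_forall fun _ => Or.inr hy
    obtain ⟨t, ht⟩ := ((eventually_all_finite (finite_Iic n)).2 fun x _ => this x).exists
    exact ⟨t, mem_iInter₂.2 ht⟩
  refine ⟨Nat.find hex, Nat.find_spec hex, ?_⟩
  rcases h : Nat.find hex with _ | s
  · exact Or.inl rfl
  · have h1 := Nat.find_spec hex
    have h2 := Nat.find_min hex (m := s) (by omega)
    rw [h] at h1
    simp only [mem_iInter, not_forall, mem_union, not_or] at h2
    obtain ⟨x, hx, h3, h4⟩ := h2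
    refine Or.inr (mem_iUnion₂.2 ⟨x, hx, (mem_iInter₂.1 h1 x hx).resolve_right h4, ?_⟩)
    have := (not_le.1 (show ¬ ((s : ENNReal) + 1)⁻¹ ≤ Metric.infEDist y (W x)ᶜ from h3)).le
    simpa [Near] using this

theorem finite_Q (W : ℕ → Set Y) (n : ℕ) (y : Y) : {t | y ∈ Q W n t}.Finite := by
  have : ∀ x, {t | y ∈ Core (W x) t ∩ Near (W x) t}.Finite := by
    intro x
    rcases eq_empty_or_nonempty {t | y ∈ Core (W x) t ∩ Near (W x) t} with h | ⟨s, hs⟩
    · rw [h]; exact finite_empty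
    · refine (finite_Iic (s + 1)).subset fun t ht => ?_
      have h1 : ((s : ENNReal) + 1)⁻¹ ≤ (t : ENNReal)⁻¹ := le_trans hs.1 ht.2
      rw [ENNReal.inv_le_inv] at h1
      exact_mod_cast h1
  refine ((finite_singleton 0).union ((finite_Iic n).biUnion fun x _ => this x)).subset
    fun t ht => ?_
  rcases ht.2 with h | h
  · exact Or.inl h
  · obtain ⟨x, hx, h'⟩ := mem_iUnion₂.1 h
    exact Or.inr (mem_iUnion₂.2 ⟨x, hx, h'⟩)

end

theorem cover [MetricSpace Y] (H : HG Y) (F : Set Y) (hF : IsClosed F) (U : ℕ → ℕ → Set Y)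
    (hU : ∀ n k, IsOpen (U n k)) (hγ : ∀ n, ∀ y ∈ F, ∀ᶠ k in atTop, y ∈ U n k) :
    ∃ f : ℕ → ℕ, ∀ y ∈ F, ∃ n, y ∈ U n (f n) := by
  by_contra hcon
  push Not at hcon
  let W : ℕ → Set Y := fun x => U (2 * x.unpair.1) x.unpair.2
  have hW : ∀ x, IsOpen (W x) := fun x => hU _ _
  let A : ℕ → ℕ → Set Y := fun c p => Q W c.unpair.1 c.unpair.2 ∩ (F \ U (2 * c + 1) p)
  have hA : ∀ c p, IsClosed (A c p) := fun c p => (isClosed_Q hW _ _).inter (hF.sdiff (hU _ _))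
  let G : ℕ × ℕ → Set Y := fun i => ⋃ c ∈ Iio i.1, A c (i.1 + i.2)
  have hG : ∀ i, IsClosed (G i) := fun i => (finite_Iio _).isClosed_biUnion fun c _ => hA _ _
  obtain ⟨S, hS, hT⟩ := H (fun i => (G i)ᶜ) (fun i => (hG i).isOpen_compl)
    fun m y => (not_on hγ (fun c => 2 * c + 1) m y).mono fun j hj h => by
      obtain ⟨c, hc, h'⟩ := mem_iUnion₂.1 h
      exact hj c hc h'.2
  have key : ∀ L : Set (ℕ × ℕ), L ⊆ S → L.Infinite → ∀ g : ℕ → ℕ,
      ∃ y ∈ F, {i ∈ L | y ∈ G i}.Infinite ∧ ∀ a, y ∉ U (2 * a) (g a) := by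
    intro L hL hLi g
    choose l hl hl' using pick hS hL hLi
    obtain ⟨y, hy, hy'⟩ := hcon fun n =>
      if n % 2 = 0 then g (n / 2) else (l (n / 2)).1 + (l (n / 2)).2
    refine ⟨y, hy, infinite_of_unbounded fun n => ?_, fun a => ?_⟩
    · obtain ⟨t, ht⟩ := exists_Q hW n y
      have h1 := hy' (2 * Nat.pair n t + 1)
      rw [if_neg (by omega), show (2 * Nat.pair n t + 1) / 2 = Nat.pair n t by omega] at h1
      refine ⟨l (Nat.pair n t), ⟨hl _, mem_iUnion₂.2 ⟨Nat.pair n t, hl' _, ?_, hy, h1⟩⟩,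
        (Nat.left_le_pair n t).trans_lt (hl' _)⟩
      simpa only [Nat.unpair_pair] using ht
    · have h1 := hy' (2 * a)
      rwa [if_pos (by omega), show 2 * a / 2 = a by omega] at h1
  obtain ⟨y₁, -, -⟩ := hcon id
  have hSi : S.Infinite := (hT.1 y₁ trivial).mono (sep_subset _ _)
  obtain ⟨y₀, -, h0, -⟩ := key S Subset.rfl hSi id
  let Fk : ℕ → Set Y := fun k => F ∩ ⋂ i ∈ {i ∈ S | y₀ ∈ G i ∧ k ≤ i.1}, G i
  have hFk : ∀ k, IsClosed (Fk k) := fun k => hF.inter (isClosed_biInter fun i _ => hG i)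
  have claim : ∀ k x, IsClosed (Fk k ∩ W x) := by
    intro k x
    rw [← isOpen_compl_iff, isOpen_iff_mem_nhds]
    intro y hy
    by_cases hyk : y ∈ Fk k
    swap
    · exact mem_of_superset ((hFk k).isOpen_compl.mem_nhds hyk) fun z hz h => hz h.1
    have hyx : y ∉ W x := fun h => hy ⟨hyk, h⟩
    have hP : (⋃ n ∈ Iio x, ⋃ t ∈ {t | y ∈ Q W n t},
        {p | y ∉ U (2 * Nat.pair n t + 1) p}).Finite := by
      refine (finite_Iio x).biUnion fun n _ => (finite_Q W n y).biUnion fun t _ => ?_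
      have := hγ (2 * Nat.pair n t + 1) y hyk.1
      rwa [← Nat.cofinite_eq_atTop, eventually_cofinite] at this
    obtain ⟨N, hN⟩ := hP.bddAbove
    obtain ⟨e, he, he'⟩ := pick hS (sep_subset _ _) h0 (max N k)
    have hC : IsClosed (Core (W x) e.1 ∪
        ⋃ c ∈ {c ∈ Iio e.1 | c.unpair.1 < x}, A c (e.1 + e.2)) :=
      (isClosed_Core _ _).union (((finite_Iio _).subset (sep_subset _ _)).isClosed_biUnion
        fun c _ => hA _ _)
    refine mem_of_superset (hC.isOpen_compl.mem_nhds ?_) fun z hz h => hz ?_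
    · rintro (h | h)
      · exact hyx (Core_subset _ _ h)
      · obtain ⟨c, hc, h1, h2⟩ := mem_iUnion₂.1 h
        have : e.1 + e.2 ≤ N := hN (mem_iUnion₂.2 ⟨c.unpair.1, hc.2, mem_iUnion₂.2
          ⟨c.unpair.2, h1, by simpa only [Nat.pair_unpair, mem_ofPred_eq] using h2.2⟩⟩)
        have := le_max_left N k
        omega
    · obtain ⟨c, hc, h1⟩ := mem_iUnion₂.1
        (mem_iInter₂.1 h.1.2 e ⟨he.1, he.2, ((le_max_right N k).trans he'.le)⟩)
      by_cases hcx : c.unpair.1 < x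
      · exact Or.inr (mem_iUnion₂.2 ⟨c, ⟨hc, hcx⟩, h1⟩)
      · refine Or.inl (Core_mono _ ((Nat.unpair_right_le c).trans (le_of_lt hc)) ?_)
        exact (mem_iInter₂.1 h1.1.1 x (not_lt.1 hcx)).resolve_right fun h' => h' h.2
  choose g hg using fun k => cover_clopen (U := fun a b => U (2 * Nat.pair k a) b) H (hFk k)
    (fun _ _ => hU _ _)
    (fun a b => by simpa only [W, Nat.unpair_pair] using claim k (Nat.pair (Nat.pair k a) b))
    fun a y hy => hγ _ y hy.1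
  obtain ⟨y, hy, h1, h2⟩ := key _ (sep_subset _ _) (hT.1 y₀ trivial)
    fun a => g a.unpair.1 a.unpair.2
  have h3 := (hT.2 y₀ trivial y trivial).resolve_left fun h =>
    h1 (h.subset fun i hi => ⟨hi.1.1, hi.1.2, fun h' => h' hi.2⟩)
  obtain ⟨N, hN⟩ := (h3.image Prod.fst).bddAbove
  obtain ⟨a, ha⟩ := hg (N + 1) y ⟨hy, mem_iInter₂.2 fun i hi => by
    by_contra h
    have : i.1 ≤ N := hN ⟨i, ⟨hi.1, h, fun h' => h' hi.2.1⟩, rfl⟩
    have := hi.2.2
    omega⟩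
  exact h2 (Nat.pair (N + 1) a) (by simpa only [Nat.unpair_pair] using ha)

end ThmD

theorem cover_of_sfin_gamma_tau (X : Set ℝ) [Nonempty X]
    (h : SfinIn univ (GammaCovers X) (TauCovers X)) :
    S1In univ (GammaCovers X) (OpenCovers X) := by
  intro 𝒰 _ h𝒰
  have : Infinite X := by
    by_contra hX
    have := not_infinite_iff_finite.1 hX
    exact (h𝒰 0).2.1 (toFinite _)
  let e : ℕ → ℕ → Set X := fun n m => (h𝒰 n).2.1.natEmbedding _ m
  have he : ∀ n m, e n m ∈ 𝒰 n := fun n m => Subtype.coe_prop _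
  have hi : ∀ n, Function.Injective (e n) := fun n =>
    Subtype.val_injective.comp ((h𝒰 n).2.1.natEmbedding _).injective
  obtain ⟨g, hg⟩ := ThmD.cover (ThmD.hg_of_sfin h) univ isClosed_univ e
    (fun n m => (h𝒰 n).1.1 _ (he n m)) fun n x _ => by
    rw [← Nat.cofinite_eq_atTop, eventually_cofinite]
    exact (((h𝒰 n).2.2 x).preimage (hi n).injOn).subset fun m hm => ⟨he n m, hm⟩
  refine ⟨fun n => e n (g n), trivial, fun n => he n _, ?_⟩
  rw [← image_univ]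
  exact Ix.mem_cov (c := .O) (fun x hx => let ⟨m, hm⟩ := hg x hx; ⟨m, trivial, hm⟩)
    (fun m _ => (h𝒰 m).1.1 _ (he m _)) fun m _ e' => (h𝒰 m).1.2.2 (e' ▸ he m _)

end Pool.Agent.P.MP_b17faa_gt
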