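import Pool.Agent.P.MP_b17faa_gt.X1a

/-!
Sets of binary words containing large splitting patterns; scales and norms.
-/

namespace Pool.Agent.P.MP_b17faa_gt.X1

open Set Filter MeasureTheory Function
open scoped ENNReal

/-- nodes: binary words with the discrete topology -/
def Nd : Type := List Bool

instance : TopologicalSpace Nd := ⊥
instance : DiscreteTopology Nd := ⟨rfl⟩
instance : Countable Nd := inferInstanceAs (Countable (List Bool))
instance : Infinite Nd := inferInstanceAs (Infinite (List Bool))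
instance : MeasurableSpace Nd := ⊤
instance : MeasurableSingletonClass Nd := ⟨fun _ => trivial⟩

/-- initial segment -/
def Pre (s t : Nd) : Prop := List.IsPrefix (α := Bool) s t

/-- a successor of a node -/
def Nd.snoc (s : Nd) (b : Bool) : Nd := List.concat (α := Bool) s b

/-- the root -/
def root : Nd := ([] : List Bool)

theorem Pre.refl (s : Nd) : Pre s s := List.prefix_refl _

theorem Pre.trans {s t r : Nd} (h : Pre s t) (h' : Pre t r) : Pre s r := List.IsPrefix.trans h h'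

theorem pre_snoc (s : Nd) (b : Bool) : Pre s (s.snoc b) := ⟨[b], List.concat_eq_append.symm⟩

theorem root_pre (s : Nd) : Pre root s := List.nil_prefix

theorem not_both (s t : Nd) : ¬ (Pre (s.snoc false) t ∧ Pre (s.snoc true) t) := by
  have : ∀ s t : List Bool, ¬ (s.concat false <+: t ∧ s.concat true <+: t) := by
    rintro s t ⟨h1, h2⟩
    simpa using (List.prefix_of_prefix_length_le h1 h2 (by simp)).eq_of_length (by simp)
  exact this s t

theorem length_snoc (s : Nd) (b : Bool) :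
    List.length (α := Bool) (s.snoc b) = List.length (α := Bool) s + 1 := List.length_concat

/-- `S` contains a splitting pattern of height `d` above `t` -/
def Big : ℕ → Nd → Set Nd → Prop
  | 0, _, _ => True
  | d + 1, t, S => ∃ s ∈ S, Pre t s ∧ Big d (s.snoc false) S ∧ Big d (s.snoc true) S

theorem Big.mono {d : ℕ} {t : Nd} {S S' : Set Nd} (h : Big d t S) (h' : S ⊆ S') : Big d t S' := by
  induction d generalizing t with
  | zero => trivial
  | succ d ih =>
    obtain ⟨s, h1, h2, h3, h4⟩ := h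
    exact ⟨s, h' h1, h2, ih h3, ih h4⟩

theorem Big.down {d : ℕ} {t t' : Nd} {S : Set Nd} (h : Big d t S) (h' : Pre t' t) :
    Big d t' S := by
  cases d with
  | zero => trivial
  | succ d =>
    obtain ⟨s, h1, h2, h3⟩ := h
    exact ⟨s, h1, h'.trans h2, h3⟩

theorem Big.pred {d : ℕ} {t : Nd} {S : Set Nd} (h : Big (d + 1) t S) : Big d t S := by
  induction d generalizing t with
  | zero => trivial
  | succ d ih =>
    obtain ⟨s, h1, h2, h3, h4⟩ := h
    exact ⟨s, h1, h2, ih h3, ih h4⟩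

theorem Big.le {d d' : ℕ} {t : Nd} {S : Set Nd} (h : Big d t S) (h' : d' ≤ d) : Big d' t S := by
  induction h' with
  | refl => exact h
  | step _ ih => exact ih h.pred

theorem Big.cone {d : ℕ} {t : Nd} {S : Set Nd} (h : Big d t S) : Big d t (S ∩ {s | Pre t s}) := by
  induction d generalizing t with
  | zero => trivial
  | succ d ih =>
    obtain ⟨s, h1, h2, h3, h4⟩ := h
    exact ⟨s, ⟨h1, h2⟩, h2,
      (ih h3).mono fun _ hc => ⟨hc.1, h2.trans ((pre_snoc _ _).trans hc.2)⟩,
      (ih h4).mono fun _ hc => ⟨hc.1, h2.trans ((pre_snoc _ _).trans hc.2)⟩⟩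

theorem Big.low {a b : ℕ} {t : Nd} {C : Set Nd} (h : Big (b + a) t C) :
    Big a t {c ∈ C | Big b c C} := by
  induction a generalizing t with
  | zero => trivial
  | succ a ih =>
    obtain ⟨s, h1, h2, h3, h4⟩ := h
    exact ⟨s, ⟨h1, Big.le (d := b + a + 1) ⟨s, h1, Pre.refl _, h3, h4⟩ (by omega)⟩, h2,
      ih h3, ih h4⟩

theorem Big.two {t : Nd} {C : Set Nd} (h : Big 2 t C) :
    ∃ c : Bool → Nd, (∀ b, c b ∈ C) ∧ ∀ r, ¬ (Pre (c false) r ∧ Pre (c true) r) := by
  obtain ⟨s, -, -, ⟨s0, h1, h2, -⟩, s1, h3, h4, -⟩ := h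
  refine ⟨fun b => bif b then s1 else s0, fun b => by cases b <;> assumption, fun r hr => ?_⟩
  exact not_both s r ⟨h2.trans hr.1, h4.trans hr.2⟩

theorem Big.density {d : ℕ} {t : Nd} {C : Set Nd} (h : Big d t C) :
    ∃ w : Measure Nd, w univ = (d * 2 ^ d : ℕ) ∧ w Cᶜ = 0 ∧
      ∀ S r, ¬ Big (r + 1) t S → w S ≤ (2 * r * 2 ^ d : ℕ) := by
  induction d generalizing t with
  | zero => exact ⟨0, by simp, rfl, fun _ _ _ => by simp⟩
  | succ d ih =>
    obtain ⟨s, h1, h2, h3, h4⟩ := h
    obtain ⟨w0, a1, a2, a3⟩ := ih h3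
    obtain ⟨w1, b1, b2, b3⟩ := ih h4
    have ev : ∀ S : Set Nd, (((2 ^ (d + 1) : ℕ) : ℝ≥0∞) • Measure.dirac s + (w0 + w1)) S =
        (2 ^ (d + 1) : ℕ) * S.indicator 1 s + (w0 S + w1 S) := fun S => by
      simp
    refine ⟨((2 ^ (d + 1) : ℕ) : ℝ≥0∞) • Measure.dirac s + (w0 + w1), ?_, ?_, fun S r hS => ?_⟩
    · rw [ev, a1, b1, indicator_univ, Pi.one_apply, mul_one]
      norm_cast
      ring
    · rw [ev, a2, b2, indicator_of_notMem (not_not.2 h1)]
      simp
    · have c0 := a3 S r fun h => hS (h.down (h2.trans (pre_snoc _ _)))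
      have c1 := b3 S r fun h => hS (h.down (h2.trans (pre_snoc _ _)))
      rw [ev]
      by_cases hs : s ∈ S
      · rw [indicator_of_mem hs, Pi.one_apply, mul_one]
        cases r with
        | zero => exact absurd ⟨s, hs, h2, trivial, trivial⟩ hS
        | succ r =>
          have : w0 S + w1 S ≤ (2 * r * 2 ^ d : ℕ) + (2 * (r + 1) * 2 ^ d : ℕ) := by
            by_cases h0 : Big (r + 1) (s.snoc false) S
            · rw [add_comm]
              exact add_le_add (b3 S r fun h => hS ⟨s, hs, h2, h0, h⟩) c0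
            · exact add_le_add (a3 S r h0) c1
          refine (add_le_add le_rfl this).trans (le_of_eq ?_)
          norm_cast
          ring
      · rw [indicator_of_notMem hs, mul_zero, zero_add]
        refine (add_le_add c0 c1).trans (le_of_eq ?_)
        norm_cast
        ring

/-- a large part of a set with a high pattern contains a high pattern -/
theorem Big.prob {M e : ℕ} (hM : 0 < M) (he : 0 < e) {C : Set Nd} (h : Big (4 * M * e) root C) :
    ∃ ν : Measure Nd, IsProbabilityMeasure ν ∧ ν Cᶜ = 0 ∧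
      ∀ S, ((2 * M : ℕ) : ℝ≥0∞)⁻¹ ≤ ν S → Big e root (S ∩ C) := by
  obtain ⟨w, h1, h2, h3⟩ := h.density
  set d := 4 * M * e with hd
  have h0 : ((d * 2 ^ d : ℕ) : ℝ≥0∞) ≠ 0 := by
    rw [Nat.cast_ne_zero]
    positivity
  refine ⟨((d * 2 ^ d : ℕ) : ℝ≥0∞)⁻¹ • w, ⟨?_⟩, by simp [h2], fun S hS => ?_⟩
  · rw [Measure.smul_apply, h1, smul_eq_mul, ENNReal.inv_mul_cancel h0 (ENNReal.natCast_ne_top _)]
  by_contra hc
  obtain ⟨r, rfl⟩ := Nat.exists_eq_succ_of_ne_zero he.ne'
  have h4 : w S ≤ (2 * r * 2 ^ d : ℕ) := by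
    refine le_trans ?_ (h3 _ r hc)
    calc w S ≤ w (S ∩ C ∪ Cᶜ) := measure_mono fun c hc => by
          by_cases h : c ∈ C
          exacts [Or.inl ⟨hc, h⟩, Or.inr h]
      _ ≤ w (S ∩ C) + w Cᶜ := measure_union_le _ _
      _ = _ := by rw [h2, add_zero]
  rw [Measure.smul_apply, smul_eq_mul] at hS
  have h5 := hS.trans (mul_le_mul_right h4 _)
  rw [← ENNReal.div_eq_inv_mul, ENNReal.le_div_iff_mul_le (Or.inl h0)
    (Or.inl (ENNReal.natCast_ne_top _)), ← ENNReal.div_eq_inv_mul,
    ENNReal.div_le_iff (by rw [Nat.cast_ne_zero]; positivity) (ENNReal.natCast_ne_top _)] at h5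
  have h6 : d * 2 ^ d ≤ 2 * r * 2 ^ d * (2 * M) := by exact_mod_cast h5
  have : 0 < M * 2 ^ d := by positivity
  rw [show d * 2 ^ d = 4 * (r + 1) * (M * 2 ^ d) by
      rw [show d * 2 ^ d = 4 * M * (r + 1) * 2 ^ d from rfl]; ring,
    show 2 * r * 2 ^ d * (2 * M) = 4 * r * (M * 2 ^ d) by ring] at h6
  have := Nat.le_of_mul_le_mul_right h6 this
  omega

/-- all nodes up to a given height -/
noncomputable def lev (H : ℕ) : Finset Nd := (List.finite_length_le Bool H).toFinset

theorem mem_lev {H : ℕ} {t : Nd} : t ∈ lev H ↔ List.length (α := Bool) t ≤ H :=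
  Finite.mem_toFinset _

theorem big_lev {d H : ℕ} {t : Nd} (h : List.length (α := Bool) t + d ≤ H) :
    Big d t (lev H) := by
  induction d generalizing t with
  | zero => trivial
  | succ d ih =>
    refine ⟨t, mem_lev.2 (by omega), Pre.refl _, ih ?_, ih ?_⟩ <;> rw [length_snoc] <;> omega

/-- the scales -/
noncomputable def M : ℕ → ℕ
  | 0 => 2
  | i + 1 => M i * 4 * 2 ^ (lev ((4 * M i) ^ (i + 1))).card

/-- the finite trees -/
noncomputable def T (i : ℕ) : Finset Nd := lev ((4 * M i) ^ (i + 1))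

theorem M_pos (i : ℕ) : 0 < M i := by
  induction i with
  | zero => simp [M]
  | succ i ih =>
    rw [M]
    positivity

/-- the norm of `C` at coordinate `i` is at least `m` -/
def Nor (i m : ℕ) (C : Set Nd) : Prop := Big ((4 * M i) ^ m) root C

theorem Nor.le {i m m' : ℕ} {C : Set Nd} (h : Nor i m C) (h' : m' ≤ m) : Nor i m' C :=
  Big.le h (Nat.pow_le_pow_right (by have := M_pos i; omega) h')

theorem nor_T {i m : ℕ} (h : m ≤ i + 1) : Nor i m (T i) :=
  Nor.le (big_lev (by simp [root])) h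

theorem Nor.two {i : ℕ} {C : Set Nd} (h : Nor i 1 C) :
    ∃ c : Bool → Nd, (∀ b, c b ∈ C) ∧ ∀ r, ¬ (Pre (c false) r ∧ Pre (c true) r) :=
  (Big.le h (by have := M_pos i; rw [pow_one]; omega)).two

theorem Nor.low {i m : ℕ} {C : Set Nd} (h : Nor i (m + 1) C) :
    Nor i m {c ∈ C | Big ((4 * M i) ^ m) c C} := by
  refine Big.low (Big.le h ?_)
  have := M_pos i
  rw [pow_succ]
  nlinarith [Nat.zero_le ((4 * M i) ^ m)]

theorem Nor.prob {i m : ℕ} {C : Set Nd} (h : Nor i (m + 1) C) :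
    ∃ ν : Measure Nd, IsProbabilityMeasure ν ∧ ν Cᶜ = 0 ∧
      ∀ S, ((2 * M i : ℕ) : ℝ≥0∞)⁻¹ ≤ ν S → Nor i m (S ∩ C) :=
  Big.prob (M_pos i) (by have := M_pos i; positivity) (by rw [← pow_succ']; exact h)

theorem diag {Q : ℕ → ℕ → Prop} (h : ∀ r, ∀ᶠ i in atTop, Q r i) :
    ∃ ρ : ℕ → ℕ, Tendsto ρ atTop atTop ∧ ∀ᶠ i in atTop, Q (ρ i) i := by
  classical
  choose N hN using fun r => eventually_atTop.1 (h r)
  refine ⟨fun i => Nat.findGreatest (fun r => N r ≤ i) i, tendsto_atTop.2 fun r => ?_, ?_⟩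
  · filter_upwards [eventually_ge_atTop r, eventually_ge_atTop (N r)] with i h1 h2
    exact Nat.le_findGreatest h1 h2
  · filter_upwards [eventually_ge_atTop (N 0)] with i h1
    exact hN _ _ (Nat.findGreatest_spec (P := fun r => N r ≤ i) (Nat.zero_le i) h1)

theorem col (n : ℕ) : Tendsto (Nat.pair n) atTop atTop :=
  tendsto_atTop_mono (Nat.right_le_pair n) tendsto_id

end Pool.Agent.P.MP_b17faa_gt.X1
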