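import Pool.Agent.P.MP_b17faa_gt.Index
import Pool.Agent.P.MP_b17faa_gt.X1b

/-!
Countably closed approximations of a set with `S₁(Γ, Γ)` but neither `S₁(T, O)` nor
`S_fin(T, Ω)`.
-/

namespace Pool.Agent.P.MP_b17faa_gt.X1

open Set Filter MeasureTheory Function Nat

/-- conditions: a countable set of points and a large side condition at each coordinate -/
structure Cond where
  A : Set (ℕ → Nd)
  C : ℕ → Set Nd
  cnt : A.Countable
  tv : ∀ x ∈ A, ∀ i, x i ∈ T i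
  sub : ∀ i, C i ⊆ T i
  nor : ∀ m, ∀ᶠ i in atTop, Nor i m (C i)
  ext : ∀ a ∈ A, ∀ n, ∀ᶠ k in atTop, ∀ c ∈ C (pair n k), Pre (a (pair n k)) c
  lin : ∀ a ∈ A, ∀ b ∈ A, ∀ n, (∀ᶠ k in atTop, Pre (a (pair n k)) (b (pair n k))) ∨
    ∀ᶠ k in atTop, Pre (b (pair n k)) (a (pair n k))

instance : Preorder Cond where
  le q p := p.A ⊆ q.A ∧ (∀ᶠ i in atTop, q.C i ⊆ p.C i) ∧
    ∀ x ∈ q.A, x ∉ p.A → ∀ᶠ i in atTop, x i ∈ p.C i
  le_refl _ := ⟨Subset.rfl, .of_forall fun _ => Subset.rfl, fun _ h h' => absurd h h'⟩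
  le_trans r q p h h' := by
    refine ⟨h'.1.trans h.1, ?_, fun x hx hp => ?_⟩
    · filter_upwards [h.2.1, h'.2.1] with i h1 h2 using h1.trans h2
    · by_cases hq : x ∈ q.A
      · exact h'.2.2 x hq hp
      · filter_upwards [h.2.2 x hx hq, h'.2.1] with i h1 h2 using h2 h1

instance : Nonempty Cond :=
  ⟨⟨∅, fun i => T i, countable_empty, by simp, fun _ => Subset.rfl,
    fun m => (eventually_ge_atTop m).mono fun _ h => nor_T (h.trans (le_succ _)), by simp, by simp⟩⟩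

theorem closed (s : ℕ → Cond) (hs : Antitone s) : ∃ q, ∀ n, q ≤ s n := by
  obtain ⟨ρ, h1, h2⟩ := diag (Q := fun r i => Nor i r ((s r).C i) ∧
      ∀ r' ∈ Iic r, (s r).C i ⊆ (s r').C i) fun r =>
    ((s r).nor r).and ((eventually_all_finite (finite_Iic r)).2 fun r' h => (hs h).2.1)
  have h3 : ∀ r, ∀ᶠ i in atTop, (s (ρ i)).C i ⊆ (s r).C i := fun r => by
    filter_upwards [h2, h1.eventually_ge_atTop r] with i a1 a2 using a1.2 r a2
  refine ⟨⟨⋃ n, (s n).A, fun i => (s (ρ i)).C i, countable_iUnion fun n => (s n).cnt, ?_,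
    fun i => (s _).sub i, fun m => ?_, ?_, ?_⟩, fun n => ⟨subset_iUnion (fun n => (s n).A) n,
      h3 n, ?_⟩⟩
  · rintro x ⟨_, ⟨n, rfl⟩, hx⟩
    exact (s n).tv x hx
  · filter_upwards [h2, h1.eventually_ge_atTop m] with i a1 a2 using a1.1.le a2
  · rintro x ⟨_, ⟨r, rfl⟩, hx⟩ n
    filter_upwards [(s r).ext x hx n, (col n).eventually (h3 r)] with k a1 a2 c hc
    exact a1 c (a2 hc)
  · rintro x ⟨_, ⟨r, rfl⟩, hx⟩ y ⟨_, ⟨r', rfl⟩, hy⟩
    exact (s (max r r')).lin x ((hs (le_max_left _ _)).1 hx) y ((hs (le_max_right _ _)).1 hy)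
  · rintro x ⟨_, ⟨r, rfl⟩, hx⟩ hn
    exact (hs (le_max_left n r)).2.2 x ((hs (le_max_right n r)).1 hx) hn

/-- adding points -/
theorem add (p : Cond) : ∃ L : ℕ → Set Nd, (∀ i, L i ⊆ p.C i) ∧
    (∀ m, ∀ᶠ i in atTop, Nor i m (L i)) ∧ ∀ x y : ℕ → Nd, (∀ i, x i ∈ T i) → (∀ i, y i ∈ T i) →
      (∀ᶠ i in atTop, x i ∈ L i) → (∀ᶠ i in atTop, y i ∈ L i) →
      (∀ n, ∀ᶠ k in atTop, x (pair n k) = y (pair n k)) → ∃ q ≤ p, x ∈ q.A ∧ y ∈ q.A := by
  classical
  obtain ⟨ρ, h1, h2⟩ := diag (Q := fun r i => Nor i (r + 1) (p.C i)) fun r => p.nor _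
  set L : ℕ → Set Nd := fun i => {c ∈ p.C i | Big ((4 * M i) ^ ρ i) c (p.C i)}
  refine ⟨L, fun i => sep_subset _ _, fun m => ?_, fun x y x1 y1 x2 y2 h => ?_⟩
  · filter_upwards [h2, h1.eventually_ge_atTop m] with i a1 a2 using a1.low.le a2
  set C : ℕ → Set Nd := fun i => if x i ∈ L i then p.C i ∩ {c | Pre (x i) c} else p.C i
  have hC : ∀ i, C i ⊆ p.C i := fun i => by
    simp only [C]
    split_ifs
    exacts [inter_subset_left, Subset.rfl]
  have hx : ∀ n, ∀ᶠ k in atTop, ∀ z ∈ ({x, y} : Set (ℕ → Nd)), z (pair n k) = x (pair n k) := by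
    intro n
    filter_upwards [h n] with k hk
    rintro z (rfl | rfl)
    exacts [rfl, hk.symm]
  have old : ∀ a ∈ p.A, ∀ z ∈ ({x, y} : Set (ℕ → Nd)), ∀ n,
      ∀ᶠ k in atTop, Pre (a (pair n k)) (z (pair n k)) := fun a ha z hz n => by
    filter_upwards [p.ext a ha n, hx n, (col n).eventually x2] with k a1 a2 a3
    exact a2 z hz ▸ a1 _ a3.1
  refine ⟨⟨p.A ∪ {x, y}, C, p.cnt.union (toFinite _).countable, ?_,
    fun i => (hC i).trans (p.sub i), fun m => ?_, ?_, ?_⟩,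
    ⟨subset_union_left, .of_forall hC, ?_⟩, Or.inr (Or.inl rfl), Or.inr (Or.inr rfl)⟩
  · rintro z (hz | rfl | rfl)
    exacts [p.tv z hz, x1, y1]
  · filter_upwards [x2, h1.eventually_ge_atTop m] with i a1 a2
    simp only [C, if_pos a1]
    exact Nor.le (m := ρ i) (a1.2.cone.down (root_pre _)) a2
  · rintro z (hz | hz) n
    · filter_upwards [p.ext z hz n] with k a1 c hc using a1 c (hC _ hc)
    · filter_upwards [hx n, (col n).eventually x2] with k a1 a2 c hc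
      simp only [C, if_pos a2] at hc
      exact a1 z hz ▸ hc.2
  · rintro z (hz | hz) w (hw | hw) n
    · exact p.lin z hz w hw n
    · exact Or.inl (old z hz w hw n)
    · exact Or.inr (old w hw z hz n)
    · refine Or.inl ((hx n).mono fun k a1 => ?_)
      rw [a1 z hz, a1 w hw]
      exact Pre.refl _
  · rintro z (hz | rfl | rfl) hz'
    · exact absurd hz hz'
    · exact x2.mono fun _ h => h.1
    · exact y2.mono fun _ h => h.1

/-- adding points along a choice between two incompatible nodes at each coordinate -/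
theorem two (p : Cond) : ∃ c : ℕ → Bool → Nd,
    (∀ i r, ¬ (Pre (c i false) r ∧ Pre (c i true) r)) ∧ ∀ σ τ : ℕ → Bool,
      (∀ n, ∀ᶠ k in atTop, σ (pair n k) = τ (pair n k)) →
      ∃ q ≤ p, (fun i => c i (σ i)) ∈ q.A ∧ (fun i => c i (τ i)) ∈ q.A := by
  obtain ⟨L, h1, h2, h3⟩ := add p
  have : ∀ i, ∃ c : Bool → Nd, (∀ r, ¬ (Pre (c false) r ∧ Pre (c true) r)) ∧
      (∀ b, c b ∈ T i) ∧ (Nor i 1 (L i) → ∀ b, c b ∈ L i) := fun i => by
    by_cases h : Nor i 1 (L i)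
    · obtain ⟨c, a1, a2⟩ := h.two
      exact ⟨c, a2, fun b => p.sub i (h1 i (a1 b)), fun _ => a1⟩
    · obtain ⟨c, a1, a2⟩ := (nor_T (i := i) (m := 1) (by omega)).two
      exact ⟨c, a2, a1, fun h' => absurd h' h⟩
  choose c a1 a2 a3 using this
  exact ⟨c, a1, fun σ τ h => h3 _ _ (fun i => a2 i _) (fun i => a2 i _)
    ((h2 1).mono fun i hi => a3 i hi _) ((h2 1).mono fun i hi => a3 i hi _)
    fun n => (h n).mono fun k hk => by rw [hk]⟩

/-- the approximations -/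
def apx : Approx Cond (ℕ → Nd) where
  pt := Cond.A
  countable := Cond.cnt
  anti _ _ h := h.1
  closed := closed
  nonempty p := by
    obtain ⟨c, -, h⟩ := two p
    obtain ⟨q, h1, h2, -⟩ := h (fun _ => true) (fun _ => true)
      fun _ => .of_forall fun _ => rfl
    exact ⟨q, h1, _, h2⟩

theorem pos : apx.Pos1 .G .G := by
  intro u p hu
  obtain ⟨L, h1, h2, h3⟩ := add p
  obtain ⟨ρ, r1, r2⟩ := diag (Q := fun r i => Nor i (r + 1) (L i)) fun r => h2 _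
  have : ∀ i, ∃ ν : Measure Nd, IsProbabilityMeasure ν ∧ ν (↑(T i))ᶜ = 0 ∧
      (Nor i (ρ i + 1) (L i) → ν (L i)ᶜ = 0 ∧
        ∀ S, ((2 * M i : ℕ) : ENNReal)⁻¹ ≤ ν S → Nor i (ρ i) (S ∩ L i)) := fun i => by
    by_cases h : Nor i (ρ i + 1) (L i)
    · obtain ⟨ν, a1, a2, a3⟩ := h.prob
      exact ⟨ν, a1, measure_mono_null (compl_subset_compl.2 ((h1 i).trans (p.sub i))) a2,
        fun _ => ⟨a2, a3⟩⟩
    · obtain ⟨ν, a1, a2, -⟩ := (nor_T (i := i) (m := 0 + 1) (by omega)).prob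
      exact ⟨ν, a1, a2, fun h' => absurd h' h⟩
  choose ν a1 a2 a3 using this
  obtain ⟨e, he⟩ := countable_iff_exists_injOn.1 p.cnt
  have cof : ∀ q ≤ p, ∀ x ∈ q.A, ∀ m, ∀ᶠ j in atTop, x ∈ u m j := fun q hq x hx m => by
    rw [← Nat.cofinite_eq_atTop]
    simpa using (hu.ix q hq m).2 x hx
  obtain ⟨f, D, b1, b2, b3⟩ := egorov ν T a2 M rfl M_pos (fun _ => rfl) L
    (r2.mono fun i hi => (a3 i hi).1) u hu.isOpen
    (fun x c1 c2 => by
      obtain ⟨q, hq, hx, -⟩ := h3 x x c1 c1 c2 c2 fun _ => .of_forall fun _ => rfl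
      exact cof q hq x hx)
    (fun m j => ∀ x ∈ p.A ∩ e ⁻¹' Iic m, x ∈ u m j)
    fun m => (eventually_all_finite (Finite.of_finite_image
      ((finite_Iic m).subset (image_subset_iff.2 inter_subset_right))
        (he.mono inter_subset_left))).2 fun x hx => cof p le_rfl x hx.1 m
  have hC : ∀ i, ↑(D i) ∩ L i ⊆ p.C i := fun i => inter_subset_right.trans (h1 i)
  refine ⟨⟨p.A, fun i => ↑(D i) ∩ L i, p.cnt, p.tv, fun i => (hC i).trans (p.sub i), fun m => ?_,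
    fun a ha n => (p.ext a ha n).mono fun k hk c hc => hk c (hC _ hc), p.lin⟩,
    ⟨Subset.rfl, .of_forall hC, fun _ h h' => absurd h h'⟩, f, fun r hr => ⟨infinite_univ, ?_⟩⟩
  · filter_upwards [r2, r1.eventually_ge_atTop m] with i c1 c2
    exact ((a3 i c1).2 _ (b2 i)).le c2
  intro x hx
  have : ∀ᶠ m in atTop, x ∈ u m (f m) := by
    by_cases hp : x ∈ p.A
    · exact (eventually_ge_atTop (e x)).mono fun m hm => b1 m x ⟨hp, hm⟩
    · exact b3 x (r.tv x hx) ((hr.2.2 x hx hp).mono fun _ h => h.1)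
  rw [← Nat.cofinite_eq_atTop] at this
  simpa using this

/-- the bad covers -/
def bad (e : ℕ ≃ ℕ × Nd) (n j : ℕ) : Set (ℕ → Nd) :=
  {x | Pre (x (pair n (e j).1)) (e j).2 ∧ (e j).2 ∈ T (pair n (e j).1)}

theorem input (e : ℕ ≃ ℕ × Nd) (p : Cond) : apx.Input .T (bad e) p where
  isOpen n j := (isOpen_discrete {c | Pre c (e j).2 ∧ (e j).2 ∈ T (pair n (e j).1)}).preimage
    (continuous_apply (A := fun _ : ℕ => Nd) (pair n (e j).1))
  proper q _ n j := by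
    obtain ⟨c, h1, h2⟩ := two q
    obtain ⟨b, hb⟩ : ∃ b, ¬ Pre (c (pair n (e j).1) b) (e j).2 := by
      by_contra hc
      push Not at hc
      exact h1 _ _ ⟨hc _, hc _⟩
    obtain ⟨r, a1, a2, -⟩ := h2 (fun _ => b) (fun _ => b) fun _ => .of_forall fun _ => rfl
    exact ⟨r, a1, fun h => hb (h a2).1⟩
  ix q _ n := by
    have fin : ∀ x y : ℕ → Nd, (∀ᶠ k in atTop, Pre (y (pair n k)) (x (pair n k))) →
        {j ∈ (univ : Set ℕ) | x ∈ bad e n j ∧ y ∉ bad e n j}.Finite := fun x y h => by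
      obtain ⟨k0, hk⟩ := eventually_atTop.1 h
      refine (((finite_Iio k0).biUnion fun k _ =>
        (finite_singleton k).prod (T (pair n k)).finite_toSet).preimage
          e.injective.injOn).subset fun j hj => ?_
      refine mem_biUnion (x := (e j).1) ?_ ⟨rfl, hj.2.1.2⟩
      by_contra hc
      exact hj.2.2 ⟨(hk _ (not_lt.1 hc)).trans hj.2.1.1, hj.2.1.2⟩
    refine ⟨fun x hx => ?_, fun x hx y hy => (q.lin y hy x hx n).imp (fin x y) (fin y x)⟩
    refine infinite_of_injective_forall_mem (f := fun k => e.symm (k, x (pair n k)))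
      (fun a b h => congrArg Prod.fst (e.symm.injective h)) fun k => ⟨trivial, ?_⟩
    simpa [bad] using ⟨Pre.refl _, q.tv x hx _⟩

theorem neg1 (e : ℕ ≃ ℕ × Nd) : apx.Neg1 .T .O := by
  refine ⟨bad e, input e, fun S hS p => ?_⟩
  obtain ⟨c, h1, h2⟩ := two p
  have : ∀ i, ∃ b, ∀ n j, (n, j) ∈ S → pair n (e j).1 = i → ¬ Pre (c i b) (e j).2 := fun i => by
    by_contra hc
    push Not at hc
    obtain ⟨n, j, a1, a2, a3⟩ := hc false
    obtain ⟨n', j', b1, b2, b3⟩ := hc true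
    obtain rfl : n = n' := (pair_eq_pair.1 (a2.trans b2.symm)).1
    obtain rfl : j = j' := hS n a1 b1
    exact h1 _ _ ⟨a3, b3⟩
  choose σ hσ using this
  obtain ⟨q, a1, a2, -⟩ := h2 σ σ fun _ => .of_forall fun _ => rfl
  refine ⟨q, a1, fun h => ?_⟩
  obtain ⟨⟨n, j⟩, b1, b2⟩ := h _ a2
  exact hσ _ n j b1 rfl b2.1

theorem negFin (e : ℕ ≃ ℕ × Nd) : apx.NegFin .T .Om := by
  classical
  refine ⟨bad e, input e, fun S hS p => ?_⟩
  obtain ⟨c, h1, h2⟩ := two p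
  obtain ⟨q, a1, a2, a3⟩ := h2 (fun _ => false)
    (fun i => decide (∃ n j, (n, j) ∈ S ∧ pair n (e j).1 = i)) fun n => by
      rw [← Nat.cofinite_eq_atTop]
      refine ((hS n).image fun j => (e j).1).subset fun k hk => ?_
      obtain ⟨n', j, b1, b2⟩ : ∃ n' j, (n', j) ∈ S ∧ pair n' (e j).1 = pair n k := by
        by_contra hc
        exact hk (decide_eq_false hc).symm
      obtain ⟨rfl, b3⟩ := pair_eq_pair.1 b2
      exact ⟨j, b1, b3⟩
  refine ⟨q, a1, fun h => ?_⟩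
  obtain ⟨⟨n, j⟩, b1, b2⟩ := h _ (pair_subset a2 a3) (toFinite _)
  have b3 : Pre (c (pair n (e j).1)
      (decide (∃ n' j', (n', j') ∈ S ∧ pair n' (e j').1 = pair n (e j).1))) (e j).2 :=
    (b2 (mem_insert_of_mem _ rfl)).1
  rw [decide_eq_true ⟨n, j, b1, rfl⟩] at b3
  exact h1 _ _ ⟨(b2 (mem_insert _ _)).1, b3⟩

theorem exists_X1 : ∃ (P : Type) (_ : Preorder P) (_ : Nonempty P) (a : Approx P (ℕ → Nd)),
    a.Pos1 .G .G ∧ a.Neg1 .T .O ∧ a.NegFin .T .Om := by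
  obtain ⟨e⟩ : Nonempty (ℕ ≃ ℕ × Nd) := nonempty_equiv_of_countable
  exact ⟨Cond, inferInstance, inferInstance, apx, pos, neg1 e, negFin e⟩

end Pool.Agent.P.MP_b17faa_gt.X1
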