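import Pool.Agent.P.MP_b17faa_gt.Index

/-!
The example `X2`: a Sierpinski set with a bad square. It satisfies `S₁(T, Γ)` and fails
`S₁(O, O)` and `S_fin(Ω, Ω)`.
-/

namespace Pool.Agent.P.MP_b17faa_gt.X2

open Set Filter Function MeasureTheory Topology
open scoped ENNReal

/-- an almost total transitive relation has points which are below most points -/
theorem exists_small {Y : Type} [MeasurableSpace Y] (μ : Measure Y) [IsFiniteMeasure μ]
    {R : Y → Y → Prop} (hm : MeasurableSet {z : Y × Y | R z.1 z.2})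
    (ht : ∀ x y z, R x y → R y z → R x z) {G : Set Y} (hG : ∀ᵐ x ∂μ, x ∈ G) (hne : G.Nonempty)
    (h : ∀ x ∈ G, ∀ᵐ y ∂μ, R x y ∨ R y x) {ε : ℝ≥0∞} (hε : ε ≠ 0) :
    ∃ x ∈ G, μ {y | ¬ R x y} < ε := by
  by_contra hc
  push Not at hc
  set s := ⨅ x ∈ G, μ {y | ¬ R x y} with hs
  have s1 : ε ≤ s := le_iInf₂ hc
  have s2 : ∀ x ∈ G, s ≤ μ {y | ¬ R x y} := fun x hx => iInf₂_le x hx
  have s0 : s ≠ 0 := (hε.bot_lt.trans_le s1).ne'
  have s3 : s ≠ ∞ := let ⟨x, hx⟩ := hne; ((s2 x hx).trans_lt (measure_lt_top _ _)).ne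
  obtain ⟨x, hx, hA⟩ : ∃ x ∈ G, μ {y | ¬ R x y} < s + s := by
    have : s < s + s := ENNReal.lt_add_right s3 s0
    rw [hs] at this
    simpa only [iInf_lt_iff, exists_prop] using this
  set A := {y | ¬ R x y}
  have mA : MeasurableSet A := (measurable_prodMk_left hm).compl
  let T : Set (Y × Y) := A ×ˢ A ∩ {z | R z.1 z.2}ᶜ
  have mT : MeasurableSet T := (mA.prod mA).inter hm.compl
  have mT' : MeasurableSet (Prod.swap ⁻¹' T) := measurable_swap mT
  have h1 : s * μ A ≤ μ.prod μ T := by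
    rw [Measure.prod_apply mT, ← setLIntegral_const, ← lintegral_indicator mA]
    refine lintegral_mono_ae ?_
    filter_upwards [hG, h x hx] with y a1 a2
    by_cases hy : y ∈ A
    · rw [indicator_of_mem hy]
      exact (s2 y a1).trans (measure_mono fun z hz =>
        ⟨⟨hy, fun h' => hz (ht _ _ _ (a2.resolve_left hy) h')⟩, hz⟩)
    · rw [indicator_of_notMem hy]
      exact zero_le
  have h2 : μ.prod μ (Prod.swap ⁻¹' T) = μ.prod μ T :=
    Measure.measurePreserving_swap.measure_preimage mT.nullMeasurableSet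
  have h3 : μ.prod μ (T ∩ Prod.swap ⁻¹' T) = 0 := by
    rw [Measure.measure_prod_null (mT.inter mT')]
    filter_upwards [hG] with y hy
    refine measure_mono_null (fun z hz => ?_) (ae_iff.1 (h y hy))
    exact fun h' => Or.elim h' hz.1.2 hz.2.2
  have h4 : μ.prod μ (T ∪ Prod.swap ⁻¹' T) ≤ μ A * μ A := by
    rw [← Measure.prod_prod]
    exact measure_mono (union_subset inter_subset_left fun z hz => ⟨hz.1.2, hz.1.1⟩)
  have h5 := measure_union_add_inter (μ := μ.prod μ) T mT'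
  rw [h3, h2, add_zero] at h5
  have h6 : (s + s) * μ A ≤ μ A * μ A := by
    rw [add_mul]
    exact (add_le_add h1 h1).trans (h5 ▸ h4)
  exact absurd ((ENNReal.mul_le_mul_iff_left (s0.bot_lt.trans_le (s2 x hx)).ne'
    (measure_ne_top _ _)).1 h6) (not_le.2 hA)

/-- the Cantor group -/
abbrev Y : Type := ℕ → ZMod 2

/-- the Haar measure -/
noncomputable def mu : Measure Y := Measure.addHaarMeasure ⊤

instance : mu.IsAddHaarMeasure := Measure.isAddHaarMeasure_addHaarMeasure ⊤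

instance : IsProbabilityMeasure mu := ⟨Measure.addHaarMeasure_self (K₀ := ⊤)⟩

instance : (𝓝[≠] (0 : Y)).NeBot := by
  refine mem_closure_iff_nhdsWithin_neBot.1 (mem_closure_of_tendsto (b := atTop)
    (f := fun n => (Pi.single n 1 : Y)) (tendsto_pi_nhds.2 fun i => tendsto_const_nhds.congr' ?_)
    (Eventually.of_forall fun n h => ?_))
  · filter_upwards [eventually_gt_atTop i] with n hn
    simp [hn.ne]
  · simpa using congrFun h n

/-- a condition: a countable set of points which are far apart, and a null set -/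
structure Cond where
  C : Set Y
  N : Set Y
  cnt : C.Countable
  null : mu N = 0
  far : ∀ x ∈ C, ∀ y ∈ C, x ≠ y → {i | x i ≠ y i}.Infinite

instance : Preorder Cond where
  le q p := p.C ⊆ q.C ∧ p.N ⊆ q.N ∧ ∀ x ∈ q.C, x ∈ p.C ∨ x ∉ p.N
  le_refl p := ⟨Subset.rfl, Subset.rfl, fun _ h => Or.inl h⟩
  le_trans r q p h h' := ⟨h'.1.trans h.1, h'.2.1.trans h.2.1, fun x hx =>
    (h.2.2 x hx).elim (h'.2.2 x) fun h1 => Or.inr fun h2 => h1 (h'.2.1 h2)⟩

instance : Nonempty Cond := ⟨⟨∅, ∅, countable_empty, measure_empty, by simp⟩⟩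

/-- the points which can be added -/
def Cond.Ok (p : Cond) (x : Y) : Prop := x ∉ p.N ∧ ∀ c ∈ p.C, {i | x i ≠ c i}.Infinite

theorem ae_far (c : Y) : ∀ᵐ x ∂mu, {i | x i ≠ c i}.Infinite := by
  refine ae_iff.2 (Countable.measure_zero ?_ mu)
  refine (Countable.ofPred_finite.image fun (s : Set ℕ) i => c i + s.indicator 1 i).mono
    fun x hx => (mem_image _ _ _).2 ⟨{i | x i ≠ c i}, not_infinite.1 hx, funext fun i => ?_⟩
  by_cases h : x i = c i
  · simp [h]
  · have : ∀ a b : ZMod 2, a ≠ b → b + 1 = a := by decide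
    simp [h, this _ _ h]

theorem Cond.ae_ok (p : Cond) : ∀ᵐ x ∂mu, p.Ok x :=
  (measure_eq_zero_iff_ae_notMem.1 p.null).and ((ae_ball_iff p.cnt).2 fun c _ => ae_far c)

/-- adding a point -/
def Cond.add (p : Cond) (x : Y) (h : p.Ok x) : Cond where
  C := insert x p.C
  N := p.N
  cnt := p.cnt.insert x
  null := p.null
  far := by
    rintro y (rfl | hy) z (rfl | hz) h'
    · exact absurd rfl h'
    · exact h.2 z hz
    · simpa only [ne_comm] using h.2 y hy
    · exact p.far y hy z hz h'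

theorem Cond.add_le (p : Cond) (x : Y) (h : p.Ok x) : p.add x h ≤ p :=
  ⟨subset_insert _ _, Subset.rfl, by
    rintro y (rfl | hy)
    exacts [Or.inr h.1, Or.inl hy]⟩

theorem Cond.exists_pt (p : Cond) {W : Set Y} (h : mu W ≠ 0) : ∃ q ≤ p, ∃ x ∈ q.C, x ∈ W := by
  obtain ⟨x, h1, h2⟩ := Measure.exists_mem_of_measure_ne_zero_of_ae h (ae_restrict_of_ae p.ae_ok)
  exact ⟨p.add x h2, p.add_le x h2, x, mem_insert _ _, h1⟩

theorem Cond.exists_pt' (p : Cond) {W : Set Y} (h : mu W < 1) : ∃ q ≤ p, ∃ x ∈ q.C, x ∉ W := by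
  refine p.exists_pt (W := Wᶜ) fun h' => ?_
  have := measure_union_le (μ := mu) W Wᶜ
  rw [union_compl_self, h', add_zero, measure_univ] at this
  exact absurd h (not_lt.2 this)

/-- the approximations -/
def appr : Approx Cond Y where
  pt p := p.C
  countable p := p.cnt
  anti _ _ h := h.1
  closed s hs := by
    refine ⟨⟨⋃ n, (s n).C, ⋃ n, (s n).N, countable_iUnion fun n => (s n).cnt,
      measure_iUnion_null fun n => (s n).null, fun x hx y hy => ?_⟩, fun n =>
      ⟨subset_iUnion (fun n => (s n).C) n, subset_iUnion (fun n => (s n).N) n, fun x hx => ?_⟩⟩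
    · obtain ⟨n, hn⟩ := mem_iUnion.1 hx
      obtain ⟨m, hm⟩ := mem_iUnion.1 hy
      exact (s (max n m)).far x ((hs (le_max_left n m)).1 hn) y ((hs (le_max_right n m)).1 hm)
    · obtain ⟨m, hm⟩ := mem_iUnion.1 hx
      exact (hs (le_max_left n m)).2.2 x ((hs (le_max_right n m)).1 hm)
  nonempty p := let ⟨q, h1, x, h2, _⟩ := p.exists_pt' (W := ∅) (by simp); ⟨q, h1, x, h2⟩

theorem exists_large {p : Cond} {u : ℕ → Set Y} (ho : ∀ k, IsOpen (u k))
    (hu : ∀ q ≤ p, Ix .T q.C u univ) {F : Set Y} (hF : F ⊆ p.C) (hF' : F.Finite) {ε : ℝ≥0∞}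
    (hε : ε ≠ 0) : ∃ k, mu (u k)ᶜ ≤ ε ∧ F ⊆ u k := by
  let E : ℕ → Set (Y × Y) := fun K => ⋃ k ∈ Ici K, u k ×ˢ (u k)ᶜ
  have mE : ∀ K, MeasurableSet (E K) := fun K => MeasurableSet.biUnion (to_countable _)
    fun k _ => (ho k).measurableSet.prod (ho k).measurableSet.compl
  have key : ∀ x y, {i ∈ (univ : Set ℕ) | x ∈ u i ∧ y ∉ u i}.Finite ↔ (x, y) ∉ ⋂ K, E K := by
    intro x y
    rw [← not_infinite, ← Nat.frequently_atTop_iff_infinite, frequently_atTop]
    simp only [E, mem_univ, true_and, mem_iInter, mem_iUnion, mem_Ici, mem_prod, mem_compl_iff,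
      exists_prop]
  obtain ⟨x, h1, h2⟩ := exists_small mu
    (R := fun x y => {i ∈ (univ : Set ℕ) | x ∈ u i ∧ y ∉ u i}.Finite)
    (by simp only [key]; exact (MeasurableSet.iInter mE).compl)
    (fun x y z a1 a2 => (a1.union a2).subset fun i hi => by
      by_cases h : y ∈ u i
      exacts [Or.inr ⟨trivial, h, hi.2.2⟩, Or.inl ⟨trivial, hi.2.1, h⟩])
    (G := {x | p.Ok x}) p.ae_ok p.ae_ok.exists
    (fun x hx => ((p.add x hx).ae_ok).mono fun y hy =>
      (hu _ (((p.add x hx).add_le y hy).trans (p.add_le x hx))).2 x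
        (mem_insert_of_mem _ (mem_insert _ _)) y (mem_insert _ _)) hε
  have h3 := tendsto_measure_iInter_atTop (μ := mu) (s := fun K => Prod.mk x ⁻¹' E K)
    (fun K => (measurable_prodMk_left (mE K)).nullMeasurableSet)
    (fun K L h => preimage_mono (biUnion_subset_biUnion_left (Ici_subset_Ici.2 h)))
    ⟨0, measure_ne_top _ _⟩
  have h4 : mu (⋂ K, Prod.mk x ⁻¹' E K) < ε := by
    simp only [key, not_not] at h2
    rw [← preimage_iInter]
    exact h2
  obtain ⟨K, hK⟩ := (h3.eventually (gt_mem_nhds h4)).exists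
  obtain ⟨k, a1, a2⟩ := ((hu _ (p.add_le x h1)).infinite_of_tau (F := insert x F)
    (insert_subset_insert hF) (hF'.insert x) (insert_nonempty _ _)).exists_gt K
  refine ⟨k, (measure_mono fun y hy => ?_).trans hK.le, (subset_insert _ _).trans a1.2⟩
  exact mem_iUnion₂.2 ⟨k, a2.le, a1.2 (mem_insert _ _), hy⟩

theorem pos1 : appr.Pos1 .T .G := by
  intro u p hu
  obtain ⟨g, hg⟩ := countable_iff_exists_subset_range.1 p.cnt
  obtain ⟨ε, h1, h2⟩ := ENNReal.exists_pos_sum_of_countable one_ne_zero ℕ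
  choose f h3 h4 using fun n => exists_large (hu.isOpen n) (fun q hq => hu.ix q hq n)
    (F := p.C ∩ g '' Iio n) inter_subset_left (((finite_Iio n).image g).inter_of_right _)
    (ε := ε n) (by simpa using (h1 n).ne')
  have h5 := ae_finite_setOfPred_mem (μ := mu) (s := fun n => (u n (f n))ᶜ)
    (((ENNReal.tsum_le_tsum h3).trans_lt (h2.trans ENNReal.one_lt_top)).ne)
  refine ⟨⟨p.C, p.N ∪ {x | ¬ {n | x ∈ (u n (f n))ᶜ}.Finite}, p.cnt,
    measure_union_null p.null (ae_iff.1 h5), p.far⟩,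
    ⟨Subset.rfl, subset_union_left, fun _ h => Or.inl h⟩, f, fun r hr =>
      ⟨infinite_univ, fun x hx => ?_⟩⟩
  rcases hr.2.2 x hx with h | h
  · obtain ⟨j, rfl⟩ := hg h
    exact (finite_Iic j).subset fun n hn => mem_Iic.2 (not_lt.1 fun h' => hn.2 (h4 n ⟨h, j, h', rfl⟩))
  · exact (not_not.1 fun h' => h (Or.inr h')).subset fun n hn => hn.2

theorem neg1 : appr.Neg1 .O .O := by
  obtain ⟨ε, h1, h2⟩ := ENNReal.exists_pos_sum_of_countable one_ne_zero ℕ
  have h3 : ∀ n, ∃ u : ℕ → Set Y, (∀ k, IsOpen (u k) ∧ mu (u k) < ε n) ∧ ∀ x, ∃ k, x ∈ u k := by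
    intro n
    choose U a1 a2 a3 using fun x : Y => Set.exists_isOpen_lt_of_lt (μ := mu) {x} (ε n)
      (by simpa using h1 n)
    obtain ⟨s, b1, b2⟩ := TopologicalSpace.countable_cover_nhds fun x => (a2 x).mem_nhds (a1 x rfl)
    obtain ⟨g, hg⟩ := countable_iff_exists_subset_range.1 b1
    refine ⟨fun k => U (g k), fun k => ⟨a2 _, a3 _⟩, fun x => ?_⟩
    obtain ⟨y, c1, c2⟩ := mem_iUnion₂.1 (b2 ▸ mem_univ x)
    obtain ⟨k, rfl⟩ := hg c1
    exact ⟨k, c2⟩
  choose u h4 h5 using h3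
  refine ⟨u, fun p => ⟨fun n k => (h4 n k).1, fun q _ n k => ?_, fun q _ n x _ => ?_⟩,
    fun S hS p => ?_⟩
  · obtain ⟨r, a1, x, a2, a3⟩ := q.exists_pt' ((h4 n k).2.trans
      ((ENNReal.le_tsum (f := fun i => (ε i : ℝ≥0∞)) n).trans_lt h2))
    exact ⟨r, a1, fun h => a3 (h a2)⟩
  · exact (h5 n x).imp fun k hk => ⟨trivial, hk⟩
  have h6 : ∀ n, ∃ k, ∀ l, (n, l) ∈ S → l = k := fun n => by
    by_cases h : ∃ k, (n, k) ∈ S
    · exact h.imp fun k hk l hl => hS n hl hk
    · exact ⟨0, fun l hl => absurd ⟨l, hl⟩ h⟩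
  choose f hf using h6
  obtain ⟨q, a1, x, a2, a3⟩ := p.exists_pt' (W := ⋃ n, u n (f n)) ((measure_iUnion_le _).trans_lt
    ((ENNReal.tsum_le_tsum fun n => (h4 n _).2.le).trans_lt h2))
  refine ⟨q, a1, fun h => ?_⟩
  obtain ⟨⟨n, k⟩, b1, b2⟩ := h x a2
  obtain rfl := hf n k b1
  exact a3 (mem_iUnion.2 ⟨n, b2⟩)

/-- the number of differences below `k` -/
def cnt (k : ℕ) (x y : Y) : ℕ := ((Finset.range k).filter fun i => x i ≠ y i).card

/-- clopen sets given by sets of strings -/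
def cyl (j : Σ k : ℕ, Set (Fin k → ZMod 2)) : Set Y := {x | (fun i : Fin j.1 => x i) ∈ j.2}

/-- points of the set on different sides have many early differences -/
def Good (n : ℕ) (j : Σ k : ℕ, Set (Fin k → ZMod 2)) : Prop :=
  ∀ x ∈ cyl j, ∀ y ∈ cyl j, x 0 ≠ y 0 → n + 1 < cnt j.1 x y

theorem cnt_le {k : ℕ} {x y : Y} {s : Finset ℕ} (h : ∀ i < k, x i ≠ y i → i ∈ s) :
    cnt k x y ≤ s.card :=
  Finset.card_le_card fun i hi => by
    rw [Finset.mem_filter, Finset.mem_range] at hi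
    exact h i hi.1 hi.2

theorem ev_cnt {x y : Y} (h : {i | x i ≠ y i}.Infinite) (n : ℕ) :
    ∀ᶠ k in atTop, n < cnt k x y := by
  obtain ⟨t, h1, h2⟩ := h.exists_subset_card_eq (n + 1)
  obtain ⟨k, hk⟩ := t.finite_toSet.bddAbove
  filter_upwards [eventually_gt_atTop k] with l hl
  refine Nat.lt_of_succ_le (h2.ge.trans (Finset.card_le_card fun i hi => ?_))
  exact Finset.mem_filter.2 ⟨Finset.mem_range.2 ((hk hi).trans_lt hl), h1 hi⟩

theorem isClopen_cyl (j : Σ k : ℕ, Set (Fin k → ZMod 2)) : IsClopen (cyl j) :=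
  (isClopen_discrete j.2).preimage (f := fun (x : Y) (i : Fin j.1) => x i)
    (continuous_pi fun _ => continuous_apply _)

theorem negFin : appr.NegFin .Om .Om := by
  have h0 : ∀ n, ∃ g : ℕ → {j // Good n j}, Surjective g := fun n =>
    have : Nonempty {j // Good n j} := ⟨⟨⟨0, ∅⟩, fun _ h => h.elim⟩⟩
    exists_surjective_nat _
  choose g hg using h0
  refine ⟨fun n k => cyl (g n k).1, fun p => ⟨fun n k => (isClopen_cyl _).2, fun q _ n k => ?_,
    fun q _ n F hF hF' => ?_⟩, fun S hS p => ?_⟩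
  · obtain ⟨r, a1, x, a2, a3⟩ := q.exists_pt (W := (cyl (g n k).1)ᶜ)
      ((isClopen_cyl _).1.isOpen_compl.measure_ne_zero mu (nonempty_compl.2 fun h => by
        have b1 := (g n k).2 0 (h ▸ mem_univ _) (Pi.single 0 1) (h ▸ mem_univ _) (by simp)
        have b2 := cnt_le (k := (g n k).1.1) (x := 0) (y := Pi.single 0 1) (s := {0})
          fun i _ hi => Finset.mem_singleton.2 (by_contra fun h' => by simp [h'] at hi)
        rw [Finset.card_singleton] at b2
        omega))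
    exact ⟨r, a1, fun h => a3 (h a2)⟩
  · have a1 : ∀ᶠ k in atTop, ∀ x ∈ F, ∀ y ∈ F, x ≠ y → n + 1 < cnt k x y :=
      (eventually_all_finite hF').2 fun x hx => (eventually_all_finite hF').2 fun y hy => by
        by_cases h : x = y
        · exact Eventually.of_forall fun _ h' => absurd h h'
        · exact (ev_cnt (q.far x (hF hx) y (hF hy) h) _).mono fun _ h _ => h
    obtain ⟨k, a2, a3⟩ := (a1.and (eventually_gt_atTop 0)).exists
    obtain ⟨l, hl⟩ := hg n ⟨⟨k, (fun (x : Y) (i : Fin k) => x i) '' F⟩, by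
      rintro x ⟨x', b1, b2⟩ y ⟨y', b3, b4⟩ h
      have c1 : ∀ i < k, x' i = x i := fun i hi => congrFun b2 ⟨i, hi⟩
      have c2 : ∀ i < k, y' i = y i := fun i hi => congrFun b4 ⟨i, hi⟩
      refine (a2 x' b1 y' b3 fun h' => h (by rw [← c1 0 a3, ← c2 0 a3, h'])).trans_le
        (cnt_le fun i hi hi' => Finset.mem_filter.2 ⟨Finset.mem_range.2 hi, ?_⟩)
      rwa [← c1 i hi, ← c2 i hi]⟩
    exact ⟨l, trivial, fun x hx => by rw [hl]; exact ⟨x, hx, rfl⟩⟩
  choose f hf using fun n => ((hS n).image fun k => (g n k).1.1).bddAbove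
  let t : ℕ → ℕ := fun n => Nat.rec 0 (fun n a => a + f n + 1) n
  have ht : StrictMono t := strictMono_nat_of_lt_succ fun n => by
    change t n < t n + f n + 1
    omega
  let z : Y := (range t).indicator 1
  have hz : ∀ (x : Y) i, (x + z) i ≠ x i ↔ i ∈ range t := fun x i => by
    by_cases h : i ∈ range t <;> simp [z, h]
  have a1 : ∀ᵐ x ∂mu, p.Ok (x + z) :=
    (measurePreserving_add_right mu z).quasiMeasurePreserving.ae p.ae_ok
  obtain ⟨x, a2, a3⟩ := (p.ae_ok.and a1).exists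
  have a4 : (p.add x a2).Ok (x + z) := ⟨a3.1, by
    rintro c (rfl | hc)
    · simp only [hz]
      exact infinite_range_of_injective ht.injective
    · exact a3.2 c hc⟩
  refine ⟨_, ((p.add x a2).add_le _ a4).trans (p.add_le x a2), fun h => ?_⟩
  obtain ⟨⟨n, k⟩, b1, b2⟩ := h {x + z, x} (insert_subset_insert (singleton_subset_iff.2
    (mem_insert _ _))) (toFinite _)
  have b3 := (g n k).2 (x + z) (b2 (mem_insert _ _)) x (b2 (mem_insert_of_mem _ rfl))
    ((hz x 0).2 ⟨0, rfl⟩)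
  have b4 : (g n k).1.1 ≤ f n := hf n ⟨k, b1, rfl⟩
  have b5 := cnt_le (k := (g n k).1.1) (x := x + z) (y := x) (s := (Finset.range (n + 1)).image t)
    fun i c1 c2 => by
      obtain ⟨j, rfl⟩ := (hz x i).1 c2
      refine Finset.mem_image_of_mem t (Finset.mem_range.2 (ht.lt_iff_lt.1 ?_))
      change t j < t n + f n + 1
      omega
  have b6 := Finset.card_image_le (s := Finset.range (n + 1)) (f := t)
  rw [Finset.card_range] at b6
  omega

end Pool.Agent.P.MP_b17faa_gt.X2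

namespace Pool.Agent.P.MP_b17faa_gt

theorem exists_X2 : ∃ (P : Type) (_ : Preorder P) (_ : Nonempty P) (a : Approx P (ℕ → ZMod 2)),
    a.Pos1 .T .G ∧ a.Neg1 .O .O ∧ a.NegFin .Om .Om :=
  ⟨X2.Cond, inferInstance, inferInstance, X2.appr, X2.pos1, X2.neg1, X2.negFin⟩

end Pool.Agent.P.MP_b17faa_gt
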