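import Pool.Agent.P.MP_b17faa_gt.X3b
import Pool.Agent.P.MP_b17faa_gt.Index

/-!
The example `X3`: a tower of unions of blocks. It satisfies `S_fin(Ω, T)` and fails
`U_fin(Γ, Γ)` and `S₁(Γ, T)`.
-/

namespace Pool.Agent.P.MP_b17faa_gt.X3

open Set Filter Blk Function

/-- a condition: a countable tower and a block sequence below it -/
structure Cond where
  D : Blk
  C : Set (Set ℕ)
  cnt : C.Countable
  inf : ∀ x ∈ C, x.Infinite
  lin : ∀ x ∈ C, ∀ y ∈ C, (∀ᶠ a in atTop, a ∈ x → a ∈ y) ∨ ∀ᶠ a in atTop, a ∈ y → a ∈ x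
  below : ∀ x ∈ C, ∀ᶠ j in atTop, D.d j ⊆ x

instance : Preorder Cond where
  le q p := p.C ⊆ q.C ∧ Le q.D p.D ∧ ∀ x ∈ q.C, x ∈ p.C ∨ p.D.Resp x
  le_refl p := ⟨Subset.rfl, p.D.le_refl, fun _ h => Or.inl h⟩
  le_trans r q p h h' := ⟨h'.1.trans h.1, h.2.1.trans h'.2.1, fun x hx =>
    (h.2.2 x hx).elim (h'.2.2 x) fun h1 => Or.inr (h1.of_le h'.2.1)⟩

theorem Blk.Le.below {E D : Blk} (h : Le E D) {x : Set ℕ} (hx : ∀ᶠ j in atTop, D.d j ⊆ x) :
    ∀ᶠ j in atTop, E.d j ⊆ x := by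
  filter_upwards [h.ev hx] with n h1 a ha
  obtain ⟨j, a1, -, a2⟩ := h1 a ha
  exact a2 a1

theorem Blk.ev_U {E : Blk} {x : Set ℕ} (hx : ∀ᶠ j in atTop, E.d j ⊆ x) :
    ∀ᶠ a in atTop, a ∈ E.U → a ∈ x := by
  filter_upwards [E.resp_U.ev hx] with a h1 ha
  obtain ⟨j, a1, -, a2⟩ := h1 ha
  exact a2 a1

theorem countable_mod (x : Set ℕ) : {y : Set ℕ | ∀ᶠ a in atTop, a ∈ y ↔ a ∈ x}.Countable := by
  refine (Countable.ofPred_finite.image fun s => symmDiff x s).mono fun y hy => ?_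
  refine (mem_image _ _ _).2 ⟨symmDiff x y, ?_, symmDiff_symmDiff_cancel_left x y⟩
  obtain ⟨k, hk⟩ := eventually_atTop.1 hy
  refine (finite_Iio k).subset fun a ha => mem_Iio.2 (lt_of_not_ge fun h => ?_)
  have := hk a h
  rw [mem_symmDiff] at ha
  tauto

/-- adding the union of a condensation and its finite modifications -/
def Cond.add (p : Cond) (E : Blk) (h : Le E p.D) : Cond where
  D := E
  C := p.C ∪ {y | ∀ᶠ a in atTop, a ∈ y ↔ a ∈ E.U}
  cnt := p.cnt.union (countable_mod _)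
  inf := by
    rintro x (hx | hx)
    · exact p.inf x hx
    · exact Nat.frequently_atTop_iff_infinite.1 (((Nat.frequently_atTop_iff_infinite.2
        E.infinite_U).and_eventually hx).mono fun a ha => ha.2.2 ha.1)
  lin := by
    rintro x (hx | hx) y (hy | hy)
    · exact p.lin x hx y hy
    · right
      filter_upwards [ev_U (h.below (p.below x hx)), hy] with a h1 h2 h3 using h1 (h2.1 h3)
    · left
      filter_upwards [ev_U (h.below (p.below y hy)), hx] with a h1 h2 h3 using h1 (h2.1 h3)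
    · left
      filter_upwards [hx, hy] with a h1 h2 h3 using h2.2 (h1.1 h3)
  below := by
    rintro x (hx | hx)
    · exact h.below (p.below x hx)
    · filter_upwards [E.ev_sub hx] with j h1 a ha using (h1 a ha).2 (E.subset_U j ha)

theorem Cond.add_le (p : Cond) (E : Blk) (h : Le E p.D) : p.add E h ≤ p :=
  ⟨subset_union_left, h, fun _ hx => hx.imp id fun hx => (E.resp_U.congr hx).of_le h⟩

theorem Cond.mem_add (p : Cond) (E : Blk) (h : Le E p.D) {y : Set ℕ} (k : ℕ)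
    (hy : ∀ a, k ≤ a → (a ∈ y ↔ a ∈ E.U)) : y ∈ (p.add E h).C :=
  Or.inr (eventually_atTop.2 ⟨k, hy⟩)

theorem closed (s : ℕ → Cond) (hs : Antitone s) : ∃ q, ∀ n, q ≤ s n := by
  obtain ⟨E, hE⟩ := exists_blk (fun n _ e => ∀ i ∈ Iic n, (s i).D.Sat e) fun n k => by
    obtain ⟨j, h1, h2⟩ := ((eventually_ge_atTop k).and ((eventually_all_finite (finite_Iic n)).2
      fun i hi => (hs hi).2.1)).exists
    exact ⟨_, (s n).D.finite j, (s n).D.ne j, (s n).D.above' h1, h2⟩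
  have h1 : ∀ n, Le E (s n).D := fun n => (eventually_ge_atTop n).mono fun j hj => hE j n hj
  refine ⟨⟨E, ⋃ n, (s n).C, countable_iUnion fun n => (s n).cnt, fun x hx => ?_,
    fun x hx y hy => ?_, fun x hx => ?_⟩, fun n => ⟨subset_iUnion (fun n => (s n).C) n, h1 n,
      fun x hx => ?_⟩⟩
  · obtain ⟨n, hn⟩ := mem_iUnion.1 hx
    exact (s n).inf x hn
  · obtain ⟨n, hn⟩ := mem_iUnion.1 hx
    obtain ⟨m, hm⟩ := mem_iUnion.1 hy
    exact (s (max n m)).lin x ((hs (le_max_left n m)).1 hn) y ((hs (le_max_right n m)).1 hm)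
  · obtain ⟨n, hn⟩ := mem_iUnion.1 hx
    exact (h1 n).below ((s n).below x hn)
  · obtain ⟨m, hm⟩ := mem_iUnion.1 hx
    exact (hs (le_max_left n m)).2.2 x ((hs (le_max_right n m)).1 hm)

instance : Nonempty Cond :=
  ⟨⟨⟨id, fun n => {n}, fun n => singleton_nonempty n, fun n => by simp⟩, ∅, countable_empty,
    by simp, by simp, by simp⟩⟩

open Classical in
/-- the characteristic function -/
noncomputable def chi (x : Set ℕ) : ℕ → Bool := fun i => decide (i ∈ x)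

theorem op_preimage {W : Set (ℕ → Bool)} (h : IsOpen W) : Op (chi ⁻¹' W) := fun x hx => by
  obtain ⟨I, t, h1, h2⟩ := isOpen_pi_iff.1 h _ hx
  obtain ⟨k, hk⟩ := I.finite_toSet.bddAbove
  refine ⟨k + 1, fun y hy => h2 fun i hi => ?_⟩
  have : chi y i = chi x i := by simp [chi, hy i (Nat.lt_succ_of_le (hk hi))]
  exact this ▸ (h1 i hi).2

/-- the approximations -/
noncomputable def appr : Approx Cond (ℕ → Bool) where
  pt p := chi '' p.C
  countable p := p.cnt.image _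
  anti _ _ h := image_mono h.1
  closed := closed
  nonempty p := ⟨p.add p.D p.D.le_refl, p.add_le _ _, _, _, p.mem_add _ _ 0 fun _ _ => Iff.rfl, rfl⟩

theorem posFin : appr.PosFin .Om .T := by
  intro u p hu
  obtain ⟨f, hf⟩ := countable_iff_exists_subset_range.1 p.cnt
  obtain ⟨E, hE, m, i, h1, h2, h3⟩ := core p.D (fun n k => chi ⁻¹' u n k)
    (fun m => p.C ∩ f '' Iio m) (fun n k => op_preimage (hu.isOpen n k)) fun m E hE _ => by
    have := ix_preimage.1 (hu.ix _ (p.add_le E hE) m)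
    obtain ⟨i, -, hi⟩ := this (p.C ∩ f '' Iio m ∪ (fun s => s ∪ E.U) '' {s | s ⊆ Iio m})
      (union_subset (inter_subset_left.trans subset_union_left) (by
        rintro _ ⟨s, hs, rfl⟩
        exact p.mem_add E hE m fun a ha => ⟨fun h => h.resolve_left fun h' =>
          absurd (hs h') (not_lt.2 ha), Or.inr⟩))
      ((((finite_Iio m).image f).inter_of_right _).union ((finite_Iio m).finite_subsets.image _))
    exact ⟨i, subset_union_left.trans hi, fun s hs => hi (Or.inr ⟨s, hs, rfl⟩)⟩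
  have inj : Injective fun n => (m n, i n) := fun a b h => h1.injective (congrArg Prod.fst h)
  refine ⟨p.add E hE, p.add_le E hE, (fun n => (m n, i n)) '' univ, fun n => ?_, fun r hr => ?_⟩
  · refine Subsingleton.finite ?_
    rintro a ⟨j, -, hj⟩ b ⟨k, -, hk⟩
    obtain rfl : j = k := h1.injective ((congrArg Prod.fst hj).trans (congrArg Prod.fst hk).symm)
    exact (congrArg Prod.snd hj).symm.trans (congrArg Prod.snd hk)
  refine (ix_image inj.injOn).2 (ix_preimage.2 ?_)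
  have key : ∀ x ∈ r.C, (∀ᶠ n in atTop, chi x ∈ u (m n) (i n)) ∨
      (E.Resp x ∧ ∀ᶠ n in atTop, chi x ∈ u (m n) (i n) ↔ E.d n ⊆ x) := fun x hx => by
    have a0 : E.Resp x → (∀ᶠ n in atTop, chi x ∈ u (m n) (i n)) ∨
        (E.Resp x ∧ ∀ᶠ n in atTop, chi x ∈ u (m n) (i n) ↔ E.d n ⊆ x) := fun h =>
      (h3 x (r.inf x hx) h).imp id fun h' => ⟨h, h'⟩
    rcases hr.2.2 x hx with (h | h) | h
    · obtain ⟨j, rfl⟩ := hf h
      left
      filter_upwards [eventually_gt_atTop j] with n hn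
      exact h2 n ⟨h, j, hn.trans_le h1.le_apply, rfl⟩
    · exact a0 (E.resp_U.congr h)
    · exact a0 h
  have fin : ∀ {Q : ℕ → Prop}, (∀ᶠ n in atTop, ¬ Q n) → {n ∈ (univ : Set ℕ) | Q n}.Finite :=
    fun h => by
      rw [← Nat.cofinite_eq_atTop, eventually_cofinite] at h
      simpa using h
  refine ⟨fun x hx => ?_, fun x hx y hy => ?_⟩
  · refine (Nat.frequently_atTop_iff_infinite.1 ?_ : {n | chi x ∈ u (m n) (i n)}.Infinite).mono
      fun n hn => ⟨trivial, hn⟩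
    rcases key x hx with h | h
    · exact h.frequently
    · exact ((h.1.freq (r.inf x hx)).and_eventually h.2).mono fun n hn => hn.2.2 hn.1
  · rcases key y hy with b | b
    · exact Or.inl (fin (b.mono fun n hn h => h.2 hn))
    rcases key x hx with a | a
    · exact Or.inr (fin (a.mono fun n hn h => h.2 hn))
    refine (r.lin x hx y hy).imp (fun h => fin ?_) fun h => fin ?_
    · filter_upwards [a.2, b.2, E.ev_sub h] with n c1 c2 c3 c4
      exact c4.2 (c2.2 fun z hz => c3 z hz (c1.1 c4.1 hz))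
    · filter_upwards [a.2, b.2, E.ev_sub h] with n c1 c2 c3 c4
      exact c4.2 (c1.2 fun z hz => c3 z hz (c2.1 c4.1 hz))

theorem gap (D : Blk) {A : Set ℕ} (hA : A.Infinite) (f : ℕ → ℕ) : ∃ E, Le E D ∧ E.U ⊆ D.U ∧
    {n ∈ A | ∀ i ∈ Icc (n + 1) (n + 1 + f n), i ∉ E.U}.Infinite := by
  obtain ⟨E, hE⟩ := exists_blk (fun _ k e => D.Sat e ∧ ∃ n ∈ A, k < n ∧ e ⊆ Ici (n + 2 + f n))
    fun _ k => by
      obtain ⟨n, h1, h2⟩ := hA.exists_gt k
      exact ⟨D.d (n + 2 + f n), D.finite _, D.ne _, D.above' (by omega), D.sat_d _, n, h1, h2,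
        D.above' le_rfl⟩
  refine ⟨E, Eventually.of_forall fun n => (hE n).1, iUnion_subset fun n a ha => ?_,
    infinite_of_forall_exists_gt fun k => ?_⟩
  · obtain ⟨j, h1, -⟩ := (hE n).1 a ha
    exact D.subset_U j h1
  · obtain ⟨n, h1, h2, h3⟩ := (hE k).2
    refine ⟨n, ⟨h1, fun i hi hi' => ?_⟩, (E.le_b k).trans_lt h2⟩
    obtain ⟨j, hj⟩ := mem_iUnion.1 hi'
    obtain ⟨a, ha⟩ := E.ne k
    have a1 : n + 2 + f n ≤ a := h3 ha
    have a2 := (E.sub k ha).2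
    have a3 := hi.1
    have a4 := hi.2
    obtain rfl : j = k := le_antisymm (Nat.lt_succ_iff.1 (E.idx_lt (k := k + 1) hj (by omega)))
      (E.le_idx hj (by omega))
    have a5 : n + 2 + f n ≤ i := h3 hj
    omega

/-- the covers witnessing the failures -/
def v (n k : ℕ) : Set (ℕ → Bool) :=
  {y | y 0 = decide (Even n) ∨ ∃ i ∈ Icc (n + 1) (n + 1 + k), y i = true}

theorem chi_mem_v {x : Set ℕ} {n k : ℕ} :
    chi x ∈ v n k ↔ (0 ∈ x ↔ Even n) ∨ ∃ i ∈ Icc (n + 1) (n + 1 + k), i ∈ x := by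
  simp [v, chi]

theorem dense_pt (p : Cond) (K : ℕ) (s : Set ℕ) :
    ∃ q ≤ p, ∃ x ∈ q.C, ∀ i < K, i ∈ x ↔ i ∈ s :=
  ⟨p.add p.D p.D.le_refl, p.add_le _ _, s ∩ Iio K ∪ p.D.U ∩ Ici K,
    p.mem_add _ _ K fun a ha => by simp [ha, not_lt.2 ha], fun i hi => by simp [hi, not_le.2 hi]⟩

theorem mem_v_congr {x s : Set ℕ} {n k K : ℕ} (h : ∀ i < K, i ∈ x ↔ i ∈ s) (hK : n + 1 + k < K) :
    chi x ∈ v n k ↔ chi s ∈ v n k := by
  rw [chi_mem_v, chi_mem_v, h 0 (by omega)]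
  exact or_congr_right (exists_congr fun i => and_congr_right fun hi => h i (hi.2.trans_lt hK))

theorem input (p : Cond) : appr.Input .G v p where
  isOpen n k := by
    have h0 : ∀ i b, IsOpen {y : ℕ → Bool | y i = b} := fun i b =>
      (isOpen_discrete {b}).preimage (f := fun y : ℕ → Bool => y i) (continuous_apply i)
    have := (h0 0 (decide (Even n))).union
      (isOpen_biUnion fun i (_ : i ∈ Icc (n + 1) (n + 1 + k)) => h0 i true)
    convert this using 1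
    ext y
    simp only [v, mem_union, mem_iUnion, exists_prop, mem_ofPred_eq]
  proper q _ n k := by
    obtain ⟨r, h1, x, h2, h3⟩ := dense_pt q (n + 2 + k) {i | i = 0 ∧ ¬ Even n}
    refine ⟨r, h1, fun h => ?_⟩
    have := chi_mem_v.1 ((mem_v_congr h3 (by omega)).1 (h ⟨x, h2, rfl⟩))
    rcases this with h | ⟨i, h4, h5⟩
    · simp only [mem_ofPred_eq, true_and] at h
      tauto
    · exact absurd h4.1 (by have := h5.1; omega)
  ix q _ n := by
    refine ⟨infinite_univ, ?_⟩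
    rintro _ ⟨x, hx, rfl⟩
    obtain ⟨i, h1, h2⟩ := (q.inf x hx).exists_gt n
    refine (finite_Iio i).subset fun k hk => mem_Iio.2 (lt_of_not_ge fun h => hk.2 ?_)
    exact chi_mem_v.2 (Or.inr ⟨i, ⟨h2, by omega⟩, h1⟩)

theorem negU : appr.NegU .G := by
  refine ⟨v, input, fun n k l h y hy => hy.imp id fun ⟨i, h1, h2⟩ =>
    ⟨i, ⟨h1.1, h1.2.trans (by omega)⟩, h2⟩, fun S hS p => ?_⟩
  by_cases h : S.Infinite
  swap
  · exact ⟨p, le_rfl, fun h' => h h'.1⟩
  have h1 : ∀ n, ∃ k, (∃ k, (n, k) ∈ S) → (n, k) ∈ S := fun n => by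
    by_cases h : ∃ k, (n, k) ∈ S
    · exact h.imp fun _ h _ => h
    · exact ⟨0, fun h' => absurd h' h⟩
  choose f hf using h1
  have h2 : {n | ∃ k, (n, k) ∈ S}.Infinite := fun h2 => h ((h2.image fun n => (n, f n)).subset
    fun z hz => ⟨z.1, ⟨z.2, hz⟩, Prod.ext rfl (hS z.1 (hf z.1 ⟨z.2, hz⟩) hz)⟩)
  obtain ⟨b, hb⟩ : ∃ b : Prop, {n | (∃ k, (n, k) ∈ S) ∧ (Even n ↔ b)}.Infinite := by
    by_contra hc
    push Not at hc
    refine h2 (((hc True).union (hc False)).subset fun n hn => ?_)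
    by_cases h : Even n
    exacts [Or.inl ⟨hn, iff_of_true h trivial⟩, Or.inr ⟨hn, iff_of_false h id⟩]
  obtain ⟨E, a1, -, a2⟩ := gap p.D hb f
  refine ⟨p.add E a1, p.add_le _ _, fun h' => ?_⟩
  have a3 := h'.2 _ ⟨{i | i = 0 ∧ ¬ b} ∪ E.U \ {0}, p.mem_add E a1 1 fun a ha => by
    simp [show a ≠ 0 by omega], rfl⟩
  refine (a2.image (f := fun n => (n, f n)) fun _ _ _ _ h => congrArg Prod.fst h) (a3.subset ?_)
  rintro _ ⟨n, ⟨⟨b1, b2⟩, b3⟩, rfl⟩
  refine ⟨hf n b1, fun h => ?_⟩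
  rcases chi_mem_v.1 h with h | ⟨i, c1, c2 | c2⟩
  · simp [b2] at h
  · exact absurd c1.1 (by have := c2.1; omega)
  · exact b3 i c1 c2.1

theorem v_inj (i j : ℕ × ℕ) (h : i ≠ j) : ∃ s, ¬ (chi s ∈ v i.1 i.2 ↔ chi s ∈ v j.1 j.2) := by
  by_cases h1 : Even i.1 ↔ Even j.1
  swap
  · refine ⟨∅, ?_⟩
    simp only [chi_mem_v, mem_empty_iff_false, and_false, exists_false, or_false, false_iff]
    tauto
  by_contra hc
  push Not at hc
  have key : ∀ a, 0 < a → (a ∈ Icc (i.1 + 1) (i.1 + 1 + i.2) ↔ a ∈ Icc (j.1 + 1) (j.1 + 1 + j.2)) := by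
    intro a ha
    have := hc ({t | t = 0 ∧ ¬ Even i.1} ∪ {a})
    have e : ∀ n k, (∃ t ∈ Icc (n + 1) (n + 1 + k), t ∈ ({t | t = 0 ∧ ¬ Even i.1} ∪ {a} : Set ℕ)) ↔
        a ∈ Icc (n + 1) (n + 1 + k) := fun n k => by
      constructor
      · rintro ⟨t, a1, a2 | rfl⟩
        exacts [absurd a1.1 (by have := a2.1; omega), a1]
      · exact fun h => ⟨a, h, Or.inr rfl⟩
    rw [chi_mem_v, chi_mem_v, e, e, ← h1] at this
    have e2 : ¬ (0 ∈ ({t | t = 0 ∧ ¬ Even i.1} ∪ {a} : Set ℕ) ↔ Even i.1) := by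
      simp only [mem_union, mem_ofPred_eq, true_and, mem_singleton_iff, ha.ne, or_false]
      tauto
    simpa only [e2, false_or] using this
  have a1 := (key (i.1 + 1) (by omega)).1 ⟨le_rfl, by omega⟩
  have a2 := (key (j.1 + 1) (by omega)).2 ⟨le_rfl, by omega⟩
  have a3 := (key (i.1 + 1 + i.2) (by omega)).1 ⟨by omega, le_rfl⟩
  have a4 := (key (j.1 + 1 + j.2) (by omega)).2 ⟨by omega, le_rfl⟩
  simp only [mem_Icc] at a1 a2 a3 a4
  exact h (Prod.ext (by omega) (by omega))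

theorem neg1 : appr.Neg1t .G .T := by
  refine ⟨v, input, fun i j h p => ?_, fun f p => ?_⟩
  · obtain ⟨s, hs⟩ := v_inj i j h
    obtain ⟨q, h1, x, h2, h3⟩ := dense_pt p (i.1 + 1 + i.2 + (j.1 + 1 + j.2) + 1) s
    refine ⟨q, h1, _, ⟨x, h2, rfl⟩, ?_⟩
    rwa [uncurry, uncurry, mem_v_congr h3 (by omega), mem_v_congr h3 (by omega)]
  have hE : {n : ℕ | Even n}.Infinite := infinite_of_forall_exists_gt fun k =>
    ⟨2 * (k + 1), even_two_mul _, by omega⟩
  have hO : {n : ℕ | ¬ Even n}.Infinite := infinite_of_forall_exists_gt fun k =>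
    ⟨2 * k + 1, by simp, by omega⟩
  obtain ⟨E, a1, -, a2⟩ := gap p.D hE f
  obtain ⟨E', b1, b0, b2⟩ := gap E hO f
  have h := b1.trans a1
  refine ⟨p.add E' h, p.add_le _ _, fun h' => ?_⟩
  have c1 : E'.U \ {0} ∈ (p.add E' h).C := p.mem_add E' h 1 fun a ha => by
    simp [show a ≠ 0 by omega]
  have c2 : insert 0 E'.U ∈ (p.add E' h).C := p.mem_add E' h 1 fun a ha => by
    simp [show a ≠ 0 by omega]
  rcases h'.2 _ ⟨_, c1, rfl⟩ _ ⟨_, c2, rfl⟩ with d | d
  · refine b2 (d.subset fun n hn => ⟨trivial, chi_mem_v.2 (Or.inl ?_), fun e => ?_⟩)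
    · exact iff_of_false (fun e => e.2 rfl) hn.1
    · rcases chi_mem_v.1 e with e | ⟨i, e1, rfl | e2⟩
      exacts [hn.1 (e.1 (Or.inl rfl)), absurd e1.1 (by omega), hn.2 i e1 e2]
  · refine a2 (d.subset fun n hn => ⟨trivial, chi_mem_v.2 (Or.inl ?_), fun e => ?_⟩)
    · exact iff_of_true (Or.inl rfl) hn.1
    · rcases chi_mem_v.1 e with e | ⟨i, e1, e2⟩
      exacts [(e.2 hn.1).2 rfl, hn.2 i e1 (b0 e2.1)]

end Pool.Agent.P.MP_b17faa_gt.X3

namespace Pool.Agent.P.MP_b17faa_gt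

theorem exists_X3 : ∃ (P : Type) (_ : Preorder P) (_ : Nonempty P) (a : Approx P (ℕ → Bool)),
    a.PosFin .Om .T ∧ a.NegU .G ∧ a.Neg1t .G .T :=
  ⟨X3.Cond, inferInstance, inferInstance, X3.appr, X3.posFin, X3.negU, X3.neg1⟩

end Pool.Agent.P.MP_b17faa_gt
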