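import Pool.Agent.P.MP_b17faa_gt.Index

/-!
The example `X6`: it satisfies `U_fin(Γ, Ω)` and fails `S_fin(Γ, Ω)`.
-/

namespace Pool.Agent.P.MP_b17faa_gt.X6

open Set Filter Function Topology

/-- functions below the identity -/
abbrev Y : Type := (j : ℕ) → Fin (j + 1)

/-- `x` is maximal on one of the two windows starting at `m` -/
def Good (x : Y) (w : ℕ → ℕ × ℕ) (m : ℕ) : Prop :=
  (∀ j, m ≤ j → j < (w m).1 → (x j : ℕ) = j) ∨
    ∀ j, m ≤ j → (w m).1 ≤ j → j < (w m).2 → (x j : ℕ) = j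

/-- a condition: countably many points and countably many promises -/
structure Cond where
  A : Set Y
  L : Set (ℕ → ℕ × ℕ)
  M : (ℕ → ℕ × ℕ) → Set ℕ
  cntA : A.Countable
  cntL : L.Countable
  inf : ∀ w, (M w).Infinite
  lim : ∀ x ∈ A, ∀ n, ∀ᶠ j in atTop, n < (x j : ℕ)

instance : Preorder Cond where
  le q p := p.A ⊆ q.A ∧ p.L ⊆ q.L ∧ (∀ w, ∀ᶠ m in atTop, m ∈ q.M w → m ∈ p.M w) ∧
    ∀ x ∈ q.A, x ∈ p.A ∨ ∀ w ∈ p.L, ∀ᶠ m in atTop, m ∈ q.M w → Good x w m
  le_refl p := ⟨Subset.rfl, Subset.rfl, fun _ => Eventually.of_forall fun _ h => h,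
    fun _ h => Or.inl h⟩
  le_trans r q p h h' := by
    refine ⟨h'.1.trans h.1, h'.2.1.trans h.2.1, fun w => ?_, fun x hx => ?_⟩
    · filter_upwards [h.2.2.1 w, h'.2.2.1 w] with m h1 h2 h3 using h2 (h1 h3)
    · rcases h.2.2.2 x hx with h1 | h1
      · refine (h'.2.2.2 x h1).imp id fun h2 w hw => ?_
        filter_upwards [h.2.2.1 w, h2 w hw] with m h3 h4 h5 using h4 (h3 h5)
      · exact Or.inr fun w hw => h1 w (h'.2.1 hw)

instance : Nonempty Cond :=
  ⟨⟨∅, ∅, fun _ => univ, countable_empty, countable_empty, fun _ => infinite_univ, by simp⟩⟩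

theorem exists_seq (G : ℕ → ℕ → Prop) (b : ℕ → ℕ → ℕ) (h : ∀ t k, ∃ m, k ≤ m ∧ G t m) :
    ∃ m : ℕ → ℕ, StrictMono m ∧ (∀ t, G t (m t)) ∧ ∀ s t, s < t → b s (m s) ≤ m t := by
  choose f h1 h2 using h
  let m : ℕ → ℕ := fun t => Nat.rec (f 0 0) (fun t a => f (t + 1) (a + 1 + b t a)) t
  have h3 : ∀ t, m t + 1 + b t (m t) ≤ m (t + 1) := fun t => h1 _ _
  have h4 : StrictMono m := strictMono_nat_of_lt_succ fun t => by have := h3 t; omega
  refine ⟨m, h4, fun t => by cases t <;> exact h2 _ _, fun s t hst => ?_⟩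
  have := h3 s
  have : m (s + 1) ≤ m t := h4.monotone hst
  omega

theorem exists_pseudo (M : ℕ → Set ℕ) (h : ∀ n, (M n).Infinite)
    (h' : ∀ i n, i ≤ n → ∀ᶠ m in atTop, m ∈ M n → m ∈ M i) :
    ∃ N : Set ℕ, N.Infinite ∧ ∀ n, ∀ᶠ m in atTop, m ∈ N → m ∈ M n := by
  obtain ⟨m, h1, h2, -⟩ := exists_seq (fun t m => ∀ i ∈ Iic t, m ∈ M i) (fun _ _ => 0) fun t k => by
    obtain ⟨m, a1, a2, a3⟩ := ((Nat.frequently_atTop_iff_infinite.2 (h t)).and_eventually
      ((eventually_ge_atTop k).and ((eventually_all_finite (finite_Iic t)).2 (h' · t ·)))).exists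
    exact ⟨m, a2, fun i hi => a3 i hi a1⟩
  refine ⟨range m, infinite_range_of_injective h1.injective, fun n => ?_⟩
  filter_upwards [eventually_ge_atTop (m n)]
  rintro _ a1 ⟨t, rfl⟩
  exact h2 t n (h1.le_iff_le.1 a1)

theorem closed (s : ℕ → Cond) (hs : Antitone s) : ∃ q, ∀ n, q ≤ s n := by
  choose N h1 h2 using fun w => exists_pseudo (fun n => (s n).M w) (fun n => (s n).inf w)
    fun i n h => (hs h).2.2.1 w
  refine ⟨⟨⋃ n, (s n).A, ⋃ n, (s n).L, N, countable_iUnion fun n => (s n).cntA,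
    countable_iUnion fun n => (s n).cntL, h1, fun x hx => ?_⟩, fun n =>
    ⟨subset_iUnion (fun n => (s n).A) n, subset_iUnion (fun n => (s n).L) n, fun w => h2 w n,
      fun x hx => ?_⟩⟩
  · obtain ⟨n, hn⟩ := mem_iUnion.1 hx
    exact (s n).lim x hn
  · obtain ⟨m, hm⟩ := mem_iUnion.1 hx
    refine ((hs (le_max_left n m)).2.2.2 x ((hs (le_max_right n m)).1 hm)).imp id fun h w hw => ?_
    filter_upwards [h w hw, h2 w (max n m)] with k a1 a2 a3 using a1 (a2 a3)

/-- the points which are maximal on `[m, l)` -/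
def K (m : ℕ) (l : ℕ∞) : Set Y := {x | ∀ j, m ≤ j → (j : ℕ∞) < l → (x j : ℕ) = j}

theorem isClosed_K (m : ℕ) (l : ℕ∞) : IsClosed (K m l) := by
  simp only [K, ofPred_forall]
  exact isClosed_iInter fun j => isClosed_iInter fun _ => isClosed_iInter fun _ =>
    (isClosed_discrete {a : Fin (j + 1) | (a : ℕ) = j}).preimage (f := fun x : Y => x j)
      (continuous_apply j)

theorem finite_K (m : ℕ) : (K m ⊤).Finite := by
  refine Finite.of_finite_image (f := fun (x : Y) (j : Fin m) => x j) (toFinite _)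
    fun x hx y hy h => funext fun j => ?_
  rcases lt_or_ge j m with h1 | h1
  · exact congrFun h ⟨j, h1⟩
  · exact Fin.ext ((hx j h1 (ENat.natCast_lt_top j)).trans (hy j h1 (ENat.natCast_lt_top j)).symm)

theorem exists_K {m : ℕ} {W : Set Y} (hW : IsOpen W) (h : K m ⊤ ⊆ W) :
    ∃ l : ℕ, m ≤ l ∧ K m l ⊆ W := by
  obtain ⟨l, hl⟩ := exists_subset_nhds_of_compactSpace (V := fun l : ℕ => K m l) (U := W)
    (directed_of_isDirected_le (f := fun l : ℕ => K m l) (r := (· ⊇ ·))
      fun a b h x hx j h1 h2 => hx j h1 (h2.trans_le (Nat.cast_le.2 h)))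
    (fun l => isClosed_K m l) (fun x hx => hW.mem_nhds <| h fun j h1 _ =>
      (mem_iInter.1 hx (j + 1) : x ∈ K m (j + 1 : ℕ)) j h1 (Nat.cast_lt.2 j.lt_succ_self))
  exact ⟨max l m, le_max_right _ _, fun x hx => hl fun j h1 h2 =>
    hx j h1 (h2.trans_le (Nat.cast_le.2 (le_max_left _ _)))⟩

/-- adding the eventually maximal points and a promise -/
def Cond.add (p : Cond) (w : ℕ → ℕ × ℕ) : Cond where
  A := p.A ∪ ⋃ m, K m ⊤
  L := insert w p.L
  M := p.M
  cntA := p.cntA.union (countable_iUnion fun m => (finite_K m).countable)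
  cntL := p.cntL.insert w
  inf := p.inf
  lim := by
    rintro x (hx | hx) n
    · exact p.lim x hx n
    · obtain ⟨m, hm⟩ := mem_iUnion.1 hx
      filter_upwards [eventually_ge_atTop m, eventually_gt_atTop n] with j h1 h2
      rwa [hm j h1 (ENat.natCast_lt_top j)]

theorem Cond.add_le (p : Cond) (w : ℕ → ℕ × ℕ) : p.add w ≤ p := by
  refine ⟨subset_union_left, subset_insert _ _, fun _ => Eventually.of_forall fun _ h => h,
    fun x hx => hx.imp id fun hx v _ => ?_⟩
  obtain ⟨m, hm⟩ := mem_iUnion.1 hx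
  filter_upwards [eventually_ge_atTop m] with k h1 _
  exact Or.inl fun j h2 _ => hm j (h1.trans h2) (ENat.natCast_lt_top j)

/-- the approximations -/
def appr : Approx Cond Y where
  pt p := p.A
  countable p := p.cntA
  anti _ _ h := h.1
  closed := closed
  nonempty p := ⟨p.add fun _ => 0, p.add_le _, fun j => Fin.last j,
    Or.inr (mem_iUnion.2 ⟨0, fun _ _ _ => rfl⟩)⟩

theorem posU : appr.PosU .Om := by
  intro u p hu hm
  obtain ⟨g, hg⟩ := countable_iff_exists_subset_range.1 (p.add fun _ => 0).cntA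
  have h0 : ∀ n, ∀ F ⊆ (p.add fun _ => 0).A, F.Finite → ∀ᶠ c in atTop, F ⊆ u n c :=
    fun n F h1 h2 => (eventually_all_finite h2).2 fun x hx => by
      have := (hu.ix _ (p.add_le fun _ => 0) n).2 x (h1 hx)
      rw [← Nat.cofinite_eq_atTop, eventually_cofinite]
      simpa using this
  have hK : ∀ m, K m ⊤ ⊆ (p.add fun _ => 0).A := fun m =>
    (subset_iUnion (fun m => K m ⊤) m).trans subset_union_right
  have h1 : ∀ m, ∃ (c : ℕ) (l : ℕ × ℕ), m ≤ l.1 ∧ K m l.1 ⊆ u m c ∧ K l.1 l.2 ⊆ u m c ∧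
      (p.add fun _ => 0).A ∩ g '' Iio m ⊆ u m c := fun m => by
    obtain ⟨c, hc⟩ := (h0 m _ (hK m) (finite_K m)).exists
    obtain ⟨l, a1, a2⟩ := exists_K (hu.isOpen m c) hc
    obtain ⟨d, b1, b2, b3⟩ := ((eventually_ge_atTop c).and ((h0 m _ (hK l) (finite_K l)).and
      (h0 m _ inter_subset_left (((finite_Iio m).image g).inter_of_right _)))).exists
    obtain ⟨l', -, b4⟩ := exists_K (hu.isOpen m d) b2
    exact ⟨d, (l, l'), a1, a2.trans (hm m b1), b4, b3⟩
  choose f w h2 h3 h4 h5 using h1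
  refine ⟨p.add w, p.add_le w, f, fun r hr F hF hF' => ?_⟩
  have : ∀ᶠ m in atTop, ∀ x ∈ F, m ∈ r.M w → x ∈ u m (f m) :=
    (eventually_all_finite hF').2 fun x hx => by
      rcases hr.2.2.2 x (hF hx) with h | h
      · obtain ⟨i, rfl⟩ := hg h
        filter_upwards [eventually_gt_atTop i] with m a1 _ using h5 m ⟨h, i, a1, rfl⟩
      · filter_upwards [h w (mem_insert _ _)] with m a1 a2
        exact (a1 a2).elim (fun a3 => h3 m fun j b1 b2 => a3 j b1 (Nat.cast_lt.1 b2))
          fun a3 => h4 m fun j b1 b2 => a3 j ((h2 m).trans b1) b1 (Nat.cast_lt.1 b2)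
  obtain ⟨m, a1, a2⟩ := ((Nat.frequently_atTop_iff_infinite.2 (r.inf w)).and_eventually this).exists
  exact ⟨m, trivial, fun x hx => a2 x hx a1⟩

theorem negFin : appr.NegFin .G .Om := by
  classical
  refine ⟨fun n k => {x | n < (x k : ℕ)}, fun p => ⟨fun n k =>
    (isOpen_discrete {a : Fin (k + 1) | n < (a : ℕ)}).preimage (f := fun x : Y => x k)
      (continuous_apply k),
    fun q _ n k => ⟨q.add fun _ => 0, q.add_le _, fun h => ?_⟩,
    fun q _ n => ⟨infinite_univ, fun x hx => ?_⟩⟩, fun S hS p => ?_⟩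
  · have := h (a := update (fun j => Fin.last j) k 0) (Or.inr (mem_iUnion.2 ⟨k + 1,
      fun j h1 _ => by rw [update_of_ne (by omega)]; rfl⟩))
    simp at this
  · have := q.lim x hx n
    rw [← Nat.cofinite_eq_atTop, eventually_cofinite] at this
    simpa using this
  let σ : Y := fun k => ⟨sInf (insert k {n | (n, k) ∈ S}),
    Nat.lt_succ_of_le (Nat.sInf_le (mem_insert _ _))⟩
  have hσ : ∀ n, ∀ᶠ k in atTop, n < (σ k : ℕ) := fun n => by
    have : ∀ᶠ k in atTop, ∀ i ∈ Iic n, (i, k) ∉ S := (eventually_all_finite (finite_Iic n)).2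
      fun i _ => Nat.cofinite_eq_atTop ▸ (hS i).eventually_cofinite_notMem
    filter_upwards [this, eventually_gt_atTop n] with k h1 h2
    rcases Nat.sInf_mem (insert_nonempty k {n | (n, k) ∈ S}) with h | h
    · exact h2.trans_eq h.symm
    · exact not_le.1 fun h3 => h1 _ h3 h
  obtain ⟨g, hg⟩ := countable_iff_exists_subset_range.1 p.cntL
  obtain ⟨m, h1, h2, h3⟩ := exists_seq (fun t m => m ∈ p.M (g t.unpair.1))
    (fun t m => (g t.unpair.1 m).1 + (g t.unpair.1 m).2) fun t k =>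
      let ⟨m, a1, a2⟩ := (p.inf (g t.unpair.1)).exists_gt k; ⟨m, a2.le, a1⟩
  let E : ℕ → Prop := fun j => ∃ t, m t ≤ j ∧ j < (g t.unpair.1 (m t)).1
  let x : Y := fun j => if E j then Fin.last j else σ j
  let y : Y := fun j => if E j then σ j else Fin.last j
  refine ⟨⟨insert x (insert y p.A), p.L, fun w => if w ∈ p.L then m '' {t | g t.unpair.1 = w}
    else p.M w, (p.cntA.insert y).insert x, p.cntL, fun w => ?_, ?_⟩,
    ⟨(subset_insert _ _).trans (subset_insert _ _), Subset.rfl,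
      fun w => Eventually.of_forall fun k hk => ?_, ?_⟩, fun h => ?_⟩
  · split_ifs with h
    · obtain ⟨i, rfl⟩ := hg h
      exact (infinite_of_forall_exists_gt fun k => ⟨Nat.pair i (k + 1), by simp,
        Nat.right_le_pair i (k + 1)⟩).image h1.injective.injOn
    · exact p.inf w
  · rintro z (rfl | rfl | hz) n
    · filter_upwards [hσ n, eventually_gt_atTop n] with j a1 a2
      simp only [x]
      split_ifs
      exacts [a2, a1]
    · filter_upwards [hσ n, eventually_gt_atTop n] with j a1 a2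
      simp only [y]
      split_ifs
      exacts [a1, a2]
    · exact p.lim z hz n
  · simp only at hk
    split_ifs at hk
    · obtain ⟨t, rfl, rfl⟩ := hk
      exact h2 t
    · exact hk
  · rintro z (rfl | rfl | hz)
    · refine Or.inr fun w hw => Eventually.of_forall fun k hk => Or.inl fun j a1 a2 => ?_
      simp only [if_pos hw] at hk
      obtain ⟨t, rfl, rfl⟩ := hk
      simp [x, if_pos (show E j from ⟨t, a1, a2⟩)]
    · refine Or.inr fun w hw => Eventually.of_forall fun k hk => Or.inr fun j a1 a2 a3 => ?_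
      simp only [if_pos hw] at hk
      obtain ⟨t, rfl, rfl⟩ := hk
      have : ¬ E j := fun ⟨s, b1, b2⟩ => by
        rcases lt_trichotomy s t with h | rfl | h
        · have := h3 s t h
          omega
        · omega
        · have := h3 t s h
          omega
      simp [y, if_neg this]
    · exact Or.inl hz
  · obtain ⟨⟨n, k⟩, a1, a2⟩ := h {x, y} (insert_subset_insert (singleton_subset_iff.2
      (mem_insert _ _))) (toFinite _)
    have a3 : n < (x k : ℕ) := a2 (mem_insert _ _)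
    have a4 : n < (y k : ℕ) := a2 (mem_insert_of_mem _ rfl)
    have a5 : (σ k : ℕ) ≤ n := Nat.sInf_le (mem_insert_of_mem _ a1)
    by_cases h : E k
    · simp only [y, if_pos h] at a4
      omega
    · simp only [x, if_neg h] at a3
      omega

end Pool.Agent.P.MP_b17faa_gt.X6

namespace Pool.Agent.P.MP_b17faa_gt

theorem exists_X6 : ∃ (P : Type) (_ : Preorder P) (_ : Nonempty P)
    (a : Approx P ((j : ℕ) → Fin (j + 1))), a.PosU .Om ∧ a.NegFin .G .Om :=
  ⟨X6.Cond, inferInstance, inferInstance, X6.appr, X6.posU, X6.negFin⟩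

end Pool.Agent.P.MP_b17faa_gt
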