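import Pool.Agent.P.MP_b17faa_gt.Glue4
import Pool.Agent.P.MP_b17faa_gt.X1
import Pool.Agent.P.MP_b17faa_gt.X2
import Pool.Agent.P.MP_b17faa_gt.X3
import Pool.Agent.P.MP_b17faa_gt.X6
import Pool.Agent.P.MP_b17faa_gt.ThmC
import Pool.Agent.P.MP_b17faa_gt.ThmD
import Pool.Agent.P.MP_b17faa_gt.Hur13

/-!
The implications and the separations, collected.
-/

namespace Pool.Agent.P.MP_b17faa_gt

open Set

theorem sepA : Separates [0, 1, 2, 3, 12, 13, 18, 19, 20] [5, 6, 7, 14, 15] := by
  obtain ⟨P, _, _, a, h1, h2, h3⟩ := X1.exists_X1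
  obtain ⟨e, he⟩ := exists_inducing ℕ fun _ => X1.Nd
  exact sep1 a he h1 h2 h3

theorem sepB : Separates [4, 5, 6, 7, 14, 15] [10, 11, 17] := by
  obtain ⟨P, _, _, a, h1, h2, h3⟩ := exists_X2
  obtain ⟨e, he⟩ := exists_inducing ℕ fun _ => ZMod 2
  exact sep2 a he h1 h2 h3

theorem sepC : Separates [12, 14, 16] [0, 1, 4, 5, 8, 9, 18] := by
  obtain ⟨P, _, _, a, h1, h2, h3⟩ := exists_X3
  obtain ⟨e, he⟩ := exists_inducing_bool
  exact sep3 a he h1 h2 h3

theorem sepD : Separates [20] [13] := by
  obtain ⟨P, _, _, a, h1, h2⟩ := exists_X6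
  obtain ⟨e, he⟩ := exists_inducing ℕ fun j => Fin (j + 1)
  exact sep6 a he h1 h2

variable {X : Set ℝ} [Nonempty X]

theorem imp_1_0 (h : Property univ X 1) : Property univ X 0 :=
  s1In_univ.2 (gamma_of_S1_gamma_tau (s1In_univ.1 h))

theorem imp_5_4 (h : Property univ X 5) : Property univ X 4 :=
  s1In_univ.2 (gamma_of_S1_tau_tau (s1In_univ.1 h))

theorem imp_9_8 (h : Property univ X 9) : Property univ X 8 :=
  s1In_univ.2 (gamma_of_S1_omega_tau (s1In_univ.1 h))

theorem imp_8_4 (h : Property univ X 8) : Property univ X 4 :=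
  S1In.mono h tau_subset_omega Subset.rfl

theorem imp_4_0 (h : Property univ X 4) : Property univ X 0 :=
  S1In.mono h gamma_subset_tau Subset.rfl

theorem imp_0_18 (h : Property univ X 0) : Property univ X 18 := S1In.ufin h

theorem imp_12_3 (h : Property univ X 12) : Property univ X 3 := cover_of_sfin_gamma_tau X h

theorem imp_14_2 (h : Property univ X 14) : Property univ X 2 := omega_of_sfin_tau_tau X h

theorem imp_2_3 (h : Property univ X 2) : Property univ X 3 :=
  S1In.mono h Subset.rfl omega_subset_open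

theorem imp_16_10 (h : Property univ X 16) : Property univ X 10 := omega_of_sfin_omega_tau X h

theorem imp_10_6 (h : Property univ X 10) : Property univ X 6 :=
  S1In.mono h tau_subset_omega Subset.rfl

theorem imp_6_2 (h : Property univ X 6) : Property univ X 2 :=
  S1In.mono h gamma_subset_tau Subset.rfl

theorem imp_6_7 (h : Property univ X 6) : Property univ X 7 :=
  S1In.mono h Subset.rfl omega_subset_open

theorem imp_10_11 (h : Property univ X 10) : Property univ X 11 := rothberger_of_omega h

theorem imp_18_13 (h : Property univ X 18) : Property univ X 13 := sfin_omega_of_hurewicz X h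

theorem imp_19_13 (h : Property univ X 19) : Property univ X 13 := sfin_omega_of_ufin_tau X h

end Pool.Agent.P.MP_b17faa_gt
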