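import Pool.Agent.P.MP_b17faa_gt.X7Iface

/-!
The first condition, and coding of conditions by natural numbers.
-/

namespace Pool.Agent.P.MP_b17faa_gt.X7

open Set Filter Function

namespace Base

/-- the depth after a history (newest operation first) -/
def dp : List Op → ℕ
  | [] => 0
  | o :: l => o.dep (dp l)

/-- the birth times after a history started at level `i` -/
def ph (i : ℕ) : List Op → ℕ → ℕ
  | [] => fun _ => 0
  | o :: l => if (o = .push ∨ o = .rep) ∧ 1 ≤ o.dep (dp l) then
      update (ph i l) (o.dep (dp l)) (i + l.length) else ph i l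

/-- the output after a history started at level `i` -/
def wd (i : ℕ) : List Op → ℕ → ℕ
  | [] => fun _ => 0
  | o :: l => update (wd i l) (i + l.length) (ph i (o :: l) (dp (o :: l)))

theorem ph_le (i : ℕ) (l : List Op) (p : ℕ) : ph i l p ≤ i + l.length := by
  induction l with
  | nil => exact Nat.zero_le _
  | cons o l ih =>
    rw [ph, List.length_cons]
    split_ifs
    · rcases eq_or_ne p (o.dep (dp l)) with rfl | h
      · rw [update_self]; omega
      · rw [update_of_ne h]; omega
    · omega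

theorem ph_zero (i : ℕ) (l : List Op) : ph i l 0 = 0 := by
  induction l with
  | nil => rfl
  | cons o l ih =>
    rw [ph]
    split_ifs with h
    · rwa [update_of_ne (by omega)]
    · exact ih

theorem ph_step (i : ℕ) (l : List Op) (o : Op) (p : ℕ) (h : 2 * p + 1 ≤ o.lev (dp l)) :
    ph i (o :: l) p = ph i l p := by
  rw [ph]
  split_ifs with h1
  · refine update_of_ne ?_ _ _
    rcases h1.1 with rfl | rfl <;> simp only [Op.lev, Op.dep] at h ⊢ <;> omega
  · rfl

theorem ph_mono (i : ℕ) (l : List Op) {p p' : ℕ} (h : p ≤ p') (h' : p' ≤ dp l) :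
    ph i l p ≤ ph i l p' := by
  induction l with
  | nil => exact le_rfl
  | cons o l ih =>
    rw [dp] at h'
    rw [ph]
    split_ifs with h1
    · rcases h'.eq_or_lt with rfl | h2
      · rw [update_self]
        rcases eq_or_ne p (o.dep (dp l)) with e | e
        · rw [e, update_self]
        · rw [update_of_ne e]; exact ph_le i l p
      · rw [update_of_ne h2.ne, update_of_ne (h.trans_lt h2).ne]
        refine ih ?_
        rcases h1.1 with rfl | rfl <;> simp only [Op.dep] at h2 <;> omega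
    · refine ih ?_
      cases o <;> simp only [Op.dep] at h' h1 <;> first | omega | simp at h1

/-- the free stack machine with one option in each block -/
def mach : Mach (ℕ × List Op) ℕ where
  T i := i
  sz i := i
  A _ := {0}
  Fr _ _ _ _ := True
  idx x := x.1 + x.2.length
  dep x := dp x.2
  ent x p := (ph x.1 x.2 p, ph x.1 x.2 p)
  wd x := wd x.1 x.2
  step x o _ := (x.1, o :: x.2)
  T_mono := strictMono_id
  sz_mono := monotone_id
  sum_le i := by simp
  ne _ := Finset.singleton_nonempty _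
  fr _ := ⟨fun _ _ _ _ _ _ => trivial, fun _ _ _ _ _ _ _ => trivial⟩
  fib i := ((finite_Iic i).prod (List.finite_length_le Op i)).subset fun x hx => by
    have : x.1 + x.2.length = i := hx
    exact ⟨show x.1 ≤ i by omega, show x.2.length ≤ i by omega⟩
  idx_step _ _ _ := rfl
  dep_step _ _ _ := rfl
  ent_step x o _ p h := by simp only [ph_step x.1 x.2 o p h]
  new x o _ h h' := by simp only [ph, if_pos (And.intro h h'), update_self, le_refl]
  bd x p _ := ⟨ph_le _ _ _, ph_le _ _ _⟩
  zero x := ph_zero _ _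
  wd_step x o _ k h := update_of_ne h.ne _ _
  start i := ⟨(i, []), rfl, rfl, fun _ _ => rfl⟩
  cov i d _ _ x o b h _ _ h1 h2 e he h3 h4 := by
    refine ⟨b, le_trans (le_of_eq ?_) (h2 e he h3 h4)⟩
    have h5 : e.2 = (x b).1 + (x b).2.length := by have := (h b).1; omega
    simp only [h1, h5, wd, update_self]
    exact ph_step _ _ _ _ le_rfl

theorem tend (η : ℕ → ℕ) (y : ℕ → ℕ) (h : mach.Legal η y) : Tendsto y atTop atTop := by
  obtain ⟨p, xs, h1, h2, h3, h4, h5⟩ := h
  refine tendsto_atTop.2 fun c => ?_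
  obtain ⟨n, hn⟩ := h4 c
  have hd := (Mach.chain h3 (Nat.zero_le n)).dep_ge h2
  filter_upwards [eventually_ge_atTop (mach.idx (xs n))] with k hk
  obtain ⟨n', c1, c2⟩ := (((Mach.chain_tendsto h2 h3 h4).eventually_gt_atTop k).and
    (eventually_ge_atTop n)).exists
  obtain ⟨a, o, rfl, c3, c4, c5⟩ := Mach.Walk.extract (Mach.chain h3 c2) hk c1
  have c6 : mach.Play η (2 * p) (xs n) (mach.step a o (η (mach.idx a))) := c3.tail c4
  rw [h5 n' _ c1, c5.wd (k := mach.idx a) (Nat.lt_succ_self _)]
  have c7 : mach.wd (mach.step a o (η (mach.idx a))) (mach.idx a) =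
      ph a.1 (o :: a.2) (dp (o :: a.2)) := update_self ..
  rw [c7]
  exact (c6.fresh h1 hn (hn.trans (mach.bd _ p hd).1)).trans (ph_mono _ _ (c6.dep_ge hd) le_rfl)

end Base

theorem s_base : S_Base :=
  ⟨_, ⟨{ C := ∅
         M := Base.mach
         rt := fun _ => 0
         cnt := countable_empty
         big := fun _ => .of_forall fun _ => R.intro (fun _ _ => True)
           (fun _ _ _ _ _ => ⟨0, Finset.mem_singleton_self 0, trivial, trivial⟩) trivial
         tendC := fun _ h => h.elim
         tend := fun η y _ => Base.tend η y }⟩⟩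

namespace Code

variable {N O : Type} (M : Mach N O) (e : ℕ ≃ N) (g : ℕ → O) (sct : O → ℕ)

theorem mem {sct : O → ℕ} {g : ℕ → O} {A : Finset O} (h : ∀ a ∈ A, g (sct a) = a) {ν : ℕ}
    (hν : ν ∈ A.image sct) : g ν ∈ A := by
  obtain ⟨a, h1, rfl⟩ := Finset.mem_image.1 hν
  rwa [h a h1]

/-- the coded machine -/
def mach (h : ∀ i, ∀ a ∈ M.A i, g (sct a) = a) : Mach ℕ ℕ where
  T := M.T
  sz := M.sz
  A i := (M.A i).image sct
  Fr i d a b := M.Fr i d (g a) (g b)
  idx x := M.idx (e x)
  dep x := M.dep (e x)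
  ent x := M.ent (e x)
  wd x := M.wd (e x)
  step x o a := e.symm (M.step (e x) o (g a))
  T_mono := M.T_mono
  sz_mono := M.sz_mono
  sum_le i := (Finset.sum_le_sum fun _ _ => Finset.card_image_le).trans (M.sum_le i)
  ne i := (M.ne i).image _
  fr i := ⟨fun _ _ _ _ => (M.fr i).anti _ _ _ _, fun _ _ _ _ _ => (M.fr i).trans _ _ _ _ _⟩
  fib i := (M.fib i).preimage e.injective.injOn
  idx_step x o a := by rw [e.apply_symm_apply, M.idx_step]
  dep_step x o a := by rw [e.apply_symm_apply, M.dep_step]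
  ent_step x o a p hp := by rw [e.apply_symm_apply, M.ent_step _ _ _ _ hp]
  new x o a h1 h2 := by rw [e.apply_symm_apply]; exact M.new _ _ _ h1 h2
  bd x := M.bd (e x)
  zero x := M.zero (e x)
  wd_step x o a k hk := by rw [e.apply_symm_apply, M.wd_step _ _ _ _ hk]
  start i := by
    obtain ⟨x, hx⟩ := M.start i
    exact ⟨e.symm x, by rwa [e.apply_symm_apply]⟩
  cov i d μ ν x o b h1 h2 h3 h4 h5 := by
    simp only [e.apply_symm_apply]
    exact M.cov i d (g μ) (fun c => g (ν c)) (fun c => e (x c)) o b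
      (fun c => ⟨(h1 c).1, mem (h i) (h1 c).2⟩) h2 h3 h4 h5

/-- the decoding simulation -/
def sim : SimD ℕ ℕ N O :=
  ⟨0, fun j => j, fun i => i, fun a _ => g a, e, fun _ => e.symm, fun _ p => p⟩

theorem isSim (h : ∀ i, ∀ a ∈ M.A i, g (sct a) = a) : IsSim (mach M e g sct h) M (sim e g) where
  gal _ _ _ := Iff.rfl
  hT _ _ := rfl
  hsz _ _ := le_rfl
  mem i _ _ hν := mem (h i) hν
  fr _ _ _ _ _ h1 := h1
  idx _ _ := rfl
  wd _ _ _ _ := rfl
  low _ _ _ h1 h2 := ⟨h1, h2, le_rfl⟩
  play x o ν p _ _ _ _ h1 := by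
    refine ⟨?_, rfl⟩
    simp only [sim, mach, e.apply_symm_apply]
    exact Mach.Walk.single (η := fun _ => g ν) h1
  emb j x _ h1 := by
    simp only [sim, mach, e.apply_symm_apply] at h1 ⊢
    exact ⟨h1, trivial, trivial, fun _ _ => ⟨trivial, trivial⟩⟩

end Code

theorem s_code (hS : S_Sim) : S_Code := by
  intro N O q
  have := q.M.countable
  choose st hst using q.M.start
  have : Infinite N := .of_injective st fun a b h => by rw [← (hst a).1, h, (hst b).1]
  obtain ⟨e⟩ : Nonempty (ℕ ≃ N) := nonempty_equiv_of_countable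
  have : Nonempty O := ⟨q.rt 0⟩
  obtain ⟨g, hg⟩ := countable_iff_exists_subset_range.1
    ((countable_iUnion fun i => (q.M.A i).countable_toSet).union (countable_range q.rt))
  have h1 : ∀ i, ∀ a ∈ q.M.A i, g (invFun g a) = a := fun i a ha =>
    invFun_eq (hg (Or.inl (mem_iUnion.2 ⟨i, ha⟩)))
  have h2 : ∀ i, g (invFun g (q.rt i)) = q.rt i := fun i => invFun_eq (hg (Or.inr ⟨i, rfl⟩))
  have hs := Code.isSim q.M e g (invFun g) h1
  refine ⟨⟨q.C, Code.mach q.M e g (invFun g) h1, fun i => invFun g (q.rt i), q.cnt, fun m => ?_,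
    q.tendC, fun η y c1 c2 => q.tend _ y (hS.adm hs c1) (hS.legal hs c1 c2)⟩, Code.sim e g,
    fun _ => q.rt, Subset.rfl, hs, .of_forall fun i => Or.inl (h2 i).symm,
    fun _ c1 c2 => (c2 c1).elim, fun _ c1 c2 => (c2 c1).elim⟩
  filter_upwards [q.big m] with i hi
  refine R.intro (fun m a => R (q.M.Fr i) m (q.M.A i) (g a)) (fun m a c1 d hd => ?_)
    ((h2 i).symm ▸ hi)
  obtain ⟨b, c2, c3, c4⟩ := c1 d hd
  have c5 := h1 i b c2
  refine ⟨invFun g b, Finset.mem_image_of_mem _ c2, ?_, c5.symm ▸ c4⟩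
  change q.M.Fr i d (g a) (g (invFun g b))
  rwa [c5]

end Pool.Agent.P.MP_b17faa_gt.X7
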