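import Pool.Agent.P.MP_b17faa_gt.X7Iface

/-!
One step of the derived machine.
-/

namespace Pool.Agent.P.MP_b17faa_gt.X7

open Set Filter Function

namespace Blk

/-- the operation creates a new entry -/
def IsNew (s : Sta) (o : Op) : Prop := (o = .push ∨ o = .rep) ∧ 1 ≤ o.dep s.v

open Classical in
/-- the first request of a block -/
noncomputable def req (s : Sta) (o : Op) : Req :=
  if IsNew s o then .new (s.L (o.dep s.v - 1)) else .adj (s.L (o.dep s.v))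

theorem req_new {s : Sta} {o : Op} (h : IsNew s o) : req s o = .new (s.L (o.dep s.v - 1)) :=
  if_pos h

theorem req_adj {s : Sta} {o : Op} (h : ¬ IsNew s o) : req s o = .adj (s.L (o.dep s.v)) :=
  if_neg h

theorem dep_le (s : Sta) (o : Op) : o.dep s.v - 1 ≤ s.v := by
  cases o <;> simp only [Op.dep] <;> omega

theorem dep_le' {s : Sta} {o : Op} (h : ¬ IsNew s o) : o.dep s.v ≤ s.v := by
  cases o <;> simp only [Op.dep, IsNew] at h ⊢ <;> first | omega | simp at h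

theorem lev_of_lt {o : Op} {v p : ℕ} (h : p < o.dep v) : 2 * p + 1 ≤ o.lev v := by
  cases o <;> simp only [Op.dep, Op.lev] at h ⊢ <;> omega

theorem not_new_of_lev {s : Sta} {o : Op} (h : 2 * o.dep s.v + 1 ≤ o.lev s.v) : ¬ IsNew s o := by
  rintro ⟨rfl | rfl, -⟩ <;> simp only [Op.dep, Op.lev] at h <;> omega

variable {c : Ctx} {k : Skel} {j : ℕ} {s : Sta} {o : Op}

theorem small (s : Sta) (o : Op) (z : ℕ) : (req s o).Small z := by
  by_cases h : IsNew s o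
  · rw [req_new h]; trivial
  · rw [req_adj h]; trivial

theorem pre (hv : c.Valid k j s) (o : Op) {η : ℕ → ℕ} (h1 : XX c.S (c.M.dyn η) (s.x, s.D))
    (h2 : ∀ p ≤ s.v, Inv c.S (c.M.dyn η) c.K c.L (s.L p) (s.x, s.D)) :
    Pre c.S (c.M.dyn η) c.K c.L (req s o) (s.x, s.D) := by
  by_cases h : IsNew s o
  · rw [req_new h]
    have := dep_le s o
    exact ⟨h1, hv.wf _ this, (hv.tp_le le_rfl this).2.2, h2 _ this⟩
  · rw [req_adj h]
    have := dep_le' h
    exact ⟨h1, hv.wf _ this, (hv.tp_le le_rfl this).2.2, h2 _ this⟩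

theorem lvl_new (hv : c.Valid k j s) (h : IsNew s o) :
    s.lvl o ≤ 2 * ((s.L (o.dep s.v - 1)).tp + 1) := by
  obtain ⟨rfl | rfl, h2⟩ := h
  · simp only [Sta.lvl, Op.dep, Nat.add_sub_cancel]
    omega
  · simp only [Sta.lvl, Op.dep] at h2 ⊢
    have := (hv.adj (s.v - 1) (by omega)).1
    rw [Nat.sub_add_cancel h2] at this
    omega

theorem lvl_adj (hv : c.Valid k j s) (h : ¬ IsNew s o) :
    s.lvl o ≤ 2 * (s.L (o.dep s.v)).tp + 1 := by
  have := (hv.wf _ le_rfl).1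
  cases o
  · exact le_rfl
  · exact absurd ⟨Or.inl rfl, Nat.le_add_left _ _⟩ h
  · exact le_rfl
  · simp only [Sta.lvl, Op.dep]
    omega

/-- the common consequences of the first maneuver -/
theorem first (h : S_Calc) (hv : c.Valid k j s) {η : ℕ → ℕ} {y : ℕ} {b : ℕ × Dt} {w : Ent × ℕ}
    (hy : c.M.dep y = c.M.dep s.x)
    (hm : Man c.S (c.M.dyn η) c.K c.L (req s o) (y, s.D) (b, w)) :
    Rch c.S (c.M.dyn η) (s.lvl o) (y, s.D) b ∧ Post0 c.S (c.M.dyn η) c.K c.L w.1 w.2 b ∧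
      w.1.Wf ∧ s.lvl o ≤ 2 * w.1.tp + 1 ∧ (¬ IsNew s o → w.1 = s.L (o.dep s.v)) ∧
      (IsNew s o → (s.L (o.dep s.v - 1)).Adj w.1) := by
  have ok := c.M.ok c.V η
  by_cases hn : IsNew s o
  · rw [req_new hn] at hm
    obtain ⟨m1, m2, -, m4, -, -, m7⟩ := hm
    have a1 := lvl_new hv hn
    have a2 := (hv.lvl o le_rfl).1
    have a3 := m2.1
    have a4 := m4.1
    refine ⟨h.rch_mono ok (le_min a1 ?_) m1, m7, m4, ?_, fun h' => absurd hn h', fun _ => m2⟩
    · exact a2.trans_eq (by rw [← hy]; rfl)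
    · simp only at a3 a4
      omega
  · rw [req_adj hn] at hm
    obtain ⟨m1, m2, m3⟩ := hm
    have a1 := lvl_adj hv hn
    simp only at m2 m3
    rw [m2]
    exact ⟨h.rch_mono ok a1 m1, m3, hv.wf _ (dep_le' hn), a1, fun _ => rfl, fun h' => absurd h' hn⟩

end Blk

open Blk in
theorem s_blk (h : S_Calc) (hz : S_Zone) (hg : S_Gap) : S_Blk := by
  intro c k hk j s o ν hv hν
  set η : ℕ → ℕ := fun i => if i < k.bl j then s.pre i else ν.1 i with hη
  have hηB : η ∈ Pt c.B := fun i => by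
    by_cases hi : i < k.bl j
    · simp only [hη, if_pos hi]; exact hv.pre i
    · simp only [hη, if_neg hi]; exact Ctx.pt_of_mem hν i
  have hbox := hv.inv.mono (η' := η) le_rfl fun i hi => if_pos hi
  obtain ⟨-, hI, hH⟩ := Ctx.mem_A'.1 hν
  have hI0 := mem_Iv.1 ((hI 0).1 (by omega))
  have hH' := mem_Iv.1 hH
  have hz1 : c.nxt (c.z k j 0 (ν.2.1 0).1) ≤ k.s j 1 := by
    rw [← Ctx.z_succ]
    exact hk.z_le (hI0.2.1.trans hI0.2.2)
  have hz0 : k.bl j ≤ c.z k j 0 (ν.2.1 0).1 := hk.s0 j ▸ Ctx.s_le_z j 0 _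
  have hs1 : k.bl j ≤ k.s j 1 := hz0.trans ((c.lt_nxt _).le.trans hz1)
  have hs2 : k.s j 1 ≤ k.s j (k.ga j + 2) := (hk.s_mono j).monotone (by omega)
  have hs3 : k.s j 1 ≤ k.s j (ν.2.2.1 + 1) := (hk.s_mono j).monotone (by omega)
  have hs4 := hk.fin j
  obtain ⟨y, y', x1, D1, w, c1, c2, c3, c4, c5, c6, c7, c8, c9⟩ :=
    hz c (req s o) η s.x s.D _ (k.s j 1) hηB (hv.idx ▸ hz0) hz1 (hv.sz.trans hz0) (small s o _)
      (by
        rw [hv.idx]
        exact fun η' a1 a2 => pre hv o (hbox η' a1 a2).1 (hbox η' a1 a2).2)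
  obtain ⟨f1, f2, f3, f4, f5, f6⟩ := first h hv c1.dep c3
  obtain ⟨x2, D2, gp⟩ := hg c k hk j ν η w.1 x1 D1 hν hηB f3 c6 (c7.trans hz1) (by
    intro η' a1 a2
    obtain ⟨g1, g2, -⟩ := first h hv rfl (c9 η' a1 a2)
    exact ⟨g1.2.2, g2.1, g2.2.1, fun n hn => g2.2.2 n ((c8.trans hz1).trans hn)⟩)
  obtain ⟨x3, d1, d2⟩ := Mach.exists_sit (M := c.M) η x2 (i := k.bl (j + 1)) (gp.idx ▸ hs4)
  have hw : want ν (k.ga j + 2 - 1) = false := by
    simp only [want, decide_eq_false_iff_not]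
    omega
  have hd2 : c.M.dep x2 = w.1.tp := (((gp.box.self hηB).2 (by omega)).2.2.2 hw).1
  -- the whole run for all options in the cylinder
  have key : ∀ η' ∈ Pt c.B, (∀ i < k.bl (j + 1), η' i = η i) →
      Rch c.S (c.M.dyn η') (2 * w.1.tp + 1) (x1, D1) (x3, D2) ∧
        Rch c.S (c.M.dyn η') (s.lvl o) (s.x, s.D) (x3, D2) ∧
        Inv c.S (c.M.dyn η') c.K c.L w.1 (x3, D2) := by
    intro η' a1 a2
    have ok := c.M.ok c.V η'
    obtain ⟨g1, g2, -⟩ := first h hv rfl (c9 η' a1 fun i hi => a2 i (by omega))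
    have g3 := (gp.box η' a1 fun i hi => a2 i (by omega)).1
    have g4 : c.M.Sit η' x2 x3 := Mach.Walk.congr d1 fun i _ hi => a2 i (d2 ▸ hi)
    have g5 := h.rch_sit ok g3.2.2 g4
    have g6 : Rch c.S (c.M.dyn η') (2 * w.1.tp + 1) (x1, D1) (x3, D2) :=
      h.rch_trans ok g3 (hd2 ▸ g5)
    exact ⟨g6, h.rch_trans ok g1 (h.rch_mono ok f4 g6), h.inv ok f3 g2.2.1 g6⟩
  obtain ⟨k1, k2, -⟩ := key η hηB fun _ _ => rfl
  have ok := c.M.ok c.V η
  have hm := c9.self hηB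
  have hkeep : ∀ p, 2 * p + 1 ≤ o.lev s.v → update s.L (o.dep s.v) w.1 p = s.L p := by
    intro p hp
    by_cases e : p = o.dep s.v
    · subst e
      rw [update_self, f5 (not_new_of_lev hp)]
    · exact update_of_ne e _ _
  have hle : ∀ p, 2 * p + 1 ≤ o.lev s.v → p ≤ s.v := fun p hp => by
    have := Op.lev_le o s.v
    omega
  have hpl : c.M.Play η (2 * w.1.tp + 1) x1 x3 := k1.1
  refine ⟨⟨x3, η, o.dep s.v, update s.L (o.dep s.v) w.1, D2⟩,
    ⟨d2, hηB, gp.sz.trans hs4, ?_, ?_, fun p hp => ?_, fun p hp => ?_, fun η' a1 a2 => ?_⟩,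
    rfl, rfl, hkeep, ?_, k2.2.1, fun a1 a2 => ?_, fun a1 a2 => ?_, fun g a1 a2 => ?_⟩
  · change update s.L (o.dep s.v) w.1 0 = _
    by_cases e : o.dep s.v = 0
    · have hn : ¬ IsNew s o := fun hn => by have := hn.2; omega
      rw [f5 hn, update_eq_self, hv.zero]
    · rw [update_of_ne (Ne.symm e), hv.zero]
  · change (update s.L (o.dep s.v) w.1 (o.dep s.v)).tp = c.M.dep x3
    rw [update_self, d1.dep, hd2]
  · change (update s.L (o.dep s.v) w.1 p).Wf
    rcases (show p ≤ o.dep s.v from hp).eq_or_lt with e | e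
    · rw [e, update_self]; exact f3
    · rw [hkeep p (lev_of_lt e)]; exact hv.wf p (hle p (lev_of_lt e))
  · change (update s.L (o.dep s.v) w.1 p).Adj (update s.L (o.dep s.v) w.1 (p + 1))
    have hp' : p < o.dep s.v := hp
    rw [hkeep p (lev_of_lt hp')]
    rcases (Nat.succ_le_of_lt hp').eq_or_lt with e | e
    · have e' : p + 1 = o.dep s.v := e
      rw [e', update_self]
      by_cases hn : IsNew s o
      · have := f6 hn
        rwa [← e', Nat.add_sub_cancel] at this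
      · rw [f5 hn, ← e']
        exact hv.adj p (hp'.trans_le (dep_le' hn))
    · rw [hkeep _ (lev_of_lt e)]
      exact hv.adj p (hle _ (lev_of_lt e))
  · obtain ⟨-, g2, g3⟩ := key η' a1 a2
    refine ⟨g2.2.2, fun p hp => ?_⟩
    change Inv c.S (c.M.dyn η') c.K c.L (update s.L (o.dep s.v) w.1 p) (x3, D2)
    rcases (show p ≤ o.dep s.v from hp).eq_or_lt with e | e
    · rw [e, update_self]; exact g3
    · have e1 := lev_of_lt e
      have e2 := hle p e1
      have ok' := c.M.ok c.V η'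
      rw [hkeep p e1]
      exact h.inv ok' (hv.wf p e2) ((hbox η' a1 fun i hi => a2 i (by omega)).2 p e2)
        (h.rch_mono ok' ((hv.lvl o e2).2.1 e1) g2)
  · change c.M.Walk η (c.Tr k j s o ν) s.x x3
    have T1 : c.M.T (k.s j 1) ≤ c.M.T (k.s j (ν.2.2.1 + 1)) := c.M.T_mono.monotone hs3
    have e0 : c.M.eff s.x ≤ c.M.T (k.s j 1) :=
      (c.M.eff_le _).trans (c.M.T_mono.monotone (hv.idx ▸ hs1))
    have e1 : c.M.eff y' ≤ c.M.T (k.s j 1) :=
      (c.M.eff_le _).trans (c.M.T_mono.monotone (c4.trans hz1))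
    have dy' : c.M.dep y' = w.1.tp := f2.1
    have p1 : c.M.Play η (s.lvl o) y y' := f1.1
    have e2 : o = .sit → c.M.eff y' ≤ c.M.eff s.x := by
      rintro rfl
      have b1 : w.1 = s.L s.v := f5 (not_new_of_lev le_rfl)
      have b2 : s.lvl .sit = 2 * c.M.dep y + 1 := by rw [c1.dep, ← hv.top]; rfl
      rw [b2] at p1
      rw [p1.eff (by rw [dy', b1, hv.top, c1.dep]), c1.eff]
    have e3 := c5.eff
    have e4 := gp.eff.2 hw
    have sitTr : ∀ a, s.lvl o ≤ 2 * c.M.dep a + 1 → c.M.eff a ≤ c.M.T (k.s j 1) →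
        (o = .sit → c.M.eff a ≤ c.M.eff s.x) → c.Tr k j s o ν a .sit :=
      fun a b1 b2 b3 => ⟨b1, fun _ => ⟨rfl, b2.trans T1, fun _ => ⟨b2, b3⟩⟩⟩
    refine ((((c1.walk fun a _ _ b1 b2 => ?_).1.trans (Mach.Walk.imp p1 fun a o' b1 b2 b3 =>
      ?_)).trans (c5.walk fun a _ _ b1 b2 => ?_).1).trans
      (gp.walk.mono fun a o' b1 => ?_)).trans (d1.walk fun a _ _ b1 b2 => ?_).1
    · exact sitTr a (b1 ▸ (hv.lvl o le_rfl).1) (b2 ▸ e0) fun _ => b2.le
    · refine ⟨b1, fun hn => absurd ⟨0, by omega, c2 ▸ b2, ?_⟩ hn⟩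
      rw [Ctx.z_succ]
      exact b3.trans_le c4
    · exact sitTr a (by rw [b1, dy']; exact f4) (b2 ▸ e1) (b2 ▸ e2)
    · refine ⟨f4.trans b1.1, fun hn => ⟨(b1.2 hn).1, (b1.2 hn).2.1, fun hn' => ?_⟩⟩
      rw [(b1.2 hn).2.2 hn', e3]
      exact ⟨e1, e2⟩
    · exact sitTr a (by rw [b1, hd2]; exact f4) (by rw [b2, e4, e3]; exact e1)
        (by rw [b2, e4, e3]; exact e2)
  · have hn : IsNew s o := ⟨a1, a2⟩
    change c.M.T (k.bl j) ≤ (c.M.ent x3 (update s.L (o.dep s.v) w.1 (o.dep s.v)).bp).1 ∧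
      (update s.L (o.dep s.v) w.1 (o.dep s.v)).Act
    rw [req_new hn] at hm
    obtain ⟨-, m2, m3, -, m5, -⟩ := hm
    rw [update_self, hpl.ent (p := w.1.bp) (by have := f3.1; omega), ← hv.idx]
    exact ⟨(show w.1.bp = _ from m2.1) ▸ m5, m3⟩
  · subst a1
    have hn : IsNew s .rep := ⟨Or.inr rfl, a2⟩
    have g1 := (first h hv rfl hm).1
    rw [req_new hn] at hm
    obtain ⟨-, m2, m3, -, -, m6, m7⟩ := hm
    have b1 : (s.L (s.v - 1)).Adj (s.L s.v) := by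
      have := hv.adj (s.v - 1) (by omega)
      rwa [Nat.sub_add_cancel a2] at this
    refine ⟨fun e he => ok.kill x1 x3 e (hpl.mono (Nat.zero_le _)) (m6 e (b1.1 ▸ he) ?_), ?_⟩
    · change (s.L (s.v - 1)).tp + 1 ≤ c.M.dep s.x
      rw [← b1.1, ← hv.top]
      exact (hv.wf _ le_rfl).1
    · change ((s.L s.v).d ≠ 0 → (update s.L s.v w.1 s.v).d = _) ∧
        ((s.L s.v).d = 0 → _ → (update s.L s.v w.1 s.v).d = 0)
      rw [update_self]
      exact h.keep ok b1 m2 m3 ((hbox.self hηB).2 _ le_rfl) g1 m7.2.1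
  · change Rec c.S (update s.L (o.dep s.v) w.1 (o.dep s.v)) _ _ _ (x3, D2)
    rw [update_self]
    have g1 := gp.plc g a1 (by omega)
    rw [hw] at g1
    refine ⟨fun b1 => ?_, g1.2⟩
    rcases g1.1 b1 with b2 | b2
    · exact Or.inl (ok.kill x2 x3 _ (d1.play.mono (Nat.zero_le _)) b2)
    · exact Or.inr b2

end Pool.Agent.P.MP_b17faa_gt.X7
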