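import Pool.Agent.P.MP_b17faa_gt.X7Calc1

/-!
The calculus of signed tests: modes and maneuvers.
-/

namespace Pool.Agent.P.MP_b17faa_gt.X7

open Set Filter Function

namespace Calc

variable {N : Type} {S : Stat N} {P : Dyn N} {K L : Set ℕ} {s t l l' j d n : ℕ} {x y : N}
  {D D' : Dt} {e : ℕ × ℕ} {a b c : N × Dt} {E : Ent}

theorem kk_persist (h : Ok S P) (h1 : Kk S P K L d t a) (h2 : Rch S P l a b)
    (e : 2 * t + 1 ≤ l) : Kk S P K L d t b := fun c h3 => h1 c (trans h h2 h3 e le_rfl)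

theorem nok_persist (h : Ok S P) (h1 : NoK S P K L j a) (h2 : Rch S P l a b)
    (e : 2 * j ≤ l) : NoK S P K L j b := fun c h3 => h1 c (trans h h2 h3 e le_rfl)

theorem cone_persist (h : Ok S P) (h1 : Cone S P K L d a) (h2 : Rch S P l a b)
    (e : 2 * d ≤ l) : Cone S P K L d b := fun c h3 => h1 c (trans h h2 h3 e le_rfl)

theorem not_both (h : Ok S P) (ha : XX S P a) (h1 : Cone S P K L d a) (h2 : NoK S P K L d a) :
    False :=
  let ⟨c, a1, a2⟩ := h1 a (refl h ha); h2 c a1 a2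

theorem inv_persist (h : Ok S P) (hE : E.Wf) (h1 : Inv S P K L E a) (h2 : Rch S P l a b)
    (e : 2 * E.tp + 1 ≤ l) : Inv S P K L E b := by
  obtain ⟨w1, w2, w3, w4⟩ := hE
  exact ⟨nok_persist h h1.1 h2 (by omega), dense_persist h h1.2.1 h2 e, fun hd =>
    ⟨kk_persist h (h1.2.2 hd).1 h2 (by omega), never_persist h (h1.2.2 hd).2.1 h2 e,
      fun c => cone_persist h ((h1.2.2 hd).2.2 c) h2 (by omega)⟩⟩

theorem nok_dense (h : Ok S P) (ha : XX S P a) (h1 : NoK S P K L j a) :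
    ∃ b, Rch S P (2 * S.dep a.1 + 1) a b ∧ Dense S P (rdy S P K L j) (S.dep b.1) b := by
  simpa [Kk] using h1 a (refl h ha)

/-- the common end of the two cone cases -/
theorem cone_end (h : Ok S P) (ha : XX S P a) (h1 : NoK S P K L j a) (h2 : Kk S P K L d t a)
    (ht : t ≤ S.dep a.1) : ∃ b, Rch S P (2 * S.dep a.1 + 1) a b ∧
      Dense S P (rdy S P K L j) (S.dep b.1) b ∧ Never S P (rdy S P K L d) (S.dep b.1) b := by
  obtain ⟨b, a1, a2⟩ := nok_dense h ha h1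
  obtain ⟨c, a3, a4, a5⟩ := not_dense h (h2 b (mono h a1 (by omega))) le_rfl
  have := dep_ge h a1.1 (s := S.dep a.1) (by omega) le_rfl
  exact ⟨c, trans h a1 a3 le_rfl (by omega), a4 ▸ dense_persist h a2 a3 le_rfl, a4 ▸ a5⟩

/-- setting up a new entry -/
theorem setup (h : Ok S P) (ha : XX S P a) (hE : E.Wf) (h1 : NoK S P K L E.gp a)
    (h2 : E.d ≠ 0 → Kk S P K L E.d E.t0 a) (ht : S.dep a.1 = E.tp + 1) :
    ∃ b E', Rch S P (2 * (E.tp + 1)) a b ∧ E.Adj E' ∧ E'.Act ∧ E'.Wf ∧ S.dep b.1 = E'.tp ∧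
      Inv S P K L E' b := by
  obtain ⟨w1, w2, w3, w4⟩ := hE
  by_cases hd : E.d = 0
  · by_cases hc : Cone S P K L (E.tp + 1) a
    · obtain ⟨c, a1, a2⟩ := hc a (refl h ha)
      have d1 := h.dep_ge _ _ _ a1.1 ht.ge
      obtain ⟨b, a3, a4, a5⟩ := cone_end h a1.2.2 (nok_persist h h1 a1 (by omega)) a2 le_rfl
      have d2 := dep_ge h a3.1 (s := S.dep c.1) (by omega) le_rfl
      have a6 := trans h a1 a3 le_rfl (by omega)
      exact ⟨b, ⟨E.tp + 1, S.dep b.1, E.gp, E.tp + 1, S.dep c.1⟩, a6,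
        ⟨rfl, le_rfl, fun c => absurd hd c, fun _ => Or.inr rfl⟩, Or.inl (Nat.succ_ne_zero _),
        ⟨d1.trans d2, by dsimp only; omega, le_rfl, d2⟩, rfl,
        nok_persist h h1 a6 (by omega : 2 * E.gp ≤ _), a4,
        fun _ => ⟨kk_persist h a2 a3 le_rfl, a5, fun _ => cone_persist h hc a6 le_rfl⟩⟩
    · simp only [Cone, not_forall, not_exists, not_and] at hc
      obtain ⟨c, a1, a2⟩ := hc
      have d1 := h.dep_ge _ _ _ a1.1 ht.ge
      obtain ⟨b, a3, a4⟩ := nok_dense h a1.2.2 a2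
      have d2 := dep_ge h a3.1 (s := S.dep c.1) (by omega) le_rfl
      exact ⟨b, ⟨E.tp + 1, S.dep b.1, E.tp + 1, 0, 0⟩, trans h a1 a3 le_rfl (by omega),
        ⟨rfl, by dsimp only; omega, fun c => absurd hd c, fun _ => Or.inl rfl⟩, Or.inr rfl,
        ⟨d1.trans d2, le_rfl, Nat.zero_le _, Nat.zero_le _⟩, rfl,
        nok_persist h a2 a3 (by dsimp only; omega), a4, fun c => absurd rfl c⟩
  · obtain ⟨b, a3, a4, a5⟩ := cone_end h ha h1 (h2 hd) (by omega)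
    have d2 := dep_ge h a3.1 (s := S.dep a.1) (by omega) le_rfl
    exact ⟨b, ⟨E.tp + 1, S.dep b.1, E.gp, E.d, E.t0⟩, mono h a3 (by omega),
      ⟨rfl, le_rfl, fun _ => rfl, fun c => absurd c hd⟩, Or.inl hd,
      ⟨ht ▸ d2, by dsimp only; omega, by dsimp only; omega, by dsimp only; omega⟩, rfl,
      nok_persist h h1 a3 (by omega : 2 * E.gp ≤ _), a4,
      fun _ => ⟨kk_persist h (h2 hd) a3 (by omega : 2 * E.t0 + 1 ≤ _), a5,
        fun c => by dsimp only at c; omega⟩⟩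

theorem adjust0 (H : Hyp S P K L) (ha : XX S P a) (hE : E.Wf) (h1 : Inv S P K L E a) :
    ∃ b c, Rch S P (2 * E.tp + 1) a b ∧ Post0 S P K L E c b := by
  have h := H.toOk
  obtain ⟨b, a1, a2, a3⟩ := h1.2.1 a (refl h ha)
  have a4 : ∀ᶠ n in atTop, E.d ≠ 0 → n ∈ L → ¬ Ap S P K n E.d b := by
    by_cases hd : E.d = 0
    · exact .of_forall fun _ c => absurd hd c
    · exact ((H.hl _ b).resolve_left ((h1.2.2 hd).2.1 b a1 a2)).mono fun _ c _ => c
  obtain ⟨c, hc⟩ := eventually_atTop.1 (a3.and a4)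
  exact ⟨b, c, a1, a2, inv_persist h hE h1 a1 le_rfl, fun n c1 c2 =>
    ⟨(hc n c1).1 c2, fun c3 => (hc n c1).2 c3 c2⟩⟩

/-- leaving the hole, if necessary, and getting ready at the base depth -/
theorem adjust_out (H : Hyp S P K L) (ha : XX S P a) (ht : E.tp ≤ S.dep a.1)
    (h1 : Dense S P (ready S P K n E.gp) E.tp a)
    (h2 : E.d ≠ 0 → Never S P (ready S P K n E.d) E.tp a) :
    ∃ b c, Rch S P (2 * E.tp + 1) a b ∧ Post1 S P K n E false c b ∧
      ∀ e, (E.tp + 1, true, e) ∈ a.2 → E.tp + 1 ≤ S.dep a.1 → S.kill b.1 e := by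
  have h := H.toOk
  obtain ⟨y, a0, -, a5⟩ := close h ha ht
  obtain ⟨b, a1, a2, a3⟩ := h1 _ a0
  have a6 := trans h a0 a1 le_rfl le_rfl
  have a4 : ∀ᶠ k in atTop, E.d ≠ 0 → k ∈ K → ¬ plus S P E.d (n, k) b := by
    by_cases hd : E.d = 0
    · exact .of_forall fun _ c => absurd hd c
    · exact ((H.hk _ n b).resolve_left (h2 hd b a6 a2)).mono fun _ c _ => c
  obtain ⟨c, hc⟩ := eventually_atTop.1 (a3.and a4)
  exact ⟨b, c, a6, ⟨dense_persist h h1 a6 le_rfl, fun hd => never_persist h (h2 hd) a6 le_rfl,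
    nofun, fun _ => ⟨a2, fun k c1 c2 => ⟨(hc k c1).1 c2, fun c3 => (hc k c1).2 c3 c2⟩⟩⟩,
    fun e c1 c2 => kl h a1.1 (a5 _ e c1 (Nat.lt_succ_self _) c2)⟩

/-- getting ready in the hole -/
theorem adjust_in (h : Ok S P) (ha : XX S P a) (ht : E.tp < S.dep a.1)
    (h1 : Dense S P (ready S P K n E.gp) E.tp a)
    (h2 : E.d ≠ 0 → Never S P (ready S P K n E.d) E.tp a)
    (h3 : Dense S P (ready S P K n (E.tp + 1)) (S.dep a.1) a) :
    ∃ b c, Rch S P (2 * S.dep a.1 + 1) a b ∧ S.dep b.1 = S.dep a.1 ∧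
      Post1 S P K n E true c b := by
  obtain ⟨b, a1, a2, a3⟩ := h3 a (refl h ha)
  obtain ⟨c, hc⟩ := eventually_atTop.1 a3
  exact ⟨b, c, a1, a2, dense_persist h h1 a1 (by omega),
    fun hd => never_persist h (h2 hd) a1 (by omega),
    fun _ => ⟨a2 ▸ ht, a2 ▸ dense_persist h h3 a1 le_rfl, hc⟩, nofun⟩

/-- from the base depth to the requested side -/
theorem switch (H : Hyp S P K L) (ha : XX S P a) (ht : S.dep a.1 = E.tp)
    (h1 : Dense S P (ready S P K n E.gp) E.tp a)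
    (h2 : E.d ≠ 0 → Never S P (ready S P K n E.d) E.tp a) (want : Bool) :
    ∃ b c, Rch S P (2 * E.tp + 1) a b ∧ Post1 S P K n E want c b := by
  have h := H.toOk
  cases want with
  | false => exact let ⟨b, c, a1, a2, _⟩ := adjust_out H ha ht.ge h1 h2; ⟨b, c, a1, a2⟩
  | true =>
    obtain ⟨b1, a1, a2, -⟩ := push h ha
    rw [ht] at a1 a2
    obtain ⟨b2, a3, a4⟩ := hole H n a1.2.2 a2.ge
    have a5 := trans h a1 a3 le_rfl (by omega)
    have d1 := h.dep_ge _ _ _ a3.1 a2.ge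
    obtain ⟨b, c, a6, -, a7⟩ := adjust_in h a3.2.2 d1 (dense_persist h h1 a5 le_rfl)
      (fun hd => never_persist h (h2 hd) a5 le_rfl) a4
    exact ⟨b, c, trans h a5 a6 le_rfl (by omega), a7⟩

theorem man (H : Hyp S P K L) {r : Req} (hr : Pre S P K L r a) : ∃ w, Man S P K L r a w := by
  have h := H.toOk
  cases r with
  | adj E =>
    obtain ⟨h1, h2, -, h4⟩ := hr
    obtain ⟨b, c, a1, a2⟩ := adjust0 H h1 h2 h4
    exact ⟨(b, E, c), a1, rfl, a2⟩
  | new E =>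
    obtain ⟨h1, h2, h3, h4⟩ := hr
    obtain ⟨b, a1, a2, a3, a4⟩ : ∃ b, Rch S P (min (2 * (E.tp + 1)) (2 * S.dep a.1 + 1)) a b ∧
        S.dep b.1 = E.tp + 1 ∧ S.tm a.1 ≤ S.ph b.1 (E.tp + 1) ∧
          ∀ e, (E.tp + 1, true, e) ∈ a.2 → E.tp + 1 ≤ S.dep a.1 → S.kill b.1 e := by
      rcases h3.eq_or_lt with e | e
      · obtain ⟨b, a1, a2, a3⟩ := push h h1
        exact ⟨b, mono h a1 (min_le_right _ _), e ▸ a2, e ▸ a3, fun _ _ c => by omega⟩
      · obtain ⟨y, a1, a2, a3, -, a4⟩ := renew h h1 e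
        exact ⟨_, mono h a1 (min_le_left _ _), a2, a3, fun e c _ => a4 e c⟩
    have a5 := inv_persist h h2 h4 a1 (by omega)
    obtain ⟨b1, E', a6, a7, a8, a9, a10, a11⟩ :=
      setup h a1.2.2 h2 a5.1 (fun hd => (a5.2.2 hd).1) a2
    obtain ⟨b2, c, a12, a13⟩ := adjust0 H a6.2.2 a9 a11
    have a14 : Rch S P (2 * (E.tp + 1)) b b2 :=
      trans h a6 a12 le_rfl (by have := a7.1; have := a9.1; omega)
    exact ⟨(b2, E', c), trans h a1 a14 le_rfl (min_le_left _ _), a7, a8, a9,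
      h.fresh _ _ _ _ a14.1 (by omega) a2.ge a3
        (h.tm_le _ _ (h.mono _ _ _ _ (Nat.zero_le _) a1.1)),
      fun e c1 c2 => kl h a14.1 (a4 e c1 c2), a13⟩
  | fst E n want =>
    obtain ⟨h1, -, h3, ⟨x, h4, h5⟩, h6⟩ := hr
    have a1 := sit h (D := a.2) h1 h4
    have d1 := (h.st_pl _ _ h4).2
    rw [h3] at a1 h5 d1
    obtain ⟨b, a2, a3, a4⟩ : ∃ b, Rch S P (2 * E.tp + 1) (x, a.2) b ∧ S.dep b.1 = E.tp ∧
        (E.d ≠ 0 → Never S P (ready S P K n E.d) E.tp b) := by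
      by_cases hd : E.d = 0
      · exact ⟨_, refl h a1.2.2, d1, fun c => absurd hd c⟩
      · obtain ⟨b, a2, a3, a4⟩ := not_dense h (t := E.tp) (a := (x, a.2))
          (fun c => h6 hd ⟨x, h4, h3 ▸ c⟩) d1.ge
        exact ⟨b, a2, a3, fun _ => a4⟩
    obtain ⟨b', c, a5, a6⟩ := switch H a2.2.2 a3 (dense_persist h h5 a2 le_rfl) a4 want
    exact ⟨(b', E, c), trans h (trans h a1 a2 le_rfl le_rfl) a5 le_rfl le_rfl, a6⟩
  | gap E n k hh want =>
    obtain ⟨h1, h2, h3, h4, h5, h6, h7⟩ := hr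
    cases hh with
    | false =>
      obtain ⟨h8, h9⟩ := h7 rfl
      obtain ⟨w1, w2, w3, w4⟩ := h2
      obtain ⟨b, a1, a2, a3, a4⟩ := place h (h9 k le_rfl h3).1 (by omega) (h9 k le_rfl h3).2
      rw [h8] at a1 a2
      obtain ⟨b', c, a5, a6⟩ := switch H a1.2.2 a2 (dense_persist h h4 a1 le_rfl)
        (fun hd => never_persist h (h5 hd) a1 le_rfl) want
      exact ⟨(b', E, c), trans h a1 a5 le_rfl le_rfl, a6, nofun, nofun, nofun, fun _ =>
        ⟨fun i hi => a5.2.1 _ (a3 i hi) (by dsimp only; omega),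
          a5.2.1 _ a4 (by dsimp only; omega)⟩⟩
    | true =>
      obtain ⟨h8, h9, h10⟩ := h6 rfl
      obtain ⟨b, a1, a2, a3, -⟩ := place h (d := 0) (h10 k le_rfl h3) h8 fun c => absurd rfl c
      have a5 := dense_persist h h4 a1 (by omega)
      have a6 := fun hd => never_persist h (h5 hd) a1 (by omega)
      cases want with
      | false =>
        obtain ⟨b', c, a7, a8, a9⟩ := adjust_out H a1.2.2 (by omega) a5 a6
        exact ⟨(b', E, c), trans h a1 a7 (by omega) le_rfl, a8, fun _ => nofun,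
          fun _ _ e c => a9 e (a1.2.1 _ c (by dsimp only; omega)) (by omega),
          fun _ => Or.inl (a9 _ (a3 _ le_rfl) (by omega)), nofun⟩
      | true =>
        obtain ⟨b', c, a7, a8, a9⟩ := adjust_in h a1.2.2 (a2 ▸ h8) a5 a6
          (a2 ▸ dense_persist h h9 a1 le_rfl)
        have a10 := trans h a1 a7 le_rfl (by omega)
        exact ⟨(b', E, c), mono h a10 (by omega), a9, fun _ _ => ⟨a10, a8.trans a2⟩,
          fun _ => nofun, fun _ => Or.inr ⟨rfl, a7.2.1 _ (a3 _ le_rfl) (by dsimp only; omega)⟩,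
          nofun⟩

theorem post0_sit (h : Ok S P) {c : ℕ} (hE : E.Wf) (hx : XX S P (x, D)) (hs : P.St x y)
    (h1 : Post0 S P K L E c (x, D)) : Post0 S P K L E c (y, D) :=
  ⟨(h.st_pl _ _ hs).2.trans h1.1, inv_persist h hE h1.2.1 (sit h hx hs) (h1.1 ▸ le_rfl),
    fun n c1 c2 => by simpa only [← ap_sit h hx hs] using h1.2.2 n c1 c2⟩

theorem post1_tp {hh : Bool} {c : ℕ} (h1 : Post1 S P K n E hh c a) : E.tp ≤ S.dep a.1 := by
  cases hh
  exacts [(h1.2.2.2 rfl).1.ge, (h1.2.2.1 rfl).1.le]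

theorem post1_sit (h : Ok S P) {hh : Bool} {c : ℕ} (hx : XX S P (x, D)) (hs : P.St x y)
    (h1 : Post1 S P K n E hh c (x, D)) : Post1 S P K n E hh c (y, D) := by
  have a1 := sit h hx hs
  have a2 := (h.st_pl _ _ hs).2
  have a3 : E.tp ≤ S.dep x := post1_tp h1
  refine ⟨dense_persist h h1.1 a1 (by omega), fun hd => never_persist h (h1.2.1 hd) a1 (by omega),
    fun c => ?_, fun c => ?_⟩
  · obtain ⟨b1, b2, b3⟩ := h1.2.2.1 c
    exact ⟨a2 ▸ b1, a2 ▸ dense_persist h b2 a1 le_rfl,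
      fun k c1 c2 => (plus_sit h hs).1 (b3 k c1 c2)⟩
  · obtain ⟨b1, b3⟩ := h1.2.2.2 c
    exact ⟨a2.trans b1, fun k c1 c2 => by simpa only [← plus_sit h hs] using b3 k c1 c2⟩

theorem pre_sit (h : Ok S P) {r : Req} (hr : Pre S P K L r (x, D)) (hs : P.St x y) :
    Pre S P K L r (y, D) := by
  have a2 := (h.st_pl _ _ hs).2
  cases r with
  | adj E | new E =>
    obtain ⟨h1, h2, h3, h4⟩ := hr
    have a1 := sit h h1 hs
    exact ⟨a1.2.2, h2, a2 ▸ h3, inv_persist h h2 h4 a1 (by dsimp only at h3; omega)⟩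
  | fst E n want =>
    obtain ⟨h1, h2, h3, h4⟩ := hr
    exact ⟨(sit h h1 hs).2.2, h2, a2.trans h3, by simpa only [← ap_sit h h1 hs] using h4⟩
  | gap E n k hh want =>
    obtain ⟨h1, h2, h3, h4⟩ := hr
    exact ⟨(sit h h1 hs).2.2, h2, h3, post1_sit h h1 hs h4⟩

theorem sandwich (h : Ok S P) {x' y' : N} (hx : XX S P (x, D)) (hs : P.St x y)
    (h1 : Rch S P l (y, D) (y', D')) (hs' : P.St y' x') (e1 : l ≤ 2 * S.dep x + 1)
    (e2 : l ≤ 2 * S.dep y' + 1) : Rch S P l (x, D) (x', D') :=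
  trans h (trans h (sit h hx hs) h1 e1 le_rfl) (sit h h1.2.2 hs') le_rfl e2

theorem man_sit (h : Ok S P) {r : Req} {x' y' : N} {w : Ent × ℕ} (hr : Pre S P K L r (x, D))
    (hs : P.St x y) (hm : Man S P K L r (y, D) ((y', D'), w)) (hs' : P.St y' x') :
    Man S P K L r (x, D) ((x', D'), w) := by
  obtain ⟨a1, a2⟩ := h.st_pl _ _ hs
  obtain ⟨a3, a4⟩ := h.st_pl _ _ hs'
  cases r with
  | adj E =>
    obtain ⟨h1, h2, h3, -⟩ := hr
    obtain ⟨b1, b2, b3⟩ := hm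
    have := b3.1
    dsimp only at *
    exact ⟨sandwich h h1 hs b1 hs' (by omega) (by omega), b2, post0_sit h h2 b1.2.2 hs' b3⟩
  | new E =>
    obtain ⟨h1, -, -, -⟩ := hr
    obtain ⟨b1, b2, b3, b4, b5, b6, b7⟩ := hm
    have := b7.1
    have := b2.1
    have := b4.1
    dsimp only at *
    rw [a2] at b1 b6
    have t1 := h.tm_le _ _ (h.mono _ _ _ _ (Nat.zero_le _) a1)
    exact ⟨sandwich h h1 hs b1 hs' (min_le_right _ _) ((min_le_left _ _).trans (by omega)), b2, b3, b4,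
      h.fresh _ _ _ _ (h.mono _ _ _ _ (by omega) a3) (by omega) (by omega) (t1.trans b5)
        (t1.trans (h.tm_le _ _ (h.mono _ _ _ _ (Nat.zero_le _) b1.1))),
      fun e c1 c2 => kl h a3 (b6 e c1 c2), post0_sit h b4 b1.2.2 hs' b7⟩
  | fst E n want =>
    obtain ⟨h1, -, h3, -⟩ := hr
    obtain ⟨b1, b2⟩ := hm
    have := post1_tp b2
    dsimp only at *
    exact ⟨sandwich h h1 hs b1 hs' (by omega) (by omega), post1_sit h b1.2.2 hs' b2⟩
  | gap E n k hh want =>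
    obtain ⟨h1, -, -, h4⟩ := hr
    obtain ⟨b1, b2, b3, b4, b5⟩ := hm
    have := post1_tp b2
    have := post1_tp h4
    dsimp only at *
    refine ⟨sandwich h h1 hs b1 hs' (by omega) (by omega), post1_sit h b1.2.2 hs' b2,
      fun c1 c2 => ?_, fun c1 c2 e c3 => kl h a3 (b4 c1 c2 e c3),
      fun c => (b5.1 c).imp_left (kl h a3), b5.2⟩
    obtain ⟨c3, c4⟩ := b3 c1 c2
    rw [a2] at c3 c4
    exact ⟨sandwich h h1 hs c3 hs' le_rfl (c4 ▸ le_rfl), a4.trans c4⟩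

theorem keep (h : Ok S P) {E1 E2 : Ent} (h1 : E.Adj E1) (h2 : E.Adj E2) (h3 : E2.Act)
    (h4 : Inv S P K L E1 a) (h5 : Rch S P (2 * E1.bp) a b) (h6 : Inv S P K L E2 b) :
    (E1.d ≠ 0 → E2.d = E1.d) ∧ (E1.d = 0 → E1.gp = E1.bp → E2.d = 0) := by
  obtain ⟨a1, -, a2, a3⟩ := h1
  obtain ⟨b1, -, b2, b3⟩ := h2
  by_cases hd : E.d = 0
  · refine ⟨fun c1 => ?_, fun c1 c2 => ?_⟩
    · have c2 := (a3 hd).resolve_left c1
      refine ((b3 hd).resolve_left fun c3 => ?_).trans (by omega)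
      have c4 : E2.gp = E1.d := by have := h3.resolve_left fun c => c c3; omega
      exact not_both h h5.2.2 (cone_persist h ((h4.2.2 c1).2.2 c2) h5 (by omega)) (c4 ▸ h6.1)
    · refine (b3 hd).resolve_right fun c3 => ?_
      have c4 : E1.gp = E2.d := by omega
      exact not_both h h5.2.2 ((h6.2.2 (by omega)).2.2 c3)
        (c4 ▸ nok_persist h h4.1 h5 (by omega))
  · exact ⟨fun _ => (b2 hd).trans (a2 hd).symm, fun c => absurd ((a2 hd).symm.trans c) hd⟩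

theorem inv_zero (h : Ok S P) (b t : ℕ) (ht : t ≤ S.dep a.1) : Inv S P K L ⟨b, t, 0, 0, 0⟩ a := by
  have key : ∀ (t : ℕ) (a : N × Dt), t ≤ S.dep a.1 → Dense S P (rdy S P K L 0) t a :=
    fun t a ht => dense_of_all h (fun a _ => .of_forall fun n _ => ⟨a.1, h.st_refl _,
      dense_of_all h (fun _ c => .of_forall fun _ _ => plus_zero h c) le_rfl⟩) ht
  exact ⟨fun c c1 c2 => c2 c (refl h c1.2.2) (key _ _ le_rfl), key t a ht, fun c => absurd rfl c⟩

end Calc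

theorem s_calc : S_Calc where
  man H _ _ := Calc.man H
  pre_sit h _ _ _ _ := Calc.pre_sit h
  man_sit h _ _ _ _ _ _ _ _ := Calc.man_sit h
  rch_trans h _ _ _ _ h1 h2 := Calc.trans h h1 h2 le_rfl le_rfl
  rch_mono h _ _ _ _ h1 h2 := Calc.mono h h2 h1
  rch_sit h _ _ _ := Calc.sit h
  inv h _ _ _ h1 h2 h3 := Calc.inv_persist h h1 h2 h3 le_rfl
  keep h _ _ _ _ _ := Calc.keep h
  xx_empty h x := Calc.X_empty h _ x
  inv_zero h _ := Calc.inv_zero h
  safe h _ _ _ := Calc.X_safe h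

end Pool.Agent.P.MP_b17faa_gt.X7
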