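import Pool.Agent.P.MP_b17faa_gt.X7Iface

/-!
Existence of contexts and skeletons.
-/

namespace Pool.Agent.P.MP_b17faa_gt.X7

open Set Filter Function

namespace CtxAux

theorem fin_dt (c : ℕ) : {D : Dt | dsz D ≤ c}.Finite := by
  have h : ((Iic c) ×ˢ (univ : Set Bool) ×ˢ (Iic c) ×ˢ (Iic c)).Finite :=
    (finite_Iic c).prod (finite_univ.prod ((finite_Iic c).prod (finite_Iic c)))
  refine (h.toFinset.powerset.finite_toSet).subset fun D hD => ?_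
  rw [Finset.mem_coe, Finset.mem_powerset]
  intro δ hδ
  have h1 : δ.1 + δ.2.2.1 + δ.2.2.2 ≤ c :=
    (Finset.le_sup (f := fun δ : ℕ × Bool × ℕ × ℕ => δ.1 + δ.2.2.1 + δ.2.2.2) hδ).trans hD
  rw [Finite.mem_toFinset]
  refine ⟨?_, mem_univ _, ?_, ?_⟩ <;> rw [mem_Iic] <;> omega

theorem fin_ent (t : ℕ) : {E : Ent | E.Wf ∧ E.tp ≤ t}.Finite := by
  have h : ((Iic t) ×ˢ (Iic t) ×ˢ (Iic t) ×ˢ (Iic t) ×ˢ (Iic t)).Finite :=
    (finite_Iic t).prod ((finite_Iic t).prod ((finite_Iic t).prod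
      ((finite_Iic t).prod (finite_Iic t))))
  refine (h.image fun v => (⟨v.1, v.2.1, v.2.2.1, v.2.2.2.1, v.2.2.2.2⟩ : Ent)).subset ?_
  rintro E ⟨⟨h1, h2, h3, h4⟩, h5⟩
  refine ⟨(E.bp, E.tp, E.gp, E.d, E.t0), ⟨?_, ?_, ?_, ?_, ?_⟩, rfl⟩ <;> rw [mem_Iic] <;>
    dsimp only <;> omega

theorem fin_req (c t : ℕ) : {r : Req | r.Small c ∧ r.E.Wf ∧ r.E.tp ≤ t}.Finite := by
  have h := fin_ent t
  refine (((h.image Req.adj).union (h.image Req.new)).union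
    (((h.prod ((finite_Iic c).prod (finite_univ (α := Bool)))).image
      fun v => Req.fst v.1 v.2.1 v.2.2).union
    ((h.prod ((finite_Iic c).prod ((finite_Iic c).prod
      (finite_univ (α := Bool × Bool))))).image
        fun v => Req.gap v.1 v.2.1 v.2.2.1 v.2.2.2.1 v.2.2.2.2))).subset ?_
  rintro r ⟨h1, h2⟩
  cases r with
  | adj E => exact Or.inl (Or.inl ⟨E, h2, rfl⟩)
  | new E => exact Or.inl (Or.inr ⟨E, h2, rfl⟩)
  | fst E n w => exact Or.inr (Or.inl ⟨(E, n, w), ⟨h2, h1, mem_univ _⟩, rfl⟩)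
  | gap E n k a w =>
    exact Or.inr (Or.inr ⟨(E, n, k, a, w), ⟨h2, h1.1, h1.2, mem_univ _⟩, rfl⟩)

theorem fin_all (M : Mach ℕ ℕ) (c : ℕ) : {a : Req × ℕ × Dt | M.idx a.2.1 ≤ c ∧ dsz a.2.2 ≤ c ∧
    a.1.Small c ∧ a.1.E.Wf ∧ a.1.E.tp ≤ M.dep a.2.1}.Finite := by
  refine ((M.finite_le c).biUnion fun x _ =>
    (fin_req c (M.dep x)).prod ((finite_singleton x).prod (fin_dt c))).subset ?_
  rintro ⟨r, x, D⟩ ⟨h1, h2, h3⟩
  exact mem_biUnion (x := x) h1 ⟨h3, rfl, h2⟩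

/-- the norm of a condition -/
def nmOf (p : Cond ℕ ℕ) : Nm where
  nm i r Z := R (p.M.Fr i) r Z (p.rt i)
  sz := p.M.sz
  mono _ _ _ _ h h' := h'.mono h
  le _ _ _ _ h h' := h'.le h
  union i _ _ _ _ h := h.union (p.M.fr i)
  ne _ _ h := h.nonempty le_rfl
  sz_mono := p.M.sz_mono

theorem exists_B0 (p : Cond ℕ ℕ) : ∃ B : ℕ → Finset ℕ, (∀ i, B i ⊆ p.M.A i) ∧ (nmOf p).Lrg B ∧
    ∀ η ∈ Pt B, p.M.Below p.rt η ∧ p.M.Lg η := by
  classical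
  obtain ⟨ρ, h1, -, h2⟩ := diag (Q := fun r i =>
    R (p.M.Fr i) (tw (r + 1) (p.M.sz i)) (p.M.A i) (p.rt i)) fun r => p.big (r + 1)
  have key : ∀ i, ∃ B : Finset ℕ, B ⊆ p.M.A i ∧ B.Nonempty ∧
      (R (p.M.Fr i) (tw (ρ i + 1) (p.M.sz i)) (p.M.A i) (p.rt i) →
        R (p.M.Fr i) (tw (ρ i) (p.M.sz i)) B (p.rt i) ∧ ∀ v ∈ B, p.M.Fr i ∅ (p.rt i) v ∧
          R (p.M.Fr i) (tw (ρ i) (p.M.sz i)) (p.M.A i) v) := by
    intro i
    by_cases h : R (p.M.Fr i) (tw (ρ i + 1) (p.M.sz i)) (p.M.A i) (p.rt i)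
    · have h3 : R (p.M.Fr i) (tw (ρ i) (p.M.sz i) + (tw (ρ i) (p.M.sz i) + 1)) (p.M.A i)
          (p.rt i) := h.le (by
        have := G_two (tw (ρ i) (p.M.sz i))
        rw [tw_succ]
        omega)
      have h4 : R (p.M.Fr i) (tw (ρ i) (p.M.sz i) + 1) ((p.M.A i).filter fun v =>
          p.M.Fr i ∅ (p.rt i) v ∧ R (p.M.Fr i) (tw (ρ i) (p.M.sz i)) (p.M.A i) v : Finset ℕ)
          (p.rt i) := (h3.low (p.M.fr i)).mono fun v hv =>
        Finset.mem_coe.2 (Finset.mem_filter.2 ⟨hv.1, hv.2⟩)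
      exact ⟨_, Finset.filter_subset _ _, h4.nonempty (Nat.le_add_left _ _),
        fun _ => ⟨h4.pred, fun v hv => (Finset.mem_filter.1 hv).2⟩⟩
    · exact ⟨p.M.A i, subset_rfl, p.M.ne i, fun h' => absurd h' h⟩
  choose B b1 b2 b3 using key
  refine ⟨B, b1, ⟨b2, fun i => (Finset.sum_le_sum fun j _ =>
    Finset.card_le_card (b1 j)).trans (p.M.sum_le i), fun m => ?_⟩, fun η hη => ⟨?_, fun m => ?_⟩⟩
  · filter_upwards [h2, h1.eventually_ge_atTop m] with i c1 c2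
    exact (b3 i c1).1.le (tw_mono c2 le_rfl)
  · filter_upwards [h2] with i c1
    exact Or.inr ((b3 i c1).2 _ (hη i)).1
  · filter_upwards [h2, h1.eventually_ge_atTop m] with i c1 c2
    exact ((b3 i c1).2 _ (hη i)).2.le (tw_mono c2 le_rfl)

theorem skel_step (c : Ctx) (good : ℕ → ℕ → Prop) (hg : ∀ n, ∀ᶠ k in atTop, good n k)
    (m b : ℕ) : ∃ (s be : ℕ → ℕ) (ga b' : ℕ), s 0 = b ∧ (∀ g, 1 ≤ be g) ∧ 1 ≤ ga ∧
      (∀ g, c.nxt^[be g + 1] (s g) ≤ s (g + 1)) ∧ s 1 ∈ c.L ∧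
      (∀ g, 2 ≤ g → s g ∈ c.K ∧ good (s 1) (s g)) ∧ s (ga + 2) ≤ b' ∧
      (∀ g, R (IF (fun a => c.M.T (c.nxt^[a] (s g))) (fun a => c.M.T (c.nxt^[a + 1] (s g)))
        fun a => c.M.T (c.nxt^[a + 1] (s g))) m (Iv (be g)) (0, be g)) ∧
      R (IF (fun a => c.M.T (s a)) (fun a => c.M.T (s (a + 2))) fun a => c.M.T (s (a + 1))) m
        (Iv ga) (0, ga) ∧
      G (c.M.sz b) + (∏ g ∈ Finset.Ico 0 (ga + 2), (Iv (be g)).card) * (Iv ga).card ≤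
        c.M.sz b' := by
  have hmono : ∀ u, StrictMono fun a => c.nxt^[a] u := fun u =>
    strictMono_nat_of_lt_succ fun a => by
      rw [iterate_succ_apply']
      exact c.lt_nxt _
  have h1 : ∀ u, ∃ e, 0 < e ∧ R (IF (fun a => c.M.T (c.nxt^[a] u))
      (fun a => c.M.T (c.nxt^[a + 1] u)) fun a => c.M.T (c.nxt^[a + 1] u)) m (Iv e) (0, e) :=
    fun u => exists_interval _ _ ((c.M.T_mono.comp (hmono u)).tendsto_atTop) m 0
  choose e e1 e2 using h1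
  obtain ⟨s1, hs1, hs1'⟩ := c.inf.exists_gt (c.nxt^[e b + 1] b)
  have hK : c.K.Infinite := (c.hyp c.df c.df_mem).inf
  have h2 : ∀ u, ∃ v, v ∈ c.K ∧ good s1 v ∧ c.nxt^[e u + 1] u ≤ v := fun u =>
    ((Nat.frequently_atTop_iff_infinite.2 hK).and_eventually
      ((hg s1).and (eventually_ge_atTop _))).exists
  choose nx n1 n2 n3 using h2
  let s : ℕ → ℕ := fun g => Nat.casesOn g b fun g => nx^[g] s1
  have hs : ∀ g, s (g + 2) = nx (s (g + 1)) := fun g => iterate_succ_apply' _ _ _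
  have hz : ∀ g, c.nxt^[e (s g) + 1] (s g) ≤ s (g + 1) := fun g => by
    cases g with
    | zero => exact hs1'.le
    | succ g => rw [hs]; exact n3 _
  have hsm : StrictMono s := strictMono_nat_of_lt_succ fun g =>
    (hmono (s g) (Nat.succ_pos _)).trans_le (hz g)
  obtain ⟨ga, g1, g2⟩ := exists_interval (lo := fun a => c.M.T (s a))
    (fun a => c.M.T (s (a + 2))) (fun a => c.M.T (s (a + 1)))
    ((c.M.T_mono.comp hsm).tendsto_atTop) m 0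
  refine ⟨s, fun g => e (s g), ga, _, rfl, fun g => e1 _, g1, hz, hs1, fun g hg2 => ?_,
    le_max_left _ _, fun g => e2 _, g2, (le_max_right _ _).trans (c.M.le_sz _)⟩
  obtain ⟨g, rfl⟩ := Nat.exists_eq_add_of_le' hg2
  rw [hs]
  exact ⟨n1 _, n2 _⟩

end CtxAux

open CtxAux in
theorem s_ctx (h1 : S_NS) (h2 : S_UP) (h3 : S_Meas) (h4 : S_Add) : S_Ctx := by
  intro p V hV hfin
  obtain ⟨B0, s0, l0, a0⟩ := exists_B0 p
  obtain ⟨m1, m2, m3⟩ := h3 p.M V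
  obtain ⟨B1, s1, l1, K, hK, k1⟩ := h1 (nmOf p) B0 l0 (ℕ × ℕ × ℕ × Dt)
    (fun a k η => plus (p.M.stat V) (p.M.dyn η) a.1 (a.2.1, k) a.2.2) fun a k => m1 _ _ _
  obtain ⟨B2, s2, l2, L, hL, k2⟩ := h1 (nmOf p) B1 l1 (ℕ × ℕ × Dt)
    (fun a n η => Ap (p.M.stat V) (p.M.dyn η) K n a.1 a.2) fun a n => m2 _ _ _ _
  obtain ⟨B, s3, l3, k3⟩ := h2 (nmOf p) B2 l2 (Req × ℕ × Dt) ((ℕ × Dt) × Ent × ℕ)
    (fun a w η => Man (p.M.stat V) (p.M.dyn η) K L a.1 a.2 w) fun a w => m3 _ _ _ _ _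
  have k4 : ∀ a : Req × ℕ × Dt, ∃ u : ℕ, ∀ η ∈ Pt B,
      (∃ w, Man (p.M.stat V) (p.M.dyn η) K L a.1 a.2 w) →
        ∃ w : (ℕ × Dt) × Ent × ℕ, p.M.idx w.1.1 ≤ u ∧ dsz w.1.2 ≤ u ∧ w.2.2 ≤ u ∧
          Box B u η fun η' => Man (p.M.stat V) (p.M.dyn η') K L a.1 a.2 w := by
    intro a
    obtain ⟨F, t, hF, hw⟩ := k3 a
    obtain ⟨u, hu⟩ := (hF.image fun w => p.M.idx w.1.1 + dsz w.1.2 + w.2.2).bddAbove
    refine ⟨u + t, fun η hη he => ?_⟩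
    obtain ⟨w, c1, c2⟩ := hw η hη he
    have c3 : p.M.idx w.1.1 + dsz w.1.2 + w.2.2 ≤ u := hu (mem_image_of_mem _ c1)
    exact ⟨w, by omega, by omega, by omega, c2.mono (Nat.le_add_left _ _) fun _ _ => rfl⟩
  choose u hu using k4
  choose v hv using fun c => ((fin_all p.M c).image u).bddAbove
  choose df hdf using l3.1
  refine ⟨⟨p.M, V, B, K, L, fun c => c + 1 + v c, df, hV,
    fun i => (s3 i).trans ((s2 i).trans ((s1 i).trans (s0 i))), hdf, hL, fun c => by omega,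
    fun η hη => ?_, fun c r x D c1 c2 c3 c4 c5 η hη he => ?_⟩, rfl, rfl, l3.2.2⟩
  · have e2 : η ∈ Pt B2 := fun i => s3 i (hη i)
    have e1 : η ∈ Pt B1 := fun i => s2 i (e2 i)
    have e0 : η ∈ Pt B0 := fun i => s1 i (e1 i)
    refine ⟨p.M.ok V η, hK, fun j n a => k1 (j, n, a) η e1, fun j a => k2 (j, a) η e2,
      fun q xs c1 c2 c3 c4 n => ?_⟩
    obtain ⟨y, hy⟩ := Mach.exists_output (M := p.M) (η := η) c2 c3 c4
    have hleg : p.M.Legal η y := ⟨q, xs, c1, c2, c3, c4, hy⟩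
    have hadm : p.M.Adm η := .of_forall fun i => s0 i (e0 i)
    obtain ⟨q', c5, c6, -⟩ := h4 ℕ ℕ p η η y y hleg hleg hadm hadm (a0 η e0).1
      (Mach.Below.refl η) (a0 η e0).2
    refine (hfin q' c5 y c6 n).subset fun k hk hy' => ?_
    obtain ⟨i, hi⟩ := (Mach.mem_iff_kill (M := p.M) (η := η) c2 c3 c4 hy (hV (n, k))).1 hy'
    exact hk i hi
  · have c6 : u (r, x, D) ≤ v c := hv c (mem_image_of_mem _ ⟨c1, c2, c3, c4, c5⟩)
    obtain ⟨w, d1, d2, d3, d4⟩ := hu (r, x, D) η hη he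
    exact ⟨w, by omega, by omega, by omega, d4.mono (by omega) fun _ _ => rfl⟩

theorem s_skel : S_Skel := by
  intro c good hg
  choose s be ga nb a1 a2 a3 a4 a5 a6 a7 a8 a9 a10 using fun j b =>
    CtxAux.skel_step c (good j) (hg j) (tw j (G (c.M.sz b))) b
  let bl : ℕ → ℕ := fun j => Nat.rec 0 (fun j b => nb j b) j
  exact ⟨⟨bl, fun j => s j (bl j), fun j => be j (bl j), fun j => ga j (bl j)⟩,
    ⟨rfl, fun j => a1 _ _, fun j => a2 _ _, fun j => a3 _ _, fun j => a4 _ _, fun j => a5 _ _,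
      fun j g h => (a6 _ _ g h).1, fun j => a7 j (bl j), fun j => a8 _ _, fun j => a9 _ _,
      fun j => a10 j (bl j)⟩, fun j g h => (a6 _ _ g h).2⟩

end Pool.Agent.P.MP_b17faa_gt.X7
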