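import Pool.Agent.P.MP_b17faa_gt.X7Iface

/-!
The derived machine.
-/

namespace Pool.Agent.P.MP_b17faa_gt.X7

open Set Filter Function

namespace DerA

variable (c : Ctx) (k : Skel)

/-- the state attached to an old node -/
def em (x : ℕ) : Sta := ⟨x, c.df, c.M.dep x, fun p => ⟨p, p, 0, 0, 0⟩, ∅⟩

open Classical in
/-- a chosen successor state -/
noncomputable def stp (j : ℕ) (s : Sta) (o : Op) (ν : Opt) : Sta :=
  if h : ∃ s', c.Blk k j s o ν s' then h.choose else s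

/-- the reachable states -/
def Reach : ℕ → Set Sta
  | 0 => em c '' {x | c.M.idx x = k.bl 0}
  | j + 1 => em c '' {x | c.M.idx x = k.bl (j + 1)} ∪
      (fun t : Sta × Op × Opt => stp c k j t.1 t.2.1 t.2.2) ''
        (Reach j ×ˢ (univ ×ˢ (c.A' k j : Set Opt)))

/-- the nodes of the derived machine -/
def Node : Type := {p : ℕ × Sta // p.2 ∈ Reach c k p.1}

variable {c k}

theorem em_valid (h : S_Calc) {j x : ℕ} (hx : c.M.idx x = k.bl j) : c.Valid k j (em c x) where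
  idx := hx
  pre := c.df_mem
  sz := Nat.zero_le _
  zero := rfl
  top := rfl
  wf _ _ := ⟨le_rfl, Nat.zero_le _, Nat.zero_le _, Nat.zero_le _⟩
  adj _ _ := ⟨rfl, le_rfl, fun h => absurd rfl h, fun _ => Or.inl rfl⟩
  inv η _ _ := ⟨h.xx_empty (c.M.ok c.V η) x, fun p hp => h.inv_zero (c.M.ok c.V η) p p hp⟩

theorem em_mem {j x : ℕ} (hx : c.M.idx x = k.bl j) : em c x ∈ Reach c k j := by
  cases j with
  | zero => exact ⟨x, hx, rfl⟩
  | succ j => exact Or.inl ⟨x, hx, rfl⟩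

theorem stp_blk (hb : S_Blk) (hk : c.IsSkel k) {j : ℕ} {s : Sta} (o : Op) {ν : Opt}
    (hs : c.Valid k j s) (hν : ν ∈ c.A' k j) : c.Blk k j s o ν (stp c k j s o ν) := by
  have h := hb c k hk j s o ν hs hν
  unfold stp
  rw [dif_pos h]
  exact h.choose_spec

theorem stp_mem {j : ℕ} {s : Sta} (o : Op) {ν : Opt} (hs : s ∈ Reach c k j)
    (hν : ν ∈ c.A' k j) : stp c k j s o ν ∈ Reach c k (j + 1) :=
  Or.inr ⟨(s, o, ν), ⟨hs, mem_univ _, hν⟩, rfl⟩

theorem reach_finite (j : ℕ) : (Reach c k j).Finite := by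
  induction j with
  | zero => exact (c.M.fib _).image _
  | succ j ih =>
    exact ((c.M.fib _).image _).union
      ((ih.prod (finite_univ.prod (c.A' k j).finite_toSet)).image _)

theorem reach_valid (h : S_Calc) (hb : S_Blk) (hk : c.IsSkel k) (j : ℕ) :
    ∀ s ∈ Reach c k j, c.Valid k j s := by
  induction j with
  | zero =>
    rintro _ ⟨x, hx, rfl⟩
    exact em_valid h hx
  | succ j ih =>
    rintro _ (⟨x, hx, rfl⟩ | ⟨t, ⟨h1, -, h2⟩, rfl⟩)
    · exact em_valid h hx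
    · exact (stp_blk hb hk t.2.1 (ih _ h1) h2).valid

theorem blk_play {j : ℕ} {s s' : Sta} {o : Op} {ν : Opt} (h : c.Blk k j s o ν s') :
    c.M.Play s'.pre (s.lvl o) s.x s'.x := h.walk.mono fun _ _ h => h.1

theorem blk_ent {j : ℕ} {s s' : Sta} {o : Op} {ν : Opt} (hs : c.Valid k j s)
    (h : c.Blk k j s o ν s') {p : ℕ} (hp : 2 * p + 1 ≤ o.lev s.v) :
    c.M.ent s'.x (s'.L p).bp = c.M.ent s.x (s.L p).bp ∧
      c.M.ent s'.x (s'.L p).tp = c.M.ent s.x (s.L p).tp := by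
  have h1 : p ≤ s.v := by have := Op.lev_le o s.v; omega
  have h2 := (hs.lvl o h1).2.1 hp
  have h3 := (hs.wf p h1).1
  rw [h.keep p hp]
  exact ⟨(blk_play h).ent (by omega), (blk_play h).ent h2⟩

theorem blk_bp {j : ℕ} {s s' : Sta} {o : Op} {ν : Opt} (hs : c.Valid k j s)
    (h : c.Blk k j s o ν s') {p : ℕ} (h1 : 1 ≤ p) (hp : 2 * p ≤ o.lev s.v) :
    (s'.L p).bp = (s.L p).bp := by
  rcases hp.eq_or_lt with e | e
  · obtain ⟨rfl, e'⟩ := Op.eq_rep e.symm h1
    obtain ⟨q, rfl⟩ : ∃ q, p = q + 1 := ⟨p - 1, by omega⟩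
    have h2 : s'.v = s.v := h.dep
    rw [(h.valid.adj q (by omega)).1, (hs.adj q (by omega)).1, h.keep q (by omega)]
  · rw [h.keep p e]

open Classical in
/-- normalisation of options -/
noncomputable def nrm (hne : ∀ j, (c.A' k j).Nonempty) (j : ℕ) (ν : Opt) : Opt :=
  if ν ∈ c.A' k j then ν else (hne j).choose

theorem nrm_mem (hne : ∀ j, (c.A' k j).Nonempty) (j : ℕ) (ν : Opt) : nrm hne j ν ∈ c.A' k j := by
  unfold nrm
  split_ifs with h
  exacts [h, (hne j).choose_spec]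

theorem nrm_eq (hne : ∀ j, (c.A' k j).Nonempty) {j : ℕ} {ν : Opt} (h : ν ∈ c.A' k j) :
    nrm hne j ν = ν := if_pos h

/-- the step of the derived machine -/
noncomputable def nstep (hne : ∀ j, (c.A' k j).Nonempty) (x : Node c k) (o : Op) (ν : Opt) :
    Node c k :=
  ⟨(x.1.1 + 1, stp c k x.1.1 x.1.2 o (nrm hne x.1.1 ν)), stp_mem o x.2 (nrm_mem hne _ ν)⟩

section
variable (h : S_Calc) (hb : S_Blk) (hk : c.IsSkel k)
include h hb hk

theorem node_valid (x : Node c k) : c.Valid k x.1.1 x.1.2 := reach_valid h hb hk _ _ x.2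

theorem node_blk (hne : ∀ j, (c.A' k j).Nonempty) (x : Node c k) (o : Op) (ν : Opt) :
    c.Blk k x.1.1 x.1.2 o (nrm hne x.1.1 ν) (nstep hne x o ν).1.2 :=
  stp_blk hb hk o (node_valid h hb hk x) (nrm_mem hne _ ν)

theorem node_blk' (hne : ∀ j, (c.A' k j).Nonempty) (x : Node c k) (o : Op) {ν : Opt}
    (hν : ν ∈ c.A' k x.1.1) : c.Blk k x.1.1 x.1.2 o ν (nstep hne x o ν).1.2 := by
  have h1 := node_blk h hb hk hne x o ν
  rwa [nrm_eq hne hν] at h1

end

/-- the derived machine -/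
noncomputable def mach (h : S_Calc) (hb : S_Blk) (hc : S_Cov) (hs : S_Size) (hk : c.IsSkel k) :
    Mach (Node c k) Opt where
  T j := c.M.T (k.bl j)
  sz := c.sz' k
  A := c.A' k
  Fr := c.Fr' k
  idx x := x.1.1
  dep x := x.1.2.v
  ent x p := ((c.M.ent x.1.2.x (x.1.2.L p).bp).1, (c.M.ent x.1.2.x (x.1.2.L p).tp).2)
  wd x := c.M.wd x.1.2.x
  step := nstep (hs c k hk).2.1
  T_mono := c.M.T_mono.comp hk.bl_mono
  sz_mono := G_mono.comp (c.M.sz_mono.comp hk.bl_mono.monotone)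
  sum_le := (hs c k hk).1
  ne := (hs c k hk).2.1
  fr := (hs c k hk).2.2.1
  fib i := by
    refine Finite.of_finite_image (f := fun x : Node c k => x.1.2)
      ((reach_finite (c := c) (k := k) i).subset ?_) ?_
    · rintro _ ⟨x, rfl, rfl⟩
      exact x.2
    · intro x hx y hy e
      exact Subtype.ext (Prod.ext (Eq.trans hx (Eq.symm hy)) e)
  idx_step _ _ _ := rfl
  dep_step x o ν := (node_blk h hb hk _ x o ν).dep
  ent_step x o ν p hp := by
    obtain ⟨h1, h2⟩ := blk_ent (node_valid h hb hk x) (node_blk h hb hk (hs c k hk).2.1 x o ν) hp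
    rw [h1, h2]
  new x o ν h1 h2 := by
    have h3 := node_blk h hb hk (hs c k hk).2.1 x o ν
    have h4 := (h3.new h1 (h3.dep ▸ h2)).1
    rwa [h3.dep] at h4
  bd x p hp := by
    have h1 := node_valid h hb hk x
    have h2 := (h1.tp_le le_rfl hp).2.2
    have h3 := (h1.wf p hp).1
    rw [← h1.idx]
    exact ⟨(c.M.bd _ _ (h3.trans h2)).1, (c.M.bd _ _ h2).2⟩
  zero x := by
    rw [(node_valid h hb hk x).zero]
    exact c.M.zero _
  wd_step x o ν i hi :=
    (node_blk h hb hk _ x o ν).walk.wd (by rwa [(node_valid h hb hk x).idx])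
  start i := by
    obtain ⟨x, h1, h2, h3⟩ := c.M.start (k.bl i)
    exact ⟨⟨(i, em c x), em_mem h1⟩, rfl, h2, h3⟩
  cov i d μ ν x o b h1 h2 h3 h4 h5 := by
    refine hc c k hk i d μ ν (fun t => (x t).1.2)
      (fun t => (nstep (hs c k hk).2.1 (x t) (o t) (ν t)).1.2) o b (fun t => ?_) h2 h3 h4 ?_
    · obtain ⟨e, hν⟩ := h1 t
      subst e
      exact ⟨node_valid h hb hk _, hν, node_blk' h hb hk _ _ _ hν⟩
    · unfold Mach.eff
      rw [← (node_valid h hb hk (x b)).top]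
      exact h5

open Classical in
/-- the embedding of old nodes -/
noncomputable def emb (j x : ℕ) : Node c k :=
  if h : c.M.idx x = k.bl j then ⟨(j, em c x), em_mem h⟩
  else ⟨(j, em c (c.M.start (k.bl j)).choose), em_mem (c.M.start (k.bl j)).choose_spec.1⟩

theorem emb_eq {j x : ℕ} (h : c.M.idx x = k.bl j) : emb j x = ⟨(j, em c x), em_mem h⟩ :=
  dif_pos h

end DerA

open DerA in
theorem s_der (h : S_Calc) (hb : S_Blk) (hc : S_Cov) (hs : S_Size) : S_Der := by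
  intro c k hk
  obtain ⟨bk, hbk⟩ := exists_bk (bl := k.bl) (j0 := 0)
    (fun j _ => hk.bl_mono (Nat.lt_succ_self j)) fun _ => hk.bl0
  refine ⟨Node c k, mach h hb hc hs hk, fun x => x.1.2,
    ⟨0, k.bl, bk, fun ν i => ν.1 i, fun x => x.1.2.x, emb, fun x p => (x.1.2.L p).bp⟩,
    ⟨fun _ => rfl, rfl, rfl, rfl, node_valid h hb hk, fun _ => rfl, fun _ _ => rfl, fun _ => rfl,
      fun x o ν hν => node_blk' h hb hk _ x o hν⟩, ?_, fun _ _ => rfl⟩
  refine ⟨hbk, fun _ _ => rfl, fun j _ => le_G _, fun i ν _ hν => c.sub i (Ctx.pt_of_mem hν i),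
    fun i d ν ν' _ hF => hF.1 i ((hbk _ i (Nat.zero_le _)).2 le_rfl) ?_,
    fun x _ => (node_valid h hb hk x).idx, fun _ _ _ _ => rfl, fun x p _ h1 h2 => ?_,
    fun x o ν p _ hν h1 h2 h3 => ?_, fun j x _ hx => ?_⟩
  · exact lt_of_not_ge fun e => Nat.not_succ_le_self _ ((hbk _ i (Nat.zero_le _)).1 e)
  · have hv := node_valid h hb hk x
    exact ⟨Nat.one_le_of_lt (hv.bp_le h1 h2).1,
      (hv.wf p h2).1.trans (hv.tp_le le_rfl h2).2.2, le_rfl⟩
  · have hv := node_valid h hb hk x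
    have hB := node_blk' h hb hk (hs c k hk).2.1 x o hν
    refine ⟨Mach.Walk.congr ((blk_play hB).mono ((hv.lvl o h2).2.2 h3)) fun i hi _ => ?_,
      blk_bp hv hB h1 h3⟩
    rw [hB.pre]
    exact (if_neg (not_lt.2 (hv.idx ▸ hi))).symm
  · have e : (emb j x : Node c k) = ⟨(j, em c x), em_mem hx⟩ := emb_eq hx
    dsimp only
    rw [e]
    exact ⟨rfl, rfl, rfl, fun _ _ => ⟨rfl, rfl⟩⟩

end Pool.Agent.P.MP_b17faa_gt.X7
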