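import Pool.Agent.P.MP_b17faa_gt.X7Iface

/-!
Fusion of a descending sequence of conditions.
-/

namespace Pool.Agent.P.MP_b17faa_gt.X7

open Set Filter Function

namespace Fus

section sim
variable {N' O' N O : Type} {M' : Mach N' O'} {M : Mach N O} {s : SimD N' O' N O}

theorem bl_lt (h : IsSim M' M s) {j : ℕ} (hj : s.j0 ≤ j) : s.bl j < s.bl (j + 1) := by
  have h1 := M'.T_mono (Nat.lt_succ_self j)
  rw [h.hT j hj, h.hT (j + 1) (hj.trans (Nat.le_succ j))] at h1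
  exact M.T_mono.lt_iff_lt.1 h1

theorem le_bl (h : IsSim M' M s) {j : ℕ} (hj : s.j0 ≤ j) : j ≤ s.bl j + s.j0 := by
  induction j, hj using Nat.le_induction with
  | base => omega
  | succ j hj ih => have := bl_lt h hj; omega

theorem ev_bk (h : IsSim M' M s) {Q : ℕ → Prop} (hQ : ∀ᶠ i in atTop, Q i) :
    ∀ᶠ x in atTop, ∀ i, x ≤ s.bk i → Q i := by
  obtain ⟨i0, h0⟩ := eventually_atTop.1 hQ
  filter_upwards [eventually_ge_atTop (s.j0 + i0)] with x hx i hi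
  have h1 := (h.gal x i (by omega)).2 hi
  have h2 := le_bl h (show s.j0 ≤ x by omega)
  exact h0 i (by omega)

theorem bk_tendsto (h : IsSim M' M s) : Tendsto s.bk atTop atTop :=
  tendsto_atTop.2 fun c => by
    filter_upwards [eventually_ge_atTop (s.bl (s.j0 + c))] with i hi
    have := (h.gal _ i (Nat.le_add_right _ c)).1 hi
    omega

theorem comp_id (s : SimD N' O' N O) : s.comp (SimD.id N' O') = s := by
  cases s
  simp [SimD.comp, SimD.id]

end sim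

/-- a sequence of machines, one level of each, and simulations between consecutive ones -/
structure Seq where
  M : ℕ → Mach ℕ ℕ
  lev : ℕ → ℕ
  u : ℕ → SimD ℕ ℕ ℕ ℕ
  sim : ∀ j, IsSim (M (j + 1)) (M j) (u j)
  j0 : ∀ j, (u j).j0 ≤ lev (j + 1)
  bl : ∀ j, (u j).bl (lev (j + 1)) = lev j + 1

namespace Seq

variable (Q : Seq)

/-- the nodes of the glued machine -/
abbrev Nd : Type := {p : ℕ × ℕ // (Q.M p.1).idx p.2 = Q.lev p.1}

theorem emb (x : Q.Nd) (o : Op) (ν : ℕ) :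
    let y := (Q.M x.1.1).step x.1.2 o ν
    let y' := (Q.u x.1.1).emb (Q.lev (x.1.1 + 1)) y
    (Q.M (x.1.1 + 1)).idx y' = Q.lev (x.1.1 + 1) ∧ (Q.u x.1.1).prj y' = y ∧
      (Q.M (x.1.1 + 1)).dep y' = (Q.M x.1.1).dep y ∧ ∀ p ≤ (Q.M x.1.1).dep y,
        (Q.M (x.1.1 + 1)).ent y' p = (Q.M x.1.1).ent y p ∧ (Q.u x.1.1).low y' p = p :=
  (Q.sim _).emb _ _ (Q.j0 _) (by rw [Mach.idx_step, x.2, Q.bl])

/-- the steps of the glued machine -/
def stp (x : Q.Nd) (o : Op) (ν : ℕ) : Q.Nd :=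
  ⟨(x.1.1 + 1, (Q.u x.1.1).emb (Q.lev (x.1.1 + 1)) ((Q.M x.1.1).step x.1.2 o ν)), (Q.emb x o ν).1⟩

theorem hT (j : ℕ) : (Q.M (j + 1)).T (Q.lev (j + 1)) = (Q.M j).T (Q.lev j + 1) := by
  rw [(Q.sim j).hT _ (Q.j0 j), Q.bl]

theorem hsz (j : ℕ) : (Q.M j).sz (Q.lev j + 1) ≤ (Q.M (j + 1)).sz (Q.lev (j + 1)) := by
  rw [← Q.bl]
  exact (Q.sim j).hsz _ (Q.j0 j)

theorem wd_stp (x : Q.Nd) (o : Op) (ν k : ℕ) (hk : k < (Q.M x.1.1).T (Q.lev x.1.1 + 1)) :
    (Q.M (x.1.1 + 1)).wd (Q.stp x o ν).1.2 k =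
      (Q.M x.1.1).wd ((Q.M x.1.1).step x.1.2 o ν) k := by
  have h := Q.emb x o ν
  have h1 := (Q.sim x.1.1).wd (Q.stp x o ν).1.2 k (h.1 ▸ Q.j0 _) (by
    rw [← Q.hT] at hk
    exact h.1.symm ▸ hk)
  rw [h1]
  exact congrArg (fun z => (Q.M x.1.1).wd z k) h.2.1

/-- the glued machine -/
def glue : Mach Q.Nd ℕ where
  T j := (Q.M j).T (Q.lev j)
  sz j := ∑ i ∈ Finset.range j, ((Q.M i).A (Q.lev i)).card + (Q.M j).sz (Q.lev j)
  A j := (Q.M j).A (Q.lev j)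
  Fr j := (Q.M j).Fr (Q.lev j)
  idx x := x.1.1
  dep x := (Q.M x.1.1).dep x.1.2
  ent x := (Q.M x.1.1).ent x.1.2
  wd x := (Q.M x.1.1).wd x.1.2
  step := Q.stp
  T_mono := strictMono_nat_of_lt_succ fun j => by
    rw [Q.hT]
    exact (Q.M j).T_mono (Nat.lt_succ_self _)
  sz_mono := monotone_nat_of_le_succ fun j => by
    have h1 := Q.hsz j
    have h2 := (Q.M j).sz_mono (Nat.le_succ (Q.lev j))
    rw [Finset.sum_range_succ]
    exact Nat.add_le_add (Nat.le_add_right _ _) (h2.trans h1)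
  sum_le _ := Nat.le_add_right _ _
  ne j := (Q.M j).ne _
  fr j := (Q.M j).fr _
  fib j := by
    refine Finite.of_finite_image (f := fun x : Q.Nd => x.1.2)
      (((Q.M j).fib (Q.lev j)).subset ?_) ?_
    · rintro _ ⟨x, rfl, rfl⟩
      exact x.2
    · intro x hx y hy e
      exact Subtype.ext (Prod.ext (hx.trans hy.symm) e)
  idx_step _ _ _ := rfl
  dep_step x o ν := (Q.emb x o ν).2.2.1.trans ((Q.M _).dep_step _ _ _)
  ent_step x o ν p hp := by
    refine ((Q.emb x o ν).2.2.2 p ?_).1.trans ((Q.M _).ent_step _ _ _ p hp)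
    rw [Mach.dep_step]
    have := Op.lev_le o ((Q.M x.1.1).dep x.1.2)
    exact Op.le_dep (by omega) (by omega)
  new x o ν h1 h2 := by
    have h3 := ((Q.emb x o ν).2.2.2 _ ((Q.M _).dep_step _ _ _).ge).1
    have h4 := (Q.M x.1.1).new x.1.2 o ν h1 h2
    rw [x.2, ← h3] at h4
    exact h4
  bd x p hp := x.2 ▸ (Q.M x.1.1).bd x.1.2 p hp
  zero x := (Q.M _).zero _
  wd_step x o ν k hk :=
    (Q.wd_stp x o ν k (hk.trans ((Q.M _).T_mono (Nat.lt_succ_self _)))).trans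
      ((Q.M _).wd_step _ _ _ k (x.2.symm ▸ hk))
  start j := by
    obtain ⟨x, h1, h2⟩ := (Q.M j).start (Q.lev j)
    exact ⟨⟨(j, x), h1⟩, rfl, h2⟩
  cov j d μ ν x o b h1 h2 h3 h4 h5 e he h6 h7 := by
    rw [Q.hT] at h5 h7
    have hb := (h1 b).1
    obtain ⟨c, hc⟩ := (Q.M j).cov (Q.lev j) d μ ν (fun c => (x c).1.2) o b
      (fun c => ⟨(h1 c).1 ▸ (x c).2, (h1 c).2⟩) h2 h3 h4 (by subst hb; exact h5) e he h6 h7
    refine ⟨c, ?_⟩
    have hc' := (h1 c).1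
    subst hc'
    exact (Q.wd_stp (x c) (o c) (ν c) e.2 h7).trans_le hc

/-- simulation of a fixed machine by the glued machine -/
theorem exists_sim (M0 : Mach ℕ ℕ) (c : ℕ → SimD ℕ ℕ ℕ ℕ) (j0 : ℕ) (h0 : 0 < j0)
    (hc : ∀ j, j0 ≤ j → IsSim (Q.M j) M0 (c j) ∧ (c j).j0 ≤ Q.lev j ∧
      c (j + 1) = (c j).comp (Q.u j)) :
    ∃ σ : SimD Q.Nd ℕ ℕ ℕ, IsSim Q.glue M0 σ ∧ ∀ i, j0 ≤ σ.bk i →
      (c (σ.bk i)).bk i = Q.lev (σ.bk i) ∧ ∀ ν, σ.pr ν i = (c (σ.bk i)).pr ν i := by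
  classical
  have hb : ∀ j, j0 ≤ j → (c (j + 1)).bl (Q.lev (j + 1)) = (c j).bl (Q.lev j + 1) := by
    intro j hj
    rw [(hc j hj).2.2, ← Q.bl]
    rfl
  obtain ⟨bk, gal⟩ := exists_bk (bl := fun j => (c j).bl (Q.lev j)) (j0 := j0)
    (fun j hj => by
      rw [hb j hj]
      exact bl_lt (hc j hj).1 (hc j hj).2.1) (fun h => by omega)
  have key : ∀ i, j0 ≤ bk i → (c (bk i)).bk i = Q.lev (bk i) := by
    intro i hi
    obtain ⟨h1, h2, -⟩ := hc _ hi
    have h3 := (h1.gal _ i h2).1 ((gal _ i hi).2 le_rfl)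
    have h4 := (gal (bk i + 1) i (by omega)).1
    rw [hb _ hi, h1.gal _ i (by omega)] at h4
    omega
  obtain ⟨x0, -⟩ := Q.glue.start 0
  refine ⟨⟨j0, fun j => (c j).bl (Q.lev j), bk, fun ν i => (c (bk i)).pr ν i,
    fun x => (c x.1.1).prj x.1.2,
    fun j x => if h : (Q.M j).idx ((c j).emb (Q.lev j) x) = Q.lev j then ⟨(j, _), h⟩ else x0,
    fun x p => (c x.1.1).low x.1.2 p⟩, ⟨gal, fun j hj => (hc j hj).1.hT _ (hc j hj).2.1,
    fun j hj => ((hc j hj).1.hsz _ (hc j hj).2.1).trans (Nat.le_add_left _ _),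
    fun i ν hi hν => ?_, fun i d ν ν' hi hν => ?_, fun x hx => ?_, fun x k hx hk => ?_,
    fun x p hx h1 h2 => ?_, fun x o ν p hx h1 h2 h3 h4 => ?_, fun j x hj hx => ?_⟩,
    fun i hi => ⟨key i hi, fun _ => rfl⟩⟩
  · exact (hc _ hi).1.mem i ν (key i hi ▸ (hc _ hi).2.1) (key i hi ▸ hν)
  · exact (hc _ hi).1.fr i d ν ν' (key i hi ▸ (hc _ hi).2.1) (key i hi ▸ hν)
  · exact ((hc x.1.1 hx).1.idx x.1.2 (x.2 ▸ (hc _ hx).2.1)).trans (congrArg _ x.2)
  · exact (hc _ hx).1.wd x.1.2 k (x.2 ▸ (hc _ hx).2.1) (x.2.symm ▸ hk)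
  · exact (hc _ hx).1.low x.1.2 p (x.2 ▸ (hc _ hx).2.1) h1 h2
  · obtain ⟨c1, c2, c3⟩ := hc x.1.1 hx
    have c2' : (c x.1.1).j0 ≤ (Q.M x.1.1).idx x.1.2 := x.2 ▸ c2
    obtain ⟨d1, d2⟩ := c1.play x.1.2 o ν p c2' (x.2.symm ▸ h1) h2 h3 h4
    obtain ⟨-, e1, -, e2⟩ := Q.emb x o ν
    have e3 : (c (x.1.1 + 1)).prj (Q.stp x o ν).1.2 =
        (c x.1.1).prj ((Q.M x.1.1).step x.1.2 o ν) := by
      rw [show c (x.1.1 + 1) = _ from c3]
      exact congrArg _ e1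
    have e4 : (c (x.1.1 + 1)).low (Q.stp x o ν).1.2 p =
        (c x.1.1).low ((Q.M x.1.1).step x.1.2 o ν) p := by
      rw [show c (x.1.1 + 1) = _ from c3]
      exact congrArg₂ _ e1 (e2 p (by rw [Mach.dep_step]; exact Op.le_dep h4 h3)).2
    refine ⟨?_, e4.trans d2⟩
    have d3 : M0.Play (fun i => (c (bk i)).pr ν i) (2 * (c x.1.1).low x.1.2 p)
        ((c x.1.1).prj x.1.2) ((c x.1.1).prj ((Q.M x.1.1).step x.1.2 o ν)) := by
      refine Mach.Walk.congr d1 fun i i1 i2 => ?_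
      rw [c1.idx _ c2', x.2] at i1
      rw [c1.idx _ (by rw [Mach.idx_step]; omega), Mach.idx_step, x.2, ← hb x.1.1 hx] at i2
      have i3 := (gal x.1.1 i hx).1 i1
      have i4 := (gal (x.1.1 + 1) i (le_trans hx (Nat.le_succ _))).2
      have i5 : bk i = x.1.1 := by
        by_contra hn
        exact absurd (i4 (by omega)) (not_le.2 i2)
      rw [i5]
    exact e3.symm ▸ d3
  · obtain ⟨e1, e2⟩ := (hc j hj).1.emb _ x (hc j hj).2.1 hx
    dsimp only
    rw [dif_pos e1]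
    exact ⟨rfl, e2⟩

end Seq

/-- concatenation of intervals -/
theorem exists_loc (a b : ℕ → ℕ) (h : ∀ n, a n < b n) : ∃ seg lev : ℕ → ℕ, seg 0 = 0 ∧
    (∀ j, a (seg j) ≤ lev j) ∧ (∀ j, (seg (j + 1) = seg j ∧ lev (j + 1) = lev j + 1) ∨
      (seg (j + 1) = seg j + 1 ∧ lev j + 1 = b (seg j) ∧ lev (j + 1) = a (seg j + 1))) ∧
    Monotone seg ∧ Tendsto seg atTop atTop := by
  let f : ℕ × ℕ → ℕ × ℕ := fun p => if p.2 + 1 = b p.1 then (p.1 + 1, a (p.1 + 1)) else (p.1, p.2 + 1)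
  let loc : ℕ → ℕ × ℕ := fun j => f^[j] (0, a 0)
  have hs : ∀ j, loc (j + 1) = f (loc j) := fun j => iterate_succ_apply' _ _ _
  have h1 : ∀ j, ((loc (j + 1)).1 = (loc j).1 ∧ (loc (j + 1)).2 = (loc j).2 + 1 ∧
      (loc j).2 + 1 ≠ b (loc j).1) ∨ ((loc (j + 1)).1 = (loc j).1 + 1 ∧
      (loc j).2 + 1 = b (loc j).1 ∧ (loc (j + 1)).2 = a ((loc j).1 + 1)) := by
    intro j
    rw [hs]
    by_cases e : (loc j).2 + 1 = b (loc j).1 <;> simp [f, e]
  have h2 : ∀ j, a (loc j).1 ≤ (loc j).2 ∧ (loc j).2 < b (loc j).1 := by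
    intro j
    induction j with
    | zero => exact ⟨le_rfl, h 0⟩
    | succ j ih =>
      rcases h1 j with ⟨e1, e2, e3⟩ | ⟨e1, -, e3⟩
      · rw [e1, e2]
        omega
      · rw [e1, e3]
        exact ⟨le_rfl, h _⟩
  have h3 : Monotone fun j => (loc j).1 := monotone_nat_of_le_succ fun j => by
    rcases h1 j with e | e <;> omega
  refine ⟨fun j => (loc j).1, fun j => (loc j).2, rfl, fun j => (h2 j).1,
    fun j => (h1 j).imp (fun e => ⟨e.1, e.2.1⟩) id, h3,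
    tendsto_atTop_atTop_of_monotone h3 fun n => ?_⟩
  induction n with
  | zero => exact ⟨0, Nat.zero_le _⟩
  | succ n ih =>
    obtain ⟨j, hj⟩ := ih
    by_contra hn
    push Not at hn
    have h4 : ∀ k, (loc (j + k)).1 = n ∧ k ≤ (loc (j + k)).2 := by
      intro k
      induction k with
      | zero => exact ⟨by have := hn j; simp only [Nat.add_zero]; omega, Nat.zero_le _⟩
      | succ k ih =>
        have := hn (j + k + 1)
        rcases h1 (j + k) with e | e <;> rw [← Nat.add_assoc] <;> omega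
    have h5 := (h2 (j + b n)).2
    rw [(h4 _).1] at h5
    have := (h4 (b n)).2
    omega

variable (s : ℕ → Cond ℕ ℕ) (t : ℕ → SimD ℕ ℕ ℕ ℕ) (lab : ℕ → (ℕ → ℕ) → ℕ → ℕ)

/-- composed simulations -/
def cmp (m : ℕ) : ℕ → SimD ℕ ℕ ℕ ℕ
  | 0 => SimD.id ℕ ℕ
  | n + 1 => if m ≤ n then (cmp m n).comp (t n) else SimD.id ℕ ℕ

open Classical in
/-- composed labels -/
noncomputable def labs (m : ℕ) : ℕ → (ℕ → ℕ) → ℕ → ℕ
  | 0 => fun _ _ => 0
  | n + 1 => fun y => if y ∈ (s n).C then labs m n y else (cmp t m n).lift (lab n y)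

variable {s t lab}

theorem cmp_self (m : ℕ) : cmp t m m = SimD.id ℕ ℕ := by
  cases m <;> simp [cmp]

theorem cmp_succ {m n : ℕ} (h : m ≤ n) : cmp t m (n + 1) = (cmp t m n).comp (t n) := if_pos h

theorem leD (hS : S_Sim) (h : ∀ n, LeD (s (n + 1)) (s n) (t n) (lab n)) {m n : ℕ} (hmn : m ≤ n) :
    LeD (s n) (s m) (cmp t m n) (labs s t lab m n) := by
  induction n, hmn using Nat.le_induction with
  | base => exact cmp_self (t := t) m ▸ hS.refl _ _
  | succ n hn ih => exact cmp_succ (t := t) hn ▸ hS.trans ih (h n)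

theorem labs_eq (h : ∀ n, LeD (s (n + 1)) (s n) (t n) (lab n)) (m : ℕ) {n n' : ℕ} (hn : n ≤ n')
    {y : ℕ → ℕ} (hy : y ∈ (s n).C) : y ∈ (s n').C ∧ labs s t lab m n' y = labs s t lab m n y := by
  induction n', hn using Nat.le_induction with
  | base => exact ⟨hy, rfl⟩
  | succ n' _ ih => exact ⟨(h n').sub ih.1, (if_pos ih.1).trans ih.2⟩

end Fus

open Fus in
theorem s_fus (hS : S_Sim) : S_Fus := by
  classical
  intro s hs
  choose t lab h using hs
  have hcnt : (⋃ n, (s n).C).Countable := countable_iUnion fun n => (s n).cnt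
  obtain ⟨en, hen⟩ := (hcnt.insert 0).exists_eq_range (insert_nonempty _ _)
  have hev : ∀ n, ∀ᶠ x in atTop, n + 2 ≤ x ∧
      (∀ i, x ≤ i → R ((s n).M.Fr i) (tw (n + 1) ((s n).M.sz i)) ((s n).M.A i) ((s n).rt i)) ∧
      ∀ m ∈ Iic n, (cmp t m n).j0 ≤ x ∧ (∀ i, x ≤ (cmp t m n).bk i →
        (s m).rt i = (cmp t m n).lift (s n).rt i ∨
          (s m).M.Fr i ∅ ((s m).rt i) ((cmp t m n).lift (s n).rt i)) ∧
        ∀ k ∈ Iic n, ∀ i, x ≤ (cmp t m n).bk i → en k ∈ (s n).C → en k ∉ (s m).C →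
          labs s t lab m n (en k) i = (cmp t m n).lift (s n).rt i ∨
            (s m).M.Fr i ∅ (labs s t lab m n (en k) i) ((cmp t m n).lift (s n).rt i) := by
    intro n
    refine (eventually_ge_atTop _).and ((eventually_forall_ge_atTop.2 ((s n).big (n + 1))).and
      ((eventually_all_finite (finite_Iic n)).2 fun m hm => ?_))
    have hl := leD hS h (mem_Iic.1 hm)
    refine (eventually_ge_atTop _).and ((ev_bk hl.sim hl.root).and
      ((eventually_all_finite (finite_Iic n)).2 fun k _ => ev_bk hl.sim ?_))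
    by_cases h1 : en k ∈ (s n).C ∧ en k ∉ (s m).C
    · exact (hl.new _ h1.1 h1.2).2.2.2.mono fun i hi _ _ => hi
    · exact .of_forall fun i h2 h3 => absurd ⟨h2, h3⟩ h1
  choose c hc using fun n => eventually_atTop.1 (hev n)
  let a : ℕ → ℕ := fun n => Nat.rec (c 0) (fun n x => c (n + 1) + (t n).j0 + x + 1) n
  have ha : ∀ n, a (n + 1) = c (n + 1) + (t n).j0 + a n + 1 := fun n => rfl
  have hca : ∀ n, c n ≤ a n := fun n => by
    cases n with
    | zero => exact le_rfl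
    | succ n => rw [ha]; omega
  have hj0 : ∀ n, (t n).j0 ≤ a (n + 1) := fun n => by rw [ha]; omega
  obtain ⟨seg, lev, hseg0, hlev, hstep, hmono, htend⟩ :=
    exists_loc a (fun n => (t n).bl (a (n + 1))) fun n => by
      have h1 := le_bl (h n).sim (hj0 n)
      have h2 := ha n
      omega
  let u : ℕ → SimD ℕ ℕ ℕ ℕ := fun j => if seg (j + 1) = seg j then SimD.id ℕ ℕ else t (seg j)
  have hu : ∀ j, IsSim (s (seg (j + 1))).M (s (seg j)).M (u j) ∧ (u j).j0 ≤ lev (j + 1) ∧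
      (u j).bl (lev (j + 1)) = lev j + 1 ∧
      ∀ m ≤ seg j, cmp t m (seg (j + 1)) = (cmp t m (seg j)).comp (u j) := by
    intro j
    rcases hstep j with ⟨e1, e2⟩ | ⟨e1, e2, e3⟩
    · rw [show u j = SimD.id ℕ ℕ from if_pos e1, e1]
      exact ⟨hS.id _, Nat.zero_le _, e2, fun m _ => (Fus.comp_id _).symm⟩
    · rw [show u j = t (seg j) from if_neg (by omega), e1, e3]
      exact ⟨(h _).sim, hj0 _, e2.symm, fun m hm => cmp_succ hm⟩
  let Q : Seq := ⟨fun j => (s (seg j)).M, lev, u, fun j => (hu j).1, fun j => (hu j).2.1,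
    fun j => (hu j).2.2.1⟩
  have hP := fun j => hc (seg j) (a (seg j)) (hca _)
  have hsim : ∀ m, ∃ σ : SimD Q.Nd ℕ ℕ ℕ, IsSim Q.glue (s m).M σ ∧ ∀ r, ∀ᶠ i in atTop,
      ∃ n, r ≤ n ∧ m ≤ n ∧ a n ≤ (cmp t m n).bk i ∧
        σ.lift (fun j => (s (seg j)).rt (lev j)) i = (cmp t m n).lift (s n).rt i := by
    intro m
    obtain ⟨j0, hj⟩ := eventually_atTop.1 (htend.eventually_ge_atTop m)
    obtain ⟨σ, h1, h2⟩ := Q.exists_sim (s m).M (fun j => cmp t m (seg j)) (j0 + 1) (Nat.succ_pos _)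
      fun j hj' => ⟨(leD hS h (hj j (by omega))).sim,
        ((hP j).2.2 m (hj j (by omega))).1.trans (hlev j), (hu j).2.2.2 m (hj j (by omega))⟩
    refine ⟨σ, h1, fun r => ?_⟩
    filter_upwards [(bk_tendsto h1).eventually_ge_atTop (j0 + 1),
      (htend.comp (bk_tendsto h1)).eventually_ge_atTop r] with i i1 i2
    obtain ⟨e1, e2⟩ := h2 i i1
    refine ⟨seg (σ.bk i), i2, hj _ (by omega), (hlev _).trans e1.ge, (e2 _).trans ?_⟩
    unfold SimD.lift
    rw [e1]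
  choose σ hσ hσ' using hsim
  have hsum : ∀ j, ∑ i ∈ Finset.range j, ((s (seg i)).M.A (lev i)).card ≤
      seg j * (s (seg j)).M.sz (lev j) +
        ∑ i ∈ Finset.range (lev j), ((s (seg j)).M.A i).card := by
    intro j
    induction j with
    | zero => exact Nat.zero_le _
    | succ j ih =>
      have h1 : (s (seg j)).M.sz (lev j + 1) ≤ (s (seg (j + 1))).M.sz (lev (j + 1)) := Q.hsz j
      have h2 := Nat.mul_le_mul_left (seg j) (((s (seg j)).M.sz_mono (Nat.le_succ (lev j))).trans h1)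
      have h3 := (s (seg j)).M.sum_le (lev j + 1)
      rw [Finset.sum_range_succ] at h3 ⊢
      rcases hstep j with ⟨e1, e2⟩ | ⟨e1, -, -⟩
      · rw [e1, e2] at h2 ⊢
        rw [Finset.sum_range_succ]
        omega
      · have h4 : seg (j + 1) * (s (seg (j + 1))).M.sz (lev (j + 1)) =
            seg j * (s (seg (j + 1))).M.sz (lev (j + 1)) +
              (s (seg (j + 1))).M.sz (lev (j + 1)) := by
          nth_rewrite 1 [e1]
          rw [Nat.succ_mul]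
        omega
  refine ⟨Q.Nd, ⟨⋃ n, (s n).C, Q.glue, fun j => (s (seg j)).rt (lev j), hcnt, fun r => ?_,
    fun y hy => ?_, fun η y h1 h2 => (s 0).tend _ y (hS.adm (hσ 0) h1) (hS.legal (hσ 0) h1 h2)⟩,
    fun m => ?_⟩
  · filter_upwards [htend.eventually_ge_atTop r] with j hj
    refine ((hP j).2.1 _ (hlev j)).le ((tw_mono hj ?_).trans (tw_succ' _ _).ge)
    have h1 := hsum j
    have h2 := (s (seg j)).M.sum_le (lev j)
    have h3 := Nat.mul_le_mul_right ((s (seg j)).M.sz (lev j))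
      (((hP j).1.trans (hlev j)).trans ((s (seg j)).M.le_sz (lev j)))
    have h4 := G_sq ((s (seg j)).M.sz (lev j))
    rw [Nat.add_mul] at h3
    change ∑ i ∈ Finset.range j, ((s (seg i)).M.A (lev i)).card + (s (seg j)).M.sz (lev j) ≤ _
    omega
  · obtain ⟨n, hn⟩ := mem_iUnion.1 hy
    exact (s n).tendC y hn
  · have hex : ∀ y, ∃ n, m ≤ n ∧ (y ∈ ⋃ n, (s n).C → y ∈ (s n).C) := by
      intro y
      by_cases hy : y ∈ ⋃ n, (s n).C
      · obtain ⟨n, hn⟩ := mem_iUnion.1 hy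
        exact ⟨m + n, Nat.le_add_right _ _, fun _ => (labs_eq h m (Nat.le_add_left _ _) hn).1⟩
      · exact ⟨m, le_rfl, fun h => absurd h hy⟩
    choose ny hny hny' using hex
    refine ⟨σ m, fun y => labs s t lab m (ny y) y, subset_iUnion (fun n => (s n).C) m, hσ m, ?_,
      fun y hy hy' => ?_, fun y hy h1 y' hy' h1' => ?_⟩
    · filter_upwards [hσ' m 0] with i ⟨n, _, h1, h2, h3⟩
      exact h3 ▸ ((hc n _ (hca n)).2.2 m h1).2.1 i h2
    · obtain ⟨h1, h2, h3, -⟩ := (leD hS h (hny y)).new y (hny' y hy) hy'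
      refine ⟨h1, h2, h3, ?_⟩
      obtain ⟨k, rfl⟩ : y ∈ range en := hen ▸ mem_insert_of_mem _ hy
      filter_upwards [hσ' m (k + ny (en k))] with i ⟨n, h4, h5, h6, h7⟩
      obtain ⟨h8, h9⟩ := labs_eq h m (show ny (en k) ≤ n by omega) (hny' _ hy)
      have := ((hc n _ (hca n)).2.2 m h5).2.2 k (show k ≤ n by omega) i h6 h8 hy'
      rw [h9, ← h7] at this
      exact this
    · obtain ⟨h2, h3⟩ := labs_eq h m (Nat.le_add_right (ny y) (ny y')) (hny' y hy)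
      obtain ⟨h4, h5⟩ := labs_eq h m (Nat.le_add_left (ny y') (ny y)) (hny' y' hy')
      have := (leD hS h ((hny y).trans (Nat.le_add_right _ (ny y')))).lin y h2 h1 y' h4 h1'
      rw [h3, h5] at this
      exact this

end Pool.Agent.P.MP_b17faa_gt.X7
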