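import Pool.Agent.P.MP_b17faa_gt.X7Iface

/-!
One maneuver in one zone, and the run through the gaps of a block.
-/

namespace Pool.Agent.P.MP_b17faa_gt.X7

open Set Filter Function

namespace GapAux

variable {N : Type} {S : Stat N} {P : Dyn N} {K L : Set ℕ}

theorem pre_wf {r : Req} {a : N × Dt} (h : Pre S P K L r a) : r.E.Wf ∧ r.E.tp ≤ S.dep a.1 := by
  cases r with
  | adj E => exact ⟨h.2.1, h.2.2.1⟩
  | new E => exact ⟨h.2.1, h.2.2.1⟩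
  | fst E n w => exact ⟨h.2.1, h.2.2.1.ge⟩
  | gap E n k b w =>
    refine ⟨h.2.1, ?_⟩
    obtain ⟨-, -, -, -, -, h1, h2⟩ := h
    cases b
    · exact (h2 rfl).1.ge
    · exact (h1 rfl).1.le

theorem post1_mono {n : ℕ} {E : Ent} {b : Bool} {t t' : ℕ} {a : N × Dt}
    (h : Post1 S P K n E b t a) (ht : t ≤ t') : Post1 S P K n E b t' a :=
  ⟨h.1, h.2.1, fun e => ⟨(h.2.2.1 e).1, (h.2.2.1 e).2.1,
    fun k hk => (h.2.2.1 e).2.2 k (ht.trans hk)⟩,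
    fun e => ⟨(h.2.2.2 e).1, fun k hk => (h.2.2.2 e).2 k (ht.trans hk)⟩⟩

/-- the common part of the maneuvers in the gaps -/
def Cm (S : Stat N) (P : Dyn N) (K : Set ℕ) (E : Ent) (n k : ℕ) (b b' : Bool) (Q : Prop)
    (a a' : N × Dt) (t : ℕ) : Prop :=
  Rch S P (2 * E.tp + 1) a a' ∧ Post1 S P K n E b' t a' ∧
    (b = true → b' = true → Rch S P (2 * S.dep a.1 + 1) a a' ∧ S.dep a'.1 = S.dep a.1) ∧
    (b = true → b' = false → ∀ e, (E.tp + 1, true, e) ∈ a.2 → S.kill a'.1 e) ∧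
    (Q → Rec S E (n, k) b b' a')

theorem rec_keep (ok : Ok S P) {E : Ent} (hE : E.Wf) {n k : ℕ} {b b' b0 : Bool} {Q : Prop}
    {a a' : N × Dt} {t : ℕ} (h : Cm S P K E n k b b' Q a a' t) (hd : b = true → E.tp < S.dep a.1)
    {e : ℕ × ℕ} (hr : Rec S E e b0 b a) : Rec S E e b0 b' a' := by
  obtain ⟨h1, -, h2, h3, -⟩ := h
  obtain ⟨w1, w2, w3, -⟩ := hE
  refine ⟨fun c => ?_, fun c => ⟨fun j hj => h1.2.1 _ ((hr.2 c).1 j hj) ?_,
    h1.2.1 _ (hr.2 c).2 ?_⟩⟩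
  · rcases hr.1 c with c1 | ⟨c1, c2⟩
    · exact Or.inl (ok.kill _ _ _ (ok.mono _ _ _ _ (Nat.zero_le _) h1.1) c1)
    · cases b'
      · exact Or.inl (h3 c1 rfl e c2)
      · refine Or.inr ⟨rfl, (h2 c1 rfl).1.2.1 _ c2 ?_⟩
        have := hd c1
        dsimp only
        omega
  · dsimp only
    omega
  · dsimp only
    omega

theorem want_iff {ν : Opt} {g : ℕ} : want ν g = true ↔ ν.2.2.1 ≤ g ∧ g ≤ ν.2.2.2 := by
  simp only [want, decide_eq_true_eq]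

end GapAux

open GapAux Mach

theorem s_zone (h : S_Calc) : S_Zone := by
  intro c r η x D z z' hη hx hz hD hr hP
  obtain ⟨y, s1, i1⟩ := exists_sit (M := c.M) η x hx
  have p1 : Pre c.S (c.M.dyn η) c.K c.L r (y, D) := h.pre_sit (c.M.ok c.V η) (hP.self hη) s1
  obtain ⟨a1, a2⟩ := pre_wf p1
  obtain ⟨⟨⟨y', D'⟩, w⟩, b1, b2, b3, b4⟩ :=
    c.up z r y D i1.le hD hr a1 a2 η hη (h.man (c.hyp η hη) p1)
  obtain ⟨x', s2, i2⟩ := exists_sit (M := c.M) η y' (b1.trans hz)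
  refine ⟨y, y', x', D', w, s1, i1, b4.self hη, b1, s2, i2, b2, b3, fun η' h1 h2 => ?_⟩
  have lt := c.lt_nxt z
  exact h.man_sit (c.M.ok c.V η') (hP η' h1 fun i hi => h2 i (by omega))
    (Walk.congr s1 fun i _ hi => h2 i (by omega)) (b4 η' h1 fun i hi => h2 i (by omega))
    (Walk.congr s2 fun i _ hi => h2 i (by omega))

theorem GapAux.step (h : S_Calc) (hz : S_Zone) {c : Ctx} {k : Skel} (hk : c.IsSkel k) {j : ℕ}
    {ν : Opt} {η : ℕ → ℕ} {E : Ent} {x1 : ℕ} {D1 : Dt} (hν : ν ∈ c.A' k j) (hη : η ∈ Pt c.B)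
    (hE : E.Wf) (hx1 : c.M.idx x1 = k.s j 1)
    (hB : Box c.B (k.s j 1) η (fun η' => XX c.S (c.M.dyn η') (x1, D1) ∧
      Post0 c.S (c.M.dyn η') c.K c.L E (k.s j 1) (x1, D1)))
    {g x : ℕ} {D : Dt} (g1 : 1 ≤ g) (g2 : g < k.ga j + 2) (ih : c.Gap k j ν η E x1 D1 g x D)
    (h1 : g = 1 → x = x1 ∧ D = D1) : ∃ x' D', c.Gap k j ν η E x1 D1 (g + 1) x' D' := by
  have sm := (hk.s_mono j).monotone
  have Tm := c.M.T_mono.monotone
  obtain ⟨a1, a2, a3⟩ := mem_Iv.1 (((Ctx.mem_A'.1 hν).2.1 g).1 g2)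
  obtain ⟨c1, -, -⟩ := mem_Iv.1 (Ctx.mem_A'.1 hν).2.2
  have z1 : k.s j g ≤ c.z k j g (ν.2.1 g).1 := Ctx.s_le_z _ _ _
  have z2 := Ctx.z_succ (c := c) (k := k) j g (ν.2.1 g).1
  have z3 : c.nxt (c.z k j g (ν.2.1 g).1) ≤ k.s j (g + 1) := z2 ▸ hk.z_le (a2.trans a3)
  have z4 := c.lt_nxt (c.z k j g (ν.2.1 g).1)
  have s1g : k.s j 1 ≤ k.s j g := sm g1
  obtain ⟨r, r1, r2, r3⟩ : ∃ r : Req, r.Small (c.z k j g (ν.2.1 g).1) ∧
      Box c.B (c.M.idx x) η (fun η' => Pre c.S (c.M.dyn η') c.K c.L r (x, D)) ∧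
      ∀ P a a' w, Man c.S P c.K c.L r a (a', w) → Cm c.S P c.K E (k.s j 1) (k.s j g)
        (want ν (g - 1)) (want ν g) (2 ≤ g) a a' w.2 := by
    rcases g1.eq_or_lt with rfl | g3
    · obtain ⟨rfl, rfl⟩ := h1 rfl
      have w0 : ¬ want ν (1 - 1) = true := fun e => by have := (want_iff.1 e).1; omega
      refine ⟨.fst E (k.s j 1) (want ν 1), z1, fun η' e1 e2 => ?_, fun P a a' w m =>
        ⟨m.1, m.2, fun e => (w0 e).elim, fun e => (w0 e).elim, fun e => absurd e (by omega)⟩⟩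
      obtain ⟨b1, b2, -, b3⟩ := hB η' e1 (hx1 ▸ e2)
      exact ⟨b1, hE, b2, b3 _ le_rfl (hk.col j)⟩
    · refine ⟨.gap E (k.s j 1) (k.s j g) (want ν (g - 1)) (want ν g), ⟨s1g.trans z1, z1⟩,
        fun η' e1 e2 => ?_, fun P a a' w m =>
        ⟨m.1, m.2.1, m.2.2.1, m.2.2.2.1, fun _ => m.2.2.2.2⟩⟩
      obtain ⟨b1, b2⟩ := ih.box η' e1 (ih.idx ▸ e2)
      exact ⟨b1.2.2, hE, hk.plc j g g3, b2 g3⟩
  obtain ⟨y, y', x', D', w, s1, i1, m, i2, s2, i3, d1, d2, bx⟩ :=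
    hz c r η x D _ _ hη (ih.idx.le.trans z1) z3 (ih.sz.trans z1) r1 r2
  obtain ⟨m1, m2, m3, -, -⟩ := r3 _ _ _ _ m
  have ix := ih.idx
  have dx1 : c.M.dep x1 = E.tp := (hB.self hη).2.1
  have p0 : c.M.Play η (2 * E.tp + 1) x1 x := (ih.box.self hη).1.1
  have dx : E.tp ≤ c.M.dep x := (p0.mono (Nat.le_succ _)).dep_ge dx1.ge
  have p1 : c.M.Play η (2 * E.tp + 1) y y' := m1.1
  have p2 : c.M.Play η (2 * E.tp + 1) x1 y' := p0.trans ((s1.play.mono (by omega)).trans p1)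
  have dy : E.tp ≤ c.M.dep y' := (p2.mono (Nat.le_succ _)).dep_ge dx1.ge
  have iy : c.M.idx y ≤ c.M.idx y' := Walk.idx_le p1
  have eA : want ν g = false → c.M.eff y' = c.M.eff x1 := fun e =>
    Play.eff (dx1 ▸ p2) ((m2.2.2.2 e).1.trans dx1.symm)
  have eB : c.M.eff y' ≤ c.M.T (k.s j (ν.2.2.1 + 1)) := by
    cases e : want ν g
    · exact (eA e).trans_le ((c.M.eff_le x1).trans (Tm (hx1.trans_le (sm (by omega)))))
    cases e' : want ν (g - 1)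
    · have e1 := want_iff.1 e
      have e2 : ¬ (ν.2.2.1 ≤ g - 1 ∧ g - 1 ≤ ν.2.2.2) := fun t => by
        rw [want_iff.2 t] at e'; exact absurd e' (by decide)
      exact (c.M.eff_le y').trans (Tm ((i2.trans z3).trans (sm (by omega))))
    · obtain ⟨t1, t2⟩ := m3 e' e
      exact ((Play.eff t1.1 t2).trans s1.eff).trans_le ih.eff.1
  refine ⟨x', D', i3, d1.trans z3, ih.walk.trans ((s1.walk fun a t1 t2 t3 t4 => ?_).1.trans
    ((Walk.imp p1 fun a o t1 t2 t3 => ⟨t1, fun t => (t ⟨g, g2, i1 ▸ t2, z2 ▸ t3.trans_le i2⟩).elim⟩).trans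
      (s2.walk fun a t1 t2 t3 t4 => ?_).1)), ⟨s2.eff.trans_le eB, fun e => s2.eff.trans (eA e)⟩,
    fun g' t1 t2 => ?_, fun η' e1 e2 => ?_⟩
  · refine ⟨by rw [t3, Op.lev]; omega, fun _ => ⟨rfl, t4.trans_le ih.eff.1, fun t => ?_⟩⟩
    cases e : want ν (g - 1)
    · exact t4.trans (ih.eff.2 e)
    · have e1 := want_iff.1 e
      have u1 : k.s j ν.2.2.1 ≤ k.s j g := sm (by omega)
      have u2 : k.s j (g + 1) ≤ k.s j (ν.2.2.2 + 2) := sm (by omega)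
      exact (t ⟨by omega, by omega⟩).elim
  · refine ⟨by rw [t3, Op.lev]; omega, fun _ => ⟨rfl, t4.trans_le eB, fun t => ?_⟩⟩
    cases e : want ν g
    · exact t4.trans (eA e)
    · have e1 := want_iff.1 e
      have u1 : k.s j ν.2.2.1 ≤ k.s j g := sm (by omega)
      have u2 : k.s j (g + 1) ≤ k.s j (ν.2.2.2 + 2) := sm (by omega)
      exact (t ⟨by omega, by omega⟩).elim
  · have m' := r3 _ _ _ _ (bx.self hη)
    rcases (Nat.le_of_lt_succ t2).eq_or_lt with rfl | t3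
    · exact m'.2.2.2.2 (by omega)
    · exact rec_keep (c.M.ok c.V η) hE m'
        (fun e => (((ih.box.self hη).2 (by omega)).2.2.1 e).1) (ih.plc g' t1 t3)
  · have m' := r3 _ _ _ _ (bx η' e1 e2)
    exact ⟨h.rch_trans (c.M.ok c.V η') (ih.box η' e1 fun i hi => e2 i (by omega)).1 m'.1,
      fun _ => post1_mono m'.2.1 (d2.trans z3)⟩

theorem s_gap (h : S_Calc) (hz : S_Zone) : S_Gap := by
  intro c k hk j ν η E x1 D1 hν hη hE hx1 hD1 hB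
  have key : ∀ g, 1 ≤ g → g ≤ k.ga j + 2 →
      ∃ x D, c.Gap k j ν η E x1 D1 g x D ∧ (g = 1 → x = x1 ∧ D = D1) := by
    intro g g1
    induction g, g1 using Nat.le_induction with
    | base =>
      refine fun _ => ⟨x1, D1, ⟨hx1, hD1, .refl, ⟨(c.M.eff_le x1).trans (c.M.T_mono.monotone
        (hx1.trans_le ((hk.s_mono j).monotone (by omega)))), fun _ => rfl⟩,
        fun g' t1 t2 => by omega, fun η' e1 e2 =>
        ⟨⟨Play.refl, fun _ t _ => t, (hB η' e1 e2).1⟩, fun t => by omega⟩⟩, fun _ => ⟨rfl, rfl⟩⟩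
    | succ g g1 ih =>
      intro g2
      obtain ⟨x, D, t1, t2⟩ := ih (by omega)
      obtain ⟨x', D', t3⟩ := GapAux.step h hz hk hν hη hE hx1 hB g1 (by omega) t1 t2
      exact ⟨x', D', t3, fun e => by omega⟩
  obtain ⟨x, D, t, -⟩ := key _ (by omega) le_rfl
  exact ⟨x, D, t⟩

end Pool.Agent.P.MP_b17faa_gt.X7
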