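import Pool.Agent.P.MP_b17faa_gt.X7Iface

/-!
Measurability of the calculus of tests.
-/

namespace Pool.Agent.P.MP_b17faa_gt.X7

open Set Filter Function

namespace Meas

theorem walk {N : Type} (M : Mach N ℕ) (Q : N → Op → Prop) (x y : N) :
    Measurable fun η : ℕ → ℕ => M.Walk η Q x y := by
  refine measurableSet_setOfPred.1 (IsOpen.measurableSet ?_)
  refine isOpen_iff_forall_mem_open.2 fun η hη => ?_
  refine ⟨Set.pi (Finset.range (M.idx y) : Set ℕ) fun i => {η i}, fun η' h => ?_,
    isOpen_set_pi (Finset.finite_toSet _) fun _ _ => isOpen_discrete _, fun _ _ => rfl⟩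
  exact Mach.Walk.congr hη fun i _ hi => h i (Finset.mem_coe.2 (Finset.mem_range.2 hi))

variable {Ω N : Type} [MeasurableSpace Ω] [Countable N] (S : Stat N) {P : Ω → Dyn N}
  (hP : ∀ l x y, Measurable fun ω => (P ω).Pl l x y)
  (hS : ∀ x y, Measurable fun ω => (P ω).St x y) (K L : Set ℕ)

theorem ev {p : ℕ → Ω → Prop} (h : ∀ k, Measurable (p k)) :
    Measurable fun ω => ∀ᶠ k in atTop, p k ω := by
  simp only [eventually_atTop]
  exact .exists fun _ => .forall fun k => .imp measurable_const (h k)

include hP

theorem mX (s : ℕ) : ∀ (x : N) (D : Dt), Measurable fun ω => X S (P ω) s x D := by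
  induction s with
  | zero => exact fun _ _ => measurable_const
  | succ s ih =>
    exact fun x D => .forall fun y => .imp (hP _ _ _) (.exists fun z => .and (hP _ _ _)
      (.forall fun z' => .imp (hP _ _ _) (.and (.exists fun w => .and (hP _ _ _) measurable_const)
        (.exists fun w => .and (hP _ _ _) (ih _ _)))))

theorem mXX (a : N × Dt) : Measurable fun ω => XX S (P ω) a := mX S hP _ _ _

theorem mRch (l : ℕ) (a b : N × Dt) : Measurable fun ω => Rch S (P ω) l a b :=
  .and (hP _ _ _) (.and measurable_const (mXX S hP b))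

theorem mDense {Φ : Ω → N × Dt → Prop} (h : ∀ a, Measurable fun ω => Φ ω a) (t : ℕ)
    (a : N × Dt) : Measurable fun ω => Dense S (P ω) (Φ ω) t a :=
  .forall fun _ => .imp (mRch S hP _ _ _) (.exists fun c => .and (mRch S hP _ _ _)
    (.and measurable_const (h c)))

theorem mNever {Φ : Ω → N × Dt → Prop} (h : ∀ a, Measurable fun ω => Φ ω a) (t : ℕ)
    (a : N × Dt) : Measurable fun ω => Never S (P ω) (Φ ω) t a :=
  .forall fun b => .imp (mRch S hP _ _ _) (.imp measurable_const (.not (h b)))

include hS

theorem mplus (j : ℕ) (e : ℕ × ℕ) (a : N × Dt) : Measurable fun ω => plus S (P ω) j e a :=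
  .exists fun _ => .and (hS _ _) (.forall fun _ => .imp (hS _ _) (.exists fun _ =>
    .and (hP _ _ _) (mX S hP _ _ _)))

theorem mready (n j : ℕ) (a : N × Dt) : Measurable fun ω => ready S (P ω) K n j a :=
  ev fun _ => .imp measurable_const (mplus S hP hS _ _ _)

theorem mAp (n j : ℕ) (a : N × Dt) : Measurable fun ω => Ap S (P ω) K n j a :=
  .exists fun _ => .and (hS _ _) (mDense S hP (mready S hP hS K n j) _ _)

theorem mrdy (j : ℕ) (a : N × Dt) : Measurable fun ω => rdy S (P ω) K L j a :=
  ev fun _ => .imp measurable_const (mAp S hP hS K _ _ _)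

theorem mKk (d t : ℕ) (a : N × Dt) : Measurable fun ω => Kk S (P ω) K L d t a :=
  .forall fun _ => .imp (mRch S hP _ _ _) (.not (mDense S hP (mrdy S hP hS K L d) _ _))

theorem mNoK (j : ℕ) (a : N × Dt) : Measurable fun ω => NoK S (P ω) K L j a :=
  .forall fun _ => .imp (mRch S hP _ _ _) (.not (mKk S hP hS K L _ _ _))

theorem mCone (d : ℕ) (a : N × Dt) : Measurable fun ω => Cone S (P ω) K L d a :=
  .forall fun _ => .imp (mRch S hP _ _ _) (.exists fun _ => .and (mRch S hP _ _ _)
    (mKk S hP hS K L _ _ _))

theorem mInv (E : Ent) (a : N × Dt) : Measurable fun ω => Inv S (P ω) K L E a :=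
  .and (mNoK S hP hS K L _ _) (.and (mDense S hP (mrdy S hP hS K L _) _ _)
    (.imp measurable_const (.and (mKk S hP hS K L _ _ _)
      (.and (mNever S hP (mrdy S hP hS K L _) _ _)
        (.imp measurable_const (mCone S hP hS K L _ _))))))

theorem mPost0 (E : Ent) (c : ℕ) (a : N × Dt) : Measurable fun ω => Post0 S (P ω) K L E c a :=
  .and measurable_const (.and (mInv S hP hS K L _ _) (.forall fun _ => .imp measurable_const
    (.imp measurable_const (.and (mAp S hP hS K _ _ _)
      (.imp measurable_const (.not (mAp S hP hS K _ _ _)))))))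

theorem mPost1 (n : ℕ) (E : Ent) (h : Bool) (c : ℕ) (a : N × Dt) :
    Measurable fun ω => Post1 S (P ω) K n E h c a :=
  .and (mDense S hP (mready S hP hS K _ _) _ _)
    (.and (.imp measurable_const (mNever S hP (mready S hP hS K _ _) _ _))
      (.and (.imp measurable_const (.and measurable_const
        (.and (mDense S hP (mready S hP hS K _ _) _ _) (.forall fun _ => .imp measurable_const
          (.imp measurable_const (mplus S hP hS _ _ _))))))
        (.imp measurable_const (.and measurable_const (.forall fun _ => .imp measurable_const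
          (.imp measurable_const (.and (mplus S hP hS _ _ _)
            (.imp measurable_const (.not (mplus S hP hS _ _ _))))))))))

theorem mMan (r : Req) (a : N × Dt) (w : (N × Dt) × Ent × ℕ) :
    Measurable fun ω => Man S (P ω) K L r a w := by
  cases r with
  | adj E => exact .and (mRch S hP _ _ _) (.and measurable_const (mPost0 S hP hS K L _ _ _))
  | new E =>
    exact .and (mRch S hP _ _ _) (.and measurable_const (.and measurable_const
      (.and measurable_const (.and measurable_const (.and measurable_const
        (mPost0 S hP hS K L _ _ _))))))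
  | fst E n want => exact .and (mRch S hP _ _ _) (mPost1 S hP hS K _ _ _ _ _)
  | gap E n k h want =>
    exact .and (mRch S hP _ _ _) (.and (mPost1 S hP hS K _ _ _ _ _)
      (.and (.imp measurable_const (.imp measurable_const
        (.and (mRch S hP _ _ _) measurable_const))) measurable_const))

end Meas

theorem s_meas : S_Meas := by
  intro M V
  have hP : ∀ l x y, Measurable fun η : ℕ → ℕ => (M.dyn η).Pl l x y := fun _ x y =>
    Meas.walk M _ x y
  have hS : ∀ x y, Measurable fun η : ℕ → ℕ => (M.dyn η).St x y := fun x y => Meas.walk M _ x y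
  exact ⟨Meas.mplus _ hP hS, fun K => Meas.mAp _ hP hS K, fun K L => Meas.mMan _ hP hS K L⟩

end Pool.Agent.P.MP_b17faa_gt.X7
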