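import Pool.Agent.P.MP_b17faa_gt.X7Iface

/-!
Two legal points answering a set of demands.
-/

namespace Pool.Agent.P.MP_b17faa_gt.X7

open Set Filter Function

namespace Neg

variable {N O : Type} (M : Mach N O) (d : Set (ℕ × ℕ))

/-- all future demands have rank at least the rank bound of the top position -/
def Safe (x : N) : Prop := ∀ e ∈ d, M.T (M.idx x) ≤ e.2 → M.eff x ≤ e.1

open Classical in
/-- the operation of player `c` -/
noncomputable def op (s : (Bool → N) × Bool) (c : Bool) : Op :=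
  if Safe M d (s.1 (!s.2)) ∧ c = s.2 then (if M.dep (s.1 c) = 0 then .push else .rep) else .sit

open Classical in
/-- one round -/
noncomputable def nx (η : Bool → ℕ → O) (s : (Bool → N) × Bool) : (Bool → N) × Bool :=
  (fun c => M.step (s.1 c) (op M d s c) (η c (M.idx (s.1 c))),
    if Safe M d (s.1 (!s.2)) then !s.2 else s.2)

/-- the states -/
noncomputable def st (η : Bool → ℕ → O) (x0 : N) (n : ℕ) : (Bool → N) × Bool :=
  (nx M d η)^[n] (fun _ => x0, false)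

variable {M d} {η : Bool → ℕ → O} {x0 : N}

theorem st_succ (n : ℕ) : st M d η x0 (n + 1) = nx M d η (st M d η x0 n) :=
  iterate_succ_apply' _ _ _

theorem st_one (n : ℕ) (c : Bool) : (st M d η x0 (n + 1)).1 c =
    M.step ((st M d η x0 n).1 c) (op M d (st M d η x0 n) c)
      (η c (M.idx ((st M d η x0 n).1 c))) := by
  rw [st_succ]; rfl

theorem eff_sit (x : N) (ν : O) : M.eff (M.step x .sit ν) = M.eff x := by
  unfold Mach.eff
  rw [M.dep_step, Op.dep, M.ent_step _ _ _ _ le_rfl]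

theorem Safe.sit {x : N} (h : Safe M d x) (ν : O) : Safe M d (M.step x .sit ν) := by
  intro e he h1
  rw [eff_sit]
  rw [M.idx_step] at h1
  exact h e he ((M.T_mono.monotone (Nat.le_succ _)).trans h1)

theorem op_yes {s : (Bool → N) × Bool} (h : Safe M d (s.1 (!s.2))) :
    op M d s (!s.2) = .sit ∧ ∀ η, (nx M d η s).2 = !s.2 := by
  refine ⟨if_neg fun h' => ?_, fun _ => if_pos h⟩
  have := h'.2
  cases hs : s.2 <;> simp [hs] at this

theorem op_no {s : (Bool → N) × Bool} (h : ¬ Safe M d (s.1 (!s.2))) :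
    (∀ c, op M d s c = .sit) ∧ ∀ η, (nx M d η s).2 = s.2 :=
  ⟨fun _ => if_neg fun h' => h h'.1, fun _ => if_neg h⟩

theorem op_cases (s : (Bool → N) × Bool) (c : Bool) : op M d s c = .sit ∨
    (M.dep (s.1 c) = 0 ∧ op M d s c = .push) ∨ (M.dep (s.1 c) ≠ 0 ∧ op M d s c = .rep) := by
  unfold op
  split_ifs with h1 h2
  exacts [Or.inr (Or.inl ⟨h2, rfl⟩), Or.inr (Or.inr ⟨h2, rfl⟩), Or.inl rfl]

theorem op_new {s : (Bool → N) × Bool} (h : Safe M d (s.1 (!s.2))) : op M d s s.2 ≠ .sit := by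
  unfold op
  rw [if_pos ⟨h, rfl⟩]
  split_ifs <;> simp

theorem idx_st (n : ℕ) (c : Bool) : M.idx ((st M d η x0 n).1 c) = M.idx x0 + n := by
  induction n with
  | zero => rfl
  | succ n ih => rw [st_one, M.idx_step, ih, Nat.add_assoc]

theorem dep_st (h0 : M.dep x0 = 0) (n : ℕ) (c : Bool) : M.dep ((st M d η x0 n).1 c) ≤ 1 := by
  induction n with
  | zero => exact h0.trans_le (Nat.zero_le _)
  | succ n ih =>
    rw [st_one, M.dep_step]
    rcases op_cases (M := M) (d := d) (st M d η x0 n) c with h | ⟨h, h'⟩ | ⟨h, h'⟩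
    · rw [h]; exact ih
    · rw [h', Op.dep, h]
    · rw [h']; exact ih

theorem safe_st (h0 : M.dep x0 = 0) (n : ℕ) :
    Safe M d ((st M d η x0 n).1 (st M d η x0 n).2) := by
  induction n with
  | zero =>
    intro e _ _
    change M.eff x0 ≤ _
    unfold Mach.eff
    rw [h0, M.zero]
    exact Nat.zero_le _
  | succ n ih =>
    by_cases h : Safe M d ((st M d η x0 n).1 (!(st M d η x0 n).2))
    · have e : (st M d η x0 (n + 1)).2 = !(st M d η x0 n).2 := by
        rw [st_succ]; exact (op_yes h).2 η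
      rw [e, st_one, (op_yes h).1]
      exact h.sit _
    · have e : (st M d η x0 (n + 1)).2 = (st M d η x0 n).2 := by
        rw [st_succ]; exact (op_no h).2 η
      rw [e, st_one, (op_no h).1]
      exact ih.sit _

theorem play_st (c : Bool) (n : ℕ) :
    M.Play (η c) 0 ((st M d η x0 n).1 c) ((st M d η x0 (n + 1)).1 c) := by
  rw [st_one]
  exact Mach.Walk.single (Nat.zero_le _)

theorem wd_st (c : Bool) {n m k : ℕ} (h : n ≤ m) (hk : k < M.T (M.idx x0 + n)) :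
    M.wd ((st M d η x0 m).1 c) k = M.wd ((st M d η x0 n).1 c) k :=
  Mach.Walk.wd (Mach.chain (xs := fun n => (st M d η x0 n).1 c) (play_st c) h)
    (by rwa [idx_st])

theorem flip (hd : Mult 1 d) (n : ℕ) : ∃ m, n ≤ m ∧
    Safe M d ((st M d η x0 m).1 (!(st M d η x0 m).2)) ∧
      (st M d η x0 m).2 = (st M d η x0 n).2 := by
  by_contra hc
  have hc' : ∀ m, n ≤ m → (st M d η x0 m).2 = (st M d η x0 n).2 →
      ¬ Safe M d ((st M d η x0 m).1 (!(st M d η x0 m).2)) :=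
    fun m h1 h2 h3 => hc ⟨m, h1, h3, h2⟩
  have key : ∀ k, (st M d η x0 (n + k)).2 = (st M d η x0 n).2 ∧
      M.eff ((st M d η x0 (n + k)).1 (!(st M d η x0 n).2)) =
        M.eff ((st M d η x0 n).1 (!(st M d η x0 n).2)) := by
    intro k
    induction k with
    | zero => exact ⟨rfl, rfl⟩
    | succ k ih =>
      have h := op_no (hc' (n + k) (Nat.le_add_right _ _) ih.1)
      rw [← Nat.add_assoc]
      refine ⟨?_, ?_⟩
      · rw [st_succ, h.2 η, ih.1]
      · rw [st_one, h.1, eff_sit, ih.2]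
  obtain ⟨B, hB⟩ := (hd.finite (M.eff ((st M d η x0 n).1 (!(st M d η x0 n).2)))).1.bddAbove
  refine hc' (n + (B + 1)) (Nat.le_add_right _ _) (key _).1 fun e he h1 => ?_
  rw [(key _).1, (key _).2]
  by_contra h2
  have h3 : e.2 ≤ B := hB ⟨e.1, not_le.1 h2, he⟩
  rw [idx_st] at h1
  have h4 : M.idx x0 + (n + (B + 1)) ≤ M.T (M.idx x0 + (n + (B + 1))) := M.T_mono.le_apply
  omega

theorem renew (hd : Mult 1 d) (c : Bool) (n : ℕ) :
    ∃ m, n ≤ m ∧ op M d (st M d η x0 m) c ≠ .sit := by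
  obtain ⟨m, h1, h2, -⟩ := flip (M := M) (η := η) (x0 := x0) hd n
  by_cases h : (st M d η x0 m).2 = c
  · exact ⟨m, h1, h ▸ op_new h2⟩
  · obtain ⟨m', c1, c2, c3⟩ := flip (M := M) (η := η) (x0 := x0) hd (m + 1)
    have e : (st M d η x0 (m + 1)).2 = !(st M d η x0 m).2 := by
      rw [st_succ]; exact (op_yes h2).2 η
    have e' : (st M d η x0 m').2 = c := by
      rw [c3, e]
      revert h
      cases (st M d η x0 m).2 <;> cases c <;> simp
    exact ⟨m', by omega, e' ▸ op_new c2⟩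

theorem born (h0 : M.dep x0 = 0) {c : Bool} {m : ℕ} (h : op M d (st M d η x0 m) c ≠ .sit) :
    M.dep ((st M d η x0 (m + 1)).1 c) = 1 ∧ m ≤ (M.ent ((st M d η x0 (m + 1)).1 c) 1).1 := by
  have h1 := dep_st (d := d) (η := η) h0 m c
  have h2 : (op M d (st M d η x0 m) c).dep (M.dep ((st M d η x0 m).1 c)) = 1 ∧
      (op M d (st M d η x0 m) c = .push ∨ op M d (st M d η x0 m) c = .rep) := by
    rcases op_cases (M := M) (d := d) (st M d η x0 m) c with h' | ⟨h', h''⟩ | ⟨h', h''⟩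
    · exact absurd h' h
    · rw [h'', Op.dep, h']; exact ⟨rfl, Or.inl rfl⟩
    · rw [h'', Op.dep]; exact ⟨by omega, Or.inr rfl⟩
  have h3 := M.new ((st M d η x0 m).1 c) _ (η c (M.idx ((st M d η x0 m).1 c))) h2.2 h2.1.ge
  rw [h2.1, ← st_one, idx_st] at h3
  have h4 : M.idx x0 + m ≤ M.T (M.idx x0 + m) := M.T_mono.le_apply
  refine ⟨by rw [st_one, M.dep_step, h2.1], by omega⟩

theorem two {c : Bool} {m : ℕ} (h : M.dep ((st M d η x0 m).1 c) = 1) :
    M.dep ((st M d η x0 (m + 1)).1 c) = 1 ∧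
      M.Play (η c) (2 * 1) ((st M d η x0 m).1 c) ((st M d η x0 (m + 1)).1 c) := by
  rw [st_one, M.dep_step]
  rcases op_cases (M := M) (d := d) (st M d η x0 m) c with h' | ⟨h', h''⟩ | ⟨h', h''⟩
  · refine ⟨by rw [h', Op.dep, h], Mach.Walk.single ?_⟩
    rw [h', h]; decide
  · omega
  · refine ⟨by rw [h'', Op.dep, h], Mach.Walk.single ?_⟩
    rw [h'', h]; decide

theorem point (hd : Mult 1 d) (h0 : M.dep x0 = 0) (c : Bool) : ∃ y, M.Legal (η c) y ∧
    ∀ n k, k < M.T (M.idx x0 + n) → y k = M.wd ((st M d η x0 n).1 c) k := by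
  obtain ⟨m, -, hm⟩ := renew (M := M) (η := η) (x0 := x0) hd c 0
  have h1 : ∀ n, M.dep ((st M d η x0 (m + 1 + n)).1 c) = 1 := by
    intro n
    induction n with
    | zero => exact (born h0 hm).1
    | succ n ih => exact (two ih).1
  have h2 : ∀ n, M.Play (η c) (2 * 1) ((st M d η x0 (m + 1 + n)).1 c)
      ((st M d η x0 (m + 1 + (n + 1))).1 c) := fun n => (two (h1 n)).2
  have h3 : ∀ a, ∃ n, a ≤ (M.ent ((st M d η x0 (m + 1 + n)).1 c) 1).1 := by
    intro a
    obtain ⟨m', c1, c2⟩ := renew (M := M) (η := η) (x0 := x0) hd c (m + a)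
    refine ⟨m' - m, ?_⟩
    rw [show m + 1 + (m' - m) = m' + 1 by omega]
    exact le_trans (by omega) (born h0 c2).2
  obtain ⟨y, hy⟩ := Mach.exists_output (xs := fun n => (st M d η x0 (m + 1 + n)).1 c)
    (h1 0).ge h2 h3
  refine ⟨y, ⟨1, fun n => (st M d η x0 (m + 1 + n)).1 c, le_rfl, (h1 0).ge, h2, h3, hy⟩,
    fun n k hk => ?_⟩
  rw [hy n k (by rw [idx_st]; exact hk.trans_le (M.T_mono.monotone (by omega)))]
  exact wd_st c (by omega) hk

theorem cover (h0 : M.dep x0 = 0) {rt : ℕ → O}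
    (hη : ∀ i, M.idx x0 ≤ i → (∀ c, η c i ∈ M.A i) ∧ M.Fr i d (rt i) (η false i) ∧
      M.Fr i d (η false i) (η true i)) (n : ℕ) (e : ℕ × ℕ) (he : e ∈ d)
    (h1 : M.T (M.idx x0 + n) ≤ e.2) (h2 : e.2 < M.T (M.idx x0 + n + 1)) :
    ∃ c, M.wd ((st M d η x0 (n + 1)).1 c) e.2 ≤ e.1 := by
  obtain ⟨a1, a2, a3⟩ := hη (M.idx x0 + n) (Nat.le_add_right _ _)
  have : ∃ b, op M d (st M d η x0 n) b = .sit ∧ Safe M d ((st M d η x0 n).1 b) := by
    by_cases h : Safe M d ((st M d η x0 n).1 (!(st M d η x0 n).2))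
    exacts [⟨_, (op_yes h).1, h⟩, ⟨_, (op_no h).1 _, safe_st h0 n⟩]
  obtain ⟨b, b1, b2⟩ := this
  obtain ⟨c, hc⟩ := M.cov (M.idx x0 + n) d _ (fun c => η c (M.idx x0 + n)) (st M d η x0 n).1
    (op M d (st M d η x0 n)) b (fun c => ⟨idx_st n c, a1 c⟩) a2 a3 b1
    (fun e he c1 _ => b2 e he (by rwa [idx_st])) e he h1 h2
  exact ⟨c, by rwa [st_one, idx_st]⟩

end Neg

theorem s_neg : S_Neg := by
  intro N O p d hd
  obtain ⟨ρ, hρ, -, h1⟩ := diag (Q := fun r i =>
    R (p.M.Fr i) (tw (r + 1) (p.M.sz i)) (p.M.A i) (p.rt i)) fun r => p.big (r + 1)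
  obtain ⟨i0, hi⟩ := eventually_atTop.1 h1
  have h2 : ∀ i, ∃ a b : O, i0 ≤ i → a ∈ p.M.A i ∧ b ∈ p.M.A i ∧ p.M.Fr i d (p.rt i) a ∧
      p.M.Fr i d a b ∧ R (p.M.Fr i) (tw (ρ i) (p.M.sz i)) (p.M.A i) b := by
    intro i
    by_cases h : i0 ≤ i
    · have h3 : R (p.M.Fr i) (tw (ρ i) (p.M.sz i) + 1 + 1) (p.M.A i) (p.rt i) :=
        (hi i h).le (by have := G_two (tw (ρ i) (p.M.sz i)); rw [tw_succ]; omega)
      obtain ⟨a, a1, a2, a3⟩ := h3 d (hd.le (by omega))
      obtain ⟨b, b1, b2, b3⟩ := a3 d (hd.le (by omega))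
      exact ⟨a, b, fun _ => ⟨a1, b1, a2, b2, b3⟩⟩
    · exact ⟨p.rt i, p.rt i, fun h' => absurd h' h⟩
  choose η0 η1 hη using h2
  obtain ⟨x0, x1, x2, x3⟩ := p.M.start i0
  let η : Bool → ℕ → O := fun c => cond c η1 η0
  obtain ⟨y0, a0, b0⟩ := Neg.point (η := η) hd x2 false
  obtain ⟨y1, a1, b1⟩ := Neg.point (η := η) hd x2 true
  have ev : ∀ {Q : ℕ → Prop}, (∀ i, i0 ≤ i → Q i) → ∀ᶠ i in atTop, Q i :=
    fun h => eventually_atTop.2 ⟨i0, h⟩
  refine ⟨η0, η1, y0, y1, a0, a1, ev fun i h => (hη i h).1, ev fun i h => (hη i h).2.1,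
    ev fun i h => Or.inr ((p.M.fr i).anti _ _ _ _ (empty_subset d) (hη i h).2.2.1),
    ev fun i h => Or.inr ((p.M.fr i).anti _ _ _ _ (empty_subset d) (hη i h).2.2.2.1),
    fun m => ?_, fun e he => ?_⟩
  · filter_upwards [eventually_ge_atTop i0, hρ.eventually_ge_atTop m] with i c1 c2
    exact (hη i c1).2.2.2.2.le (tw_mono c2 le_rfl)
  by_cases h : e.2 < p.M.T i0
  · refine Or.inl ?_
    rw [b0 0 e.2 (by rwa [x1])]
    exact (x3 _ h).trans_le (Nat.zero_le _)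
  have ex : ∃ n, e.2 < p.M.T (p.M.idx x0 + n + 1) :=
    ⟨e.2, lt_of_lt_of_le (by omega) p.M.T_mono.le_apply⟩
  have c1 : p.M.T (p.M.idx x0 + Nat.find ex) ≤ e.2 := by
    rcases Nat.eq_zero_or_pos (Nat.find ex) with c | c
    · rw [c, x1]; exact not_lt.1 h
    · have := Nat.find_min ex (m := Nat.find ex - 1) (by omega)
      rw [show p.M.idx x0 + (Nat.find ex - 1) + 1 = p.M.idx x0 + Nat.find ex by omega] at this
      exact not_lt.1 this
  obtain ⟨c, hc⟩ := Neg.cover (η := η) (rt := p.rt) x2 (fun i c => by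
    have := hη i (x1 ▸ c)
    exact ⟨fun c => by cases c; exacts [this.1, this.2.1], this.2.2.1, this.2.2.2.1⟩)
    (Nat.find ex) e he c1 (Nat.find_spec ex)
  cases c
  · exact Or.inl ((b0 _ e.2 (Nat.find_spec ex)).trans_le hc)
  · exact Or.inr ((b1 _ e.2 (Nat.find_spec ex)).trans_le hc)

end Pool.Agent.P.MP_b17faa_gt.X7
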