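import Pool.Agent.P.MP_b17faa_gt.X7Iface

/-!
The positive property.
-/

namespace Pool.Agent.P.MP_b17faa_gt.X7

open Set Filter Function

namespace Pos

/-- the places of a skeleton -/
def Pl (k : Skel) : Set (ℕ × ℕ) :=
  {e | ∃ j g, 1 ≤ g ∧ g ≤ k.ga j ∧ e = (k.s j 1, k.s j (g + 1))}

theorem le_col {c : Ctx} {k : Skel} (h : c.IsSkel k) (j : ℕ) : j ≤ k.s j 1 :=
  (h.bl_mono.id_le j).trans (h.s0 j ▸ (h.s_mono j).monotone (Nat.zero_le 1))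

theorem fin_of {k : Skel} {Q : ℕ × ℕ → Prop}
    (h : ∀ᶠ j in atTop, ∀ g, 1 ≤ g → g ≤ k.ga j → ¬ Q (k.s j 1, k.s j (g + 1))) :
    {e ∈ Pl k | Q e}.Finite := by
  obtain ⟨b, hb⟩ := eventually_atTop.1 h
  refine ((finite_Iio b).biUnion (t := fun j => (fun g => (k.s j 1, k.s j (g + 1))) '' Iic (k.ga j))
    fun j _ => (finite_Iic _).image _).subset ?_
  rintro _ ⟨⟨j, g, h1, h2, rfl⟩, h3⟩
  refine mem_iUnion₂.2 ⟨j, ?_, g, h2, rfl⟩
  by_contra h4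
  exact hb j (not_lt.1 h4) g h1 h2 h3

theorem inf_of {c : Ctx} {k : Skel} (hk : c.IsSkel k) {Q : ℕ × ℕ → Prop}
    (h : ∀ᶠ j in atTop, ∃ g, 1 ≤ g ∧ g ≤ k.ga j ∧ Q (k.s j 1, k.s j (g + 1))) :
    {e ∈ Pl k | Q e}.Infinite := by
  intro hf
  obtain ⟨b, hb⟩ := (hf.image Prod.fst).bddAbove
  obtain ⟨j, ⟨g, h1, h2, h3⟩, h4⟩ := (h.and (eventually_gt_atTop b)).exists
  have h5 : k.s j 1 ≤ b := hb ⟨_, ⟨⟨j, g, h1, h2, rfl⟩, h3⟩, rfl⟩
  have := le_col hk j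
  omega

theorem col_fin {c : Ctx} {k : Skel} (hk : c.IsSkel k) (n : ℕ) :
    {m | (n, m) ∈ Pl k}.Finite := by
  have h : {e ∈ Pl k | e.1 = n}.Finite := by
    refine fin_of ((eventually_gt_atTop n).mono fun j hj g _ _ h => ?_)
    have := le_col hk j
    simp only at h
    omega
  exact (h.image Prod.snd).subset fun m hm => ⟨(n, m), ⟨hm, rfl⟩, rfl⟩

theorem want_of_fr {c : Ctx} {k : Skel} {j g : ℕ} {ν ν' : Opt}
    (h : ν = ν' ∨ c.Fr' k j ∅ ν ν') (h' : want ν' g = true) : want ν g = true := by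
  rcases h with rfl | h
  · exact h'
  · obtain ⟨-, -, h1, -, h2, -⟩ := h
    simp only [want, decide_eq_true_eq] at h' ⊢
    omega

end Pos

theorem s_pos (hS : S_Sim) (h1 : S_Ctx) (h2 : S_Skel) (h3 : S_Size) (h4 : S_Der) (h5 : S_Stat) :
    S_Pos := by
  classical
  intro p V hV hfin
  obtain ⟨c, hM, hcV, hR⟩ := h1 p V hV hfin
  have hp : ∀ y ∈ p.C, ∀ n, {k | y ∉ V (n, k)}.Finite :=
    hfin p ⟨_, fun _ _ => 0, hS.refl p _⟩
  obtain ⟨C, M, rt, cnt, big, tendC, tend⟩ := p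
  dsimp only at hM hR hp
  subst hM hcV
  obtain ⟨e, he⟩ := countable_iff_exists_injOn.1 cnt
  have hA : ∀ n, (C ∩ e ⁻¹' Iic n).Finite := fun n => Finite.of_finite_image
    ((finite_Iic n).subset (image_subset_iff.2 inter_subset_right)) (he.mono inter_subset_left)
  obtain ⟨k, hk, hgood⟩ := h2 c (fun j n m => ∀ y ∈ C ∩ e ⁻¹' Iic j, y ∈ c.V (n, m)) fun j n => by
    rw [(hA j).eventually_all]
    intro y hy
    have := (hp y hy.1 n).eventually_cofinite_notMem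
    rw [Nat.cofinite_eq_atTop] at this
    exact this.mono fun m hm => not_not.1 hm
  obtain ⟨N', M', st, sd, hD, hsim, hpr⟩ := h4 c k hk
  obtain ⟨-, -, -, hbig⟩ := h3 c k hk
  have hlift : sd.lift (Ctx.rt' k rt) = rt := funext fun i => hpr _ i
  refine ⟨N', ⟨C, M', Ctx.rt' k rt, cnt, ?_, tendC, fun η y a1 a2 =>
    tend _ y (hS.adm hsim a1) (hS.legal hsim a1 a2)⟩,
    ⟨sd, fun _ _ => 0, Subset.rfl, hsim, ?_, fun y a1 a2 => absurd a1 a2,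
      fun y a1 a2 => absurd a1 a2⟩, Pos.Pl k, Pos.col_fin hk, ?_⟩
  · intro m
    rw [hD.hFr, hD.hsz, hD.hA]
    exact hbig rt hR m
  · change c.M.Below rt (sd.lift (Ctx.rt' k rt))
    rw [hlift]
    exact Mach.Below.refl rt
  rintro r ⟨t, lab, hle⟩
  have key : ∀ y ∈ r.C,
      (∀ᶠ j in atTop, ∀ g, 1 ≤ g → g ≤ k.ga j → y ∈ c.V (k.s j 1, k.s j (g + 1))) ∨
      (y ∉ C ∧ M'.Adm (lab y) ∧ ∀ᶠ j in atTop, ∀ g, 1 ≤ g → g ≤ k.ga j →
          (y ∈ c.V (k.s j 1, k.s j (g + 1)) ↔ want (lab y j) g = true)) := fun y hy => by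
    by_cases hyC : y ∈ C
    · exact Or.inl ((eventually_ge_atTop (e y)).mono fun j hj g a1 _ =>
        hgood j (g + 1) (by omega) y ⟨hyC, hj⟩)
    · obtain ⟨a1, a2, -, -⟩ := hle.new y hy hyC
      exact (h5 c k hk N' M' st hD (lab y) y a2 a1).imp id fun h => ⟨hyC, a2, h⟩
  have nest : ∀ x y, M'.Below (lab x) (lab y) →
      (∀ᶠ j in atTop, ∀ g, 1 ≤ g → g ≤ k.ga j →
          (x ∈ c.V (k.s j 1, k.s j (g + 1)) ↔ want (lab x j) g = true)) →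
      (∀ᶠ j in atTop, ∀ g, 1 ≤ g → g ≤ k.ga j →
          (y ∈ c.V (k.s j 1, k.s j (g + 1)) ↔ want (lab y j) g = true)) →
      {i ∈ Pos.Pl k | y ∈ c.V i ∧ x ∉ c.V i}.Finite := fun x y hb hx hy => by
    refine Pos.fin_of ?_
    filter_upwards [hb, hx, hy] with j a1 a2 a3 g a4 a5 a6
    rw [hD.hFr] at a1
    exact a6.2 ((a2 g a4 a5).2 (Pos.want_of_fr a1 ((a3 g a4 a5).1 a6.1)))
  refine ⟨fun y hy => Pos.inf_of hk ?_, fun x hx y hy => ?_⟩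
  · rcases key y hy with h | ⟨-, a1, a2⟩
    · exact h.mono fun j hj => ⟨1, le_rfl, hk.ga1 j, hj 1 le_rfl (hk.ga1 j)⟩
    · filter_upwards [a1, a2] with j b1 b2
      rw [hD.hA] at b1
      obtain ⟨b3, b4, b5⟩ := mem_Iv.1 (Ctx.mem_A'.1 b1).2.2
      exact ⟨_, b3, b4.trans b5, (b2 _ b3 (b4.trans b5)).2 (by simp [want, b4])⟩
  · rcases key x hx with h | ⟨a1, -, a2⟩
    · exact Or.inr (Pos.fin_of (h.mono fun j hj g b1 b2 b3 => b3.2 (hj g b1 b2)))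
    rcases key y hy with h | ⟨b1, -, b2⟩
    · exact Or.inl (Pos.fin_of (h.mono fun j hj g b1 b2 b3 => b3.2 (hj g b1 b2)))
    rcases hle.lin x hx a1 y hy b1 with h | h
    · exact Or.inr (nest x y h a2 b2)
    · exact Or.inl (nest y x h b2 a2)

end Pool.Agent.P.MP_b17faa_gt.X7
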