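import Pool.Agent.P.MP_b17faa_gt.X4a

/-!
Products of finite creatures do not add splitting reals.
-/

namespace Pool.Agent.P.MP_b17faa_gt.X4.Cr

open Set Filter Function

variable {α γ : ℕ → Type} [∀ i, Fintype (α i)] [∀ i, Preorder (γ i)] (K : Cr α γ)
  (C : ∀ i, γ i) (ρ : ℕ → ℕ) (V : ℕ → Set (∀ i, α i))

/-- a set at a higher level and one of the given sets reduce to the same set -/
def Rel (e' e : ℕ × Set (∀ i, α i)) : Prop :=
  e.1 < e'.1 ∧ ∃ D, K.Good C ρ D e.1 e'.1 ∧ K.Red D e.1 e'.1 e'.2 e.2 ∧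
    ∃ n ≥ e.1, K.Red D e.1 e'.1 (V n) e.2

/-- in the presence of `j` passing sets one can reduce some of the given sets to a family with
property `Q` -/
def Rob (b j : ℕ) (Q : Finset (Set (∀ i, α i)) → Prop) : Prop :=
  ∃ b' > b, j ≤ b' ∧ ∀ 𝒱 : Finset (Set (∀ i, α i)), 𝒱.card ≤ j → (∀ U ∈ 𝒱, Dep b' U) →
    ∃ D, K.Good C ρ D b b' ∧ (∀ U ∈ 𝒱, ∃ θ, Dep b θ ∧ K.Red D b b' U θ) ∧
      ∃ Θ : Finset (Set (∀ i, α i)), (∀ θ ∈ Θ, Dep b θ ∧ ∃ n ≥ b, K.Red D b b' (V n) θ) ∧ Q Θ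

variable {K C ρ V}

theorem Rob.imp {b j : ℕ} {Q Q' : Finset (Set (∀ i, α i)) → Prop} (h : K.Rob C ρ V b j Q)
    (h' : ∀ Θ, (∀ θ ∈ Θ, Dep b θ) → Q Θ → Q' Θ) : K.Rob C ρ V b j Q' :=
  let ⟨b', a1, a2, a3⟩ := h
  ⟨b', a1, a2, fun 𝒱 h1 h2 => let ⟨D, b1, b2, Θ, b3, b4⟩ := a3 𝒱 h1 h2
    ⟨D, b1, b2, Θ, b3, h' Θ (fun θ hθ => (b3 θ hθ).1) b4⟩⟩

theorem stack [IsWellFounded _ (K.Rel C ρ V)] {b0 : ℕ}
    (hC : ∀ i, b0 ≤ i → K.nr i (ρ i + 1) (C i)) {w : Ordinal}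
    (ih : ∀ b j, b0 ≤ b → j ≤ b →
      K.Rob C ρ V b j fun Θ => ∃ θ ∈ Θ, w ≤ IsWellFounded.rank (K.Rel C ρ V) (b, θ))
    {b : ℕ} (hb : b0 ≤ b) (t j : ℕ) (hj : j + t ≤ b + 2 ^ K.c b + 1) :
    K.Rob C ρ V b j fun Θ => Θ.card = t ∨
      ∃ θ ∈ Θ, w < IsWellFounded.rank (K.Rel C ρ V) (b, θ) := by
  classical
  induction t generalizing j with
  | zero =>
    refine ⟨b + j + 1, by omega, by omega, fun 𝒱 h1 h2 => ?_⟩
    obtain ⟨D, a1, a2⟩ := homog (fun i hi => hC i (hb.trans hi)) (by omega) 𝒱 (h1.trans hj) h2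
    exact ⟨D, a1, a2, ∅, by simp, Or.inl rfl⟩
  | succ t iht =>
    obtain ⟨b', a1, a2, a3⟩ := iht (j + 1) (by omega)
    obtain ⟨b'', c1, c2, c3⟩ := ih b' j (by omega) (by omega)
    refine ⟨b'', by omega, c2, fun 𝒱 h1 h2 => ?_⟩
    obtain ⟨D', d1, d2, Θ', d3, η, d4, d5⟩ := c3 𝒱 h1 h2
    choose! f f1 f2 using d2
    obtain ⟨d6, n, d7, d8⟩ := d3 η d4
    obtain ⟨D, e1, e2, Θ, e3, e4⟩ := a3 (insert η (𝒱.image f))
      ((Finset.card_insert_le _ _).trans (Nat.succ_le_succ (Finset.card_image_le.trans h1)))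
      (by simpa using ⟨d6, f1⟩)
    obtain ⟨θ, g1, g2⟩ := e2 η (Finset.mem_insert_self _ _)
    refine ⟨_, e1.cat d1, fun U hU => ?_, insert θ Θ, fun θ' hθ' => ?_, ?_⟩
    · obtain ⟨θ', g3, g4⟩ := e2 _ (Finset.mem_insert_of_mem (Finset.mem_image_of_mem f hU))
      exact ⟨θ', g3, (f2 U hU).cat g4 a1.le c1.le⟩
    · rcases Finset.mem_insert.1 hθ' with rfl | hθ'
      · exact ⟨g1, n, a1.le.trans d7, d8.cat g2 a1.le c1.le⟩
      · obtain ⟨g3, n', g4, g5⟩ := e3 θ' hθ'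
        exact ⟨g3, n', g4, g5.left D' c1.le⟩
    · rcases e4 with e4 | ⟨θ', g3, g4⟩
      · by_cases hθ : θ ∈ Θ
        · refine Or.inr ⟨θ, Finset.mem_insert_self _ _, d5.trans_lt ?_⟩
          exact IsWellFounded.rank_lt_of_rel (r := K.Rel C ρ V) ⟨a1, D, e1, g2, (e3 θ hθ).2⟩
        · exact Or.inl (by rw [Finset.card_insert_of_notMem hθ, e4])
      · exact Or.inr ⟨θ', Finset.mem_insert_of_mem g3, g4⟩

theorem not_wf {b0 : ℕ} (hC : ∀ i, b0 ≤ i → K.nr i (ρ i + 1) (C i))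
    (hV : ∀ n, ∃ m, Dep m (V n)) : ¬ WellFounded (K.Rel C ρ V) := fun wf => by
  classical
  have : IsWellFounded _ (K.Rel C ρ V) := ⟨wf⟩
  have key : ∀ (w : Ordinal) b j, b0 ≤ b → j ≤ b →
      K.Rob C ρ V b j fun Θ => ∃ θ ∈ Θ, w ≤ IsWellFounded.rank (K.Rel C ρ V) (b, θ) := by
    intro w
    induction w using WellFoundedLT.induction with
    | ind w ih =>
    intro b j hb hj
    set A := {θ | Dep b θ ∧ IsWellFounded.rank (K.Rel C ρ V) (b, θ) < w}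
    rcases A.eq_empty_or_nonempty with hA | hA
    · obtain ⟨m, hm⟩ := hV b
      refine ⟨b + m + 1, by omega, by omega, fun 𝒱 h1 h2 => ?_⟩
      obtain ⟨D, a1, a2⟩ := homog (fun i hi => hC i (hb.trans hi)) (b' := b + m + 1) (by omega)
        (insert (V b) 𝒱) ((Finset.card_insert_le _ _).trans (by
          have := Nat.zero_le (2 ^ K.c b); omega)) (by simpa using ⟨hm.le (by omega), h2⟩)
      obtain ⟨θ, a3, a4⟩ := a2 _ (Finset.mem_insert_self _ _)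
      refine ⟨D, a1, fun U hU => a2 U (Finset.mem_insert_of_mem hU), {θ},
        by simpa using ⟨a3, b, le_rfl, a4⟩, θ, Finset.mem_singleton_self _, not_lt.1 fun h => ?_⟩
      exact (hA.subset (show θ ∈ A from ⟨a3, h⟩) :)
    · have hf : A.Finite := by
        by_contra hc
        obtain ⟨Θ, h1, h2⟩ := Set.Infinite.exists_subset_card_eq hc (2 ^ K.c b + 1)
        have := K.card_dep Θ fun θ hθ => (h1 hθ).1
        omega
      obtain ⟨θ0, h1, h2⟩ := exists_max_image A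
        (fun θ => IsWellFounded.rank (K.Rel C ρ V) (b, θ)) hf hA
      refine (stack hC (ih _ h1.2) hb (2 ^ K.c b + 1) j (by omega)).imp fun Θ h3 h4 => ?_
      rcases h4 with h4 | ⟨θ, h4, h5⟩
      · have := K.card_dep Θ h3
        omega
      · exact ⟨θ, h4, not_lt.1 fun h => (h2 θ ⟨h3 θ h4, h⟩).not_gt h5⟩
  obtain ⟨_, -, -, h⟩ := key (⨆ θ, Order.succ (IsWellFounded.rank (K.Rel C ρ V) (b0, θ))) b0 0
    le_rfl (Nat.zero_le _)
  obtain ⟨-, -, -, -, -, θ, -, h⟩ := h ∅ le_rfl (by simp)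
  exact (Ordinal.lt_iSup_add_one (fun θ => IsWellFounded.rank (K.Rel C ρ V) (b0, θ)) θ).not_ge h

/-- no splitting -/
theorem unsplit (hC : K.Lim C) (hV : ∀ n, ∃ m, Dep m (V n)) :
    ∃ D : ∀ i, γ i, (∀ i, D i ≤ C i) ∧ K.Lim D ∧ ∃ N : Set ℕ, N.Infinite ∧
      ∀ w : ∀ i, α i, (∀ᶠ i in atTop, w i ∈ K.ps i (D i)) →
        (∀ᶠ n in atTop, n ∈ N → w ∈ V n) ∨ ∀ᶠ n in atTop, n ∈ N → w ∉ V n := by
  classical
  obtain ⟨b0, h0⟩ := eventually_atTop.1 (hC (0 + 1))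
  obtain ⟨ρ, r1, r2⟩ := exists_rho hC h0
  have hc : ∀ i, 1 ≤ K.c i := fun i =>
    le_trans (by simpa using K.card_le 0) (K.c_mono (Nat.zero_le i))
  have := not_wf (K := K) (ρ := fun i => ρ i * K.c i) (fun i hi =>
    K.nr_le _ _ _ _ (r2 i hi).2 (by have := hc i; nlinarith)) hV
  rw [wellFounded_iff_isEmpty_descending_chain, not_isEmpty_iff] at this
  obtain ⟨e, he⟩ := this
  choose a1 D a2 a3 n a4 a5 using he
  have sm : StrictMono fun k => (e k).1 := strictMono_nat_of_lt_succ a1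
  set κ : ℕ → ℕ := fun i => Nat.findGreatest (fun k => (e k).1 ≤ i) i
  have k1 : ∀ i, i < (e (κ i + 1)).1 := fun i => by
    by_contra hi
    exact Nat.findGreatest_is_greatest (P := fun k => (e k).1 ≤ i) (Nat.lt_succ_self _)
      (sm.le_apply.trans (not_lt.1 hi)) (not_lt.1 hi)
  have k2 : ∀ i, (e 0).1 ≤ i → (e (κ i)).1 ≤ i := fun i hi =>
    Nat.findGreatest_spec (P := fun k => (e k).1 ≤ i) (Nat.zero_le i) hi
  have k3 : ∀ k i, (e k).1 ≤ i → i < (e (k + 1)).1 → κ i = k := fun k i h1 h2 =>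
    le_antisymm (Nat.le_of_lt_succ (sm.lt_iff_lt.1
      ((k2 i ((sm.monotone (Nat.zero_le k)).trans h1)).trans_lt h2)))
      (Nat.le_of_lt_succ (sm.lt_iff_lt.1 (h1.trans_lt (k1 i))))
  have tn : Tendsto n atTop atTop :=
    tendsto_atTop_mono (fun k => sm.le_apply.trans (a4 k)) tendsto_id
  refine ⟨fun i => D (κ i) i, fun i => (a2 _).1 i, fun r => ?_, range n,
    infinite_of_not_bddAbove (not_bddAbove_of_tendsto_atTop tn), fun w hw => ?_⟩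
  · filter_upwards [eventually_ge_atTop (e 0).1, r1.eventually_ge_atTop r] with i h1 h2
    exact Nor.le ((a2 _).2 i (k2 i h1) (k1 i)) h2
  obtain ⟨m, hm⟩ := eventually_atTop.1 hw
  have f : ∀ k, m ≤ k → ∀ i, (e k).1 ≤ i → i < (e (k + 1)).1 → w i ∈ K.ps i (D k i) :=
    fun k hk i h1 h2 => k3 k i h1 h2 ▸ hm i ((hk.trans sm.le_apply).trans h1)
  have g : ∀ k, m ≤ k → (w ∈ (e k).2 ↔ w ∈ (e m).2) := fun k hk => by
    induction k, hk using Nat.le_induction with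
    | base => rfl
    | succ k hk ih => exact (a3 k w (f k hk)).trans ih
  have ev : ∀ᶠ j in atTop, j ∈ range n → (w ∈ V j ↔ w ∈ (e m).2) := by
    filter_upwards [eventually_gt_atTop ((Finset.range m).sup n)]
    rintro _ h ⟨k, rfl⟩
    have hk : m ≤ k := not_lt.1 fun hk =>
      h.not_ge (Finset.le_sup (f := n) (Finset.mem_range.2 hk))
    exact (a5 k w (f k hk)).trans (g k hk)
  by_cases h : w ∈ (e m).2
  · exact Or.inl (ev.mono fun j h1 h2 => (h1 h2).2 h)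
  · exact Or.inr (ev.mono fun j h1 h2 h3 => h ((h1 h2).1 h3))

end Pool.Agent.P.MP_b17faa_gt.X4.Cr
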