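import Pool.Agent.P.MP_b17faa_gt.X7Iface
import Pool.Agent.P.MP_b17faa_gt.X4b

/-!
Ramsey properties of products of large finite sets.
-/

namespace Pool.Agent.P.MP_b17faa_gt.X7

open Set Filter Function

namespace Ram

theorem nm_union (K : Nm) {κ : Type} (i H : ℕ) (Z : κ → Set ℕ) {s : Finset κ} (hs : s.Nonempty)
    (h : K.nm i (s.card * H) (⋃ c ∈ s, Z c)) : ∃ c ∈ s, K.nm i H (Z c) := by
  induction hs using Finset.Nonempty.cons_induction with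
  | singleton a => exact ⟨a, Finset.mem_singleton_self a, by simpa using h⟩
  | cons a s ha hs ih =>
    have e : (⋃ c ∈ Finset.cons a s ha, Z c) = Z a ∪ ⋃ c ∈ s, Z c := by
      ext x
      simp
    rw [e, Finset.card_cons, Nat.succ_mul, add_comm] at h
    rcases K.union _ _ _ _ _ h with h1 | h1
    · exact ⟨a, Finset.mem_cons_self _ _, h1⟩
    · obtain ⟨c, h2, h3⟩ := ih h1
      exact ⟨c, Finset.mem_cons_of_mem h2, h3⟩

/-- the number of colours -/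
def kk (K : Nm) (i : ℕ) : ℕ := (2 ^ 2 ^ K.sz i) ^ (i + 2 ^ 2 ^ K.sz i + 1)

theorem kk_pos (K : Nm) (i : ℕ) : 0 < kk K i := by
  unfold kk
  positivity

/-- the creatures given by a norm -/
def cr (K : Nm) (B : ℕ → Finset ℕ) (h : K.Lrg B) (b : ℕ → ℕ) :
    X4.Cr (fun i => B i) fun i => Set (B i) where
  ps _ C := C
  nr i k C := K.nm i (kk K i ^ k * b i) (Subtype.val '' C)
  c i := 2 ^ K.sz i
  ps_mono _ _ _ h := h
  nr_le i _ _ _ h1 h2 :=
    K.le _ _ _ _ (Nat.mul_le_mul_right _ (Nat.pow_le_pow_right (kk_pos K i) h2)) h1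
  c_mono _ _ h := Nat.pow_le_pow_right two_pos (K.sz_mono h)
  card_le m := by
    rw [Fintype.card_pi]
    simp only [Fintype.card_coe]
    rw [Fin.prod_univ_eq_prod_range (fun i => (B i).card) m]
    exact (prod_le_two_pow_sum _ _).trans (Nat.pow_le_pow_right two_pos (h.2.1 m))
  big i k C κ _ h1 χ h2 := by
    obtain ⟨x, hx⟩ := h.1 i
    obtain ⟨c, -, hc⟩ := nm_union K i (kk K i ^ k * b i)
      (fun c => Subtype.val '' {p ∈ C | χ p = c}) (s := Finset.univ)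
      ⟨χ ⟨x, hx⟩, Finset.mem_univ _⟩ (K.mono _ _ _ _ (by
        rintro _ ⟨p, hp, rfl⟩
        exact mem_biUnion (Finset.mem_univ (χ p)) ⟨p, ⟨hp, rfl⟩, rfl⟩) (K.le _ _ _ _ (by
          rw [pow_succ', mul_assoc]
          exact Nat.mul_le_mul_right _ h1) h2))
    exact ⟨_, sep_subset _ _, hc, fun p hp q hq => hp.2.trans hq.2.symm⟩

/-- the underlying sequence -/
def val {B : ℕ → Finset ℕ} (w : ∀ i, B i) : ℕ → ℕ := fun i => (w i).1

theorem dcd {B : ℕ → Finset ℕ} (c : X4.Cr (fun i => B i) fun i => Set (B i))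
    {P : (ℕ → ℕ) → Prop} (h : Measurable P) : c.Dcd {w | P (val w)} := by
  let := c.ms
  have : Measurable (val (B := B)) := measurable_pi_iff.2 fun i s _ =>
    X4.Cr.dcd_of_open fun w hw => ⟨i + 1, fun w' h' => by
      have := h' i (Nat.lt_succ_self _)
      simp only [mem_preimage, val] at hw ⊢
      exact this ▸ hw⟩
  exact (h.comp this).setOf

theorem exists_cr (K : Nm) (B : ℕ → Finset ℕ) (h : K.Lrg B) :
    ∃ c : X4.Cr (fun i => B i) fun i => Set (B i), c.Lim (fun _ => univ) ∧ ∀ D, c.Lim D →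
      ∃ (B' : ℕ → Finset ℕ) (i0 : ℕ), (∀ i, B' i ⊆ B i) ∧ K.Lrg B' ∧
        ∀ η ∈ Pt B', ∃ w ∈ c.Pt D i0, val w = η := by
  classical
  obtain ⟨ρ, r1, -, r2⟩ := diag (Q := fun r i => K.nm i (tw (r + 2) (K.sz i)) (B i))
    fun r => h.2.2 _
  have hi : ∀ i, i ≤ K.sz i := fun i => le_trans (by
    simpa using Finset.card_nsmul_le_sum (Finset.range i) (fun j => (B j).card) 1
      fun j _ => (h.1 j).card_pos) (h.2.1 i)
  refine ⟨cr K B h fun i => tw (ρ i + 1) (K.sz i), fun r => ?_, fun D hD => ?_⟩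
  · filter_upwards [r2, eventually_ge_atTop r] with i a1 a2
    refine K.mono _ _ _ _ (fun x hx => ⟨⟨x, hx⟩, trivial, rfl⟩) (K.le _ _ _ _ ?_ a1)
    rw [tw_succ (ρ i + 1)]
    refine le_trans ?_ (G_big _)
    change kk K i ^ (r * 2 ^ K.sz i) * tw (ρ i + 1) (K.sz i) ≤ _
    have h0 := le_tw (ρ i + 1) (K.sz i)
    have h0' := hi i
    generalize tw (ρ i + 1) (K.sz i) = b at h0
    have h1 : 2 ^ K.sz i ≤ 2 ^ b := Nat.pow_le_pow_right two_pos h0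
    have h2 : 2 ^ 2 ^ K.sz i ≤ 2 ^ 2 ^ b := Nat.pow_le_pow_right two_pos h1
    have h3 : kk K i ≤ (2 ^ 2 ^ b) ^ (b + 2 ^ 2 ^ b + 1) :=
      (Nat.pow_le_pow_left h2 _).trans (Nat.pow_le_pow_right (by positivity) (by omega))
    have h4 : r ≤ b := by omega
    exact Nat.mul_le_mul_right _ ((Nat.pow_le_pow_left h3 _).trans
      (Nat.pow_le_pow_right (by positivity) (Nat.mul_le_mul h4 h1)))
  · obtain ⟨i0, h0⟩ := eventually_atTop.1 (hD 0)
    have h1 : ∀ i, i0 ≤ i → K.nm i (tw (ρ i + 1) (K.sz i)) (Subtype.val '' D i) := fun i hi => by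
      simpa [X4.Cr.Nor, cr] using h0 i hi
    set B' : ℕ → Finset ℕ := fun i => (B i).filter fun x => i0 ≤ i → x ∈ Subtype.val '' D i
    have h2 : ∀ i, B' i ⊆ B i := fun i => Finset.filter_subset _ _
    have h3 : ∀ i, Subtype.val '' D i ⊆ B' i := by
      rintro i _ ⟨p, hp, rfl⟩
      exact Finset.mem_filter.2 ⟨p.2, fun _ => ⟨p, hp, rfl⟩⟩
    refine ⟨B', i0, h2, ⟨fun i => ?_, fun i => ?_, fun m => ?_⟩, fun η hη => ?_⟩
    · by_cases hi : i0 ≤ i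
      · exact (K.ne _ _ (K.le _ _ _ _ (le_trans (by omega) (le_tw_left _ _)) (h1 i hi))).mono (h3 i)
      · obtain ⟨x, hx⟩ := h.1 i
        exact ⟨x, Finset.mem_filter.2 ⟨hx, fun h' => absurd h' hi⟩⟩
    · exact (Finset.sum_le_sum fun j _ => Finset.card_le_card (h2 j)).trans (h.2.1 i)
    · filter_upwards [eventually_ge_atTop i0, r1.eventually_ge_atTop m] with i a1 a2
      exact K.mono _ _ _ _ (h3 i) (K.le _ _ _ _ (tw_mono (by omega) le_rfl) (h1 i a1))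
    · refine ⟨fun i => ⟨η i, h2 i (hη i)⟩, fun i hi => ?_, rfl⟩
      obtain ⟨p, hp, e⟩ := (Finset.mem_filter.1 (hη i)).2 hi
      have : p = ⟨η i, h2 i (hη i)⟩ := Subtype.ext e
      exact show (⟨η i, h2 i (hη i)⟩ : B i) ∈ D i from this ▸ hp

section
variable {α γ : ℕ → Type} [∀ i, Fintype (α i)] [∀ i, Preorder (γ i)] {c : X4.Cr α γ}

theorem unsplit_on {C : ∀ i, γ i} (hC : c.Lim C) {V : ℕ → Set (∀ i, α i)}
    (hV : ∀ n, ∃ m, X4.Dep m (V n)) {I : Set ℕ} (hI : I.Infinite) :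
    ∃ D : ∀ i, γ i, (∀ i, D i ≤ C i) ∧ c.Lim D ∧ ∃ N ⊆ I, N.Infinite ∧
      ∀ w : ∀ i, α i, (∀ᶠ i in atTop, w i ∈ c.ps i (D i)) →
        (∀ᶠ n in atTop, n ∈ N → w ∈ V n) ∨ ∀ᶠ n in atTop, n ∈ N → w ∉ V n := by
  have sm : StrictMono (Nat.nth (· ∈ I)) := Nat.nth_strictMono hI
  obtain ⟨D, a1, a2, N, a3, a4⟩ := X4.Cr.unsplit (V := fun n => V (Nat.nth (· ∈ I) n)) hC
    fun n => hV _
  have key : ∀ Q : ℕ → Prop, (∀ᶠ n in atTop, n ∈ N → Q (Nat.nth (· ∈ I) n)) →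
      ∀ᶠ n in atTop, n ∈ Nat.nth (· ∈ I) '' N → Q n := fun Q hQ => by
    obtain ⟨n0, h0⟩ := eventually_atTop.1 hQ
    filter_upwards [eventually_ge_atTop (Nat.nth (· ∈ I) n0)]
    rintro _ h ⟨n, hn, rfl⟩
    exact h0 n (sm.le_iff_le.1 h) hn
  refine ⟨D, a1, a2, Nat.nth (· ∈ I) '' N, ?_, a3.image sm.injective.injOn, fun w hw =>
    (a4 w hw).imp (key fun n => w ∈ V n) (key fun n => w ∉ V n)⟩
  rintro _ ⟨n, -, rfl⟩
  exact Nat.nth_mem_of_infinite (p := (· ∈ I)) hI n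

theorem unsplit_all {C : ∀ i, γ i} (hC : c.Lim C) {V : ℕ → ℕ → Set (∀ i, α i)}
    (hV : ∀ a n, ∃ m, X4.Dep m (V a n)) :
    ∃ D : ∀ i, γ i, (∀ i, D i ≤ C i) ∧ c.Lim D ∧ ∃ N : Set ℕ, N.Infinite ∧
      ∀ a, ∀ w : ∀ i, α i, (∀ᶠ i in atTop, w i ∈ c.ps i (D i)) →
        (∀ᶠ n in atTop, n ∈ N → w ∈ V a n) ∨ ∀ᶠ n in atTop, n ∈ N → w ∉ V a n := by
  have : ∀ (a : ℕ) (p : {p : (∀ i, γ i) × Set ℕ // c.Lim p.1 ∧ p.2.Infinite}),
      ∃ q : {p : (∀ i, γ i) × Set ℕ // c.Lim p.1 ∧ p.2.Infinite}, (∀ i, q.1.1 i ≤ p.1.1 i) ∧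
        q.1.2 ⊆ p.1.2 ∧ ∀ w : ∀ i, α i, (∀ᶠ i in atTop, w i ∈ c.ps i (q.1.1 i)) →
          (∀ᶠ n in atTop, n ∈ q.1.2 → w ∈ V a n) ∨ ∀ᶠ n in atTop, n ∈ q.1.2 → w ∉ V a n :=
    fun a p => let ⟨D, a1, a2, N, a3, a4, a5⟩ := unsplit_on p.2.1 (hV a) p.2.2
      ⟨⟨(D, N), a2, a4⟩, a1, a3, a5⟩
  choose f f1 f2 f3 using this
  let s : ℕ → {p : (∀ i, γ i) × Set ℕ // c.Lim p.1 ∧ p.2.Infinite} :=
    fun k => Nat.rec ⟨(C, univ), hC, infinite_univ⟩ f k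
  have anti : ∀ i, Antitone fun k => (s k).1.1 i := fun i =>
    antitone_nat_of_succ_le fun k => f1 k (s k) i
  have anti' : Antitone fun k => (s k).1.2 := antitone_nat_of_succ_le fun k => f2 k (s k)
  obtain ⟨ρ, r1, -, r2⟩ := diag (Q := fun r i => c.Nor i r ((s r).1.1 i)) fun r => (s r).2.1 r
  choose n n1 n2 using fun k => (s k).2.2.exists_gt k
  have tn : Tendsto n atTop atTop := tendsto_atTop_mono (fun k => (n2 k).le) tendsto_id
  refine ⟨fun i => (s (ρ i)).1.1 i, fun i => anti i (Nat.zero_le _), fun r => ?_, range n,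
    infinite_of_not_bddAbove (not_bddAbove_of_tendsto_atTop tn), fun a w hw => ?_⟩
  · filter_upwards [r2, r1.eventually_ge_atTop r] with i h1 h2 using h1.le h2
  have ev : ∀ᶠ j in atTop, j ∈ range n → j ∈ (s (a + 1)).1.2 := by
    filter_upwards [eventually_gt_atTop ((Finset.range (a + 1)).sup n)]
    rintro _ h ⟨k, rfl⟩
    have hk : a + 1 ≤ k := not_lt.1 fun hk =>
      h.not_ge (Finset.le_sup (f := n) (Finset.mem_range.2 hk))
    exact anti' hk (n1 k)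
  refine (f3 a (s a) w ?_).imp (fun h => ?_) fun h => ?_
  · filter_upwards [hw, r1.eventually_ge_atTop (a + 1)] with i h1 h2
    exact c.ps_mono i (anti i h2) h1
  · filter_upwards [h, ev] with j h1 h2 h3 using h1 (h2 h3)
  · filter_upwards [h, ev] with j h1 h2 h3 using h1 (h2 h3)

end

end Ram

theorem s_ns : S_NS := by
  intro K B hB ι _ P hP
  rcases isEmpty_or_nonempty ι with hι | hι
  · exact ⟨B, fun _ => Finset.Subset.refl _, hB, univ, infinite_univ, fun a => isEmptyElim a⟩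
  obtain ⟨e, he⟩ := exists_surjective_nat ι
  obtain ⟨c, c1, c2⟩ := Ram.exists_cr K B hB
  obtain ⟨C, -, a1, a2⟩ := X4.Cr.read (K := c)
    (𝒱 := range fun p : ι × ℕ => {w | P p.1 p.2 (Ram.val w)}) (countable_range _)
    (forall_mem_range.2 fun p => Ram.dcd c (hP _ _)) c1
  choose m m1 m2 using fun a k => a2 _ (mem_range_self (a, k)) k
  obtain ⟨D, d1, d2, N, d3, d4⟩ := Ram.unsplit_all (V := fun a k => {w | ∃ w' ∈ c.Pt C (m (e a) k),
    P (e a) k (Ram.val w') ∧ ∀ i < m (e a) k, w' i = w i}) a1 fun a k =>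
      ⟨m (e a) k, fun w w' h ⟨w'', h1, h2, h3⟩ =>
        ⟨w'', h1, h2, fun i hi => (h3 i hi).trans (h i hi)⟩⟩
  obtain ⟨B', i0, b1, b2, b3⟩ := c2 D d2
  refine ⟨B', b1, b2, N, d3, fun a η hη => ?_⟩
  obtain ⟨a, rfl⟩ := he a
  obtain ⟨w, h1, rfl⟩ := b3 η hη
  have h2 : ∀ k, i0 ≤ k → w ∈ c.Pt C (m (e a) k) := fun k hk =>
    X4.Cr.Pt_mono d1 (hk.trans (m1 _ _)) h1
  refine (d4 a w (eventually_atTop.2 ⟨i0, h1⟩)).imp (fun h => ?_) fun h => ?_
  · filter_upwards [h, eventually_ge_atTop i0] with k h3 h4 h5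
    obtain ⟨w', h6, h7, h8⟩ := h3 h5
    exact m2 _ _ w' h6 w (h2 k h4) h8 h7
  · filter_upwards [h, eventually_ge_atTop i0] with k h3 h4 h5 h6
    exact h3 h5 ⟨w, h2 k h4, h6, fun _ _ => rfl⟩

theorem s_up : S_UP := by
  intro K B hB ι β _ _ P hP
  obtain ⟨e, he⟩ := Countable.exists_injective_nat β
  obtain ⟨c, c1, c2⟩ := Ram.exists_cr K B hB
  set U : ι → ℕ → Set (∀ i, B i) := fun a g =>
    {w | (∃ v, P a v (Ram.val w)) → ∃ v, e v ≤ g ∧ P a v (Ram.val w)}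
  obtain ⟨D, -, a1, a2⟩ := X4.Cr.read (K := c)
    (𝒱 := range (fun p : ι × β => {w | P p.1 p.2 (Ram.val w)}) ∪ range fun p : ι × ℕ => U p.1 p.2)
    ((countable_range _).union (countable_range _)) (by
      rintro _ (⟨p, rfl⟩ | ⟨p, rfl⟩)
      · exact Ram.dcd c (hP _ _)
      · exact Ram.dcd c (P := fun η => (∃ v, P p.1 v η) → ∃ v, e v ≤ p.2 ∧ P p.1 v η)
          ((Measurable.exists fun v => hP _ v).imp
            (Measurable.exists fun v => measurable_const.and (hP _ v)))) c1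
  obtain ⟨B', i0, b1, b2, b3⟩ := c2 D a1
  refine ⟨B', b1, b2, fun a => ?_⟩
  obtain ⟨g, hg⟩ := X4.Cr.bound (K := c) (D := D) (n := i0) (G := U a)
    (fun g g' h w h1 h2 => let ⟨v, h3, h4⟩ := h1 h2; ⟨v, h3.trans h, h4⟩)
    (fun g => a2 _ (Or.inr (mem_range_self (a, g))) i0) fun w _ => by
      by_cases h : ∃ v, P a v (Ram.val w)
      · obtain ⟨v, hv⟩ := h
        exact ⟨e v, fun _ => ⟨v, le_rfl, hv⟩⟩
      · exact ⟨0, fun h' => absurd h' h⟩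
  choose m m1 m2 using fun v => a2 _ (Or.inl (mem_range_self (a, v))) i0
  have hF : (e ⁻¹' Iic g).Finite := (finite_Iic g).preimage he.injOn
  obtain ⟨t, ht⟩ := (hF.image m).bddAbove
  refine ⟨_, t, hF, fun η hη h => ?_⟩
  obtain ⟨w, h1, rfl⟩ := b3 η hη
  obtain ⟨v, h2, h3⟩ := hg h1 h
  refine ⟨v, h2, fun η' hη' h4 => ?_⟩
  obtain ⟨w', h5, rfl⟩ := b3 η' hη'
  exact m2 v w (X4.Cr.Pt_mono (fun _ => le_rfl) (m1 v) h1) w'
    (X4.Cr.Pt_mono (fun _ => le_rfl) (m1 v) h5)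
    (fun i hi => Subtype.ext (h4 i (hi.trans_le (ht (mem_image_of_mem m h2)))).symm) h3

end Pool.Agent.P.MP_b17faa_gt.X7
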