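import Pool.Agent.P.MP_b17faa_gt.X7Iface

/-!
Simulations compose, transfer legal points and labels; the order of conditions; adding two points.
-/

namespace Pool.Agent.P.MP_b17faa_gt.X7

open Set Filter Function

namespace Sim

variable {N'' O'' N' O' N O : Type} {M'' : Mach N'' O''} {M' : Mach N' O'} {M : Mach N O}
  {s : SimD N' O' N O} {t : SimD N'' O'' N' O'}

theorem bl_lt (h : IsSim M' M s) {j : ℕ} (hj : s.j0 ≤ j) : s.bl j < s.bl (j + 1) := by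
  have h1 := M'.T_mono (Nat.lt_succ_self j)
  rw [h.hT j hj, h.hT (j + 1) (hj.trans (Nat.le_succ j))] at h1
  exact M.T_mono.lt_iff_lt.1 h1

theorem le_bl (h : IsSim M' M s) (a : ℕ) : a ≤ s.bl (s.j0 + a) := by
  induction a with
  | zero => exact Nat.zero_le _
  | succ a ih => exact Nat.succ_le_of_lt (ih.trans_lt (bl_lt h (Nat.le_add_right _ _)))

theorem le_bl' (h : IsSim M' M s) {a j : ℕ} (hj : s.j0 + a ≤ j) : a ≤ s.bl j := by
  have := le_bl h (j - s.j0)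
  rw [Nat.add_sub_cancel' (by omega)] at this
  omega

theorem bk_eq (h : IsSim M' M s) {j i : ℕ} (hj : s.j0 ≤ j) (h1 : s.bl j ≤ i)
    (h2 : i < s.bl (j + 1)) : s.bk i = j := by
  have a1 := (h.gal j i hj).1 h1
  have a2 := (h.gal (j + 1) i (hj.trans (Nat.le_succ j))).2
  by_contra hne
  exact absurd (a2 (by omega)) (by omega)

theorem bk_tendsto (h : IsSim M' M s) : Tendsto s.bk atTop atTop :=
  tendsto_atTop_atTop.2 fun b => ⟨s.bl (s.j0 + b), fun i hi =>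
    (Nat.le_add_left _ _).trans ((h.gal _ i (Nat.le_add_right _ _)).1 hi)⟩

/-- runs of the upper machine project to runs of the lower machine -/
theorem walk (h : IsSim M' M s) {ν : ℕ → O'} {x y : N'} {p : ℕ} (hx : s.j0 ≤ M'.idx x)
    (h1 : 1 ≤ p) (h2 : p ≤ M'.dep x) (hw : M'.Play ν (2 * p) x y)
    (hν : ∀ j, M'.idx x ≤ j → j < M'.idx y → ν j ∈ M'.A j) :
    M.Play (s.lift ν) (2 * s.low x p) (s.prj x) (s.prj y) ∧ s.low y p = s.low x p := by
  refine (Mach.Walk.imp_inv (η' := ν) (Q' := fun _ _ => True) (I := fun a => p ≤ M'.dep a ∧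
    M.Play (s.lift ν) (2 * s.low x p) (s.prj x) (s.prj a) ∧ s.low a p = s.low x p) hw
    ⟨h2, .refl, rfl⟩ ?_).2.2
  rintro a o ⟨c1, c2, c3⟩ c4 c5 c6
  have ha := hx.trans c5
  obtain ⟨d1, d2⟩ := h.play a o (ν (M'.idx a)) p ha (hν _ c5 c6) h1 c1 c4
  refine ⟨trivial, rfl, ?_, c2.trans ?_, d2.trans c3⟩
  · rw [M'.dep_step]
    exact Op.le_dep c4 c1
  · rw [c3] at d1
    refine Mach.Walk.congr d1 fun i e1 e2 => ?_
    rw [h.idx a ha] at e1
    rw [h.idx _ (by rw [M'.idx_step]; omega), M'.idx_step] at e2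
    rw [SimD.lift, bk_eq h ha e1 e2]

theorem id (M : Mach N O) : IsSim M M (SimD.id N O) where
  gal _ _ _ := Iff.rfl
  hT _ _ := rfl
  hsz _ _ := le_rfl
  mem _ _ _ h := h
  fr _ _ _ _ _ h := h
  idx _ _ := rfl
  wd _ _ _ _ := rfl
  low _ _ _ h1 h2 := ⟨h1, h2, le_rfl⟩
  play x _ ν _ _ _ _ _ h := ⟨Mach.Walk.single (η := fun _ => ν) (x := x) h, rfl⟩
  emb _ _ _ h := ⟨h, rfl, rfl, fun _ _ => ⟨rfl, rfl⟩⟩

theorem comp (hs : IsSim M' M s) (ht : IsSim M'' M' t) : IsSim M'' M (s.comp t) := by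
  have b1 : ∀ j, t.j0 + s.j0 ≤ j → t.j0 ≤ j := fun j hj => (Nat.le_add_right _ _).trans hj
  have b2 : ∀ j, t.j0 + s.j0 ≤ j → s.j0 ≤ t.bl j := fun j hj => le_bl' ht hj
  have b3 : ∀ i, t.j0 + s.j0 ≤ t.bk i → s.j0 ≤ i := fun i hi =>
    (le_bl ht _).trans ((ht.gal _ i (Nat.le_add_right _ _)).2 hi)
  have b4 : ∀ x, t.j0 + s.j0 ≤ M''.idx x → s.j0 ≤ M'.idx (t.prj x) := fun x hx => by
    rw [ht.idx x (b1 _ hx)]
    exact b2 _ hx
  refine ⟨fun j i hj => (hs.gal _ i (b2 j hj)).trans (ht.gal j _ (b1 j hj)),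
    fun j hj => (ht.hT j (b1 j hj)).trans (hs.hT _ (b2 j hj)),
    fun j hj => (hs.hsz _ (b2 j hj)).trans (ht.hsz j (b1 j hj)),
    fun i ν hi hν => hs.mem i _ (b3 _ hi) (ht.mem _ ν (b1 _ hi) hν),
    fun i d ν ν' hi hν => hs.fr i d _ _ (b3 _ hi) (ht.fr _ d ν ν' (b1 _ hi) hν),
    fun x hx => ?_, fun x k hx hk => ?_, fun x p hx h1 h2 => ?_,
    fun x o ν p hx hν h1 h2 h3 => ?_, fun j x hj hx => ?_⟩
  · exact (hs.idx _ (b4 x hx)).trans (congrArg s.bl (ht.idx x (b1 _ hx)))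
  · refine (ht.wd x k (b1 _ hx) hk).trans (hs.wd _ k (b4 x hx) ?_)
    rwa [ht.idx x (b1 _ hx), ← ht.hT _ (b1 _ hx)]
  · obtain ⟨c1, c2, c3⟩ := ht.low x p (b1 _ hx) h1 h2
    obtain ⟨d1, d2, d3⟩ := hs.low _ _ (b4 x hx) c1 c2
    exact ⟨d1, d2, c3.trans d3⟩
  · have hx' := b1 _ hx
    obtain ⟨c1, c2, -⟩ := ht.low x p hx' h1 h2
    obtain ⟨d1, d2⟩ := ht.play x o ν p hx' hν h1 h2 h3
    obtain ⟨e1, e2⟩ := walk hs (b4 x hx) c1 c2 d1 fun j f1 f2 => by
      rw [ht.idx x hx'] at f1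
      rw [ht.idx _ (by rw [M''.idx_step]; omega), M''.idx_step] at f2
      have e := bk_eq ht hx' f1 f2
      exact ht.mem j ν (e ▸ hx') (e ▸ hν)
    refine ⟨e1, ?_⟩
    change s.low (t.prj _) (t.low _ p) = _
    rw [d2]
    exact e2
  · obtain ⟨c1, c2, c3, c4⟩ := hs.emb (t.bl j) x (b2 j hj) hx
    obtain ⟨d1, d2, d3, d4⟩ := ht.emb j _ (b1 j hj) c1
    refine ⟨d1, (congrArg s.prj d2).trans c2, d3.trans c3, fun p hp => ?_⟩
    obtain ⟨e1, e2⟩ := c4 p hp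
    obtain ⟨f1, f2⟩ := d4 p (c3 ▸ hp)
    refine ⟨f1.trans e1, ?_⟩
    change s.low (t.prj (t.emb j (s.emb (t.bl j) x))) (t.low (t.emb j (s.emb (t.bl j) x)) p) = p
    rw [d2, f2, e2]

theorem legal {ν : ℕ → O'} {y : ℕ → ℕ} (h : IsSim M' M s) (ha : M'.Adm ν) (hl : M'.Legal ν y) :
    M.Legal (s.lift ν) y := by
  obtain ⟨b, hb⟩ := eventually_atTop.1 ha
  obtain ⟨p, xs, h0, h1, h2, h3, h4, h5⟩ := hl.late (b + s.j0)
  have i1 : ∀ n, b + s.j0 ≤ M'.idx (xs n) := fun n =>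
    h0.trans (Mach.Walk.idx_le (Mach.chain h3 (Nat.zero_le n)))
  have i2 : ∀ n, s.j0 ≤ M'.idx (xs n) := fun n => (Nat.le_add_left _ _).trans (i1 n)
  have i3 : ∀ n, p ≤ M'.dep (xs n) := fun n => (Mach.chain h3 (Nat.zero_le n)).dep_ge h2
  have i4 : ∀ n j, M'.idx (xs n) ≤ j → ν j ∈ M'.A j := fun n j hj =>
    hb j (((Nat.le_add_right _ _).trans (i1 n)).trans hj)
  have i5 : ∀ n, s.low (xs n) p = s.low (xs 0) p := fun n =>
    (walk h (i2 0) h1 h2 (Mach.chain h3 (Nat.zero_le n)) fun j c _ => i4 0 j c).2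
  refine ⟨s.low (xs 0) p, fun n => s.prj (xs n), (h.low _ p (i2 0) h1 h2).1,
    (h.low _ p (i2 0) h1 h2).2.1, fun n => ?_, fun c => ?_, fun n k hk => ?_⟩
  · rw [← i5 n]
    exact (walk h (i2 n) h1 (i3 n) (h3 n) fun j c _ => i4 n j c).1
  · obtain ⟨n, hn⟩ := h4 c
    exact ⟨n, i5 n ▸ hn.trans (h.low _ p (i2 n) h1 (i3 n)).2.2⟩
  · rw [h.idx _ (i2 n), ← h.hT _ (i2 n)] at hk
    exact (h5 n k hk).trans (h.wd _ k (i2 n) hk)

theorem adm {ν : ℕ → O'} (h : IsSim M' M s) (ha : M'.Adm ν) : M.Adm (s.lift ν) := by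
  filter_upwards [(bk_tendsto h).eventually ha, (bk_tendsto h).eventually_ge_atTop s.j0]
    with i h1 h2
  exact h.mem i _ h2 h1

theorem below {ν ν' : ℕ → O'} (h : IsSim M' M s) (hb : M'.Below ν ν') :
    M.Below (s.lift ν) (s.lift ν') := by
  filter_upwards [(bk_tendsto h).eventually hb, (bk_tendsto h).eventually_ge_atTop s.j0]
    with i h1 h2
  rcases h1 with h1 | h1
  · exact Or.inl (congrArg (fun v => s.pr v i) h1)
  · exact Or.inr (h.fr i _ _ _ h2 h1)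

theorem refl (p : Cond N O) (lab : (ℕ → ℕ) → ℕ → O) : LeD p p (SimD.id N O) lab :=
  ⟨Subset.rfl, id p.M, Mach.Below.refl _, fun _ h h' => absurd h h', fun _ h h' => absurd h h'⟩

open Classical in
theorem trans {r : Cond N'' O''} {q : Cond N' O'} {p : Cond N O} {lab : (ℕ → ℕ) → ℕ → O}
    {lab' : (ℕ → ℕ) → ℕ → O'} (hq : LeD q p s lab) (hr : LeD r q t lab') :
    LeD r p (s.comp t) fun y => if y ∈ q.C then lab y else s.lift (lab' y) := by
  have a1 : p.M.Below (s.lift q.rt) ((s.comp t).lift r.rt) := below hq.sim hr.root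
  have a2 : ∀ y ∈ q.C, y ∉ p.C → ∀ y' ∈ r.C, y' ∉ q.C → p.M.Below (lab y) (s.lift (lab' y')) :=
    fun y h1 h2 y' h3 h4 => (hq.new y h1 h2).2.2.2.trans (below hq.sim (hr.new y' h3 h4).2.2.1)
  refine ⟨hq.sub.trans hr.sub, comp hq.sim hr.sim, hq.root.trans a1, fun y h1 h2 => ?_,
    fun y h1 h2 y' h3 h4 => ?_⟩
  · by_cases h : y ∈ q.C
    · obtain ⟨c1, c2, c3, c4⟩ := hq.new y h h2
      simp only [if_pos h]
      exact ⟨c1, c2, c3, c4.trans a1⟩
    · obtain ⟨c1, c2, c3, c4⟩ := hr.new y h1 h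
      simp only [if_neg h]
      exact ⟨legal hq.sim c2 c1, adm hq.sim c2, hq.root.trans (below hq.sim c3), below hq.sim c4⟩
  · by_cases h : y ∈ q.C <;> by_cases h' : y' ∈ q.C
    · simp only [if_pos h, if_pos h']
      exact hq.lin y h h2 y' h' h4
    · simp only [if_pos h, if_neg h']
      exact Or.inl (a2 y h h2 y' h3 h')
    · simp only [if_neg h, if_pos h']
      exact Or.inr (a2 y' h' h4 y h1 h)
    · simp only [if_neg h, if_neg h']
      exact (hr.lin y h1 h y' h3 h').imp (below hq.sim) (below hq.sim)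

end Sim

theorem s_sim : S_Sim :=
  ⟨Sim.id, Sim.comp, Sim.legal, Sim.adm, Sim.below, Sim.refl, Sim.trans⟩

theorem s_add : S_Add := by
  classical
  intro N O p η0 η1 y0 y1 l0 l1 a0 a1 b0 b1 hg
  refine ⟨⟨insert y0 (insert y1 p.C), p.M, η1, (p.cnt.insert _).insert _, hg, ?_, p.tend⟩,
    ⟨SimD.id N O, fun y => if y = y1 then η1 else η0, ?_, Sim.id _, b0.trans b1, ?_, ?_⟩,
    mem_insert _ _, mem_insert_of_mem _ (mem_insert _ _)⟩
  · rintro y (rfl | rfl | h)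
    exacts [p.tend _ _ a0 l0, p.tend _ _ a1 l1, p.tendC y h]
  · exact (subset_insert _ _).trans (subset_insert _ _)
  · intro y h1 h2
    by_cases h : y = y1
    · simp only [if_pos h]
      exact ⟨h ▸ l1, a1, b0.trans b1, Mach.Below.refl _⟩
    · simp only [if_neg h]
      rcases h1 with rfl | rfl | h1
      · exact ⟨l0, a0, b0, b1⟩
      · exact absurd rfl h
      · exact absurd h1 h2
  · intro y _ _ y' _ _
    by_cases h : y = y1 <;> by_cases h' : y' = y1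
    · simp only [if_pos h, if_pos h']
      exact Or.inl (Mach.Below.refl _)
    · simp only [if_pos h, if_neg h']
      exact Or.inr b1
    · simp only [if_neg h, if_pos h']
      exact Or.inl b1
    · simp only [if_neg h, if_neg h']
      exact Or.inl (Mach.Below.refl _)

end Pool.Agent.P.MP_b17faa_gt.X7
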