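import Pool.Agent.P.MP_b17faa_gt.X7Iface

/-!
The status of the chosen tests along legal runs of the derived machine.
-/

namespace Pool.Agent.P.MP_b17faa_gt.X7

open Set Filter Function

namespace Stt

variable {c : Ctx} {k : Skel} {N' : Type} {M' : Mach N' Opt} {st : N' → Sta} {ν : ℕ → Opt}
  {b0 p : ℕ}

/-- what one step of level at least `2 * p` does -/
structure Step (c : Ctx) (k : Skel) (p j : ℕ) (μ : Opt) (s s' : Sta) (same : Prop) : Prop where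
  kill : ∀ e, c.S.kill s.x e → c.S.kill s'.x e
  bp : (s'.L p).bp = (s.L p).bp
  data : ∀ δ ∈ s.D, δ.1 ≤ (s.L p).bp → δ ∈ s'.D
  alt : (s'.L p = s.L p ∧ same) ∨ ((s'.L p).Act ∧
    (∀ e, ((s.L p).bp, true, e) ∈ s.D → c.S.kill s'.x e) ∧
    ((s.L p).d ≠ 0 → (s'.L p).d = (s.L p).d) ∧
    ((s.L p).d = 0 → (s.L p).gp = (s.L p).bp → (s'.L p).d = 0))
  plc : ∀ g, 1 ≤ g → g ≤ k.ga j →
    (want μ g = true → c.S.kill s'.x (k.s j 1, k.s j (g + 1))) ∧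
    (want μ g = false → ((s'.L p).gp, true, (k.s j 1, k.s j (g + 1))) ∈ s'.D ∧
      ((s'.L p).d ≠ 0 → ((s'.L p).d, false, (k.s j 1, k.s j (g + 1))) ∈ s'.D))

theorem step (hD : c.Der k M' st) (hp : 1 ≤ p) (x : N') (o : Op) (μ : Opt)
    (hμ : μ ∈ M'.A (M'.idx x)) (hx : p ≤ M'.dep x) (ho : 2 * p ≤ o.lev (M'.dep x)) :
    Step c k p (M'.idx x) μ (st x) (st (M'.step x o μ))
      (M'.ent (M'.step x o μ) p = M'.ent x p) := by
  have B := hD.blk x o μ (hD.hA ▸ hμ)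
  have V := hD.valid x
  have V' := B.valid
  have hv := hD.dep x
  have ho' : 2 * p ≤ o.lev (st x).v := hv ▸ ho
  have hx' : p ≤ (st x).v := hv ▸ hx
  have hy : p ≤ (st (M'.step x o μ)).v := B.dep ▸ Op.le_dep ho' hx'
  refine ⟨fun e he => ?_, ?_, fun δ hδ h1 => ?_, ?_, fun g h1 h2 => ?_⟩
  · exact (c.M.ok c.V _).kill _ _ e (Mach.Walk.mono B.walk fun _ _ _ => Nat.zero_le _) he
  · obtain ⟨q, rfl⟩ : ∃ q, p = q + 1 := ⟨p - 1, by omega⟩
    rw [(V'.adj q hy).1, (V.adj q hx').1, B.keep q (by omega)]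
  · have := (V.lvl o hx').2.2 ho'
    exact B.data δ hδ (by omega)
  · rcases ho.eq_or_lt with e | e
    · obtain ⟨rfl, e'⟩ := Op.eq_rep e.symm hp
      have e1 : (st x).v = p := hv ▸ e'
      have e2 : (st (M'.step x .rep μ)).v = p := B.dep.trans e1
      have a1 := (B.new (Or.inr rfl) (e2 ▸ hp)).2
      have a2 := B.rep rfl (e1 ▸ hp)
      rw [e2] at a1
      rw [e1] at a2
      exact Or.inr ⟨a1, a2⟩
    · exact Or.inl ⟨B.keep p (hv ▸ e), M'.ent_step x o μ p e⟩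
  · have a := B.plc g h1 h2
    refine ⟨fun hw => (a.1 hw).elim id fun h => absurd h.1 (by simp), fun hw => ?_⟩
    have a' := a.2 hw
    rcases hy.eq_or_lt with e | e
    · rw [← e] at a'
      exact ⟨a'.1 _ le_rfl, fun _ => a'.2⟩
    · obtain ⟨-, b1, b2⟩ := V'.bp_le e le_rfl
      exact ⟨a'.1 _ b1, fun h => b2 h ▸ a'.2⟩

/-- induction along a late run of level at least `2 * p` -/
theorem ind (hD : c.Der k M' st) (hp : 1 ≤ p) (hν : ∀ i, b0 ≤ i → ν i ∈ M'.A i) {x y : N'}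
    (h : M'.Play ν (2 * p) x y) (h1 : b0 ≤ M'.idx x) (h2 : p ≤ M'.dep x) {I : N' → Prop}
    (h0 : I x) (hs : ∀ a a', M'.idx a' = M'.idx a + 1 → I a →
      Step c k p (M'.idx a) (ν (M'.idx a)) (st a) (st a') (M'.ent a' p = M'.ent a p) → I a') :
    I y :=
  Mach.Walk.induction h h0 fun a o w i q => hs a _ (M'.idx_step _ _ _) i
    (step hD hp a o _ (hν _ (h1.trans w.idx_le)) (Mach.Play.dep_ge w h2) q)

theorem act (hD : c.Der k M' st) (hp : 1 ≤ p) (hν : ∀ i, b0 ≤ i → ν i ∈ M'.A i) {x y : N'}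
    (h : M'.Play ν (2 * p) x y) (h1 : b0 ≤ M'.idx x) (h2 : p ≤ M'.dep x) :
    ((st y).L p).Act ∨ M'.ent y p = M'.ent x p := by
  refine ind hD hp hν h h1 h2 (I := fun y => ((st y).L p).Act ∨ M'.ent y p = M'.ent x p)
    (Or.inr rfl) fun a a' _ i s => ?_
  rcases s.alt with ⟨e1, e2⟩ | e
  · rwa [e1, e2]
  · exact Or.inl e.1

theorem cone (hD : c.Der k M' st) (hp : 1 ≤ p) (hν : ∀ i, b0 ≤ i → ν i ∈ M'.A i) {x y : N'}
    (h : M'.Play ν (2 * p) x y) (h1 : b0 ≤ M'.idx x) (h2 : p ≤ M'.dep x) {d : ℕ} (hd : d ≠ 0)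
    (hx : ((st x).L p).d = d) :
    (p ≤ (st y).v ∧ ((st y).L p).d = d) ∧ ∀ j, M'.idx x ≤ j → j < M'.idx y → ∀ g, 1 ≤ g →
      g ≤ k.ga j → (want (ν j) g = true → c.S.kill (st y).x (k.s j 1, k.s j (g + 1))) ∧
        (want (ν j) g = false → (d, false, (k.s j 1, k.s j (g + 1))) ∈ (st y).D) := by
  have key := ind hD hp hν h h1 h2 (I := fun y => (((st y).L p).d = d ∧
      d ≤ ((st y).L p).bp) ∧ ∀ j, M'.idx x ≤ j → j < M'.idx y → ∀ g, 1 ≤ g →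
      g ≤ k.ga j → (want (ν j) g = true → c.S.kill (st y).x (k.s j 1, k.s j (g + 1))) ∧
        (want (ν j) g = false → (d, false, (k.s j 1, k.s j (g + 1))) ∈ (st y).D))
    ⟨⟨hx, hx ▸ ((hD.valid x).wf p (hD.dep x ▸ h2)).2.2.1⟩, fun j a b => by omega⟩ ?_
  · exact ⟨⟨hD.dep y ▸ h.dep_ge h2, key.1.1⟩, key.2⟩
  rintro a a' e ⟨⟨i1, i2⟩, i3⟩ s
  have hd' : ((st a').L p).d = d := by
    rcases s.alt with ⟨e1, -⟩ | e1
    · rwa [e1]
    · exact (e1.2.2.1 (i1 ▸ hd)).trans i1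
  refine ⟨⟨hd', s.bp ▸ i2⟩, fun j j1 j2 g g1 g2 => ?_⟩
  rcases (show j ≤ M'.idx a by omega).eq_or_lt with rfl | j3
  · exact ⟨(s.plc g g1 g2).1, fun hw => hd' ▸ ((s.plc g g1 g2).2 hw).2 (hd' ▸ hd)⟩
  · exact ⟨fun hw => s.kill _ ((i3 j j1 j3 g g1 g2).1 hw),
      fun hw => s.data _ ((i3 j j1 j3 g g1 g2).2 hw) i2⟩

/-- the other mode -/
def Gam (E : Ent) (b : ℕ) : Prop := E.d = 0 ∧ E.gp = b ∧ E.bp = b

theorem Step.gam {j b : ℕ} {μ : Opt} {s s' : Sta} {same : Prop} (h : Step c k p j μ s s' same)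
    (hs : Gam (s.L p) b) : Gam (s'.L p) b := by
  rcases h.alt with ⟨e1, -⟩ | ⟨e1, -, -, e2⟩
  · rwa [e1]
  · have e3 := e2 hs.1 (hs.2.1.trans hs.2.2.symm)
    have e4 := h.bp.trans hs.2.2
    exact ⟨e3, (e1.resolve_left fun h => h e3).trans e4, e4⟩

theorem gam (hD : c.Der k M' st) (hp : 1 ≤ p) (hν : ∀ i, b0 ≤ i → ν i ∈ M'.A i) {x y : N'}
    (h : M'.Play ν (2 * p) x y) (h1 : b0 ≤ M'.idx x) (h2 : p ≤ M'.dep x) {b : ℕ}
    (hx : Gam ((st x).L p) b) :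
    Gam ((st y).L p) b ∧ ∀ j, M'.idx x ≤ j → j < M'.idx y → ∀ g, 1 ≤ g → g ≤ k.ga j →
      c.S.kill (st y).x (k.s j 1, k.s j (g + 1)) ∨
        (b, true, (k.s j 1, k.s j (g + 1))) ∈ (st y).D := by
  refine ind hD hp hν h h1 h2 (I := fun y => Gam ((st y).L p) b ∧ ∀ j, M'.idx x ≤ j →
      j < M'.idx y → ∀ g, 1 ≤ g → g ≤ k.ga j → c.S.kill (st y).x (k.s j 1, k.s j (g + 1)) ∨
        (b, true, (k.s j 1, k.s j (g + 1))) ∈ (st y).D) ⟨hx, fun j a b => by omega⟩ ?_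
  rintro a a' e ⟨i1, i3⟩ s
  have i2 := s.gam i1
  refine ⟨i2, fun j j1 j2 g g1 g2 => ?_⟩
  rcases (show j ≤ M'.idx a by omega).eq_or_lt with rfl | j3
  · cases hw : want (ν (M'.idx a)) g
    · exact Or.inr (i2.2.1 ▸ ((s.plc g g1 g2).2 hw).1)
    · exact Or.inl ((s.plc g g1 g2).1 hw)
  · exact (i3 j j1 j3 g g1 g2).imp (s.kill _) fun h => s.data _ h i1.2.2.ge

theorem gam_kill (hD : c.Der k M' st) (hp : 1 ≤ p) (hν : ∀ i, b0 ≤ i → ν i ∈ M'.A i) {x y : N'}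
    (h : M'.Play ν (2 * p) x y) (h1 : b0 ≤ M'.idx x) (h2 : p ≤ M'.dep x) {b : ℕ}
    (hx : Gam ((st x).L p) b) {e : ℕ × ℕ} (he : (b, true, e) ∈ (st x).D) :
    c.S.kill (st y).x e ∨ M'.ent y p = M'.ent x p := by
  have key := ind hD hp hν h h1 h2 (I := fun y => Gam ((st y).L p) b ∧ (c.S.kill (st y).x e ∨
      ((b, true, e) ∈ (st y).D ∧ M'.ent y p = M'.ent x p))) ⟨hx, Or.inr ⟨he, rfl⟩⟩ ?_
  · exact key.2.imp_right fun h => h.2
  rintro a a' - ⟨i1, i2⟩ s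
  refine ⟨s.gam i1, ?_⟩
  rcases i2 with i2 | ⟨i2, i3⟩
  · exact Or.inl (s.kill _ i2)
  rcases s.alt with ⟨-, e2⟩ | e1
  · exact Or.inr ⟨s.data _ i2 i1.2.2.ge, e2.trans i3⟩
  · exact Or.inl (e1.2.1 e (i1.2.2 ▸ i2))

theorem kill_iff (hD : c.Der k M' st) (x : N') (e : ℕ × ℕ) :
    (M'.stat c.V).kill x e ↔ c.S.kill (st x).x e := by
  simp only [Mach.stat, hD.hT, hD.wd, (hD.valid x).idx]

theorem late {xs : ℕ → N'} (h2 : p ≤ M'.dep (xs 0))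
    (h3 : ∀ n, M'.Play ν (2 * p) (xs n) (xs (n + 1))) (h4 : ∀ c, ∃ n, c ≤ (M'.ent (xs n) p).1)
    (m : ℕ) : ∃ n, m ≤ n ∧ M'.ent (xs n) p ≠ M'.ent (xs m) p := by
  obtain ⟨n, hn⟩ := h4 (M'.T (M'.idx (xs m)) + 1)
  have bd : ∀ i, (M'.ent (xs i) p).1 ≤ M'.T (M'.idx (xs i)) := fun i =>
    (M'.bd _ p ((Mach.chain h3 (Nat.zero_le i)).dep_ge h2)).1
  rcases le_total m n with e | e
  · refine ⟨n, e, fun h => ?_⟩
    have := bd m
    rw [h] at hn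
    omega
  · have := bd n
    have := M'.T_mono.monotone (Mach.Walk.idx_le (Mach.chain h3 e))
    omega

end Stt

open Stt in
theorem s_stat (h : S_Calc) : S_Stat := by
  intro c k _ N' M' st hD ν y hA hL
  obtain ⟨b0, hν⟩ := eventually_atTop.1 hA
  obtain ⟨p, xs, h0, hp, h2, h3, h4, h5⟩ := hL.late b0
  have hb : ∀ n, b0 ≤ M'.idx (xs n) := fun n =>
    h0.trans (Mach.Walk.idx_le (Mach.chain h3 (Nat.zero_le n)))
  have hd : ∀ n, p ≤ M'.dep (xs n) := fun n => (Mach.chain h3 (Nat.zero_le n)).dep_ge h2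
  have hV : ∀ e, y ∈ c.V e ↔ ∃ n, c.S.kill (st (xs n)).x e := fun e =>
    (Mach.mem_iff_kill h2 h3 h4 h5 (c.isOpen e)).trans (exists_congr fun n => kill_iff hD _ e)
  have big : ∀ m j, ∃ n, m ≤ n ∧ j < M'.idx (xs n) := fun m j =>
    ((eventually_ge_atTop m).and
      ((Mach.chain_tendsto h2 h3 h4).eventually_gt_atTop j)).exists
  obtain ⟨n0, -, hn0⟩ := late h2 h3 h4 0
  have hact := (act hD hp hν (Mach.chain h3 (Nat.zero_le n0)) (hb 0) h2).resolve_right hn0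
  by_cases hd0 : ((st (xs n0)).L p).d = 0
  · have hG : Gam ((st (xs n0)).L p) ((st (xs n0)).L p).bp :=
      ⟨hd0, hact.resolve_left fun h => h hd0, rfl⟩
    refine Or.inl ((eventually_ge_atTop (M'.idx (xs n0))).mono fun j hj g g1 g2 => ?_)
    obtain ⟨n, hn, hj'⟩ := big n0 j
    obtain ⟨a1, a2⟩ := gam hD hp hν (Mach.chain h3 hn) (hb n0) (hd n0) hG
    rcases a2 j hj hj' g g1 g2 with a3 | a3
    · exact (hV _).2 ⟨n, a3⟩
    · obtain ⟨m, hm, hm'⟩ := late h2 h3 h4 n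
      exact (hV _).2 ⟨m,
        (gam_kill hD hp hν (Mach.chain h3 hm) (hb n) (hd n) a1 a3).resolve_right hm'⟩
  · refine Or.inr ((eventually_ge_atTop (M'.idx (xs n0))).mono fun j hj g g1 g2 => ?_)
    refine ⟨fun hy => ?_, fun hw => ?_⟩
    · obtain ⟨m, hm⟩ := (hV _).1 hy
      obtain ⟨n, hn, hj'⟩ := big (max n0 m) j
      obtain ⟨⟨a0, a1⟩, a2⟩ := cone hD hp hν (Mach.chain h3 ((le_max_left _ _).trans hn)) (hb n0)
        (hd n0) hd0 rfl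
      by_contra hw
      have a3 := (a2 j hj hj' g g1 g2).2 (Bool.eq_false_iff.2 hw)
      have V := hD.valid (xs n)
      have hk : c.S.kill (st (xs n)).x (k.s j 1, k.s j (g + 1)) :=
        (kill_iff hD _ _).1 ((M'.ok c.V ν).kill _ _ _
          ((Mach.chain h3 ((le_max_right _ _).trans hn)).mono (Nat.zero_le _))
          ((kill_iff hD _ _).2 hm))
      refine h.safe (c.M.ok c.V (st (xs n)).pre) (a := ((st (xs n)).x, (st (xs n)).D))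
        (V.inv.self V.pre).1 a3 (Nat.pos_of_ne_zero hd0) ?_ hk
      have b1 := V.wf p a0
      have b2 := (V.tp_le le_rfl a0).2.2
      exact (a1 ▸ b1.2.2.1).trans (b1.1.trans b2)
    · obtain ⟨n, hn, hj'⟩ := big n0 j
      exact (hV _).2 ⟨n, ((cone hD hp hν (Mach.chain h3 hn) (hb n0) (hd n0) hd0 rfl).2 j hj hj'
        g g1 g2).1 hw⟩

end Pool.Agent.P.MP_b17faa_gt.X7
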