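import Pool.Agent.P.MP_b17faa_gt.X7Glue
import Pool.Agent.P.MP_b17faa_gt.X7Calc
import Pool.Agent.P.MP_b17faa_gt.X7Ram
import Pool.Agent.P.MP_b17faa_gt.X7Meas
import Pool.Agent.P.MP_b17faa_gt.X7Sim
import Pool.Agent.P.MP_b17faa_gt.X7Neg
import Pool.Agent.P.MP_b17faa_gt.X7Base
import Pool.Agent.P.MP_b17faa_gt.X7Fus
import Pool.Agent.P.MP_b17faa_gt.X7Ctx
import Pool.Agent.P.MP_b17faa_gt.X7Gap
import Pool.Agent.P.MP_b17faa_gt.X7Blk
import Pool.Agent.P.MP_b17faa_gt.X7Cov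
import Pool.Agent.P.MP_b17faa_gt.X7Der
import Pool.Agent.P.MP_b17faa_gt.X7Stat
import Pool.Agent.P.MP_b17faa_gt.X7Pos

/-!
The property `(12)` does not imply `(2)`.
-/

namespace Pool.Agent.P.MP_b17faa_gt

open X7 in
theorem sep7 : Separates [12] [2] :=
  sep7_of (exists_X7_of s_sim s_add s_neg (s_code s_sim) s_base (s_fus s_sim)
    (s_pos s_sim (s_ctx s_ns s_up s_meas s_add) s_skel s_size
      (s_der s_calc (s_blk s_calc (s_zone s_calc) (s_gap s_calc (s_zone s_calc))) s_cov s_size)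
      (s_stat s_calc)))

end Pool.Agent.P.MP_b17faa_gt
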