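import Pool.Agent.P.MP_b17faa_gt.FoLine
import Pool.Agent.P.MP_b17faa_gt.Table
import Pool.Agent.P.MP_b17faa_gt.X7

/-!
One model for all the examples: the product of the countably closed orders.
-/

namespace Pool.Agent.P.MP_b17faa_gt.Fo

open Filter Set Function Pool.Agent.Lib.Helper87 Coded

/-- countably closed orders -/
def Closed (P : Type) [Preorder P] : Prop := ∀ s : ℕ → P, Antitone s → ∃ q, ∀ n, q ≤ s n

/-- projections -/
structure Proj {Q P : Type} [Preorder Q] [Preorder P] (π : Q → P) : Prop where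
  mono : Monotone π
  lift : ∀ q, ∀ p ≤ π q, ∃ r ≤ q, π r = p

section
variable {Q P P' : Type} [Preorder Q] [Preorder P] [Preorder P']

theorem Proj.fst {π : Q → P × P'} (h : Proj π) : Proj fun q => (π q).1 :=
  ⟨fun _ _ e => (h.mono e).1, fun q p hp =>
    let ⟨r, h1, h2⟩ := h.lift q (p, (π q).2) ⟨hp, le_rfl⟩; ⟨r, h1, congrArg Prod.fst h2⟩⟩

theorem Proj.snd {π : Q → P × P'} (h : Proj π) : Proj fun q => (π q).2 :=
  ⟨fun _ _ e => (h.mono e).2, fun q p hp =>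
    let ⟨r, h1, h2⟩ := h.lift q ((π q).1, p) ⟨le_rfl, hp⟩; ⟨r, h1, congrArg Prod.snd h2⟩⟩

theorem Closed.prod (h : Closed P) (h' : Closed P') : Closed (P × P') := fun s hs =>
  let ⟨p, hp⟩ := h (fun n => (s n).1) fun _ _ e => (hs e).1
  let ⟨q, hq⟩ := h' (fun n => (s n).2) fun _ _ e => (hs e).2
  ⟨(p, q), fun n => ⟨hp n, hq n⟩⟩

variable {Y : Type} {π : Q → P} (hπ : Proj π) (hQ : Closed Q)

/-- approximations along a projection -/
def lift (a : Approx P Y) : Approx Q Y where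
  pt q := a.pt (π q)
  countable _ := a.countable _
  anti _ _ h := a.anti _ _ (hπ.mono h)
  closed := hQ
  nonempty q :=
    let ⟨p, h1, h2⟩ := a.nonempty (π q); let ⟨r, h3, h4⟩ := hπ.lift q p h1; ⟨r, h3, h4 ▸ h2⟩

include hπ in
theorem Proj.dense {Φ : P → Prop} {q : Q} (h : ∃ p ≤ π q, Φ p) : ∃ r ≤ q, Φ (π r) :=
  let ⟨p, h1, h2⟩ := h; let ⟨r, h3, h4⟩ := hπ.lift q p h1; ⟨r, h3, h4 ▸ h2⟩

variable [TopologicalSpace Y] {a : Approx P Y} {A B : Cl}

theorem input_lift {u : ℕ → ℕ → Set Y} {q : Q} :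
    (lift hπ hQ a).Input A u q ↔ a.Input A u (π q) := by
  refine ⟨fun h => ⟨h.isOpen, fun p hp n k => ?_, fun p hp n => ?_⟩, fun h => ⟨h.isOpen,
    fun r hr n k => hπ.dense (h.proper _ (hπ.mono hr) n k), fun r hr => h.ix _ (hπ.mono hr)⟩⟩
  · obtain ⟨r, h1, rfl⟩ := hπ.lift q p hp
    obtain ⟨s, h2, h3⟩ := h.proper r h1 n k
    exact ⟨_, hπ.mono h2, h3⟩
  · obtain ⟨r, h1, rfl⟩ := hπ.lift q p hp
    exact h.ix r h1 n

theorem lift_all : (a.Pos1 A B → (lift hπ hQ a).Pos1 A B) ∧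
    (a.PosFin A B → (lift hπ hQ a).PosFin A B) ∧ (a.PosU B → (lift hπ hQ a).PosU B) ∧
    (a.Neg1 A B → (lift hπ hQ a).Neg1 A B) ∧ (a.Neg1t A B → (lift hπ hQ a).Neg1t A B) ∧
    (a.NegFin A B → (lift hπ hQ a).NegFin A B) ∧ (a.NegU B → (lift hπ hQ a).NegU B) := by
  refine ⟨fun h u q hu => ?_, fun h u q hu => ?_, fun h u q hu hm => ?_,
    fun ⟨u, h1, h2⟩ => ⟨u, fun q => (input_lift hπ hQ).2 (h1 _), fun S hS q =>
      hπ.dense (h2 S hS _)⟩,
    fun ⟨u, h1, h2, h3⟩ => ⟨u, fun q => (input_lift hπ hQ).2 (h1 _), fun i j hij q =>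
      hπ.dense (h2 i j hij _), fun f q => hπ.dense (h3 f _)⟩,
    fun ⟨u, h1, h2⟩ => ⟨u, fun q => (input_lift hπ hQ).2 (h1 _), fun S hS q =>
      hπ.dense (h2 S hS _)⟩,
    fun ⟨u, h1, hm, h2⟩ => ⟨u, fun q => (input_lift hπ hQ).2 (h1 _), hm, fun S hS q =>
      hπ.dense (h2 S hS _)⟩⟩
  · obtain ⟨r, h1, f, h2⟩ := hπ.dense (h u _ ((input_lift hπ hQ).1 hu))
    exact ⟨r, h1, f, fun s hs => h2 _ (hπ.mono hs)⟩
  · obtain ⟨r, h1, S, h2, h3⟩ := hπ.dense (h u _ ((input_lift hπ hQ).1 hu))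
    exact ⟨r, h1, S, h2, fun s hs => h3 _ (hπ.mono hs)⟩
  · obtain ⟨r, h1, f, h2⟩ := hπ.dense (h u _ ((input_lift hπ hQ).1 hu) hm)
    exact ⟨r, h1, f, fun s hs => h2 _ (hπ.mono hs)⟩

/-- the set `X` realizes the approximations in `M` -/
def Rz (M : Set ZFSet.{0}) (X : Set ℝ) (b : Approx P Y) : Prop :=
  code X ∈ M ∧ X.Nonempty ∧ ∀ A B : Cl,
    (A ≠ .O → b.Pos1 A B → S1In M (Cov X A) (Cov X B)) ∧
    (A ≠ .O → b.PosFin A B → SfinIn M (Cov X A) (Cov X B)) ∧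
    (b.PosU B → UfinIn M (Cov X .G) (Cov X B)) ∧
    (b.Neg1 A B → ¬ S1In M (Cov X A) (Cov X B)) ∧
    (b.Neg1t A B → ¬ S1In M (Cov X A) (Cov X B)) ∧
    (b.NegFin A B → ¬ SfinIn M (Cov X A) (Cov X B)) ∧
    (b.NegU B → ¬ UfinIn M (Cov X .G) (Cov X B))

theorem Rz.of_lift {M : Set ZFSet.{0}} {X : Set ℝ} (h : Rz M X (lift hπ hQ a)) : Rz M X a :=
  ⟨h.1, h.2.1, fun A B =>
    let ⟨a1, a2, a3, a4, a5, a6, a7⟩ := lift_all hπ hQ (a := a) (A := A) (B := B)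
    let ⟨b1, b2, b3, b4, b5, b6, b7⟩ := h.2.2 A B
    ⟨fun h => b1 h ∘ a1, fun h => b2 h ∘ a2, b3 ∘ a3, b4 ∘ a4, b5 ∘ a5, b6 ∘ a6, b7 ∘ a7⟩⟩

open Approx in
theorem ev_realize [Nonempty P] (b : Approx P Y) {e : Y → ℝ} (he : Topology.IsInducing e) :
    ∀ᶠ w in gen P, ∃ X, Rz w.M X b := by
  have : Finite Cl := Finite.of_surjective (fun i : Fin 4 => ![Cl.O, .Om, .T, .G] i) fun c => by
    cases c
    exacts [⟨0, rfl⟩, ⟨1, rfl⟩, ⟨2, rfl⟩, ⟨3, rfl⟩]
  let a := b.map e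
  have hc := he.continuous
  have key : ∀ A B : Cl, ∀ᶠ w in gen P,
      (A ≠ .O → b.Pos1 A B → S1In w.M (Cov (a.X w) A) (Cov (a.X w) B)) ∧
      (A ≠ .O → b.PosFin A B → SfinIn w.M (Cov (a.X w) A) (Cov (a.X w) B)) ∧
      (b.PosU B → UfinIn w.M (Cov (a.X w) .G) (Cov (a.X w) B)) ∧
      (b.Neg1 A B → ¬ S1In w.M (Cov (a.X w) A) (Cov (a.X w) B)) ∧
      (b.Neg1t A B → ¬ S1In w.M (Cov (a.X w) A) (Cov (a.X w) B)) ∧
      (b.NegFin A B → ¬ SfinIn w.M (Cov (a.X w) A) (Cov (a.X w) B)) ∧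
      (b.NegU B → ¬ UfinIn w.M (Cov (a.X w) .G) (Cov (a.X w) B)) := fun A B => by
    refine (ev_imp fun hA => ev_imp fun h => a.ev_pos1 hA fun u p hp => ?_).and
      ((ev_imp fun hA => ev_imp fun h => a.ev_posFin hA fun u p hp => ?_).and
      ((ev_imp fun h => a.ev_posU fun u p hp hm => ?_).and
      ((ev_imp fun h => a.ev_neg1 ?_).and ((ev_imp fun h => a.ev_neg1t ?_).and
      ((ev_imp fun h => a.ev_negFin ?_).and (ev_imp fun h => a.ev_negU ?_))))))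
    · obtain ⟨q, h1, f, h2⟩ := h _ p (input_map hc hp)
      exact ⟨q, h1, f, fun r hr => ix_preimage.2 (h2 r hr)⟩
    · obtain ⟨q, h1, S, h2, h3⟩ := h _ p (input_map hc hp)
      exact ⟨q, h1, S, h2, fun r hr => ix_preimage.2 (h3 r hr)⟩
    · obtain ⟨q, h1, f, h2⟩ := h _ p (input_map hc hp) fun n k l hkl => preimage_mono (hm n hkl)
      exact ⟨q, h1, f, fun r hr => ix_preimage.2 (h2 r hr)⟩
    · obtain ⟨u, h1, h2⟩ := h
      refine ⟨_, fun p => input_ext he (h1 p), fun S hS p => ?_⟩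
      obtain ⟨q, h3, h4⟩ := h2 S hS p
      exact ⟨q, h3, fun h => h4 (ix_ext he h1 h)⟩
    · obtain ⟨u, h1, hi, h2⟩ := h
      refine ⟨_, fun p => input_ext he (h1 p), fun i j hij p => ?_, fun f p => ?_⟩
      · obtain ⟨q, h3, x, h4, h5⟩ := hi i j hij p
        refine ⟨q, h3, e x, mem_image_of_mem e h4, ?_⟩
        change ¬ (x ∈ e ⁻¹' ext e (u i.1 i.2) ↔ x ∈ e ⁻¹' ext e (u j.1 j.2))
        rwa [preimage_ext he ((h1 q).isOpen _ _), preimage_ext he ((h1 q).isOpen _ _)]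
      · obtain ⟨q, h3, h4⟩ := h2 f p
        refine ⟨q, h3, fun h => h4 ((ix_preimage.1 h).congr fun n _ x _ => ?_)⟩
        rw [preimage_ext he ((h1 q).isOpen _ _)]
    · obtain ⟨u, h1, h2⟩ := h
      refine ⟨_, fun p => input_ext he (h1 p), fun S hS p => ?_⟩
      obtain ⟨q, h3, h4⟩ := h2 S hS p
      exact ⟨q, h3, fun h => h4 (ix_ext he h1 h)⟩
    · obtain ⟨u, h1, hm, h2⟩ := h
      refine ⟨_, fun p => input_ext he (h1 p), fun n k l hkl =>
        sUnion_subset_sUnion fun O hO => ⟨hO.1, hO.2.trans (hm n hkl)⟩, fun S hS p => ?_⟩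
      obtain ⟨q, h3, h4⟩ := h2 S hS p
      exact ⟨q, h3, fun h => h4 (ix_ext he h1 h)⟩
  filter_upwards [a.ev_X_mem, a.ev_nonempty_X, ev_call fun A => ev_call fun B => key A B]
    with w h1 h2 h3 using ⟨a.X w, h1, h2, h3⟩

/-- the reals of the extension form a set -/
theorem ev_line (hP : Closed P) :
    ∀ᶠ w in gen P, code (RM w.M) ∈ w.M ∧ code (LtM w.M) ∈ w.M := by
  have inj : Injective fun x : ℝ => {q : ℚ | (q : ℝ) < x} := fun a b h =>
    eq_of_forall_rat_lt_iff_lt fun q => Set.ext_iff.1 h q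
  have h0 : ∀ᶠ w in gen P, ∀ y ∈ w.M, w.In {q : ℚ | code q ∈ y} :=
    ev_all_named fun y hy => ev_sub hP fun q => Named.measurable_mem (namedC_rat q) hy
  have hin : ∀ᶠ w in gen P, ∀ x : ℝ, x ∈ RM w.M ↔ w.In x := by
    filter_upwards [h0, ev_fun (invFun fun x : ℝ => {q : ℚ | (q : ℝ) < x}),
      ev_all fun x : ℝ => (namedC_const_real (P := P) x).ev_mem] with w h1 h2 h3 x
    refine ⟨fun hx => ?_, h3 x⟩
    have h4 := h2 _ (h1 _ hx)
    have h5 : {q : ℚ | code q ∈ code x} = {q : ℚ | (q : ℝ) < x} :=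
      Set.ext fun q => code_mem_code (A := {q : ℚ | (q : ℝ) < x})
    rwa [h5, leftInverse_invFun inj x] at h4
  refine (namedC_set (A := fun w => RM w.M) (t := fun (x : ℝ) _ => x) namedC_const_real
    (Φ := fun _ _ => True) (fun _ => measurable_const) ?_).ev_mem.and
    (namedC_set (A := fun w => LtM w.M) (t := fun (x : ℝ × ℝ) _ => x)
      (fun x => (namedC_const_real x.1).prod (namedC_const_real x.2))
      (Φ := fun x _ => x.1 < x.2) (fun _ => measurable_const) ?_).ev_mem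
  · filter_upwards [hin] with w h z
    simp [h]
  · filter_upwards [hin, ev_in_prod ℝ ℝ] with w h h' z
    simp [LtM, h, h', and_assoc]

end

/-- `Φ` holds in the extensions by all countably closed orders which project onto a given one -/
def Forc (Φ : Set ZFSet.{0} → Prop) : Prop :=
  ∃ (P : Type) (_ : Preorder P) (_ : Nonempty P), Closed P ∧ ∀ (Q : Type) [Preorder Q]
    [Nonempty Q] (π : Q → P), Proj π → Closed Q → ∀ᶠ w in gen Q, Φ w.M

theorem Forc.and {Φ Ψ : Set ZFSet.{0} → Prop} (h : Forc Φ) (h' : Forc Ψ) :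
    Forc fun M => Φ M ∧ Ψ M := by
  obtain ⟨P, _, _, h1, h2⟩ := h
  obtain ⟨P', _, _, h3, h4⟩ := h'
  exact ⟨P × P', inferInstance, inferInstance, h1.prod h3, fun Q _ _ π hπ hQ =>
    (h2 Q _ hπ.fst hQ).and (h4 Q _ hπ.snd hQ)⟩

theorem forc_of {P : Type} [Preorder P] [Nonempty P] {Y : Type} [TopologicalSpace Y]
    (a : Approx P Y) (he : ∃ e : Y → ℝ, Topology.IsInducing e) {Φ : Set ZFSet.{0} → Prop}
    (h : ∀ M X, Rz M X a → Φ M) : Forc Φ :=
  ⟨P, inferInstance, inferInstance, a.closed, fun _ _ _ _ hπ hQ =>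
    (ev_realize (lift hπ hQ a) he.choose_spec).mono fun _ ⟨X, hX⟩ => h _ X (hX.of_lift hπ hQ)⟩

/-- `M` has a nonempty set of reals with all properties of the first list and none of the
second -/
def Sp (I J : List ℕ) (M : Set ZFSet.{0}) : Prop :=
  ∃ X : Set ℝ, code X ∈ M ∧ X.Nonempty ∧ (∀ i ∈ I, Property M X i) ∧ ∀ j ∈ J, ¬ Property M X j

/-- all the implications from the first list to the second fail in `M` -/
def Fails (I J : List ℕ) (M : Set ZFSet.{0}) : Prop :=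
  ∀ i ∈ I, ∀ j ∈ J, ¬ Sat M (implies i j) ![]

theorem Forc.model {Φ : Set ZFSet.{0} → Prop} (h : Forc Φ) :
    ∃ M, TransModelZFC M ∧ (∀ I J, Sp I J M → Fails I J M) ∧ Φ M := by
  obtain ⟨P, _, _, h1, h2⟩ := h
  obtain ⟨E, hE⟩ := exists_surjective_nat ℚ
  obtain ⟨w, a1, ⟨a2, a3⟩, a4, a5⟩ := (ev_zfc.and ((ev_line h1).and
    ((namedC_seq (f := fun _ n => (E n : ℝ)) fun n => namedC_const_real _).ev_mem.and
      (h2 P id ⟨monotone_id, fun _ p hp => ⟨p, hp, rfl⟩⟩ h1)))).exists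
  exact ⟨w.M, a1, fun I J ⟨X, b1, b2, b3, b4⟩ i hi j hj =>
    fails a1 hE a4 a2 a3 b1 b2 (b3 i hi) (b4 j hj), a5⟩

theorem forcA : Forc (Sp [0, 1, 2, 3, 12, 13, 18, 19, 20] [5, 6, 7, 14, 15]) := by
  obtain ⟨P, _, _, a, h1, h2, h3⟩ := X1.exists_X1
  refine forc_of a (exists_inducing ℕ fun _ => X1.Nd) fun M X ⟨a2, a3, h⟩ => ?_
  have := a3.to_subtype
  have gt := gamma_subset_tau (X := X)
  have tO := tau_subset_omega (X := X)
  have oo := omega_subset_open (X := X)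
  have b1 := (h .G .G).1 nofun h1
  have b2 := (h .G .G).2.1 nofun h1.posFin
  have b3 := (h .G .G).2.2.1 h1.posU
  have b4 := (h .T .O).2.2.2.1 h2
  have b5 := (h .T .Om).2.2.2.2.2.1 h3
  refine ⟨X, a2, a3, ?_, ?_⟩ <;> simp only [List.forall_mem_cons, List.not_mem_nil,
    false_imp_iff, implies_true, and_true]
  · exact ⟨b1, b1.mono Subset.rfl gt, b1.mono Subset.rfl (gt.trans tO),
      b1.mono Subset.rfl ((gt.trans tO).trans oo), b2.mono Subset.rfl gt,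
      b2.mono Subset.rfl (gt.trans tO), b3, b3.mono gt, b3.mono (gt.trans tO)⟩
  · exact ⟨fun h => b4 (S1In.mono h Subset.rfl (tO.trans oo)),
      fun h => b4 (S1In.mono h Subset.rfl oo), b4, fun h => b5 (SfinIn.mono h Subset.rfl tO), b5⟩

theorem forcB : Forc (Sp [4, 5, 6, 7, 14, 15] [10, 11, 17]) := by
  obtain ⟨P, _, _, a, h1, h2, h3⟩ := exists_X2
  refine forc_of a (exists_inducing ℕ fun _ => ZMod 2) fun M X ⟨a2, a3, h⟩ => ?_
  have := a3.to_subtype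
  have gt := gamma_subset_tau (X := X)
  have tO := tau_subset_omega (X := X)
  have oo := omega_subset_open (X := X)
  have b1 := (h .T .G).1 nofun h1
  have b2 := (h .T .G).2.1 nofun h1.posFin
  refine ⟨X, a2, a3, ?_, ?_⟩ <;> simp only [List.forall_mem_cons, List.not_mem_nil,
    false_imp_iff, implies_true, and_true]
  · exact ⟨b1, b1.mono Subset.rfl gt, b1.mono Subset.rfl (gt.trans tO),
      b1.mono Subset.rfl ((gt.trans tO).trans oo), b2.mono Subset.rfl gt,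
      b2.mono Subset.rfl (gt.trans tO)⟩
  · exact ⟨(h .Om .Om).2.2.2.1 h3.neg1, (h .O .O).2.2.2.1 h2, (h .Om .Om).2.2.2.2.2.1 h3⟩

theorem forcC : Forc (Sp [12, 14, 16] [0, 1, 4, 5, 8, 9, 18]) := by
  obtain ⟨P, _, _, a, h1, h2, h3⟩ := exists_X3
  refine forc_of a exists_inducing_bool fun M X ⟨a2, a3, h⟩ => ?_
  have := a3.to_subtype
  have gt := gamma_subset_tau (X := X)
  have tO := tau_subset_omega (X := X)
  have b1 := (h .Om .T).2.1 nofun h1
  have b2 := (h .G .T).2.2.2.2.1 h3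
  refine ⟨X, a2, a3, ?_, ?_⟩ <;> simp only [List.forall_mem_cons, List.not_mem_nil,
    false_imp_iff, implies_true, and_true]
  · exact ⟨b1.mono (gt.trans tO) Subset.rfl, b1.mono tO Subset.rfl, b1⟩
  · exact ⟨fun h => b2 (S1In.mono h Subset.rfl gt), b2, fun h => b2 (S1In.mono h gt gt),
      fun h => b2 (S1In.mono h gt Subset.rfl), fun h => b2 (S1In.mono h (gt.trans tO) gt),
      fun h => b2 (S1In.mono h (gt.trans tO) Subset.rfl), (h .G .G).2.2.2.2.2.2 h2⟩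

theorem forcD : Forc (Sp [20] [13]) := by
  obtain ⟨P, _, _, a, h1, h2⟩ := exists_X6
  refine forc_of a (exists_inducing ℕ fun j => Fin (j + 1)) fun M X ⟨a2, a3, h⟩ => ?_
  refine ⟨X, a2, a3, ?_, ?_⟩ <;> simp only [List.forall_mem_cons, List.not_mem_nil,
    false_imp_iff, implies_true, and_true]
  · exact (h .G .Om).2.2.1 h1
  · exact (h .G .Om).2.2.2.2.2.1 h2

theorem forcE : Forc (Sp [14] [6, 7]) := by
  obtain ⟨P, _, _, a, h1, h2⟩ := X4.exists_X4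
  refine forc_of a (exists_inducing ℕ fun _ => X1.Nd) fun M X ⟨a2, a3, h⟩ => ?_
  have b := (h .T .O).2.2.2.1 h2
  refine ⟨X, a2, a3, ?_, ?_⟩ <;> simp only [List.forall_mem_cons, List.not_mem_nil,
    false_imp_iff, implies_true, and_true]
  · exact (h .T .T).2.1 nofun h1
  · exact ⟨fun h => b (S1In.mono h Subset.rfl omega_subset_open), b⟩

open X7 in
theorem forcF : Forc (Sp [12] [2]) := by
  obtain ⟨P, _, _, a, h1, h2⟩ := exists_X7_of s_sim s_add s_neg (s_code s_sim) s_base (s_fus s_sim)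
    (s_pos s_sim (s_ctx s_ns s_up s_meas s_add) s_skel s_size
      (s_der s_calc (s_blk s_calc (s_zone s_calc) (s_gap s_calc (s_zone s_calc))) s_cov s_size)
      (s_stat s_calc))
  refine forc_of a (exists_inducing ℕ fun _ => ℕ) fun M X ⟨a2, a3, h⟩ => ?_
  refine ⟨X, a2, a3, ?_, ?_⟩ <;> simp only [List.forall_mem_cons, List.not_mem_nil,
    false_imp_iff, implies_true, and_true]
  · exact (h .G .T).2.1 nofun h1
  · exact (h .G .Om).2.2.2.1 h2

/-- one model of ZFC in which all the non-implications hold -/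
theorem one_model : ∃ M, TransModelZFC M ∧
    Fails [0, 1, 2, 3, 12, 13, 18, 19, 20] [5, 6, 7, 14, 15] M ∧
    Fails [4, 5, 6, 7, 14, 15] [10, 11, 17] M ∧ Fails [12, 14, 16] [0, 1, 4, 5, 8, 9, 18] M ∧
    Fails [20] [13] M ∧ Fails [14] [6, 7] M ∧ Fails [12] [2] M :=
  let ⟨M, h0, h, a, b, c, d, e, f⟩ :=
    (forcA.and (forcB.and (forcC.and (forcD.and (forcE.and forcF))))).model
  ⟨M, h0, h _ _ a, h _ _ b, h _ _ c, h _ _ d, h _ _ e, h _ _ f⟩

end Pool.Agent.P.MP_b17faa_gt.Fo
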