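import Pool.Agent.Lib.Helper87.Codes
import Pool.Agent.P.MP_b17faa_gt.FoDefs

/-!
Satisfaction of the formulas in transitive models, and the absoluteness of the basic notions.
-/

namespace Pool.Agent.P.MP_b17faa_gt.Fo

open FirstOrder FirstOrder.Language Pool.Agent.Lib.Helper87 Function Coded Fm

/-- satisfaction under a valuation of all variables -/
def sat (M : Set ZFSet.{0}) (φ : Fm) (n : ℕ) (v : ℕ → M) : Prop := Sat M (φ n) fun i => v i

set_option linter.defProp false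

variable {M : Set ZFSet.{0}}

theorem snoc_eq (n : ℕ) (v : ℕ → M) (a : M) :
    (Fin.snoc (fun i : Fin n => v i) a : Fin (n + 1) → M) =
      fun i : Fin (n + 1) => update v n a i := by
  funext i
  refine Fin.lastCases ?_ (fun i => ?_) i
  · simp
  · simp [update_of_ne i.2.ne]

section basic
variable {n x y a : ℕ} {v : ℕ → M} {φ ψ : Fm} {θ : ℕ → Fm}

theorem sat_mem (hx : x < n) (hy : y < n) : sat M (mem x y) n v ↔ (v x).1 ∈ (v y).1 := by
  let _ := memStr M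
  rw [sat, mem, dif_pos ⟨hx, hy⟩]
  exact BoundedFormula.realize_rel₂

theorem sat_eq (hx : x < n) (hy : y < n) : sat M (eq x y) n v ↔ (v x).1 = (v y).1 := by
  rw [sat, Fm.eq, dif_pos ⟨hx, hy⟩]
  exact Subtype.ext_iff

theorem sat_inst {k : ℕ} {φ : Language.graph.Formula (Fin k)} {x : Fin k → ℕ} (h : ∀ i, x i < n) :
    sat M (inst φ x) n v ↔ Sat M (BoundedFormula.relabel Sum.inr φ) fun i : Fin k => v (x i) := by
  let _ := memStr M
  rw [sat, inst, dif_pos h]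
  refine (BoundedFormula.realize_relabel (n := 0)).trans
    (Iff.trans ?_ (Formula.realize_relabel_sumInr φ).symm)
  exact iff_of_eq (congrArg _ (Subsingleton.elim _ _))

theorem sat_inst1 {k : ℕ} {φ : Language.graph.Formula (Fin (k + 1))} (hk : k ≤ n) (hx : x < n) :
    sat M (inst φ (Fin.snoc Fin.val x)) n v ↔
      Sat M (BoundedFormula.relabel Sum.inr φ) (Fin.snoc (fun i : Fin k => v i) (v x)) := by
  rw [sat_inst fun i => Fin.lastCases (by simpa) (fun i => by simpa using i.2.trans_le hk) i]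
  refine iff_of_eq (congrArg _ (funext fun i => ?_))
  refine Fin.lastCases ?_ (fun i => ?_) i <;> simp

theorem sat_inst2 {k : ℕ} {φ : Language.graph.Formula (Fin (k + 2))} (hk : k ≤ n) (hx : x < n)
    (hy : y < n) : sat M (inst φ (Fin.snoc (Fin.snoc Fin.val x) y)) n v ↔
      Sat M (BoundedFormula.relabel Sum.inr φ)
        (Fin.snoc (Fin.snoc (fun i : Fin k => v i) (v x)) (v y)) := by
  rw [sat_inst fun i => Fin.lastCases (by simpa) (fun i =>
    Fin.lastCases (by simpa) (fun i => by simpa using i.2.trans_le hk) i) i]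
  refine iff_of_eq (congrArg _ (funext fun i => ?_))
  refine Fin.lastCases ?_ (fun i => Fin.lastCases ?_ (fun i => ?_) i) i <;> simp

theorem sat_imp : sat M (φ.imp ψ) n v ↔ sat M φ n v → sat M ψ n v := Iff.rfl

theorem sat_not : sat M φ.not n v ↔ ¬ sat M φ n v := Iff.rfl

theorem sat_and : sat M (φ.and ψ) n v ↔ sat M φ n v ∧ sat M ψ n v :=
  @BoundedFormula.realize_inf _ _ (memStr M) _ _ _ _ _ _

theorem sat_or : sat M (φ.or ψ) n v ↔ sat M φ n v ∨ sat M ψ n v :=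
  @BoundedFormula.realize_sup _ _ (memStr M) _ _ _ _ _ _

theorem sat_iff : sat M (φ.iff ψ) n v ↔ (sat M φ n v ↔ sat M ψ n v) :=
  @BoundedFormula.realize_iff _ _ (memStr M) _ _ _ _ _ _

theorem sat_all : sat M (all θ) n v ↔
    ∀ x, ∀ h : x ∈ M, sat M (θ n) (n + 1) (update v n ⟨x, h⟩) := by
  simp only [sat, ← snoc_eq]
  exact Subtype.forall

theorem sat_ex : sat M (ex θ) n v ↔
    ∃ x, ∃ h : x ∈ M, sat M (θ n) (n + 1) (update v n ⟨x, h⟩) := by
  simp only [sat, ← snoc_eq]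
  exact (@BoundedFormula.realize_ex _ _ (memStr M) _ _ _ _ _).trans Subtype.exists

theorem sat_allIn (hM : TransModelZFC M) (ha : a < n) : sat M (allIn a θ) n v ↔
    ∀ x, ∀ h : x ∈ (v a).1, sat M (θ n) (n + 1) (update v n ⟨x, hM.trans _ (v a).2 x h⟩) := by
  simp (disch := omega) only [allIn, sat_all, sat_imp, sat_mem, update_self, update_of_ne]
  exact ⟨fun h x hx => h x _ hx, fun h x _ hx => h x hx⟩

theorem sat_exIn (hM : TransModelZFC M) (ha : a < n) : sat M (exIn a θ) n v ↔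
    ∃ x, ∃ h : x ∈ (v a).1, sat M (θ n) (n + 1) (update v n ⟨x, hM.trans _ (v a).2 x h⟩) := by
  simp (disch := omega) only [exIn, sat_ex, sat_and, sat_mem, update_self, update_of_ne]
  exact ⟨fun ⟨x, _, hx, h⟩ => ⟨x, hx, h⟩, fun ⟨x, hx, h⟩ => ⟨x, hM.trans _ (v a).2 x hx, hx, h⟩⟩

theorem sat_isSet (ha : a < n) : sat M (isSet a θ) n v ↔
    ∀ x, ∀ h : x ∈ M, (x ∈ (v a).1 ↔ sat M (θ n) (n + 1) (update v n ⟨x, h⟩)) := by
  simp (disch := omega) only [isSet, sat_all, sat_iff, sat_mem, update_self, update_of_ne]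

end basic

/-- the rules for the logical symbols -/
def logic (hM : TransModelZFC M) :=
  And.intro (@sat_mem M) <| And.intro (@sat_eq M) <| And.intro (@sat_imp M) <|
  And.intro (@sat_not M) <| And.intro (@sat_and M) <| And.intro (@sat_or M) <|
  And.intro (@sat_iff M) <| And.intro (@sat_all M) <| And.intro (@sat_ex M) <|
  And.intro (fun n a v θ => @sat_allIn M n a v θ hM) <|
  And.intro (fun n a v θ => @sat_exIn M n a v θ hM) <| And.intro (@sat_isSet M) <|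
  And.intro (fun (v : ℕ → M) n a => update_self n a v) <|
  And.intro (fun (v : ℕ → M) n m a (h : m ≠ n) => update_of_ne h a v) @exists_prop

variable (hM : TransModelZFC M)
include hM

theorem ext_M {a b : ZFSet.{0}} (ha : a ∈ M) (hb : b ∈ M) {p : ZFSet.{0} → Prop}
    (h : ∀ x, x ∈ b ↔ p x) : (∀ x ∈ M, x ∈ a ↔ p x) ↔ a = b := by
  refine ⟨fun h' => ZFSet.ext fun x => ⟨fun hx => (h x).2 ((h' x (hM.trans _ ha _ hx)).1 hx),
    fun hx => (h' x (hM.trans _ hb _ hx)).2 ((h x).1 hx)⟩, ?_⟩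
  rintro rfl x -
  exact h x

theorem sing_mem {x : ZFSet.{0}} (hx : x ∈ M) : ({x} : ZFSet) ∈ M := by
  simpa using hM.pair x hx x hx

theorem pair_mem {x y : ZFSet.{0}} (hx : x ∈ M) (hy : y ∈ M) : ZFSet.pair x y ∈ M :=
  hM.pair _ (sing_mem hM hx) _ (hM.pair x hx y hy)

theorem mem_of_pair {x y f : ZFSet.{0}} (hf : f ∈ M) (h : ZFSet.pair x y ∈ f) : x ∈ M ∧ y ∈ M := by
  have h1 : ({x, y} : ZFSet) ∈ M := hM.trans _ (hM.trans _ hf _ h) _ (by simp [ZFSet.pair])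
  exact ⟨hM.trans _ h1 _ (by simp), hM.trans _ h1 _ (by simp)⟩

theorem nat_mem (k : ℕ) : code k ∈ M := hM.trans _ hM.infinity _ (mem_omega_iff.2 ⟨k, rfl⟩)

theorem insert_mem {x y : ZFSet.{0}} (hx : x ∈ M) (hy : y ∈ M) : insert x y ∈ M := by
  rw [ZFSet.insert_eq]
  exact hM.union _ (hM.pair _ (sing_mem hM hx) _ hy)

/-- finite subsets of `M` are elements of `M` -/
theorem finite_mem {S : Set ZFSet.{0}} (hS : S.Finite) (h : S ⊆ M) :
    ∃ s ∈ M, ∀ x, x ∈ s ↔ x ∈ S := by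
  induction S, hS using Set.Finite.induction_on with
  | empty => exact ⟨∅, nat_mem hM 0, by simp⟩
  | @insert x S _ _ ih =>
    obtain ⟨s, h1, h2⟩ := ih ((Set.subset_insert _ _).trans h)
    exact ⟨insert x s, insert_mem hM (h (Set.mem_insert _ _)) h1, by simp [h2]⟩

theorem finite_mem' {s : ZFSet.{0}} (hs : {x | x ∈ s}.Finite) (h : ∀ x ∈ s, x ∈ M) : s ∈ M := by
  obtain ⟨t, h1, h2⟩ := finite_mem hM hs h
  rwa [ZFSet.ext (x := s) (y := t) fun x => (h2 x).symm]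

variable {n x y z a b : ℕ} {v : ℕ → M}

theorem sat_sub (ha : a < n) (hb : b < n) : sat M (sub a b) n v ↔ (v a).1 ⊆ (v b).1 := by
  simp (disch := omega) only [sub, logic hM]
  rfl

theorem sat_union (ha : a < n) (hb : b < n) :
    sat M (union a b) n v ↔ (v a).1 = ZFSet.sUnion (v b).1 := by
  simp (disch := omega) only [union, logic hM]
  exact ext_M hM (v a).2 (hM.union _ (v b).2) fun _ => ZFSet.mem_sUnion

theorem sat_doub (hz : z < n) (hx : x < n) (hy : y < n) :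
    sat M (doub z x y) n v ↔ (v z).1 = {(v x).1, (v y).1} := by
  simp (disch := omega) only [doub, logic hM]
  exact ext_M hM (v z).2 (hM.pair _ (v x).2 _ (v y).2) fun _ => ZFSet.mem_pair

theorem sat_pair (hz : z < n) (hx : x < n) (hy : y < n) :
    sat M (pair z x y) n v ↔ (v z).1 = ZFSet.pair (v x).1 (v y).1 := by
  simp (disch := omega) only [pair, logic hM, sat_doub hM]
  exact ext_M hM (v z).2 (pair_mem hM (v x).2 (v y).2) fun _ => by simp [ZFSet.pair]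

theorem sat_rel (ha : a < n) (hx : x < n) (hy : y < n) :
    sat M (rel a x y) n v ↔ ZFSet.pair (v x).1 (v y).1 ∈ (v a).1 := by
  simp (disch := omega) only [rel, logic hM, sat_pair hM]
  simp

theorem sat_ind (ha : a < n) :
    sat M (ind a) n v ↔ ∅ ∈ (v a).1 ∧ ∀ x ∈ (v a).1, insert x x ∈ (v a).1 := by
  simp (disch := omega) only [ind, logic hM]
  refine and_congr ⟨?_, fun h => ⟨∅, h, by simp⟩⟩ (forall₂_congr fun x hx => ?_)
  · rintro ⟨e, h1, h2⟩
    rwa [← (ZFSet.eq_empty e).2 fun t ht => h2 t (hM.trans _ (hM.trans _ (v a).2 _ h1) _ ht) ht]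
  · have h0 := hM.trans _ (v a).2 _ hx
    have h1 : ∀ t, t ∈ insert x x ↔ t ∈ x ∨ t = x := fun t => by simp [or_comm]
    refine ⟨?_, fun h => ⟨_, h, fun t _ => h1 t⟩⟩
    rintro ⟨s, h2, h3⟩
    rwa [← (ext_M hM (hM.trans _ (v a).2 _ h2) (insert_mem hM h0 h0) h1).1 h3]

theorem sat_nat (hx : x < n) : sat M (nat x) n v ↔ ∃ k : ℕ, code k = (v x).1 := by
  simp (disch := omega) only [nat, logic hM, sat_ind hM]
  refine ⟨fun h => mem_omega_iff.1 (h _ hM.infinity ⟨ZFSet.omega_zero, fun _ => ZFSet.omega_succ⟩),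
    ?_⟩
  rintro ⟨k, hk⟩ a - ⟨h1, h2⟩
  rw [← hk]
  clear hk
  induction k with
  | zero => exact h1
  | succ k ih => exact h2 _ ih

/-- single valued relations -/
def Func (f : ZFSet.{0}) : Prop := ∀ x y z, ZFSet.pair x y ∈ f → ZFSet.pair x z ∈ f → y = z

theorem sat_func (ha : a < n) : sat M (func a) n v ↔ Func (v a).1 := by
  simp (disch := omega) only [Fm.func, logic hM, sat_rel hM]
  exact ⟨fun h x y z h1 h2 => h x (mem_of_pair hM (v a).2 h1).1 y (mem_of_pair hM (v a).2 h1).2 z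
    (mem_of_pair hM (v a).2 h2).2 h1 h2, fun h x _ y _ z _ => h x y z⟩

theorem sat_fin (ha : a < n) : sat M (fin a) n v ↔ {x | x ∈ (v a).1}.Finite := by
  simp (disch := omega) only [fin, logic hM, sat_rel hM, sat_nat hM, sat_func hM]
  constructor
  · rintro ⟨_, -, ⟨k, rfl⟩, f, -, h1, h2⟩
    refine ((Set.finite_Iio k).biUnion (t := fun i => {y | ZFSet.pair (code i) y ∈ f})
      fun i _ => Set.Subsingleton.finite fun y hy z hz => h1 _ y z hy hz).subset fun y hy => ?_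
    obtain ⟨_, h3, h4⟩ := h2 y hy
    obtain ⟨i, h5, rfl⟩ := mem_code_nat.1 h3
    exact Set.mem_biUnion h5 h4
  · intro h
    obtain ⟨k, e, -, he⟩ := h.fin_param
    obtain ⟨f, h1, h2⟩ := finite_mem hM (Set.finite_range fun i => ZFSet.pair (code i.1) (e i)) (by
      rintro _ ⟨i, rfl⟩
      exact pair_mem hM (nat_mem hM _) (hM.trans _ (v a).2 _ (he.subset ⟨i, rfl⟩)))
    refine ⟨_, nat_mem hM k, ⟨k, rfl⟩, f, h1, fun x y z hy hz => ?_, fun y hy => ?_⟩
    · obtain ⟨i, hi⟩ := (h2 _).1 hy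
      obtain ⟨j, hj⟩ := (h2 _).1 hz
      rw [ZFSet.pair_inj] at hi hj
      obtain rfl : i = j := Fin.ext (code_inj.1 (hi.1.trans hj.1.symm))
      exact hi.2.symm.trans hj.2
    · obtain ⟨i, rfl⟩ := he.symm.subset hy
      exact ⟨_, mem_code_nat.2 ⟨i, i.2, rfl⟩, (h2 _).2 ⟨i, rfl⟩⟩

theorem finSep_iff {A : ZFSet.{0}} (hA : A ∈ M) (p : ZFSet.{0} → Prop) :
    (∃ s ∈ M, {x | x ∈ s}.Finite ∧ ∀ x ∈ A, p x → x ∈ s) ↔ {x | x ∈ A ∧ p x}.Finite := by
  refine ⟨fun ⟨s, _, h1, h2⟩ => h1.subset fun x hx => h2 x hx.1 hx.2, fun h => ?_⟩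
  obtain ⟨s, h1, h2⟩ := finite_mem hM h fun x hx => hM.trans _ hA _ hx.1
  exact ⟨s, h1, h.subset fun x hx => (h2 x).1 hx, fun x a b => (h2 x).2 ⟨a, b⟩⟩

/-- sequences -/
def IsSeq (f : ZFSet.{0}) : Prop :=
  ∃ g : ℕ → ZFSet.{0}, ∀ z, z ∈ f ↔ ∃ k, ZFSet.pair (code k) (g k) = z

theorem sat_seq (ha : a < n) : sat M (seq a) n v ↔ IsSeq (v a).1 := by
  simp (disch := omega) only [seq, logic hM, sat_rel hM, sat_nat hM, sat_func hM, sat_pair hM]
  constructor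
  · rintro ⟨h1, h2, h3⟩
    choose g _ hg using fun k => h3 _ (nat_mem hM k) ⟨k, rfl⟩
    refine ⟨g, fun z => ⟨fun hz => ?_, ?_⟩⟩
    · obtain ⟨_, -, y, -, ⟨k, rfl⟩, rfl⟩ := h2 z hz
      exact ⟨k, by rw [h1 _ _ _ hz (hg k)]⟩
    · rintro ⟨k, rfl⟩
      exact hg k
  · rintro ⟨g, hg⟩
    have h0 := fun k => (mem_of_pair hM (v a).2 ((hg _).2 ⟨k, rfl⟩)).2
    refine ⟨fun x y z hy hz => ?_, fun z hz => ?_, ?_⟩
    · obtain ⟨i, hi⟩ := (hg _).1 hy
      obtain ⟨j, hj⟩ := (hg _).1 hz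
      rw [ZFSet.pair_inj] at hi hj
      obtain rfl : i = j := code_inj.1 (hi.1.trans hj.1.symm)
      exact hi.2.symm.trans hj.2
    · obtain ⟨k, rfl⟩ := (hg z).1 hz
      exact ⟨_, nat_mem hM k, _, h0 k, ⟨k, rfl⟩, rfl⟩
    · rintro _ - ⟨k, rfl⟩
      exact ⟨_, h0 k, (hg _).2 ⟨k, rfl⟩⟩

/-- the rules for the basic notions -/
def basic :=
  And.intro (logic hM) <| And.intro (@sat_sub M hM) <| And.intro (@sat_union M hM) <|
  And.intro (@sat_doub M hM) <| And.intro (@sat_pair M hM) <| And.intro (@sat_rel M hM) <|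
  And.intro (@sat_ind M hM) <| And.intro (@sat_nat M hM) <| And.intro (@sat_func M hM) <|
  And.intro (@sat_fin M hM) (@sat_seq M hM)

/-- separation for the formulas with named variables -/
theorem sep (φ : Fm) (n : ℕ) (v : ℕ → M) {a : ZFSet.{0}} (ha : a ∈ M) : ∃ b ∈ M, ∀ x,
    x ∈ b ↔ ∃ h : x ∈ a, sat M φ (n + 1) (update v n ⟨x, hM.trans _ ha _ h⟩) := by
  obtain ⟨b, hb⟩ := hM.separation n (φ (n + 1)) (fun i => v i) ⟨a, ha⟩
  simp only [snoc_eq] at hb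
  refine ⟨b, b.2, fun x => ⟨fun hx => ?_, fun ⟨h1, h2⟩ => (hb ⟨x, _⟩).2 ⟨h1, h2⟩⟩⟩
  obtain ⟨h1, h2⟩ := (hb ⟨x, hM.trans _ b.2 _ hx⟩).1 hx
  exact ⟨h1, h2⟩

theorem power_mem {a : ZFSet.{0}} (ha : a ∈ M) : ∃ p ∈ M, ∀ x ∈ M, x ∈ p ↔ x ⊆ a := by
  obtain ⟨p, h1, h2⟩ := hM.power a ha
  obtain ⟨b, h3, h4⟩ := sep hM (sub 1 0) 1 (fun _ => ⟨a, ha⟩) h1
  simp (disch := omega) only [basic hM] at h4
  exact ⟨b, h3, fun x hx => ⟨fun h => ((h4 x).1 h).2, fun h => (h4 x).2 ⟨h2 x hx h, h⟩⟩⟩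

theorem sat_close {k : ℕ} {φ : Fm} : Sat M (close k φ) ![] ↔ ∀ v, sat M φ k v := by
  let _ := memStr M
  have h : Sat M (close k φ) ![] ↔ ∀ xs : Fin k → M, Sat M (φ k) xs := by
    refine Iff.trans ?_ (BoundedFormula.realize_alls (φ := φ k) (v := (Empty.elim : Empty → M)))
    rw [Sat, Formula.Realize, Subsingleton.elim ![] default]
    rfl
  refine h.trans ⟨fun h v => h _, fun h xs => ?_⟩
  have := h fun i => if hi : i < k then xs ⟨i, hi⟩ else ⟨_, hM.infinity⟩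
  simpa [sat] using this

/-- transitive models satisfy the axioms -/
theorem models_ZFC : ∀ φ ∈ ZFC, Sat M φ ![] := by
  rintro φ ((h | h) | h)
  · simp only [Set.mem_insert_iff, Set.mem_singleton_iff] at h
    rcases h with rfl | rfl | rfl | rfl | rfl | rfl | rfl <;> rw [sat_close hM] <;> intro v <;>
      simp (disch := omega) only [basic hM]
    · exact fun a ha b hb => (ext_M hM ha hb fun _ => Iff.rfl).1
    · rintro a - ⟨x, -, hx⟩
      obtain ⟨y, h1, h2⟩ := ZFSet.regularity a fun h => ZFSet.notMem_empty x (h ▸ hx)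
      exact ⟨y, h1, fun z h3 h4 => ZFSet.notMem_empty z (h2 ▸ ZFSet.mem_inter.2 ⟨h4, h3⟩)⟩
    · exact fun x hx y hy => ⟨_, hM.pair x hx y hy, rfl⟩
    · exact fun a ha => ⟨_, hM.union a ha, rfl⟩
    · exact fun a ha => power_mem hM ha
    · exact ⟨_, hM.infinity, ZFSet.omega_zero, fun _ => ZFSet.omega_succ⟩
    · intro a ha h1 h2
      obtain ⟨c, h3, h4⟩ := hM.choice a ha
        (fun x hx e => let ⟨t, _, ht⟩ := h1 x hx; ZFSet.notMem_empty t (e ▸ ht))
        fun x hx y hy e => (ZFSet.eq_empty _).2 fun t ht =>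
          e (h2 x hx y hy ⟨t, ZFSet.mem_inter.1 ht⟩)
      refine ⟨c, h3, fun x hx => ?_⟩
      obtain ⟨t, ⟨h5, h6⟩, h7⟩ := h4 x hx
      exact ⟨t, h5, h6, fun s h8 h9 => h7 s ⟨h8, h9⟩⟩
  · obtain ⟨k, ψ, rfl⟩ := Set.mem_iUnion.1 h
    rw [sepAx, sat_close hM]
    intro v
    simp (disch := omega) only [logic hM, sat_inst1]
    intro a ha
    obtain ⟨b, hb⟩ := hM.separation k (BoundedFormula.relabel (k := 0) Sum.inr ψ)
      (fun i => v i) ⟨a, ha⟩
    exact ⟨b, b.2, fun x hx => hb ⟨x, hx⟩⟩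
  · obtain ⟨k, ψ, rfl⟩ := Set.mem_iUnion.1 h
    rw [replAx, sat_close hM]
    intro v
    simp (disch := omega) only [logic hM, sat_inst2]
    intro a ha h
    obtain ⟨b, hb⟩ := hM.replacement k (BoundedFormula.relabel (k := 0) Sum.inr ψ)
      (fun i => v i) ⟨a, ha⟩ fun x hx => by
        obtain ⟨y, hy, h1, h2⟩ := h x hx
        exact ⟨⟨y, hy⟩, h1, fun z hz => Subtype.ext (h2 z z.2 hz)⟩
    refine ⟨b, b.2, fun x hx => ?_⟩
    obtain ⟨y, h1, h2⟩ := hb ⟨x, hM.trans _ ha _ hx⟩ hx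
    exact ⟨y, h1, h2⟩

omit hM in
/-- the universe of all sets -/
theorem univ_model : TransModelZFC Set.univ := by
  refine ⟨fun _ _ _ _ => trivial, fun _ _ _ _ => trivial, fun _ _ => trivial, trivial,
    fun x _ => ⟨x.powerset, trivial, fun z _ => ZFSet.mem_powerset.2⟩, fun n φ v a =>
    ⟨⟨a.1.sep fun x => Sat _ φ (Fin.snoc v ⟨x, trivial⟩), trivial⟩, fun x =>
      ZFSet.mem_sep (p := fun x => Sat _ φ (Fin.snoc v ⟨x, trivial⟩))⟩,
    fun n φ v a h => ?_, fun a _ h1 h2 => ?_⟩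
  · choose f hf using fun x : a.1 => (h ⟨x, trivial⟩ x.2).exists
    exact ⟨⟨ZFSet.range fun x => (f x).1, trivial⟩, fun x hx =>
      ⟨f ⟨x, hx⟩, ZFSet.mem_range.2 ⟨_, rfl⟩, hf ⟨x, hx⟩⟩⟩
  · choose f hf using fun x : a => (ZFSet.eq_empty_or_nonempty x.1).resolve_left (h1 x x.2)
    refine ⟨ZFSet.range f, trivial, fun x hx => ⟨f ⟨x, hx⟩,
      ⟨hf ⟨x, hx⟩, ZFSet.mem_range.2 ⟨_, rfl⟩⟩, fun z ⟨h3, h4⟩ => ?_⟩⟩
    obtain ⟨⟨y, hy⟩, rfl⟩ := ZFSet.mem_range.1 h4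
    by_cases e : x = y
    · subst e
      rfl
    · exact absurd (ZFSet.mem_inter.2 ⟨h3, hf ⟨y, hy⟩⟩) (h2 x hx y hy e ▸ ZFSet.notMem_empty _)

end Pool.Agent.P.MP_b17faa_gt.Fo
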