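import Pool.Agent.P.MP_b17faa_gt.Frame2

/-!
The realization theorem: the combinatorial conditions give a model of ZFC and a set of reals
with the corresponding selection properties.
-/

namespace Pool.Agent.P.MP_b17faa_gt

open Filter Set Function Pool.Agent.Lib.Helper87 Coded

theorem ix_tr {X : Set ℝ} {ι : Type} {c : Cl} {u : ι → Set ℝ} {S : Set ι} :
    Ix c univ (fun i => tr X (u i)) S ↔ Ix c X u S := by
  have := ix_preimage (e := (Subtype.val : X → ℝ)) (B := univ) (c := c) (S := S) (u := u)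
  rw [image_univ, Subtype.range_coe] at this
  exact this.symm

theorem tr_eq_univ {X O : Set ℝ} : tr X O = univ ↔ X ⊆ O := by
  simp [tr, eq_univ_iff_forall, subset_def]

theorem isOpen_tr {X O : Set ℝ} (h : IsOpen O) : IsOpen (tr X O) :=
  h.preimage continuous_subtype_val

theorem Ix.tr_mem_cov {X : Set ℝ} (hX : X.Nonempty) {ι : Type} {c : Cl} {u : ι → Set ℝ}
    {S : Set ι} (h : Ix c X u S) (ho : ∀ i ∈ S, IsOpen (u i)) (hp : ∀ i ∈ S, ¬ X ⊆ u i) :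
    (fun i => tr X (u i)) '' S ∈ Cov X c :=
  have := hX.to_subtype
  (ix_tr.2 h).mem_cov (fun i hi => isOpen_tr (ho i hi)) fun i hi e => hp i hi (tr_eq_univ.1 e)

theorem finite_subset_mono {α : Type} {v : ℕ → Set α} (hv : Monotone v) {F : Set (Set α)}
    (hF : F.Finite) (h : F ⊆ range v) : ∃ k, ⋃₀ F ⊆ v k := by
  induction F, hF using Finite.induction_on with
  | empty => exact ⟨0, by simp⟩
  | @insert U F _ _ ih =>
    obtain ⟨k, hk⟩ := ih ((subset_insert _ _).trans h)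
    obtain ⟨l, rfl⟩ := h (mem_insert _ _)
    exact ⟨max k l, by
      rw [sUnion_insert]
      exact union_subset (hv (le_max_right _ _)) (hk.trans (hv (le_max_left _ _)))⟩

variable {P : Type} [Preorder P]

namespace Approx

theorem Input.mono {Y : Type} [TopologicalSpace Y] {a : Approx P Y} {A : Cl} {u : ℕ → ℕ → Set Y}
    {p q : P} (h : a.Input A u p) (hq : q ≤ p) : a.Input A u q :=
  ⟨h.isOpen, fun r hr => h.proper r (hr.trans hq), fun r hr => h.ix r (hr.trans hq)⟩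

variable (a : Approx P ℝ)

theorem subset_X {w : World P} {p : P} (hp : p ∈ w.G) : a.pt p ⊆ a.X w := fun _ hx => ⟨p, hp, hx⟩

theorem ix_X {w : World P} (hw : w.Generic) {p : P} (hp : p ∈ w.G) {ι : Type} {c : Cl}
    {u : ι → Set ℝ} {S : Set ι} (h : ∀ r ≤ p, Ix c (a.pt r) u S) : Ix c (a.X w) u S := by
  refine ix_of_finite fun F h1 h2 => ?_
  obtain ⟨r, -, h3, h4⟩ := hw.dir_finset hp h2.toFinset (fun x q => x ∈ a.pt q)
    (fun x p q h h' => a.anti p q h h') fun x hx => h1 (h2.mem_toFinset.1 hx)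
  exact (h r h3).anti fun x hx => h4 x (h2.mem_toFinset.2 hx)

theorem ev_input (c : Cl) (u : ℕ → ℕ → Set ℝ) : ∀ᶠ w in gen P, (∀ n k, IsOpen (u n k)) →
    (∀ n k, ¬ a.X w ⊆ u n k) → (∀ n, Ix c (a.X w) (u n) univ) → ∃ p ∈ w.G, a.Input c u p := by
  refine ev_imp fun ho => ?_
  filter_upwards [ev_generic, ev_dense0 (fun r => a.Input c u r ∨ (∃ n, ¬ Ix c (a.pt r) (u n) univ) ∨
    ∃ n k, ∀ s ≤ r, a.pt s ⊆ u n k) fun q => by
      by_cases h1 : ∃ r ≤ q, ∃ n, ¬ Ix c (a.pt r) (u n) univ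
      · obtain ⟨r, h1, h2⟩ := h1
        exact ⟨r, h1, Or.inr (Or.inl h2)⟩
      by_cases h2 : ∃ r ≤ q, ∃ n k, ∀ s ≤ r, a.pt s ⊆ u n k
      · obtain ⟨r, h1, h2⟩ := h2
        exact ⟨r, h1, Or.inr (Or.inr h2)⟩
      push Not at h1 h2
      exact ⟨q, le_rfl, Or.inl ⟨ho, h2, h1⟩⟩] with w hw ⟨r, hr, h⟩ h1 h2
  rcases h with h | ⟨n, h⟩ | ⟨n, k, h⟩
  · exact ⟨r, hr, h⟩
  · exact absurd ((h2 n).anti (a.subset_X hr)) h
  · refine absurd (fun x ⟨p, h3, h4⟩ => ?_) (h1 n k)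
    obtain ⟨s, -, h5, h6⟩ := hw.dir r hr p h3
    exact h s h5 (a.anti _ _ h6 h4)

/-- the common part of the positive statements -/
theorem ev_pos {T ι : Type} (c B : Cl) (g : (ℕ → ℕ → Set ℝ) → ℕ → ℕ → Set ℝ)
    (H : (ℕ → ℕ → Set ℝ) → Prop) (v : (ℕ → ℕ → Set ℝ) → T → ι → Set ℝ) (S : T → Set ι)
    (R : T → Prop)
    (h : ∀ u p, a.Input c u p → H u → ∃ q ≤ p, ∃ f, R f ∧ ∀ r ≤ q, Ix B (a.pt r) (v u f) (S f)) :
    ∀ᶠ w in gen P, ∀ u, w.In u → (∀ n k, IsOpen (g u n k)) → (∀ n k, ¬ a.X w ⊆ g u n k) →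
      (∀ n, Ix c (a.X w) (g u n) univ) → H (g u) →
        ∃ f, w.In f ∧ R f ∧ Ix B (a.X w) (v (g u) f) (S f) := by
  refine ev_all fun u => ?_
  filter_upwards [ev_generic, a.ev_input c (g u), ev_dense_ex fun q (f : T) =>
    R f ∧ ∀ r ≤ q, Ix B (a.pt r) (v (g u) f) (S f)] with w hw h1 h2 h3 h4 h5 h6
  obtain ⟨p, hp, h7⟩ := h1 h3 h4 h5
  obtain ⟨r, hr, -, f, h8, h9⟩ := h2 p hp fun q hq => h _ q (h7.mono hq) h6
  exact ⟨f, h8, h9.1, a.ix_X hw hr h9.2⟩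

theorem ev_pos1 {A B : Cl} (hA : A ≠ .O) (h : a.Pos1 A B) :
    ∀ᶠ w in gen P, S1In w.M (Cov (a.X w) A) (Cov (a.X w) B) := by
  filter_upwards [a.ev_capture, a.ev_nonempty_X, a.ev_pos A B id (fun _ => True)
    (fun u (f : ℕ → ℕ) n => u n (f n)) (fun _ => univ) (fun _ => True)
    (fun u p h1 _ => by simpa using h u p h1),
    ev_all fun u : ℕ → ℕ → Set ℝ => ev_all fun f : ℕ → ℕ => a.ev_build1 fun n => u n (f n)]
    with w h1 h2 h3 h4 𝒰 h𝒰 h5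
  obtain ⟨u, a1, a2, a3, a4⟩ := h1 𝒰 h𝒰 A hA h5
  have pr : ∀ n k, ¬ a.X w ⊆ u n k := fun n k e =>
    (Cov.open_cover (h5 n)).2.2 (tr_eq_univ.2 e ▸ a3 n k)
  obtain ⟨f, b1, -, b2⟩ := h3 u a1 a2 pr a4 trivial
  refine ⟨_, h4 u a1 f b1, fun n => a3 n _, ?_⟩
  rw [← image_univ]
  exact b2.tr_mem_cov h2 (fun _ _ => a2 _ _) fun _ _ => pr _ _

theorem ev_posFin {A B : Cl} (hA : A ≠ .O) (h : a.PosFin A B) :
    ∀ᶠ w in gen P, SfinIn w.M (Cov (a.X w) A) (Cov (a.X w) B) := by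
  filter_upwards [a.ev_capture, a.ev_nonempty_X, a.ev_pos A B id (fun _ => True)
    (fun u (_ : Set (ℕ × ℕ)) => uncurry u) id (fun S => ∀ n, {k | (n, k) ∈ S}.Finite)
    (fun u p h1 _ => h u p h1),
    ev_all fun u : ℕ → ℕ → Set ℝ => ev_all fun S : Set (ℕ × ℕ) =>
      a.ev_build2 u fun n => {k | (n, k) ∈ S}] with w h1 h2 h3 h4 𝒰 h𝒰 h5
  obtain ⟨u, a1, a2, a3, a4⟩ := h1 𝒰 h𝒰 A hA h5
  have pr : ∀ n k, ¬ a.X w ⊆ u n k := fun n k e =>
    (Cov.open_cover (h5 n)).2.2 (tr_eq_univ.2 e ▸ a3 n k)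
  obtain ⟨S, b1, b3, b2⟩ := h3 u a1 a2 pr a4 trivial
  refine ⟨_, h4 u a1 S b1, fun n => ⟨image_subset_iff.2 fun k _ => a3 n k, (b3 n).image _⟩, ?_⟩
  convert b2.tr_mem_cov h2 (fun _ _ => a2 _ _) fun _ _ => pr _ _ using 1
  ext U
  simp [uncurry]

theorem ev_posU {B : Cl} (h : a.PosU B) :
    ∀ᶠ w in gen P, UfinIn w.M (Cov (a.X w) .G) (Cov (a.X w) B) := by
  filter_upwards [a.ev_capture, a.ev_nonempty_X, a.ev_pos .G B
    (fun u n k => ⋃ j ∈ Iic k, u n j) (fun u => ∀ n, Monotone (u n))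
    (fun u (f : ℕ → ℕ) n => u n (f n)) (fun _ => univ) (fun _ => True)
    (fun u p h1 h2 => by simpa using h u p h1 h2),
    ev_all fun u : ℕ → ℕ → Set ℝ => ev_all fun f : ℕ → ℕ => a.ev_build2 u fun n => Iic (f n)]
    with w h1 h2 h3 h4 𝒰 h𝒰 h5 h6
  obtain ⟨u, a1, a2, a3, a4⟩ := h1 𝒰 h𝒰 .G nofun h5
  have un : ∀ n k, ⋃₀ ((fun j => tr (a.X w) (u n j)) '' Iic k) =
      tr (a.X w) (⋃ j ∈ Iic k, u n j) := fun n k => by
    ext x
    simp [tr]
  have pr : ∀ n k, ¬ a.X w ⊆ ⋃ j ∈ Iic k, u n j := fun n k e =>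
    h6 n ⟨_, image_subset_iff.2 fun j _ => a3 n j, (finite_Iic k).image _,
      (un n k).trans (tr_eq_univ.2 e)⟩
  have op : ∀ n k, IsOpen (⋃ j ∈ Iic k, u n j) := fun n k => isOpen_biUnion fun j _ => a2 n j
  obtain ⟨f, b1, -, b2⟩ := h3 u a1 op pr
    (fun n => ⟨infinite_univ, fun x hx => ((a4 n).2 x hx).subset fun k hk =>
      ⟨trivial, fun h' => hk.2 (mem_biUnion (mem_Iic.2 le_rfl) h')⟩⟩)
    fun n k l hkl => biUnion_subset_biUnion_left (Iic_subset_Iic.2 hkl)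
  refine ⟨_, h4 u a1 f b1, fun n => ⟨image_subset_iff.2 fun k _ => a3 n k,
    (finite_Iic _).image _⟩, ?_⟩
  simp only [un]
  rw [← image_univ]
  exact b2.tr_mem_cov h2 (fun _ _ => op _ _) fun _ _ => pr _ _

/-- the common part of the negative statements -/
theorem ev_neg {A : Cl} (B : Cl) {u : ℕ → ℕ → Set ℝ} (hu : ∀ p, a.Input A u p)
    (R : Set (ℕ × ℕ) → Prop)
    (h : ∀ S, R S → ∀ p, ∃ q ≤ p, ¬ Ix B (a.pt q) (uncurry u) S) :
    ∀ᶠ w in gen P, code (fun n => range fun k => tr (a.X w) (u n k)) ∈ w.M ∧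
      (∀ n k, ¬ a.X w ⊆ u n k) ∧ (∀ n, (range fun k => tr (a.X w) (u n k)) ∈ Cov (a.X w) A) ∧
      ∀ S, w.In S → (∀ S' ⊆ S, InjOn (fun i => tr (a.X w) (uncurry u i)) S' → R S') →
        (fun i => tr (a.X w) (uncurry u i)) '' S ∉ Cov (a.X w) B := by
  filter_upwards [ev_generic, ev_nonempty, a.ev_nonempty_X, a.ev_build2 u fun _ => univ,
    ev_call fun n => ev_call fun k => ev_dense0 _ fun q => (hu q).proper q le_rfl n k,
    ev_all fun S => ev_imp fun hS => ev_dense0 _ (h S hS),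
    ev_all fun S => a.ev_first (uncurry u) S] with w hw ⟨p, hp⟩ h1 h2 h3 h4 h5
  have pr : ∀ n k, ¬ a.X w ⊆ u n k := fun n k e =>
    let ⟨r, b1, b2⟩ := h3 n k; b2 ((a.subset_X b1).trans e)
  refine ⟨by simpa only [image_univ] using h2, pr, fun n => ?_, fun S b1 b2 b3 => ?_⟩
  · rw [← image_univ]
    exact (a.ix_X hw hp fun r hr => (hu p).ix r hr n).tr_mem_cov h1
      (fun _ _ => (hu p).isOpen _ _) fun _ _ => pr _ _
  · obtain ⟨S', c1, c2, c3, c4⟩ := h5 S b1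
    obtain ⟨r, d1, d2⟩ := h4 S' c2 (b2 S' c1 c3)
    have := h1.to_subtype
    exact d2 ((ix_tr.1 (ix_of_mem_cov c3 (c4 ▸ b3))).anti (a.subset_X d1))

theorem ev_neg1 {A B : Cl} (h : a.Neg1 A B) :
    ∀ᶠ w in gen P, ¬ S1In w.M (Cov (a.X w) A) (Cov (a.X w) B) := by
  obtain ⟨u, hu, h⟩ := h
  filter_upwards [a.ev_neg B hu _ h,
    a.ev_sel1 u] with w ⟨h1, _, h2, h3⟩ h4 h5
  obtain ⟨U, a1, a2, a3⟩ := h5 _ h1 h2
  refine h3 _ (h4 U a1) (fun S' b1 b2 n k hk l hl => ?_) ?_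
  · exact (Prod.ext_iff.1 (b2 hk hl ((b1 hk).symm.trans (b1 hl)))).2
  · convert a3 using 1
    ext V
    constructor
    · rintro ⟨i, hi, rfl⟩
      exact ⟨i.1, hi⟩
    · rintro ⟨n, rfl⟩
      obtain ⟨k, hk⟩ := a2 n
      exact ⟨(n, k), hk.symm, hk⟩

theorem ev_neg1t {A B : Cl} (h : a.Neg1t A B) :
    ∀ᶠ w in gen P, ¬ S1In w.M (Cov (a.X w) A) (Cov (a.X w) B) := by
  obtain ⟨u, hu, hi, h⟩ := h
  filter_upwards [a.ev_neg B hu (fun _ => False) (fun _ h => h.elim), a.ev_sel1 u,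
    a.ev_nonempty_X, ev_all fun f => ev_dense0 _ (h f),
    ev_call fun i => ev_call fun j => ev_imp fun hij => ev_dense0 _ (hi i j hij),
    ev_fun fun (S : Set (ℕ × ℕ)) (n : ℕ) => sInf {k | (n, k) ∈ S}]
    with w ⟨h1, _, h2, _⟩ h4 h0 h6 h7 h8 h5
  obtain ⟨U, a1, a2, a3⟩ := h5 _ h1 h2
  have := h0.to_subtype
  obtain ⟨r, b1, b2⟩ := h6 _ (h8 _ (h4 U a1))
  have e : ∀ n, U n = tr (a.X w) (u n (sInf {k | U n = tr (a.X w) (u n k)})) := fun n =>
    Nat.sInf_mem (s := {k | U n = tr (a.X w) (u n k)}) (let ⟨k, hk⟩ := a2 n; ⟨k, hk.symm⟩)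
  refine b2 ((ix_tr.1 (ix_of_mem_cov (fun n _ m _ hnm => ?_) ?_)).anti (a.subset_X b1))
  · by_contra hc
    obtain ⟨q, c1, x, c2, c3⟩ := h7 (n, _) (m, _) fun h => hc (Prod.ext_iff.1 h).1
    exact c3 (Set.ext_iff.1 hnm ⟨x, a.subset_X c1 c2⟩)
  · convert a3 using 1
    rw [image_univ]
    exact congrArg range (funext fun n => (e n).symm)

theorem ev_negFin {A B : Cl} (h : a.NegFin A B) :
    ∀ᶠ w in gen P, ¬ SfinIn w.M (Cov (a.X w) A) (Cov (a.X w) B) := by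
  obtain ⟨u, hu, h⟩ := h
  filter_upwards [a.ev_neg B hu _ h,
    a.ev_sel2 u] with w ⟨h1, _, h2, h3⟩ h4 h5
  obtain ⟨F, a1, a2, a3⟩ := h5 _ h1 h2
  refine h3 _ (h4 F a1) (fun S' b1 b2 n => ?_) ?_
  · refine Finite.of_finite_image (f := fun k => tr (a.X w) (u n k))
      ((a2 n).2.subset (image_subset_iff.2 fun k hk => b1 hk)) fun k hk l hl e => ?_
    exact (Prod.ext_iff.1 (b2 hk hl e)).2
  · convert a3 using 1
    ext V
    simp only [mem_iUnion]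
    constructor
    · rintro ⟨i, hi, rfl⟩
      exact ⟨i.1, hi⟩
    · rintro ⟨n, hn⟩
      obtain ⟨k, rfl⟩ := (a2 n).1 hn
      exact ⟨(n, k), hn, rfl⟩

theorem Cov.diff_empty {X : Type} [TopologicalSpace X] [Nonempty X] {c : Cl} {𝒰 𝒱 : Set (Set X)}
    (h : 𝒰 ∈ Cov X c) (h1 : 𝒱 ⊆ 𝒰) (h2 : ∀ U ∈ 𝒰, U ∉ 𝒱 → U = ∅) : 𝒱 ∈ Cov X c := by
  have h3 : ∀ U ∈ 𝒰, ∀ x ∈ U, U ∈ 𝒱 := fun U hU x hx => by
    by_contra hc
    rw [h2 U hU hc] at hx
    exact hx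
  have h0 := Cov.open_cover h
  rw [← image_id 𝒱]
  refine Ix.mem_cov ?_ (fun U hU => h0.1 U (h1 hU)) fun U hU e => h0.2.2 (e ▸ h1 hU)
  have h4 := ix_id_of_mem_cov h
  cases c
  · exact fun x hx => let ⟨U, b1, b2⟩ := h4 x hx; ⟨U, h3 U b1 x b2, b2⟩
  · intro F b1 b2
    obtain ⟨U, b3, b4⟩ := h4 (insert (Classical.arbitrary X) F) (subset_univ _) (b2.insert _)
    exact ⟨U, h3 U b3 _ (b4 (mem_insert _ _)), (subset_insert _ _).trans b4⟩
  · exact ⟨fun x hx => (h4.1 x hx).mono fun U hU => ⟨h3 U hU.1 x hU.2, hU.2⟩,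
      fun x hx y hy => (h4.2 x hx y hy).imp (fun h => h.subset fun U hU => ⟨h1 hU.1, hU.2⟩)
        fun h => h.subset fun U hU => ⟨h1 hU.1, hU.2⟩⟩
  · exact ⟨(h4.tau_of_gamma.1 (Classical.arbitrary X) trivial).mono fun U hU => h3 U hU.1 _ hU.2,
      fun x hx => (h4.2 x hx).subset fun U hU => ⟨h1 hU.1, hU.2⟩⟩

theorem ev_negU {B : Cl} (h : a.NegU B) :
    ∀ᶠ w in gen P, ¬ UfinIn w.M (Cov (a.X w) .G) (Cov (a.X w) B) := by
  obtain ⟨u, hu, hm, h⟩ := h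
  filter_upwards [a.ev_neg B hu _ h,
    a.ev_sel2 u, a.ev_nonempty_X, ev_fun fun S : Set (ℕ × ℕ) =>
      {i ∈ S | ∀ l, (i.1, l) ∈ S → l ≤ i.2}] with w ⟨h1, pr, h2, h3⟩ h4 h0 h6 h5
  have := h0.to_subtype
  have hm' : ∀ n, Monotone fun k => tr (a.X w) (u n k) := fun n k l hkl => preimage_mono (hm n hkl)
  obtain ⟨F, a1, a2, a3⟩ := h5 _ h1 h2 fun n ⟨F, b1, b2, b3⟩ => by
    obtain ⟨k, hk⟩ := finite_subset_mono (hm' n) b2 b1
    exact pr n k (tr_eq_univ.1 (eq_univ_of_univ_subset (b3 ▸ hk)))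
  have inj : ∀ n k, tr (a.X w) (u n k) ∈ F n → ∃ m, tr (a.X w) (u n m) ∈ F n ∧
      ∀ l, tr (a.X w) (u n l) ∈ F n → l ≤ m := by
    intro n k hk
    have fin : {l | tr (a.X w) (u n l) ∈ F n}.Finite := by
      obtain ⟨j, hj⟩ := finite_subset_mono (hm' n) (a2 n).2 (a2 n).1
      obtain ⟨x, hx, hx'⟩ := not_subset.1 (pr n j)
      obtain ⟨p, hp, hp'⟩ := hx
      refine (((hu p).ix p le_rfl n).2 x hp').subset fun l hl => ⟨trivial, fun h' => hx' ?_⟩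
      exact hj (a := ⟨x, p, hp, hp'⟩) ⟨_, hl, h'⟩
    obtain ⟨m, c1, c2⟩ := fin.exists_maximal ⟨k, hk⟩
    exact ⟨m, c1, fun l hl => not_lt.1 fun h' => absurd (c2 hl h'.le) (not_le.2 h')⟩
  have eq : ∀ n m, tr (a.X w) (u n m) ∈ F n → (∀ l, tr (a.X w) (u n l) ∈ F n → l ≤ m) →
      ⋃₀ F n = tr (a.X w) (u n m) := fun n m c1 c2 => by
    refine Subset.antisymm (sUnion_subset fun V hV => ?_) (subset_sUnion_of_mem c1)
    obtain ⟨l, rfl⟩ := (a2 n).1 hV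
    exact hm' n (c2 l hV)
  refine h3 _ (h6 _ (h4 F a1)) (fun S' b1 _ n k hk l hl => ?_) (Cov.diff_empty a3 ?_ ?_)
  · exact le_antisymm ((b1 hl).2 k (b1 hk).1) ((b1 hk).2 l (b1 hl).1)
  · rintro _ ⟨i, hi, rfl⟩
    exact ⟨i.1, eq _ _ hi.1 hi.2⟩
  · rintro _ ⟨n, rfl⟩ hn
    by_contra hc
    obtain ⟨x, V, hV, -⟩ := nonempty_iff_ne_empty.2 hc
    obtain ⟨k, rfl⟩ := (a2 n).1 hV
    obtain ⟨m, c1, c2⟩ := inj n k hV
    exact hn ⟨(n, m), ⟨c1, c2⟩, (eq n m c1 c2).symm⟩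

section
variable {Y : Type} [TopologicalSpace Y] (b : Approx P Y)

theorem Pos1.posFin {b : Approx P Y} {A B : Cl} (h : b.Pos1 A B) : b.PosFin A B := by
  intro u p hp
  obtain ⟨q, hq, f, hf⟩ := h u p hp
  refine ⟨q, hq, (fun n => (n, f n)) '' univ, fun n => (finite_singleton (f n)).subset ?_,
    fun r hr => (ix_image fun _ _ _ _ e => (Prod.ext_iff.1 e).1).2 (hf r hr)⟩
  rintro k ⟨m, -, hm⟩
  obtain ⟨rfl, rfl⟩ := Prod.ext_iff.1 hm
  rfl

theorem Pos1.posU {b : Approx P Y} {B : Cl} (h : b.Pos1 .G B) : b.PosU B :=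
  fun u p hp _ => h u p hp

/-- transport along a map to the reals -/
def map (e : Y → ℝ) : Approx P ℝ where
  pt p := e '' b.pt p
  countable p := (b.countable p).image e
  anti p q h := image_mono (b.anti p q h)
  closed := b.closed
  nonempty p := let ⟨q, h1, h2⟩ := b.nonempty p; ⟨q, h1, h2.image e⟩

variable {b} {e : Y → ℝ}

theorem input_map (he : Continuous e) {A : Cl} {u : ℕ → ℕ → Set ℝ} {p : P}
    (h : (b.map e).Input A u p) : b.Input A (fun n k => e ⁻¹' u n k) p :=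
  ⟨fun n k => (h.isOpen n k).preimage he, fun q hq n k => by
    simpa [map] using h.proper q hq n k, fun q hq n => ix_preimage.1 (h.ix q hq n)⟩

/-- the largest open extension -/
def ext (e : Y → ℝ) (U : Set Y) : Set ℝ := ⋃₀ {O | IsOpen O ∧ e ⁻¹' O ⊆ U}

theorem preimage_ext (he : Topology.IsInducing e) {U : Set Y} (hU : IsOpen U) :
    e ⁻¹' ext e U = U := by
  obtain ⟨O, h1, rfl⟩ := he.isOpen_iff.1 hU
  ext x
  exact ⟨fun ⟨_, h2, h3⟩ => h2.2 h3, fun h => ⟨O, ⟨h1, Subset.rfl⟩, h⟩⟩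

theorem input_ext (he : Topology.IsInducing e) {A : Cl} {u : ℕ → ℕ → Set Y} {p : P}
    (h : b.Input A u p) : (b.map e).Input A (fun n k => ext e (u n k)) p :=
  ⟨fun n k => isOpen_sUnion fun _ h => h.1, fun q hq n k => by
    simpa [map, preimage_ext he (h.isOpen _ _)] using h.proper q hq n k, fun q hq n =>
      ix_preimage.2 (by simpa only [preimage_ext he (h.isOpen _ _)] using h.ix q hq n)⟩

theorem ix_ext [Nonempty P] (he : Topology.IsInducing e) {A B : Cl} {u : ℕ → ℕ → Set Y}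
    (h : ∀ p, b.Input A u p) {q : P} {S : Set (ℕ × ℕ)}
    (h' : Ix B ((b.map e).pt q) (uncurry fun n k => ext e (u n k)) S) :
    Ix B (b.pt q) (uncurry u) S :=
  (ix_preimage.1 h').congr fun i _ x _ => by
    change x ∈ e ⁻¹' ext e (u i.1 i.2) ↔ _
    rw [preimage_ext he ((h q).isOpen _ _)]
    rfl

end

end Approx

open Approx in
/-- the realization theorem -/
theorem realize [Nonempty P] {Y : Type} [TopologicalSpace Y] (b : Approx P Y) {e : Y → ℝ}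
    (he : Topology.IsInducing e) : ∃ (M : Set ZFSet.{0}) (X : Set ℝ), TransModelZFC M ∧
      code X ∈ M ∧ X.Nonempty ∧ ∀ A B : Cl,
      (A ≠ .O → b.Pos1 A B → S1In M (Cov X A) (Cov X B)) ∧
      (A ≠ .O → b.PosFin A B → SfinIn M (Cov X A) (Cov X B)) ∧
      (b.PosU B → UfinIn M (Cov X .G) (Cov X B)) ∧
      (b.Neg1 A B → ¬ S1In M (Cov X A) (Cov X B)) ∧
      (b.Neg1t A B → ¬ S1In M (Cov X A) (Cov X B)) ∧
      (b.NegFin A B → ¬ SfinIn M (Cov X A) (Cov X B)) ∧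
      (b.NegU B → ¬ UfinIn M (Cov X .G) (Cov X B)) := by
  have : Finite Cl := Finite.of_surjective (fun i : Fin 4 => ![Cl.O, .Om, .T, .G] i) fun c => by
    cases c
    exacts [⟨0, rfl⟩, ⟨1, rfl⟩, ⟨2, rfl⟩, ⟨3, rfl⟩]
  let a := b.map e
  have hc := he.continuous
  have key : ∀ A B : Cl, ∀ᶠ w in gen P,
      (A ≠ .O → b.Pos1 A B → S1In w.M (Cov (a.X w) A) (Cov (a.X w) B)) ∧
      (A ≠ .O → b.PosFin A B → SfinIn w.M (Cov (a.X w) A) (Cov (a.X w) B)) ∧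
      (b.PosU B → UfinIn w.M (Cov (a.X w) .G) (Cov (a.X w) B)) ∧
      (b.Neg1 A B → ¬ S1In w.M (Cov (a.X w) A) (Cov (a.X w) B)) ∧
      (b.Neg1t A B → ¬ S1In w.M (Cov (a.X w) A) (Cov (a.X w) B)) ∧
      (b.NegFin A B → ¬ SfinIn w.M (Cov (a.X w) A) (Cov (a.X w) B)) ∧
      (b.NegU B → ¬ UfinIn w.M (Cov (a.X w) .G) (Cov (a.X w) B)) := fun A B => by
    refine (ev_imp fun hA => ev_imp fun h => a.ev_pos1 hA fun u p hp => ?_).and
      ((ev_imp fun hA => ev_imp fun h => a.ev_posFin hA fun u p hp => ?_).and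
      ((ev_imp fun h => a.ev_posU fun u p hp hm => ?_).and
      ((ev_imp fun h => a.ev_neg1 ?_).and ((ev_imp fun h => a.ev_neg1t ?_).and
      ((ev_imp fun h => a.ev_negFin ?_).and (ev_imp fun h => a.ev_negU ?_))))))
    · obtain ⟨q, h1, f, h2⟩ := h _ p (input_map hc hp)
      exact ⟨q, h1, f, fun r hr => ix_preimage.2 (h2 r hr)⟩
    · obtain ⟨q, h1, S, h2, h3⟩ := h _ p (input_map hc hp)
      exact ⟨q, h1, S, h2, fun r hr => ix_preimage.2 (h3 r hr)⟩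
    · obtain ⟨q, h1, f, h2⟩ := h _ p (input_map hc hp) fun n k l hkl => preimage_mono (hm n hkl)
      exact ⟨q, h1, f, fun r hr => ix_preimage.2 (h2 r hr)⟩
    · obtain ⟨u, h1, h2⟩ := h
      refine ⟨_, fun p => input_ext he (h1 p), fun S hS p => ?_⟩
      obtain ⟨q, h3, h4⟩ := h2 S hS p
      exact ⟨q, h3, fun h => h4 (ix_ext he h1 h)⟩
    · obtain ⟨u, h1, hi, h2⟩ := h
      refine ⟨_, fun p => input_ext he (h1 p), fun i j hij p => ?_, fun f p => ?_⟩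
      · obtain ⟨q, h3, x, h4, h5⟩ := hi i j hij p
        refine ⟨q, h3, e x, mem_image_of_mem e h4, ?_⟩
        change ¬ (x ∈ e ⁻¹' ext e (u i.1 i.2) ↔ x ∈ e ⁻¹' ext e (u j.1 j.2))
        rwa [preimage_ext he ((h1 q).isOpen _ _), preimage_ext he ((h1 q).isOpen _ _)]
      · obtain ⟨q, h3, h4⟩ := h2 f p
        refine ⟨q, h3, fun h => h4 ((ix_preimage.1 h).congr fun n _ x _ => ?_)⟩
        rw [preimage_ext he ((h1 q).isOpen _ _)]
    · obtain ⟨u, h1, h2⟩ := h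
      refine ⟨_, fun p => input_ext he (h1 p), fun S hS p => ?_⟩
      obtain ⟨q, h3, h4⟩ := h2 S hS p
      exact ⟨q, h3, fun h => h4 (ix_ext he h1 h)⟩
    · obtain ⟨u, h1, hm, h2⟩ := h
      refine ⟨_, fun p => input_ext he (h1 p), fun n k l hkl =>
        sUnion_subset_sUnion fun O hO => ⟨hO.1, hO.2.trans (hm n hkl)⟩, fun S hS p => ?_⟩
      obtain ⟨q, h3, h4⟩ := h2 S hS p
      exact ⟨q, h3, fun h => h4 (ix_ext he h1 h)⟩
  obtain ⟨w, h1, h2, h3, h4⟩ := (ev_zfc.and (a.ev_X_mem.and (a.ev_nonempty_X.and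
    (ev_call fun A => ev_call fun B => key A B)))).exists
  exact ⟨w.M, a.X w, h1, h2, h3, h4⟩

/-- the Cantor space embeds into the reals -/
theorem exists_inducing_bool : ∃ e : (ℕ → Bool) → ℝ, Topology.IsInducing e := by
  have h1 : (0 : ℝ) < 1 / 3 := by norm_num
  have h2 : (1 / 3 : ℝ) < 1 / 2 := by norm_num
  have hc : Continuous (Cardinal.cantorFunction (1 / 3)) := by
    refine continuous_tsum (u := fun n => (1 / 3 : ℝ) ^ n) (fun n => ?_)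
      (summable_geometric_of_lt_one h1.le (by norm_num)) fun n f => ?_
    · exact (continuous_of_discreteTopology
        (f := fun b : Bool => cond b ((1 / 3 : ℝ) ^ n) 0)).comp (continuous_apply n)
    · unfold Cardinal.cantorFunctionAux
      cases f n <;> simp
  exact ⟨_, (hc.isClosedEmbedding (Cardinal.cantorFunction_injective h1 h2)).isInducing⟩

/-- countable products of countable discrete spaces embed into the reals -/
theorem exists_inducing (ι : Type) [Countable ι] (α : ι → Type) [∀ i, Countable (α i)]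
    [∀ i, TopologicalSpace (α i)] [∀ i, DiscreteTopology (α i)] :
    ∃ e : (∀ i, α i) → ℝ, Topology.IsInducing e := by
  classical
  obtain ⟨e, he⟩ := exists_inducing_bool
  obtain ⟨g, hg⟩ := exists_surjective_nat (Option (Σ i, α i))
  let f : (∀ i, α i) → ℕ → Bool := fun x n => (g n).elim true fun j => decide (x j.1 = j.2)
  refine ⟨e ∘ f, he.comp ⟨le_antisymm (continuous_iff_le_induced.1 ?_) ?_⟩⟩
  · refine continuous_pi fun n => ?_
    simp only [f]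
    cases g n with
    | none => exact continuous_const
    | some j => exact (continuous_of_discreteTopology
        (f := fun t : α j.1 => decide (t = j.2))).comp (continuous_apply j.1)
  · refine le_iInf fun i => continuous_iff_le_induced.1 ?_
    refine @continuous_def _ _ (TopologicalSpace.induced f _) _ _ |>.2 fun s _ => ?_
    have : (fun x : ∀ i, α i => x i) ⁻¹' s =
        f ⁻¹' ⋃ t ∈ s, {z | z (surjInv hg (some ⟨i, t⟩)) = true} := by
      ext x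
      simp [f, surjInv_eq hg]
    rw [this]
    refine isOpen_induced (isOpen_biUnion fun t _ => ?_)
    have hc : Continuous fun z : ℕ → Bool => z (surjInv hg (some ⟨i, t⟩)) := continuous_apply _
    exact hc.isOpen_preimage {true} (isOpen_discrete _)

end Pool.Agent.P.MP_b17faa_gt
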