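import Pool.Agent.P.MP_b17faa_gt.Frame1

/-!
Capturing sequences of covers of the generic set by ground model codes.
-/

namespace Pool.Agent.P.MP_b17faa_gt

open Filter Set Function Pool.Agent.Lib.Helper87 Coded

/-- rational intervals -/
def bas (j : ℚ × ℚ) : Set ℝ := Ioo j.1 j.2

/-- unions of rational intervals -/
def can (s : Set (ℚ × ℚ)) : Set ℝ := ⋃ j ∈ s, bas j

theorem isOpen_can (s : Set (ℚ × ℚ)) : IsOpen (can s) := isOpen_biUnion fun _ _ => isOpen_Ioo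

theorem exists_bas {X : Set ℝ} {U : Set X} (hU : IsOpen U) {x : X} (hx : x ∈ U) :
    ∃ j, x ∈ tr X (bas j) ∧ tr X (bas j) ⊆ U := by
  obtain ⟨O, hO, rfl⟩ := isOpen_induced_iff.1 hU
  obtain ⟨l, u, ⟨h1, h2⟩, h3⟩ := mem_nhds_iff_exists_Ioo_subset.1 (hO.mem_nhds hx)
  obtain ⟨q, q1, q2⟩ := exists_rat_btwn h1
  obtain ⟨r, r1, r2⟩ := exists_rat_btwn h2
  exact ⟨(q, r), ⟨q2, r1⟩, fun y hy => h3 ⟨q1.trans hy.1, hy.2.trans r2⟩⟩

theorem tr_can {X : Set ℝ} {U : Set X} (hU : IsOpen U) :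
    tr X (can {j | tr X (bas j) ⊆ U}) = U := by
  ext x
  simp only [tr, can, mem_preimage, mem_iUnion, mem_ofPred_eq, exists_prop]
  constructor
  · rintro ⟨j, h1, h2⟩
    exact h1 h2
  · intro hx
    obtain ⟨j, h1, h2⟩ := exists_bas hU hx
    exact ⟨j, h2, h1⟩

theorem exists_bas_finset {X : Set ℝ} {F : Set X} (hF : F.Finite) (D : Finset (Set X))
    (hD : ∀ U ∈ D, IsOpen U ∧ F ⊆ U) : ∃ J : Finset (ℚ × ℚ), (∀ U ∈ D, ∀ j ∈ J, tr X (bas j) ⊆ U) ∧
      ∀ V : Set X, (∀ j ∈ J, tr X (bas j) ⊆ V) → F ⊆ V := by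
  classical
  have h1 : IsOpen (⋂ U ∈ D, U) := isOpen_biInter_finset fun U hU => (hD U hU).1
  have : ∀ x : F, ∃ j, x.1 ∈ tr X (bas j) ∧ tr X (bas j) ⊆ ⋂ U ∈ D, U := fun x =>
    exists_bas h1 (mem_iInter₂.2 fun U hU => (hD U hU).2 x.2)
  choose j hj using this
  have := hF.fintype
  refine ⟨Finset.univ.image j, fun U hU i hi => ?_, fun V hV x hx => ?_⟩
  · obtain ⟨x, -, rfl⟩ := Finset.mem_image.1 hi
    exact (hj x).2.trans (iInter₂_subset U hU)
  · exact hV _ (Finset.mem_image_of_mem j (Finset.mem_univ ⟨x, hx⟩)) (hj ⟨x, hx⟩).1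

/-- rich subfamilies are covers of the same class -/
theorem ix_of_rich {X : Set ℝ} [Nonempty X] {c : Cl} (hc : c ≠ .O) {𝒰 𝒞 : Set (Set X)}
    (h : 𝒰 ∈ Cov X c) (h1 : 𝒞 ⊆ 𝒰)
    (h2 : ∀ (J : Finset (ℚ × ℚ)) (D : Finset (Set X)),
      (∀ U ∈ D, U ∈ 𝒰 ∧ ∀ j ∈ J, tr X (bas j) ⊆ U) →
      ∃ E : Finset (Set X), E.card = D.card ∧ ∀ U ∈ E, U ∈ 𝒞 ∧ ∀ j ∈ J, tr X (bas j) ⊆ U) :
    Ix c univ id 𝒞 ∧ 𝒞.Infinite := by
  have ho := (Cov.open_cover h).1
  have key : ∀ F : Set X, F.Finite → {U ∈ 𝒰 | F ⊆ U}.Infinite → {U ∈ 𝒞 | F ⊆ U}.Infinite := by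
    intro F hF hinf hfin
    obtain ⟨D, d1, d2⟩ := hinf.exists_subset_card_eq (hfin.toFinset.card + 1)
    obtain ⟨J, j1, j2⟩ := exists_bas_finset hF D fun U hU => ⟨ho U (d1 hU).1, (d1 hU).2⟩
    obtain ⟨E, e1, e2⟩ := h2 J D fun U hU => ⟨(d1 hU).1, j1 U hU⟩
    have : E ⊆ hfin.toFinset := fun U hU => hfin.mem_toFinset.2 ⟨(e2 U hU).1, j2 U (e2 U hU).2⟩
    have := Finset.card_le_card this
    omega
  have inf : 𝒰.Infinite → 𝒞.Infinite := fun h' => by
    simpa using key ∅ finite_empty (by simpa using h')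
  cases c
  · exact absurd rfl hc
  · refine ⟨fun F _ hF => ?_, inf (infinite_of_omega h)⟩
    obtain ⟨U, u1, u2⟩ := h.2 F hF
    obtain ⟨J, j1, j2⟩ := exists_bas_finset hF {U} (by simpa using ⟨ho U u1, u2⟩)
    obtain ⟨E, e1, e2⟩ := h2 J {U} (by simpa using ⟨u1, by simpa using j1⟩)
    obtain ⟨V, hV⟩ := Finset.card_pos.1 (by rw [e1]; simp : 0 < E.card)
    exact ⟨V, (e2 V hV).1, j2 V (e2 V hV).2⟩
  · refine ⟨⟨fun x _ => ?_, fun x _ y _ => (h.2.2 x y).imp (fun h => h.subset fun U hU =>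
      ⟨h1 hU.1, hU.2⟩) fun h => h.subset fun U hU => ⟨h1 hU.1, hU.2⟩⟩,
      inf (infinite_of_omega (tau_subset_omega h))⟩
    simpa using key {x} (finite_singleton x) (by simpa using h.2.1 x)
  · exact ⟨⟨inf h.2.1, fun x _ => (h.2.2 x).subset fun U hU => ⟨h1 hU.1, hU.2⟩⟩, inf h.2.1⟩

theorem exists_enum (T : Type) [Nonempty T] : ∃ en : Set T → ℕ → T, ∀ C : Set T, C.Countable →
    C.Infinite → Injective (en C) ∧ range (en C) = C := by
  have : ∀ C : Set T, ∃ e : ℕ → T, C.Countable → C.Infinite → Injective e ∧ range e = C := by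
    intro C
    by_cases h : C.Countable ∧ C.Infinite
    · obtain ⟨d⟩ := countable_infinite_iff_nonempty_denumerable.1 h
      refine ⟨fun n => ((Denumerable.eqv C).symm n).1, fun _ _ =>
        ⟨Subtype.val_injective.comp (Equiv.injective _), ?_⟩⟩
      rw [← Function.comp_def, range_comp, Equiv.range_eq_univ]
      simp
    · exact ⟨fun _ => Classical.arbitrary T, fun h1 h2 => absurd ⟨h1, h2⟩ h⟩
  exact ⟨fun C => (this C).choose, fun C => (this C).choose_spec⟩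

variable {P : Type} [Preorder P]

namespace Approx

variable (a : Approx P ℝ)

theorem ev_open_code : ∀ᶠ w in gen P, ∀ U : Set (a.X w), code U ∈ w.M →
    w.In {j | tr (a.X w) (bas j) ⊆ U} := by
  have : ∀ᶠ w in gen P, ∀ y ∈ w.M, w.In {j | ∀ x : ℝ, w.In x → x ∈ bas j → x ∈ a.X w →
      code x ∈ y} := ev_all_named fun y hy => ev_sub a.closed fun j => measurable_all_in fun x =>
    measurable_const.imp ((a.measurable_X x).imp (Named.measurable_mem (namedC_const_real x) hy))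
  filter_upwards [this, a.ev_in] with w h h' U hU
  convert h _ hU using 3 with j
  constructor
  · exact fun h1 x _ h2 h3 => (code_mem_code (t := (⟨x, h3⟩ : a.X w))).2 (h1 h2)
  · exact fun h1 x hx => code_mem_code.1 (h1 x.1 (h' _ x.2) hx x.2)

theorem measurable_sub (A B : Set ℝ) : Measurable fun w => tr (a.X w) A ⊆ tr (a.X w) B := by
  refine (measurable_all_in (Φ := fun (x : ℝ) w => x ∈ a.X w → x ∈ A → x ∈ B) fun x =>
    (a.measurable_X x).imp measurable_const).congr_ev ?_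
  filter_upwards [a.ev_in] with w h
  exact ⟨fun h1 x _ h2 h3 => h1 (a := ⟨x, h2⟩) h3, fun h1 x hx => h1 x.1 (h _ x.2) x.2 hx⟩

/-- every sequence of covers in the extension is refined by a sequence of countable covers
which is coded in the ground model -/
theorem ev_capture : ∀ᶠ w in gen P, ∀ 𝒰 : ℕ → Set (Set (a.X w)), code 𝒰 ∈ w.M → ∀ c ≠ Cl.O,
    (∀ n, 𝒰 n ∈ Cov (a.X w) c) → ∃ u : ℕ → ℕ → Set ℝ, w.In u ∧ (∀ n k, IsOpen (u n k)) ∧
      (∀ n k, tr (a.X w) (u n k) ∈ 𝒰 n) ∧ ∀ n, Ix c (a.X w) (u n) univ := by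
  classical
  let Ψ : ZFSet.{0} → ℕ → Set (ℚ × ℚ) → World P → Prop := fun y n s w =>
    (∃ t ∈ w.M, ZFSet.pair (code n) t ∈ y ∧ code (tr (a.X w) (can s)) ∈ t) ∧
      ∀ j, j ∈ s ↔ tr (a.X w) (bas j) ⊆ tr (a.X w) (can s)
  let Φ : ZFSet.{0} → ℕ × Finset (ℚ × ℚ) × ℕ → Finset (Set (ℚ × ℚ)) → World P → Prop :=
    fun y i D w => D.card = i.2.2 ∧ ∀ s ∈ D, Ψ y i.1 s w ∧ ↑i.2.1 ⊆ s
  have main : ∀ᶠ w in gen P, ∀ y ∈ w.M, ∃ d : ℕ × Finset (ℚ × ℚ) × ℕ → Finset (Set (ℚ × ℚ)),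
      w.In d ∧ ∀ i, (∀ s ∈ d i, Ψ y i.1 s w) ∧ ((∃ D, w.In D ∧ Φ y i D w) → Φ y i (d i) w) := by
    refine ev_all_named fun y hy => ?_
    have mΨ : ∀ n s, Measurable fun w => Ψ (y w) n s w := fun n s =>
      (a.measurable_app hy n _).and
        (Measurable.forall fun j => measurable_const.iff (a.measurable_sub _ _))
    have fin : ∀ (D : Finset (Set (ℚ × ℚ))) (Q : Set (ℚ × ℚ) → World P → Prop),
        (∀ s, Measurable (Q s)) → Measurable fun w => ∀ s ∈ D, Q s w := fun D Q hQ => by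
      simpa using Measurable.forall fun s : D => hQ s
    have mΦ : ∀ i D, Measurable fun w => Φ (y w) i D w := fun i D =>
      measurable_const.and (fin D _ fun s => (mΨ _ s).and measurable_const)
    have m3 : ∀ (i : ℕ × Finset (ℚ × ℚ) × ℕ) (D : Finset (Set (ℚ × ℚ))), Measurable fun w =>
        (∀ s ∈ D, Ψ (y w) i.1 s w) ∧ ((∃ D, w.In D ∧ Φ (y w) i D w) → Φ (y w) i D w) := by
      intro i D
      have m1 := fin D (fun s w => Ψ (y w) i.1 s w) (mΨ i.1)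
      have m2 := measurable_ex_in (Φ := fun D w => Φ (y w) i D w) (mΦ i)
      exact m1.and (m2.imp (mΦ i D))
    filter_upwards [ev_cc a.closed m3,
      ev_const (∅ : Finset (Set (ℚ × ℚ)))] with w ⟨d, h1, h2⟩ h3
    refine ⟨d, h1, fun i => h2 i ?_⟩
    by_cases h : ∃ D, w.In D ∧ Φ (y w) i D w
    · obtain ⟨D, h4, h5⟩ := h
      exact ⟨D, h4, fun s hs => (h5.2 s hs).1, fun _ => h5⟩
    · exact ⟨∅, h3, by simp, fun h' => absurd h' h⟩
  obtain ⟨en, hen⟩ := exists_enum (Set (ℚ × ℚ))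
  let C : (ℕ × Finset (ℚ × ℚ) × ℕ → Finset (Set (ℚ × ℚ))) → ℕ → Set (Set (ℚ × ℚ)) :=
    fun d n => ⋃ i : Finset (ℚ × ℚ) × ℕ, d (n, i)
  filter_upwards [main, ev_trans, a.ev_open_code, a.ev_nonempty_X,
    ev_fun fun d (n k : ℕ) => can (en (C d n) k),
    ev_all_finset fun D : Finset (Set (ℚ × ℚ)) => ev_const D] with w h1 hM h2 h3 h4 h5 𝒰 h𝒰 c hc h6
  obtain ⟨d, d1, d2⟩ := h1 _ h𝒰
  have := h3.to_subtype
  simp only [Φ, Ψ, app_iff hM h𝒰] at d2
  have hC : ∀ n, ∀ s ∈ C d n, tr (a.X w) (can s) ∈ 𝒰 n ∧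
      ∀ j, j ∈ s ↔ tr (a.X w) (bas j) ⊆ tr (a.X w) (can s) := fun n s hs => by
    obtain ⟨i, hi⟩ := mem_iUnion.1 hs
    exact (d2 (n, i)).1 s hi
  have inj : ∀ n, InjOn (fun s => tr (a.X w) (can s)) (C d n) := fun n s hs t ht e => by
    ext j
    rw [(hC n s hs).2, (hC n t ht).2, show tr (a.X w) (can s) = tr (a.X w) (can t) from e]
  have rich : ∀ n, Ix c univ id ((fun s => tr (a.X w) (can s)) '' C d n) ∧
      ((fun s => tr (a.X w) (can s)) '' C d n).Infinite := fun n => by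
    refine ix_of_rich hc (h6 n) (image_subset_iff.2 fun s hs => (hC n s hs).1) fun J D hD => ?_
    have ho : ∀ U ∈ D, IsOpen U := fun U hU => (Cov.open_cover (h6 n)).1 U (hD U hU).1
    obtain ⟨e1, e2⟩ := (d2 (n, J, D.card)).2
      ⟨D.image fun U => {j | tr (a.X w) (bas j) ⊆ U}, h5 _ fun s hs => by
        obtain ⟨U, hU, rfl⟩ := Finset.mem_image.1 hs
        exact h2 U (hM _ (code_app_mem hM h𝒰 n) _ (code_mem_code.2 (hD U hU).1)),
      Finset.card_image_of_injOn fun U hU V hV e => by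
        rw [← tr_can (ho U hU), ← tr_can (ho V hV)]
        exact congrArg (fun s => tr (a.X w) (can s)) e,
      fun s hs => by
        obtain ⟨U, hU, rfl⟩ := Finset.mem_image.1 hs
        rw [tr_can (ho U hU)]
        exact ⟨⟨(hD U hU).1, fun _ => Iff.rfl⟩, fun j hj => (hD U hU).2 j hj⟩⟩
    have sub : ∀ s ∈ d (n, J, D.card), s ∈ C d n := fun s hs => mem_iUnion.2 ⟨(J, D.card), hs⟩
    refine ⟨(d (n, J, D.card)).image fun s => tr (a.X w) (can s), ?_, fun U hU => ?_⟩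
    · rw [Finset.card_image_of_injOn ((inj n).mono sub), e1]
    · obtain ⟨s, hs, rfl⟩ := Finset.mem_image.1 hU
      exact ⟨mem_image_of_mem _ (sub s hs), fun j hj => ((e2 s hs).1.2 j).1 ((e2 s hs).2 hj)⟩
  have hen' := fun n => hen (C d n) (countable_iUnion fun i => Finset.countable_toSet _)
    (rich n).2.of_image
  refine ⟨_, h4 d d1, fun _ _ => isOpen_can _, fun n k =>
    (hC n _ ((hen' n).2.subset (mem_range_self k))).1, fun n => ?_⟩
  have e1 := (ix_image (inj n)).1 (rich n).1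
  rw [← (hen' n).2, ← image_univ, ix_image (hen' n).1.injOn] at e1
  have e2 := (ix_preimage (e := (Subtype.val : a.X w → ℝ)) (B := univ) (c := c) (S := univ)
    (u := fun k => can (en (C d n) k))).2 e1
  simpa using e2

end Approx

end Pool.Agent.P.MP_b17faa_gt
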