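import Pool.Agent.P.MP_b17faa_gt.RelDefs
import Pool.Agent.P.MP_b17faa_gt.Index

/-!
`S_fin(Ω, T)` implies `S₁(Ω, Ω)`.
-/

namespace Pool.Agent.P.MP_b17faa_gt

open Set Function Filter Topology

namespace ThmA

variable {Y : Type}

/-- the indexed family has an infinite subfamily which is point-cofinite on `F` -/
def Sub (U : ℕ → Set Y) (F : Set Y) : Prop := ∃ S : Set ℕ, S.Infinite ∧ ∀ x ∈ F, {i ∈ S | x ∉ U i}.Finite

theorem Sub.iUnion {U : ℕ → Set Y} (h : Ix .T univ U univ) (F : ℕ → Set Y)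
    (hF : ∀ k, Sub U (F k)) : Sub U (⋃ k, F k) := by
  have aux : ∀ {S : Set ℕ} {x y : Y}, {i ∈ S | x ∉ U i}.Finite →
      {m ∈ (univ : Set ℕ) | x ∈ U m ∧ y ∉ U m}.Finite → {i ∈ S | y ∉ U i}.Finite := by
    intro S x y h1 h2
    refine (h1.union h2).subset fun i hi => ?_
    by_cases h : x ∈ U i
    · exact Or.inr ⟨trivial, h, hi.2⟩
    · exact Or.inl ⟨hi.1, h⟩
  by_cases h0 : ∃ k, ∀ y, ∃ x ∈ F k, {m ∈ (univ : Set ℕ) | x ∈ U m ∧ y ∉ U m}.Finite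
  · obtain ⟨k, hk⟩ := h0
    obtain ⟨S, hS, hS'⟩ := hF k
    refine ⟨S, hS, fun y _ => ?_⟩
    obtain ⟨x, hx, hx'⟩ := hk y
    exact aux (hS' x hx) hx'
  · push Not at h0
    choose y hy using h0
    have : ∀ k, ∃ i, k < i ∧ ∀ j ≤ k, y j ∈ U i := by
      intro k
      obtain ⟨i, hi, hki⟩ := (h.infinite_of_tau (F := y '' Iic k) (subset_univ _)
        ((finite_Iic k).image y) ⟨_, k, mem_Iic.2 le_rfl, rfl⟩).exists_gt k
      exact ⟨i, hki, fun j hj => hi.2 ⟨j, hj, rfl⟩⟩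
    choose s hs hs' using this
    refine ⟨range s, infinite_of_forall_exists_gt fun a => ⟨s a, ⟨a, rfl⟩, hs a⟩, fun x hx => ?_⟩
    obtain ⟨k, hk⟩ := mem_iUnion.1 hx
    refine aux (x := y k) ?_ ((h.2 x trivial (y k) trivial).resolve_left (hy k x hk))
    refine ((finite_Iio k).image s).subset ?_
    rintro _ ⟨⟨j, rfl⟩, hj⟩
    exact ⟨j, lt_of_not_ge fun h => hj (hs' j k h), rfl⟩

variable [TopologicalSpace Y]

/-- indexed form of `S_fin(Ω, T)` -/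
def HI (Y : Type) [TopologicalSpace Y] : Prop :=
  ∀ (ι : Type) (u : ℕ × ι → Set Y), (∀ i, IsOpen (u i)) → (∀ i, u i ≠ univ) →
    (∀ n, ∀ E : Set Y, E.Finite → ∃ i : ℕ × ι, n ≤ i.1 ∧ E ⊆ u i) →
    ∃ S : Set (ℕ × ι), (∀ m, {i ∈ S | i.1 = m}.Finite) ∧ Ix .T univ u S

/-- indexed `γ`-property -/
def Gam (F : Set Y) : Prop :=
  ∀ O : ℕ → Set Y, (∀ m, IsOpen (O m)) → (∀ E ⊆ F, E.Finite → {m | E ⊆ O m}.Infinite) → Sub O F

/-- indexed `S₁(Ω, Ω)` -/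
def Str (F : Set Y) : Prop :=
  ∀ 𝒰 : ℕ → Set (Set Y), (∀ m, ∀ U ∈ 𝒰 m, IsOpen U) →
    (∀ m, ∀ E ⊆ F, E.Finite → ∃ U ∈ 𝒰 m, E ⊆ U) →
    ∃ U : ℕ → Set Y, (∀ m, U m ∈ 𝒰 m) ∧ ∀ E ⊆ F, E.Finite → ∃ m, E ⊆ U m

theorem Gam.of_finite {F : Set Y} (hF : F.Finite) : Gam F := fun _ _ h =>
  ⟨_, h F Subset.rfl hF, fun _ hx => finite_empty.subset fun _ hi => hi.2 (hi.1 hx)⟩

omit [TopologicalSpace Y] in
theorem infinite_fst {ι : Type} {S A : Set (ℕ × ι)} (hS : ∀ m, {i ∈ S | i.1 = m}.Finite)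
    (hA : A ⊆ S) (h : A.Infinite) : (Prod.fst '' A).Infinite := fun hf =>
  h ((hf.biUnion fun m _ => hS m).subset fun i hi => mem_biUnion ⟨i, hi, rfl⟩ ⟨hA hi, rfl⟩)

/-- a witness against `Gam F` with proper traces -/
theorem proper_witness {F : Set Y} (h : ¬ Gam F) : ∃ O : ℕ → Set Y, (∀ m, IsOpen (O m)) ∧
    (∀ m, ¬ F ⊆ O m) ∧ (∀ E ⊆ F, E.Finite → {m | E ⊆ O m}.Infinite) ∧ ¬ Sub O F := by
  classical
  unfold Gam at h
  push Not at h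
  obtain ⟨O, h1, h2, h3⟩ := h
  have hf : {m | F ⊆ O m}.Finite := by
    by_contra hc
    exact h3 ⟨_, hc, fun x hx => finite_empty.subset fun _ hi => hi.2 (hi.1 hx)⟩
  have hne : ¬ F ⊆ ∅ := fun e => h2 F Subset.rfl (finite_empty.subset e) hf
  refine ⟨fun m => if F ⊆ O m then ∅ else O m, fun m => ?_, fun m => ?_, fun E hE hE' => ?_, ?_⟩
  · beta_reduce
    split_ifs
    exacts [isOpen_empty, h1 m]
  · beta_reduce
    split_ifs with h
    exacts [hne, h]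
  · refine ((h2 E hE hE').sdiff hf).mono fun m hm => ?_
    have : ¬ F ⊆ O m := hm.2
    simp only [mem_ofPred_eq, this, if_false]
    exact hm.1
  · rintro ⟨S, hS, hS'⟩
    refine h3 ⟨S, hS, fun x hx => (hS' x hx).subset fun i hi => ⟨hi.1, ?_⟩⟩
    simp only
    split_ifs
    exacts [notMem_empty _, hi.2]

theorem gam_univ (H : HI Y) (F : ℕ → Set Y) (hF : ∀ k, Gam (F k)) (hU : ⋃ k, F k = univ) :
    Gam (univ : Set Y) := by
  classical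
  by_contra hc
  obtain ⟨O, h1, h2, h3, h4⟩ := proper_witness hc
  obtain ⟨S, -, hS⟩ := H Unit (fun i => O i.1) (fun i => h1 _)
    (fun i e => h2 i.1 e.ge) (fun n E hE => by
      obtain ⟨m, hm, hm'⟩ := (h3 E (subset_univ _) hE).exists_gt n
      exact ⟨(m, ()), hm'.le, hm⟩)
  have hS' : Ix .T univ O (Prod.fst '' S) :=
    (ix_image (g := Prod.fst) fun a _ b _ e => Prod.ext e rfl).2 hS
  set A := Prod.fst '' S
  let O' : ℕ → Set Y := fun m => if m ∈ A then O m else ∅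
  have e1 : ∀ m x, x ∈ O' m ↔ m ∈ A ∧ x ∈ O m := by
    intro m x; simp only [O']; split_ifs with h <;> simp [h]
  have hT : Ix .T univ O' univ := by
    refine ⟨fun x _ => (hS'.1 x trivial).mono fun i hi => ⟨trivial, (e1 _ _).2 hi⟩,
      fun x _ y _ => (hS'.2 x trivial y trivial).imp (fun h => h.subset ?_) fun h => h.subset ?_⟩
    · exact fun i hi => ⟨((e1 _ _).1 hi.2.1).1, ((e1 _ _).1 hi.2.1).2,
        fun h => hi.2.2 ((e1 _ _).2 ⟨((e1 _ _).1 hi.2.1).1, h⟩)⟩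
    · exact fun i hi => ⟨((e1 _ _).1 hi.2.1).1, ((e1 _ _).1 hi.2.1).2,
        fun h => hi.2.2 ((e1 _ _).2 ⟨((e1 _ _).1 hi.2.1).1, h⟩)⟩
  obtain ⟨B, hB, hB'⟩ := Sub.iUnion hT F fun k => hF k O' (fun m => by
    simp only [O']; split_ifs
    exacts [h1 m, isOpen_empty]) fun E _ hE => by
      rcases E.eq_empty_or_nonempty with rfl | hne
      · simpa using infinite_univ
      · exact (hT.infinite_of_tau (subset_univ _) hE hne).mono fun i hi => hi.2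
  refine h4 ⟨B, hB, fun x _ => (hB' x (hU ▸ trivial)).subset fun i hi => ⟨hi.1, fun h => ?_⟩⟩
  exact hi.2 ((e1 _ _).1 h).2

omit [TopologicalSpace Y] in
/-- choosing one member of each column -/
theorem select {𝒰 : ℕ → Set (Set Y)} (hne : ∀ m, (𝒰 m).Nonempty) (S : Set (ℕ × Set Y))
    (hS : ∀ i ∈ S, i.2 ∈ 𝒰 i.1) : ∃ U : ℕ → Set Y, (∀ m, U m ∈ 𝒰 m) ∧
      ∀ m ∈ Prod.fst '' S, (m, U m) ∈ S := by
  have : ∀ m, ∃ U ∈ 𝒰 m, m ∈ Prod.fst '' S → (m, U) ∈ S := by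
    intro m
    by_cases h : m ∈ Prod.fst '' S
    · obtain ⟨i, hi, rfl⟩ := h
      exact ⟨i.2, hS i hi, fun _ => hi⟩
    · obtain ⟨U, hU⟩ := hne m
      exact ⟨U, hU, fun h' => absurd h' h⟩
  choose U h1 h2 using this
  exact ⟨U, h1, h2⟩

theorem key (H : HI Y) {F0 F1 : Set Y} (h0 : IsClosed F0) (h1 : IsClosed F1) (hd : Disjoint F0 F1)
    (hG : ¬ Gam F0) : Str F1 := by
  classical
  obtain ⟨O, o1, o2, o3, o4⟩ := proper_witness hG
  intro 𝒰 u1 u2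
  have hne : ∀ m, (𝒰 m).Nonempty := fun m =>
    let ⟨U, hU, _⟩ := u2 m ∅ (empty_subset _) finite_empty; ⟨U, hU⟩
  let u : ℕ × Set Y → Set Y := fun i => if i.2 ∈ 𝒰 i.1 then (O i.1 ∪ F0ᶜ) ∩ (i.2 ∪ F1ᶜ) else ∅
  have e0 : ∀ i, ∀ x ∈ F0, x ∈ u i ↔ i.2 ∈ 𝒰 i.1 ∧ x ∈ O i.1 := by
    intro i x hx
    have := disjoint_left.1 hd hx
    simp only [u]; split_ifs with h <;> simp [h, hx, this]
  have e1 : ∀ i, ∀ x ∈ F1, x ∈ u i ↔ i.2 ∈ 𝒰 i.1 ∧ x ∈ i.2 := by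
    intro i x hx
    have := disjoint_right.1 hd hx
    simp only [u]; split_ifs with h <;> simp [h, hx, this]
  obtain ⟨S, hS, hT⟩ := H (Set Y) u (fun i => by
      simp only [u]; split_ifs with h
      exacts [((o1 _).union h0.isOpen_compl).inter ((u1 _ _ h).union h1.isOpen_compl), isOpen_empty])
    (fun i e => o2 i.1 fun x hx => ((e0 i x hx).1 (e ▸ trivial)).2) (fun n E hE => by
      obtain ⟨m, hm, hm'⟩ := (o3 (E ∩ F0) inter_subset_right (hE.inter_of_left _)).exists_gt n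
      obtain ⟨U, hU, hU'⟩ := u2 m (E ∩ F1) inter_subset_right (hE.inter_of_left _)
      refine ⟨(m, U), hm'.le, fun x hx => ?_⟩
      simp only [u, hU, if_true]
      exact ⟨or_not_of_imp fun h => hm ⟨hx, h⟩, or_not_of_imp fun h => hU' ⟨hx, h⟩⟩)
  obtain ⟨U, hU, hU'⟩ := select hne {i ∈ S | i.2 ∈ 𝒰 i.1} fun i hi => hi.2
  refine ⟨U, hU, fun E hE hE' => ?_⟩
  rcases E.eq_empty_or_nonempty with rfl | hEn
  · exact ⟨0, empty_subset _⟩
  obtain ⟨y, hy, hy'⟩ := hT.exists_min (subset_univ E) hE' hEn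
  obtain ⟨x, hx, hx'⟩ : ∃ x ∈ F0, {i ∈ S | x ∈ u i ∧ y ∉ u i}.Finite := by
    by_contra hc
    push Not at hc
    refine o4 ⟨_, infinite_fst hS (sep_subset _ _) (hT.1 y trivial), fun x hx => ?_⟩
    refine (((hT.2 x trivial y trivial).resolve_left (hc x hx)).image Prod.fst).subset ?_
    rintro _ ⟨⟨i, hi, rfl⟩, h⟩
    exact ⟨i, ⟨hi.1, hi.2, fun h' => h ((e0 i x hx).1 h').2⟩, rfl⟩
  obtain ⟨_, ⟨i, hi, rfl⟩, hi'⟩ := ((infinite_fst hS (sep_subset _ _) (hT.1 x trivial)).sdiff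
    ((hx'.union (hE'.biUnion hy')).image Prod.fst)).nonempty
  have a1 := (e0 i x hx).1 hi.2
  have a2 := hU' i.1 ⟨i, ⟨hi.1, a1.1⟩, rfl⟩
  have a3 : x ∈ u (i.1, U i.1) := (e0 _ x hx).2 ⟨a2.2, a1.2⟩
  have a4 : y ∈ u (i.1, U i.1) := by
    by_contra h
    exact hi' ⟨_, Or.inl ⟨a2.1, a3, h⟩, rfl⟩
  refine ⟨i.1, fun z hz => ((e1 (i.1, U i.1) z (hE hz)).1 ?_).2⟩
  by_contra h
  exact hi' ⟨_, Or.inr (mem_biUnion hz ⟨a2.1, a4, h⟩), rfl⟩

theorem of_gam [Nonempty Y] (H : HI Y) (hG : Gam (univ : Set Y)) (𝒰 : ℕ → Set (Set Y))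
    (u1 : ∀ m, ∀ U ∈ 𝒰 m, IsOpen U) (u0 : ∀ m, univ ∉ 𝒰 m)
    (u2 : ∀ m, ∀ E : Set Y, E.Finite → ∃ U ∈ 𝒰 m, E ⊆ U) :
    ∃ U : ℕ → Set Y, (∀ m, U m ∈ 𝒰 m) ∧ ∀ E : Set Y, E.Finite → ∃ m, E ⊆ U m := by
  classical
  have hne : ∀ m, (𝒰 m).Nonempty := fun m => let ⟨U, hU, _⟩ := u2 m ∅ finite_empty; ⟨U, hU⟩
  let u : ℕ × Set Y → Set Y := fun i => if i.2 ∈ 𝒰 i.1 then i.2 else ∅
  have e1 : ∀ i x, x ∈ u i ↔ i.2 ∈ 𝒰 i.1 ∧ x ∈ i.2 := by
    intro i x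
    simp only [u]; split_ifs with h <;> simp [h]
  have uo : ∀ i, IsOpen (u i) := fun i => by
    simp only [u]; split_ifs with h
    exacts [u1 _ _ h, isOpen_empty]
  obtain ⟨S, hS, hT⟩ := H (Set Y) u uo (fun i e => by
      simp only [u] at e; split_ifs at e with h
      exacts [u0 _ (e ▸ h), empty_ne_univ e]) (fun n E hE => by
      obtain ⟨U, hU, hU'⟩ := u2 n E hE
      exact ⟨(n, U), le_rfl, fun x hx => (e1 _ _).2 ⟨hU, hU' hx⟩⟩)
  obtain ⟨x0⟩ := ‹Nonempty Y›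
  have hSi : S.Infinite := (hT.1 x0 trivial).mono (sep_subset _ _)
  have hSc : S.Countable := (countable_iUnion fun m => (hS m).countable).mono
    fun i hi => mem_iUnion.2 ⟨i.1, (⟨hi, rfl⟩ : i ∈ S ∧ i.1 = i.1)⟩
  obtain ⟨D⟩ := countable_infinite_iff_nonempty_denumerable.1 (And.intro hSc hSi)
  let e : ℕ → ℕ × Set Y := fun j => (Denumerable.eqv S).symm j
  have ei : Injective e := Subtype.val_injective.comp (Equiv.injective _)
  have er : e '' univ = S := by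
    ext i
    constructor
    · rintro ⟨j, -, rfl⟩; exact Subtype.coe_prop _
    · intro hi; exact ⟨Denumerable.eqv S ⟨i, hi⟩, trivial, by simp [e]⟩
  have hT' : Ix .T univ (fun j => u (e j)) univ := (ix_image ei.injOn).1 (er ▸ hT)
  obtain ⟨A, hA, hA'⟩ := hG (fun j => u (e j)) (fun j => uo _) fun E _ hE => by
    rcases E.eq_empty_or_nonempty with rfl | hne
    · simpa using infinite_univ
    · exact (hT'.infinite_of_tau (subset_univ _) hE hne).mono fun i hi => hi.2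
  obtain ⟨U, hU, hU'⟩ := select hne (e '' {j ∈ A | x0 ∈ u (e j)}) (by
    rintro _ ⟨j, hj, rfl⟩; exact ((e1 _ _).1 hj.2).1)
  refine ⟨U, hU, fun E hE => ?_⟩
  have hB : {j ∈ A | x0 ∈ u (e j)}.Infinite := (hA.sdiff (hA' x0 trivial)).mono fun j hj =>
    ⟨hj.1, by_contra fun h => hj.2 ⟨hj.1, h⟩⟩
  obtain ⟨m, hm, hm'⟩ := ((infinite_fst hS (er ▸ image_mono (subset_univ _))
    (hB.image ei.injOn)).sdiff (((hE.biUnion fun x _ => hA' x trivial).image e).image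
      Prod.fst)).nonempty
  obtain ⟨j, hj, hj'⟩ := hU' m hm
  refine ⟨m, fun z hz => ((e1 (m, U m) z).1 ?_).2⟩
  by_contra h
  exact hm' ⟨_, ⟨j, mem_biUnion hz ⟨hj.1, by change z ∉ u (e j); rw [hj']; exact h⟩, hj'⟩, rfl⟩

theorem str_union (F : ℕ → Set Y) (hF : ∀ k, Str (F k))
    (hU : ∀ E : Set Y, E.Finite → ∃ k, E ⊆ F k) : Str (univ : Set Y) := by
  intro 𝒰 u1 u2
  choose V h1 h2 using fun k => hF k (fun m => 𝒰 (Nat.pair k m)) (fun m => u1 _)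
    fun m E _ hE => u2 _ E (subset_univ _) hE
  refine ⟨fun n => V n.unpair.1 n.unpair.2, fun n => by simpa using h1 n.unpair.1 n.unpair.2,
    fun E _ hE => ?_⟩
  obtain ⟨k, hk⟩ := hU E hE
  obtain ⟨m, hm⟩ := h2 k E hk hE
  exact ⟨Nat.pair k m, by simpa using hm⟩

theorem str_of_not_gam {Y : Type} [MetricSpace Y] [SecondCountableTopology Y] (H : HI Y)
    (hG : ¬ Gam (univ : Set Y)) : Str (univ : Set Y) := by
  set B : Set Y := {x | ∀ s ∈ 𝓝 x, ¬ Gam s} with hB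
  have hBi : B.Infinite := by
    intro hBf
    have hex : ∀ x, ∃ s, Gam s ∧ (x ∈ Bᶜ → s ∈ 𝓝[Bᶜ] x) := by
      intro x
      by_cases hx : x ∈ B
      · exact ⟨∅, Gam.of_finite finite_empty, fun h => absurd hx h⟩
      · simp only [hB, mem_ofPred_eq, not_forall, not_not] at hx
        obtain ⟨s, hs, hg⟩ := hx
        exact ⟨s, hg, fun _ => mem_nhdsWithin_of_mem_nhds hs⟩
    choose f hf hf' using hex
    obtain ⟨t, -, htc, hcov⟩ := TopologicalSpace.countable_cover_nhdsWithin hf'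
    obtain ⟨g, hg⟩ := ((htc.image f).insert B).exists_eq_range (insert_nonempty _ _)
    refine hG (gam_univ H g (fun k => ?_) (eq_univ_of_forall fun x => ?_))
    · rcases (hg ▸ mem_range_self k : g k ∈ insert B (f '' t)) with h | ⟨y, -, h⟩
      · exact h ▸ Gam.of_finite hBf
      · exact h ▸ hf y
    · rw [← sUnion_range, ← hg]
      by_cases hx : x ∈ B
      · exact ⟨B, mem_insert _ _, hx⟩
      · obtain ⟨y, hy, h⟩ := mem_iUnion₂.1 (hcov hx)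
        exact ⟨_, mem_insert_of_mem _ ⟨y, hy, rfl⟩, h⟩
  let z : ℕ → Y := fun j => hBi.natEmbedding B j
  have zi : Injective z := Subtype.val_injective.comp (hBi.natEmbedding B).injective
  refine str_union (fun k => (Metric.ball (z k.unpair.1) (1 / ((k.unpair.2 : ℝ) + 1)))ᶜ)
    (fun k => ?_) fun E hE => ?_
  · have hp : (0 : ℝ) < 1 / ((k.unpair.2 : ℝ) + 1) := by positivity
    exact key H Metric.isClosed_closedBall Metric.isOpen_ball.isClosed_compl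
      (disjoint_compl_right_iff_subset.2 (Metric.closedBall_subset_ball (half_lt_self hp)))
      ((hBi.natEmbedding B _).2 _ (Metric.closedBall_mem_nhds _ (half_pos hp)))
  · obtain ⟨j, hj⟩ := (hE.preimage zi.injOn).exists_notMem
    obtain ⟨ε, hε, h⟩ := Metric.isOpen_iff.1 hE.isClosed.isOpen_compl _ hj
    obtain ⟨n, hn⟩ := exists_nat_one_div_lt hε
    refine ⟨Nat.pair j n, fun x hx hx' => h ?_ hx⟩
    simp only [Nat.unpair_pair] at hx'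
    exact Metric.ball_subset_ball hn.le hx'

theorem hi_of_sfin {X : Set ℝ} (h : SfinIn univ (OmegaCovers X) (TauCovers X)) : HI X := by
  intro ι u h1 h2 h3
  obtain ⟨F, -, hF, hT⟩ := h (fun n => u '' {i | n ≤ i.1}) trivial fun n =>
    ⟨⟨by rintro _ ⟨i, -, rfl⟩; exact h1 i, eq_univ_of_forall fun x => by
      obtain ⟨i, a, b⟩ := h3 n {x} (finite_singleton x)
      exact ⟨_, ⟨i, a, rfl⟩, b rfl⟩, by rintro ⟨i, -, e⟩; exact h2 i e⟩, fun E hE => by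
      obtain ⟨i, a, b⟩ := h3 n E hE
      exact ⟨_, ⟨i, a, rfl⟩, b⟩⟩
  have : ∀ V : ⋃ n, F n, ∃ i : ℕ × ι, u i = V ∧ ∃ n ≤ i.1, V.1 ∈ F n := by
    rintro ⟨V, hV⟩
    obtain ⟨n, hn⟩ := mem_iUnion.1 hV
    obtain ⟨i, a, b⟩ := (hF n).1 hn
    exact ⟨i, b, n, a, hn⟩
  choose idx h4 h5 using this
  have hinj : InjOn u (range idx) := by
    rintro _ ⟨V, rfl⟩ _ ⟨W, rfl⟩ e
    rw [h4, h4] at e
    rw [Subtype.ext e]
  refine ⟨range idx, fun m => ?_, ix_of_mem_cov (c := .T) hinj ?_⟩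
  · refine Finite.of_finite_image (f := u) ?_ (hinj.mono (sep_subset _ _))
    refine ((finite_Iic m).biUnion fun n _ => (hF n).2).subset ?_
    rintro _ ⟨_, ⟨⟨V, rfl⟩, e⟩, rfl⟩
    obtain ⟨n, a, b⟩ := h5 V
    exact mem_biUnion (e ▸ a : n ≤ m) (h4 V ▸ b)
  · have e : u '' range idx = ⋃ n, F n := by
      ext V
      constructor
      · rintro ⟨_, ⟨W, rfl⟩, rfl⟩; rw [h4]; exact W.2
      · intro hV; exact ⟨_, ⟨⟨V, hV⟩, rfl⟩, h4 _⟩
    rw [e]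
    exact hT

end ThmA

theorem omega_of_sfin_omega_tau (X : Set ℝ) [Nonempty X]
    (h : SfinIn univ (OmegaCovers X) (TauCovers X)) :
    S1In univ (OmegaCovers X) (OmegaCovers X) := by
  have H := ThmA.hi_of_sfin h
  intro 𝒰 _ h𝒰
  obtain ⟨U, h1, h2⟩ : ∃ U : ℕ → Set X, (∀ m, U m ∈ 𝒰 m) ∧ ∀ E : Set X, E.Finite → ∃ m, E ⊆ U m := by
    by_cases hG : ThmA.Gam (univ : Set X)
    · exact ThmA.of_gam H hG 𝒰 (fun m => (h𝒰 m).1.1) (fun m => (h𝒰 m).1.2.2) fun m => (h𝒰 m).2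
    · obtain ⟨U, h1, h2⟩ := ThmA.str_of_not_gam H hG 𝒰 (fun m => (h𝒰 m).1.1)
        fun m E _ hE => (h𝒰 m).2 E hE
      exact ⟨U, h1, fun E hE => h2 E (subset_univ _) hE⟩
  refine ⟨U, trivial, h1, ?_⟩
  rw [← image_univ]
  exact Ix.mem_cov (c := .Om) (fun E _ hE => let ⟨m, hm⟩ := h2 E hE; ⟨m, trivial, hm⟩)
    (fun m _ => (h𝒰 m).1.1 _ (h1 m)) fun m _ e => (h𝒰 m).1.2.2 (e ▸ h1 m)

end Pool.Agent.P.MP_b17faa_gt
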