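import Pool.Agent.P.MP_b17faa_gt.Frame
import Pool.Agent.P.MP_b17faa_gt.ThmA

/-!
Trivial implications and bookkeeping.
-/

namespace Pool.Agent.P.MP_b17faa_gt

open Set Function Pool.Agent.Lib.Helper87 Coded

section
variable {M : Set ZFSet.{0}} {X : Set ℝ} {A A' B B' : Set (Set (Set X))}

theorem S1In.mono (h : S1In M A B) (hA : A' ⊆ A) (hB : B ⊆ B') : S1In M A' B' :=
  fun 𝒰 h1 h2 => let ⟨U, a1, a2, a3⟩ := h 𝒰 h1 fun n => hA (h2 n); ⟨U, a1, a2, hB a3⟩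

theorem SfinIn.mono (h : SfinIn M A B) (hA : A' ⊆ A) (hB : B ⊆ B') : SfinIn M A' B' :=
  fun 𝒰 h1 h2 => let ⟨U, a1, a2, a3⟩ := h 𝒰 h1 fun n => hA (h2 n); ⟨U, a1, a2, hB a3⟩

theorem UfinIn.mono (h : UfinIn M A B) (hB : B ⊆ B') : UfinIn M A B' :=
  fun 𝒰 h1 h2 h3 => let ⟨U, a1, a2, a3⟩ := h 𝒰 h1 h2 h3; ⟨U, a1, a2, hB a3⟩

theorem s1In_univ : S1In univ A B ↔ S1 A B := by
  simp [S1In, S1]

theorem S1In.ufin (h : S1In univ A B) : UfinIn univ A B := fun 𝒰 h1 h2 _ => by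
  obtain ⟨U, -, a2, a3⟩ := h 𝒰 h1 h2
  exact ⟨fun n => {U n}, trivial, fun n => ⟨by simpa using a2 n, finite_singleton _⟩,
    by simpa using a3⟩

/-- `S₁(Ω, Ω)` implies `S₁(O, O)` -/
theorem rothberger_of_omega [Nonempty X] (h : S1In univ (OmegaCovers X) (OmegaCovers X)) :
    S1In univ (OpenCovers X) (OpenCovers X) := by
  classical
  intro 𝒰 _ h𝒰
  have ne : ∀ n (x : X), ∃ U ∈ 𝒰 n, x ∈ U := fun n x => mem_sUnion.1 ((h𝒰 n).2.1 ▸ mem_univ x)
  choose W hW hW' using ne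
  have fin : ∀ U : ℕ → Set X, (∀ n, U n ∈ 𝒰 n) → (∀ x, ∃ n, x ∈ U n) →
      ∃ U : ℕ → Set X, code U ∈ (univ : Set ZFSet.{0}) ∧ (∀ n, U n ∈ 𝒰 n) ∧
        range U ∈ OpenCovers X := fun U h1 h2 => by
    refine ⟨U, trivial, h1, ?_, ?_, ?_⟩
    · rintro _ ⟨n, rfl⟩
      exact (h𝒰 n).1 _ (h1 n)
    · simpa [eq_univ_iff_forall] using h2
    · rintro ⟨n, hn⟩
      exact (h𝒰 n).2.2 (hn ▸ h1 n)
  let 𝒱 : ℕ → Set (Set X) := fun j => {V | ∃ (k : ℕ) (U : ℕ → Set X),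
    (∀ i, U i ∈ 𝒰 (Nat.pair j i)) ∧ V = ⋃ i < k, U i}
  by_cases h0 : ∃ j, univ ∈ 𝒱 j
  · obtain ⟨j, k, U, h1, h2⟩ := h0
    refine fin (fun n => if n.unpair.1 = j then U n.unpair.2 else W n (Classical.arbitrary X))
      (fun n => ?_) fun x => ?_
    · split_ifs with h3
      · simpa [← h3] using h1 n.unpair.2
      · exact hW _ _
    · obtain ⟨i, -, hi⟩ := mem_iUnion₂.1 (h2 ▸ mem_univ x)
      exact ⟨Nat.pair j i, by simpa⟩
  push Not at h0
  have om : ∀ j, ∀ F : Set X, F.Finite → ∃ V ∈ 𝒱 j, F ⊆ V := fun j F hF => by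
    obtain ⟨k, e, he⟩ : ∃ (k : ℕ) (e : ℕ → X), F ⊆ e '' Iio k := by
      refine ⟨hF.toFinset.toList.length, fun i => hF.toFinset.toList.getD i (Classical.arbitrary X),
        fun x hx => ?_⟩
      obtain ⟨i, h1, h2⟩ := List.getElem_of_mem (Finset.mem_toList.2 (hF.mem_toFinset.2 hx))
      exact ⟨i, h1, by simp [List.getD_eq_getElem?_getD, List.getElem?_eq_getElem h1, h2]⟩
    refine ⟨_, ⟨k, fun i => W _ (e i), fun i => hW _ _, rfl⟩, he.trans ?_⟩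
    rintro _ ⟨i, hi, rfl⟩
    exact mem_iUnion₂.2 ⟨i, hi, hW' _ _⟩
  have hV : ∀ j, 𝒱 j ∈ OmegaCovers X := fun j => by
    refine ⟨⟨?_, eq_univ_of_forall fun x => ?_, h0 j⟩, om j⟩
    · rintro _ ⟨k, U, h1, rfl⟩
      exact isOpen_biUnion fun i _ => (h𝒰 _).1 _ (h1 i)
    · obtain ⟨V, h1, h2⟩ := om j {x} (finite_singleton x)
      exact ⟨V, h1, h2 rfl⟩
  obtain ⟨V, -, h1, h2⟩ := h 𝒱 trivial hV
  choose k U h3 h4 using h1
  refine fin (fun n => U n.unpair.1 n.unpair.2) (fun n => by simpa using h3 n.unpair.1 n.unpair.2)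
    fun x => ?_
  obtain ⟨_, ⟨j, rfl⟩, h5⟩ := h2.2 {x} (finite_singleton x)
  obtain ⟨i, -, hi⟩ := mem_iUnion₂.1 (h4 j ▸ h5 rfl)
  exact ⟨Nat.pair j i, by simpa⟩

end

theorem Approx.NegFin.neg1 {P : Type} [Preorder P] {Y : Type} [TopologicalSpace Y]
    {a : Approx P Y} {A B : Cl} (h : a.NegFin A B) : a.Neg1 A B :=
  let ⟨u, h1, h2⟩ := h; ⟨u, h1, fun S hS => h2 S fun n => (hS n).finite⟩

/-- a model with a nonempty set of reals having all properties of the first list and none of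
the second -/
def Separates (I J : List ℕ) : Prop :=
  ∃ M : Set ZFSet.{0}, TransModelZFC M ∧ ∃ X : Set ℝ, code X ∈ M ∧ X.Nonempty ∧
    (∀ i ∈ I, Property M X i) ∧ ∀ j ∈ J, ¬ Property M X j

theorem Separates.pair {I J : List ℕ} (h : Separates I J) {i j : ℕ} (hi : i ∈ I) (hj : j ∈ J) :
    ∃ M : Set ZFSet.{0}, TransModelZFC M ∧ ∃ X : Set ℝ, code X ∈ M ∧ X.Nonempty ∧
      Property M X i ∧ ¬ Property M X j :=
  let ⟨M, h1, X, h2, h3, h4, h5⟩ := h; ⟨M, h1, X, h2, h3, h4 i hi, h5 j hj⟩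

variable {P : Type} [Preorder P] [Nonempty P] {Y : Type} [TopologicalSpace Y] (a : Approx P Y)
  {e : Y → ℝ} (he : Topology.IsInducing e)

include he

theorem sep1 (h1 : a.Pos1 .G .G) (h2 : a.Neg1 .T .O) (h3 : a.NegFin .T .Om) :
    Separates [0, 1, 2, 3, 12, 13, 18, 19, 20] [5, 6, 7, 14, 15] := by
  obtain ⟨M, X, a1, a2, a3, h⟩ := realize a he
  have := a3.to_subtype
  have gt := gamma_subset_tau (X := X)
  have tO := tau_subset_omega (X := X)
  have oo := omega_subset_open (X := X)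
  have b1 := (h .G .G).1 nofun h1
  have b2 := (h .G .G).2.1 nofun h1.posFin
  have b3 := (h .G .G).2.2.1 h1.posU
  have b4 := (h .T .O).2.2.2.1 h2
  have b5 := (h .T .Om).2.2.2.2.2.1 h3
  refine ⟨M, a1, X, a2, a3, ?_, ?_⟩ <;> simp only [List.forall_mem_cons, List.not_mem_nil,
    false_imp_iff, implies_true, and_true]
  · exact ⟨b1, b1.mono Subset.rfl gt, b1.mono Subset.rfl (gt.trans tO),
      b1.mono Subset.rfl ((gt.trans tO).trans oo), b2.mono Subset.rfl gt,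
      b2.mono Subset.rfl (gt.trans tO), b3, b3.mono gt, b3.mono (gt.trans tO)⟩
  · exact ⟨fun h => b4 (S1In.mono h Subset.rfl (tO.trans oo)),
      fun h => b4 (S1In.mono h Subset.rfl oo), b4, fun h => b5 (SfinIn.mono h Subset.rfl tO), b5⟩

theorem sep2 (h1 : a.Pos1 .T .G) (h2 : a.Neg1 .O .O) (h3 : a.NegFin .Om .Om) :
    Separates [4, 5, 6, 7, 14, 15] [10, 11, 17] := by
  obtain ⟨M, X, a1, a2, a3, h⟩ := realize a he
  have := a3.to_subtype
  have gt := gamma_subset_tau (X := X)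
  have tO := tau_subset_omega (X := X)
  have oo := omega_subset_open (X := X)
  have b1 := (h .T .G).1 nofun h1
  have b2 := (h .T .G).2.1 nofun h1.posFin
  refine ⟨M, a1, X, a2, a3, ?_, ?_⟩ <;> simp only [List.forall_mem_cons, List.not_mem_nil,
    false_imp_iff, implies_true, and_true]
  · exact ⟨b1, b1.mono Subset.rfl gt, b1.mono Subset.rfl (gt.trans tO),
      b1.mono Subset.rfl ((gt.trans tO).trans oo), b2.mono Subset.rfl gt,
      b2.mono Subset.rfl (gt.trans tO)⟩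
  · exact ⟨(h .Om .Om).2.2.2.1 h3.neg1, (h .O .O).2.2.2.1 h2, (h .Om .Om).2.2.2.2.2.1 h3⟩

theorem sep3 (h1 : a.PosFin .Om .T) (h2 : a.NegU .G) (h3 : a.Neg1t .G .T) :
    Separates [12, 14, 16] [0, 1, 4, 5, 8, 9, 18] := by
  obtain ⟨M, X, a1, a2, a3, h⟩ := realize a he
  have := a3.to_subtype
  have gt := gamma_subset_tau (X := X)
  have tO := tau_subset_omega (X := X)
  have b1 := (h .Om .T).2.1 nofun h1
  have b2 := (h .G .T).2.2.2.2.1 h3
  refine ⟨M, a1, X, a2, a3, ?_, ?_⟩ <;> simp only [List.forall_mem_cons, List.not_mem_nil,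
    false_imp_iff, implies_true, and_true]
  · exact ⟨b1.mono (gt.trans tO) Subset.rfl, b1.mono tO Subset.rfl, b1⟩
  · exact ⟨fun h => b2 (S1In.mono h Subset.rfl gt), b2, fun h => b2 (S1In.mono h gt gt),
      fun h => b2 (S1In.mono h gt Subset.rfl), fun h => b2 (S1In.mono h (gt.trans tO) gt),
      fun h => b2 (S1In.mono h (gt.trans tO) Subset.rfl), (h .G .G).2.2.2.2.2.2 h2⟩

theorem sep6 (h1 : a.PosU .Om) (h2 : a.NegFin .G .Om) : Separates [20] [13] := by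
  obtain ⟨M, X, a1, a2, a3, h⟩ := realize a he
  refine ⟨M, a1, X, a2, a3, ?_, ?_⟩ <;> simp only [List.forall_mem_cons, List.not_mem_nil,
    false_imp_iff, implies_true, and_true]
  · exact (h .G .Om).2.2.1 h1
  · exact (h .G .Om).2.2.2.2.2.1 h2

end Pool.Agent.P.MP_b17faa_gt
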