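import Pool.Agent.P.MP_b17faa_gt.X1b
import Pool.Agent.P.MP_b17faa_gt.X4b

/-!
A Ramsey theorem for pairs in splitting patterns and the creatures of pairs.
-/

namespace Pool.Agent.P.MP_b17faa_gt.X4

open Set Filter Function
open X1 (Nd Pre Big root lev pre_snoc not_both length_snoc big_lev root_pre)

/-- `t` is above the left successor of `s` -/
def R (s t : Nd) : Prop := Pre (s.snoc false) t

theorem R.pre {s t : Nd} (h : R s t) : Pre s t := (pre_snoc _ _).trans h

theorem R.trans {s t r : Nd} (h : R s t) (h' : R t r) : R s r := X1.Pre.trans h h'.pre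

theorem not_pre_snoc (s : Nd) (b : Bool) : ¬ Pre (s.snoc b) s := fun h => by
  have := List.IsPrefix.length_le h
  rw [length_snoc] at this
  omega

theorem big_union {a b : ℕ} {t : Nd} {S S' : Set Nd} (h : Big (a + b) t (S ∪ S')) :
    Big a t S ∨ Big b t S' := by
  induction hn : a + b generalizing a b t with
  | zero =>
    obtain rfl : a = 0 := by omega
    exact Or.inl trivial
  | succ n ih =>
    cases a with
    | zero => exact Or.inl trivial
    | succ a =>
    cases b with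
    | zero => exact Or.inr trivial
    | succ b =>
    rw [hn] at h
    obtain ⟨s, h1 | h1, h2, h3, h4⟩ := h
    · have e : a + (b + 1) = n := by omega
      rcases ih (e ▸ h3) e with h5 | h5
      · rcases ih (e ▸ h4) e with h6 | h6
        exacts [Or.inl ⟨s, h1, h2, h5, h6⟩, Or.inr (h6.down (h2.trans (pre_snoc _ _)))]
      · exact Or.inr (h5.down (h2.trans (pre_snoc _ _)))
    · have e : a + 1 + b = n := by omega
      rcases ih (e ▸ h3) e with h5 | h5
      · exact Or.inl (h5.down (h2.trans (pre_snoc _ _)))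
      · rcases ih (e ▸ h4) e with h6 | h6
        exacts [Or.inl (h6.down (h2.trans (pre_snoc _ _))), Or.inr ⟨s, h1, h2, h5, h6⟩]

theorem big_color {κ : Type} [Fintype κ] {k a : ℕ} (hk : Fintype.card κ ≤ k) (χ : Nd → κ)
    {t : Nd} {C : Set Nd} (h : Big (k * a + 1) t C) : ∃ g, Big a t {c ∈ C | χ c = g} := by
  classical
  have key : ∀ (G : Finset κ) (C : Set Nd), (∀ c ∈ C, χ c ∈ G) → Big (G.card * a + 1) t C →
      ∃ g, Big a t {c ∈ C | χ c = g} := by
    intro G
    induction G using Finset.induction_on with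
    | empty => exact fun C h1 ⟨s, h2, _⟩ => absurd (h1 s h2) (by simp)
    | insert g G hg ih =>
      intro C h1 h2
      rw [Finset.card_insert_of_notMem hg,
        show (G.card + 1) * a + 1 = a + (G.card * a + 1) by ring] at h2
      rcases big_union (S := {c ∈ C | χ c = g}) (S' := {c ∈ C | χ c ∈ G})
        (h2.mono fun c hc => (Finset.mem_insert.1 (h1 c hc)).imp (fun h => ⟨hc, h⟩)
          fun h => ⟨hc, h⟩) with h3 | h3
      · exact ⟨g, h3⟩
      · obtain ⟨g', h4⟩ := ih _ (fun c hc => hc.2) h3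
        exact ⟨g', h4.mono fun c hc => ⟨hc.1.1, hc.2⟩⟩
  exact key Finset.univ C (fun _ _ => Finset.mem_univ _)
    (h.le (Nat.succ_le_succ (Nat.mul_le_mul_right _ hk)))

/-- heights for prehomogeneous patterns -/
def ph (k : ℕ) : ℕ → ℕ
  | 0 => 0
  | d + 1 => k * ph k d + 1 + ph k d + 1

theorem big_prehom {κ : Type} [Fintype κ] {k : ℕ} (hk : Fintype.card κ ≤ k) (χ : Nd → Nd → κ)
    {d : ℕ} {t : Nd} {C : Set Nd} (h : Big (ph k d) t C) : ∃ D ⊆ C ∩ {s | Pre t s}, Big d t D ∧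
      ∀ s ∈ D, ∀ r ∈ D, ∀ r' ∈ D, R s r → R s r' → χ s r = χ s r' := by
  induction d generalizing t C with
  | zero => exact ⟨∅, empty_subset _, trivial, by simp⟩
  | succ d ih =>
    obtain ⟨s, h1, h2, h3, h4⟩ := h
    obtain ⟨g, hg⟩ := big_color hk (χ s) (h3.le (Nat.le_add_right _ _))
    obtain ⟨D0, a1, a2, a3⟩ := ih hg
    obtain ⟨D1, b1, b2, b3⟩ := ih (h4.le (Nat.le_add_left _ _))
    have up : ∀ b, ∀ s' r, Pre (s.snoc b) s' → R s' r → r ∈ insert s (D0 ∪ D1) →
        r ∈ bif b then D1 else D0 := by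
      rintro b s' r c1 c2 (rfl | c3 | c3)
      · exact absurd (c1.trans c2.pre) (not_pre_snoc _ _)
      · cases b
        exacts [c3, absurd ⟨(a1 c3).2, c1.trans c2.pre⟩ (not_both s r)]
      · cases b
        exacts [absurd ⟨c1.trans c2.pre, (b1 c3).2⟩ (not_both s r), c3]
    have up' : ∀ r, R s r → r ∈ insert s (D0 ∪ D1) → χ s r = g := by
      rintro r c2 (rfl | c3 | c3)
      exacts [absurd c2 (not_pre_snoc _ _), (a1 c3).1.2, absurd ⟨c2, (b1 c3).2⟩ (not_both s r)]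
    refine ⟨insert s (D0 ∪ D1), ?_, ⟨s, mem_insert _ _, h2,
      a2.mono (subset_union_left.trans (subset_insert _ _)),
      b2.mono (subset_union_right.trans (subset_insert _ _))⟩, ?_⟩
    · rintro r (rfl | c | c)
      exacts [⟨h1, h2⟩, ⟨(a1 c).1.1, h2.trans ((pre_snoc _ _).trans (a1 c).2)⟩,
        ⟨(b1 c).1, h2.trans ((pre_snoc _ _).trans (b1 c).2)⟩]
    · rintro s' (rfl | c | c) r c1 r' c2 c3 c4
      · exact (up' r c3 c1).trans (up' r' c4 c2).symm
      · exact a3 s' c r (up false _ _ (a1 c).2 c3 c1) r' (up false _ _ (a1 c).2 c4 c2) c3 c4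
      · exact b3 s' c r (up true _ _ (b1 c).2 c3 c1) r' (up true _ _ (b1 c).2 c4 c2) c3 c4

theorem big_ramsey {κ : Type} [Fintype κ] [Nonempty κ] {k : ℕ} (hk : Fintype.card κ ≤ k)
    (χ : Nd → Nd → κ) {d : ℕ} {t : Nd} {C : Set Nd} (h : Big (ph k (k * d + 1)) t C) :
    ∃ D ⊆ C, Big d t D ∧ ∃ g, ∀ s ∈ D, ∀ r ∈ D, R s r → χ s r = g := by
  classical
  obtain ⟨D, a1, a2, a3⟩ := big_prehom hk χ h
  have : ∀ s, ∃ g, s ∈ D → ∀ r ∈ D, R s r → χ s r = g := fun s => by
    by_cases h : ∃ r ∈ D, R s r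
    · obtain ⟨r, b1, b2⟩ := h
      exact ⟨χ s r, fun hs r' b3 b4 => a3 s hs r' b3 r b1 b4 b2⟩
    · exact ⟨Classical.arbitrary κ, fun _ r b1 b2 => absurd ⟨r, b1, b2⟩ h⟩
  choose φ hφ using this
  obtain ⟨g, hg⟩ := big_color hk φ a2
  exact ⟨_, fun c hc => (a1 hc.1).1, hg, g, fun s b1 r b2 b3 => (hφ s b1.1 r b2.1 b3).trans b1.2⟩

theorem big_low {a b : ℕ} {t : Nd} {C : Set Nd} (h : Big (b + a) t C) :
    Big a t {c ∈ C | Big b (c.snoc false) C} := by
  induction a generalizing t with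
  | zero => trivial
  | succ a ih =>
    obtain ⟨s, h1, h2, h3, h4⟩ := h
    exact ⟨s, ⟨h1, h3.le (Nat.le_add_right _ _)⟩, h2, ih h3, ih h4⟩

/-- heights of the patterns of a given norm -/
def ht (k : ℕ) : ℕ → ℕ
  | 0 => 2
  | d + 1 => ph k (k * ht k d + 1) + (ht k d + ht k d)

theorem ht_mono (k : ℕ) : Monotone (ht k) :=
  monotone_nat_of_le_succ fun d => by rw [ht]; omega

/-- numbers of stems -/
noncomputable def cc : ℕ → ℕ
  | 0 => 1
  | i + 1 => cc i * ((lev (ht ((2 ^ cc i) ^ (i + 2 ^ cc i + 1)) (i * cc i))).card *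
      (lev (ht ((2 ^ cc i) ^ (i + 2 ^ cc i + 1)) (i * cc i))).card)

/-- numbers of colours -/
noncomputable def kk (i : ℕ) : ℕ := (2 ^ cc i) ^ (i + 2 ^ cc i + 1)

/-- the finite trees -/
noncomputable def T (i : ℕ) : Finset Nd := lev (ht (kk i) (i * cc i))

theorem root_mem (i : ℕ) : root ∈ T i := X1.mem_lev.2 (Nat.zero_le _)

instance (i : ℕ) : Finite {C : Set Nd // C ⊆ T i} :=
  (T i).finite_toSet.finite_subsets.to_subtype

/-- the creatures of pairs -/
noncomputable def cr : Cr (fun i => T i × T i) fun i => {C : Set Nd // C ⊆ T i} where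
  ps _ C := {p | p.1.1 ∈ C.1 ∧ p.2.1 ∈ C.1 ∧ R p.1 p.2}
  nr i k C := Big (ht (kk i) k) root C.1
  c := cc
  ps_mono _ _ _ h _ hp := ⟨h hp.1, h hp.2.1, hp.2.2⟩
  nr_le _ _ _ _ h h' := h.le (ht_mono _ h')
  c_mono := monotone_nat_of_le_succ fun i => Nat.le_mul_of_pos_right _
    (Nat.mul_pos (Finset.card_pos.2 ⟨_, root_mem i⟩) (Finset.card_pos.2 ⟨_, root_mem i⟩))
  card_le m := by
    rw [Fintype.card_pi]
    induction m with
    | zero => simp [cc]
    | succ m ih =>
      rw [Fin.prod_univ_castSucc, cc]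
      refine Nat.mul_le_mul ih (le_of_eq ?_)
      rw [Fintype.card_prod, Fintype.card_coe]
      rfl
  big i k C κ _ hk χ h := by
    classical
    have : Nonempty κ := ⟨χ (⟨_, root_mem i⟩, ⟨_, root_mem i⟩)⟩
    obtain ⟨D, a1, a2, g, a3⟩ := big_ramsey hk
      (fun s t => if h : s ∈ T i ∧ t ∈ T i then χ (⟨s, h.1⟩, ⟨t, h.2⟩) else Classical.arbitrary κ)
      (h.le (Nat.le_add_right _ _))
    have : ∀ p : T i × T i, p.1.1 ∈ D ∧ p.2.1 ∈ D ∧ R p.1 p.2 → χ p = g := fun p hp => by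
      simpa using a3 _ hp.1 _ hp.2.1 hp.2.2
    exact ⟨⟨D, a1.trans C.2⟩, a1, a2, fun p hp q hq => (this p hp).trans (this q hq).symm⟩

/-- the norm of `C` at coordinate `i` is at least `m` -/
def Nor (i m : ℕ) (C : Set Nd) : Prop := Big (ht (kk i) (m * cc i)) root C

theorem Nor.le {i m m' : ℕ} {C : Set Nd} (h : Nor i m C) (h' : m' ≤ m) : Nor i m' C :=
  X1.Big.le h (ht_mono _ (Nat.mul_le_mul_right _ h'))

theorem nor_T {i m : ℕ} (h : m ≤ i) : Nor i m (T i) :=
  Nor.le (big_lev (by simp [root])) h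

theorem Nor.two {i m : ℕ} {C : Set Nd} (h : Nor i m C) : Big 2 root C :=
  X1.Big.le h (ht_mono _ (Nat.zero_le _))

theorem Nor.low {i m : ℕ} {C : Set Nd} (h : Nor i (m + 1) C) :
    Nor i m {c ∈ C | Big (ht (kk i) (m * cc i)) (c.snoc false) C} := by
  refine big_low (X1.Big.le h ((Nat.le_add_left _ _).trans (ht_mono (kk i)
    (a := m * cc i + 1) ?_)))
  have : 1 ≤ cc i := cr.c_mono (Nat.zero_le i)
  nlinarith

end Pool.Agent.P.MP_b17faa_gt.X4
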