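import Pool.Agent.P.MP_b17faa_gt.Index
import Pool.Agent.P.MP_b17faa_gt.X4c

/-!
Countably closed approximations of a set with `S_fin(T, T)` but not `S₁(T, O)`.
-/

namespace Pool.Agent.P.MP_b17faa_gt.X4

open Set Filter Function Nat
open X1 (Nd Pre Big root pre_snoc not_both root_pre diag col)

/-- conditions: a countable tower of points and a large side condition at each coordinate -/
structure Cond where
  A : Set (ℕ → Nd)
  C : ℕ → Set Nd
  cnt : A.Countable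
  tv : ∀ x ∈ A, ∀ i, x i ∈ T i
  sub : ∀ i, C i ⊆ T i
  nor : ∀ m, ∀ᶠ i in atTop, Nor i m (C i)
  ext : ∀ a ∈ A, ∀ᶠ i in atTop, ∀ c ∈ C i, R (a i) c
  lin : ∀ a ∈ A, ∀ b ∈ A, a = b ∨ (∀ᶠ i in atTop, R (a i) (b i)) ∨ ∀ᶠ i in atTop, R (b i) (a i)

instance : Preorder Cond where
  le q p := p.A ⊆ q.A ∧ (∀ᶠ i in atTop, q.C i ⊆ p.C i) ∧
    ∀ x ∈ q.A, x ∉ p.A → ∀ᶠ i in atTop, x i ∈ p.C i
  le_refl _ := ⟨Subset.rfl, .of_forall fun _ => Subset.rfl, fun _ h h' => absurd h h'⟩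
  le_trans r q p h h' := by
    refine ⟨h'.1.trans h.1, ?_, fun x hx hp => ?_⟩
    · filter_upwards [h.2.1, h'.2.1] with i h1 h2 using h1.trans h2
    · by_cases hq : x ∈ q.A
      · exact h'.2.2 x hq hp
      · filter_upwards [h.2.2 x hx hq, h'.2.1] with i h1 h2 using h2 h1

instance : Nonempty Cond :=
  ⟨⟨∅, fun i => T i, countable_empty, by simp, fun _ => Subset.rfl,
    fun m => (eventually_ge_atTop m).mono fun _ h => nor_T h, by simp, by simp⟩⟩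

theorem closed (s : ℕ → Cond) (hs : Antitone s) : ∃ q, ∀ n, q ≤ s n := by
  obtain ⟨ρ, h1, h2⟩ := diag (Q := fun r i => Nor i r ((s r).C i) ∧
      ∀ r' ∈ Iic r, (s r).C i ⊆ (s r').C i) fun r =>
    ((s r).nor r).and ((eventually_all_finite (finite_Iic r)).2 fun r' h => (hs h).2.1)
  have h3 : ∀ r, ∀ᶠ i in atTop, (s (ρ i)).C i ⊆ (s r).C i := fun r => by
    filter_upwards [h2, h1.eventually_ge_atTop r] with i a1 a2 using a1.2 r a2
  refine ⟨⟨⋃ n, (s n).A, fun i => (s (ρ i)).C i, countable_iUnion fun n => (s n).cnt, ?_,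
    fun i => (s _).sub i, fun m => ?_, ?_, ?_⟩, fun n => ⟨subset_iUnion (fun n => (s n).A) n,
      h3 n, ?_⟩⟩
  · rintro x ⟨_, ⟨n, rfl⟩, hx⟩
    exact (s n).tv x hx
  · filter_upwards [h2, h1.eventually_ge_atTop m] with i a1 a2 using a1.1.le a2
  · rintro x ⟨_, ⟨r, rfl⟩, hx⟩
    filter_upwards [(s r).ext x hx, h3 r] with k a1 a2 c hc
    exact a1 c (a2 hc)
  · rintro x ⟨_, ⟨r, rfl⟩, hx⟩ y ⟨_, ⟨r', rfl⟩, hy⟩
    exact (s (max r r')).lin x ((hs (le_max_left _ _)).1 hx) y ((hs (le_max_right _ _)).1 hy)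
  · rintro x ⟨_, ⟨r, rfl⟩, hx⟩ hn
    exact (hs (le_max_left n r)).2.2 x ((hs (le_max_right n r)).1 hx) hn

/-- adding points -/
theorem add (p : Cond) : ∃ L : ℕ → Set Nd, (∀ i, L i ⊆ p.C i) ∧
    (∀ m, ∀ᶠ i in atTop, Nor i m (L i)) ∧ ∀ x y : ℕ → Nd, (∀ i, x i ∈ T i) → (∀ i, y i ∈ T i) →
      (∀ᶠ i in atTop, x i ∈ L i) → (∀ᶠ i in atTop, y i ∈ L i) →
      (x = y ∨ ∀ᶠ i in atTop, R (x i) (y i)) → ∃ q ≤ p, x ∈ q.A ∧ y ∈ q.A := by
  classical
  obtain ⟨ρ, h1, h2⟩ := diag (Q := fun r i => Nor i (r + 1) (p.C i)) fun r => p.nor _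
  set L : ℕ → Set Nd :=
    fun i => {c ∈ p.C i | Big (ht (kk i) (ρ i * cc i)) (c.snoc false) (p.C i)}
  refine ⟨L, fun i => sep_subset _ _, fun m => ?_, fun x y x1 y1 x2 y2 h => ?_⟩
  · filter_upwards [h2, h1.eventually_ge_atTop m] with i a1 a2 using a1.low.le a2
  set C : ℕ → Set Nd := fun i => if y i ∈ L i then p.C i ∩ {c | R (y i) c} else p.C i
  have hC : ∀ i, C i ⊆ p.C i := fun i => by
    simp only [C]
    split_ifs
    exacts [inter_subset_left, Subset.rfl]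
  have hz : ∀ z ∈ ({x, y} : Set (ℕ → Nd)), ∀ᶠ i in atTop, z i ∈ p.C i := by
    rintro z (rfl | rfl)
    exacts [x2.mono fun _ h => h.1, y2.mono fun _ h => h.1]
  have old : ∀ a ∈ p.A, ∀ z ∈ ({x, y} : Set (ℕ → Nd)), ∀ᶠ i in atTop, R (a i) (z i) :=
    fun a ha z h => by filter_upwards [p.ext a ha, hz z h] with k a1 a2 using a1 _ a2
  have hy : ∀ᶠ i in atTop, ∀ c ∈ C i, R (y i) c := y2.mono fun i a2 c hc => by
    simp only [C, if_pos a2] at hc
    exact hc.2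
  refine ⟨⟨p.A ∪ {x, y}, C, p.cnt.union (toFinite _).countable, ?_,
    fun i => (hC i).trans (p.sub i), fun m => ?_, ?_, ?_⟩,
    ⟨subset_union_left, .of_forall hC, ?_⟩, Or.inr (Or.inl rfl), Or.inr (Or.inr rfl)⟩
  · rintro z (hz | rfl | rfl)
    exacts [p.tv z hz, x1, y1]
  · filter_upwards [y2, h1.eventually_ge_atTop m] with i a1 a2
    simp only [C, if_pos a1]
    exact Nor.le (m := ρ i) (a1.2.cone.down (root_pre _)) a2
  · rintro z (hz | rfl | rfl)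
    · filter_upwards [p.ext z hz] with k a1 c hc using a1 c (hC _ hc)
    · rcases h with rfl | h
      · exact hy
      · filter_upwards [h, hy] with k a1 a2 c hc using a1.trans (a2 c hc)
    · exact hy
  · rintro z (hz | hz) w (hw | hw)
    · exact p.lin z hz w hw
    · exact Or.inr (Or.inl (old z hz w hw))
    · exact Or.inr (Or.inr (old w hw z hz))
    · rcases hz with rfl | rfl <;> rcases hw with rfl | rfl
      exacts [Or.inl rfl, h.imp_right Or.inl, h.imp Eq.symm Or.inr, Or.inl rfl]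
  · rintro z (h | h) hz'
    exacts [absurd h hz', hz z h]

/-- adding a point along a choice between two incompatible nodes at each coordinate -/
theorem two (p : Cond) : ∃ c : ℕ → Bool → Nd,
    (∀ i r, ¬ (Pre (c i false) r ∧ Pre (c i true) r)) ∧ ∀ σ : ℕ → Bool,
      ∃ q ≤ p, (fun i => c i (σ i)) ∈ q.A := by
  obtain ⟨L, h1, h2, h3⟩ := add p
  have : ∀ i, ∃ c : Bool → Nd, (∀ r, ¬ (Pre (c false) r ∧ Pre (c true) r)) ∧
      (∀ b, c b ∈ T i) ∧ (Nor i 0 (L i) → ∀ b, c b ∈ L i) := fun i => by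
    by_cases h : Nor i 0 (L i)
    · obtain ⟨c, a1, a2⟩ := h.two.two
      exact ⟨c, a2, fun b => p.sub i (h1 i (a1 b)), fun _ => a1⟩
    · obtain ⟨c, a1, a2⟩ := (nor_T (i := i) (Nat.zero_le _)).two.two
      exact ⟨c, a2, a1, fun h' => absurd h' h⟩
  choose c a1 a2 a3 using this
  refine ⟨c, a1, fun σ => ?_⟩
  obtain ⟨q, b1, b2, -⟩ := h3 (fun i => c i (σ i)) _ (fun i => a2 i _) (fun i => a2 i _)
    ((h2 0).mono fun i hi => a3 i hi _) ((h2 0).mono fun i hi => a3 i hi _) (Or.inl rfl)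
  exact ⟨q, b1, b2⟩

/-- the approximations -/
def apx : Approx Cond (ℕ → Nd) where
  pt := Cond.A
  countable := Cond.cnt
  anti _ _ h := h.1
  closed := closed
  nonempty p := by
    obtain ⟨c, -, h⟩ := two p
    obtain ⟨q, h1, h2⟩ := h fun _ => true
    exact ⟨q, h1, _, h2⟩

/-- the bad covers -/
def bad (e : ℕ ≃ ℕ × Nd) (n j : ℕ) : Set (ℕ → Nd) :=
  {x | Pre (x (pair n (e j).1)) (e j).2 ∧ (e j).2 ∈ T (pair n (e j).1)}

theorem input (e : ℕ ≃ ℕ × Nd) (p : Cond) : apx.Input .T (bad e) p where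
  isOpen n j := (isOpen_discrete {c | Pre c (e j).2 ∧ (e j).2 ∈ T (pair n (e j).1)}).preimage
    (continuous_apply (A := fun _ : ℕ => Nd) (pair n (e j).1))
  proper q _ n j := by
    obtain ⟨c, h1, h2⟩ := two q
    obtain ⟨b, hb⟩ : ∃ b, ¬ Pre (c (pair n (e j).1) b) (e j).2 := by
      by_contra hc
      push Not at hc
      exact h1 _ _ ⟨hc _, hc _⟩
    obtain ⟨r, a1, a2⟩ := h2 fun _ => b
    exact ⟨r, a1, fun h => hb (h a2).1⟩
  ix q _ n := by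
    have fin : ∀ x y : ℕ → Nd, (∀ᶠ i in atTop, Pre (y i) (x i)) →
        {j ∈ (univ : Set ℕ) | x ∈ bad e n j ∧ y ∉ bad e n j}.Finite := fun x y h => by
      obtain ⟨k0, hk⟩ := eventually_atTop.1 ((col n).eventually h)
      refine (((finite_Iio k0).biUnion fun k _ =>
        (finite_singleton k).prod (T (pair n k)).finite_toSet).preimage
          e.injective.injOn).subset fun j hj => ?_
      refine mem_biUnion (x := (e j).1) ?_ ⟨rfl, hj.2.1.2⟩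
      by_contra hc
      exact hj.2.2 ⟨(hk _ (not_lt.1 hc)).trans hj.2.1.1, hj.2.1.2⟩
    refine ⟨fun x hx => ?_, fun x hx y hy => ?_⟩
    · refine infinite_of_injective_forall_mem (f := fun k => e.symm (k, x (pair n k)))
        (fun a b h => congrArg Prod.fst (e.symm.injective h)) fun k => ⟨trivial, ?_⟩
      simpa [bad] using ⟨X1.Pre.refl _, q.tv x hx _⟩
    · rcases q.lin x hx y hy with rfl | h | h
      exacts [Or.inl (fin x x (.of_forall fun _ => X1.Pre.refl _)),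
        Or.inr (fin y x (h.mono fun _ => R.pre)), Or.inl (fin x y (h.mono fun _ => R.pre))]

theorem neg1 (e : ℕ ≃ ℕ × Nd) : apx.Neg1 .T .O := by
  refine ⟨bad e, input e, fun S hS p => ?_⟩
  obtain ⟨c, h1, h2⟩ := two p
  have : ∀ i, ∃ b, ∀ n j, (n, j) ∈ S → pair n (e j).1 = i → ¬ Pre (c i b) (e j).2 := fun i => by
    by_contra hc
    push Not at hc
    obtain ⟨n, j, a1, a2, a3⟩ := hc false
    obtain ⟨n', j', b1, b2, b3⟩ := hc true
    obtain rfl : n = n' := (pair_eq_pair.1 (a2.trans b2.symm)).1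
    obtain rfl : j = j' := hS n a1 b1
    exact h1 _ _ ⟨a3, b3⟩
  choose σ hσ using this
  obtain ⟨q, a1, a2⟩ := h2 σ
  refine ⟨q, a1, fun h => ?_⟩
  obtain ⟨⟨n, j⟩, b1, b2⟩ := h _ a2
  exact hσ _ n j b1 rfl b2.1

/-- the lower point of a pair -/
def lo (w : ∀ i, T i × T i) : ℕ → Nd := fun i => (w i).1

/-- the upper point of a pair -/
def hi (w : ∀ i, T i × T i) : ℕ → Nd := fun i => (w i).2

theorem dcd_open {U : Set (ℕ → Nd)} (hU : IsOpen U) {f : (∀ i, T i × T i) → ℕ → Nd}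
    (hf : ∀ w w' i, w i = w' i → f w i = f w' i) : cr.Dcd (f ⁻¹' U) :=
  Cr.dcd_of_open fun w hw => by
    obtain ⟨I, t, h1, h2⟩ := isOpen_pi_iff.1 hU _ hw
    refine ⟨I.sup id + 1, fun w' h => h2 fun i hi => ?_⟩
    rw [← hf w w' i (h i (Nat.lt_succ_of_le (Finset.le_sup (f := id) hi)))]
    exact (h1 i hi).2

theorem pos : apx.PosFin .T .T := by
  classical
  intro u p hu
  obtain ⟨L, h1, h2, h3⟩ := add p
  obtain ⟨e, he⟩ := countable_iff_exists_injOn.1 p.cnt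
  have hA : ∀ n, (p.A ∩ e ⁻¹' Iic n).Finite := fun n => Finite.of_finite_image
    ((finite_Iic n).subset (image_subset_iff.2 inter_subset_right)) (he.mono inter_subset_left)
  set G : ℕ × ℕ → Set (∀ i, T i × T i) :=
    fun a => ⋂ j, ⋂ (_ : a.2 ≤ j), (hi ⁻¹' u a.1 j)ᶜ ∪ lo ⁻¹' u a.1 j
  set G' : ℕ × ℕ → Set (∀ i, T i × T i) :=
    fun a => ⋂ j, ⋂ (_ : a.2 ≤ j), (lo ⁻¹' u a.1 j)ᶜ ∪ hi ⁻¹' u a.1 j
  set H : ℕ × ℕ × ℕ → Set (∀ i, T i × T i) := fun a => ⋃ j,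
    ⋃ (_ : a.2.1 ≤ j ∧ j < a.2.2 ∧ p.A ∩ e ⁻¹' Iic a.1 ⊆ u a.1 j), lo ⁻¹' u a.1 j
  obtain ⟨D, d1, d2, d3⟩ := Cr.read (K := cr)
    (𝒱 := range G ∪ range (fun a => G a ∪ G' a) ∪ range H)
    (((countable_range _).union (countable_range _)).union (countable_range _)) (by
      let := cr.ms
      have m1 : ∀ n j, MeasurableSet (lo ⁻¹' u n j) := fun n j =>
        dcd_open (hu.isOpen n j) fun _ _ _ h => by simp [lo, h]
      have m2 : ∀ n j, MeasurableSet (hi ⁻¹' u n j) := fun n j =>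
        dcd_open (hu.isOpen n j) fun _ _ _ h => by simp [hi, h]
      have m3 : ∀ a, MeasurableSet (G a) := fun a =>
        .iInter fun j => .iInter fun _ => (m2 _ _).compl.union (m1 _ _)
      have m4 : ∀ a, MeasurableSet (G' a) := fun a =>
        .iInter fun j => .iInter fun _ => (m1 _ _).compl.union (m2 _ _)
      rintro _ ((⟨a, rfl⟩ | ⟨a, rfl⟩) | ⟨a, rfl⟩)
      exacts [m3 a, (m3 a).union (m4 a),
        MeasurableSet.iUnion fun j => MeasurableSet.iUnion fun _ => m1 _ _])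
    (C := fun i => ⟨L i, (h1 i).trans (p.sub i)⟩) h2
  have tau : ∀ n, ∀ w ∈ cr.Pt D n, ∃ q ≤ p, lo w ∈ q.A ∧ hi w ∈ q.A := fun n w hw =>
    h3 _ _ (fun i => (w i).1.2) (fun i => (w i).2.2)
      (eventually_atTop.2 ⟨n, fun i hi => d1 i (hw i hi).1⟩)
      (eventually_atTop.2 ⟨n, fun i hi => d1 i (hw i hi).2.1⟩)
      (Or.inr (eventually_atTop.2 ⟨n, fun i hi => (hw i hi).2.2⟩))
  have b1 : ∀ n, ∃ g, cr.Pt D n ⊆ G (n, g) ∪ G' (n, g) := fun n => by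
    refine Cr.bound (G := fun g => G (n, g) ∪ G' (n, g)) (fun g g' h => union_subset_union
      (biInter_subset_biInter_left fun _ hj => h.trans hj)
      (biInter_subset_biInter_left fun _ hj => h.trans hj))
      (fun g => d3 _ (Or.inl (Or.inr ⟨(n, g), rfl⟩)) n) fun w hw => ?_
    obtain ⟨q, a1, a2, a3⟩ := tau n w hw
    rcases (hu.ix q a1 n).2 _ a3 _ a2 with h | h <;> obtain ⟨g, hg⟩ := h.bddAbove
    · refine ⟨g + 1, Or.inl (mem_iInter₂.2 fun j hj => or_iff_not_imp_right.2 fun c1 c2 => ?_)⟩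
      exact absurd (hg ⟨trivial, c2, c1⟩) (not_le.2 hj)
    · refine ⟨g + 1, Or.inr (mem_iInter₂.2 fun j hj => or_iff_not_imp_right.2 fun c1 c2 => ?_)⟩
      exact absurd (hg ⟨trivial, c2, c1⟩) (not_le.2 hj)
  choose g hg using b1
  have b2 : ∀ n, ∃ g', cr.Pt D n ⊆ H (n, g n, g') := fun n => by
    refine Cr.bound (G := fun g' => H (n, g n, g')) (fun a b h => iUnion_mono fun j =>
      iUnion_mono' fun hj => ⟨⟨hj.1, hj.2.1.trans_le h, hj.2.2⟩, Subset.rfl⟩)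
      (fun g' => d3 _ (Or.inr ⟨_, rfl⟩) n) fun w hw => ?_
    obtain ⟨q, a1, a2, -⟩ := tau n w hw
    obtain ⟨j, c1, c2⟩ := ((hu.ix q a1 n).infinite_of_tau
      (insert_subset a2 (inter_subset_left.trans a1.1)) ((hA n).insert _)
      (insert_nonempty _ _)).exists_gt (g n)
    exact ⟨j + 1, mem_iUnion₂.2 ⟨j, ⟨c2.le, lt_succ_self j, (subset_insert _ _).trans c1.2⟩,
      c1.2 (mem_insert _ _)⟩⟩
  choose g' hg' using b2
  choose m m1 m2 using fun n => d3 _ (Or.inl (Or.inl ⟨(n, g n), rfl⟩)) n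
  obtain ⟨E, e1, e2, N, e3, e4⟩ := Cr.unsplit (K := cr) (V := fun n =>
    {w | ∃ w' ∈ cr.Pt D (m n), w' ∈ G (n, g n) ∧ ∀ i < m n, w' i = w i}) d2 fun n =>
      ⟨m n, fun w w' a1 ⟨w'', a2, a3, a4⟩ => ⟨w'', a2, a3, fun i hi => (a4 i hi).trans (a1 i hi)⟩⟩
  have hE : ∀ i, (E i).1 ⊆ p.C i := fun i _ h => h1 i (d1 i (e1 i h))
  set S : Set (ℕ × ℕ) := {a | a.1 ∈ N ∧ g a.1 ≤ a.2 ∧ a.2 < g' a.1 ∧
    p.A ∩ e ⁻¹' Iic a.1 ⊆ u a.1 a.2}
  have fin : ∀ Q : ℕ × ℕ → Prop, (∀ᶠ n in atTop, ∀ j, (n, j) ∈ S → ¬ Q (n, j)) →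
      {a ∈ S | Q a}.Finite := fun Q h => by
    obtain ⟨n0, h0⟩ := eventually_atTop.1 h
    refine ((finite_Iio n0).biUnion fun n _ =>
      (finite_singleton n).prod (finite_Iio (g' n))).subset fun a ha => ?_
    exact mem_biUnion (x := a.1) (not_le.1 fun hc => h0 _ hc _ ha.1 ha.2) ⟨rfl, ha.1.2.2.1⟩
  have inf : ∀ Q : ℕ × ℕ → Prop, (∀ᶠ n in atTop, n ∈ N → ∃ j, (n, j) ∈ S ∧ Q (n, j)) →
      {a ∈ S | Q a}.Infinite := fun Q h => by
    obtain ⟨n0, h0⟩ := eventually_atTop.1 h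
    refine Infinite.of_image Prod.fst ((e3.sdiff (finite_Iio n0)).mono fun n hn => ?_)
    obtain ⟨j, hj⟩ := h0 n (not_lt.1 hn.2) hn.1
    exact ⟨_, hj, rfl⟩
  have pt : ∀ w, (∀ᶠ i in atTop, w i ∈ cr.ps i (E i)) → ∀ᶠ n in atTop, w ∈ cr.Pt D n :=
    fun w hw => by
      obtain ⟨n0, h0⟩ := eventually_atTop.1 hw
      exact eventually_atTop.2 ⟨n0, fun n hn i hi => cr.ps_mono i (e1 i) (h0 i (hn.trans hi))⟩
  have big : ∀ w, (∀ᶠ i in atTop, w i ∈ cr.ps i (E i)) →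
      ∀ᶠ n in atTop, n ∈ N → ∃ j, (n, j) ∈ S ∧ lo w ∈ u n j := fun w hw =>
    (pt w hw).mono fun n hn hN =>
      let ⟨j, c1, c2⟩ := mem_iUnion₂.1 (hg' n hn); ⟨j, ⟨hN, c1⟩, c2⟩
  have cmp : ∀ w, (∀ᶠ i in atTop, w i ∈ cr.ps i (E i)) →
      {a ∈ S | hi w ∈ uncurry u a ∧ lo w ∉ uncurry u a}.Finite ∨
        {a ∈ S | lo w ∈ uncurry u a ∧ hi w ∉ uncurry u a}.Finite := fun w hw => by
    refine (e4 w hw).imp (fun h => fin _ ?_) fun h => fin _ ?_
    · filter_upwards [h, pt w hw] with n a1 a2 j a3 a4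
      obtain ⟨w', c1, c2, c3⟩ := a1 a3.1
      exact (mem_iInter₂.1 (m2 n w' c1 w (Cr.Pt_mono (fun _ => le_rfl) (m1 n) a2) c3 c2) j
        a3.2.1).elim (fun h => h a4.1) a4.2
    · filter_upwards [h, pt w hw] with n a1 a2 j a3 a4
      rcases hg n a2 with c | c
      · exact a1 a3.1 ⟨w, Cr.Pt_mono (fun _ => le_rfl) (m1 n) a2, c, fun _ _ => rfl⟩
      · exact (mem_iInter₂.1 c j a3.2.1).elim (fun h => h a4.1) a4.2
  have old : ∀ x ∈ p.A, ∀ᶠ n in atTop, ∀ j, (n, j) ∈ S → x ∈ u n j := fun x hx =>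
    (eventually_ge_atTop (e x)).mono fun n hn j hj => hj.2.2.2 ⟨hx, hn⟩
  refine ⟨⟨p.A, fun i => (E i).1, p.cnt, p.tv, fun i => (E i).2, e2,
    fun a ha => (p.ext a ha).mono fun k hk c hc => hk c (hE _ hc), p.lin⟩,
    ⟨Subset.rfl, .of_forall hE, fun _ h h' => absurd h h'⟩, S,
    fun n => (finite_Iio (g' n)).subset fun j hj => hj.2.2.1, fun r hr => ⟨fun x hx => ?_, ?_⟩⟩
  · by_cases hp : x ∈ p.A
    · have : ∀ i, ∃ w : T i × T i, Nor i 0 (E i).1 → w ∈ cr.ps i (E i) := fun i => by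
        by_cases h : Nor i 0 (E i).1
        · obtain ⟨s, a1, -, ⟨t, a2, a3, -⟩, -⟩ := h.two
          exact ⟨(⟨s, (E i).2 a1⟩, ⟨t, (E i).2 a2⟩), fun _ => ⟨a1, a2, a3⟩⟩
        · exact ⟨(⟨_, root_mem i⟩, ⟨_, root_mem i⟩), fun h' => absurd h' h⟩
      choose w hw using this
      refine inf _ ?_
      filter_upwards [big w ((e2 0).mono hw), old x hp] with n a1 a2 a3
      exact let ⟨j, c1, _⟩ := a1 a3; ⟨j, c1, a2 j c1⟩
    · have : ∀ i, ∃ z : T i, Nor i 0 (r.C i) → z.1 ∈ r.C i := fun i => by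
        by_cases h : Nor i 0 (r.C i)
        · obtain ⟨s, a1, -⟩ := h.two
          exact ⟨⟨s, r.sub i a1⟩, fun _ => a1⟩
        · exact ⟨⟨_, root_mem i⟩, fun h' => absurd h' h⟩
      choose z hz using this
      refine inf _ (big (fun i => (⟨x i, r.tv x hx i⟩, z i)) ?_)
      filter_upwards [hr.2.2 x hx hp, hr.2.1, r.nor 0, r.ext x hx] with i a1 a2 a3 a4
      exact ⟨a1, a2 (hz i a3), a4 _ (hz i a3)⟩
  · have key : ∀ x ∈ r.A, ∀ y ∈ r.A, x ∉ p.A → y ∉ p.A → (∀ᶠ i in atTop, R (x i) (y i)) →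
        {a ∈ S | y ∈ uncurry u a ∧ x ∉ uncurry u a}.Finite ∨
          {a ∈ S | x ∈ uncurry u a ∧ y ∉ uncurry u a}.Finite := fun x hx y hy a1 a2 a3 => by
      refine cmp (fun i => (⟨x i, r.tv x hx i⟩, ⟨y i, r.tv y hy i⟩)) ?_
      filter_upwards [hr.2.2 x hx a1, hr.2.2 y hy a2, a3] with i c1 c2 c3 using ⟨c1, c2, c3⟩
    intro x hx y hy
    by_cases hyp : y ∈ p.A
    · exact Or.inl (fin _ ((old y hyp).mono fun n hn j hj h => h.2 (hn j hj)))
    by_cases hxp : x ∈ p.A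
    · exact Or.inr (fin _ ((old x hxp).mono fun n hn j hj h => h.2 (hn j hj)))
    rcases r.lin x hx y hy with rfl | h | h
    exacts [Or.inl (finite_empty.subset fun _ h => h.2.2 h.2.1), (key x hx y hy hxp hyp h).symm,
      key y hy x hx hyp hxp h]

theorem exists_X4 : ∃ (P : Type) (_ : Preorder P) (_ : Nonempty P) (a : Approx P (ℕ → Nd)),
    a.PosFin .T .T ∧ a.Neg1 .T .O := by
  obtain ⟨e⟩ : Nonempty (ℕ ≃ ℕ × Nd) := nonempty_equiv_of_countable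
  exact ⟨Cond, inferInstance, inferInstance, apx, pos, neg1 e⟩

end Pool.Agent.P.MP_b17faa_gt.X4
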