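import Pool.Agent.P.MP_b17faa_gt.Glue
import Pool.Agent.P.MP_b17faa_gt.X4

/-!
The property `(14)` does not imply `(6)` or `(7)`.
-/

namespace Pool.Agent.P.MP_b17faa_gt

open Set

theorem sep4 : Separates [14] [6, 7] := by
  obtain ⟨P, _, _, a, h1, h2⟩ := X4.exists_X4
  obtain ⟨e, he⟩ := exists_inducing ℕ fun _ => X1.Nd
  obtain ⟨M, X, a1, a2, a3, h⟩ := realize a he
  have b := (h .T .O).2.2.2.1 h2
  refine ⟨M, a1, X, a2, a3, ?_, ?_⟩ <;> simp only [List.forall_mem_cons, List.not_mem_nil,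
    false_imp_iff, implies_true, and_true]
  · exact (h .T .T).2.1 nofun h1
  · exact ⟨fun h => b (S1In.mono h Subset.rfl omega_subset_open), b⟩

end Pool.Agent.P.MP_b17faa_gt
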