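import Mathlib

/-!
Products of large sets inside a set of large product measure, and an Egorov type selection.
-/

namespace Pool.Agent.P.MP_b17faa_gt.X1

open Set Filter MeasureTheory Function
open scoped ENNReal Topology

variable {α : Type} [MeasurableSpace α] (ν : ℕ → Measure α) [∀ i, IsProbabilityMeasure (ν i)]

theorem map_update (i : ℕ) :
    ((Measure.infinitePi ν).prod (ν i)).map (fun p : (ℕ → α) × α => update p.1 i p.2) =
      Measure.infinitePi ν := by
  classical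
  refine Measure.eq_infinitePi ν fun s t ht => ?_
  rw [Measure.map_apply measurable_update' (MeasurableSet.pi s.countable_toSet fun j _ => ht j)]
  by_cases hi : i ∈ s
  · have : (fun p : (ℕ → α) × α => update p.1 i p.2) ⁻¹' (Set.pi s t) =
        (Set.pi (s.erase i) t) ×ˢ t i := by
      ext ⟨x, c⟩
      simp only [mem_preimage, Set.mem_pi, Finset.mem_coe, mem_prod, Finset.mem_erase]
      constructor
      · intro h
        refine ⟨fun j hj => ?_, ?_⟩
        · simpa [update_of_ne hj.1] using h j hj.2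
        · simpa using h i hi
      · rintro ⟨h1, h2⟩ j hj
        by_cases hji : j = i
        · subst hji
          simpa using h2
        · simpa [update_of_ne hji] using h1 j ⟨hji, hj⟩
    rw [this, Measure.prod_prod, Measure.infinitePi_pi _ fun j _ => ht j,
      Finset.prod_erase_mul _ _ hi]
  · have : (fun p : (ℕ → α) × α => update p.1 i p.2) ⁻¹' (Set.pi s t) =
        (Set.pi s t) ×ˢ univ := by
      ext ⟨x, c⟩
      simp only [mem_preimage, Set.mem_pi, Finset.mem_coe, mem_prod, mem_univ, and_true]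
      refine forall₂_congr fun j hj => ?_
      rw [update_of_ne (fun h : j = i => hi (h ▸ hj))]
    rw [this, Measure.prod_prod, Measure.infinitePi_pi _ fun j _ => ht j]
    simp

/-- the points all of whose modifications at `i` inside `D` are in `K` -/
def Up (i : ℕ) (D : Finset α) (K : Set (ℕ → α)) : Set (ℕ → α) :=
  {x | ∀ c ∈ D, update x i c ∈ K}

theorem measurableSet_Up (i : ℕ) (D : Finset α) {K : Set (ℕ → α)} (hK : MeasurableSet K) :
    MeasurableSet (Up i D K) := by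
  have : Up i D K = ⋂ c ∈ D, (fun x : ℕ → α => update x i c) ⁻¹' K := by
    ext x
    simp [Up]
  rw [this]
  exact D.measurableSet_biInter fun c _ => measurable_update_left hK

theorem step (i : ℕ) (T : Finset α) (hT : ν i (↑T)ᶜ = 0) {K : Set (ℕ → α)}
    (hK : MeasurableSet K) (a η : ℝ≥0∞) (h : a + 2 ^ T.card * η < Measure.infinitePi ν K) :
    ∃ D : Finset α, a ≤ ν i D ∧ η ≤ Measure.infinitePi ν (Up i D K) := by
  classical
  by_contra hc
  push Not at hc
  set μ := Measure.infinitePi ν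
  set G := T.powerset.filter fun D => a ≤ ν i (D : Finset α)
  have hm : MeasurableSet (⋃ D ∈ G, Up i D K) :=
    G.measurableSet_biUnion fun D _ => measurableSet_Up i D hK
  have h1 : μ K = ∫⁻ x, ν i {c | update x i c ∈ K} ∂μ := by
    conv_lhs => rw [show μ = _ from (map_update ν i).symm]
    rw [Measure.map_apply measurable_update' hK, Measure.prod_apply (measurable_update' hK)]
    rfl
  have h2 : ∀ x, ν i {c | update x i c ∈ K} ≤ a + (⋃ D ∈ G, Up i D K).indicator 1 x := by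
    intro x
    set D := T.filter fun c => update x i c ∈ K
    by_cases hD : a ≤ ν i D
    · have : x ∈ ⋃ D ∈ G, Up i D K := by
        refine mem_biUnion (x := D) ?_ fun c hc => (Finset.mem_filter.1 hc).2
        simp only [G, Finset.coe_filter, Finset.mem_powerset, mem_ofPred_eq]
        exact ⟨Finset.filter_subset _ _, hD⟩
      rw [indicator_of_mem this]
      exact prob_le_one.trans le_add_self
    · refine le_trans ?_ le_self_add
      calc ν i {c | update x i c ∈ K} ≤ ν i (↑D ∪ (↑T)ᶜ) := by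
            refine measure_mono fun c hc => ?_
            by_cases hcT : c ∈ T
            · exact Or.inl (by simpa [D] using ⟨hcT, hc⟩)
            · exact Or.inr hcT
        _ ≤ ν i D + ν i (↑T)ᶜ := measure_union_le _ _
        _ ≤ a := by rw [hT, add_zero]; exact (not_le.1 hD).le
  have h3 : μ K ≤ a + 2 ^ T.card * η := by
    rw [h1]
    refine (lintegral_mono h2).trans ?_
    rw [lintegral_add_left measurable_const, lintegral_const, measure_univ, mul_one,
      lintegral_indicator_one hm]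
    gcongr
    refine (measure_biUnion_finset_le _ _).trans ?_
    calc ∑ D ∈ G, μ (Up i D K) ≤ ∑ _D ∈ G, η :=
          Finset.sum_le_sum fun D hD => (hc D (Finset.mem_filter.1 hD).2).le
      _ = G.card * η := by simp
      _ ≤ 2 ^ T.card * η := by
          gcongr
          exact_mod_cast (Finset.card_filter_le _ _).trans (Finset.card_powerset T).le
  exact absurd h (not_lt.2 h3)

theorem arith (M t : ℕ) (hM : 0 < M) :
    ((2 * M : ℕ) : ℝ≥0∞)⁻¹ + 2 ^ t * ((M * 4 * 2 ^ t : ℕ) : ℝ≥0∞)⁻¹ < (M : ℝ≥0∞)⁻¹ := by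
  have e : ∀ n : ℕ, 0 < n → ((n : ℕ) : ℝ≥0∞)⁻¹ = ENNReal.ofReal ((n : ℝ)⁻¹) := fun n hn => by
    rw [ENNReal.ofReal_inv_of_pos (by positivity), ENNReal.ofReal_natCast]
  have e2 : (2 : ℝ≥0∞) ^ t = ENNReal.ofReal (2 ^ t) := by
    rw [ENNReal.ofReal_pow (by norm_num)]
    simp
  rw [e _ hM, e _ (by positivity), e _ (by positivity), e2, ← ENNReal.ofReal_mul (by positivity),
    ← ENNReal.ofReal_add (by positivity) (by positivity),
    ENNReal.ofReal_lt_ofReal_iff (by positivity)]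
  have : (0 : ℝ) < M := by exact_mod_cast hM
  push_cast
  field_simp
  norm_num

/-- a product of large sets all of whose points are approximated by points of `K` -/
theorem exists_prod (T : ℕ → Finset α) (hT : ∀ i, ν i (↑(T i))ᶜ = 0) (M : ℕ → ℕ)
    (hM : ∀ i, 0 < M i) (hM' : ∀ i, M (i + 1) = M i * 4 * 2 ^ (T i).card) {K : Set (ℕ → α)}
    (hK : MeasurableSet K) (h0 : (M 0 : ℝ≥0∞)⁻¹ ≤ Measure.infinitePi ν K) :
    ∃ D : ℕ → Finset α, (∀ i, ((2 * M i : ℕ) : ℝ≥0∞)⁻¹ ≤ ν i (D i)) ∧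
      ∀ x : ℕ → α, (∀ i, x i ∈ D i) → ∀ N, ∃ w ∈ K, ∀ i < N, w i = x i := by
  classical
  have key : ∀ i (K : {K : Set (ℕ → α) // MeasurableSet K ∧
      (M i : ℝ≥0∞)⁻¹ ≤ Measure.infinitePi ν K}), ∃ D : Finset α,
      ((2 * M i : ℕ) : ℝ≥0∞)⁻¹ ≤ ν i D ∧ (MeasurableSet (Up i D K.1) ∧
        (M (i + 1) : ℝ≥0∞)⁻¹ ≤ Measure.infinitePi ν (Up i D K.1)) := by
    intro i K
    obtain ⟨D, h1, h2⟩ := step ν i (T i) (hT i) K.2.1 _ _
      ((arith (M i) (T i).card (hM i)).trans_le K.2.2)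
    exact ⟨D, h1, measurableSet_Up i D K.2.1, hM' i ▸ h2⟩
  choose D h1 h2 using key
  let Ks : ∀ i, {K : Set (ℕ → α) // MeasurableSet K ∧
      (M i : ℝ≥0∞)⁻¹ ≤ Measure.infinitePi ν K} :=
    fun i => Nat.rec ⟨K, hK, h0⟩ (fun i K => ⟨Up i (D i K) K.1, h2 i K⟩) i
  refine ⟨fun i => D i (Ks i), fun i => h1 i _, fun x hx N => ?_⟩
  have merge : ∀ n, ∀ y ∈ (Ks n).1, (fun i => if i < n then x i else y i) ∈ K := by
    intro n
    induction n with
    | zero =>
      intro y hy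
      simp only [Nat.not_lt_zero, if_false]
      exact hy
    | succ n ih =>
      intro y hy
      convert ih _ (hy (x n) (hx n)) using 2 with i
      rcases lt_trichotomy i n with h | rfl | h
      · simp [h, h.trans n.lt_succ_self]
      · simp
      · simp [h.not_gt, update_of_ne h.ne', h.not_ge]
  obtain ⟨y, hy⟩ : (Ks N).1.Nonempty := by
    refine nonempty_of_measure_ne_zero (μ := Measure.infinitePi ν) (ne_of_gt ?_)
    exact lt_of_lt_of_le (by simp) (Ks N).2.2
  exact ⟨_, merge N y hy, fun i hi => if_pos hi⟩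

theorem small {X : Type} [MeasurableSpace X] (μ : Measure X) [IsFiniteMeasure μ]
    {F : ℕ → Set X} (hF : ∀ n, MeasurableSet (F n)) (hm : Monotone F) {ε : ℝ≥0∞}
    (h : μ (⋃ n, F n)ᶜ < ε) : ∃ n, μ (F n)ᶜ < ε := by
  have := tendsto_measure_iInter_atTop (μ := μ) (s := fun n => (F n)ᶜ)
    (fun n => (hF n).compl.nullMeasurableSet) (fun _ _ h => compl_subset_compl.2 (hm h))
    ⟨0, measure_ne_top _ _⟩
  rw [← compl_iUnion] at this
  exact (this.eventually (gt_mem_nhds h)).exists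

/-- all points with a stem in `T` below `m` which agree with `x` on `[m, N)` are in `U` -/
def E (T : ℕ → Finset α) (U : Set (ℕ → α)) (m N : ℕ) : Set (ℕ → α) :=
  {x | ∀ y : ℕ → α, (∀ i < m, y i ∈ T i) → (∀ i, m ≤ i → i < N → y i = x i) → y ∈ U}

theorem measurableSet_E [Countable α] [MeasurableSingletonClass α] (T : ℕ → Finset α)
    (U : Set (ℕ → α)) (m N : ℕ) : MeasurableSet (E T U m N) := by
  have : E T U m N = (fun (x : ℕ → α) (i : Fin N) => x i) ⁻¹'
      {z | ∀ y : ℕ → α, (∀ i < m, y i ∈ T i) → (∀ i : Fin N, m ≤ i → y i = z i) → y ∈ U} := by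
    ext x
    refine forall₂_congr fun y _ => ⟨fun h h' => h fun i h1 h2 => h' ⟨i, h2⟩ h1,
      fun h h' => h fun i h1 => h' i h1 i.2⟩
  rw [this]
  exact (by fun_prop : Measurable fun (x : ℕ → α) (i : Fin N) => x i)
    (Set.to_countable _).measurableSet

omit [MeasurableSpace α] in
theorem E_mono (T : ℕ → Finset α) (U : Set (ℕ → α)) (m : ℕ) : Monotone (E T U m) :=
  fun _ _ h _ hx y h1 h2 => hx y h1 fun i h3 h4 => h2 i h3 (h4.trans_le h)

omit [MeasurableSpace α] in
theorem mem_E [TopologicalSpace α] (T : ℕ → Finset α) (u : ℕ → Set (ℕ → α))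
    (hu : ∀ j, IsOpen (u j)) (m : ℕ) (x : ℕ → α)
    (h : ∀ y : ℕ → α, (∀ i < m, y i ∈ T i) → (∀ i, m ≤ i → y i = x i) → ∀ᶠ j in atTop, y ∈ u j) :
    ∀ᶠ j in atTop, x ∈ ⋃ N, E T (u j) m N := by
  classical
  set Y : Set (ℕ → α) := {y | (∀ i < m, y i ∈ T i) ∧ ∀ i, m ≤ i → y i = x i}
  have hY : Y.Finite := by
    refine ((Finite.pi' (fun i : Fin m => (T i).finite_toSet)).image
      fun z i => if h : i < m then z ⟨i, h⟩ else x i).subset fun y hy => ?_
    refine ⟨fun i => y i, fun i => hy.1 i i.2, funext fun i => ?_⟩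
    by_cases hi : i < m
    · simp [hi]
    · simp [hi, hy.2 i (not_lt.1 hi)]
  filter_upwards [(eventually_all_finite hY).2 fun y hy => h y hy.1 hy.2] with j hj
  have : ∀ y ∈ Y, ∀ᶠ N in atTop, ∀ z : ℕ → α, (∀ i < N, z i = y i) → z ∈ u j := by
    intro y hy
    obtain ⟨I, t, h1, h2⟩ := isOpen_pi_iff.1 (hu j) y (hj y hy)
    filter_upwards [eventually_gt_atTop (I.sup id)] with N hN z hz
    refine h2 fun i hi => ?_
    rw [hz i ((Finset.le_sup (f := id) hi).trans_lt hN)]
    exact (h1 i hi).2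
  obtain ⟨N, hN⟩ := ((eventually_all_finite hY).2 this).exists
  refine mem_iUnion.2 ⟨N, fun y h1 h2 => ?_⟩
  refine hN (fun i => if i < m then y i else x i)
    ⟨fun i hi => by simpa [hi] using h1 i hi, fun i hi => by simp [hi.not_gt]⟩ y fun i hi => ?_
  by_cases him : i < m
  · simp [him]
  · simp [him, h2 i (not_lt.1 him) hi]

theorem egorov [TopologicalSpace α] [Countable α] [MeasurableSingletonClass α]
    (T : ℕ → Finset α) (hT : ∀ i, ν i (↑(T i))ᶜ = 0) (M : ℕ → ℕ) (h0 : M 0 = 2)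
    (hM : ∀ i, 0 < M i) (hM' : ∀ i, M (i + 1) = M i * 4 * 2 ^ (T i).card)
    (L : ℕ → Set α) (hL : ∀ᶠ i in atTop, ν i (L i)ᶜ = 0) (u : ℕ → ℕ → Set (ℕ → α))
    (hu : ∀ m j, IsOpen (u m j))
    (h : ∀ x : ℕ → α, (∀ i, x i ∈ T i) → (∀ᶠ i in atTop, x i ∈ L i) →
      ∀ m, ∀ᶠ j in atTop, x ∈ u m j)
    (g : ℕ → ℕ → Prop) (hg : ∀ m, ∀ᶠ j in atTop, g m j) :
    ∃ (f : ℕ → ℕ) (D : ℕ → Finset α), (∀ m, g m (f m)) ∧
      (∀ i, ((2 * M i : ℕ) : ℝ≥0∞)⁻¹ ≤ ν i (D i)) ∧
      ∀ x : ℕ → α, (∀ i, x i ∈ T i) → (∀ᶠ i in atTop, x i ∈ D i) →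
        ∀ᶠ m in atTop, x ∈ u m (f m) := by
  classical
  set μ := Measure.infinitePi ν
  have ae : ∀ (S : ℕ → Set α) (i : ℕ), ν i (S i)ᶜ = 0 → ∀ᵐ x ∂μ, x i ∈ S i := fun S i hS =>
    (measurePreserving_eval_infinitePi ν i).quasiMeasurePreserving.ae (p := fun c => c ∈ S i) hS
  obtain ⟨i0, hi0⟩ := eventually_atTop.1 hL
  have good : ∀ᵐ x ∂μ, (∀ i, x i ∈ T i) ∧ ∀ᶠ i in atTop, x i ∈ L i := by
    have a1 : ∀ᵐ x ∂μ, ∀ i, x i ∈ T i := ae_all_iff.2 fun i => ae (fun i => ↑(T i)) i (hT i)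
    have a2 : ∀ᵐ x ∂μ, ∀ i, i0 ≤ i → x i ∈ L i := ae_all_iff.2 fun i => by
      by_cases hi : i0 ≤ i
      · filter_upwards [ae L i (hi0 i hi)] with x hx _ using hx
      · simp [hi]
    filter_upwards [a1, a2] with x h1 h2 using ⟨h1, eventually_atTop.2 ⟨i0, h2⟩⟩
  obtain ⟨ε, hε, hs⟩ := ENNReal.exists_pos_sum_of_countable' (ε := 2⁻¹) (by simp) ℕ
  have key : ∀ m, ∃ j N, g m j ∧ μ (E T (u m j) m N)ᶜ < ε m := by
    intro m
    have hB : ∀ J, MeasurableSet (⋂ j ≥ J, ⋃ N, E T (u m j) m N) := fun J =>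
      MeasurableSet.iInter fun j => MeasurableSet.iInter fun _ =>
        MeasurableSet.iUnion fun N => measurableSet_E _ _ _ _
    obtain ⟨J, hJ⟩ := small μ hB (ε := ε m)
      (fun _ _ hJ => biInter_subset_biInter_left fun _ hj => hJ.trans hj) (by
        refine lt_of_eq_of_lt ?_ (hε m)
        refine measure_mono_null (fun x hx => ?_) (ae_iff.1 good)
        rintro ⟨h1, h2⟩
        obtain ⟨J, hJ⟩ := eventually_atTop.1 (mem_E T (u m) (hu m) m x fun y a1 a2 =>
          h y (fun i => (lt_or_ge i m).elim (a1 i) fun hi => a2 i hi ▸ h1 i)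
            (by filter_upwards [h2, eventually_ge_atTop m] with i b1 b2 using a2 i b2 ▸ b1) m)
        exact hx (mem_iUnion.2 ⟨J, mem_iInter₂.2 hJ⟩))
    obtain ⟨j, h1, h2⟩ := ((hg m).and (eventually_ge_atTop J)).exists
    obtain ⟨N, hN⟩ := small μ (measurableSet_E T (u m j) m) (E_mono _ _ _) (ε := ε m)
      ((measure_mono (compl_subset_compl.2 (biInter_subset_of_mem h2))).trans_lt hJ)
    exact ⟨j, N, h1, hN⟩
  choose f N h1 h2 using key
  have hK : MeasurableSet (⋂ m, E T (u m (f m)) m (N m)) :=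
    MeasurableSet.iInter fun m => measurableSet_E _ _ _ _
  obtain ⟨D, h3, h4⟩ := exists_prod ν T hT M hM hM' hK (by
    have : μ (⋂ m, E T (u m (f m)) m (N m))ᶜ ≤ 2⁻¹ := by
      rw [compl_iInter]
      exact (measure_iUnion_le _).trans ((ENNReal.tsum_le_tsum fun m => (h2 m).le).trans hs.le)
    rw [prob_compl_eq_one_sub hK, tsub_le_iff_tsub_le, ENNReal.one_sub_inv_two] at this
    simpa [h0] using this)
  have hD : ∀ i, ∃ c, c ∈ D i := fun i => by
    refine nonempty_of_measure_ne_zero (μ := ν i) (s := ↑(D i)) (ne_of_gt ?_)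
    exact lt_of_lt_of_le (ENNReal.inv_pos.2 (ENNReal.natCast_ne_top _)) (h3 i)
  choose d hd using hD
  refine ⟨f, D, h1, h3, fun x a1 a2 => ?_⟩
  obtain ⟨m0, hm0⟩ := eventually_atTop.1 a2
  filter_upwards [eventually_ge_atTop m0] with m hm
  obtain ⟨w, b1, b2⟩ := h4 (fun i => if i < m then d i else x i) (fun i => by
    by_cases hi : i < m
    · simpa [hi] using hd i
    · simpa [hi] using hm0 i (hm.trans (not_lt.1 hi))) (N m)
  exact mem_iInter.1 b1 m x (fun i _ => a1 i) fun i c1 c2 => by simp [b2 i c2, c1.not_gt]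

end Pool.Agent.P.MP_b17faa_gt.X1
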