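import Mathlib

/-!
Block sequences, idempotent ultrafilters on unions of blocks, and the fusion lemma.
-/

namespace Pool.Agent.P.MP_b17faa_gt.X3

open Set Filter

/-- a block sequence of finite nonempty sets of naturals, with separating bounds -/
structure Blk where
  b : ℕ → ℕ
  d : ℕ → Set ℕ
  ne : ∀ n, (d n).Nonempty
  sub : ∀ n, d n ⊆ Ico (b n) (b (n + 1))

namespace Blk

variable (D : Blk)

theorem mono : StrictMono D.b := strictMono_nat_of_lt_succ fun n => by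
  obtain ⟨a, ha⟩ := D.ne n
  have := D.sub n ha
  exact this.1.trans_lt this.2

theorem le_b (n : ℕ) : n ≤ D.b n := D.mono.le_apply

theorem finite (n : ℕ) : (D.d n).Finite := (finite_Ico _ _).subset (D.sub n)

theorem above {k j : ℕ} (h : k ≤ j) : D.d j ⊆ Ici (D.b k) :=
  fun _ ha => (D.mono.monotone h).trans (D.sub j ha).1

theorem above' {k j : ℕ} (h : k ≤ j) : D.d j ⊆ Ici k :=
  fun _ ha => (D.le_b k).trans (D.above h ha)

theorem le_idx {a j k : ℕ} (h : a ∈ D.d j) (h' : D.b k ≤ a) : k ≤ j :=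
  Nat.lt_succ_iff.1 (D.mono.lt_iff_lt.1 (h'.trans_lt (D.sub j h).2))

theorem idx_lt {a j k : ℕ} (h : a ∈ D.d j) (h' : a < D.b k) : j < k :=
  D.mono.lt_iff_lt.1 ((D.sub j h).1.trans_lt h')

/-- the union of all blocks -/
def U : Set ℕ := ⋃ n, D.d n

theorem subset_U (n : ℕ) : D.d n ⊆ D.U := subset_iUnion D.d n

theorem infinite_U : D.U.Infinite := by
  refine infinite_of_forall_exists_gt fun k => ?_
  obtain ⟨a, ha⟩ := D.ne (k + 1)
  exact ⟨a, D.subset_U _ ha, D.above' le_rfl ha⟩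

/-- `e` is a union of blocks -/
def Sat (e : Set ℕ) : Prop := ∀ a ∈ e, ∃ j, a ∈ D.d j ∧ D.d j ⊆ e

/-- `x` is almost a union of blocks -/
def Resp (x : Set ℕ) : Prop := ∀ᶠ a in atTop, a ∈ x → ∃ j, a ∈ D.d j ∧ D.d j ⊆ x

/-- almost all blocks of `E` are unions of blocks of `D` -/
def Le (E D : Blk) : Prop := ∀ᶠ n in atTop, D.Sat (E.d n)

theorem sat_d (n : ℕ) : D.Sat (D.d n) := fun _ ha => ⟨n, ha, Subset.rfl⟩

theorem le_refl : Le D D := Eventually.of_forall D.sat_d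

variable {D}

theorem Sat.union {e e' : Set ℕ} (h : D.Sat e) (h' : D.Sat e') : D.Sat (e ∪ e') := by
  rintro a (ha | ha)
  · obtain ⟨j, h1, h2⟩ := h a ha
    exact ⟨j, h1, h2.trans subset_union_left⟩
  · obtain ⟨j, h1, h2⟩ := h' a ha
    exact ⟨j, h1, h2.trans subset_union_right⟩

theorem Le.ev {E : Blk} (h : Le E D) {Q : ℕ → Prop} (hQ : ∀ᶠ j in atTop, Q j) :
    ∀ᶠ n in atTop, ∀ a ∈ E.d n, ∃ j, a ∈ D.d j ∧ D.d j ⊆ E.d n ∧ Q j := by
  obtain ⟨k, hk⟩ := eventually_atTop.1 hQ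
  filter_upwards [h, eventually_ge_atTop (D.b k)] with n h1 h2 a ha
  obtain ⟨j, a1, a2⟩ := h1 a ha
  exact ⟨j, a1, a2, hk j (D.le_idx a1 (E.above' h2 ha))⟩

theorem Le.trans {E E' : Blk} (h : Le E' E) (h' : Le E D) : Le E' D := by
  filter_upwards [h.ev h'] with n h1 a ha
  obtain ⟨j, a1, a2, a3⟩ := h1 a ha
  obtain ⟨i, b1, b2⟩ := a3 a a1
  exact ⟨i, b1, b2.trans a2⟩

theorem Resp.ev {x : Set ℕ} (h : D.Resp x) {Q : ℕ → Prop} (hQ : ∀ᶠ j in atTop, Q j) :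
    ∀ᶠ a in atTop, a ∈ x → ∃ j, a ∈ D.d j ∧ D.d j ⊆ x ∧ Q j := by
  obtain ⟨k, hk⟩ := eventually_atTop.1 hQ
  filter_upwards [h, eventually_ge_atTop (D.b k)] with a h1 h2 ha
  obtain ⟨j, a1, a2⟩ := h1 ha
  exact ⟨j, a1, a2, hk j (D.le_idx a1 h2)⟩

theorem Resp.of_le {E : Blk} {x : Set ℕ} (h : E.Resp x) (h' : Le E D) : D.Resp x := by
  filter_upwards [h.ev h'] with a h1 ha
  obtain ⟨j, a1, a2, a3⟩ := h1 ha
  obtain ⟨i, b1, b2⟩ := a3 a a1
  exact ⟨i, b1, b2.trans a2⟩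

theorem ev_sub (D : Blk) {Q : ℕ → Prop} (h : ∀ᶠ a in atTop, Q a) :
    ∀ᶠ j in atTop, ∀ a ∈ D.d j, Q a := by
  obtain ⟨k, hk⟩ := eventually_atTop.1 h
  filter_upwards [eventually_ge_atTop k] with j hj a ha using hk a (D.above' hj ha)

theorem Resp.congr {x y : Set ℕ} (h : D.Resp x) (h' : ∀ᶠ a in atTop, a ∈ y ↔ a ∈ x) :
    D.Resp y := by
  filter_upwards [h.ev (D.ev_sub h'), h'] with a h1 h2 ha
  obtain ⟨j, a1, a2, a3⟩ := h1 (h2.1 ha)
  exact ⟨j, a1, fun c hc => (a3 c hc).2 (a2 hc)⟩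

theorem resp_U (D : Blk) : D.Resp D.U := Eventually.of_forall fun a ha => by
  obtain ⟨j, hj⟩ := mem_iUnion.1 ha
  exact ⟨j, hj, D.subset_U j⟩

theorem Resp.freq {x : Set ℕ} (h : D.Resp x) (hx : x.Infinite) : ∃ᶠ n in atTop, D.d n ⊆ x := by
  refine frequently_atTop.2 fun k => ?_
  obtain ⟨a, h1, h2⟩ := ((Nat.frequently_atTop_iff_infinite.2 hx).and_eventually
    (h.ev (eventually_ge_atTop k))).exists
  obtain ⟨j, -, a2, a3⟩ := h2 h1
  exact ⟨j, a3, a2⟩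

theorem Resp.step {x : Set ℕ} (h : D.Resp x) : ∀ᶠ n in atTop,
    (D.d n ⊆ x → x ∩ Iio (D.b (n + 1)) = x ∩ Iio (D.b n) ∪ D.d n) ∧
    (¬ D.d n ⊆ x → x ∩ Iio (D.b (n + 1)) = x ∩ Iio (D.b n)) := by
  obtain ⟨k, hk⟩ := eventually_atTop.1 h
  filter_upwards [eventually_ge_atTop k] with n hn
  have key : ∀ a ∈ x, a < D.b (n + 1) → a < D.b n ∨ (a ∈ D.d n ∧ D.d n ⊆ x) := fun a h1 h2 => by
    rcases lt_or_ge a (D.b n) with h3 | h3
    · exact Or.inl h3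
    · obtain ⟨j, a1, a2⟩ := hk a (hn.trans ((D.le_b n).trans h3)) h1
      obtain rfl : j = n := le_antisymm (Nat.lt_succ_iff.1 (D.idx_lt a1 h2)) (D.le_idx a1 h3)
      exact Or.inr ⟨a1, a2⟩
  have hl : D.b n < D.b (n + 1) := D.mono n.lt_succ_self
  refine ⟨fun h1 => Subset.antisymm (fun a ha => ?_) ?_, fun h1 => Subset.antisymm
    (fun a ha => ?_) fun a ha => ⟨ha.1, ha.2.trans hl⟩⟩
  · rcases key a ha.1 ha.2 with h2 | h2
    exacts [Or.inl ⟨ha.1, h2⟩, Or.inr h2.1]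
  · rintro a (ha | ha)
    exacts [⟨ha.1, ha.2.trans hl⟩, ⟨h1 ha, (D.sub n ha).2⟩]
  · rcases key a ha.1 ha.2 with h2 | h2
    exacts [⟨ha.1, h2⟩, absurd h2.2 h1]

end Blk

/-- recursive construction of block sequences -/
theorem exists_blk (G : ℕ → ℕ → Set ℕ → Prop)
    (h : ∀ n k, ∃ e : Set ℕ, e.Finite ∧ e.Nonempty ∧ e ⊆ Ici k ∧ G n k e) :
    ∃ E : Blk, ∀ n, G n (E.b n) (E.d n) := by
  choose e h1 h2 h3 h4 using h
  have h5 : ∀ n k, ∃ l, e n k ⊆ Iio l := fun n k => by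
    obtain ⟨l, hl⟩ := (h1 n k).bddAbove
    exact ⟨l + 1, fun a ha => Nat.lt_succ_of_le (hl ha)⟩
  choose l hl using h5
  let b : ℕ → ℕ := fun n => Nat.rec 0 (fun n k => l n k) n
  exact ⟨⟨b, fun n => e n (b n), fun n => h2 _ _, fun n a ha => ⟨h3 _ _ ha, hl _ _ ha⟩⟩,
    fun n => h4 _ _⟩

/-- finite nonempty unions of blocks above `k` -/
def FU (D : Blk) (k : ℕ) (e : Set ℕ) : Prop := e.Finite ∧ e.Nonempty ∧ e ⊆ Ici k ∧ D.Sat e

/-- an idempotent ultrafilter living on unions of late blocks -/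
theorem exists_ult (D : Blk) : ∃ V : Ultrafilter (Set ℕ),
    (∀ p : Set ℕ → Prop, (∀ᶠ e in V, p e) ↔ ∀ᶠ e in V, ∀ᶠ e' in V, p (e ∪ e')) ∧
      ∀ k, ∀ᶠ e in V, FU D k e := by
  let _ : Semigroup (Set ℕ) := { mul := fun a b => a ∪ b, mul_assoc := union_assoc }
  let _ := @Ultrafilter.semigroup (Set ℕ) _
  let S : Set (Ultrafilter (Set ℕ)) := ⋂ k, {U | ∀ᶠ e in U, e ∈ {e | FU D k e}}
  have h0 := exists_idempotent_in_compact_subsemigroup
    (M := Ultrafilter (Set ℕ)) Ultrafilter.continuous_mul_left S ?_ ?_ ?_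
  · obtain ⟨V, hV, h⟩ := h0
    refine ⟨V, fun p => ?_, fun k => mem_iInter.1 hV k⟩
    have := Ultrafilter.eventually_mul V V p
    erw [h] at this
    exact this
  · apply IsCompact.nonempty_iInter_of_sequence_nonempty_isCompact_isClosed
    · intro k U hU
      filter_upwards [hU] with e he
      exact ⟨he.1, he.2.1, he.2.2.1.trans (Ici_subset_Ici.2 k.le_succ), he.2.2.2⟩
    · intro k
      exact ⟨pure (D.d k), mem_pure.mpr ⟨D.finite k, D.ne k, D.above' le_rfl, D.sat_d k⟩⟩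
    · exact (ultrafilter_isClosed_basic _).isCompact
    · intro n
      apply ultrafilter_isClosed_basic
  · exact IsClosed.isCompact (isClosed_iInter fun i => ultrafilter_isClosed_basic _)
  · intro U hU V hV
    rw [mem_iInter] at *
    intro k
    refine (Ultrafilter.eventually_mul U V _).2 ?_
    filter_upwards [hU k] with e he
    filter_upwards [hV k] with e' he'
    exact ⟨he.1.union he'.1, he.2.1.inl, union_subset he.2.2.1 he'.2.2.1, he.2.2.2.union he'.2.2.2⟩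

end Pool.Agent.P.MP_b17faa_gt.X3
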