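import Pool.Agent.P.MP_b17faa_gt.X3a

/-!
The fusion lemma: from `ω`-covers of all candidate points to a family of open sets whose traces
are the supports.
-/

namespace Pool.Agent.P.MP_b17faa_gt.X3

open Set Filter Blk

/-- `y` end-extends `t` -/
def Ext (t y : Set ℕ) : Prop := t ⊆ y ∧ ∀ i ∈ y, ∀ j ∈ t, i ≤ j → i ∈ t

/-- all end-extensions of `t` are in `W` -/
def In (W : Set (Set ℕ)) (t : Set ℕ) : Prop := ∀ y, Ext t y → y ∈ W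

/-- `W` is open in the product topology -/
def Op (W : Set (Set ℕ)) : Prop := ∀ x ∈ W, ∃ k, ∀ y, (∀ i < k, i ∈ y ↔ i ∈ x) → y ∈ W

theorem ext_inter (x : Set ℕ) (k : ℕ) : Ext (x ∩ Iio k) x :=
  ⟨inter_subset_left, fun _ h1 _ h2 h3 => ⟨h1, lt_of_le_of_lt h3 h2.2⟩⟩

theorem In.union {W : Set (Set ℕ)} {s e : Set ℕ} {k : ℕ} (h : In W s) (hs : s ⊆ Iio k)
    (he : e ⊆ Ici k) : In W (s ∪ e) := fun y hy =>
  h y ⟨subset_union_left.trans hy.1, fun i h1 j h2 h3 => (hy.2 i h1 j (Or.inl h2) h3).resolve_right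
    fun h4 => absurd (lt_of_le_of_lt h3 (hs h2)) (not_lt.2 (he h4))⟩

theorem Op.ev_in {W : Set (Set ℕ)} (h : Op W) {x : Set ℕ} (hx : x ∈ W) (hx' : x.Infinite) :
    ∀ᶠ k in atTop, In W (x ∩ Iio k) := by
  obtain ⟨k, hk⟩ := h x hx
  obtain ⟨j, h1, h2⟩ := hx'.exists_gt k
  filter_upwards [eventually_gt_atTop j] with l hl y hy
  exact hk y fun i hi => ⟨fun h3 => (hy.2 i h3 j ⟨h1, hl⟩ (hi.trans h2).le).1,
    fun h3 => hy.1 ⟨h3, (hi.trans h2).trans hl⟩⟩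

theorem ev_all_sub {α : Type} {l : Filter α} {k : ℕ} {p : Set ℕ → α → Prop}
    (h : ∀ s ⊆ Iio k, ∀ᶠ e in l, p s e) : ∀ᶠ e in l, ∀ s ⊆ Iio k, p s e :=
  (eventually_all_finite (finite_Iio k).finite_subsets).2 h

theorem ev_iff_lim {α : Type} (V : Ultrafilter α) (p : α → Prop) :
    ∀ᶠ e in V, p e ↔ ∀ᶠ e' in V, p e' := by
  by_cases h : ∀ᶠ e' in V, p e'
  · exact h.mono fun e he => iff_of_true he h
  · exact (Ultrafilter.eventually_not.2 h).mono fun e he => iff_of_false he h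

theorem Blk.U_zero (E : Blk) : E.U ∩ Iio (E.b 0) = ∅ :=
  eq_empty_of_forall_notMem fun a ha => by
    obtain ⟨j, hj⟩ := mem_iUnion.1 ha.1
    exact absurd (E.idx_lt hj ha.2) (Nat.not_lt_zero j)

theorem Blk.U_succ (E : Blk) (n : ℕ) :
    E.U ∩ Iio (E.b (n + 1)) = E.U ∩ Iio (E.b n) ∪ E.d n := by
  refine Subset.antisymm (fun a ha => ?_) ?_
  · obtain ⟨j, hj⟩ := mem_iUnion.1 ha.1
    rcases (Nat.lt_succ_iff.1 (E.idx_lt hj ha.2)).eq_or_lt with rfl | h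
    · exact Or.inr hj
    · exact Or.inl ⟨ha.1, (E.sub j hj).2.trans_le (E.mono.monotone h)⟩
  · rintro a (ha | ha)
    exacts [⟨ha.1, ha.2.trans (E.mono n.lt_succ_self)⟩, ⟨E.subset_U n ha, (E.sub n ha).2⟩]

section
variable {D : Blk} {V : Ultrafilter (Set ℕ)}
  (hV : ∀ p : Set ℕ → Prop, (∀ᶠ e in V, p e) ↔ ∀ᶠ e in V, ∀ᶠ e' in V, p (e ∪ e'))
  (hFU : ∀ k, ∀ᶠ e in V, FU D k e)
include hV

theorem idem (p : Set ℕ → Prop) (s : Set ℕ) :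
    ∀ᶠ e in V, (∀ᶠ e' in V, p (s ∪ e ∪ e')) ↔ ∀ᶠ e' in V, p (s ∪ e') := by
  have h := ev_iff_lim V fun e => ∀ᶠ e' in V, p (s ∪ (e ∪ e'))
  rw [← hV fun e => p (s ∪ e)] at h
  simpa only [union_assoc] using h

include hFU

theorem good {v : ℕ → Set (Set ℕ)} (op : ∀ i, Op (v i)) {F : Set (Set ℕ)} {m : ℕ}
    (hω : ∀ E, Le E D → E.U ⊆ Ici m → ∃ i, F ⊆ v i ∧ ∀ s ⊆ Iio m, s ∪ E.U ∈ v i) :
    ∀ᶠ e in V, ∃ i, F ⊆ v i ∧ ∀ s ⊆ Iio m, In (v i) (s ∪ e) := by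
  by_contra hc
  let Bad : Set ℕ → Prop := fun e => ¬ ∃ i, F ⊆ v i ∧ ∀ s ⊆ Iio m, In (v i) (s ∪ e)
  have h0 : ∀ᶠ e in V, Bad (∅ ∪ e) := by
    simpa only [empty_union] using Ultrafilter.eventually_not.2 hc
  obtain ⟨E, hE⟩ := exists_blk (fun _ k e => FU D m e ∧ ∀ t ⊆ Iio k, (∀ᶠ e' in V, Bad (t ∪ e')) →
      Bad (t ∪ e) ∧ ∀ᶠ e' in V, Bad (t ∪ e ∪ e')) fun _ k => by
    have h1 : ∀ᶠ e in V, ∀ t ⊆ Iio k, (∀ᶠ e' in V, Bad (t ∪ e')) →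
        Bad (t ∪ e) ∧ ∀ᶠ e' in V, Bad (t ∪ e ∪ e') := ev_all_sub fun t _ => by
      filter_upwards [ev_iff_lim V fun e => Bad (t ∪ e), idem hV Bad t] with e a1 a2 a3
      exact ⟨a1.2 a3, a2.2 a3⟩
    obtain ⟨e, a1, a2, a3⟩ := ((hFU k).and ((hFU m).and h1)).exists
    exact ⟨e, a1.1, a1.2.1, a1.2.2.1, a2, a3⟩
  have h1 : ∀ n, ∀ᶠ e' in V, Bad (E.U ∩ Iio (E.b n) ∪ e') := fun n => by
    induction n with
    | zero => rwa [E.U_zero]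
    | succ n ih => exact E.U_succ n ▸ ((hE n).2 _ inter_subset_right ih).2
  have h2 : E.U ⊆ Ici m := iUnion_subset fun n => (hE n).1.2.2.1
  obtain ⟨i, a1, a2⟩ := hω E (Eventually.of_forall fun n => (hE n).1.2.2.2) h2
  have h3 : ∀ᶠ k in atTop, ∀ s ⊆ Iio m, In (v i) (s ∪ E.U ∩ Iio k) := ev_all_sub fun s hs => by
    filter_upwards [(op i).ev_in (a2 s hs) (E.infinite_U.mono subset_union_right),
      eventually_ge_atTop m] with k b1 b2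
    rwa [union_inter_distrib_right, inter_eq_left.2 (hs.trans (Iio_subset_Iio b2))] at b1
  obtain ⟨k, hk⟩ := eventually_atTop.1 h3
  refine ((hE k).2 _ inter_subset_right (h1 k)).1 ⟨i, a1, ?_⟩
  rw [← E.U_succ]
  exact hk _ (k.le_succ.trans (E.le_b _))

end

theorem core (D : Blk) (u : ℕ → ℕ → Set (Set ℕ)) (F : ℕ → Set (Set ℕ)) (op : ∀ n k, Op (u n k))
    (hω : ∀ m E, Le E D → E.U ⊆ Ici m → ∃ i, F m ⊆ u m i ∧ ∀ s ⊆ Iio m, s ∪ E.U ∈ u m i) :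
    ∃ E, Le E D ∧ ∃ m i : ℕ → ℕ, StrictMono m ∧ (∀ n, F (m n) ⊆ u (m n) (i n)) ∧
      ∀ x, x.Infinite → E.Resp x → (∀ᶠ n in atTop, x ∈ u (m n) (i n)) ∨
        ∀ᶠ n in atTop, x ∈ u (m n) (i n) ↔ E.d n ⊆ x := by
  obtain ⟨V, hV, hFU⟩ := exists_ult D
  have h0 : ∀ m e, ∃ i, (∃ i, F m ⊆ u m i ∧ ∀ s ⊆ Iio m, In (u m i) (s ∪ e)) →
      F m ⊆ u m i ∧ ∀ s ⊆ Iio m, In (u m i) (s ∪ e) := fun m e => by
    by_cases h : ∃ i, F m ⊆ u m i ∧ ∀ s ⊆ Iio m, In (u m i) (s ∪ e)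
    · exact h.imp fun i hi _ => hi
    · exact ⟨0, fun h' => absurd h' h⟩
  choose idx hidx using h0
  let W : ℕ → Set ℕ → Set (Set ℕ) := fun m e => u m (idx m e)
  let Acc : Set (Set ℕ) → Set ℕ → Prop := fun Z s => ∀ᶠ e in V, In Z (s ∪ e)
  let c : ℕ → Set ℕ → Prop := fun m s => ∀ᶠ e in V, Acc (W m e) s
  let c1 : Set ℕ → Prop := fun s => ∀ᶠ m in hyperfilter ℕ, c m s
  let c2 : Set ℕ → Prop := fun s => ∀ᶠ e in V, c1 (s ∪ e)
  obtain ⟨E, hE⟩ := exists_blk (fun _ k e => ∃ m, k ≤ m ∧ (∀ s ⊆ Iio k, c m s ↔ c1 s) ∧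
      FU D m e ∧ (F m ⊆ W m e ∧ ∀ s ⊆ Iio m, In (W m e) (s ∪ e)) ∧
      (∀ s ⊆ Iio k, (Acc (W m e) s ↔ c m s) ∧ (c1 (s ∪ e) ↔ c2 s) ∧ (c2 (s ∪ e) ↔ c2 s)) ∧
      ∀ m' ∈ Iio k, ∀ e' ⊆ Iio k, ∀ s ⊆ Iio k, (In (W m' e') (s ∪ e) ↔ Acc (W m' e') s) ∧
        (Acc (W m' e') (s ∪ e) ↔ Acc (W m' e') s)) fun _ k => by
    have a0 : ∀ᶠ m in hyperfilter ℕ, k ≤ m :=
      (Nat.hyperfilter_le_atTop (eventually_ge_atTop k) :)
    obtain ⟨m, a1, a2⟩ := (a0.and (ev_all_sub (k := k) fun s _ =>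
      ev_iff_lim (hyperfilter ℕ) fun m => c m s)).exists
    have a3 := (good hV hFU (op m) (hω m)).mono (hidx m)
    have a4 : ∀ᶠ e in V, ∀ s ⊆ Iio k,
        (Acc (W m e) s ↔ c m s) ∧ (c1 (s ∪ e) ↔ c2 s) ∧ (c2 (s ∪ e) ↔ c2 s) :=
      ev_all_sub fun s _ => (ev_iff_lim V _).and ((ev_iff_lim V _).and (idem hV c1 s))
    have a5 : ∀ᶠ e in V, ∀ m' ∈ Iio k, ∀ e' ⊆ Iio k, ∀ s ⊆ Iio k,
        (In (W m' e') (s ∪ e) ↔ Acc (W m' e') s) ∧ (Acc (W m' e') (s ∪ e) ↔ Acc (W m' e') s) :=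
      (eventually_all_finite (finite_Iio k)).2 fun m' _ => ev_all_sub fun e' _ =>
        ev_all_sub fun s _ => (ev_iff_lim V _).and (idem hV (In (W m' e')) s)
    obtain ⟨e, b1, b2, b3, b4⟩ := ((hFU m).and (a3.and (a4.and a5))).exists
    exact ⟨e, b1.1, b1.2.1, b1.2.2.1.trans (Ici_subset_Ici.2 a1), m, a1, a2, b1, b2, b3, b4⟩
  choose m h1 h2 h3 h4 h5 h6 using hE
  have hm : ∀ n, m n < E.b (n + 1) := fun n => by
    obtain ⟨a, ha⟩ := E.ne n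
    exact lt_of_le_of_lt ((h3 n).2.2.1 ha) (E.sub n ha).2
  refine ⟨E, Eventually.of_forall fun n => (h3 n).2.2.2, m, fun n => idx (m n) (E.d n),
    strictMono_nat_of_lt_succ fun n => (hm n).trans_le (h1 _), fun n => (h4 n).1,
    fun x hx hr => ?_⟩
  change (∀ᶠ n in atTop, x ∈ W (m n) (E.d n)) ∨ ∀ᶠ n in atTop, x ∈ W (m n) (E.d n) ↔ E.d n ⊆ x
  obtain ⟨n0, hn0⟩ := eventually_atTop.1 hr.step
  have hfr := frequently_atTop.1 (hr.freq hx)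
  obtain ⟨n1, b1, b2⟩ := hfr n0
  set s : ℕ → Set ℕ := fun n => x ∩ Iio (E.b n) with hs
  have hsb : ∀ n, s n ⊆ Iio (E.b n) := fun n => inter_subset_right
  have yes : ∀ n, n0 ≤ n → E.d n ⊆ x → s (n + 1) = s n ∪ E.d n := fun n h => (hn0 n h).1
  have no : ∀ n, n0 ≤ n → ¬ E.d n ⊆ x → s (n + 1) = s n := fun n h => (hn0 n h).2
  have k1 : ∀ n, n1 + 1 ≤ n → (c1 (s n) ↔ c2 (s n1)) ∧ (c2 (s n) ↔ c2 (s n1)) := by
    intro n hn
    induction n, hn using Nat.le_induction with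
    | base =>
      rw [yes n1 b1 b2]
      exact (h5 n1 _ (hsb n1)).2
    | succ n hn ih =>
      by_cases h : E.d n ⊆ x
      · rw [yes n (by omega) h, ← ih.2]
        exact (h5 n _ (hsb n)).2
      · rwa [no n (by omega) h]
  have k2 : ∀ n, n0 ≤ n → E.d n ⊆ x → x ∈ W (m n) (E.d n) := fun n a1 a2 => by
    have := (h4 n).2 (s n) ((hsb n).trans (Iio_subset_Iio (h1 n)))
    rw [← yes n a1 a2] at this
    exact this x (ext_inter _ _)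
  have k3 : ∀ n, n0 ≤ n → (x ∈ W (m n) (E.d n) ↔ Acc (W (m n) (E.d n)) (s (n + 1))) := by
    intro n hn
    have a0 : ∀ j, n + 1 ≤ j → (In (W (m n) (E.d n)) (s j ∪ E.d j) ↔ Acc (W (m n) (E.d n)) (s j)) ∧
        (Acc (W (m n) (E.d n)) (s j ∪ E.d j) ↔ Acc (W (m n) (E.d n)) (s j)) := fun j hj =>
      h6 j (m n) ((hm n).trans_le (E.mono.monotone hj)) (E.d n)
        (fun a ha => (E.sub n ha).2.trans_le (E.mono.monotone hj)) (s j) (hsb j)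
    have a1 : ∀ j, n + 1 ≤ j →
        (Acc (W (m n) (E.d n)) (s j) ↔ Acc (W (m n) (E.d n)) (s (n + 1))) := by
      intro j hj
      induction j, hj using Nat.le_induction with
      | base => rfl
      | succ j hj ih =>
        by_cases h : E.d j ⊆ x
        · rw [yes j (by omega) h, (a0 j hj).2, ih]
        · rw [no j (by omega) h, ih]
    constructor
    · intro h
      obtain ⟨k, hk⟩ := eventually_atTop.1 ((op _ _).ev_in h hx)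
      rw [← a1 (k + n + 1) (by omega)]
      filter_upwards [hFU (E.b (k + n + 1))] with e he
      exact (hk _ (le_trans (by omega) (E.le_b (k + n + 1)))).union (hsb _) he.2.2.1
    · intro h
      obtain ⟨j, a2, a3⟩ := hfr (n + 1)
      have := (a0 j a2).1.2 ((a1 j a2).2 h)
      rw [← yes j (by omega) a3] at this
      exact this x (ext_inter _ _)
  have k4 : ∀ n, n1 + 1 ≤ n → ¬ E.d n ⊆ x → (x ∈ W (m n) (E.d n) ↔ c2 (s n1)) := fun n a1 a2 => by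
    rw [k3 n (by omega), no n (by omega) a2, (h5 n _ (hsb n)).1, h2 n _ (hsb n), (k1 n a1).1]
  by_cases h : c2 (s n1)
  · left
    filter_upwards [eventually_ge_atTop (n1 + 1)] with n hn
    by_cases h' : E.d n ⊆ x
    exacts [k2 n (by omega) h', (k4 n hn h').2 h]
  · right
    filter_upwards [eventually_ge_atTop (n1 + 1)] with n hn
    exact ⟨fun a1 => by_contra fun a2 => h ((k4 n hn a2).1 a1), k2 n (by omega)⟩

end Pool.Agent.P.MP_b17faa_gt.X3
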