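import Mathlib

/-!
Products of finite creatures: homogenization, decision of Borel sets, bounding.
-/

namespace Pool.Agent.P.MP_b17faa_gt.X4

open Set Filter Function

/-- creatures: at coordinate `i` an element of `γ i` names a set of possibilities in `α i` and has
a norm which drops by at most one when a colouring with few colours is made constant -/
structure Cr (α γ : ℕ → Type) [∀ i, Fintype (α i)] [∀ i, Preorder (γ i)] where
  ps : ∀ i, γ i → Set (α i)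
  nr : ∀ i, ℕ → γ i → Prop
  c : ℕ → ℕ
  ps_mono : ∀ i, Monotone (ps i)
  nr_le : ∀ i k k' C, nr i k C → k' ≤ k → nr i k' C
  c_mono : Monotone c
  card_le : ∀ m, Fintype.card (∀ i : Fin m, α i) ≤ c m
  big : ∀ i k C (κ : Type) [Fintype κ], Fintype.card κ ≤ (2 ^ c i) ^ (i + 2 ^ c i + 1) →
    ∀ χ : α i → κ, nr i (k + 1) C → ∃ D ≤ C, nr i k D ∧ ∀ p ∈ ps i D, ∀ q ∈ ps i D, χ p = χ q

/-- limits of sequences in products of finite sets -/
theorem ulim {β : ℕ → Type} [∀ i, Finite (β i)] (f : ℕ → ∀ i, β i) :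
    ∃ x : ∀ i, β i, ∀ a b, ∃ N ≥ b, ∀ i < a, f N i = x i := by
  have : ∀ i, ∃ y, ∀ᶠ N in (hyperfilter ℕ : Filter ℕ), f N i = y := fun i => by
    obtain ⟨y, hy⟩ := Ultrafilter.eq_pure_of_finite ((hyperfilter ℕ).map fun N => f N i)
    refine ⟨y, ?_⟩
    have : {y} ∈ (hyperfilter ℕ).map fun N => f N i := hy ▸ Ultrafilter.mem_pure.2 rfl
    exact this
  choose x hx using this
  refine ⟨x, fun a b => ?_⟩
  have h1 : ∀ᶠ N in (hyperfilter ℕ : Filter ℕ), N ≥ b :=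
    Nat.hyperfilter_le_atTop (eventually_ge_atTop b)
  exact (h1.and ((eventually_all_finite (finite_Iio a)).2 fun i _ => hx i)).exists

variable {α γ : ℕ → Type} [∀ i, Fintype (α i)] [∀ i, Preorder (γ i)]

/-- the set depends only on the coordinates below `b` -/
def Dep (b : ℕ) (V : Set (∀ i, α i)) : Prop :=
  ∀ w w' : ∀ i, α i, (∀ i < b, w i = w' i) → w ∈ V → w' ∈ V

omit [∀ i, Fintype (α i)] in
theorem Dep.le {b b' : ℕ} {V : Set (∀ i, α i)} (h : Dep b V) (h' : b ≤ b') : Dep b' V :=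
  fun w w' h1 => h w w' fun i hi => h1 i (hi.trans_le h')

namespace Cr

variable (K : Cr α γ)

theorem card_dep {b : ℕ} (Θ : Finset (Set (∀ i, α i))) (h : ∀ V ∈ Θ, Dep b V) :
    Θ.card ≤ 2 ^ K.c b := by
  classical
  refine le_trans ?_ (Nat.pow_le_pow_right two_pos (K.card_le b))
  rw [← Fintype.card_set, ← Finset.card_univ]
  refine Finset.card_le_card_of_injOn (fun V => (fun w (i : Fin b) => w i) '' V)
    (fun _ _ => Finset.mem_univ _) fun V hV V' hV' e => ?_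
  have key : ∀ V V' : Set (∀ i, α i), Dep b V' →
      (fun w (i : Fin b) => w i) '' V = (fun w (i : Fin b) => w i) '' V' → V ⊆ V' := by
    intro V V' h1 h2 w hw
    obtain ⟨w', a1, a2⟩ := h2.subset (mem_image_of_mem _ hw)
    exact h1 w' w (fun i hi => congrFun a2 ⟨i, hi⟩) a1
  exact (key V V' (h V' hV') e).antisymm (key V' V (h V hV) e.symm)

/-- for points following `D` on `[b, b')` the two sets agree -/
def Red (D : ∀ i, γ i) (b b' : ℕ) (V θ : Set (∀ i, α i)) : Prop :=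
  ∀ w : ∀ i, α i, (∀ i, b ≤ i → i < b' → w i ∈ K.ps i (D i)) → (w ∈ V ↔ w ∈ θ)

/-- `D` refines `C` and has norm `ρ` on `[b, b')` -/
def Good (C : ∀ i, γ i) (ρ : ℕ → ℕ) (D : ∀ i, γ i) (b b' : ℕ) : Prop :=
  (∀ i, D i ≤ C i) ∧ ∀ i, b ≤ i → i < b' → K.nr i (ρ i) (D i)

/-- concatenation -/
def cat (b : ℕ) (D D' : ∀ i, γ i) : ∀ i, γ i := fun i => if i < b then D i else D' i

variable {K}

theorem Good.cat {C D D' : ∀ i, γ i} {ρ : ℕ → ℕ} {b b' b'' : ℕ} (h : K.Good C ρ D b b')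
    (h' : K.Good C ρ D' b' b'') : K.Good C ρ (cat b' D D') b b'' := by
  refine ⟨fun i => ?_, fun i h1 h2 => ?_⟩ <;> unfold Cr.cat <;> split_ifs with h3
  exacts [h.1 i, h'.1 i, h.2 i h1 h3, h'.2 i (not_lt.1 h3) h2]

theorem Red.left {D : ∀ i, γ i} (D' : ∀ i, γ i) {b b' b'' : ℕ} {V θ : Set (∀ i, α i)}
    (h : K.Red D b b' V θ) (hb : b' ≤ b'') : K.Red (cat b' D D') b b'' V θ :=
  fun w hw => h w fun i h1 h2 => by simpa [cat, h2] using hw i h1 (h2.trans_le hb)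

theorem Red.cat {D D' : ∀ i, γ i} {b b' b'' : ℕ} {V η θ : Set (∀ i, α i)}
    (h : K.Red D' b' b'' V η) (h' : K.Red D b b' η θ) (hb : b ≤ b') (hb' : b' ≤ b'') :
    K.Red (cat b' D D') b b'' V θ := fun w hw =>
  (h w fun i h1 h2 => by simpa [Cr.cat, h1.not_gt] using hw i (hb.trans h1) h2).trans
    (h'.left D' hb' w hw)

theorem step {b k : ℕ} {C : γ b} (hC : K.nr b (k + 1) C) (𝒱 : Finset (Set (∀ i, α i)))
    (h1 : 𝒱.card ≤ b + 2 ^ K.c b + 1) (h2 : ∀ V ∈ 𝒱, Dep (b + 1) V) :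
    ∃ D ≤ C, K.nr b k D ∧ ∀ V ∈ 𝒱, ∃ θ, Dep b θ ∧
      ∀ w : ∀ i, α i, w b ∈ K.ps b D → (w ∈ V ↔ w ∈ θ) := by
  classical
  obtain ⟨D, a1, a2, a3⟩ := K.big b k C (𝒱 → Set (∀ i : Fin b, α i)) (by
      rw [Fintype.card_fun, Fintype.card_set, Fintype.card_coe]
      exact (Nat.pow_le_pow_left (Nat.pow_le_pow_right two_pos (K.card_le b)) _).trans
        (Nat.pow_le_pow_right (by positivity) h1))
    (fun p V => (fun w (i : Fin b) => w i) '' {w ∈ V.1 | w b = p}) hC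
  refine ⟨D, a1, a2, fun V hV => ⟨{w | ∃ w' ∈ V, (∀ i < b, w' i = w i) ∧ w' b ∈ K.ps b D}, ?_,
    fun w hw => ⟨fun h => ⟨w, h, fun _ _ => rfl, hw⟩, ?_⟩⟩⟩
  · rintro w w' h ⟨w'', b1, b2, b3⟩
    exact ⟨w'', b1, fun i hi => (b2 i hi).trans (h i hi), b3⟩
  · rintro ⟨w', b1, b2, b3⟩
    have : (fun i : Fin b => w' i) ∈ (fun w (i : Fin b) => w i) '' {w'' ∈ V | w'' b = w b} :=
      congrFun (a3 _ b3 _ hw) ⟨V, hV⟩ ▸ mem_image_of_mem _ ⟨b1, rfl⟩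
    obtain ⟨w'', ⟨c1, c2⟩, c3⟩ := this
    refine h2 V hV w'' w (fun i hi => ?_) c1
    rcases (Nat.le_of_lt_succ hi).eq_or_lt with rfl | hi
    exacts [c2, (congrFun c3 ⟨i, hi⟩).trans (b2 i hi)]

/-- simultaneous homogenization of a few sets which depend on finitely many coordinates -/
theorem homog {C : ∀ i, γ i} {ρ : ℕ → ℕ} {b : ℕ} (hC : ∀ i, b ≤ i → K.nr i (ρ i + 1) (C i))
    {b' : ℕ} (hb : b ≤ b') (𝒱 : Finset (Set (∀ i, α i)))
    (h1 : 𝒱.card ≤ b + 2 ^ K.c b + 1) (h2 : ∀ V ∈ 𝒱, Dep b' V) :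
    ∃ D, K.Good C ρ D b b' ∧ ∀ V ∈ 𝒱, ∃ θ, Dep b θ ∧ K.Red D b b' V θ := by
  classical
  induction b', hb using Nat.le_induction generalizing 𝒱 with
  | base =>
    exact ⟨C, ⟨fun _ => le_rfl, fun i a1 a2 => absurd a1 a2.not_ge⟩,
      fun V hV => ⟨V, h2 V hV, fun _ _ => Iff.rfl⟩⟩
  | succ b' hb ih =>
    obtain ⟨E, a1, a2, a3⟩ := step (hC b' hb) 𝒱 (h1.trans (by
      have := Nat.pow_le_pow_right two_pos (K.c_mono hb)
      omega)) h2
    choose! f f1 f2 using a3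
    obtain ⟨D, b1, b2⟩ := ih (𝒱.image f) (Finset.card_image_le.trans h1) (by simpa using f1)
    have g : K.Good C ρ (update C b' E) b' (b' + 1) := by
      refine ⟨fun i => ?_, fun i c1 c2 => ?_⟩
      · by_cases hi : i = b'
        · subst hi
          simpa using a1
        · simp [hi]
      · obtain rfl : i = b' := by omega
        simpa using a2
    refine ⟨_, b1.cat g, fun V hV => ?_⟩
    obtain ⟨θ, c1, c2⟩ := b2 _ (Finset.mem_image_of_mem f hV)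
    refine ⟨θ, c1, Red.cat (fun w hw => f2 V hV w ?_) c2 hb (Nat.le_succ _)⟩
    simpa using hw b' le_rfl (Nat.lt_succ_self _)

variable (K)

/-- the points following `D` from `m` on -/
def Pt (D : ∀ i, γ i) (m : ℕ) : Set (∀ i, α i) := {w | ∀ i, m ≤ i → w i ∈ K.ps i (D i)}

/-- for points following `D` from `m` on, membership depends only on the coordinates below `m` -/
def Dec (D : ∀ i, γ i) (m : ℕ) (V : Set (∀ i, α i)) : Prop :=
  ∀ w ∈ K.Pt D m, ∀ w' ∈ K.Pt D m, (∀ i < m, w i = w' i) → w ∈ V → w' ∈ V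

/-- relatively open -/
def Opn (D : ∀ i, γ i) (m : ℕ) (V : Set (∀ i, α i)) : Prop :=
  ∀ w ∈ K.Pt D m, w ∈ V → ∃ N, ∀ w' ∈ K.Pt D m, (∀ i < N, w i = w' i) → w' ∈ V

variable {K}

theorem Pt_mono {D D' : ∀ i, γ i} {m m' : ℕ} (h : ∀ i, D i ≤ D' i) (hm : m ≤ m') :
    K.Pt D m ⊆ K.Pt D' m' := fun _ hw i hi => K.ps_mono i (h i) (hw i (hm.trans hi))

theorem Dec.mono {D D' : ∀ i, γ i} {m : ℕ} {V : Set (∀ i, α i)} (h : K.Dec D' m V)
    (h' : ∀ i, D i ≤ D' i) : K.Dec D m V :=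
  fun w h1 w' h2 => h w (Pt_mono h' le_rfl h1) w' (Pt_mono h' le_rfl h2)

theorem Opn.mono {D D' : ∀ i, γ i} {m : ℕ} {V : Set (∀ i, α i)} (h : K.Opn D' m V)
    (h' : ∀ i, D i ≤ D' i) : K.Opn D m V := fun w h1 h2 =>
  let ⟨N, hN⟩ := h w (Pt_mono h' le_rfl h1) h2
  ⟨N, fun w' h3 => hN w' (Pt_mono h' le_rfl h3)⟩

variable [∀ i, Finite (γ i)]

/-- deciding an open set above one stem -/
theorem open_one {C : ∀ i, γ i} {ρ : ℕ → ℕ} {m : ℕ} (hC : ∀ i, m ≤ i → K.nr i (ρ i + 1) (C i))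
    {V : Set (∀ i, α i)} (hV : K.Opn C m V) (σ : ∀ i : Fin m, α i) :
    ∃ D : ∀ i, γ i, (∀ i, D i ≤ C i) ∧ (∀ i, m ≤ i → K.nr i (ρ i) (D i)) ∧
      ∀ w ∈ K.Pt D m, ∀ w' ∈ K.Pt D m, (∀ i : Fin m, w i = σ i) → (∀ i : Fin m, w' i = σ i) →
        w ∈ V → w' ∈ V := by
  classical
  set O : ℕ → Set (∀ i, α i) := fun N => {w | ∀ w' ∈ K.Pt C m, (∀ i < N, w i = w' i) → w' ∈ V}
  have : ∀ N, ∃ D : ∀ i, γ i, (∀ i, D i ≤ C i) ∧ (∀ i, m ≤ i → K.nr i (ρ i) (D i)) ∧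
      K.Dec D m (O N) := fun N => by
    obtain ⟨D, a1, a2⟩ := homog hC (le_max_left m N) {O N} (by simp) (by
      simp only [Finset.mem_singleton, forall_eq]
      exact Dep.le (b := N) (fun w w' h1 h2 w'' h3 h4 =>
        h2 w'' h3 fun i hi => (h1 i hi).trans (h4 i hi)) (le_max_right _ _))
    obtain ⟨θ, b1, b2⟩ := a2 _ (Finset.mem_singleton_self _)
    have b3 := b2.left C (le_refl _)
    refine ⟨cat (max m N) D C, fun i => ?_, fun i hi => ?_, fun w c1 w' c2 c3 c4 => ?_⟩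
    · unfold cat
      split_ifs
      exacts [a1.1 i, le_rfl]
    · unfold cat
      split_ifs with h
      exacts [a1.2 i hi h, K.nr_le _ _ _ _ (hC i hi) (Nat.le_succ _)]
    · exact (b3 w' fun i h _ => c2 i h).2 (b1 w w' c3 ((b3 w fun i h _ => c1 i h).1 c4))
  choose D a1 a2 a3 using this
  by_cases h : ∃ N, ∀ w ∈ K.Pt (D N) m, (∀ i : Fin m, w i = σ i) → w ∈ V
  · obtain ⟨N, hN⟩ := h
    exact ⟨D N, a1 N, a2 N, fun _ _ w' h1 _ h2 _ => hN w' h1 h2⟩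
  push Not at h
  choose z z1 z2 z3 using h
  obtain ⟨E, hE⟩ := ulim D
  have e : ∀ i, ∃ N, D N i = E i := fun i =>
    let ⟨N, _, h⟩ := hE (i + 1) 0; ⟨N, h i (Nat.lt_succ_self _)⟩
  have e1 : ∀ i, E i ≤ C i := fun i => let ⟨N, h⟩ := e i; h ▸ a1 N i
  refine ⟨E, e1, fun i hi => let ⟨N, h⟩ := e i; h ▸ a2 N i hi, fun w h1 _ _ h2 _ h3 => ?_⟩
  obtain ⟨N0, h0⟩ := hV w (Pt_mono e1 le_rfl h1) h3
  obtain ⟨N, b1, b2⟩ := hE N0 N0
  refine absurd (a3 N (fun i => if i < N0 then w i else z N i) (fun i hi => ?_) (z N) (z1 N)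
    (fun i hi => ?_) (fun w' c1 c2 => h0 w' c1 fun i hi => ?_) (z N)
    (Pt_mono (a1 N) le_rfl (z1 N)) fun _ _ => rfl) (z3 N)
  · dsimp only
    split_ifs with h
    exacts [b2 i h ▸ h1 i hi, z1 N i hi]
  · split_ifs
    exacts [(h2 ⟨i, hi⟩).trans (z2 N ⟨i, hi⟩).symm, rfl]
  · simpa [hi] using c2 i (hi.trans_le b1)

/-- deciding an open set above all stems -/
theorem open_all {C : ∀ i, γ i} {ρ : ℕ → ℕ} {m : ℕ}
    (hC : ∀ i, m ≤ i → K.nr i (ρ i + K.c m) (C i)) {V : Set (∀ i, α i)} (hV : K.Opn C m V) :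
    ∃ D : ∀ i, γ i, (∀ i, D i ≤ C i) ∧ (∀ i, m ≤ i → K.nr i (ρ i) (D i)) ∧ K.Dec D m V := by
  classical
  have key : ∀ (G : Finset (∀ i : Fin m, α i)) (ρ : ℕ → ℕ),
      (∀ i, m ≤ i → K.nr i (ρ i + G.card) (C i)) →
      ∃ D : ∀ i, γ i, (∀ i, D i ≤ C i) ∧ (∀ i, m ≤ i → K.nr i (ρ i) (D i)) ∧ ∀ σ ∈ G,
        ∀ w ∈ K.Pt D m, ∀ w' ∈ K.Pt D m, (∀ i : Fin m, w i = σ i) → (∀ i : Fin m, w' i = σ i) →
          w ∈ V → w' ∈ V := by
    intro G
    induction G using Finset.induction_on with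
    | empty => exact fun ρ h => ⟨C, fun _ => le_rfl, h, by simp⟩
    | insert σ G hσ ih =>
      intro ρ h
      obtain ⟨D, a1, a2, a3⟩ := ih (fun i => ρ i + 1) fun i hi => K.nr_le _ _ _ _ (h i hi) (by
        rw [Finset.card_insert_of_notMem hσ]
        omega)
      obtain ⟨E, b1, b2, b3⟩ := open_one a2 (hV.mono a1) σ
      refine ⟨E, fun i => (b1 i).trans (a1 i), b2, fun τ hτ => ?_⟩
      rcases Finset.mem_insert.1 hτ with rfl | hτ
      · exact b3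
      · exact fun w c1 w' c2 => a3 τ hτ w (Pt_mono b1 le_rfl c1) w' (Pt_mono b1 le_rfl c2)
  obtain ⟨D, a1, a2, a3⟩ := key Finset.univ ρ fun i hi =>
    K.nr_le _ _ _ _ (hC i hi) (Nat.add_le_add_left (K.card_le m) _)
  exact ⟨D, a1, a2, fun w h1 w' h2 h3 => a3 (fun i => w i) (Finset.mem_univ _) w h1 w' h2
    (fun _ => rfl) fun i => (h3 i i.2).symm⟩

omit [∀ i, Finite (γ i)] in
/-- bounding -/
theorem bound {D : ∀ i, γ i} {n : ℕ} {G : ℕ → Set (∀ i, α i)} (hG : Monotone G)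
    (h1 : ∀ g, ∃ m ≥ n, K.Dec D m (G g)) (h2 : ∀ w ∈ K.Pt D n, ∃ g, w ∈ G g) :
    ∃ g, K.Pt D n ⊆ G g := by
  by_contra hc
  simp only [not_exists, not_subset] at hc
  choose z z1 z2 using hc
  obtain ⟨w, hw⟩ := ulim z
  have : w ∈ K.Pt D n := fun i hi =>
    let ⟨N, _, h⟩ := hw (i + 1) 0; h i (Nat.lt_succ_self _) ▸ z1 N i hi
  obtain ⟨g, hg⟩ := h2 w this
  obtain ⟨m, a1, a2⟩ := h1 g
  obtain ⟨N, b1, b2⟩ := hw m g
  exact z2 N (hG b1 (a2 w (Pt_mono (fun _ => le_rfl) a1 this) _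
    (Pt_mono (fun _ => le_rfl) a1 (z1 N)) (fun i hi => (b2 i hi).symm) hg))

variable (K)

/-- the norm in large units -/
def Nor (i r : ℕ) (C : γ i) : Prop := K.nr i (r * K.c i) C

/-- the norms tend to infinity -/
def Lim (C : ∀ i, γ i) : Prop := ∀ r, ∀ᶠ i in atTop, K.Nor i r (C i)

/-- decidable sets -/
def Dcd (V : Set (∀ i, α i)) : Prop :=
  ∀ C m r, K.Lim C → (∀ i, m ≤ i → K.Nor i (r + 1) (C i)) → ∃ D : ∀ i, γ i, (∀ i, D i ≤ C i) ∧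
    (∀ i < m, D i = C i) ∧ (∀ i, m ≤ i → K.Nor i r (D i)) ∧ K.Lim D ∧ K.Dec D m V

variable {K}

omit [∀ i, Finite (γ i)] in
theorem Nor.le {i r r' : ℕ} {C : γ i} (h : K.Nor i r C) (h' : r' ≤ r) : K.Nor i r' C :=
  K.nr_le _ _ _ _ h (Nat.mul_le_mul_right _ h')

omit [∀ i, Finite (γ i)] in
theorem exists_rho {C : ∀ i, γ i} {m r : ℕ} (h : K.Lim C)
    (h' : ∀ i, m ≤ i → K.Nor i (r + 1) (C i)) :
    ∃ ρ : ℕ → ℕ, Tendsto ρ atTop atTop ∧ ∀ i, m ≤ i → r ≤ ρ i ∧ K.Nor i (ρ i + 1) (C i) := by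
  classical
  refine ⟨fun i => Nat.findGreatest (fun s => K.Nor i (s + 1) (C i)) (r + i),
    tendsto_atTop.2 fun s => ?_, fun i hi => ⟨Nat.le_findGreatest (by omega) (h' i hi),
      Nat.findGreatest_spec (P := fun s => K.Nor i (s + 1) (C i)) (Nat.le_add_right r i)
        (h' i hi)⟩⟩
  filter_upwards [h (s + 1), eventually_ge_atTop s] with i h1 h2
  exact Nat.le_findGreatest (by omega) h1

theorem Opn.dec {C : ∀ i, γ i} {m r : ℕ} (h : K.Lim C) (h' : ∀ i, m ≤ i → K.Nor i (r + 1) (C i))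
    {V : Set (∀ i, α i)} (hV : K.Opn C m V) : ∃ D : ∀ i, γ i, (∀ i, D i ≤ C i) ∧
      (∀ i < m, D i = C i) ∧ (∀ i, m ≤ i → K.Nor i r (D i)) ∧ K.Lim D ∧ K.Dec D m V := by
  obtain ⟨ρ, r1, r2⟩ := exists_rho h h'
  obtain ⟨D, a1, a2, a3⟩ := open_all (ρ := fun i => ρ i * K.c i) (fun i hi =>
    K.nr_le _ _ _ _ (r2 i hi).2 (by have := K.c_mono hi; nlinarith)) hV
  have e : ∀ i, m ≤ i → cat m C D i = D i := fun i hi => if_neg hi.not_gt
  refine ⟨cat m C D, fun i => ?_, fun i hi => if_pos hi,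
    fun i hi => e i hi ▸ Nor.le (a2 i hi) (r2 i hi).1, fun s => ?_,
    fun w b1 w' b2 => a3 w (fun i hi => e i hi ▸ b1 i hi) w' fun i hi => e i hi ▸ b2 i hi⟩
  · unfold cat
    split_ifs
    exacts [le_rfl, a1 i]
  · filter_upwards [eventually_ge_atTop m, r1.eventually_ge_atTop s] with i b1 b2
    exact e i b1 ▸ Nor.le (a2 i b1) b2

omit [∀ i, Finite (γ i)] in
theorem fusion {B : ℕ → Set (∀ i, α i)} (hB : ∀ k, K.Dcd (B k)) {C : ∀ i, γ i} {m r : ℕ}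
    (h : K.Lim C) (h' : ∀ i, m ≤ i → K.Nor i (r + 1) (C i)) : ∃ D : ∀ i, γ i, (∀ i, D i ≤ C i) ∧
      (∀ i < m, D i = C i) ∧ (∀ i, m ≤ i → K.Nor i (r + 1) (D i)) ∧ K.Lim D ∧
        ∀ k, ∃ m', m ≤ m' ∧ k ≤ m' ∧ K.Dec D m' (B k) := by
  have : ∀ (k : ℕ) (D : {D : ∀ i, γ i // K.Lim D}), ∃ (m' : ℕ) (D' : {D : ∀ i, γ i // K.Lim D}),
      m ≤ m' ∧ k ≤ m' ∧ (∀ i, D'.1 i ≤ D.1 i) ∧ (∀ i < m', D'.1 i = D.1 i) ∧
        (∀ i, m' ≤ i → K.Nor i (r + k + 1) (D'.1 i)) ∧ K.Dec D'.1 m' (B k) := fun k D => by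
    obtain ⟨a, ha⟩ := eventually_atTop.1 (D.2 (r + k + 1 + 1))
    obtain ⟨D', a1, a2, a3, a4, a5⟩ := hB k D.1 (m + k + a) _ D.2 fun i hi => ha i (by omega)
    exact ⟨_, ⟨D', a4⟩, by omega, by omega, a1, a2, a3, a5⟩
  choose μ f a1 a2 a3 a4 a5 a6 using this
  let s : ℕ → {D : ∀ i, γ i // K.Lim D} := fun k => Nat.rec ⟨C, h⟩ f k
  have anti : ∀ i, Antitone fun k => (s k).1 i := fun i =>
    antitone_nat_of_succ_le fun k => a3 k (s k) i
  have stab : ∀ i k0, (∀ k, k0 ≤ k → i < μ k (s k)) → ∀ k, k0 ≤ k → (s k).1 i = (s k0).1 i := by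
    intro i k0 hi k hk
    induction k, hk using Nat.le_induction with
    | base => rfl
    | succ k hk ih => exact (a4 k (s k) i (hi k hk)).trans ih
  have low : ∀ k i, (s (i + 1)).1 i ≤ (s k).1 i := fun k i => by
    rcases le_total k (i + 1) with hk | hk
    · exact anti i hk
    · exact (stab i _ (fun k hk => hk.trans (a2 k _)) k hk).ge
  have inv : ∀ i k0 t, K.Nor i t ((s k0).1 i) → t ≤ r + k0 + 1 → ∀ k, k0 ≤ k →
      K.Nor i t ((s k).1 i) := by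
    intro i k0 t h1 h2 k hk
    induction k, hk using Nat.le_induction with
    | base => exact h1
    | succ k hk ih =>
      rcases lt_or_ge i (μ k (s k)) with hi | hi
      · exact (a4 k (s k) i hi).symm ▸ ih
      · exact (a5 k (s k) i hi).le (by omega)
  refine ⟨fun i => (s (i + 1)).1 i, low 0, fun i hi => ?_,
    fun i hi => inv i 0 _ (h' i hi) le_rfl (i + 1) (Nat.zero_le _), fun t => ?_,
    fun k => ⟨_, a1 k _, a2 k _, (a6 k (s k)).mono (low (k + 1))⟩⟩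
  · exact stab i 0 (fun k _ => hi.trans_le (a1 k _)) (i + 1) (Nat.zero_le _)
  · filter_upwards [eventually_ge_atTop (μ t (s t)), eventually_ge_atTop t] with i b1 b2
    exact (inv i (t + 1) (r + t + 1) (a5 t (s t) i b1) (by omega) (i + 1) (by omega)).le (by omega)

theorem dcd_of_open {V : Set (∀ i, α i)}
    (h : ∀ w ∈ V, ∃ N, ∀ w' : ∀ i, α i, (∀ i < N, w i = w' i) → w' ∈ V) : K.Dcd V :=
  fun _ _ _ h1 h2 => Opn.dec h1 h2 fun w _ hw =>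
    let ⟨N, hN⟩ := h w hw; ⟨N, fun w' _ => hN w'⟩

variable (K) in
/-- the decidable sets form a `σ`-algebra -/
@[reducible] def ms : MeasurableSpace (∀ i, α i) where
  MeasurableSet' := K.Dcd
  measurableSet_empty := dcd_of_open (by simp)
  measurableSet_compl V h C m r h1 h2 :=
    let ⟨D, a1, a2, a3, a4, a5⟩ := h C m r h1 h2
    ⟨D, a1, a2, a3, a4, fun w b1 w' b2 b3 b4 b5 =>
      b4 (a5 w' b2 w b1 (fun i hi => (b3 i hi).symm) b5)⟩
  measurableSet_iUnion B hB C m r h1 h2 := by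
    obtain ⟨D, a1, a2, a3, a4, a5⟩ := fusion hB h1 h2
    obtain ⟨E, b1, b2, b3⟩ := Opn.dec (V := ⋃ k, B k) a4 a3 fun w c1 c2 => by
      obtain ⟨k, hk⟩ := mem_iUnion.1 c2
      obtain ⟨m', d1, -, d2⟩ := a5 k
      exact ⟨m', fun w' d3 d4 => mem_iUnion.2 ⟨k, d2 w (Pt_mono (fun _ => le_rfl) d1 c1) w'
        (Pt_mono (fun _ => le_rfl) d1 d3) d4 hk⟩⟩
    exact ⟨E, fun i => (b1 i).trans (a1 i), fun i hi => (b2 i hi).trans (a2 i hi), b3⟩

/-- continuous reading -/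
theorem read {𝒱 : Set (Set (∀ i, α i))} (hc : 𝒱.Countable) (h𝒱 : ∀ V ∈ 𝒱, K.Dcd V)
    {C : ∀ i, γ i} (h : K.Lim C) :
    ∃ D : ∀ i, γ i, (∀ i, D i ≤ C i) ∧ K.Lim D ∧ ∀ V ∈ 𝒱, ∀ a, ∃ m ≥ a, K.Dec D m V := by
  obtain ⟨f, hf⟩ := (hc.insert ∅).exists_eq_range (insert_nonempty _ _)
  obtain ⟨m, hm⟩ := eventually_atTop.1 (h (0 + 1))
  obtain ⟨D, a1, -, -, a2, a3⟩ := fusion (K := K) (B := fun k => f k.unpair.1) (fun k => by
    rcases hf.ge (mem_range_self k.unpair.1) with h | h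
    exacts [h ▸ K.ms.measurableSet_empty, h𝒱 _ h]) h hm
  refine ⟨D, a1, a2, fun V hV a => ?_⟩
  obtain ⟨k, rfl⟩ := hf.le (mem_insert_of_mem _ hV)
  obtain ⟨m', -, b1, b2⟩ := a3 (Nat.pair k a)
  exact ⟨m', (Nat.right_le_pair k a).trans b1, by simpa using b2⟩

end Cr

end Pool.Agent.P.MP_b17faa_gt.X4
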