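import Pool.Agent.P.MP_b17faa_gt.X7Iface

/-!
The calculus of signed tests: basic lemmas.
-/

namespace Pool.Agent.P.MP_b17faa_gt.X7.Calc

open Set Filter Function

variable {N : Type} {S : Stat N} {P : Dyn N} {K L : Set ℕ} {s t l l' j d : ℕ} {x y : N}
  {D D' : Dt} {e : ℕ × ℕ} {a b c : N × Dt} {Φ : N × Dt → Prop}

theorem kl (h : Ok S P) (hp : P.Pl l x y) (hk : S.kill x e) : S.kill y e :=
  h.kill _ _ _ (h.mono _ _ _ _ (Nat.zero_le _) hp) hk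

theorem tr (h : Ok S P) {l1 l2 : ℕ} {z : N} (h1 : P.Pl l1 x y) (h2 : P.Pl l2 y z) (e1 : l ≤ l1)
    (e2 : l ≤ l2) : P.Pl l x z :=
  h.trans _ _ _ _ (h.mono _ _ _ _ e1 h1) (h.mono _ _ _ _ e2 h2)

theorem dep_ge (h : Ok S P) (hp : P.Pl l x y) (h1 : 2 * s ≤ l) (h2 : s ≤ S.dep x) : s ≤ S.dep y :=
  h.dep_ge _ _ _ (h.mono _ _ _ _ h1 hp) h2

theorem X_persist (h : Ok S P) (hx : X S P s x D) (hp : P.Pl (2 * s + 1) x y) : X S P s y D := by
  cases s with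
  | zero => trivial
  | succ s => exact fun z hz => hx z (tr h hp hz (by omega) le_rfl)

theorem X_anti (h : Ok S P) (hx : X S P s x D)
    (hD : ∀ δ ∈ D', 1 ≤ δ.1 → δ.1 ≤ s → δ ∈ D ∨ (δ.2.1 = true ∧ S.kill x δ.2.2)) :
    X S P s x D' := by
  induction s generalizing x with
  | zero => trivial
  | succ s ih =>
    intro y hy
    obtain ⟨z, h1, h2⟩ := hx y hy
    refine ⟨z, h1, fun z' h3 => ?_⟩
    obtain ⟨⟨w, h4, h5⟩, w', h6, h7⟩ := h2 z' h3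
    have h8 : P.Pl 0 x z' := tr h (tr h hy h1 (Nat.zero_le _) (Nat.zero_le _)) h3 le_rfl (Nat.zero_le _)
    refine ⟨⟨w, h4, fun δ c1 c2 => ?_⟩, w', h6, ih h7 fun δ c1 c2 c3 => ?_⟩
    · rcases hD δ c1 (by omega) c2.le with c3 | c3
      exacts [h5 δ c3 c2, iff_of_true (kl h h4 (kl h h8 c3.2)) c3.1]
    · exact (hD δ c1 c2 (by omega)).imp_right fun c4 => ⟨c4.1, kl h h6 (kl h h8 c4.2)⟩

theorem X_sub (h : Ok S P) (hx : X S P s x D) (hD : ∀ δ ∈ D', 1 ≤ δ.1 → δ.1 ≤ s → δ ∈ D) :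
    X S P s x D' := X_anti h hx fun δ h1 h2 h3 => Or.inl (hD δ h1 h2 h3)

theorem X_down (h : Ok S P) (hx : X S P s x D) (h1 : (j, true, e) ∈ D) (h2 : j ≤ s)
    (hD : ∀ δ ∈ D', δ ∈ D ∨ (δ.1 ≤ j ∧ δ.2 = (true, e))) : X S P s x D' := by
  induction s generalizing x with
  | zero => trivial
  | succ s ih =>
    intro y hy
    obtain ⟨z, a1, a2⟩ := hx y hy
    refine ⟨z, a1, fun z' a3 => ?_⟩
    obtain ⟨⟨w, a4, a5⟩, w', a6, a7⟩ := a2 z' a3
    refine ⟨⟨w, a4, fun δ c1 c2 => a5 δ ?_ c2⟩, ?_⟩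
    · refine (hD δ c1).elim id fun c3 => ?_
      obtain rfl : δ = (j, true, e) := Prod.ext (by dsimp only; omega) c3.2
      exact h1
    rcases h2.eq_or_lt with rfl | h3
    · obtain ⟨-, v, b1, b2⟩ := a2 w (h.trans _ _ _ _ a3 a4)
      refine ⟨v, tr h a4 b1 (by omega) le_rfl, X_anti h b2 fun δ c1 _ _ =>
        (hD δ c1).imp_right fun c2 => ?_⟩
      rw [c2.2]
      exact ⟨rfl, kl h b1 ((a5 _ h1 rfl).2 rfl)⟩
    · exact ⟨w', a6, ih a7 (by omega)⟩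

theorem W_insert {σ : Bool} (hw : W S s x D) (h : j = s → (S.kill x e ↔ σ = true)) :
    W S s x (insert (j, σ, e) D) := fun δ h1 h2 => by
  rcases Finset.mem_insert.1 h1 with rfl | h1
  exacts [h h2, hw δ h1 h2]

/-- a test which cannot be added positively can be added negatively -/
theorem X_ext (h : Ok S P) (hx : X S P s x D)
    (H : ∀ y, P.Pl (2 * s + 1) x y → ¬ X S P s y (insert (j, true, e) D)) :
    X S P s x (insert (j, false, e) D) := by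
  induction s generalizing x with
  | zero => trivial
  | succ s ih =>
    intro y hy
    have := H y hy
    simp only [X, not_forall, not_exists, not_and] at this
    obtain ⟨y', a1, a2⟩ := this
    obtain ⟨z, a3, a4⟩ := hx y' (h.trans _ _ _ _ hy a1)
    obtain ⟨z', a5, a6⟩ := a2 z a3
    refine ⟨z', tr h (tr h a1 a3 (by omega) le_rfl) a5 le_rfl le_rfl, fun z'' a7 => ?_⟩
    obtain ⟨⟨w, b1, b2⟩, w', b3, b4⟩ := a4 z'' (h.trans _ _ _ _ a5 a7)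
    by_cases hj : j = s + 1
    · have loc : ∀ σ, X S P s w' (insert (j, σ, e) D) := fun σ => X_sub h b4 fun δ c1 _ c2 => by
        rcases Finset.mem_insert.1 c1 with rfl | c1
        exacts [by dsimp only at c2; omega, c1]
      refine ⟨⟨w, b1, W_insert b2 fun _ => iff_of_false (fun c => ?_) nofun⟩, w', b3, loc _⟩
      exact a6 ⟨w, h.trans _ _ _ _ a7 b1, W_insert b2 fun _ => iff_of_true c rfl⟩ w'
        (tr h a7 b3 (by omega) le_rfl) (loc _)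
    · refine ⟨⟨w, b1, W_insert b2 fun c => absurd c hj⟩, w', b3, ih b4 fun v c => ?_⟩
      exact a6 ⟨w, h.trans _ _ _ _ a7 b1, W_insert b2 fun c => absurd c hj⟩ v
        (tr h (tr h a7 b3 (by omega) le_rfl) c le_rfl le_rfl)

theorem X_safe (h : Ok S P) (hx : X S P s x D) (h1 : (d, false, e) ∈ D) (h2 : 1 ≤ d) (h3 : d ≤ s) :
    ¬ S.kill x e := by
  induction s generalizing x with
  | zero => omega
  | succ s ih =>
    intro hk
    obtain ⟨z, a1, a2⟩ := hx x (h.refl _ _)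
    obtain ⟨⟨w, a3, a4⟩, w', a5, a6⟩ := a2 z (h.refl _ _)
    rcases h3.eq_or_lt with rfl | h4
    · exact absurd ((a4 _ h1 rfl).1 (kl h a3 (kl h a1 hk))) nofun
    · exact ih a6 (by omega) (kl h a5 (kl h a1 hk))

theorem X_close (h : Ok S P) (hx : X S P s x D) (ht : t ≤ s) : ∃ y, P.Pl (2 * t + 1) x y ∧
    X S P t y D ∧ ∀ j e, (j, true, e) ∈ D → t < j → j ≤ s → S.kill y e := by
  induction s, ht using Nat.le_induction generalizing x with
  | base => exact ⟨x, h.refl _ _, hx, fun _ _ _ h1 h2 => by omega⟩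
  | succ s ht ih =>
    obtain ⟨z, a1, a2⟩ := hx x (h.refl _ _)
    obtain ⟨⟨w, a3, a4⟩, -⟩ := a2 z (h.refl _ _)
    obtain ⟨-, w', a5, a6⟩ := a2 w a3
    obtain ⟨y, b1, b2, b3⟩ := ih a6
    refine ⟨y, tr h (tr h (h.trans _ _ _ _ a1 a3) a5 (by omega) le_rfl) b1 (by omega) le_rfl, b2,
      fun j e c1 c2 c3 => ?_⟩
    rcases c3.eq_or_lt with rfl | c4
    exacts [kl h b1 (kl h a5 ((a4 _ c1 rfl).2 rfl)), b3 j e c1 c2 (by omega)]

theorem X_empty (h : Ok S P) (s : ℕ) (x : N) : X S P s x ∅ := by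
  induction s generalizing x with
  | zero => trivial
  | succ s ih =>
    exact fun y _ => ⟨y, h.refl _ _, fun z _ =>
      ⟨⟨z, h.refl _ _, fun _ h => absurd h (by simp)⟩, z, h.refl _ _, ih z⟩⟩

theorem refl (h : Ok S P) (ha : XX S P a) : Rch S P l a a := ⟨h.refl _ _, fun _ h _ => h, ha⟩

theorem trans (h : Ok S P) {l1 l2 : ℕ} (h1 : Rch S P l1 a b) (h2 : Rch S P l2 b c) (e1 : l ≤ l1)
    (e2 : l ≤ l2) : Rch S P l a c :=
  ⟨tr h h1.1 h2.1 e1 e2, fun δ c1 c2 => h2.2.1 δ (h1.2.1 δ c1 (c2.trans e1)) (c2.trans e2), h2.2.2⟩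

theorem mono (h : Ok S P) (h1 : Rch S P l a b) (e : l' ≤ l) : Rch S P l' a b :=
  trans h h1 (refl h h1.2.2) e le_rfl

theorem sit (h : Ok S P) (hx : XX S P (x, D)) (hs : P.St x y) :
    Rch S P (2 * S.dep x + 1) (x, D) (y, D) := by
  obtain ⟨h1, h2⟩ := h.st_pl _ _ hs
  refine ⟨h1, fun _ h _ => h, ?_⟩
  unfold XX
  rw [h2]
  exact X_persist h hx h1

/-- going down to the depth of a consistency statement -/
theorem land (h : Ok S P) (hp : P.Pl (2 * t + 1) a.1 y) (ht : t ≤ S.dep a.1) (hx : X S P t y D)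
    (hD : ∀ δ ∈ a.2, δ.1 ≤ t → δ ∈ D) :
    ∃ z, P.Pl (2 * t + 1) y z ∧ Rch S P (2 * t + 1) a (z, D) ∧ S.dep z = t := by
  obtain ⟨z, h1, h2⟩ := h.down t y (dep_ge h hp (by omega) ht)
  refine ⟨z, h1, ⟨h.trans _ _ _ _ hp h1, fun δ c1 c2 => hD δ c1 (by omega), ?_⟩, h2⟩
  unfold XX
  rw [h2]
  exact X_persist h hx h1

theorem close (h : Ok S P) (ha : XX S P a) (ht : t ≤ S.dep a.1) :
    ∃ y, Rch S P (2 * t + 1) a (y, a.2) ∧ S.dep y = t ∧
      ∀ j e, (j, true, e) ∈ a.2 → t < j → j ≤ S.dep a.1 → S.kill y e := by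
  obtain ⟨y, h1, h2, h3⟩ := X_close h ha ht
  obtain ⟨z, h4, h5, h6⟩ := land h h1 ht h2 fun _ h _ => h
  exact ⟨z, h5, h6, fun j e c1 c2 c3 => kl h h4 (h3 j e c1 c2 c3)⟩

theorem renew (h : Ok S P) (ha : XX S P a) (ht : s + 1 ≤ S.dep a.1) :
    ∃ y, Rch S P (2 * (s + 1)) a (y, a.2) ∧ S.dep y = s + 1 ∧ S.tm a.1 ≤ S.ph y (s + 1) ∧
      S.tm a.1 < S.tm y ∧ ∀ e, (s + 1, true, e) ∈ a.2 → S.kill y e := by
  obtain ⟨y, a1, a2, -⟩ := X_close h ha ht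
  obtain ⟨z, a3, a4⟩ := a2 y (h.refl _ _)
  obtain ⟨⟨w, a5, a6⟩, -⟩ := a4 z (h.refl _ _)
  have a7 : P.Pl (2 * (s + 1)) a.1 w := tr h a1 (h.trans _ _ _ _ a3 a5) (by omega) le_rfl
  obtain ⟨w', b1, b2⟩ := h.down (s + 1) w (h.dep_ge _ _ _ a7 ht)
  obtain ⟨v, b3, b4, b5, b6⟩ := h.rep w' (by omega)
  rw [b2] at b3 b4 b5
  have b7 := h.tm_le _ _ (tr h a7 b1 (Nat.zero_le _) (Nat.zero_le _))
  have b8 : P.Pl (2 * (s + 1)) w v := tr h b1 b3 (by omega) le_rfl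
  refine ⟨v, ⟨h.trans _ _ _ _ a7 b8, fun _ h _ => h, ?_⟩, b4, b7.trans b5, b7.trans_lt b6,
    fun e c => kl h b8 ((a6 _ c rfl).2 rfl)⟩
  unfold XX
  rw [b4]
  exact fun u c1 => ⟨u, h.refl _ _, fun u' c2 => a4 u'
    (tr h (tr h (h.trans _ _ _ _ a5 b8) c1 le_rfl (by omega)) c2 le_rfl le_rfl)⟩

theorem push (h : Ok S P) (ha : XX S P a) : ∃ b, Rch S P (2 * S.dep a.1 + 1) a b ∧
    S.dep b.1 = S.dep a.1 + 1 ∧ S.tm a.1 ≤ S.ph b.1 (S.dep a.1 + 1) := by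
  obtain ⟨y, a1, a2, a3⟩ := h.push a.1
  refine ⟨(y, a.2.filter fun δ => δ.1 ≤ S.dep a.1), ⟨a1, fun δ c1 c2 =>
    Finset.mem_filter.2 ⟨c1, by omega⟩, ?_⟩, a2, a3⟩
  unfold XX
  rw [a2]
  refine fun u c1 => ⟨u, h.refl _ _, fun u' c2 => ⟨⟨u', h.refl _ _, fun δ c3 c4 => ?_⟩, u',
    h.refl _ _, X_sub h (X_persist h ha
      (tr h (tr h a1 c1 le_rfl (by omega)) c2 le_rfl (by omega))) fun δ c3 _ _ =>
        (Finset.mem_filter.1 c3).1⟩⟩
  have := (Finset.mem_filter.1 c3).2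
  omega

theorem dense_persist (h : Ok S P) (h1 : Dense S P Φ t a) (h2 : Rch S P l a b)
    (e : 2 * t + 1 ≤ l) : Dense S P Φ t b := fun c h3 => h1 c (trans h h2 h3 e le_rfl)

theorem never_persist (h : Ok S P) (h1 : Never S P Φ t a) (h2 : Rch S P l a b)
    (e : 2 * t + 1 ≤ l) : Never S P Φ t b := fun c h3 => h1 c (trans h h2 h3 e le_rfl)

theorem not_dense (h : Ok S P) (h1 : ¬ Dense S P Φ t a) (ht : t ≤ S.dep a.1) :
    ∃ b, Rch S P (2 * t + 1) a b ∧ S.dep b.1 = t ∧ Never S P Φ t b := by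
  simp only [Dense, not_forall, not_exists, not_and] at h1
  obtain ⟨b, a1, a2⟩ := h1
  obtain ⟨y, a3, a4, -⟩ := close h a1.2.2 (dep_ge h a1.1 (by omega) ht)
  exact ⟨_, trans h a1 a3 le_rfl le_rfl, a4, never_persist h a2 a3 le_rfl⟩

theorem dense_of_all (h : Ok S P) (hΦ : ∀ a, XX S P a → Φ a) (ht : t ≤ S.dep a.1) :
    Dense S P Φ t a := fun _ a1 =>
  let ⟨_, a3, a4, _⟩ := close h a1.2.2 (dep_ge h a1.1 (by omega) ht); ⟨_, a3, a4, hΦ _ a3.2.2⟩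

theorem plus_sit (h : Ok S P) (hs : P.St x y) : plus S P j e (x, D) ↔ plus S P j e (y, D) := by
  unfold plus
  rw [(h.st_pl _ _ hs).2]
  refine ⟨fun ⟨x0, a1, a2⟩ => ?_, fun ⟨x0, a1, a2⟩ => ⟨x0, h.st_trans _ _ _ hs a1, a2⟩⟩
  rcases h.st_lin _ _ _ hs a1 with a3 | a3
  exacts [⟨x0, a3, a2⟩, ⟨y, h.st_refl _, fun x1 a4 => a2 x1 (h.st_trans _ _ _ a3 a4)⟩]

theorem ap_sit (h : Ok S P) {n : ℕ} (hx : XX S P (x, D)) (hs : P.St x y) :
    Ap S P K n j (x, D) ↔ Ap S P K n j (y, D) := by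
  unfold Ap
  rw [(h.st_pl _ _ hs).2]
  refine ⟨fun ⟨x0, a1, a2⟩ => ?_, fun ⟨x0, a1, a2⟩ => ⟨x0, h.st_trans _ _ _ hs a1, a2⟩⟩
  rcases h.st_lin _ _ _ hs a1 with a3 | a3
  · exact ⟨x0, a3, a2⟩
  · refine ⟨y, h.st_refl _, dense_persist h a2 (sit h (sit h hx a1).2.2 a3) ?_⟩
    rw [(h.st_pl _ _ a1).2]

/-- fixing a place -/
theorem place (h : Ok S P) (h1 : plus S P j e a) (hj : j ≤ S.dep a.1)
    (h2 : d ≠ 0 → ¬ plus S P d e a) : ∃ b, Rch S P (2 * S.dep a.1 + 1) a b ∧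
      S.dep b.1 = S.dep a.1 ∧ (∀ i ≤ j, (i, true, e) ∈ b.2) ∧ (d, false, e) ∈ b.2 := by
  obtain ⟨x0, a1, a2⟩ := h1
  obtain ⟨x1, a3, a4⟩ : ∃ x1, P.St x0 x1 ∧ (d ≠ 0 → ∀ y, P.Pl (2 * S.dep a.1 + 1) x1 y →
      ¬ X S P (S.dep a.1) y (insert (d, true, e) a.2)) := by
    by_cases hd : d = 0
    · exact ⟨x0, h.st_refl _, fun h' => absurd hd h'⟩
    · have := h2 hd
      simp only [plus, not_exists, not_and, not_forall] at this
      obtain ⟨x1, b1, b2⟩ := this x0 a1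
      exact ⟨x1, b1, fun _ => b2⟩
  obtain ⟨y, a5, a6⟩ := a2 x1 a3
  set D1 : Dt := a.2 ∪ (Finset.range (j + 1)).image fun i => (i, true, e)
  have a7 : X S P (S.dep a.1) y D1 := X_down h a6 (Finset.mem_insert_self _ _) hj fun δ c => by
    rcases Finset.mem_union.1 c with c | c
    · exact Or.inl (Finset.mem_insert_of_mem c)
    · obtain ⟨i, c1, rfl⟩ := Finset.mem_image.1 c
      exact Or.inr ⟨Nat.le_of_lt_succ (Finset.mem_range.1 c1), rfl⟩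
  have a8 : X S P (S.dep a.1) y (insert (d, false, e) D1) := by
    by_cases hd : d = 0
    · refine X_sub h a7 fun δ c1 c2 _ => ?_
      rcases Finset.mem_insert.1 c1 with rfl | c1
      exacts [by dsimp only at c2; omega, c1]
    · exact X_ext h a7 fun y' c1 c2 => a4 hd y' (h.trans _ _ _ _ a5 c1) (X_sub h c2
        fun δ c3 _ _ => Finset.insert_subset_insert _ Finset.subset_union_left c3)
  obtain ⟨z, -, b1, b2⟩ := land h (a := a) (h.trans _ _ _ _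
    (h.st_pl _ _ (h.st_trans _ _ _ a1 a3)).1 a5) le_rfl a8 fun δ c _ =>
      Finset.mem_insert_of_mem (Finset.mem_union_left _ c)
  exact ⟨_, b1, b2, fun i hi => Finset.mem_insert_of_mem (Finset.mem_union_right _
    (Finset.mem_image_of_mem _ (Finset.mem_range.2 (Nat.lt_succ_of_le hi)))),
      Finset.mem_insert_self _ _⟩

theorem plus_zero (h : Ok S P) (ha : XX S P a) : plus S P 0 e a :=
  ⟨a.1, h.st_refl _, fun x1 h1 => ⟨x1, h.refl _ _, X_sub h (X_persist h ha (h.st_pl _ _ h1).1)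
    fun δ c1 c2 _ => by
      rcases Finset.mem_insert.1 c1 with rfl | c1
      exacts [by dsimp only at c2; omega, c1]⟩⟩

/-- the hole lemma -/
theorem hole (H : Hyp S P K L) (n : ℕ) (ha : XX S P a) (ht : s + 1 ≤ S.dep a.1) :
    ∃ c, Rch S P (2 * (s + 1)) a c ∧ Dense S P (ready S P K n (s + 1)) (S.dep c.1) c := by
  have h := H.toOk
  by_contra hc
  push Not at hc
  have step : ∀ (i : ℕ) (b : {b // Rch S P (2 * (s + 1)) a b}),
      ∃ c : {b // Rch S P (2 * (s + 1)) a b}, Rch S P (2 * (s + 1)) b.1 c.1 ∧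
        S.tm b.1.1 ≤ S.ph c.1.1 (s + 1) ∧ S.tm b.1.1 < S.tm c.1.1 ∧
          ∃ k, i < k ∧ (s + 1, false, n, k) ∈ c.1.2 := by
    rintro i ⟨b, hb⟩
    have d1 := h.dep_ge _ _ _ hb.1 ht
    obtain ⟨b1, a1, a2, a3⟩ := not_dense h (hc b hb) le_rfl
    obtain ⟨m, hm⟩ := eventually_atTop.1
      ((H.hk (s + 1) n b1).resolve_left (a3 b1 (refl h a1.2.2) a2))
    obtain ⟨k, k1, k2⟩ := H.inf.exists_gt (m + i)
    obtain ⟨b2, a4, a5, -, a6⟩ := place h (e := (n, k)) (plus_zero h a1.2.2)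
      (Nat.zero_le _) fun _ => hm k (by omega) k1
    obtain ⟨y, a7, -, a8, a9, -⟩ := renew h (s := s) a4.2.2 (by omega)
    have a10 : Rch S P (2 * (s + 1)) b b2 := trans h a1 a4 (by omega) (by omega)
    have a11 := h.tm_le _ _ (h.mono _ _ _ _ (Nat.zero_le _) a10.1)
    have a12 := trans h a10 a7 le_rfl le_rfl
    exact ⟨⟨_, trans h hb a12 le_rfl le_rfl⟩, a12, a11.trans a8, a11.trans_lt a9, k, by omega, a6⟩
  choose f f1 f2 f3 k f4 f5 using step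
  let u : ℕ → {b // Rch S P (2 * (s + 1)) a b} := fun i => Nat.rec ⟨a, refl h ha⟩ f i
  have ch : ∀ i j, i ≤ j → Rch S P (2 * (s + 1)) (u i).1 (u j).1 := fun i j hij => by
    induction j, hij using Nat.le_induction with
    | base => exact refl h (u i).2.2.2
    | succ j _ ih => exact trans h ih (f1 j (u j)) le_rfl le_rfl
  have tm : ∀ i, i ≤ S.tm (u i).1.1 := fun i => by
    induction i with
    | zero => exact Nat.zero_le _
    | succ i ih => exact ih.trans_lt (f3 i (u i))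
  refine Set.infinite_of_forall_exists_gt (fun i => ⟨k i (u i), fun m hk => ?_, f4 i (u i)⟩)
    (H.fin (s + 1) (fun i => (u i).1.1) (by omega) ht (fun i => (f1 i (u i)).1)
      (fun c => ⟨c + 1, (tm c).trans (f2 c (u c))⟩) n)
  exact X_safe h (u (m + (i + 1))).2.2.2
    ((ch (i + 1) _ (Nat.le_add_left _ m)).2.1 _ (f5 i (u i)) le_rfl) (by omega)
    (h.dep_ge _ _ _ (u (m + (i + 1))).2.1 ht) (kl h (ch m _ (Nat.le_add_right m (i + 1))).1 hk)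

end Pool.Agent.P.MP_b17faa_gt.X7.Calc
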