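import Pool.Agent.P.MP_b17faa_gt.X7Iface

/-!
Pair coverage and sizes for the derived machine.
-/

namespace Pool.Agent.P.MP_b17faa_gt.X7

open Set Filter Function

namespace CovA

variable {c : Ctx} {k : Skel}

theorem zone_sub (hk : c.IsSkel k) {j g i : ℕ} {ν : Opt} (hν : ν ∈ c.A' k j) (hg : g < k.ga j + 2)
    (h1 : c.z k j g (ν.2.1 g).1 ≤ i) (h2 : i < c.z k j g ((ν.2.1 g).1 + 1)) :
    k.s j g ≤ i ∧ i < k.s j (g + 1) := by
  have h3 := mem_Iv.1 (((Ctx.mem_A'.1 hν).2.1 g).1 hg)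
  exact ⟨(Ctx.s_le_z j g _).trans h1, h2.trans_le (hk.z_le (h3.2.1.trans h3.2.2))⟩

theorem zone_uniq (hk : c.IsSkel k) {j g i : ℕ} {ν : Opt} (hν : ν ∈ c.A' k j) (h : c.Zn k j ν i)
    (h1 : k.s j g ≤ i) (h2 : i < k.s j (g + 1)) :
    c.z k j g (ν.2.1 g).1 ≤ i ∧ i < c.z k j g ((ν.2.1 g).1 + 1) := by
  obtain ⟨g', hg, h3, h4⟩ := h
  obtain ⟨h5, h6⟩ := zone_sub hk hν hg h3 h4
  have a1 := (hk.s_mono j).lt_iff_lt.1 (h1.trans_lt h6)
  have a2 := (hk.s_mono j).lt_iff_lt.1 (h5.trans_lt h2)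
  obtain rfl : g' = g := by omega
  exact ⟨h3, h4⟩

theorem exists_level {T : ℕ → ℕ} (hT : StrictMono T) {a b n : ℕ} (h1 : T a ≤ n) (h2 : n < T b) :
    ∃ i, a ≤ i ∧ i < b ∧ T i ≤ n ∧ n < T (i + 1) := by
  induction b with
  | zero => exact absurd (h2.trans_le ((hT.monotone (Nat.zero_le a)).trans h1)) (lt_irrefl _)
  | succ b ih =>
    rcases lt_or_ge n (T b) with h | h
    · obtain ⟨i, c1, c2, c3⟩ := ih h
      exact ⟨i, c1, by omega, c3⟩
    · exact ⟨b, Nat.le_of_lt_succ (hT.lt_iff_lt.1 (h1.trans_lt h2)), Nat.lt_succ_self b, h, h2⟩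

end CovA

open CovA in
theorem s_cov : S_Cov := by
  intro c k hk j d μ ν s s' o b hs h0 h1 hb hd e he e1 e2
  have hT := c.M.T_mono.monotone
  obtain ⟨i, i1, i2, i3, i4⟩ := exists_level c.M.T_mono e1 e2
  have hx : ∀ t, ∃ a o', c.M.idx a = i ∧
      c.M.Walk (s' t).pre (c.Tr k j (s t) (o t) (ν t)) (s t).x a ∧ c.Tr k j (s t) (o t) (ν t) a o' ∧
      c.M.Walk (s' t).pre (c.Tr k j (s t) (o t) (ν t)) (c.M.step a o' ((s' t).pre i)) (s' t).x :=
    fun t => (hs t).2.2.walk.extract ((hs t).1.idx ▸ i1) ((hs t).2.2.valid.idx ▸ i2)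
  choose a o' ha hw htr hw' using hx
  have hpre : ∀ t, (s' t).pre i = (ν t).1 i := fun t => by
    rw [(hs t).2.2.pre]
    exact if_neg (not_lt.2 i1)
  have quiet : ∀ t u, k.bl j ≤ u → u ≤ i → (∀ i', u ≤ i' → i' ≤ i → ¬ c.Zn k j (ν t) i') →
      o' t = .sit ∧ c.M.eff (a t) ≤ c.M.T u := fun t u u1 u2 u3 =>
    ⟨((htr t).2 (ha t ▸ u3 i u2 le_rfl)).1, (hw t).quiet (Z := c.Zn k j (ν t))
      (fun _ _ h h' => (h.2 h').1) ((hs t).1.idx ▸ u1) (ha t ▸ u2)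
      fun i' c1 c2 => u3 i' c1 (ha t ▸ c2).le⟩
  have hbl : ∀ g, k.bl j ≤ k.s j g := fun g =>
    hk.s0 j ▸ (hk.s_mono j).monotone (Nat.zero_le g)
  have key : ∃ t, o' t = .sit ∧ ∀ e' ∈ d, c.M.T i ≤ e'.2 → e'.2 < c.M.T (i + 1) →
      c.M.eff (a t) ≤ e'.1 := by
    by_cases z0 : c.Zn k j (ν false) i
    · obtain ⟨g, hg, z1, z2⟩ := z0
      obtain ⟨z3, z4⟩ := zone_sub hk (hs false).2.1 hg z1 z2
      obtain ⟨f1, f2, -, f4⟩ := h0.2.1 g hg
      obtain ⟨q1, q2⟩ := quiet true (k.s j g) (hbl g) z3 fun i' c1 c2 c3 => by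
        have c4 := (zone_uniq hk (hs true).2.1 c3 c1 (c2.trans_lt z4)).1
        have c5 := (Ctx.z_mono (c := c) (k := k) j g).monotone
          (Nat.succ_le_of_lt (h1.2.1 g hg).1)
        exact absurd ((z2.trans_le c5).trans_le (c4.trans c2)) (lt_irrefl _)
      refine ⟨true, q1, fun e' he' c1 c2 => q2.trans ((hT (Ctx.s_le_z j g _)).trans
        (f4 e' he' ((hT z1).trans c1) (c2.trans_le (hT (le_trans z2 ?_)))))⟩
      exact (Ctx.z_mono j g).monotone (Nat.succ_le_succ f2)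
    by_cases z1' : c.Zn k j (ν true) i
    · obtain ⟨g, hg, z1, z2⟩ := z1'
      obtain ⟨z3, z4⟩ := zone_sub hk (hs true).2.1 hg z1 z2
      obtain ⟨f1, f2, -, f4⟩ := h1.2.1 g hg
      obtain ⟨q1, q2⟩ := quiet false (c.z k j g (((ν false).2.1 g).1 + 1))
        ((hbl g).trans (Ctx.s_le_z j g _))
        (((Ctx.z_mono j g).monotone (Nat.succ_le_of_lt f1)).trans z1) fun i' c1 c2 c3 =>
          absurd ((zone_uniq hk (hs false).2.1 c3 ((Ctx.s_le_z j g _).trans c1)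
            (c2.trans_lt z4)).2.trans_le c1) (lt_irrefl _)
      refine ⟨false, q1, fun e' he' c1 c2 => q2.trans
        (f4 e' he' ((hT z1).trans c1) (c2.trans_le (hT (le_trans z2 ?_))))⟩
      exact (Ctx.z_mono j g).monotone (Nat.succ_le_succ f2)
    obtain ⟨t1, t2, t3⟩ := (htr false).2 (ha false ▸ z0)
    obtain ⟨u1, u2, u3⟩ := (htr true).2 (ha true ▸ z1')
    rw [ha] at t3 u3
    by_cases y1 : k.s j (ν true).2.2.1 ≤ i ∧ i < k.s j ((ν true).2.2.2 + 2)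
    · exact ⟨false, t1, fun e' he' c1 c2 => t2.trans
        (h1.2.2.2.2.2 e' he' ((hT y1.1).trans c1) (c2.trans_le (hT y1.2)))⟩
    by_cases y0 : k.s j (ν false).2.2.1 ≤ i ∧ i < k.s j ((ν false).2.2.2 + 2)
    · exact ⟨true, u1, fun e' he' c1 c2 => (u3 y1).1.trans
        ((hT ((hk.s_mono j).monotone (Nat.le_add_left _ _))).trans
          (h0.2.2.2.2.2 e' he' ((hT y0.1).trans c1) (c2.trans_le (hT y0.2))))⟩
    cases b
    · exact ⟨false, t1, fun e' he' c1 c2 => ((t3 y0).2 hb).trans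
        (hd e' he' ((hT i1).trans c1) (c2.trans_le (hT i2)))⟩
    · exact ⟨true, u1, fun e' he' c1 c2 => ((u3 y1).2 hb).trans
        (hd e' he' ((hT i1).trans c1) (c2.trans_le (hT i2)))⟩
  obtain ⟨t, k1, k2⟩ := key
  obtain ⟨t', ht'⟩ := c.M.cov i d (μ.1 i) (fun t => (ν t).1 i) a o' t
    (fun t => ⟨ha t, c.sub i (Ctx.pt_of_mem (hs t).2.1 i)⟩) (h0.1 i i1 i2) (h1.1 i i1 i2) k1 k2
    e he i3 i4
  refine ⟨t', ?_⟩
  rw [(hw' t').wd (by rw [c.M.idx_step, ha]; exact i4), hpre]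
  exact ht'

theorem s_size : S_Size := by
  intro c k hk
  have hz : ∀ j g, IsFr (c.Fz k j g) := fun j g => isFr_IF fun a b h =>
    c.M.T_mono.monotone ((Ctx.z_mono j g).monotone (Nat.succ_le_succ h))
  have hh : ∀ j, IsFr (c.Fh k j) := fun j => isFr_IF fun a b h =>
    c.M.T_mono.monotone ((hk.s_mono j).monotone (Nat.succ_le_succ h))
  refine ⟨fun j => ?_, fun j => ?_, fun j => ⟨fun d d' a b hd h => ?_, fun d d' a b e h h' => ?_⟩,
    fun rt hrt m => ?_⟩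
  · induction j with
    | zero => simp
    | succ j ih =>
      rw [Finset.sum_range_succ]
      have h1 := hk.pad j
      set x := c.M.sz (k.bl (j + 1)) with hx
      set Q := (∏ g ∈ Finset.Ico 0 (k.ga j + 2), (Iv (k.be j g)).card) * (Iv (k.ga j)).card with hQ
      have h2 : (box c.B (k.bl j) (k.bl (j + 1)) c.df).card ≤ 2 ^ x := by
        refine (card_box _ _ _ _).trans ((prod_le_two_pow_sum _ _).trans
          (Nat.pow_le_pow_right two_pos (le_trans ?_ (c.M.sum_le _))))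
        refine (Finset.sum_le_sum fun i _ => Finset.card_le_card (c.sub i)).trans
          (Finset.sum_le_sum_of_subset fun i hi => ?_)
        exact Finset.mem_range.2 (Finset.mem_Ico.1 hi).2
      have h3 : (c.A' k j).card ≤ 2 ^ x * Q := by
        rw [Ctx.A', Finset.card_product, Finset.card_product]
        exact Nat.mul_le_mul h2 (Nat.mul_le_mul_right _ (card_box _ _ _ _))
      have h4 : 2 ^ x * Q ≤ x * 2 ^ x := by
        rw [mul_comm x]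
        exact Nat.mul_le_mul_left _ (by omega)
      have h5 := G_pow x
      change _ ≤ G x
      omega
  · refine ⟨(c.df, fun g => if g < k.ga j + 2 then (1, 1) else (0, 0), 1, 1), Ctx.mem_A'.2
      ⟨fun i => ⟨fun _ _ => c.df_mem i, fun _ => rfl⟩, fun g => ⟨fun h => ?_, fun h => ?_⟩,
        mem_Iv.2 ⟨le_rfl, le_rfl, hk.ga1 j⟩⟩⟩
    · simp only [if_pos h]
      exact mem_Iv.2 ⟨le_rfl, le_rfl, hk.be1 j g⟩
    · exact if_neg (not_lt.2 h)
  · exact ⟨fun i h1 h2 => (c.M.fr i).anti _ _ _ _ hd (h.1 i h1 h2),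
      fun g hg => (hz j g).anti _ _ _ _ hd (h.2.1 g hg), (hh j).anti _ _ _ _ hd h.2.2⟩
  · exact ⟨fun i h1 h2 => (c.M.fr i).trans _ _ _ _ _ (h.1 i h1 h2) (h'.1 i h1 h2),
      fun g hg => (hz j g).trans _ _ _ _ _ (h.2.1 g hg) (h'.2.1 g hg),
      (hh j).trans _ _ _ _ _ h.2.2 h'.2.2⟩
  · obtain ⟨i0, h0⟩ := eventually_atTop.1 (hrt (m + 1))
    filter_upwards [eventually_ge_atTop i0, eventually_ge_atTop m] with j j1 j2
    refine R.intro (fun m ν =>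
      (∀ i, k.bl j ≤ i → i < k.bl (j + 1) → R (c.M.Fr i) m (c.B i) (ν.1 i)) ∧
      (∀ g < k.ga j + 2, R (c.Fz k j g) m (Iv (k.be j g)) (ν.2.1 g)) ∧
        R (c.Fh k j) m (Iv (k.ga j)) ν.2.2) (fun n ν hν d hd => ?_)
      ⟨fun i h1 _ => ?_, fun g _ => ?_, ?_⟩
    · have c1 : ∀ i, ∃ v, (k.bl j ≤ i → i < k.bl (j + 1) →
          v ∈ c.B i ∧ c.M.Fr i d (ν.1 i) v ∧ R (c.M.Fr i) n (c.B i) v) ∧
          (¬ (k.bl j ≤ i ∧ i < k.bl (j + 1)) → v = c.df i) := fun i => by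
        by_cases hi : k.bl j ≤ i ∧ i < k.bl (j + 1)
        · obtain ⟨v, hv⟩ := hν.1 i hi.1 hi.2 d hd
          exact ⟨v, fun _ _ => hv, fun h => absurd hi h⟩
        · exact ⟨_, fun a b => absurd ⟨a, b⟩ hi, fun _ => rfl⟩
      have c2 : ∀ g, ∃ v, (g < k.ga j + 2 →
          v ∈ Iv (k.be j g) ∧ c.Fz k j g d (ν.2.1 g) v ∧ R (c.Fz k j g) n (Iv (k.be j g)) v) ∧
          (k.ga j + 2 ≤ g → v = (0, 0)) := fun g => by
        by_cases hg : g < k.ga j + 2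
        · obtain ⟨v, hv⟩ := hν.2.1 g hg d hd
          exact ⟨v, fun _ => hv, fun h => absurd hg (not_lt.2 h)⟩
        · exact ⟨_, fun a => absurd a hg, fun _ => rfl⟩
      choose η hη using c1
      choose ζ hζ using c2
      obtain ⟨w, w1, w2, w3⟩ := hν.2.2 d hd
      exact ⟨(η, ζ, w), Ctx.mem_A'.2 ⟨fun i => ⟨fun a b => ((hη i).1 a b).1, (hη i).2⟩,
        fun g => ⟨fun a => ((hζ g).1 a).1, (hζ g).2⟩, w1⟩,
        ⟨fun i a b => ((hη i).1 a b).2.1, fun g a => ((hζ g).1 a).2.1, w2⟩,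
        fun i a b => ((hη i).1 a b).2.2, fun g a => ((hζ g).1 a).2.2, w3⟩
    · exact (h0 i ((j1.trans hk.bl_mono.le_apply).trans h1)).le
        (tw_mono_right (m + 1) (c.M.sz_mono h1))
    · exact (hk.nz j g).le (tw_mono j2 le_rfl)
    · exact (hk.nh j).le (tw_mono j2 le_rfl)

end Pool.Agent.P.MP_b17faa_gt.X7
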