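import Pool.Agent.P.MP_b17faa_gt.Index

/-!
Definitions for the example with `S_fin(Γ, T)` and without `S₁(Γ, Ω)`.
-/

namespace Pool.Agent.P.MP_b17faa_gt.X7

open Set Filter Function

/-! ### Norms -/

/-- one step of a fast growing hierarchy -/
def G (x : ℕ) : ℕ :=
  ((2 ^ 2 ^ x) ^ (x + 2 ^ 2 ^ x + 1)) ^ (x * 2 ^ x) * x + x * x + x * 2 ^ x + 2 * x + 2

/-- the hierarchy -/
def tw (m x : ℕ) : ℕ := G^[m] x

/-- a set of demands `(rank, time)` with at most `m` demands of each rank -/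
def Mult (m : ℕ) (d : Set (ℕ × ℕ)) : Prop := ∀ n, {k | (n, k) ∈ d}.encard ≤ m

/-- `F d a b` means that `b` answers the demands `d` above `a` -/
structure IsFr {O : Type} (F : Set (ℕ × ℕ) → O → O → Prop) : Prop where
  anti : ∀ d d' a b, d ⊆ d' → F d' a b → F d a b
  trans : ∀ d d' a b c, F d' a b → F d b c → F d a c

/-- the game norm: above `a` the set `Z` answers `m` rounds of demands -/
def R {O : Type} (F : Set (ℕ × ℕ) → O → O → Prop) : ℕ → Set O → O → Prop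
  | 0, _, _ => True
  | m + 1, Z, a => ∀ d, Mult (m + 1) d → ∃ b ∈ Z, F d a b ∧ R F m Z b

/-- nested intervals: the time interval of the inner one has no demand of small rank -/
def IF (lo hi rk : ℕ → ℕ) (d : Set (ℕ × ℕ)) (p q : ℕ × ℕ) : Prop :=
  p.1 < q.1 ∧ q.1 ≤ q.2 ∧ q.2 ≤ p.2 ∧ ∀ e ∈ d, lo q.1 ≤ e.2 → e.2 < hi q.2 → rk p.1 ≤ e.1

/-- the subintervals of `[1, b]` -/
def Iv (b : ℕ) : Finset (ℕ × ℕ) := (Finset.Icc 1 b ×ˢ Finset.Icc 1 b).filter fun p => p.1 ≤ p.2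

open Classical in
/-- the sequences following `B` on `[a, b)` and equal to `df` elsewhere -/
noncomputable def box {O : Type} (B : ℕ → Finset O) (a b : ℕ) (df : ℕ → O) : Finset (ℕ → O) :=
  ((Finset.Ico a b).pi B).image fun f i => if h : i ∈ Finset.Ico a b then f i h else df i

/-! ### Products of large finite sets -/

/-- subadditive norms -/
structure Nm where
  nm : ℕ → ℕ → Set ℕ → Prop
  sz : ℕ → ℕ
  mono : ∀ i r Z Z', Z ⊆ Z' → nm i r Z → nm i r Z'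
  le : ∀ i r r' Z, r' ≤ r → nm i r Z → nm i r' Z
  union : ∀ i a b Z Z', nm i (a + b) (Z ∪ Z') → nm i a Z ∨ nm i b Z'
  ne : ∀ i Z, nm i 1 Z → Z.Nonempty
  sz_mono : Monotone sz

/-- large sequences of finite sets -/
def Nm.Lrg (K : Nm) (B : ℕ → Finset ℕ) : Prop :=
  (∀ i, (B i).Nonempty) ∧ (∀ i, ∑ j ∈ Finset.range i, (B j).card ≤ K.sz i) ∧
    ∀ m, ∀ᶠ i in atTop, K.nm i (tw m (K.sz i)) (B i)

/-- the product -/
def Pt (B : ℕ → Finset ℕ) : Set (ℕ → ℕ) := {η | ∀ i, η i ∈ B i}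

/-- `Q` holds on the cylinder of `η` below `t` -/
def Box (B : ℕ → Finset ℕ) (t : ℕ) (η : ℕ → ℕ) (Q : (ℕ → ℕ) → Prop) : Prop :=
  ∀ η' ∈ Pt B, (∀ i < t, η' i = η i) → Q η'

/-! ### The calculus of tests -/

/-- finite sets of signed tests `(position, sign, test)` -/
abbrev Dt := Finset (ℕ × Bool × ℕ × ℕ)

/-- the static part of an arena: depth, time, birth times of the positions, killed tests -/
structure Stat (N : Type) where
  dep : N → ℕ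
  tm : N → ℕ
  ph : N → ℕ → ℕ
  kill : N → ℕ × ℕ → Prop

/-- the dynamic part of an arena: plays of a given level and waiting -/
structure Dyn (N : Type) where
  Pl : ℕ → N → N → Prop
  St : N → N → Prop

/-- entries: lowest and highest occupied position, `γ`-position, cone position and its depth -/
@[ext] structure Ent where
  bp : ℕ
  tp : ℕ
  gp : ℕ
  d : ℕ
  t0 : ℕ
  deriving Countable

/-- well formed entries -/
def Ent.Wf (E : Ent) : Prop := E.bp ≤ E.tp ∧ E.gp ≤ E.bp ∧ E.d ≤ E.bp ∧ E.t0 ≤ E.tp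

/-- active entries -/
def Ent.Act (E : Ent) : Prop := E.d ≠ 0 ∨ E.gp = E.bp

/-- adjacent entries -/
def Ent.Adj (E E' : Ent) : Prop :=
  E'.bp = E.tp + 1 ∧ E.gp ≤ E'.gp ∧ (E.d ≠ 0 → E'.d = E.d) ∧ (E.d = 0 → E'.d = 0 ∨ E'.d = E'.bp)

/-- requests for maneuvers -/
inductive Req
  | adj (E : Ent)
  | new (E : Ent)
  | fst (E : Ent) (n : ℕ) (want : Bool)
  | gap (E : Ent) (n k : ℕ) (h want : Bool)
  deriving Countable

section
variable {N : Type} (S : Stat N) (P : Dyn N)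

/-- the axioms of an arena -/
structure Ok : Prop where
  refl : ∀ l x, P.Pl l x x
  trans : ∀ l x y z, P.Pl l x y → P.Pl l y z → P.Pl l x z
  mono : ∀ l l' x y, l' ≤ l → P.Pl l x y → P.Pl l' x y
  dep_ge : ∀ s x y, P.Pl (2 * s) x y → s ≤ S.dep x → s ≤ S.dep y
  down : ∀ s x, s ≤ S.dep x → ∃ y, P.Pl (2 * s + 1) x y ∧ S.dep y = s
  push : ∀ x, ∃ y, P.Pl (2 * S.dep x + 1) x y ∧ S.dep y = S.dep x + 1 ∧
    S.tm x ≤ S.ph y (S.dep x + 1)
  rep : ∀ x, 1 ≤ S.dep x → ∃ y, P.Pl (2 * S.dep x) x y ∧ S.dep y = S.dep x ∧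
    S.tm x ≤ S.ph y (S.dep x) ∧ S.tm x < S.tm y
  tm_le : ∀ x y, P.Pl 0 x y → S.tm x ≤ S.tm y
  fresh : ∀ b c x y, P.Pl (2 * b) x y → 1 ≤ b → b ≤ S.dep x → c ≤ S.ph x b → c ≤ S.tm x →
    c ≤ S.ph y b
  kill : ∀ x y e, P.Pl 0 x y → S.kill x e → S.kill y e
  st_refl : ∀ x, P.St x x
  st_trans : ∀ x y z, P.St x y → P.St y z → P.St x z
  st_lin : ∀ x y z, P.St x y → P.St x z → P.St y z ∨ P.St z y
  st_pl : ∀ x y, P.St x y → P.Pl (2 * S.dep x + 1) x y ∧ S.dep y = S.dep x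

/-- the tests at position `s` have the status prescribed by their signs -/
def W (s : ℕ) (x : N) (D : Dt) : Prop := ∀ δ ∈ D, δ.1 = s → (S.kill x δ.2.2 ↔ δ.2.1 = true)

/-- the signed tests at the positions `1, ..., s` can be respected -/
def X : ℕ → N → Dt → Prop
  | 0, _, _ => True
  | s + 1, x, D => ∀ y, P.Pl (2 * s + 3) x y → ∃ z, P.Pl (2 * s + 2) y z ∧
      ∀ z', P.Pl (2 * s + 2) z z' → (∃ w, P.Pl (2 * s + 2) z' w ∧ W S (s + 1) w D) ∧
        ∃ w, P.Pl (2 * s + 1) z' w ∧ X s w D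

/-- consistent states -/
def XX (a : N × Dt) : Prop := X S P (S.dep a.1) a.1 a.2

/-- reachable consistent states -/
def Rch (l : ℕ) (a b : N × Dt) : Prop :=
  P.Pl l a.1 b.1 ∧ (∀ δ ∈ a.2, 2 * δ.1 ≤ l → δ ∈ b.2) ∧ XX S P b

/-- `Φ` can always be reached at depth `t` -/
def Dense (Φ : N × Dt → Prop) (t : ℕ) (a : N × Dt) : Prop :=
  ∀ b, Rch S P (2 * t + 1) a b → ∃ c, Rch S P (2 * t + 1) b c ∧ S.dep c.1 = t ∧ Φ c

/-- `Φ` is never reached at depth `t` -/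
def Never (Φ : N × Dt → Prop) (t : ℕ) (a : N × Dt) : Prop :=
  ∀ b, Rch S P (2 * t + 1) a b → S.dep b.1 = t → ¬ Φ b

/-- after any long enough waiting time the test `e` can be added at position `j` -/
def plus (j : ℕ) (e : ℕ × ℕ) (a : N × Dt) : Prop :=
  ∃ x0, P.St a.1 x0 ∧ ∀ x1, P.St x0 x1 → ∃ y, P.Pl (2 * S.dep a.1 + 1) x1 y ∧
    X S P (S.dep a.1) y (insert (j, true, e) a.2)

variable (K L : Set ℕ)

/-- almost all tests of column `n` can be added -/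
def ready (n j : ℕ) (a : N × Dt) : Prop := ∀ᶠ k in atTop, k ∈ K → plus S P j (n, k) a

/-- after waiting, readiness for column `n` is dense -/
def Ap (n j : ℕ) (a : N × Dt) : Prop :=
  ∃ x, P.St a.1 x ∧ Dense S P (ready S P K n j) (S.dep a.1) (x, a.2)

/-- almost all columns are approachable -/
def rdy (j : ℕ) (a : N × Dt) : Prop := ∀ᶠ n in atTop, n ∈ L → Ap S P K n j a

/-- above `t` the property `rdy d` is nowhere dense -/
def Kk (d t : ℕ) (a : N × Dt) : Prop :=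
  ∀ b, Rch S P (2 * t + 1) a b → ¬ Dense S P (rdy S P K L d) (S.dep b.1) b

/-- the `γ`-mode -/
def NoK (j : ℕ) (a : N × Dt) : Prop :=
  ∀ b, Rch S P (2 * j) a b → ¬ Kk S P K L j (S.dep b.1) b

/-- the cone mode -/
def Cone (d : ℕ) (a : N × Dt) : Prop :=
  ∀ b, Rch S P (2 * d) a b → ∃ c, Rch S P (2 * d) b c ∧ Kk S P K L d (S.dep c.1) c

/-- convergence and point finiteness -/
structure Hyp : Prop extends Ok S P where
  inf : K.Infinite
  hk : ∀ j n a, ready S P K n j a ∨ ∀ᶠ k in atTop, k ∈ K → ¬ plus S P j (n, k) a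
  hl : ∀ j a, rdy S P K L j a ∨ ∀ᶠ n in atTop, n ∈ L → ¬ Ap S P K n j a
  fin : ∀ (q : ℕ) (xs : ℕ → N), 1 ≤ q → q ≤ S.dep (xs 0) →
    (∀ i, P.Pl (2 * q) (xs i) (xs (i + 1))) → (∀ c, ∃ i, c ≤ S.ph (xs i) q) →
      ∀ n, {k | ∀ i, ¬ S.kill (xs i) (n, k)}.Finite

/-- the invariant of an entry -/
def Inv (E : Ent) (a : N × Dt) : Prop :=
  NoK S P K L E.gp a ∧ Dense S P (rdy S P K L E.gp) E.tp a ∧
    (E.d ≠ 0 → Kk S P K L E.d E.t0 a ∧ Never S P (rdy S P K L E.d) E.tp a ∧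
      (E.d = E.bp → Cone S P K L E.d a))

/-- the state after the first maneuver of a block -/
def Post0 (E : Ent) (c : ℕ) (a : N × Dt) : Prop :=
  S.dep a.1 = E.tp ∧ Inv S P K L E a ∧
    ∀ n, c ≤ n → n ∈ L → Ap S P K n E.gp a ∧ (E.d ≠ 0 → ¬ Ap S P K n E.d a)

/-- the state after a later maneuver; `h` tells whether the state is in the hole -/
def Post1 (n : ℕ) (E : Ent) (h : Bool) (c : ℕ) (a : N × Dt) : Prop :=
  Dense S P (ready S P K n E.gp) E.tp a ∧ (E.d ≠ 0 → Never S P (ready S P K n E.d) E.tp a) ∧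
    (h = true → E.tp < S.dep a.1 ∧ Dense S P (ready S P K n (E.tp + 1)) (S.dep a.1) a ∧
      ∀ k, c ≤ k → k ∈ K → plus S P (E.tp + 1) (n, k) a) ∧
    (h = false → S.dep a.1 = E.tp ∧
      ∀ k, c ≤ k → k ∈ K → plus S P E.gp (n, k) a ∧ (E.d ≠ 0 → ¬ plus S P E.d (n, k) a))

/-- the test `e` is recorded; `h` tells whether it lies in the hole, `ins` whether the state
is still in the hole -/
def Rec (E : Ent) (e : ℕ × ℕ) (h ins : Bool) (a : N × Dt) : Prop :=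
  (h = true → S.kill a.1 e ∨ (ins = true ∧ (E.tp + 1, true, e) ∈ a.2)) ∧
    (h = false → (∀ j ≤ E.gp, (j, true, e) ∈ a.2) ∧ (E.d, false, e) ∈ a.2)

/-- preconditions of the maneuvers -/
def Pre : Req → N × Dt → Prop
  | .adj E, a => XX S P a ∧ E.Wf ∧ E.tp ≤ S.dep a.1 ∧ Inv S P K L E a
  | .new E, a => XX S P a ∧ E.Wf ∧ E.tp ≤ S.dep a.1 ∧ Inv S P K L E a
  | .fst E n _, a => XX S P a ∧ E.Wf ∧ S.dep a.1 = E.tp ∧ Ap S P K n E.gp a ∧
      (E.d ≠ 0 → ¬ Ap S P K n E.d a)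
  | .gap E n k h _, a => XX S P a ∧ E.Wf ∧ k ∈ K ∧ Post1 S P K n E h k a

/-- the maneuvers -/
def Man : Req → N × Dt → (N × Dt) × Ent × ℕ → Prop
  | .adj E, a, w => Rch S P (2 * E.tp + 1) a w.1 ∧ w.2.1 = E ∧ Post0 S P K L E w.2.2 w.1
  | .new E, a, w => Rch S P (min (2 * (E.tp + 1)) (2 * S.dep a.1 + 1)) a w.1 ∧ E.Adj w.2.1 ∧
      w.2.1.Act ∧ w.2.1.Wf ∧ S.tm a.1 ≤ S.ph w.1.1 (E.tp + 1) ∧
      (∀ e, (E.tp + 1, true, e) ∈ a.2 → E.tp + 1 ≤ S.dep a.1 → S.kill w.1.1 e) ∧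
      Post0 S P K L w.2.1 w.2.2 w.1
  | .fst E n want, a, w => Rch S P (2 * E.tp + 1) a w.1 ∧ Post1 S P K n E want w.2.2 w.1
  | .gap E n k h want, a, w => Rch S P (2 * E.tp + 1) a w.1 ∧ Post1 S P K n E want w.2.2 w.1 ∧
      (h = true → want = true → Rch S P (2 * S.dep a.1 + 1) a w.1 ∧ S.dep w.1.1 = S.dep a.1) ∧
      (h = true → want = false → ∀ e, (E.tp + 1, true, e) ∈ a.2 → S.kill w.1.1 e) ∧
      Rec S E (n, k) h want w.1

end

/-! ### Machines -/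

/-- operations on a stack -/
inductive Op | sit | push | pop | rep
  deriving DecidableEq, Fintype

/-- the new depth -/
def Op.dep : Op → ℕ → ℕ
  | .sit, s => s
  | .push, s => s + 1
  | .pop, s => s - 1
  | .rep, s => s

/-- the level of an operation at depth `s` -/
def Op.lev : Op → ℕ → ℕ
  | .sit, s => 2 * s + 1
  | .push, s => 2 * s + 1
  | .pop, s => 2 * s - 1
  | .rep, s => 2 * s

/-- stack machines producing points: the block `i` is the time interval `[T i, T (i + 1))`, the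
options of block `i` form the finite set `A i`, each stack position `p` has a birth time
`(ent x p).1` and a rank bound `(ent x p).2` -/
structure Mach (N O : Type) where
  T : ℕ → ℕ
  sz : ℕ → ℕ
  A : ℕ → Finset O
  Fr : ℕ → Set (ℕ × ℕ) → O → O → Prop
  idx : N → ℕ
  dep : N → ℕ
  ent : N → ℕ → ℕ × ℕ
  wd : N → ℕ → ℕ
  step : N → Op → O → N
  T_mono : StrictMono T
  sz_mono : Monotone sz
  sum_le : ∀ i, ∑ j ∈ Finset.range i, (A j).card ≤ sz i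
  ne : ∀ i, (A i).Nonempty
  fr : ∀ i, IsFr (Fr i)
  fib : ∀ i, {x | idx x = i}.Finite
  idx_step : ∀ x o ν, idx (step x o ν) = idx x + 1
  dep_step : ∀ x o ν, dep (step x o ν) = o.dep (dep x)
  ent_step : ∀ x o ν p, 2 * p + 1 ≤ o.lev (dep x) → ent (step x o ν) p = ent x p
  new : ∀ x o ν, o = .push ∨ o = .rep → 1 ≤ o.dep (dep x) →
    T (idx x) ≤ (ent (step x o ν) (o.dep (dep x))).1
  bd : ∀ x p, p ≤ dep x → (ent x p).1 ≤ T (idx x) ∧ (ent x p).2 ≤ T (idx x)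
  zero : ∀ x, (ent x 0).2 = 0
  wd_step : ∀ x o ν k, k < T (idx x) → wd (step x o ν) k = wd x k
  start : ∀ i, ∃ x, idx x = i ∧ dep x = 0 ∧ ∀ k < T i, wd x k = 0
  cov : ∀ (i : ℕ) (d : Set (ℕ × ℕ)) (μ : O) (ν : Bool → O) (x : Bool → N) (o : Bool → Op)
    (b : Bool), (∀ c, idx (x c) = i ∧ ν c ∈ A i) → Fr i d μ (ν false) →
      Fr i d (ν false) (ν true) → o b = .sit →
      (∀ e ∈ d, T i ≤ e.2 → e.2 < T (i + 1) → (ent (x b) (dep (x b))).2 ≤ e.1) →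
      ∀ e ∈ d, T i ≤ e.2 → e.2 < T (i + 1) → ∃ c, wd (step (x c) (o c) (ν c)) e.2 ≤ e.1

namespace Mach

variable {N O : Type} (M : Mach N O)

/-- the rank bound of the top position -/
def eff (x : N) : ℕ := (M.ent x (M.dep x)).2

/-- runs along the options `η` whose steps satisfy `Q` -/
def Walk (η : ℕ → O) (Q : N → Op → Prop) : N → N → Prop :=
  Relation.ReflTransGen fun x y => ∃ o, Q x o ∧ y = M.step x o (η (M.idx x))

/-- runs of level at least `l` -/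
def Play (η : ℕ → O) (l : ℕ) : N → N → Prop := M.Walk η fun x o => l ≤ o.lev (M.dep x)

/-- waiting -/
def Sit (η : ℕ → O) : N → N → Prop := M.Walk η fun _ o => o = .sit

/-- `y` is the output of a run in which some position is replaced infinitely often and the lower
positions are eventually frozen -/
def Legal (η : ℕ → O) (y : ℕ → ℕ) : Prop :=
  ∃ (p : ℕ) (xs : ℕ → N), 1 ≤ p ∧ p ≤ M.dep (xs 0) ∧ (∀ n, M.Play η (2 * p) (xs n) (xs (n + 1))) ∧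
    (∀ c, ∃ n, c ≤ (M.ent (xs n) p).1) ∧ ∀ n k, k < M.T (M.idx (xs n)) → y k = M.wd (xs n) k

/-- large labels -/
def Lg (η : ℕ → O) : Prop := ∀ m, ∀ᶠ i in atTop, R (M.Fr i) (tw m (M.sz i)) (M.A i) (η i)

/-- admissible labels -/
def Adm (η : ℕ → O) : Prop := ∀ᶠ i in atTop, η i ∈ M.A i

/-- the order of labels -/
def Below (η η' : ℕ → O) : Prop := ∀ᶠ i in atTop, η i = η' i ∨ M.Fr i ∅ (η i) (η' i)

/-- the static arena -/
def stat (V : ℕ × ℕ → Set (ℕ → ℕ)) : Stat N where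
  dep := M.dep
  tm x := M.T (M.idx x)
  ph x p := (M.ent x p).1
  kill x e := ∀ y : ℕ → ℕ, (∀ k < M.T (M.idx x), y k = M.wd x k) → y ∈ V e

/-- the dynamic arena -/
def dyn (η : ℕ → O) : Dyn N where
  Pl := M.Play η
  St := M.Sit η

end Mach

/-- the data of a simulation -/
structure SimD (N' O' N O : Type) where
  j0 : ℕ
  bl : ℕ → ℕ
  bk : ℕ → ℕ
  pr : O' → ℕ → O
  prj : N' → N
  emb : ℕ → N → N'
  low : N' → ℕ → ℕ

/-- the labels of the lower machine -/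
def SimD.lift {N' O' N O : Type} (s : SimD N' O' N O) (ν : ℕ → O') : ℕ → O :=
  fun i => s.pr (ν (s.bk i)) i

/-- the identity simulation -/
def SimD.id (N O : Type) : SimD N O N O :=
  ⟨0, fun j => j, fun i => i, fun ν _ => ν, fun x => x, fun _ x => x, fun _ p => p⟩

/-- composition of simulations -/
def SimD.comp {N'' O'' N' O' N O : Type} (s : SimD N' O' N O) (t : SimD N'' O'' N' O') :
    SimD N'' O'' N O :=
  ⟨t.j0 + s.j0, fun j => s.bl (t.bl j), fun i => t.bk (s.bk i), fun ν i => s.pr (t.pr ν (s.bk i)) i,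
    fun x => s.prj (t.prj x), fun j x => t.emb j (s.emb (t.bl j) x),
    fun x p => s.low (t.prj x) (t.low x p)⟩

/-- from level `j0` on each step of `M'` is a run of `M` -/
structure IsSim {N' O' N O : Type} (M' : Mach N' O') (M : Mach N O) (s : SimD N' O' N O) :
    Prop where
  gal : ∀ j i, s.j0 ≤ j → (s.bl j ≤ i ↔ j ≤ s.bk i)
  hT : ∀ j, s.j0 ≤ j → M'.T j = M.T (s.bl j)
  hsz : ∀ j, s.j0 ≤ j → M.sz (s.bl j) ≤ M'.sz j
  mem : ∀ i ν, s.j0 ≤ s.bk i → ν ∈ M'.A (s.bk i) → s.pr ν i ∈ M.A i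
  fr : ∀ i d ν ν', s.j0 ≤ s.bk i → M'.Fr (s.bk i) d ν ν' → M.Fr i d (s.pr ν i) (s.pr ν' i)
  idx : ∀ x, s.j0 ≤ M'.idx x → M.idx (s.prj x) = s.bl (M'.idx x)
  wd : ∀ x k, s.j0 ≤ M'.idx x → k < M'.T (M'.idx x) → M'.wd x k = M.wd (s.prj x) k
  low : ∀ x p, s.j0 ≤ M'.idx x → 1 ≤ p → p ≤ M'.dep x → 1 ≤ s.low x p ∧
    s.low x p ≤ M.dep (s.prj x) ∧ (M'.ent x p).1 ≤ (M.ent (s.prj x) (s.low x p)).1
  play : ∀ x o ν p, s.j0 ≤ M'.idx x → ν ∈ M'.A (M'.idx x) → 1 ≤ p → p ≤ M'.dep x →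
    2 * p ≤ o.lev (M'.dep x) →
      M.Play (s.pr ν) (2 * s.low x p) (s.prj x) (s.prj (M'.step x o ν)) ∧
        s.low (M'.step x o ν) p = s.low x p
  emb : ∀ j x, s.j0 ≤ j → M.idx x = s.bl j → M'.idx (s.emb j x) = j ∧ s.prj (s.emb j x) = x ∧
    M'.dep (s.emb j x) = M.dep x ∧
      ∀ p ≤ M.dep x, M'.ent (s.emb j x) p = M.ent x p ∧ s.low (s.emb j x) p = p

/-- conditions: a countable set of points, a machine for the future points and root labels -/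
structure Cond (N O : Type) where
  C : Set (ℕ → ℕ)
  M : Mach N O
  rt : ℕ → O
  cnt : C.Countable
  big : M.Lg rt
  tendC : ∀ y ∈ C, Tendsto y atTop atTop
  tend : ∀ η y, M.Adm η → M.Legal η y → Tendsto y atTop atTop

/-- extension of conditions, with the data -/
structure LeD {N' O' N O : Type} (q : Cond N' O') (p : Cond N O) (s : SimD N' O' N O)
    (lab : (ℕ → ℕ) → ℕ → O) : Prop where
  sub : p.C ⊆ q.C
  sim : IsSim q.M p.M s
  root : p.M.Below p.rt (s.lift q.rt)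
  new : ∀ y ∈ q.C, y ∉ p.C → p.M.Legal (lab y) y ∧ p.M.Adm (lab y) ∧ p.M.Below p.rt (lab y) ∧
    p.M.Below (lab y) (s.lift q.rt)
  lin : ∀ y ∈ q.C, y ∉ p.C → ∀ y' ∈ q.C, y' ∉ p.C →
    p.M.Below (lab y) (lab y') ∨ p.M.Below (lab y') (lab y)

/-- extension of conditions -/
def Le {N' O' N O : Type} (q : Cond N' O') (p : Cond N O) : Prop := ∃ s lab, LeD q p s lab

/-! ### The derived machine -/

/-- the size of a set of tests -/
def dsz (D : Dt) : ℕ := D.sup fun δ => δ.1 + δ.2.2.1 + δ.2.2.2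

/-- the entry of a request -/
def Req.E : Req → Ent
  | .adj E => E
  | .new E => E
  | .fst E _ _ => E
  | .gap E _ _ _ _ => E

/-- the column and the place of a request are at most `c` -/
def Req.Small (c : ℕ) : Req → Prop
  | .adj _ => True
  | .new _ => True
  | .fst _ n _ => n ≤ c
  | .gap _ n k _ _ => n ≤ c ∧ k ≤ c

/-- a machine, open sets, thinned options and uniform bounds for all maneuvers -/
structure Ctx where
  M : Mach ℕ ℕ
  V : ℕ × ℕ → Set (ℕ → ℕ)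
  B : ℕ → Finset ℕ
  K : Set ℕ
  L : Set ℕ
  nxt : ℕ → ℕ
  df : ℕ → ℕ
  isOpen : ∀ e, IsOpen (V e)
  sub : ∀ i, B i ⊆ M.A i
  df_mem : ∀ i, df i ∈ B i
  inf : L.Infinite
  lt_nxt : ∀ c, c < nxt c
  hyp : ∀ η ∈ Pt B, Hyp (M.stat V) (M.dyn η) K L
  up : ∀ c r x D, M.idx x ≤ c → dsz D ≤ c → r.Small c → r.E.Wf → r.E.tp ≤ M.dep x →
    ∀ η ∈ Pt B, (∃ w, Man (M.stat V) (M.dyn η) K L r (x, D) w) →
      ∃ w, M.idx w.1.1 ≤ nxt c ∧ dsz w.1.2 ≤ nxt c ∧ w.2.2 ≤ nxt c ∧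
        Box B (nxt c) η fun η' => Man (M.stat V) (M.dyn η') K L r (x, D) w

/-- the options of the derived machine: old options, a zone interval for each gap, a hole -/
abbrev Opt := (ℕ → ℕ) × (ℕ → ℕ × ℕ) × ℕ × ℕ

/-- the gap lies in the hole -/
def want (ν : Opt) (g : ℕ) : Bool := decide (ν.2.2.1 ≤ g ∧ g ≤ ν.2.2.2)

/-- skeletons: block `j` starts at the old level `bl j`, its gap `g ≤ ga j + 1` starts at `s j g`
and has the candidate zones `1, ..., be j g`; the column is `s j 1`, the places are `s j g` for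
`2 ≤ g ≤ ga j + 1` -/
structure Skel where
  bl : ℕ → ℕ
  s : ℕ → ℕ → ℕ
  be : ℕ → ℕ → ℕ
  ga : ℕ → ℕ

/-- raw states of the derived machine -/
structure Sta where
  x : ℕ
  pre : ℕ → ℕ
  v : ℕ
  L : ℕ → Ent
  D : Dt

/-- the old level of a visible operation -/
def Sta.lvl (s : Sta) : Op → ℕ
  | .sit => 2 * (s.L s.v).tp + 1
  | .push => 2 * (s.L s.v).tp + 1
  | .pop => 2 * (s.L (s.v - 1)).tp + 1
  | .rep => 2 * (s.L s.v).bp

namespace Ctx

variable (c : Ctx) (k : Skel)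

/-- the static arena -/
abbrev S : Stat ℕ := c.M.stat c.V

/-- the start of zone `l` of gap `g` of block `j` -/
def z (j g l : ℕ) : ℕ := c.nxt^[l] (k.s j g)

/-- the relation for zones -/
def Fz (j g : ℕ) : Set (ℕ × ℕ) → ℕ × ℕ → ℕ × ℕ → Prop :=
  IF (fun a => c.M.T (c.z k j g a)) (fun b => c.M.T (c.z k j g (b + 1)))
    fun a => c.M.T (c.z k j g (a + 1))

/-- the relation for holes -/
def Fh (j : ℕ) : Set (ℕ × ℕ) → ℕ × ℕ → ℕ × ℕ → Prop :=
  IF (fun a => c.M.T (k.s j a)) (fun b => c.M.T (k.s j (b + 2))) fun a => c.M.T (k.s j (a + 1))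

/-- the new sizes -/
def sz' (j : ℕ) : ℕ := G (c.M.sz (k.bl j))

/-- the requirements on a skeleton -/
structure IsSkel : Prop where
  bl0 : k.bl 0 = 0
  s0 : ∀ j, k.s j 0 = k.bl j
  be1 : ∀ j g, 1 ≤ k.be j g
  ga1 : ∀ j, 1 ≤ k.ga j
  zs : ∀ j g, c.z k j g (k.be j g + 1) ≤ k.s j (g + 1)
  col : ∀ j, k.s j 1 ∈ c.L
  plc : ∀ j g, 2 ≤ g → k.s j g ∈ c.K
  fin : ∀ j, k.s j (k.ga j + 2) ≤ k.bl (j + 1)
  nz : ∀ j g, R (c.Fz k j g) (tw j (c.sz' k j)) (Iv (k.be j g)) (0, k.be j g)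
  nh : ∀ j, R (c.Fh k j) (tw j (c.sz' k j)) (Iv (k.ga j)) (0, k.ga j)
  pad : ∀ j, c.sz' k j + (∏ g ∈ Finset.Ico 0 (k.ga j + 2), (Iv (k.be j g)).card) *
    (Iv (k.ga j)).card ≤ c.M.sz (k.bl (j + 1))

/-- the new options -/
noncomputable def A' (j : ℕ) : Finset Opt :=
  box c.B (k.bl j) (k.bl (j + 1)) c.df ×ˢ
    box (fun g => Iv (k.be j g)) 0 (k.ga j + 2) (fun _ => (0, 0)) ×ˢ Iv (k.ga j)

/-- the new relation -/
def Fr' (j : ℕ) (d : Set (ℕ × ℕ)) (ν ν' : Opt) : Prop :=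
  (∀ i, k.bl j ≤ i → i < k.bl (j + 1) → c.M.Fr i d (ν.1 i) (ν'.1 i)) ∧
    (∀ g < k.ga j + 2, c.Fz k j g d (ν.2.1 g) (ν'.2.1 g)) ∧ c.Fh k j d ν.2.2 ν'.2.2

/-- the new roots -/
def rt' (rt : ℕ → ℕ) (j : ℕ) : Opt := (rt, fun g => (0, k.be j g), 0, k.ga j)

/-- valid states at the beginning of block `j` -/
structure Valid (j : ℕ) (s : Sta) : Prop where
  idx : c.M.idx s.x = k.bl j
  pre : s.pre ∈ Pt c.B
  sz : dsz s.D ≤ k.bl j
  zero : s.L 0 = ⟨0, 0, 0, 0, 0⟩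
  top : (s.L s.v).tp = c.M.dep s.x
  wf : ∀ p ≤ s.v, (s.L p).Wf
  adj : ∀ p < s.v, (s.L p).Adj (s.L (p + 1))
  inv : Box c.B (k.bl j) s.pre fun η => XX c.S (c.M.dyn η) (s.x, s.D) ∧
    ∀ p ≤ s.v, Inv c.S (c.M.dyn η) c.K c.L (s.L p) (s.x, s.D)

/-- the own zones of an option -/
def Zn (j : ℕ) (ν : Opt) (i : ℕ) : Prop :=
  ∃ g < k.ga j + 2, c.z k j g (ν.2.1 g).1 ≤ i ∧ i < c.z k j g ((ν.2.1 g).1 + 1)

/-- the steps inside a block -/
def Tr (j : ℕ) (s : Sta) (o : Op) (ν : Opt) (a : ℕ) (o' : Op) : Prop :=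
  s.lvl o ≤ o'.lev (c.M.dep a) ∧ (¬ c.Zn k j ν (c.M.idx a) → o' = .sit ∧
    c.M.eff a ≤ c.M.T (k.s j (ν.2.2.1 + 1)) ∧
    (¬ (k.s j ν.2.2.1 ≤ c.M.idx a ∧ c.M.idx a < k.s j (ν.2.2.2 + 2)) →
      c.M.eff a ≤ c.M.T (k.s j 1) ∧ (o = .sit → c.M.eff a ≤ c.M.eff s.x)))

/-- the specification of one step of the derived machine -/
structure Blk (j : ℕ) (s : Sta) (o : Op) (ν : Opt) (s' : Sta) : Prop where
  valid : c.Valid k (j + 1) s'
  pre : s'.pre = fun i => if i < k.bl j then s.pre i else ν.1 i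
  dep : s'.v = o.dep s.v
  keep : ∀ p, 2 * p + 1 ≤ o.lev s.v → s'.L p = s.L p
  walk : c.M.Walk s'.pre (c.Tr k j s o ν) s.x s'.x
  data : ∀ δ ∈ s.D, 2 * δ.1 ≤ s.lvl o → δ ∈ s'.D
  new : o = .push ∨ o = .rep → 1 ≤ s'.v →
    c.M.T (k.bl j) ≤ (c.M.ent s'.x (s'.L s'.v).bp).1 ∧ (s'.L s'.v).Act
  rep : o = .rep → 1 ≤ s.v → (∀ e, ((s.L s.v).bp, true, e) ∈ s.D → c.S.kill s'.x e) ∧
    ((s.L s.v).d ≠ 0 → (s'.L s.v).d = (s.L s.v).d) ∧
    ((s.L s.v).d = 0 → (s.L s.v).gp = (s.L s.v).bp → (s'.L s.v).d = 0)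
  plc : ∀ g, 1 ≤ g → g ≤ k.ga j →
    Rec c.S (s'.L s'.v) (k.s j 1, k.s j (g + 1)) (want ν g) false (s'.x, s'.D)

/-- `M'` is a derived machine with underlying states `st` -/
structure Der {N' : Type} (M' : Mach N' Opt) (st : N' → Sta) : Prop where
  hT : ∀ j, M'.T j = c.M.T (k.bl j)
  hsz : M'.sz = c.sz' k
  hA : M'.A = c.A' k
  hFr : M'.Fr = c.Fr' k
  valid : ∀ x, c.Valid k (M'.idx x) (st x)
  dep : ∀ x, M'.dep x = (st x).v
  ent : ∀ x p, (M'.ent x p).1 = (c.M.ent (st x).x ((st x).L p).bp).1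
  wd : ∀ x, M'.wd x = c.M.wd (st x).x
  blk : ∀ x o ν, ν ∈ c.A' k (M'.idx x) → c.Blk k (M'.idx x) (st x) o ν (st (M'.step x o ν))

end Ctx

end Pool.Agent.P.MP_b17faa_gt.X7
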