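import Pool.Agent.P.MP_b17faa_gt.X7Walk

/-!
The statements of the parts of the construction, and basic facts on skeletons.
-/

namespace Pool.Agent.P.MP_b17faa_gt.X7

open Set Filter Function

/-- no splitting -/
def S_NS : Prop :=
  ∀ (K : Nm) (B : ℕ → Finset ℕ), K.Lrg B → ∀ (ι : Type) [Countable ι]
    (P : ι → ℕ → (ℕ → ℕ) → Prop), (∀ a k, Measurable (P a k)) →
    ∃ B' : ℕ → Finset ℕ, (∀ i, B' i ⊆ B i) ∧ K.Lrg B' ∧ ∃ I : Set ℕ, I.Infinite ∧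
      ∀ a, ∀ η ∈ Pt B', (∀ᶠ k in atTop, k ∈ I → P a k η) ∨ ∀ᶠ k in atTop, k ∈ I → ¬ P a k η

/-- uniform bounded witnesses -/
def S_UP : Prop :=
  ∀ (K : Nm) (B : ℕ → Finset ℕ), K.Lrg B → ∀ (ι β : Type) [Countable ι] [Countable β]
    (P : ι → β → (ℕ → ℕ) → Prop), (∀ a w, Measurable (P a w)) →
    ∃ B' : ℕ → Finset ℕ, (∀ i, B' i ⊆ B i) ∧ K.Lrg B' ∧ ∀ a, ∃ (F : Set β) (t : ℕ), F.Finite ∧
      ∀ η ∈ Pt B', (∃ w, P a w η) → ∃ w ∈ F, Box B' t η (P a w)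

/-- measurability of the calculus -/
def S_Meas : Prop :=
  ∀ (M : Mach ℕ ℕ) (V : ℕ × ℕ → Set (ℕ → ℕ)),
    (∀ j e a, Measurable fun η => plus (M.stat V) (M.dyn η) j e a) ∧
    (∀ K n j a, Measurable fun η => Ap (M.stat V) (M.dyn η) K n j a) ∧
    ∀ K L r a w, Measurable fun η => Man (M.stat V) (M.dyn η) K L r a w

/-- the calculus of tests -/
structure S_Calc : Prop where
  man : ∀ {N : Type} {S : Stat N} {P : Dyn N} {K L : Set ℕ}, Hyp S P K L → ∀ {r a},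
    Pre S P K L r a → ∃ w, Man S P K L r a w
  pre_sit : ∀ {N : Type} {S : Stat N} {P : Dyn N} {K L : Set ℕ}, Ok S P → ∀ {r x y D},
    Pre S P K L r (x, D) → P.St x y → Pre S P K L r (y, D)
  man_sit : ∀ {N : Type} {S : Stat N} {P : Dyn N} {K L : Set ℕ}, Ok S P → ∀ {r x y y' x' D D' w},
    Pre S P K L r (x, D) → P.St x y → Man S P K L r (y, D) ((y', D'), w) → P.St y' x' →
      Man S P K L r (x, D) ((x', D'), w)
  rch_trans : ∀ {N : Type} {S : Stat N} {P : Dyn N}, Ok S P → ∀ {l a b c},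
    Rch S P l a b → Rch S P l b c → Rch S P l a c
  rch_mono : ∀ {N : Type} {S : Stat N} {P : Dyn N}, Ok S P → ∀ {l l' a b}, l' ≤ l →
    Rch S P l a b → Rch S P l' a b
  rch_sit : ∀ {N : Type} {S : Stat N} {P : Dyn N}, Ok S P → ∀ {x y D},
    XX S P (x, D) → P.St x y → Rch S P (2 * S.dep x + 1) (x, D) (y, D)
  inv : ∀ {N : Type} {S : Stat N} {P : Dyn N} {K L : Set ℕ}, Ok S P → ∀ {E a b}, E.Wf →
    Inv S P K L E a → Rch S P (2 * E.tp + 1) a b → Inv S P K L E b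
  keep : ∀ {N : Type} {S : Stat N} {P : Dyn N} {K L : Set ℕ}, Ok S P → ∀ {E E1 E2 : Ent} {a b},
    E.Adj E1 → E.Adj E2 → E2.Act → Inv S P K L E1 a → Rch S P (2 * E1.bp) a b →
      Inv S P K L E2 b → (E1.d ≠ 0 → E2.d = E1.d) ∧ (E1.d = 0 → E1.gp = E1.bp → E2.d = 0)
  xx_empty : ∀ {N : Type} {S : Stat N} {P : Dyn N}, Ok S P → ∀ x, XX S P (x, ∅)
  inv_zero : ∀ {N : Type} {S : Stat N} {P : Dyn N} {K L : Set ℕ}, Ok S P → ∀ {a} (b t : ℕ),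
    t ≤ S.dep a.1 → Inv S P K L ⟨b, t, 0, 0, 0⟩ a
  safe : ∀ {N : Type} {S : Stat N} {P : Dyn N}, Ok S P → ∀ {a d e}, XX S P a →
    (d, false, e) ∈ a.2 → 1 ≤ d → d ≤ S.dep a.1 → ¬ S.kill a.1 e

open Classical in
/-- simulations and the order of conditions -/
structure S_Sim : Prop where
  id : ∀ {N O : Type} (M : Mach N O), IsSim M M (SimD.id N O)
  comp : ∀ {N'' O'' N' O' N O : Type} {M'' : Mach N'' O''} {M' : Mach N' O'} {M : Mach N O} {s t},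
    IsSim M' M s → IsSim M'' M' t → IsSim M'' M (s.comp t)
  legal : ∀ {N' O' N O : Type} {M' : Mach N' O'} {M : Mach N O} {s ν y},
    IsSim M' M s → M'.Adm ν → M'.Legal ν y → M.Legal (s.lift ν) y
  adm : ∀ {N' O' N O : Type} {M' : Mach N' O'} {M : Mach N O} {s ν},
    IsSim M' M s → M'.Adm ν → M.Adm (s.lift ν)
  below : ∀ {N' O' N O : Type} {M' : Mach N' O'} {M : Mach N O} {s ν ν'},
    IsSim M' M s → M'.Below ν ν' → M.Below (s.lift ν) (s.lift ν')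
  refl : ∀ {N O : Type} (p : Cond N O) (lab), LeD p p (SimD.id N O) lab
  trans : ∀ {N'' O'' N' O' N O : Type} {r : Cond N'' O''} {q : Cond N' O'} {p : Cond N O}
    {s t lab lab'}, LeD q p s lab → LeD r q t lab' →
      LeD r p (s.comp t) fun y => if y ∈ q.C then lab y else s.lift (lab' y)

/-- adding two points -/
def S_Add : Prop :=
  ∀ (N O : Type) (p : Cond N O) (η0 η1 : ℕ → O) (y0 y1 : ℕ → ℕ), p.M.Legal η0 y0 →
    p.M.Legal η1 y1 → p.M.Adm η0 → p.M.Adm η1 → p.M.Below p.rt η0 → p.M.Below η0 η1 →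
      p.M.Lg η1 → ∃ q : Cond N O, Le q p ∧ y0 ∈ q.C ∧ y1 ∈ q.C

/-- two points cover a selector -/
def S_Neg : Prop :=
  ∀ (N O : Type) (p : Cond N O) (d : Set (ℕ × ℕ)), Mult 1 d →
    ∃ (η0 η1 : ℕ → O) (y0 y1 : ℕ → ℕ), p.M.Legal η0 y0 ∧ p.M.Legal η1 y1 ∧ p.M.Adm η0 ∧
      p.M.Adm η1 ∧ p.M.Below p.rt η0 ∧ p.M.Below η0 η1 ∧ p.M.Lg η1 ∧
        ∀ e ∈ d, y0 e.2 ≤ e.1 ∨ y1 e.2 ≤ e.1

/-- coding by natural numbers -/
def S_Code : Prop := ∀ (N O : Type) (q : Cond N O), ∃ q' : Cond ℕ ℕ, Le q' q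

/-- the first condition -/
def S_Base : Prop := ∃ N : Type, Nonempty (Cond N ℕ)

/-- fusion -/
def S_Fus : Prop :=
  ∀ s : ℕ → Cond ℕ ℕ, (∀ n, Le (s (n + 1)) (s n)) → ∃ (N : Type) (q : Cond N ℕ), ∀ n, Le q (s n)

/-- contexts exist -/
def S_Ctx : Prop :=
  ∀ (p : Cond ℕ ℕ) (V : ℕ × ℕ → Set (ℕ → ℕ)), (∀ e, IsOpen (V e)) →
    (∀ q : Cond ℕ ℕ, Le q p → ∀ y ∈ q.C, ∀ n, {k | y ∉ V (n, k)}.Finite) →
    ∃ c : Ctx, c.M = p.M ∧ c.V = V ∧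
      ∀ m, ∀ᶠ i in atTop, R (c.M.Fr i) (tw m (c.M.sz i)) (c.B i) (p.rt i)

/-- skeletons exist -/
def S_Skel : Prop :=
  ∀ (c : Ctx) (good : ℕ → ℕ → ℕ → Prop), (∀ j n, ∀ᶠ k in atTop, good j n k) →
    ∃ k : Skel, c.IsSkel k ∧ ∀ j g, 2 ≤ g → good j (k.s j 1) (k.s j g)

/-- one maneuver in one zone -/
def S_Zone : Prop :=
  ∀ (c : Ctx) (r : Req) (η : ℕ → ℕ) (x : ℕ) (D : Dt) (z z' : ℕ), η ∈ Pt c.B → c.M.idx x ≤ z →
    c.nxt z ≤ z' → dsz D ≤ z → r.Small z →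
    Box c.B (c.M.idx x) η (fun η' => Pre c.S (c.M.dyn η') c.K c.L r (x, D)) →
    ∃ y y' x' D' w, c.M.Sit η x y ∧ c.M.idx y = z ∧
      Man c.S (c.M.dyn η) c.K c.L r (y, D) ((y', D'), w) ∧ c.M.idx y' ≤ c.nxt z ∧
      c.M.Sit η y' x' ∧ c.M.idx x' = z' ∧ dsz D' ≤ c.nxt z ∧ w.2 ≤ c.nxt z ∧
      Box c.B z' η fun η' => Man c.S (c.M.dyn η') c.K c.L r (x, D) ((x', D'), w)

/-- the state at the beginning of gap `g ≥ 1`: `(x1, D1)` is the state at the beginning of gap `1`,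
`E` is the top entry, `Q` is satisfied by all earlier steps -/
structure Ctx.Gap (c : Ctx) (k : Skel) (j : ℕ) (ν : Opt) (η : ℕ → ℕ) (E : Ent) (x1 : ℕ) (D1 : Dt)
    (g x : ℕ) (D : Dt) : Prop where
  idx : c.M.idx x = k.s j g
  sz : dsz D ≤ k.s j g
  walk : c.M.Walk η (fun a o => 2 * E.tp + 1 ≤ o.lev (c.M.dep a) ∧ (¬ c.Zn k j ν (c.M.idx a) →
    o = .sit ∧ c.M.eff a ≤ c.M.T (k.s j (ν.2.2.1 + 1)) ∧
      (¬ (k.s j ν.2.2.1 ≤ c.M.idx a ∧ c.M.idx a < k.s j (ν.2.2.2 + 2)) →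
        c.M.eff a = c.M.eff x1))) x1 x
  eff : c.M.eff x ≤ c.M.T (k.s j (ν.2.2.1 + 1)) ∧ (want ν (g - 1) = false → c.M.eff x = c.M.eff x1)
  plc : ∀ g', 1 ≤ g' → g' + 1 < g →
    Rec c.S E (k.s j 1, k.s j (g' + 1)) (want ν g') (want ν (g - 1)) (x, D)
  box : Box c.B (k.s j g) η fun η' => Rch c.S (c.M.dyn η') (2 * E.tp + 1) (x1, D1) (x, D) ∧
    (2 ≤ g → Post1 c.S (c.M.dyn η') c.K (k.s j 1) E (want ν (g - 1)) (k.s j g) (x, D))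

/-- the run through the gaps `1, ..., ga j + 1` -/
def S_Gap : Prop :=
  ∀ (c : Ctx) (k : Skel), c.IsSkel k → ∀ (j : ℕ) (ν : Opt) (η : ℕ → ℕ) (E : Ent) (x1 : ℕ) (D1 : Dt),
    ν ∈ c.A' k j → η ∈ Pt c.B → E.Wf → c.M.idx x1 = k.s j 1 → dsz D1 ≤ k.s j 1 →
    Box c.B (k.s j 1) η (fun η' => XX c.S (c.M.dyn η') (x1, D1) ∧
      Post0 c.S (c.M.dyn η') c.K c.L E (k.s j 1) (x1, D1)) →
    ∃ x D, c.Gap k j ν η E x1 D1 (k.ga j + 2) x D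

/-- one step of the derived machine -/
def S_Blk : Prop :=
  ∀ (c : Ctx) (k : Skel), c.IsSkel k → ∀ j s o ν, c.Valid k j s → ν ∈ c.A' k j →
    ∃ s', c.Blk k j s o ν s'

/-- pair coverage for the derived machine -/
def S_Cov : Prop :=
  ∀ (c : Ctx) (k : Skel), c.IsSkel k → ∀ (j : ℕ) (d : Set (ℕ × ℕ)) (μ : Opt) (ν : Bool → Opt)
    (s s' : Bool → Sta) (o : Bool → Op) (b : Bool),
    (∀ t, c.Valid k j (s t) ∧ ν t ∈ c.A' k j ∧ c.Blk k j (s t) (o t) (ν t) (s' t)) →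
    c.Fr' k j d μ (ν false) → c.Fr' k j d (ν false) (ν true) → o b = .sit →
    (∀ e ∈ d, c.M.T (k.bl j) ≤ e.2 → e.2 < c.M.T (k.bl (j + 1)) → c.M.eff (s b).x ≤ e.1) →
    ∀ e ∈ d, c.M.T (k.bl j) ≤ e.2 → e.2 < c.M.T (k.bl (j + 1)) → ∃ t, c.M.wd (s' t).x e.2 ≤ e.1

/-- sizes and norms of the new options -/
def S_Size : Prop :=
  ∀ (c : Ctx) (k : Skel), c.IsSkel k →
    (∀ j, ∑ i ∈ Finset.range j, (c.A' k i).card ≤ c.sz' k j) ∧ (∀ j, (c.A' k j).Nonempty) ∧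
    (∀ j, IsFr (c.Fr' k j)) ∧ ∀ rt : ℕ → ℕ,
      (∀ m, ∀ᶠ i in atTop, R (c.M.Fr i) (tw m (c.M.sz i)) (c.B i) (rt i)) →
      ∀ m, ∀ᶠ j in atTop, R (c.Fr' k j) (tw m (c.sz' k j)) (c.A' k j) (Ctx.rt' k rt j)

/-- the derived machine exists -/
def S_Der : Prop :=
  ∀ (c : Ctx) (k : Skel), c.IsSkel k → ∃ (N' : Type) (M' : Mach N' Opt) (st : N' → Sta)
    (sd : SimD N' Opt ℕ ℕ), c.Der k M' st ∧ IsSim M' c.M sd ∧ ∀ ν i, sd.pr ν i = ν.1 i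

/-- legal points of the derived machine are in almost all chosen sets or exactly in those of the
holes -/
def S_Stat : Prop :=
  ∀ (c : Ctx) (k : Skel), c.IsSkel k → ∀ (N' : Type) (M' : Mach N' Opt) (st : N' → Sta),
    c.Der k M' st → ∀ ν y, M'.Adm ν → M'.Legal ν y →
      (∀ᶠ j in atTop, ∀ g, 1 ≤ g → g ≤ k.ga j → y ∈ c.V (k.s j 1, k.s j (g + 1))) ∨
        ∀ᶠ j in atTop, ∀ g, 1 ≤ g → g ≤ k.ga j →
          (y ∈ c.V (k.s j 1, k.s j (g + 1)) ↔ want (ν j) g = true)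

/-- the positive property -/
def S_Pos : Prop :=
  ∀ (p : Cond ℕ ℕ) (V : ℕ × ℕ → Set (ℕ → ℕ)), (∀ e, IsOpen (V e)) →
    (∀ q : Cond ℕ ℕ, Le q p → ∀ y ∈ q.C, ∀ n, {k | y ∉ V (n, k)}.Finite) →
    ∃ (N' : Type) (q : Cond N' Opt), Le q p ∧ ∃ S : Set (ℕ × ℕ), (∀ n, {k | (n, k) ∈ S}.Finite) ∧
      ∀ r : Cond ℕ ℕ, Le r q → Ix .T r.C V S

namespace Ctx

variable {c : Ctx} {k : Skel}

theorem z_zero (j g : ℕ) : c.z k j g 0 = k.s j g := rfl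

theorem z_succ (j g l : ℕ) : c.z k j g (l + 1) = c.nxt (c.z k j g l) := iterate_succ_apply' _ _ _

theorem z_mono (j g : ℕ) : StrictMono (c.z k j g) :=
  strictMono_nat_of_lt_succ fun l => z_succ j g l ▸ c.lt_nxt _

theorem s_le_z (j g l : ℕ) : k.s j g ≤ c.z k j g l := (z_mono j g).monotone (Nat.zero_le l)

theorem IsSkel.s_mono (h : c.IsSkel k) (j : ℕ) : StrictMono (k.s j) :=
  strictMono_nat_of_lt_succ fun g => (z_mono j g (Nat.succ_pos _)).trans_le (h.zs j g)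

theorem IsSkel.z_le (h : c.IsSkel k) {j g l : ℕ} (hl : l ≤ k.be j g) :
    c.z k j g (l + 1) ≤ k.s j (g + 1) :=
  ((z_mono j g).monotone (Nat.succ_le_succ hl)).trans (h.zs j g)

theorem IsSkel.bl_mono (h : c.IsSkel k) : StrictMono k.bl :=
  strictMono_nat_of_lt_succ fun j => h.s0 j ▸ (h.s_mono j (Nat.succ_pos _)).trans_le (h.fin j)

theorem mem_A' {j : ℕ} {ν : Opt} : ν ∈ c.A' k j ↔
    (∀ i, (k.bl j ≤ i → i < k.bl (j + 1) → ν.1 i ∈ c.B i) ∧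
      (¬ (k.bl j ≤ i ∧ i < k.bl (j + 1)) → ν.1 i = c.df i)) ∧
    (∀ g, (g < k.ga j + 2 → ν.2.1 g ∈ Iv (k.be j g)) ∧ (k.ga j + 2 ≤ g → ν.2.1 g = (0, 0))) ∧
      ν.2.2 ∈ Iv (k.ga j) := by
  simp only [A', Finset.mem_product, mem_box, Nat.zero_le, true_and, forall_const, not_lt]

theorem pt_of_mem {j : ℕ} {ν : Opt} (h : ν ∈ c.A' k j) : ν.1 ∈ Pt c.B := fun i => by
  by_cases hi : k.bl j ≤ i ∧ i < k.bl (j + 1)
  · exact ((mem_A'.1 h).1 i).1 hi.1 hi.2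
  · exact ((mem_A'.1 h).1 i).2 hi ▸ c.df_mem i

theorem Valid.bp_le {j : ℕ} {s : Sta} (h : c.Valid k j s) {p q : ℕ} (h1 : p < q) (h2 : q ≤ s.v) :
    (s.L p).tp < (s.L q).bp ∧ (s.L p).gp ≤ (s.L q).gp ∧
      ((s.L p).d ≠ 0 → (s.L q).d = (s.L p).d) := by
  induction q, h1 using Nat.le_induction with
  | base =>
    have := h.adj p h2
    exact ⟨this.1 ▸ Nat.lt_succ_self _, this.2.1, this.2.2.1⟩
  | succ q hq ih =>
    obtain ⟨a1, a2, a3⟩ := ih (by omega)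
    obtain ⟨b1, b2, b3, -⟩ := h.adj q h2
    have := (h.wf q (by omega)).1
    exact ⟨by omega, a2.trans b2, fun c1 => (b3 (a3 c1 ▸ c1)).trans (a3 c1)⟩

theorem Valid.tp_le {j : ℕ} {s : Sta} (h : c.Valid k j s) {p q : ℕ} (h1 : p ≤ q) (h2 : q ≤ s.v) :
    (s.L p).tp ≤ (s.L q).tp ∧ (s.L p).bp ≤ (s.L q).bp ∧ (s.L q).tp ≤ c.M.dep s.x := by
  have key : ∀ p q, p ≤ q → q ≤ s.v → (s.L p).tp ≤ (s.L q).tp ∧ (s.L p).bp ≤ (s.L q).bp := by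
    intro p q h1 h2
    rcases h1.eq_or_lt with rfl | h3
    · exact ⟨le_rfl, le_rfl⟩
    · have := (h.bp_le h3 h2).1
      have := (h.wf q h2).1
      have := (h.wf p (h1.trans h2)).1
      omega
  exact ⟨(key p q h1 h2).1, (key p q h1 h2).2, h.top ▸ (key q _ h2 le_rfl).1⟩

/-- the old level of a visible operation of level at least `2 * p + 1` or `2 * p` -/
theorem Valid.lvl {j : ℕ} {s : Sta} (h : c.Valid k j s) (o : Op) {p : ℕ} (hp : p ≤ s.v) :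
    s.lvl o ≤ 2 * c.M.dep s.x + 1 ∧ (2 * p + 1 ≤ o.lev s.v → 2 * (s.L p).tp + 1 ≤ s.lvl o) ∧
      (2 * p ≤ o.lev s.v → 2 * (s.L p).bp ≤ s.lvl o) := by
  have a1 := h.tp_le hp le_rfl
  have a2 := (h.wf p hp).1
  have a3 := (h.wf _ le_rfl).1
  have a4 := h.tp_le (Nat.sub_le s.v 1) le_rfl
  have a5 : p ≤ s.v - 1 → (s.L p).tp ≤ (s.L (s.v - 1)).tp :=
    fun h' => (h.tp_le h' (Nat.sub_le _ _)).1
  have a6 : p < s.v → (s.L p).tp < (s.L s.v).bp := fun h' => (h.bp_le h' le_rfl).1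
  cases o <;> simp only [Sta.lvl, Op.lev] <;> omega

end Ctx

end Pool.Agent.P.MP_b17faa_gt.X7
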