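import Pool.Agent.P.MP_b17faa_gt.Glue
import Pool.Agent.P.MP_b17faa_gt.X7Iface

/-!
The approximations for `S_fin(Γ, T)` without `S₁(Γ, Ω)`, from the parts of the construction.
-/

namespace Pool.Agent.P.MP_b17faa_gt.X7

open Set Filter Function

theorem S_Sim.le_trans (hS : S_Sim) {N'' O'' N' O' N O : Type} {r : Cond N'' O''} {q : Cond N' O'}
    {p : Cond N O} (h : Le r q) (h' : Le q p) : Le r p :=
  let ⟨_, _, h1⟩ := h; let ⟨_, _, h2⟩ := h'; ⟨_, _, hS.trans h2 h1⟩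

theorem exists_X7_of (hS : S_Sim) (hA : S_Add) (hN : S_Neg) (hC : S_Code) (hB : S_Base)
    (hF : S_Fus) (hP : S_Pos) : ∃ (P : Type) (_ : Preorder P) (_ : Nonempty P)
      (a : Approx P (ℕ → ℕ)), a.PosFin .G .T ∧ a.Neg1 .G .Om := by
  let _ : Preorder (Cond ℕ ℕ) :=
    { le := Le
      le_refl := fun p => ⟨_, fun _ => p.rt, hS.refl p _⟩
      le_trans := fun _ _ _ => hS.le_trans }
  obtain ⟨N, ⟨p0⟩⟩ := hB
  obtain ⟨p1, -⟩ := hC _ _ p0
  have neg : ∀ (p : Cond ℕ ℕ) (d : Set (ℕ × ℕ)), Mult 1 d → ∃ q ≤ p, ∃ y0 ∈ q.C, ∃ y1 ∈ q.C,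
      ∀ e ∈ d, y0 e.2 ≤ e.1 ∨ y1 e.2 ≤ e.1 := fun p d hd => by
    obtain ⟨η0, η1, y0, y1, a1, a2, a3, a4, a5, a6, a7, a8⟩ := hN _ _ p d hd
    obtain ⟨q, b1, b2, b3⟩ := hA _ _ p η0 η1 y0 y1 a1 a2 a3 a4 a5 a6 a7
    exact ⟨q, b1, y0, b2, y1, b3, a8⟩
  let a : Approx (Cond ℕ ℕ) (ℕ → ℕ) :=
    { pt := Cond.C
      countable := Cond.cnt
      anti := fun _ _ ⟨_, _, h⟩ => h.sub
      closed := fun s hs => by
        obtain ⟨N, q, hq⟩ := hF s fun n => hs (Nat.le_succ n)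
        obtain ⟨q', hq'⟩ := hC _ _ q
        exact ⟨q', fun n => hS.le_trans hq' (hq n)⟩
      nonempty := fun p =>
        let ⟨q, h1, y, h2, _⟩ := neg p ∅ (mult_empty 1); ⟨q, h1, y, h2⟩ }
  refine ⟨Cond ℕ ℕ, inferInstance, ⟨p1⟩, a, fun u p hu => ?_,
    fun n k => {y | n < y k}, fun p => ⟨fun n k => ?_, fun q _ n k => ?_, fun q _ n => ?_⟩,
    fun S hS' p => ?_⟩
  · obtain ⟨N', q, h1, S, h2, h3⟩ := hP p (uncurry u) (fun e => hu.isOpen _ _)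
      fun q hq y hy n => by simpa using (hu.ix q hq n).2 y hy
    obtain ⟨q', hq'⟩ := hC _ _ q
    exact ⟨q', hS.le_trans hq' h1, S, h2, fun r hr => h3 r (hS.le_trans hr hq')⟩
  · exact (isOpen_discrete {c | n < c}).preimage (continuous_apply (A := fun _ : ℕ => ℕ) k)
  · obtain ⟨r, h1, y0, h2, y1, h3, h4⟩ := neg q {(n, k)} fun m =>
      encard_le_one_iff_subsingleton.2 fun a ha b hb =>
        (Prod.ext_iff.1 ha).2.trans (Prod.ext_iff.1 hb).2.symm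
    exact ⟨r, h1, fun h => (h4 _ rfl).elim (not_le.2 (h h2)) (not_le.2 (h h3))⟩
  · refine ⟨infinite_univ, fun y hy => ?_⟩
    obtain ⟨k0, hk⟩ := eventually_atTop.1 ((q.tendC y hy).eventually_gt_atTop n)
    exact (finite_Iio k0).subset fun k h => not_le.1 fun h' => h.2 (hk k h')
  · obtain ⟨q, h1, y0, h2, y1, h3, h4⟩ := neg p S fun m =>
      encard_le_one_iff_subsingleton.2 (hS' m)
    refine ⟨q, h1, fun h => ?_⟩
    obtain ⟨e, h5, h6⟩ := h {y0, y1} (insert_subset h2 (singleton_subset_iff.2 h3)) (toFinite _)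
    exact (h4 e h5).elim (not_le.2 (h6 (Or.inl rfl))) (not_le.2 (h6 (Or.inr rfl)))

theorem sep7_of (h : ∃ (P : Type) (_ : Preorder P) (_ : Nonempty P)
    (a : Approx P (ℕ → ℕ)), a.PosFin .G .T ∧ a.Neg1 .G .Om) : Separates [12] [2] := by
  obtain ⟨P, _, _, a, h1, h2⟩ := h
  obtain ⟨e, he⟩ := exists_inducing ℕ fun _ => ℕ
  obtain ⟨M, X, a1, a2, a3, h⟩ := realize a he
  refine ⟨M, a1, X, a2, a3, ?_, ?_⟩ <;> simp only [List.forall_mem_cons, List.not_mem_nil,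
    false_imp_iff, implies_true, and_true]
  · exact (h .G .T).2.1 nofun h1
  · exact (h .G .Om).2.2.2.1 h2

end Pool.Agent.P.MP_b17faa_gt.X7
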