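import Pool.Agent.P.MP_b17faa_gt.X7Defs

/-!
Basic facts on the hierarchy, the game norm, intervals and boxes.
-/

namespace Pool.Agent.P.MP_b17faa_gt.X7

open Set Filter Function

theorem G_mono : Monotone G := fun a b h => by
  unfold G
  have h1 : 2 ^ a ≤ 2 ^ b := Nat.pow_le_pow_right two_pos h
  have h2 : 2 ^ 2 ^ a ≤ 2 ^ 2 ^ b := Nat.pow_le_pow_right two_pos h1
  have h3 : (2 ^ 2 ^ a) ^ (a + 2 ^ 2 ^ a + 1) ≤ (2 ^ 2 ^ b) ^ (b + 2 ^ 2 ^ b + 1) :=
    (Nat.pow_le_pow_left h2 _).trans (Nat.pow_le_pow_right (by positivity) (by omega))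
  have h4 : ((2 ^ 2 ^ a) ^ (a + 2 ^ 2 ^ a + 1)) ^ (a * 2 ^ a) ≤
      ((2 ^ 2 ^ b) ^ (b + 2 ^ 2 ^ b + 1)) ^ (b * 2 ^ b) :=
    (Nat.pow_le_pow_left h3 _).trans (Nat.pow_le_pow_right (by positivity) (Nat.mul_le_mul h h1))
  have h5 := Nat.mul_le_mul h4 h
  have h6 := Nat.mul_le_mul h h
  have h7 := Nat.mul_le_mul h h1
  omega

theorem G_big (x : ℕ) : ((2 ^ 2 ^ x) ^ (x + 2 ^ 2 ^ x + 1)) ^ (x * 2 ^ x) * x ≤ G x := by
  unfold G; omega

theorem G_sq (x : ℕ) : x * x ≤ G x := by unfold G; omega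

theorem G_two (x : ℕ) : 2 * x + 2 ≤ G x := by unfold G; omega

theorem G_pow (x : ℕ) : x + x * 2 ^ x ≤ G x := by unfold G; omega

theorem le_G (x : ℕ) : x ≤ G x := by have := G_two x; omega

@[simp] theorem tw_zero (x : ℕ) : tw 0 x = x := rfl

theorem tw_succ (m x : ℕ) : tw (m + 1) x = G (tw m x) := iterate_succ_apply' _ _ _

theorem tw_succ' (m x : ℕ) : tw (m + 1) x = tw m (G x) := rfl

theorem tw_mono_right (m : ℕ) : Monotone (tw m) := G_mono.iterate m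

theorem tw_mono_left (x : ℕ) : Monotone fun m => tw m x :=
  monotone_nat_of_le_succ fun m => tw_succ m x ▸ le_G _

theorem tw_mono {m m' x x' : ℕ} (h : m ≤ m') (h' : x ≤ x') : tw m x ≤ tw m' x' :=
  (tw_mono_left x h).trans (tw_mono_right m' h')

theorem le_tw (m x : ℕ) : x ≤ tw m x := tw_mono_left x (Nat.zero_le m)

theorem le_tw_left (m x : ℕ) : m ≤ tw m x := by
  induction m with
  | zero => exact Nat.zero_le _
  | succ m ih => have := G_two (tw m x); rw [tw_succ]; omega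

/-- slow diagonalization -/
theorem diag {Q : ℕ → ℕ → Prop} (h : ∀ r, ∀ᶠ i in atTop, Q r i) :
    ∃ ρ : ℕ → ℕ, Tendsto ρ atTop atTop ∧ (∀ i, ρ i ≤ i) ∧ ∀ᶠ i in atTop, Q (ρ i) i := by
  classical
  have h' : ∀ r, ∀ᶠ i in atTop, ∀ r' ∈ Iic r, Q r' i := fun r =>
    (eventually_all_finite (finite_Iic r)).2 fun r' _ => h r'
  refine ⟨fun i => Nat.findGreatest (fun r => ∀ r' ∈ Iic r, Q r' i) i, tendsto_atTop.2 fun r => ?_,
    fun i => Nat.findGreatest_le i, ?_⟩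
  · filter_upwards [h' r, eventually_ge_atTop r] with i h1 h2 using Nat.le_findGreatest h2 h1
  · filter_upwards [h' 0] with i h1
    exact Nat.findGreatest_spec (P := fun r => ∀ r' ∈ Iic r, Q r' i) (Nat.zero_le i) h1 _
      (mem_Iic.2 le_rfl)

theorem Mult.le {m m' : ℕ} {d : Set (ℕ × ℕ)} (h : Mult m d) (h' : m ≤ m') : Mult m' d :=
  fun n => (h n).trans (by exact_mod_cast h')

theorem Mult.union {a b : ℕ} {d d' : Set (ℕ × ℕ)} (h : Mult a d) (h' : Mult b d') :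
    Mult (a + b) (d ∪ d') := fun n => by
  have : {k | (n, k) ∈ d ∪ d'} = {k | (n, k) ∈ d} ∪ {k | (n, k) ∈ d'} := rfl
  rw [this]
  exact (encard_union_le _ _).trans (by push_cast; exact add_le_add (h n) (h' n))

theorem mult_empty (m : ℕ) : Mult m ∅ := fun n => by simp

/-- only finitely many demands have small rank -/
theorem Mult.finite {m : ℕ} {d : Set (ℕ × ℕ)} (h : Mult m d) (c : ℕ) :
    {k | ∃ n < c, (n, k) ∈ d}.Finite ∧ {k | ∃ n < c, (n, k) ∈ d}.encard ≤ (c * m : ℕ) := by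
  have : {k | ∃ n < c, (n, k) ∈ d}.encard ≤ (c * m : ℕ) := by
    induction c with
    | zero => simp
    | succ c ih =>
      have e : {k | ∃ n < c + 1, (n, k) ∈ d} = {k | ∃ n < c, (n, k) ∈ d} ∪ {k | (c, k) ∈ d} := by
        ext k
        simp only [Nat.lt_succ_iff_lt_or_eq, mem_ofPred_eq, mem_union]
        constructor
        · rintro ⟨n, h1 | rfl, h2⟩
          exacts [Or.inl ⟨n, h1, h2⟩, Or.inr h2]
        · rintro (⟨n, h1, h2⟩ | h2)
          exacts [⟨n, Or.inl h1, h2⟩, ⟨c, Or.inr rfl, h2⟩]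
      rw [e, Nat.succ_mul]
      exact (encard_union_le _ _).trans (by push_cast at ih ⊢; exact add_le_add ih (h c))
  exact ⟨finite_of_encard_le_coe this, this⟩

section
variable {O O' : Type} {F : Set (ℕ × ℕ) → O → O → Prop} {m m' : ℕ} {Z Z' : Set O} {a b : O}

/-- a coinduction principle -/
theorem R.intro (Φ : ℕ → O → Prop)
    (h : ∀ m a, Φ (m + 1) a → ∀ d, Mult (m + 1) d → ∃ b ∈ Z, F d a b ∧ Φ m b) (h' : Φ m a) :
    R F m Z a := by
  induction m generalizing a with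
  | zero => trivial
  | succ m ih => exact fun d hd => let ⟨b, h1, h2, h3⟩ := h m a h' d hd; ⟨b, h1, h2, ih h3⟩

theorem R.mono (h : R F m Z a) (h' : Z ⊆ Z') : R F m Z' a :=
  R.intro (fun m a => R F m Z a)
    (fun _ _ h d hd => let ⟨b, h1, h2⟩ := h d hd; ⟨b, h' h1, h2⟩) h

theorem R.pred (h : R F (m + 1) Z a) : R F m Z a :=
  R.intro (fun m a => R F (m + 1) Z a) (fun _ _ h d hd => h d (hd.le (Nat.le_succ _))) h

theorem R.le (h : R F m Z a) (h' : m' ≤ m) : R F m' Z a := by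
  induction m, h' using Nat.le_induction with
  | base => exact h
  | succ m _ ih => exact ih h.pred

theorem R.nonempty (h : R F m Z a) (h' : 1 ≤ m) : Z.Nonempty :=
  let ⟨b, h1, _⟩ := h.le h' ∅ (mult_empty _); ⟨b, h1⟩

theorem R.root (hF : IsFr F) {d : Set (ℕ × ℕ)} (h : F d a b) (h' : R F m Z b) : R F m Z a := by
  cases m with
  | zero => trivial
  | succ m => exact fun d' hd => let ⟨c, h1, h2, h3⟩ := h' d' hd; ⟨c, h1, hF.trans _ _ _ _ _ h h2, h3⟩

theorem R.union (hF : IsFr F) (h : R F (m + m') (Z ∪ Z') a) : R F m Z a ∨ R F m' Z' a := by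
  induction hn : m + m' generalizing m m' a with
  | zero =>
    obtain rfl : m = 0 := by omega
    exact Or.inl trivial
  | succ n ih =>
    cases m with
    | zero => exact Or.inl trivial
    | succ m =>
    cases m' with
    | zero => exact Or.inr trivial
    | succ m' =>
    by_contra hc
    simp only [R, not_or, not_forall, not_exists, not_and] at hc
    obtain ⟨⟨d, d1, d2⟩, d', d3, d4⟩ := hc
    rw [hn] at h
    obtain ⟨b, h1 | h1, h2, h3⟩ := h (d ∪ d') (hn ▸ d1.union d3)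
    · have e : m + (m' + 1) = n := by omega
      rcases ih (e ▸ h3) e with h4 | h4
      · exact d2 b h1 (hF.anti _ _ _ _ subset_union_left h2) h4
      · obtain ⟨c, h5, h6, h7⟩ := R.root hF h2 h4 d' d3
        exact d4 c h5 h6 h7
    · have e : m + 1 + m' = n := by omega
      rcases ih (e ▸ h3) e with h4 | h4
      · obtain ⟨c, h5, h6, h7⟩ := R.root hF h2 h4 d d1
        exact d2 c h5 h6 h7
      · exact d4 b h1 (hF.anti _ _ _ _ subset_union_right h2) h4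

theorem R.low (hF : IsFr F) (h : R F (m' + m) Z a) :
    R F m {b ∈ Z | F ∅ a b ∧ R F m' Z b} a := by
  refine R.intro (fun m b => (b = a ∨ F ∅ a b) ∧ R F (m' + m) Z b) (fun m b h d hd => ?_)
    ⟨Or.inl rfl, h⟩
  obtain ⟨c, h1, h2, h3⟩ := h.2 d (hd.le (Nat.le_add_left _ _))
  have h4 : F ∅ a c := by
    have := hF.anti _ _ _ _ (empty_subset d) h2
    rcases h.1 with rfl | h5
    exacts [this, hF.trans _ _ _ _ _ h5 this]
  exact ⟨c, ⟨h1, h4, h3.le (Nat.le_add_right _ _)⟩, h2, Or.inr h4, h3⟩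

end

theorem isFr_IF {lo hi rk : ℕ → ℕ} (h : Monotone rk) : IsFr (IF lo hi rk) where
  anti _ _ _ _ hd h := ⟨h.1, h.2.1, h.2.2.1, fun e he => h.2.2.2 e (hd he)⟩
  trans _ _ _ _ _ h1 h2 := ⟨h1.1.trans h2.1, h2.2.1, h2.2.2.1.trans h1.2.2.1,
    fun e he h3 h4 => (h h1.1.le).trans (h2.2.2.2 e he h3 h4)⟩

theorem mem_Iv {b : ℕ} {p : ℕ × ℕ} : p ∈ Iv b ↔ 1 ≤ p.1 ∧ p.1 ≤ p.2 ∧ p.2 ≤ b := by
  simp only [Iv, Finset.mem_filter, Finset.mem_product, Finset.mem_Icc]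
  omega

/-- the interval lemma -/
theorem exists_interval {lo : ℕ → ℕ} (hi rk : ℕ → ℕ) (h : Tendsto lo atTop atTop) (m a : ℕ) :
    ∃ b, a < b ∧ R (IF lo hi rk) m (Iv b) (a, b) := by
  induction m generalizing a with
  | zero => exact ⟨a + 1, Nat.lt_succ_self a, trivial⟩
  | succ m ih =>
    have key : ∀ (N : ℕ) (a : ℕ), ∃ b, a < b ∧ ∀ E : Set ℕ, E.encard ≤ N → ∃ p : ℕ × ℕ,
        a < p.1 ∧ p.1 ≤ p.2 ∧ p.2 ≤ b ∧ R (IF lo hi rk) m (Iv p.2) p ∧
          ∀ k ∈ E, ¬ (lo p.1 ≤ k ∧ k < hi p.2) := by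
      intro N
      induction N with
      | zero =>
        intro a
        obtain ⟨b, h1, h2⟩ := ih (a + 1)
        refine ⟨b, by omega, fun E hE => ⟨(a + 1, b), Nat.lt_succ_self a, h1.le, le_rfl, h2, ?_⟩⟩
        obtain rfl : E = ∅ := by simpa using hE
        simp
      | succ N ihN =>
        intro a
        obtain ⟨b, h1, h2⟩ := ih (a + 1)
        obtain ⟨a', h3⟩ := eventually_atTop.1 (h.eventually_ge_atTop (hi b))
        obtain ⟨b', h4, h5⟩ := ihN (a' + b)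
        refine ⟨b', by omega, fun E hE => ?_⟩
        by_cases h6 : ∀ k ∈ E, ¬ (lo (a + 1) ≤ k ∧ k < hi b)
        · exact ⟨(a + 1, b), Nat.lt_succ_self a, h1.le, by dsimp only; omega, h2, h6⟩
        push Not at h6
        obtain ⟨k, h7, -, h8⟩ := h6
        obtain ⟨p, c1, c2, c3, c4, c5⟩ := h5 (E \ {k}) (by
          rw [encard_sdiff_singleton_of_mem h7]
          exact tsub_le_iff_right.2 (by exact_mod_cast hE))
        refine ⟨p, by omega, c2, c3, c4, fun k' hk' => ?_⟩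
        by_cases e : k' = k
        · have := h3 p.1 (by omega)
          omega
        · exact c5 k' ⟨hk', e⟩
    obtain ⟨b, h1, h2⟩ := key (rk a * (m + 1)) a
    refine ⟨b, h1, fun d hd => ?_⟩
    obtain ⟨p, c1, c2, c3, c4, c5⟩ := h2 _ (hd.finite (rk a)).2
    refine ⟨p, mem_Iv.2 ⟨by omega, c2, c3⟩, ⟨c1, c2, c3, fun e he c6 c7 => ?_⟩,
      c4.mono fun q hq => ?_⟩
    · by_contra hc
      exact c5 e.2 ⟨e.1, not_le.1 hc, he⟩ ⟨c6, c7⟩
    · have := mem_Iv.1 hq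
      exact mem_Iv.2 ⟨this.1, this.2.1, this.2.2.trans c3⟩

theorem mem_box {O : Type} {B : ℕ → Finset O} {a b : ℕ} {df η : ℕ → O} :
    η ∈ box B a b df ↔ ∀ i, (a ≤ i → i < b → η i ∈ B i) ∧ (¬ (a ≤ i ∧ i < b) → η i = df i) := by
  classical
  simp only [box, Finset.mem_image, Finset.mem_pi]
  constructor
  · rintro ⟨f, h1, rfl⟩ i
    refine ⟨fun h2 h3 => ?_, fun h => dif_neg fun h' => h (Finset.mem_Ico.1 h')⟩
    have := Finset.mem_Ico.2 ⟨h2, h3⟩
    simp only [dif_pos this]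
    exact h1 i this
  · intro h
    refine ⟨fun i _ => η i, fun i hi => (h i).1 (Finset.mem_Ico.1 hi).1 (Finset.mem_Ico.1 hi).2,
      funext fun i => ?_⟩
    split_ifs with hi
    exacts [rfl, ((h i).2 fun h' => hi (Finset.mem_Ico.2 h')).symm]

theorem card_box {O : Type} (B : ℕ → Finset O) (a b : ℕ) (df : ℕ → O) :
    (box B a b df).card ≤ ∏ i ∈ Finset.Ico a b, (B i).card := by
  classical
  unfold box
  convert Finset.card_image_le.trans (Finset.card_pi _ _).le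

theorem prod_le_two_pow_sum (s : Finset ℕ) (f : ℕ → ℕ) : ∏ i ∈ s, f i ≤ 2 ^ ∑ i ∈ s, f i := by
  rw [← Finset.prod_pow_eq_pow_sum]
  exact Finset.prod_le_prod' fun i _ => Nat.lt_two_pow_self.le

theorem Box.mono {B : ℕ → Finset ℕ} {t t' : ℕ} {η η' : ℕ → ℕ} {Q : (ℕ → ℕ) → Prop}
    (h : Box B t η Q) (ht : t ≤ t') (hη : ∀ i < t, η' i = η i) : Box B t' η' Q :=
  fun ξ h1 h2 => h ξ h1 fun i hi => (h2 i (hi.trans_le ht)).trans (hη i hi)

theorem Box.self {B : ℕ → Finset ℕ} {t : ℕ} {η : ℕ → ℕ} {Q : (ℕ → ℕ) → Prop}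
    (h : Box B t η Q) (hη : η ∈ Pt B) : Q η := h η hη fun _ _ => rfl

end Pool.Agent.P.MP_b17faa_gt.X7
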