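import Pool.Agent.P.MP_b17faa_gt.X7Norm

/-!
Basic facts on runs of machines.
-/

namespace Pool.Agent.P.MP_b17faa_gt.X7

open Set Filter Function Relation

theorem Op.lev_le (o : Op) (s : ℕ) : o.lev s ≤ 2 * s + 1 := by
  cases o <;> simp only [Op.lev] <;> omega

theorem Op.le_dep {o : Op} {s p : ℕ} (h : 2 * p ≤ o.lev s) (hp : p ≤ s) : p ≤ o.dep s := by
  cases o <;> simp only [Op.lev, Op.dep] at * <;> omega

theorem Op.eq_rep {o : Op} {s p : ℕ} (h : o.lev s = 2 * p) (hp : 1 ≤ p) : o = .rep ∧ s = p := by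
  cases o <;> simp only [Op.lev] at h <;> first | omega | exact ⟨rfl, by omega⟩

namespace Mach

variable {N O : Type} {M : Mach N O} {η η' η'' : ℕ → O} {Q Q' : N → Op → Prop} {x y z : N}
  {l l' : ℕ}

theorem le_sz (M : Mach N O) (i : ℕ) : i ≤ M.sz i := by
  refine le_trans ?_ (M.sum_le i)
  simpa using Finset.card_nsmul_le_sum (Finset.range i) (fun j => (M.A j).card) 1
    fun j _ => (M.ne j).card_pos

theorem eff_le (M : Mach N O) (x : N) : M.eff x ≤ M.T (M.idx x) := (M.bd x _ le_rfl).2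

theorem countable (M : Mach N O) : Countable N :=
  countable_univ_iff.1 ((countable_iUnion fun i => (M.fib i).countable).mono fun x _ =>
    mem_iUnion.2 ⟨M.idx x, rfl⟩)

theorem finite_le (M : Mach N O) (c : ℕ) : {x | M.idx x ≤ c}.Finite :=
  ((finite_Iic c).biUnion fun i _ => M.fib i).subset fun _ hx => mem_biUnion hx rfl

theorem Walk.refl : M.Walk η Q x x := ReflTransGen.refl

theorem Walk.trans (h : M.Walk η Q x y) (h' : M.Walk η Q y z) : M.Walk η Q x z :=
  ReflTransGen.trans h h'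

theorem Walk.single {o : Op} (h : Q x o) : M.Walk η Q x (M.step x o (η (M.idx x))) :=
  ReflTransGen.single ⟨o, h, rfl⟩

theorem Walk.tail {o : Op} (h : M.Walk η Q x y) (h' : Q y o) :
    M.Walk η Q x (M.step y o (η (M.idx y))) := h.trans (.single h')

/-- induction along a run -/
theorem Walk.induction {I : N → Prop} (h : M.Walk η Q x y) (h0 : I x)
    (hs : ∀ a o, M.Walk η Q x a → I a → Q a o → I (M.step a o (η (M.idx a)))) : I y := by
  induction h with
  | refl => exact h0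
  | tail h1 h2 ih =>
    obtain ⟨o, h3, rfl⟩ := h2
    exact hs _ o h1 ih h3

theorem Walk.idx_le (h : M.Walk η Q x y) : M.idx x ≤ M.idx y :=
  h.induction (I := fun a => M.idx x ≤ M.idx a) le_rfl fun a o _ h _ => by
    rw [M.idx_step]; omega

theorem Walk.eq_of_idx (h : M.Walk η Q x y) (h' : M.idx y ≤ M.idx x) : y = x := by
  rcases ReflTransGen.cases_tail h with h | ⟨a, h1, o, -, rfl⟩
  · exact h
  · have := Walk.idx_le h1
    rw [M.idx_step] at h'
    omega

/-- the general transfer principle: the predicate and the options may be changed, using an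
invariant `I` -/
theorem Walk.imp_inv {I : N → Prop} (h : M.Walk η Q x y) (h0 : I x)
    (hs : ∀ a o, I a → Q a o → M.idx x ≤ M.idx a → M.idx a < M.idx y →
      Q' a o ∧ η' (M.idx a) = η (M.idx a) ∧ I (M.step a o (η (M.idx a)))) :
    M.Walk η' Q' x y ∧ I y := by
  induction h with
  | refl => exact ⟨.refl, h0⟩
  | @tail a b h1 h2 ih =>
    obtain ⟨o, h3, rfl⟩ := h2
    have e := M.idx_step a o (η (M.idx a))
    obtain ⟨i1, i2⟩ := ih fun a' o' c1 c2 c3 c4 => hs a' o' c1 c2 c3 (by omega)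
    obtain ⟨c1, c2, c3⟩ := hs a o i2 h3 (Walk.idx_le h1) (by omega)
    exact ⟨c2 ▸ i1.tail c1, c3⟩

theorem Walk.imp (h : M.Walk η Q x y)
    (hs : ∀ a o, Q a o → M.idx x ≤ M.idx a → M.idx a < M.idx y → Q' a o) : M.Walk η Q' x y :=
  (h.imp_inv (I := fun _ => True) trivial fun a o _ h1 h2 h3 => ⟨hs a o h1 h2 h3, rfl, trivial⟩).1

theorem Walk.mono (h : M.Walk η Q x y) (hs : ∀ a o, Q a o → Q' a o) : M.Walk η Q' x y :=
  h.imp fun a o h _ _ => hs a o h

theorem Walk.congr (h : M.Walk η Q x y)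
    (hs : ∀ i, M.idx x ≤ i → i < M.idx y → η' i = η i) : M.Walk η' Q x y :=
  (h.imp_inv (I := fun _ => True) trivial fun _ _ _ h1 h2 h3 => ⟨h1, hs _ h2 h3, trivial⟩).1

theorem Walk.wd (h : M.Walk η Q x y) {k : ℕ} (hk : k < M.T (M.idx x)) : M.wd y k = M.wd x k :=
  h.induction (I := fun a => M.wd a k = M.wd x k) rfl fun a o h1 h2 _ =>
    (M.wd_step a o _ k (hk.trans_le (M.T_mono.monotone h1.idx_le))).trans h2

/-- the step of a run at a given level -/
theorem Walk.extract (h : M.Walk η Q x y) {i : ℕ} (h1 : M.idx x ≤ i) (h2 : i < M.idx y) :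
    ∃ a o, M.idx a = i ∧ M.Walk η Q x a ∧ Q a o ∧ M.Walk η Q (M.step a o (η i)) y := by
  induction h with
  | refl => omega
  | @tail a b h3 h4 ih =>
    obtain ⟨o, h5, rfl⟩ := h4
    rw [M.idx_step] at h2
    rcases (Nat.le_of_lt_succ h2).eq_or_lt with rfl | h6
    · exact ⟨a, o, rfl, h3, h5, .refl⟩
    · obtain ⟨a', o', c1, c2, c3, c4⟩ := ih h6
      exact ⟨a', o', c1, c2, c3, c4.tail h5⟩

/-- during a quiet period the rank bound of the top position does not change -/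
theorem Walk.quiet {Z : ℕ → Prop} (h : M.Walk η Q x y) (hQ : ∀ a o, Q a o → ¬ Z (M.idx a) → o = .sit)
    {u : ℕ} (h1 : M.idx x ≤ u) (h2 : u ≤ M.idx y) (h3 : ∀ i, u ≤ i → i < M.idx y → ¬ Z i) :
    M.eff y ≤ M.T u := by
  induction h with
  | refl => exact le_antisymm h1 h2 ▸ M.eff_le x
  | @tail a b h4 h5 ih =>
    obtain ⟨o, h6, rfl⟩ := h5
    rcases h2.eq_or_lt with e | e
    · exact e ▸ M.eff_le _
    rw [M.idx_step] at e h3
    obtain rfl := hQ a o h6 (h3 _ (by omega) (by omega))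
    have := ih (by omega) fun i c1 c2 => h3 i c1 (by omega)
    unfold eff at this ⊢
    rwa [M.dep_step, Op.dep, M.ent_step _ _ _ _ le_rfl]

theorem Play.refl : M.Play η l x x := Walk.refl

theorem Play.trans (h : M.Play η l x y) (h' : M.Play η l y z) : M.Play η l x z := Walk.trans h h'

theorem Play.mono (h : M.Play η l x y) (h' : l' ≤ l) : M.Play η l' x y :=
  Walk.mono h fun _ _ h => h'.trans h

theorem Play.dep_ge {s : ℕ} (h : M.Play η (2 * s) x y) (hs : s ≤ M.dep x) : s ≤ M.dep y :=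
  Walk.induction (I := fun a => s ≤ M.dep a) h hs fun a o _ h1 h2 => by
    rw [M.dep_step]; exact Op.le_dep h2 h1

theorem Play.ent {p : ℕ} (h : M.Play η l x y) (hp : 2 * p + 1 ≤ l) : M.ent y p = M.ent x p :=
  Walk.induction (I := fun a => M.ent a p = M.ent x p) h rfl fun a o _ h1 h2 =>
    (M.ent_step a o _ p (hp.trans h2)).trans h1

theorem Play.eff (h : M.Play η (2 * M.dep x + 1) x y) (h' : M.dep y = M.dep x) :
    M.eff y = M.eff x := by
  unfold Mach.eff
  rw [h', h.ent le_rfl]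

theorem Play.fresh {b c : ℕ} (h : M.Play η (2 * b) x y) (h1 : 1 ≤ b) (h3 : c ≤ (M.ent x b).1)
    (h4 : c ≤ M.T (M.idx x)) : c ≤ (M.ent y b).1 :=
  Walk.induction (I := fun a => c ≤ (M.ent a b).1) h h3 fun a o c1 c2 c3 => by
    rcases c3.eq_or_lt with e | e
    · obtain ⟨rfl, e'⟩ := Op.eq_rep e.symm h1
      have := M.new a .rep (η (M.idx a)) (Or.inr rfl) (e' ▸ h1)
      rw [Op.dep, e'] at this
      exact (h4.trans (M.T_mono.monotone c1.idx_le)).trans this
    · rwa [M.ent_step a o _ b e]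

theorem Sit.refl : M.Sit η x x := Walk.refl

theorem Sit.trans (h : M.Sit η x y) (h' : M.Sit η y z) : M.Sit η x z := Walk.trans h h'

/-- waiting is a run for every predicate which holds for all waiting steps at the same depth
and with the same rank bound -/
theorem Sit.walk (h : M.Sit η x y) (hQ : ∀ a, M.idx x ≤ M.idx a → M.idx a < M.idx y →
    M.dep a = M.dep x → M.eff a = M.eff x → Q a .sit) :
    M.Walk η Q x y ∧ M.dep y = M.dep x ∧ M.eff y = M.eff x :=
  Walk.imp_inv (I := fun a => M.dep a = M.dep x ∧ M.eff a = M.eff x) h ⟨rfl, rfl⟩ (by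
    rintro a _ ⟨c1, c2⟩ rfl c3 c4
    refine ⟨hQ a c3 c4 c1 c2, rfl, (M.dep_step _ _ _).trans c1, Eq.trans ?_ c2⟩
    unfold eff
    rw [M.dep_step, Op.dep, M.ent_step _ _ _ _ le_rfl])

theorem Sit.dep (h : M.Sit η x y) : M.dep y = M.dep x :=
  (h.walk (Q := fun _ _ => True) fun _ _ _ _ _ => trivial).2.1

theorem Sit.eff (h : M.Sit η x y) : M.eff y = M.eff x :=
  (h.walk (Q := fun _ _ => True) fun _ _ _ _ _ => trivial).2.2

theorem Sit.play (h : M.Sit η x y) : M.Play η (2 * M.dep x + 1) x y :=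
  (h.walk fun _ _ _ h _ => by rw [h, Op.lev]).1

theorem exists_sit (η : ℕ → O) (x : N) {i : ℕ} (h : M.idx x ≤ i) :
    ∃ y, M.Sit η x y ∧ M.idx y = i := by
  induction i, h using Nat.le_induction with
  | base => exact ⟨x, .refl, rfl⟩
  | succ i _ ih =>
    obtain ⟨y, h1, h2⟩ := ih
    exact ⟨_, Walk.tail h1 rfl, by rw [M.idx_step, h2]⟩

theorem Sit.lin (h : M.Sit η x y) (h' : M.Sit η x z) : M.Sit η y z ∨ M.Sit η z y := by
  refine ReflTransGen.total_of_right_unique ?_ h h'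
  rintro a _ _ ⟨_, rfl, rfl⟩ ⟨_, rfl, rfl⟩
  rfl

theorem exists_down (η : ℕ → O) {s : ℕ} (x : N) (h : s ≤ M.dep x) :
    ∃ y, M.Play η (2 * s + 1) x y ∧ M.dep y = s := by
  induction hn : M.dep x - s generalizing x with
  | zero => exact ⟨x, .refl, by omega⟩
  | succ n ih =>
    have e : M.dep (M.step x .pop (η (M.idx x))) = M.dep x - 1 := M.dep_step _ _ _
    obtain ⟨y, h1, h2⟩ := ih (M.step x .pop (η (M.idx x))) (by omega) (by omega)
    exact ⟨y, Walk.trans (.single (by rw [Op.lev]; omega)) h1, h2⟩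

/-- the arena of a machine -/
theorem ok (M : Mach N O) (V : ℕ × ℕ → Set (ℕ → ℕ)) (η : ℕ → O) : Ok (M.stat V) (M.dyn η) where
  refl _ _ := .refl
  trans _ _ _ _ := Play.trans
  mono _ _ _ _ h h' := Play.mono h' h
  dep_ge _ _ _ := Play.dep_ge
  down _ := exists_down η
  push x := ⟨_, Walk.single (o := .push) le_rfl, M.dep_step _ _ _,
    M.new x .push _ (Or.inl rfl) (Nat.le_add_left _ _)⟩
  rep x h := ⟨_, Walk.single (o := .rep) le_rfl, M.dep_step _ _ _, M.new x .rep _ (Or.inr rfl) h,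
    M.T_mono (by rw [M.idx_step]; exact Nat.lt_succ_self _)⟩
  tm_le _ _ h := M.T_mono.monotone (Walk.idx_le h)
  fresh _ _ _ _ h h1 _ := Play.fresh h h1
  kill _ _ _ h h1 y h2 := h1 y fun k hk =>
    (h2 k (hk.trans_le (M.T_mono.monotone (Walk.idx_le h)))).trans (Walk.wd h hk)
  st_refl _ := .refl
  st_trans _ _ _ := Sit.trans
  st_lin _ _ _ := Sit.lin
  st_pl _ _ h := ⟨Sit.play h, Sit.dep h⟩

theorem chain {xs : ℕ → N} (h : ∀ n, M.Play η l (xs n) (xs (n + 1))) {a b : ℕ} (hab : a ≤ b) :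
    M.Play η l (xs a) (xs b) := by
  induction b, hab using Nat.le_induction with
  | base => exact .refl
  | succ b _ ih => exact ih.trans (h b)

theorem chain_tendsto {p : ℕ} {xs : ℕ → N} (h0 : p ≤ M.dep (xs 0))
    (h : ∀ n, M.Play η (2 * p) (xs n) (xs (n + 1))) (h' : ∀ c, ∃ n, c ≤ (M.ent (xs n) p).1) :
    Tendsto (fun n => M.idx (xs n)) atTop atTop := by
  refine tendsto_atTop_atTop_of_monotone (fun a b hab => Walk.idx_le (chain h hab)) fun c => ?_
  obtain ⟨n, hn⟩ := h' (M.T c)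
  exact ⟨n, M.T_mono.le_iff_le.1
    (hn.trans (M.bd _ p ((chain h (Nat.zero_le n)).dep_ge h0)).1)⟩

/-- a legal chain has an output -/
theorem exists_output {p : ℕ} {xs : ℕ → N} (h0 : p ≤ M.dep (xs 0))
    (h : ∀ n, M.Play η (2 * p) (xs n) (xs (n + 1))) (h' : ∀ c, ∃ n, c ≤ (M.ent (xs n) p).1) :
    ∃ y : ℕ → ℕ, ∀ n k, k < M.T (M.idx (xs n)) → y k = M.wd (xs n) k := by
  have : ∀ k, ∃ n, k < M.T (M.idx (xs n)) := fun k =>
    (((M.T_mono.tendsto_atTop).comp (chain_tendsto h0 h h')).eventually_gt_atTop k).exists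
  choose f hf using this
  refine ⟨fun k => M.wd (xs (f k)) k, fun n k hk => ?_⟩
  rcases le_total n (f k) with c | c
  exacts [Walk.wd (chain h c) hk, (Walk.wd (chain h c) (hf k)).symm]

/-- legal chains may be assumed to start late -/
theorem Legal.late {y : ℕ → ℕ} (h : M.Legal η y) (b : ℕ) :
    ∃ (p : ℕ) (xs : ℕ → N), b ≤ M.idx (xs 0) ∧ 1 ≤ p ∧ p ≤ M.dep (xs 0) ∧
      (∀ n, M.Play η (2 * p) (xs n) (xs (n + 1))) ∧ (∀ c, ∃ n, c ≤ (M.ent (xs n) p).1) ∧
        ∀ n k, k < M.T (M.idx (xs n)) → y k = M.wd (xs n) k := by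
  obtain ⟨p, xs, h1, h2, h3, h4, h5⟩ := h
  obtain ⟨m, hm⟩ := ((chain_tendsto h2 h3 h4).eventually_ge_atTop b).exists
  refine ⟨p, fun n => xs (m + n), hm, h1, (chain h3 (Nat.zero_le _)).dep_ge h2, fun n => h3 _,
    fun c => ?_, fun n => h5 _⟩
  obtain ⟨n, hn⟩ := h4 (c + M.T (M.idx (xs m)) + 1)
  rcases le_total m n with e | e
  · exact ⟨n - m, by simp only [Nat.add_sub_cancel' e]; omega⟩
  · have := (M.bd _ p ((chain h3 (Nat.zero_le n)).dep_ge h2)).1
    have := M.T_mono.monotone (Walk.idx_le (chain h3 e))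
    omega

theorem Legal.congr {y : ℕ → ℕ} (h : M.Legal η y) (h' : ∀ᶠ i in atTop, η' i = η i) :
    M.Legal η' y := by
  obtain ⟨b, hb⟩ := eventually_atTop.1 h'
  obtain ⟨p, xs, h0, h1, h2, h3, h4⟩ := h.late b
  exact ⟨p, xs, h1, h2, fun n => Walk.congr (h3 n) fun i c _ =>
    hb i ((h0.trans (Walk.idx_le (chain h3 (Nat.zero_le n)))).trans c), h4⟩

/-- a legal point is in an open set iff the set is killed at some stage -/
theorem mem_iff_kill {p : ℕ} {xs : ℕ → N} {y : ℕ → ℕ} (h0 : p ≤ M.dep (xs 0))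
    (h : ∀ n, M.Play η (2 * p) (xs n) (xs (n + 1))) (h' : ∀ c, ∃ n, c ≤ (M.ent (xs n) p).1)
    (hy : ∀ n k, k < M.T (M.idx (xs n)) → y k = M.wd (xs n) k) {V : ℕ × ℕ → Set (ℕ → ℕ)}
    {e : ℕ × ℕ} (hV : IsOpen (V e)) : y ∈ V e ↔ ∃ n, (M.stat V).kill (xs n) e := by
  refine ⟨fun h1 => ?_, fun ⟨n, h1⟩ => h1 y (hy n)⟩
  obtain ⟨I, t, h2, h3⟩ := isOpen_pi_iff.1 hV _ h1
  obtain ⟨n, hn⟩ := (((M.T_mono.tendsto_atTop).comp
    (chain_tendsto h0 h h')).eventually_gt_atTop (I.sup id)).exists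
  refine ⟨n, fun y' h4 => h3 fun i hi => ?_⟩
  have := (Finset.le_sup (f := id) hi).trans_lt hn
  rw [h4 i this, ← hy n i this]
  exact (h2 i hi).2

theorem Below.refl (η : ℕ → O) : M.Below η η := .of_forall fun _ => Or.inl rfl

theorem Below.trans (h : M.Below η η') (h' : M.Below η' η'') : M.Below η η'' := by
  filter_upwards [h, h'] with i h1 h2
  rcases h1 with h1 | h1
  · rwa [h1]
  rcases h2 with h2 | h2
  exacts [Or.inr (h2 ▸ h1), Or.inr ((M.fr i).trans _ _ _ _ _ h1 h2)]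

end Mach

/-- the inverse of a function which is strictly increasing from `j0` on -/
theorem exists_bk {bl : ℕ → ℕ} {j0 : ℕ} (h : ∀ j, j0 ≤ j → bl j < bl (j + 1))
    (h0 : j0 = 0 → bl 0 = 0) : ∃ bk : ℕ → ℕ, ∀ j i, j0 ≤ j → (bl j ≤ i ↔ j ≤ bk i) := by
  classical
  have mono : ∀ a b, j0 ≤ a → a ≤ b → bl a + (b - a) ≤ bl b := fun a b h1 h2 => by
    induction b, h2 using Nat.le_induction with
    | base => omega
    | succ b h2 ih => have := h b (h1.trans h2); omega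
  refine ⟨fun i => Nat.findGreatest (fun j => j0 ≤ j ∧ bl j ≤ i) (j0 + i), fun j i hj =>
    ⟨fun h1 => Nat.le_findGreatest ?_ ⟨hj, h1⟩, fun h1 => ?_⟩⟩
  · have := mono j0 j le_rfl hj
    omega
  · rcases Nat.eq_zero_or_pos j with rfl | h2
    · exact (h0 (by omega)).trans_le (Nat.zero_le _)
    · have h3 := (Nat.findGreatest_eq_iff.1 rfl).2.1 (Nat.ne_of_gt (h2.trans_le h1))
      exact ((Nat.le_add_right _ _).trans (mono j _ hj h1)).trans h3.2

end Pool.Agent.P.MP_b17faa_gt.X7
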